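import Mathlib

/-!
# Codes of Borel subsets of the space of codes, and their evaluations
-/

open Set Topology

namespace Q215.Ab

/-- The space of codes: a code tells for every finite sequence of natural numbers whether the
node is a leaf (`true`) or an inner node (`false`). -/
abbrev P : Type := List ℕ → Bool

/-- the basic set with number `n`: the pair of a node and a bit is coded by `n` -/
def bas (n : ℕ) (x : P) : Bool :=
  decide (x (Denumerable.ofNat (List ℕ) (n / 2)) = decide (n % 2 = 1))

/-- evaluation of a code `c` at `x`; the children of the node `s` are the nodes `n :: s` -/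
inductive V (c x : P) : List ℕ → Bool → Prop
  | leaf (s : List ℕ) (h : c s = true) : V c x s (bas (s.headD 0) x)
  | one (s : List ℕ) (h : c s = false) (h' : ∀ n, V c x (n :: s) false) : V c x s true
  | zero (s : List ℕ) (n : ℕ) (h : c s = false) (h' : V c x (n :: s) true) : V c x s false

/-- the child relation at inner nodes -/
def Rel (c : P) (t s : List ℕ) : Prop := c s = false ∧ ∃ n, t = n :: s

theorem V_exists {c : P} (x : P) {s : List ℕ} (h : Acc (Rel c) s) : ∃ v, V c x s v := by
  induction h with
  | intro s _ ih =>
    by_cases hs : c s = true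
    · exact ⟨_, V.leaf s hs⟩
    · rw [Bool.not_eq_true] at hs
      have h1 : ∀ n, ∃ v, V c x (n :: s) v := fun n => ih _ ⟨hs, n, rfl⟩
      by_cases h2 : ∃ n, V c x (n :: s) true
      · obtain ⟨n, hn⟩ := h2
        exact ⟨false, V.zero s n hs hn⟩
      · push Not at h2
        refine ⟨true, V.one s hs fun n => ?_⟩
        obtain ⟨v, hv⟩ := h1 n
        cases v with
        | false => exact hv
        | true => exact absurd hv (h2 n)

theorem V_unique {c x : P} {s : List ℕ} {v v' : Bool} (h : V c x s v) (h' : V c x s v') :
    v = v' := by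
  induction h generalizing v' with
  | leaf s hs =>
    cases h' with
    | leaf => rfl
    | one _ h1 => rw [hs] at h1; exact absurd h1 (by decide)
    | zero _ _ h1 => rw [hs] at h1; exact absurd h1 (by decide)
  | one s hs hall ih =>
    cases h' with
    | leaf _ h1 => rw [hs] at h1; exact absurd h1 (by decide)
    | one => rfl
    | zero _ n _ h2 => exact absurd (ih n h2) (by decide)
  | zero s n hs hn ih =>
    cases h' with
    | leaf _ h1 => rw [hs] at h1; exact absurd h1 (by decide)
    | one _ _ h2 => exact absurd (ih (h2 n)) (by decide)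
    | zero => rfl

theorem V_true_inner {c x : P} {s : List ℕ} {v : Bool} (h : V c x s v) (hv : v = true)
    (hcs : c s = false) : ∀ n, V c x (n :: s) false := by
  cases h with
  | leaf _ h1 => rw [hcs] at h1; exact absurd h1 (by decide)
  | one _ _ h2 => exact h2
  | zero => exact absurd hv (by decide)

/-- the code `c` has an inner root, is well-founded and codes the set `B` -/
def Codes (c : P) (B : Set P) : Prop :=
  c [] = false ∧ Acc (Rel c) [] ∧ (∀ x ∈ B, V c x [] true) ∧ ∀ x, x ∉ B → V c x [] false

/-- join of a sequence of codes below a new root -/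
def nor (c : ℕ → P) : P := fun s =>
  match s.getLast? with
  | none => false
  | some n => c n s.dropLast

theorem nor_nil (c : ℕ → P) : nor c [] = false := rfl

theorem nor_append (c : ℕ → P) (t : List ℕ) (n : ℕ) : nor c (t ++ [n]) = c n t := by
  simp [nor]

theorem nor_acc {c : ℕ → P} {n : ℕ} {t : List ℕ} (h : Acc (Rel (c n)) t) :
    Acc (Rel (nor c)) (t ++ [n]) := by
  induction h with
  | intro t _ ih =>
    constructor
    rintro s ⟨h1, k, rfl⟩
    rw [nor_append] at h1
    exact ih (k :: t) ⟨h1, k, rfl⟩

theorem nor_V {c : ℕ → P} (hc : ∀ n, c n [] = false) {x : P} {n : ℕ} {t : List ℕ} {v : Bool}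
    (h : V (c n) x t v) : V (nor c) x (t ++ [n]) v := by
  induction h with
  | leaf t ht =>
    have hne : t ≠ [] := by
      rintro rfl
      rw [hc n] at ht
      exact absurd ht (by decide)
    have h1 : (t ++ [n]).headD 0 = t.headD 0 := by
      cases t with
      | nil => exact absurd rfl hne
      | cons a t => rfl
    rw [← h1]
    exact V.leaf _ (by rw [nor_append]; exact ht)
  | one t ht _ ih => exact V.one _ (by rw [nor_append]; exact ht) ih
  | zero t k ht _ ih => exact V.zero _ k (by rw [nor_append]; exact ht) ih

theorem nor_codes {c : ℕ → P} {B : ℕ → Set P} (h : ∀ n, Codes (c n) (B n)) :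
    Codes (nor c) (⋃ n, B n)ᶜ := by
  have hroot : ∀ n, c n [] = false := fun n => (h n).1
  refine ⟨rfl, ?_, ?_, ?_⟩
  · constructor
    rintro s ⟨-, n, rfl⟩
    exact nor_acc (t := []) (h n).2.1
  · intro x hx
    refine V.one [] rfl fun n => ?_
    refine nor_V hroot (t := []) ((h n).2.2.2 x fun hxn => hx (mem_iUnion.2 ⟨n, hxn⟩))
  · intro x hx
    rw [mem_compl_iff, not_not, mem_iUnion] at hx
    obtain ⟨n, hn⟩ := hx
    exact V.zero [] n rfl (nor_V hroot (t := []) ((h n).2.2.1 x hn))

/-- code of a basic set -/
def basCode (m : ℕ) : P := fun s =>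
  match s with
  | [] => false
  | [n] => decide (n = m)
  | _ => true

theorem bas_apply (t : List ℕ) (b : Bool) (x : P) :
    bas (2 * Encodable.encode t + if b = true then 1 else 0) x = decide (x t = b) := by
  unfold bas
  have h1 : (2 * Encodable.encode t + if b = true then 1 else 0) / 2 = Encodable.encode t := by
    by_cases hb : b = true
    · rw [if_pos hb]; omega
    · rw [if_neg hb]; omega
  have h2 : ((2 * Encodable.encode t + if b = true then 1 else 0) % 2 = 1) ↔ b = true := by
    by_cases hb : b = true
    · rw [if_pos hb]; exact ⟨fun _ => hb, fun _ => by omega⟩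
    · rw [if_neg hb]; exact ⟨fun h => by omega, fun h => absurd h hb⟩
  rw [h1, Denumerable.ofNat_encode]
  simp only [h2]
  cases b <;> simp

theorem bas_cases (x : P) : ∃ k, bas k x = true :=
  ⟨2 * Encodable.encode ([] : List ℕ) + if x [] = true then 1 else 0, by
    rw [bas_apply]; simp⟩

theorem basCode_codes (t : List ℕ) (b : Bool) : ∃ c, Codes c {x : P | x t = b} := by
  set m := 2 * Encodable.encode t + (if (!b) = true then 1 else 0) with hm
  have hbas : ∀ x : P, bas m x = decide (x t = !b) := fun x => bas_apply t (!b) x
  have hacc2 : ∀ s : List ℕ, 2 ≤ s.length → Acc (Rel (basCode m)) s := by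
    intro s hs
    constructor
    rintro s' ⟨h1, -⟩
    match s, hs with
    | a :: b :: s, _ => exact absurd h1 (by simp [basCode])
  have hacc1 : ∀ n : ℕ, Acc (Rel (basCode m)) [n] := by
    intro n
    constructor
    rintro s' ⟨-, k, rfl⟩
    exact hacc2 _ (by simp)
  refine ⟨basCode m, rfl, ?_, ?_, ?_⟩
  · constructor
    rintro s' ⟨-, k, rfl⟩
    exact hacc1 k
  · intro x hx
    have hx' : x t = b := hx
    refine V.one [] rfl fun n => ?_
    by_cases hn : n = m
    · subst hn
      have h1 : V (basCode m) x [m] (bas m x) := V.leaf [m] (by simp [basCode])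
      have h2 : bas m x = false := by
        rw [hbas, hx']
        cases b <;> decide
      rw [h2] at h1
      exact h1
    · obtain ⟨k, hk⟩ := bas_cases x
      refine V.zero [n] k (by simp [basCode, hn]) ?_
      have h1 : V (basCode m) x [k, n] (bas k x) := V.leaf [k, n] (by simp [basCode])
      rw [hk] at h1
      exact h1
  · intro x hx
    have hx' : x t ≠ b := hx
    refine V.zero [] m rfl ?_
    have h1 : V (basCode m) x [m] (bas m x) := V.leaf [m] (by simp [basCode])
    have h2 : bas m x = true := by
      rw [hbas, decide_eq_true_eq]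
      cases b <;> cases hxt : x t <;> simp_all
    rw [h2] at h1
    exact h1

theorem compl_codes {B : Set P} (h : ∃ c, Codes c B) : ∃ c, Codes c Bᶜ := by
  obtain ⟨c, hc⟩ := h
  refine ⟨nor fun _ => c, ?_⟩
  have := nor_codes (fun _ : ℕ => hc)
  rwa [iUnion_const] at this

theorem iUnion_codes {B : ℕ → Set P} (h : ∀ n, ∃ c, Codes c (B n)) : ∃ c, Codes c (⋃ n, B n) := by
  choose c hc using h
  have := compl_codes ⟨_, nor_codes hc⟩
  rwa [compl_compl] at this

theorem empty_codes : ∃ c, Codes c (∅ : Set P) := by
  obtain ⟨c, hc⟩ := basCode_codes [] true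
  obtain ⟨c', hc'⟩ := compl_codes ⟨c, hc⟩
  have h := nor_codes (c := fun n => if n = 0 then c else c')
    (B := fun n => if n = 0 then {x : P | x [] = true} else {x : P | x [] = true}ᶜ) (by
      intro n
      by_cases hn : n = 0
      · simpa [hn] using hc
      · simpa [hn] using hc')
  have h2 : (⋃ n : ℕ, (if n = 0 then {x : P | x [] = true} else {x : P | x [] = true}ᶜ))ᶜ =
      (∅ : Set P) := by
    rw [compl_empty_iff]
    apply eq_univ_of_forall
    intro x
    rw [mem_iUnion]
    by_cases hx : x [] = true
    · exact ⟨0, by simpa using hx⟩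
    · exact ⟨1, by simpa using hx⟩
  rw [h2] at h
  exact ⟨_, h⟩

/-- Every Borel set of codes has a code. -/
theorem exists_codes (B : Set P) (hB : MeasurableSet B) : ∃ c, Codes c B := by
  have hgen : (MeasurableSpace.pi : MeasurableSpace P) =
      MeasurableSpace.generateFrom {S : Set P | ∃ t b, S = {x : P | x t = b}} := by
    apply le_antisymm
    · apply iSup_le
      intro t
      rw [MeasurableSpace.comap_le_iff_le_map]
      intro S _
      change @MeasurableSet _ (MeasurableSpace.generateFrom _) ((fun x : P => x t) ⁻¹' S)
      have : (fun x : P => x t) ⁻¹' S = ⋃ b ∈ S, {x : P | x t = b} := by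
        ext x; simp
      rw [this]
      refine MeasurableSet.biUnion (Set.to_countable S) fun b _ => ?_
      exact MeasurableSpace.measurableSet_generateFrom ⟨t, b, rfl⟩
    · apply MeasurableSpace.generateFrom_le
      rintro S ⟨t, b, rfl⟩
      exact measurableSet_eq_fun (measurable_pi_apply t) measurable_const
  have hB' : @MeasurableSet P (MeasurableSpace.generateFrom
      {S : Set P | ∃ t b, S = {x : P | x t = b}}) B := by
    rw [← hgen]; exact hB
  clear hB
  induction B, hB' using MeasurableSpace.generateFrom_induction with
  | hC S hS =>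
    obtain ⟨t, b, rfl⟩ := hS
    exact basCode_codes t b
  | empty => exact empty_codes
  | compl S _ ih => exact compl_codes ih
  | iUnion S _ ih => exact iUnion_codes ih

/-! ## The closed set of witnesses -/

/-- all proper initial nodes of `s` are inner -/
def Reach (c : P) : List ℕ → Prop
  | [] => True
  | _ :: s => c s = false ∧ Reach c s

/-- the branch coded by `b` -/
def path (b : ℕ → ℕ) : ℕ → List ℕ
  | 0 => []
  | k + 1 => b k :: path b k

/-- witness components: the sequence `w` codes a bit, a mode, an evaluation with Skolem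
function, and a branch -/
def ev (w : ℕ → ℕ) (s : List ℕ) : Bool := decide (w (3 * Encodable.encode s + 2) = 1)

def sk (w : ℕ → ℕ) (s : List ℕ) : ℕ := w (3 * Encodable.encode s + 3)

def br (w : ℕ → ℕ) (k : ℕ) : ℕ := w (3 * k + 4)

/-- local condition of an evaluation of `c` at `c` -/
def Loc (c : P) (w : ℕ → ℕ) (s : List ℕ) : Prop :=
  Reach c s → (c s = true → ev w s = bas (s.headD 0) c) ∧
    (c s = false → (ev w s = true → ∀ n, ev w (n :: s) = false) ∧
      (ev w s = false → ev w (sk w s :: s) = true))

/-- the set of the pairs of a code and a witness -/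
def Cl : Set (P × (ℕ → ℕ)) :=
  {q | (q.2 1 = 0 → (∀ s, Loc q.1 q.2 s) ∧ (q.2 0 = 1 ↔ ev q.2 [] = false)) ∧
    (q.2 1 ≠ 0 → ∀ k, q.1 (path (br q.2) k) = false)}

theorem reach_acc {c : P} (h : Acc (Rel c) []) : ∀ s, Reach c s → Acc (Rel c) s
  | [], _ => h
  | n :: s, hs => (reach_acc h s hs.2).inv ⟨hs.1, n, rfl⟩

theorem no_branch {c : P} (h : Acc (Rel c) []) (b : ℕ → ℕ) : ∃ k, c (path b k) ≠ false := by
  by_contra hcon
  push Not at hcon
  have key : ∀ s, Acc (Rel c) s → ∀ k, path b k ≠ s := by
    intro s hs
    induction hs with
    | intro s _ ih =>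
      intro k hk
      refine ih (path b (k + 1)) ⟨?_, b k, ?_⟩ (k + 1) rfl
      · rw [← hk]; exact hcon k
      · rw [← hk]; rfl
  exact key [] h 0 rfl

theorem exists_branch {c : P} (h : ¬ Acc (Rel c) []) : ∃ b : ℕ → ℕ, ∀ k, c (path b k) = false := by
  have step : ∀ s, ¬ Acc (Rel c) s → c s = false ∧ ∃ n, ¬ Acc (Rel c) (n :: s) := by
    intro s hs
    have h1 : ¬ ∀ t, Rel c t s → Acc (Rel c) t := fun h => hs ⟨s, h⟩
    push Not at h1
    obtain ⟨t, ⟨h2, n, rfl⟩, h3⟩ := h1
    exact ⟨h2, n, h3⟩
  choose! hs f hf using step
  let T : ℕ → List ℕ := fun k => Nat.rec [] (fun _ s => f s :: s) k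
  have hT : ∀ k, ¬ Acc (Rel c) (T k) := by
    intro k
    induction k with
    | zero => exact h
    | succ k ih => exact hf _ ih
  refine ⟨fun k => f (T k), fun k => ?_⟩
  have hp : ∀ k, path (fun k => f (T k)) k = T k := by
    intro k
    induction k with
    | zero => rfl
    | succ k ih => simp only [path, ih]; rfl
  rw [hp]
  exact hs _ (hT k)

/-- for a well-founded code the bit of every witness is determined -/
theorem Cl_bit {c : P} {B : Set P} (hc : Codes c B) {w : ℕ → ℕ} (hw : (c, w) ∈ Cl) :
    w 0 = 1 ↔ c ∉ B := by
  obtain ⟨h1, h2⟩ := hw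
  simp only at h1 h2
  have hmode : w 1 = 0 := by
    by_contra hne
    obtain ⟨k, hk⟩ := no_branch hc.2.1 (br w)
    exact hk (h2 hne k)
  obtain ⟨hloc, hbit⟩ := h1 hmode
  have key : ∀ s, Acc (Rel c) s → Reach c s → V c c s (ev w s) := by
    intro s hs
    induction hs with
    | intro s _ ih =>
      intro hr
      obtain ⟨g1, g2⟩ := hloc s hr
      by_cases hcs : c s = true
      · rw [g1 hcs]; exact V.leaf s hcs
      · rw [Bool.not_eq_true] at hcs
        have hch : ∀ n, V c c (n :: s) (ev w (n :: s)) := fun n =>
          ih _ ⟨hcs, n, rfl⟩ ⟨hcs, hr⟩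
        obtain ⟨g3, g4⟩ := g2 hcs
        cases hev : ev w s with
        | true =>
          refine V.one s hcs fun n => ?_
          have := hch n
          rwa [g3 hev n] at this
        | false =>
          refine V.zero s (sk w s) hcs ?_
          have := hch (sk w s)
          rwa [g4 hev] at this
  have hroot := key [] hc.2.1 trivial
  rw [hbit]
  constructor
  · intro hev hcB
    rw [hev] at hroot
    exact absurd (V_unique hroot (hc.2.2.1 c hcB)) (by decide)
  · intro hcB
    exact V_unique hroot (hc.2.2.2 c hcB)

theorem exists_witness (c : P) : ∃ w, (c, w) ∈ Cl := by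
  classical
  by_cases h : Acc (Rel c) []
  · -- evaluation
    let e : List ℕ → Bool := fun s => decide (V c c s true)
    have he : ∀ s, Acc (Rel c) s → V c c s (e s) := by
      intro s hs
      obtain ⟨v, hv⟩ := V_exists c hs
      cases v with
      | true =>
        have : e s = true := by simp only [e, decide_eq_true_eq]; exact hv
        rw [this]; exact hv
      | false =>
        have : e s = false := by
          simp only [e, decide_eq_false_iff_not]
          intro h'
          exact absurd (V_unique hv h') (by decide)
        rw [this]; exact hv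
    let sf : List ℕ → ℕ := fun s => if h : ∃ n, e (n :: s) = true then h.choose else 0
    let w : ℕ → ℕ := fun i =>
      if i = 0 then (if e [] = false then 1 else 0)
      else if i = 1 then 0
      else if (i - 2) % 3 = 0 then
        (if e (Denumerable.ofNat (List ℕ) ((i - 2) / 3)) = true then 1 else 0)
      else if (i - 2) % 3 = 1 then sf (Denumerable.ofNat (List ℕ) ((i - 2) / 3))
      else 0
    have hw_ev : ∀ s, ev w s = e s := by
      intro s
      have h1 : w (3 * Encodable.encode s + 2) = if e s = true then 1 else 0 := by
        have h2 : (3 * Encodable.encode s + 2 - 2) % 3 = 0 := by omega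
        have h3 : (3 * Encodable.encode s + 2 - 2) / 3 = Encodable.encode s := by omega
        simp only [w, h2, h3]
        simp
      unfold ev
      rw [h1]
      cases e s <;> simp
    have hw_sk : ∀ s, sk w s = sf s := by
      intro s
      have h2 : (3 * Encodable.encode s + 3 - 2) % 3 = 1 := by omega
      have h3 : (3 * Encodable.encode s + 3 - 2) / 3 = Encodable.encode s := by omega
      unfold sk
      simp only [w, h2, h3]
      simp
    refine ⟨w, ?_, ?_⟩
    · intro _
      refine ⟨?_, ?_⟩
      · intro s hr
        have hs := reach_acc h s hr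
        have hes := he s hs
        simp only [hw_ev, hw_sk]
        refine ⟨fun hcs => V_unique hes (V.leaf s hcs), fun hcs => ⟨?_, ?_⟩⟩
        · intro he1 n
          exact V_unique (he (n :: s) (hs.inv ⟨hcs, n, rfl⟩)) (V_true_inner hes he1 hcs n)
        · intro he0
          have hex : ∃ n, e (n :: s) = true := by
            by_contra hcon
            push Not at hcon
            have h1 : V c c s true := V.one s hcs fun n => by
              have := he (n :: s) (hs.inv ⟨hcs, n, rfl⟩)
              rwa [Bool.eq_false_of_not_eq_true (hcon n)] at this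
            rw [he0] at hes
            exact absurd (V_unique hes h1) (by decide)
          have h2 : sf s = hex.choose := by simp only [sf, dif_pos hex]
          rw [h2]
          exact hex.choose_spec
      · change w 0 = 1 ↔ ev w [] = false
        rw [hw_ev]
        simp only [w]
        cases e [] <;> simp
    · intro h1
      exact absurd rfl h1
  · obtain ⟨b, hb⟩ := exists_branch h
    let w : ℕ → ℕ := fun i => if i = 0 then 0 else if i = 1 then 1 else b ((i - 4) / 3)
    refine ⟨w, fun h1 => absurd h1 (by simp [w]), fun _ k => ?_⟩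
    have hbr : br w = b := by
      funext k
      have h3 : (3 * k + 4 - 4) / 3 = k := by omega
      unfold br
      simp only [w, h3]
      simp
    change c (path (br w) k) = false
    rw [hbr]
    exact hb k

end Q215.Ab
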