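import Pool.Agent.Q215.AbA
import Pool.Agent.H894R3.Ana

/-!
# The set of witnesses is closed; measurable selections for closed sets
-/

open Set Topology MeasureTheory Filter

namespace Q215.Ab

theorem polish_bool : PolishSpace Bool := @PolishSpace.mk Bool _ _ inferInstance

theorem isClosed_imp {X : Type*} [TopologicalSpace X] {A B : Set X} (hA : IsOpen A)
    (hB : IsClosed B) : IsClosed {x | x ∈ A → x ∈ B} := by
  have : {x | x ∈ A → x ∈ B} = Aᶜ ∪ B := by
    ext x
    simp only [mem_ofPred_eq, mem_union, mem_compl_iff]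
    tauto
  rw [this]
  exact hA.isClosed_compl.union hB

theorem cont_c (s : List ℕ) : Continuous (fun q : P × (ℕ → ℕ) => q.1 s) :=
  (continuous_apply s).comp continuous_fst

theorem cont_w (i : ℕ) : Continuous (fun q : P × (ℕ → ℕ) => q.2 i) :=
  (continuous_apply i).comp continuous_snd

theorem clopen_c (s : List ℕ) (b : Bool) : IsClopen {q : P × (ℕ → ℕ) | q.1 s = b} :=
  (isClopen_discrete {b}).preimage (cont_c s)

theorem clopen_w (i : ℕ) (S : Set ℕ) : IsClopen {q : P × (ℕ → ℕ) | q.2 i ∈ S} :=
  (isClopen_discrete S).preimage (cont_w i)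

theorem clopen_reach (s : List ℕ) : IsClopen {q : P × (ℕ → ℕ) | Reach q.1 s} := by
  induction s with
  | nil => exact isClopen_univ
  | cons n s ih => exact (clopen_c s false).inter ih

theorem cont_ev (s : List ℕ) : Continuous (fun q : P × (ℕ → ℕ) => ev q.2 s) := by
  unfold ev
  have h1 : Continuous (fun n : ℕ => decide (n = 1)) := continuous_of_discreteTopology
  exact h1.comp (cont_w _)

theorem clopen_ev (s : List ℕ) (b : Bool) : IsClopen {q : P × (ℕ → ℕ) | ev q.2 s = b} :=
  (isClopen_discrete {b}).preimage (cont_ev s)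

theorem closed_sk (s : List ℕ) : IsClosed {q : P × (ℕ → ℕ) | ev q.2 (sk q.2 s :: s) = true} := by
  rw [← isOpen_compl_iff]
  have : {q : P × (ℕ → ℕ) | ev q.2 (sk q.2 s :: s) = true}ᶜ =
      ⋃ n, ({q | sk q.2 s = n} ∩ {q | ev q.2 (n :: s) = false}) := by
    ext q
    simp only [mem_compl_iff, mem_ofPred_eq, Bool.not_eq_true, mem_iUnion, mem_inter_iff]
    constructor
    · intro h; exact ⟨_, rfl, h⟩
    · rintro ⟨n, rfl, h⟩; exact h
  rw [this]
  refine isOpen_iUnion fun n => ?_
  exact ((clopen_w _ {n}).isOpen).inter (clopen_ev _ false).isOpen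

theorem cont_bas (n : ℕ) : Continuous (fun q : P × (ℕ → ℕ) => bas n q.1) := by
  unfold bas
  have h1 : Continuous (fun b : Bool => decide (b = decide (n % 2 = 1))) :=
    continuous_of_discreteTopology
  exact h1.comp (cont_c _)

theorem closed_loc (s : List ℕ) : IsClosed {q : P × (ℕ → ℕ) | Loc q.1 q.2 s} := by
  unfold Loc
  refine isClosed_imp (clopen_reach s).isOpen ?_
  refine IsClosed.inter (isClosed_imp (clopen_c s true).isOpen ?_)
    (isClosed_imp (clopen_c s false).isOpen (IsClosed.inter
      (isClosed_imp (clopen_ev s true).isOpen ?_) (isClosed_imp (clopen_ev s false).isOpen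
        (closed_sk s))))
  · exact isClosed_eq (cont_ev s) (cont_bas _)
  · have : {q : P × (ℕ → ℕ) | ∀ n, ev q.2 (n :: s) = false} =
      ⋂ n, {q : P × (ℕ → ℕ) | ev q.2 (n :: s) = false} := by
      ext q; simp
    change IsClosed {q : P × (ℕ → ℕ) | ∀ n, ev q.2 (n :: s) = false}
    rw [this]
    exact isClosed_iInter fun n => (clopen_ev _ false).isClosed

theorem path_congr {b b' : ℕ → ℕ} {k : ℕ} (h : ∀ j < k, b j = b' j) : path b k = path b' k := by
  induction k with
  | zero => rfl
  | succ k ih =>
    simp only [path]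
    rw [h k (Nat.lt_succ_self k), ih fun j hj => h j (by omega)]

theorem closed_branch (k : ℕ) :
    IsClosed {q : P × (ℕ → ℕ) | q.1 (path (br q.2) k) = false} := by
  rw [← isOpen_compl_iff, isOpen_iff_mem_nhds]
  intro q0 hq0
  have hq0' : q0.1 (path (br q0.2) k) = true := by
    simpa using hq0
  have h1 : {q : P × (ℕ → ℕ) | q.1 (path (br q0.2) k) = true} ∈ 𝓝 q0 :=
    (clopen_c _ true).isOpen.mem_nhds hq0'
  have h2 : (⋂ j ∈ Set.Iio k, {q : P × (ℕ → ℕ) | q.2 (3 * j + 4) = q0.2 (3 * j + 4)}) ∈ 𝓝 q0 := by
    rw [Filter.biInter_mem (Set.finite_Iio k)]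
    intro j _
    exact (clopen_w (3 * j + 4) {q0.2 (3 * j + 4)}).isOpen.mem_nhds rfl
  filter_upwards [h1, h2] with q hq1 hq2
  have hpath : path (br q.2) k = path (br q0.2) k := by
    apply path_congr
    intro j hj
    have := mem_iInter₂.1 hq2 j hj
    exact this
  simp only [mem_compl_iff, mem_ofPred_eq, hpath]
  have : q.1 (path (br q0.2) k) = true := hq1
  rw [this]
  decide

theorem isClosed_Cl : IsClosed Cl := by
  unfold Cl
  refine IsClosed.inter (isClosed_imp (clopen_w 1 {0}).isOpen (IsClosed.inter ?_ ?_))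
    (isClosed_imp (clopen_w 1 {0}ᶜ).isOpen ?_)
  · change IsClosed {q : P × (ℕ → ℕ) | ∀ s, Loc q.1 q.2 s}
    have : {q : P × (ℕ → ℕ) | ∀ s, Loc q.1 q.2 s} = ⋂ s, {q | Loc q.1 q.2 s} := by
      ext q; simp
    rw [this]
    exact isClosed_iInter closed_loc
  · have : {q : P × (ℕ → ℕ) | q.2 0 = 1 ↔ ev q.2 [] = false} =
        ({q | q.2 0 = 1} ∩ {q | ev q.2 [] = false}) ∪ ({q | q.2 0 = 1}ᶜ ∩ {q | ev q.2 [] = false}ᶜ) := by
      ext q
      simp only [mem_ofPred_eq, mem_union, mem_inter_iff, mem_compl_iff]
      tauto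
    change IsClosed {q : P × (ℕ → ℕ) | q.2 0 = 1 ↔ ev q.2 [] = false}
    rw [this]
    have c1 := clopen_w 0 {1}
    have c2 := clopen_ev [] false
    exact ((c1.inter c2).union (c1.compl.inter c2.compl)).isClosed
  · change IsClosed {q : P × (ℕ → ℕ) | ∀ k, q.1 (path (br q.2) k) = false}
    have : {q : P × (ℕ → ℕ) | ∀ k, q.1 (path (br q.2) k) = false} =
        ⋂ k, {q | q.1 (path (br q.2) k) = false} := by
      ext q; simp
    rw [this]
    exact isClosed_iInter closed_branch

/-! ## Measurable selections -/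

section Sel

variable (B : List ℕ → Set P)

/-- least admissible next value -/
noncomputable def Fn (s : List ℕ) (p : P) : ℕ := sInf {k | p ∈ B (s ++ [k])}

/-- leftmost admissible sequences -/
noncomputable def pre (p : P) : ℕ → List ℕ
  | 0 => []
  | n + 1 => pre p n ++ [Fn B (pre p n) p]

theorem measurableSet_Fn (hB : ∀ s, MeasurableSet (B s)) (s : List ℕ) (k : ℕ) :
    MeasurableSet {p | Fn B s p = k} := by
  have : {p | Fn B s p = k} = (B (s ++ [k]) ∩ ⋂ j ∈ Set.Iio k, (B (s ++ [j]))ᶜ) ∪
      (if k = 0 then ⋂ j, (B (s ++ [j]))ᶜ else ∅) := by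
    ext p
    simp only [mem_ofPred_eq, mem_union, mem_inter_iff, mem_iInter, mem_Iio, mem_compl_iff]
    constructor
    · intro h
      by_cases hne : {k | p ∈ B (s ++ [k])}.Nonempty
      · left
        have h1 := Nat.sInf_mem hne
        have h2 : sInf {k | p ∈ B (s ++ [k])} = k := h
        rw [h2] at h1
        refine ⟨h1, fun j hj hjB => ?_⟩
        have h3 : sInf {k | p ∈ B (s ++ [k])} ≤ j := Nat.sInf_le hjB
        omega
      · right
        rw [not_nonempty_iff_eq_empty] at hne
        have h2 : sInf {k | p ∈ B (s ++ [k])} = k := h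
        rw [hne, Nat.sInf_empty] at h2
        rw [if_pos h2.symm]
        rw [mem_iInter]
        intro j hj
        have : j ∈ {k | p ∈ B (s ++ [k])} := hj
        rw [hne] at this
        exact this
    · rintro (⟨h1, h2⟩ | h)
      · apply le_antisymm
        · exact Nat.sInf_le h1
        · by_contra hcon
          push Not at hcon
          have hne : {k | p ∈ B (s ++ [k])}.Nonempty := ⟨k, h1⟩
          exact h2 _ hcon (Nat.sInf_mem hne)
      · by_cases hk : k = 0
        · rw [if_pos hk, mem_iInter] at h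
          have hemp : {k | p ∈ B (s ++ [k])} = ∅ := by
            ext j
            constructor
            · intro hj; exact absurd hj (h j)
            · intro hj; exact absurd hj (notMem_empty j)
          unfold Fn
          rw [hemp, Nat.sInf_empty, hk]
        · rw [if_neg hk] at h
          exact absurd h (notMem_empty p)
  rw [this]
  refine MeasurableSet.union ((hB _).inter (MeasurableSet.biInter (Set.to_countable _)
    fun j _ => (hB _).compl)) ?_
  split
  · exact MeasurableSet.iInter fun j => (hB _).compl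
  · exact MeasurableSet.empty

theorem measurableSet_pre (hB : ∀ s, MeasurableSet (B s)) (n : ℕ) (s : List ℕ) :
    MeasurableSet {p | pre B p n = s} := by
  induction n generalizing s with
  | zero =>
    by_cases h : [] = s
    · have : {p | pre B p 0 = s} = univ := by
        ext p; simp [pre, h]
      rw [this]; exact MeasurableSet.univ
    · have : {p | pre B p 0 = s} = ∅ := by
        ext p; simp [pre, h]
      rw [this]; exact MeasurableSet.empty
  | succ n ih =>
    have : {p | pre B p (n + 1) = s} = ⋃ t : List ℕ, ⋃ k : ℕ, ({p | pre B p n = t} ∩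
        {p | Fn B t p = k} ∩ {p | t ++ [k] = s}) := by
      ext p
      simp only [mem_ofPred_eq, mem_iUnion, mem_inter_iff, pre]
      constructor
      · intro h
        exact ⟨_, _, ⟨rfl, rfl⟩, h⟩
      · rintro ⟨t, k, ⟨rfl, rfl⟩, h⟩
        exact h
    rw [this]
    refine MeasurableSet.iUnion fun t => MeasurableSet.iUnion fun k => ?_
    exact ((ih t).inter (measurableSet_Fn B hB t k)).inter (MeasurableSet.const _)

theorem measurable_u (hB : ∀ s, MeasurableSet (B s)) :
    Measurable (fun p : P => fun n : ℕ => Fn B (pre B p n) p) := by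
  rw [measurable_pi_iff]
  intro n
  apply measurable_to_countable'
  intro k
  have : (fun p => Fn B (pre B p n) p) ⁻¹' {k} = ⋃ t : List ℕ, ({p | pre B p n = t} ∩
        {p | Fn B t p = k}) := by
    ext p
    simp only [mem_preimage, mem_singleton_iff, mem_ofPred_eq, mem_iUnion, mem_inter_iff]
    constructor
    · intro h; exact ⟨_, rfl, h⟩
    · rintro ⟨t, rfl, h⟩; exact h
  rw [this]
  exact MeasurableSet.iUnion fun t => (measurableSet_pre B hB n t).inter (measurableSet_Fn B hB t k)

theorem pre_length (p : P) (n : ℕ) : (pre B p n).length = n := by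
  induction n with
  | zero => rfl
  | succ n ih => simp [pre, ih]

theorem pre_getD (p : P) (n i : ℕ) (hi : i < n) : (pre B p n).getD i 0 = Fn B (pre B p i) p := by
  induction n with
  | zero => omega
  | succ n ih =>
    simp only [pre]
    rcases Nat.lt_succ_iff_lt_or_eq.1 hi with h | h
    · rw [List.getD_append _ _ _ _ (by rw [pre_length]; exact h)]
      exact ih h
    · subst h
      rw [List.getD_append_right _ _ _ _ (by rw [pre_length])]
      simp [pre_length]

end Sel

/-- Measurable selection: a closed set with full projection has, for every finite measure, a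
measurable uniformization almost everywhere. -/
theorem selection {C : Set (P × (ℕ → ℕ))} (hC : IsClosed C) (hfull : ∀ p, ∃ w, (p, w) ∈ C)
    (ν : Measure P) [IsFiniteMeasure ν] :
    ∃ (P0 : Set P) (u : P → ℕ → ℕ), MeasurableSet P0 ∧ ν P0ᶜ = 0 ∧ Measurable u ∧
      ∀ p ∈ P0, (p, u p) ∈ C := by
  let A : List ℕ → Set P := fun s => {p | ∃ w, (p, w) ∈ C ∧ ∀ i < s.length, w i = s.getD i 0}
  have hA : ∀ s, NullMeasurableSet (A s) ν := by
    intro s
    apply Pool.Agent.H894R3.Ana.analytic_nullMeasurable
    have hcl : IsClosed (C ∩ {q : P × (ℕ → ℕ) | ∀ i < s.length, q.2 i = s.getD i 0}) := by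
      refine hC.inter ?_
      have : {q : P × (ℕ → ℕ) | ∀ i < s.length, q.2 i = s.getD i 0} =
          ⋂ i ∈ Set.Iio s.length, {q | q.2 i = s.getD i 0} := by
        ext q; simp
      rw [this]
      exact isClosed_biInter fun i _ => (clopen_w i {s.getD i 0}).isClosed
    have himg : A s = Prod.fst '' (C ∩ {q : P × (ℕ → ℕ) | ∀ i < s.length, q.2 i = s.getD i 0}) := by
      ext p
      constructor
      · rintro ⟨w, h1, h2⟩; exact ⟨(p, w), ⟨h1, h2⟩, rfl⟩
      · rintro ⟨⟨p', w⟩, ⟨h1, h2⟩, rfl⟩; exact ⟨w, h1, h2⟩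
    rw [himg]
    have := polish_bool
    exact hcl.analyticSet.image_of_continuous continuous_fst
  choose B hsub hBm hBae using fun s => (hA s).exists_measurable_superset_ae_eq
  have hae : ∀ᵐ p ∂ν, ∀ s, (p ∈ B s ↔ p ∈ A s) := by
    rw [ae_all_iff]
    intro s
    filter_upwards [hBae s] with p hp
    exact iff_of_eq hp
  refine ⟨(toMeasurable ν {p | ¬ ∀ s, (p ∈ B s ↔ p ∈ A s)})ᶜ, fun p n => Fn B (pre B p n) p,
    (measurableSet_toMeasurable _ _).compl, ?_, measurable_u B hBm, ?_⟩
  · rw [compl_compl, measure_toMeasurable]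
    exact hae
  · intro p hp
    have hpAB : ∀ s, (p ∈ B s ↔ p ∈ A s) := by
      by_contra hcon
      exact hp (subset_toMeasurable ν _ hcon)
    have hpre : ∀ n, p ∈ A (pre B p n) := by
      intro n
      induction n with
      | zero =>
        obtain ⟨w, hw⟩ := hfull p
        exact ⟨w, hw, fun i hi => absurd hi (by simp [pre])⟩
      | succ n ih =>
        obtain ⟨w, hw1, hw2⟩ := ih
        have hne : {k | p ∈ B (pre B p n ++ [k])}.Nonempty := by
          refine ⟨w n, (hpAB _).2 ⟨w, hw1, fun i hi => ?_⟩⟩
          rw [List.length_append, pre_length, List.length_singleton] at hi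
          rcases Nat.lt_succ_iff_lt_or_eq.1 hi with h | h
          · rw [List.getD_append _ _ _ _ (by rw [pre_length]; exact h)]
            exact hw2 i (by rw [pre_length]; exact h)
          · subst h
            rw [List.getD_append_right _ _ _ _ (by rw [pre_length])]
            simp [pre_length]
        exact (hpAB _).1 (Nat.sInf_mem hne)
    choose w hw1 hw2 using hpre
    have hlim : Tendsto (fun n => (p, w n)) atTop (𝓝 (p, fun n => Fn B (pre B p n) p)) := by
      refine Tendsto.prodMk_nhds tendsto_const_nhds ?_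
      rw [tendsto_pi_nhds]
      intro i
      apply tendsto_const_nhds.congr'
      filter_upwards [eventually_gt_atTop i] with n hn
      rw [hw2 n i (by rw [pre_length]; exact hn), pre_getD B p n i hn]
    exact hC.mem_of_tendsto hlim (Eventually.of_forall hw1)

end Q215.Ab
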