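import Mathlib

/-!
# Topological `ℤ^d` systems and almost Borel embeddings: definitions
-/

open Set MeasureTheory

namespace Q215.Ab

/-- A topological `ℤ^d` system: a compact metrizable space with an action of `ℤ^d` by
continuous maps (hence by homeomorphisms). It carries its Borel sets. -/
structure TopSys (d : ℕ) where
  /-- the space -/
  carrier : Type
  [top : TopologicalSpace carrier]
  [compact : CompactSpace carrier]
  [metrizable : TopologicalSpace.MetrizableSpace carrier]
  [meas : MeasurableSpace carrier]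
  [borel : BorelSpace carrier]
  [act : AddAction (Fin d → ℤ) carrier]
  cont : ∀ i : Fin d → ℤ, Continuous fun x : carrier => i +ᵥ x

attribute [instance] TopSys.top TopSys.compact TopSys.metrizable TopSys.meas TopSys.borel
  TopSys.act

/-- `Prob(Y, T)`: the invariant Borel probability measures. -/
def Prob {d : ℕ} (Y : TopSys d) : Set (Measure Y.carrier) :=
  {μ | IsProbabilityMeasure μ ∧ ∀ i : Fin d → ℤ, μ.map (fun y => i +ᵥ y) = μ}

/-- invariant Borel sets -/
def InvBorel {d : ℕ} {Y : TopSys d} (Y₀ : Set Y.carrier) : Prop :=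
  MeasurableSet Y₀ ∧ ∀ (i : Fin d → ℤ) (y : Y.carrier), y ∈ Y₀ → i +ᵥ y ∈ Y₀

/-- `Y₀` is full: its complement is null for every invariant probability measure. -/
def IsFull {d : ℕ} {Y : TopSys d} (Y₀ : Set Y.carrier) : Prop := ∀ μ ∈ Prob Y, μ Y₀ᶜ = 0

/-- A morphism from the invariant Borel set `Y₀` to `X`: an equivariant Borel map. -/
def IsMorphism {d : ℕ} {X Y : TopSys d} {Y₀ : Set Y.carrier} (ρ : Y₀ → X.carrier) : Prop :=
  Measurable ρ ∧ ∀ (i : Fin d → ℤ) (y z : Y₀), (z : Y.carrier) = i +ᵥ (y : Y.carrier) →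
    ρ z = i +ᵥ ρ y

/-- `(Y, μ, T)` can be realized as an invariant measure on `(X, S)`. -/
def Realized {d : ℕ} (X Y : TopSys d) (μ : Measure Y.carrier) : Prop :=
  ∃ Y₀ : Set Y.carrier, InvBorel Y₀ ∧ μ Y₀ᶜ = 0 ∧
    ∃ ρ : Y₀ → X.carrier, IsMorphism ρ ∧ Function.Injective ρ

/-- There is an almost Borel embedding of `Y` into `X`. -/
def AlmostBorelEmbeds {d : ℕ} (Y X : TopSys d) : Prop :=
  ∃ Y₀ : Set Y.carrier, InvBorel Y₀ ∧ IsFull Y₀ ∧
    ∃ ρ : Y₀ → X.carrier, IsMorphism ρ ∧ Function.Injective ρ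

end Q215.Ab
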