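import Pool.Agent.Q215.AbB
import Pool.Agent.Q215.AbDefs

/-!
# Skew rotations and a Steinhaus argument
-/

open Set Topology MeasureTheory Filter

namespace Q215.Ab

/-- A Steinhaus argument: there is no measurable map on a set of positive measure which
intertwines rotation along a rigidity sequence with a rotation for which the sequence is not
rigid. -/
theorem no_rot {G : Type*} [AddCommGroup G] [TopologicalSpace G] [IsTopologicalAddGroup G]
    [CompactSpace G] [MeasurableSpace G] [BorelSpace G] (μ : Measure G) [μ.IsAddHaarMeasure]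
    [μ.Regular] [IsFiniteMeasure μ] (D : Set G) (hD : MeasurableSet D) (hpos : 0 < μ D)
    (y : G → UnitAddCircle) (hy : Measurable y) (g : G) (h : UnitAddCircle) (N : ℕ → ℕ)
    (hN : Tendsto (fun l => N l • g) atTop (𝓝 0)) (U : Set UnitAddCircle) (hU : U ∈ 𝓝 0)
    (hNU : ∀ l, N l • h ∉ U)
    (hinv : ∀ l x, x ∈ D → x + N l • g ∈ D → y (x + N l • g) = y x + N l • h) : False := by
  obtain ⟨V, hV, hVU⟩ := exists_nhds_half_neg hU
  have hnh : ∀ z : UnitAddCircle, {w | w - z ∈ interior V} ∈ 𝓝 z := by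
    intro z
    have h1 : Continuous (fun w : UnitAddCircle => w - z) := by fun_prop
    have h2 : IsOpen {w : UnitAddCircle | w - z ∈ interior V} := isOpen_interior.preimage h1
    apply h2.mem_nhds
    change z - z ∈ interior V
    rw [sub_self]
    exact mem_interior_iff_mem_nhds.2 hV
  obtain ⟨t, -, ht⟩ := isCompact_univ.elim_nhds_subcover
    (fun z : UnitAddCircle => {w | w - z ∈ interior V}) (fun z _ => hnh z)
  have hcov : D ⊆ ⋃ z ∈ t, D ∩ y ⁻¹' {w | w - z ∈ interior V} := by
    intro x hx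
    obtain ⟨z, hz, hxz⟩ := mem_iUnion₂.1 (ht (mem_univ (y x)))
    exact mem_iUnion₂.2 ⟨z, hz, hx, hxz⟩
  have hex : ∃ z ∈ t, 0 < μ (D ∩ y ⁻¹' {w | w - z ∈ interior V}) := by
    by_contra hcon
    push Not at hcon
    have h0 : μ (⋃ z ∈ t, D ∩ y ⁻¹' {w | w - z ∈ interior V}) = 0 := by
      refine le_antisymm ((measure_biUnion_finset_le t _).trans ?_) bot_le
      rw [Finset.sum_eq_zero fun z hz => le_antisymm (hcon z hz) bot_le]
    exact hpos.ne' (measure_mono_null hcov h0)
  obtain ⟨z, -, hz⟩ := hex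
  set E := D ∩ y ⁻¹' {w | w - z ∈ interior V} with hE
  have hEm : MeasurableSet E := by
    refine hD.inter (hy ?_)
    have h1 : Continuous (fun w : UnitAddCircle => w - z) := by fun_prop
    exact (isOpen_interior.preimage h1).measurableSet
  have hEE := Measure.sub_mem_nhds_zero_of_addHaar_pos_ne_top μ E hEm hz (measure_ne_top μ E)
  obtain ⟨l, hl⟩ := (hN.eventually hEE).exists
  obtain ⟨a, ha, b, hb, hab⟩ := hl
  have hab' : a = b + N l • g := by
    have hab2 : a - b = N l • g := hab
    rw [← hab2]; abel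
  have h1 := hinv l b hb.1 (hab' ▸ ha.1)
  rw [← hab'] at h1
  apply hNU l
  have h2 : N l • h = (y a - z) - (y b - z) := by rw [h1]; abel
  rw [h2]
  exact hVU _ (interior_subset ha.2) _ (interior_subset hb.2)

/-- nonzero multiples of a torsion element stay away from zero -/
theorem exists_nhds_avoid (h : UnitAddCircle) (n : ℕ) (hn : 0 < n) (hh : n • h = 0) :
    ∃ U ∈ 𝓝 (0 : UnitAddCircle), ∀ N : ℕ, N • h ≠ 0 → N • h ∉ U := by
  classical
  let F : Finset UnitAddCircle := ((Finset.range n).image fun a => a • h).erase 0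
  refine ⟨(F : Set UnitAddCircle)ᶜ, ?_, ?_⟩
  · apply (F.finite_toSet.isClosed.isOpen_compl).mem_nhds
    simp [F]
  · intro N hN hmem
    apply hmem
    have h1 : N • h = (N % n) • h := by
      conv_lhs => rw [← Nat.div_add_mod N n, add_smul, mul_smul, smul_comm, hh, smul_zero, zero_add]
    rw [Finset.mem_coe, Finset.mem_erase]
    refine ⟨hN, ?_⟩
    rw [Finset.mem_image]
    exact ⟨N % n, Finset.mem_range.2 (Nat.mod_lt _ hn), h1.symm⟩

/-! ## Skew rotations -/

section Rot

variable {Q L : Type} [AddCommGroup L]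

/-- the action of `ℤ^d` on `Q × L` through the first coordinate, by the rotations `h q` -/
@[reducible] def rotAct (d : ℕ) (hd : 0 < d) (h : Q → L) : AddAction (Fin d → ℤ) (Q × L) where
  vadd i x := (x.1, x.2 + i ⟨0, hd⟩ • h x.1)
  zero_vadd x := by
    change (x.1, x.2 + (0 : Fin d → ℤ) ⟨0, hd⟩ • h x.1) = x
    simp
  add_vadd i j x := by
    change (x.1, x.2 + (i + j) ⟨0, hd⟩ • h x.1) =
      (x.1, (x.2 + j ⟨0, hd⟩ • h x.1) + i ⟨0, hd⟩ • h x.1)
    rw [Pi.add_apply, add_smul]
    congr 1
    abel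

variable [TopologicalSpace Q] [CompactSpace Q] [TopologicalSpace.MetrizableSpace Q]
  [SecondCountableTopology Q] [MeasurableSpace Q] [BorelSpace Q]
  [TopologicalSpace L] [IsTopologicalAddGroup L] [CompactSpace L]
  [TopologicalSpace.MetrizableSpace L] [SecondCountableTopology L] [MeasurableSpace L]
  [BorelSpace L]

/-- the skew rotation as a topological system -/
def rotSys (d : ℕ) (hd : 0 < d) (h : Q → L) (hh : Continuous h) : TopSys d :=
  letI := rotAct d hd h
  { carrier := Q × L
    cont := fun i => by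
      change Continuous fun x : Q × L => (x.1, x.2 + i ⟨0, hd⟩ • h x.1)
      fun_prop }

theorem rot_vadd (d : ℕ) (hd : 0 < d) (h : Q → L) (hh : Continuous h) (i : Fin d → ℤ)
    (x : (rotSys d hd h hh).carrier) :
    i +ᵥ x = ((x.1, x.2 + i ⟨0, hd⟩ • h x.1) : Q × L) := rfl

end Rot

end Q215.Ab
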