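import Pool.Agent.Q215.AbC

/-!
# The two skew rotations: arithmetic
-/

open Set Topology MeasureTheory Filter

namespace Q215.Ab

/-- the fibre group -/
abbrev G : Type := ℕ ⊕ ℕ → UnitAddCircle

/-- primes at least five -/
noncomputable def pr (k : ℕ) : ℕ := Nat.nth Nat.Prime (k + 2)

theorem pr_prime (k : ℕ) : (pr k).Prime := Nat.prime_nth_prime _

theorem pr_injective : Function.Injective pr := by
  intro a b h
  have := Nat.nth_injective Nat.infinite_setOfPred_prime h
  omega

theorem pr_ge (k : ℕ) : 5 ≤ pr k := by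
  have h1 : Nat.nth Nat.Prime 1 = 3 := Nat.nth_prime_one_eq_three
  have h2 : Nat.nth Nat.Prime 1 < Nat.nth Nat.Prime (k + 2) :=
    Nat.nth_strictMono Nat.infinite_setOfPred_prime (by omega)
  have h3 := pr_prime k
  have h4 : 3 < pr k := by unfold pr; omega
  by_contra hcon
  push Not at hcon
  have : pr k = 4 := by omega
  rw [this] at h3
  exact absurd h3 (by decide)

/-- the point `1 / n` of the circle -/
noncomputable def pt (n : ℕ) : UnitAddCircle := ((1 / (n : ℝ) : ℝ) : UnitAddCircle)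

theorem nsmul_pt_eq_zero {n : ℕ} (hn : 0 < n) (N : ℕ) : N • pt n = 0 ↔ n ∣ N := by
  rw [← addOrderOf_dvd_iff_nsmul_eq_zero]
  unfold pt
  rw [AddCircle.addOrderOf_period_div hn]

/-- the rotation in the fibre over the code `p` -/
noncomputable def rg (p : P) : G := fun j =>
  match j with
  | Sum.inl n => pt (4 ^ n)
  | Sum.inr k => if bas k p = true then pt (pr k) else 0

theorem continuous_rg : Continuous rg := by
  apply continuous_pi
  intro j
  cases j with
  | inl n => exact continuous_const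
  | inr k =>
    have h1 : Continuous (fun b : Bool => if b = true then pt (pr k) else 0) :=
      continuous_of_discreteTopology
    have h2 : Continuous (fun p : P => bas k p) := by
      unfold bas
      have h3 : Continuous (fun b : Bool => decide (b = decide (k % 2 = 1))) :=
        continuous_of_discreteTopology
      exact h3.comp (continuous_apply _)
    exact h1.comp h2

/-- the rigidity times of the fibre over `p` -/
noncomputable def NN (p : P) (l : ℕ) : ℕ :=
  4 ^ l * ∏ k ∈ Finset.range l, (if bas k p = true then pr k else 1)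

theorem tendsto_NN (p : P) : Tendsto (fun l => NN p l • rg p) atTop (𝓝 0) := by
  rw [tendsto_pi_nhds]
  intro j
  apply tendsto_const_nhds.congr'
  cases j with
  | inl n =>
    filter_upwards [eventually_ge_atTop n] with l hl
    change (0 : UnitAddCircle) = NN p l • pt (4 ^ n)
    symm
    rw [nsmul_pt_eq_zero (by positivity)]
    exact Dvd.dvd.mul_right (pow_dvd_pow 4 hl) _
  | inr k =>
    filter_upwards [eventually_gt_atTop k] with l hl
    change (0 : UnitAddCircle) = NN p l • (if bas k p = true then pt (pr k) else 0)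
    by_cases hb : bas k p = true
    · rw [if_pos hb]
      symm
      rw [nsmul_pt_eq_zero (pr_prime k).pos]
      refine Dvd.dvd.mul_left ?_ _
      have := Finset.dvd_prod_of_mem (fun k => if bas k p = true then pr k else 1)
        (Finset.mem_range.2 hl)
      simpa [hb] using this
    · rw [if_neg hb, smul_zero]

theorem not_dvd_NN {q : ℕ} (hq : q.Prime) (h2 : q ≠ 2) (p : P)
    (h : ∀ k, bas k p = true → q ≠ pr k) (l : ℕ) : ¬ q ∣ NN p l := by
  intro hdvd
  unfold NN at hdvd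
  rcases (hq.dvd_mul).1 hdvd with h3 | h3
  · have h4 := hq.dvd_of_dvd_pow h3
    have h5 : q ∣ 2 * 2 := h4
    rcases (hq.dvd_mul).1 h5 with h6 | h6 <;>
      exact h2 ((Nat.prime_dvd_prime_iff_eq hq Nat.prime_two).1 h6)
  · obtain ⟨k, -, hk⟩ := (Prime.dvd_finsetProd_iff hq.prime _).1 h3
    by_cases hb : bas k p = true
    · rw [if_pos hb] at hk
      exact h k hb ((Nat.prime_dvd_prime_iff_eq hq (pr_prime k)).1 hk)
    · rw [if_neg hb] at hk
      exact hq.one_lt.ne' (Nat.dvd_one.1 hk)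

/-- multipliers `(4 ^ n - 1) / 3` -/
def mt (n : ℕ) : ℕ := (4 ^ n - 1) / 3

theorem mt_spec (n : ℕ) : 3 * mt n + 1 = 4 ^ n := by
  unfold mt
  have h1 : 4 ^ n % 3 = 1 := by
    rw [Nat.pow_mod]; simp
  have h2 : 1 ≤ 4 ^ n := Nat.one_le_pow _ _ (by norm_num)
  omega

/-- the dyadic points converging to `1 / 3` -/
noncomputable def rp (n : ℕ) : UnitAddCircle := mt n • pt (4 ^ n)

theorem rp_eq (n : ℕ) : rp n = ((1 / 3 - 1 / (3 * 4 ^ n) : ℝ) : UnitAddCircle) := by
  unfold rp pt
  rw [← AddCircle.coe_nsmul]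
  congr 1
  have h : (3 * (mt n : ℝ) + 1) = 4 ^ n := by exact_mod_cast mt_spec n
  have h4 : (4 : ℝ) ^ n ≠ 0 := by positivity
  rw [nsmul_eq_mul]
  push_cast
  field_simp
  linarith

theorem third_eq : pt 3 = ((1 / 3 : ℝ) : UnitAddCircle) := by
  unfold pt; norm_num

theorem tendsto_rp : Tendsto rp atTop (𝓝 (pt 3)) := by
  have h1 : Tendsto (fun n : ℕ => (1 / 3 - 1 / (3 * 4 ^ n) : ℝ)) atTop (𝓝 (1 / 3)) := by
    have h2 : Tendsto (fun n : ℕ => (1 / 3 : ℝ) * (1 / 4) ^ n) atTop (𝓝 ((1 / 3) * 0)) :=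
      (tendsto_pow_atTop_nhds_zero_of_lt_one (by norm_num) (by norm_num)).const_mul _
    have h3 := (tendsto_const_nhds (x := (1 / 3 : ℝ))).sub h2
    rw [mul_zero, sub_zero] at h3
    refine h3.congr fun n => ?_
    rw [one_div_pow]
    field_simp
  have h4 : Continuous (fun x : ℝ => (x : UnitAddCircle)) := AddCircle.continuous_mk' 1
  have h5 := (h4.tendsto (1 / 3)).comp h1
  rw [third_eq]
  refine h5.congr fun n => ?_
  rw [rp_eq]; rfl

theorem coe_inj {a b : ℝ} (ha : a ∈ Ico (0 : ℝ) 1) (hb : b ∈ Ico (0 : ℝ) 1)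
    (h : (a : UnitAddCircle) = b) : a = b := by
  refine (AddCircle.coe_eq_coe_iff_of_mem_Ico (p := (1 : ℝ)) (a := 0) ?_ ?_).1 h
  · rwa [zero_add]
  · rwa [zero_add]

theorem real_mem (n : ℕ) : (1 / 3 - 1 / (3 * 4 ^ n) : ℝ) ∈ Ico (0 : ℝ) 1 := by
  have h1 : (1 : ℝ) ≤ 4 ^ n := one_le_pow₀ (by norm_num)
  have h2 : (1 : ℝ) / (3 * 4 ^ n) ≤ 1 / 3 := by
    apply one_div_le_one_div_of_le (by norm_num)
    linarith
  have h3 : (0 : ℝ) < 1 / (3 * 4 ^ n) := by positivity
  constructor <;> linarith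

theorem rp_injective : Function.Injective rp := by
  intro a b h
  rw [rp_eq, rp_eq] at h
  have h1 := coe_inj (real_mem a) (real_mem b) h
  have h2 : (1 : ℝ) / (3 * 4 ^ a) = 1 / (3 * 4 ^ b) := by linarith
  have h3 : (4 : ℝ) ^ a = 4 ^ b := by
    have ha : (3 * (4 : ℝ) ^ a) ≠ 0 := by positivity
    have hb : (3 * (4 : ℝ) ^ b) ≠ 0 := by positivity
    rw [div_eq_div_iff ha hb] at h2
    linarith
  have h4 : (4 : ℕ) ^ a = 4 ^ b := by exact_mod_cast h3
  exact Nat.pow_right_injective (by norm_num) h4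

theorem rp_ne_third (n : ℕ) : rp n ≠ pt 3 := by
  intro h
  rw [rp_eq, third_eq] at h
  have h1 := coe_inj (real_mem n) ⟨by norm_num, by norm_num⟩ h
  have h3 : (0 : ℝ) < 1 / (3 * 4 ^ n) := by positivity
  linarith

/-- every point `rp n` has a neighbourhood meeting the others nowhere -/
theorem rp_isolated (n : ℕ) : ∃ U : Set UnitAddCircle, IsOpen U ∧ rp n ∈ U ∧
    ∀ m, rp m ∈ U → m = n := by
  have h1 : IsCompact (insert (pt 3) (range rp)) := tendsto_rp.isCompact_insert_range
  have h2 : {m | m ≠ n ∧ rp m ∈ Metric.ball (rp n) (dist (rp n) (pt 3) / 2)}.Finite := by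
    have hpos : 0 < dist (rp n) (pt 3) / 2 := by
      have := dist_pos.2 (rp_ne_third n); linarith
    have h3 : ∀ᶠ m in atTop, dist (rp m) (pt 3) < dist (rp n) (pt 3) / 2 :=
      (tendsto_iff_dist_tendsto_zero.1 tendsto_rp).eventually (gt_mem_nhds hpos)
    obtain ⟨M, hM⟩ := eventually_atTop.1 h3
    refine (Set.finite_Iio M).subset ?_
    rintro m ⟨-, hm⟩
    by_contra hcon
    have h4 := hM m (by simpa using hcon)
    have h5 : dist (rp m) (rp n) < dist (rp n) (pt 3) / 2 := hm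
    have h6 := dist_triangle_left (rp n) (pt 3) (rp m)
    linarith
  refine ⟨Metric.ball (rp n) (dist (rp n) (pt 3) / 2) \ rp '' {m | m ≠ n ∧ rp m ∈
    Metric.ball (rp n) (dist (rp n) (pt 3) / 2)}, ?_, ?_, ?_⟩
  · exact Metric.isOpen_ball.sdiff (h2.image rp).isClosed
  · have hpos : 0 < dist (rp n) (pt 3) / 2 := by
      have := dist_pos.2 (rp_ne_third n); linarith
    refine ⟨Metric.mem_ball_self hpos, ?_⟩
    rintro ⟨m, ⟨hm, -⟩, hmn⟩
    exact hm (rp_injective hmn)
  · rintro m ⟨hm1, hm2⟩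
    by_contra hne
    exact hm2 ⟨m, ⟨hne, hm1⟩, rfl⟩

/-- the pairs of a code and a coded witness -/
def Pairs : Set (P × (ℕ → UnitAddCircle)) := {q | ∃ w, (q.1, w) ∈ Cl ∧ q.2 = fun i => rp (w i)}

/-- the base of the target system -/
def QS : Set (P × (ℕ → UnitAddCircle)) := closure Pairs

theorem QS_cases {q : P × (ℕ → UnitAddCircle)} (hq : q ∈ QS) :
    (∃ i, q.2 i = pt 3) ∨ ∃ w, (q.1, w) ∈ Cl ∧ q.2 = fun i => rp (w i) := by
  by_cases h : ∃ i, q.2 i = pt 3
  · exact Or.inl h
  right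
  push Not at h
  have hR : IsClosed (insert (pt 3) (range rp)) := tendsto_rp.isCompact_insert_range.isClosed
  have hcl : ∀ i, q.2 i ∈ insert (pt 3) (range rp) := by
    intro i
    have hcont : Continuous (fun q : P × (ℕ → UnitAddCircle) => q.2 i) :=
      (continuous_apply i).comp continuous_snd
    have hsub : QS ⊆ {q | q.2 i ∈ insert (pt 3) (range rp)} := by
      apply closure_minimal
      · rintro ⟨p, β⟩ ⟨w, -, hw⟩
        simp only at hw
        right
        exact ⟨w i, by simp [hw]⟩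
      · exact hR.preimage hcont
    exact hsub hq
  have hw : ∀ i, ∃ n, rp n = q.2 i := by
    intro i
    rcases hcl i with h1 | h1
    · exact absurd h1 (h i)
    · exact h1
  choose w hw using hw
  refine ⟨w, ?_, funext fun i => (hw i).symm⟩
  rw [← isClosed_Cl.closure_eq, mem_closure_iff]
  intro O hO hqO
  obtain ⟨O1, O2, hO1, hO2, hp, hwO, hsub⟩ := isOpen_prod_iff.1 hO q.1 w hqO
  obtain ⟨s, ⟨x, n, rfl⟩, hx, hs⟩ :=
    (PiNat.isTopologicalBasis_cylinders (fun _ : ℕ => ℕ)).exists_subset_of_mem_open hwO hO2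
  choose U hU1 hU2 hU3 using rp_isolated
  have hnhd : {q' : P × (ℕ → UnitAddCircle) | q'.1 ∈ O1 ∧ ∀ i ∈ Set.Iio n, q'.2 i ∈ U (w i)} ∈
      𝓝 q := by
    have h1 : {q' : P × (ℕ → UnitAddCircle) | q'.1 ∈ O1} ∈ 𝓝 q :=
      (hO1.preimage continuous_fst).mem_nhds hp
    have h2 : (⋂ i ∈ Set.Iio n, {q' : P × (ℕ → UnitAddCircle) | q'.2 i ∈ U (w i)}) ∈ 𝓝 q := by
      rw [Filter.biInter_mem (Set.finite_Iio n)]
      intro i _
      refine ((hU1 (w i)).preimage ((continuous_apply i).comp continuous_snd)).mem_nhds ?_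
      change q.2 i ∈ U (w i)
      rw [← hw i]
      exact hU2 (w i)
    filter_upwards [h1, h2] with q' hq1 hq2
    exact ⟨hq1, fun i hi => mem_iInter₂.1 hq2 i hi⟩
  obtain ⟨⟨p', β'⟩, ⟨h1, h2⟩, w', hw', hβ'⟩ := mem_closure_iff_nhds.1 hq _ hnhd
  simp only at h1 h2 hw' hβ'
  refine ⟨(p', w'), hsub ⟨h1, hs ?_⟩, hw'⟩
  intro i hi
  have h3 := h2 i hi
  rw [hβ'] at h3
  have h4 := hU3 (w i) (w' i) h3
  change w' i = x i
  rw [h4]
  exact hx i hi

theorem bas_determines {p p' : P} (h : ∀ k, bas k p' = true → bas k p = true) : p' = p := by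
  funext t
  have h1 := h (2 * Encodable.encode t + if p' t = true then 1 else 0) (by
    rw [bas_apply]; simp)
  rw [bas_apply, decide_eq_true_eq] at h1
  exact h1.symm

end Q215.Ab
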