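import Pool.Agent.Q215.AbD

/-!
# The two skew rotations: the counterexample
-/

open Set Topology MeasureTheory Filter

namespace Q215.Ab

instance : CompactSpace QS := isCompact_iff_compactSpace.1 (isClosed_closure.isCompact)

/-- the source system: the skew rotation over all codes -/
noncomputable def YS (d : ℕ) (hd : 0 < d) : TopSys d :=
  rotSys (Q := P) (L := G) d hd rg continuous_rg

/-- the rotations of the target system -/
noncomputable def hX (q : QS) : G × (ℕ → UnitAddCircle) := (rg q.1.1, q.1.2)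

theorem continuous_hX : Continuous hX := by
  unfold hX
  exact (continuous_rg.comp (continuous_fst.comp continuous_subtype_val)).prodMk
    (continuous_snd.comp continuous_subtype_val)

/-- the target system -/
noncomputable def XS (d : ℕ) (hd : 0 < d) : TopSys d :=
  rotSys (Q := QS) (L := G × (ℕ → UnitAddCircle)) d hd hX continuous_hX

/-! ## Every invariant measure is realized -/

theorem measurable_sel {u : P → ℕ → ℕ} (hu : Measurable u) (i : ℕ) :
    Measurable (fun y : P × G => mt (u y.1 i) • y.2 (Sum.inl (u y.1 i))) := by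
  have h1 : Measurable (fun z : G × ℕ => mt z.2 • z.1 (Sum.inl z.2)) := by
    apply measurable_from_prod_countable_left
    intro n
    have : Measurable (fun x : G => x (Sum.inl n)) := measurable_pi_apply _
    exact this.const_smul (mt n)
  have h2 : Measurable (fun y : P × G => (y.2, u y.1 i)) :=
    measurable_snd.prodMk ((measurable_pi_apply i).comp (hu.comp measurable_fst))
  exact h1.comp h2

theorem realized (d : ℕ) (hd : 0 < d) (μ : Measure (YS d hd).carrier) (hμ : μ ∈ Prob (YS d hd)) :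
    Realized (XS d hd) (YS d hd) μ := by
  have hprob : IsProbabilityMeasure μ := hμ.1
  let μ' : Measure (P × G) := μ
  have : IsFiniteMeasure μ' := inferInstanceAs (IsFiniteMeasure μ)
  obtain ⟨P0, u, hP0, hν, hu, hsel⟩ := selection isClosed_Cl exists_witness (μ'.map Prod.fst)
  have hu' : ∀ i, Measurable (fun p => u p i) := fun i => (measurable_pi_apply i).comp hu
  let Y0 : Set (P × G) := Prod.fst ⁻¹' P0
  have hY0 : MeasurableSet Y0 := measurable_fst hP0
  have hmem : ∀ y : Y0, ((y.1.1, fun i => rp (u y.1.1 i)) : P × (ℕ → UnitAddCircle)) ∈ QS := by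
    intro y
    exact subset_closure ⟨u y.1.1, hsel _ y.2, rfl⟩
  let ρ : Y0 → QS × (G × (ℕ → UnitAddCircle)) := fun y =>
    (⟨(y.1.1, fun i => rp (u y.1.1 i)), hmem y⟩,
      (y.1.2, fun i => mt (u y.1.1 i) • y.1.2 (Sum.inl (u y.1.1 i))))
  have hrp : Measurable rp := measurable_from_top
  have hρ : Measurable ρ := by
    have m1 : Measurable (fun y : Y0 => y.1.1) := measurable_fst.comp measurable_subtype_coe
    have m2 : Measurable (fun y : Y0 => y.1.2) := measurable_snd.comp measurable_subtype_coe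
    refine Measurable.prodMk (Measurable.subtype_mk (m1.prodMk ?_)) (m2.prodMk ?_)
    · rw [measurable_pi_iff]
      intro i
      exact hrp.comp ((hu' i).comp m1)
    · rw [measurable_pi_iff]
      intro i
      exact (measurable_sel hu i).comp measurable_subtype_coe
  refine ⟨Y0, ⟨hY0, ?_⟩, ?_, ρ, ⟨hρ, ?_⟩, ?_⟩
  · intro i y hy
    exact hy
  · have h1 : (μ'.map Prod.fst) P0ᶜ = μ' (Prod.fst ⁻¹' P0ᶜ) :=
      Measure.map_apply measurable_fst hP0.compl
    rw [h1] at hν
    exact hν
  · intro i y z hyz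
    have h1 : z.1 = ((y.1.1, y.1.2 + i ⟨0, hd⟩ • rg y.1.1) : P × G) := hyz
    have hz1 : z.1.1 = y.1.1 := by rw [h1]
    have hz2 : z.1.2 = y.1.2 + i ⟨0, hd⟩ • rg y.1.1 := by rw [h1]
    change ρ z = (((ρ y).1, (ρ y).2 + i ⟨0, hd⟩ • hX (ρ y).1) : QS × (G × (ℕ → UnitAddCircle)))
    have e1 : (ρ z).1 = (ρ y).1 := by
      apply Subtype.ext
      simp only [ρ, hz1]
    have e2 : (ρ z).2 = (ρ y).2 + i ⟨0, hd⟩ • hX (ρ y).1 := by
      refine Prod.ext ?_ ?_
      · exact hz2
      · funext k
        change mt (u z.1.1 k) • z.1.2 (Sum.inl (u z.1.1 k)) =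
          mt (u y.1.1 k) • y.1.2 (Sum.inl (u y.1.1 k)) + i ⟨0, hd⟩ • rp (u y.1.1 k)
        rw [hz1, hz2, Pi.add_apply, Pi.smul_apply, smul_add]
        congr 1
        change mt (u y.1.1 k) • (i ⟨0, hd⟩ • pt (4 ^ (u y.1.1 k))) =
          i ⟨0, hd⟩ • (mt (u y.1.1 k) • pt (4 ^ (u y.1.1 k)))
        rw [smul_comm]
    exact Prod.ext e1 e2
  · intro y z hyz
    have e1 : (ρ y).1.1.1 = (ρ z).1.1.1 := by rw [hyz]
    have e2 : (ρ y).2.1 = (ρ z).2.1 := by rw [hyz]
    apply Subtype.ext
    exact Prod.ext e1 e2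

/-! ## There is no morphism defined on a full set -/

theorem no_morphism (d : ℕ) (hd : 0 < d) (Y₀ : Set (YS d hd).carrier) (hinv : InvBorel Y₀)
    (hfull : IsFull Y₀) (ρ : Y₀ → (XS d hd).carrier) (hρ : IsMorphism ρ) : False := by
  classical
  let Y0 : Set (P × G) := Y₀
  have hY0 : MeasurableSet Y0 := hinv.1
  let X := QS × (G × (ℕ → UnitAddCircle))
  -- the default point
  have hQne : Nonempty QS := by
    obtain ⟨w, hw⟩ := exists_witness (fun _ => false)
    exact ⟨⟨((fun _ => false), fun i => rp (w i)), subset_closure ⟨w, hw, rfl⟩⟩⟩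
  obtain ⟨q0⟩ := hQne
  let x0 : X := (q0, (0, 0))
  let ρ' : Y0 → X := ρ
  let R : P × G → X := fun y => if h : y ∈ Y0 then ρ' ⟨y, h⟩ else x0
  have hRval : ∀ (y : P × G) (h : y ∈ Y0), R y = ρ' ⟨y, h⟩ := fun y h => dif_pos h
  have hR : Measurable R := by
    have h1 : Measurable ρ' := hρ.1
    exact Measurable.dite h1 measurable_const hY0
  have hRrot : ∀ (p : P) (x : G) (N : ℕ), (p, x) ∈ Y0 → (p, x + N • rg p) ∈ Y0 →
      R (p, x + N • rg p) = ((R (p, x)).1, (R (p, x)).2 + N • hX (R (p, x)).1) := by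
    intro p x N h1 h2
    have h3 := hρ.2 (fun _ => (N : ℤ)) ⟨(p, x), h1⟩ ⟨(p, x + N • rg p), h2⟩ (by
      change ((p, x + N • rg p) : P × G) = (p, x + ((N : ℤ)) • rg p)
      rw [natCast_zsmul])
    have h4 : ρ' ⟨(p, x + N • rg p), h2⟩ =
        ((ρ' ⟨(p, x), h1⟩).1, (ρ' ⟨(p, x), h1⟩).2 + (N : ℤ) • hX (ρ' ⟨(p, x), h1⟩).1) := h3
    rw [natCast_zsmul] at h4
    rw [hRval _ h1, hRval _ h2]
    exact h4
  -- Haar measure
  let μ : Measure G := Measure.addHaarMeasure ⊤
  have hμuniv : μ univ = 1 := by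
    have := Measure.addHaarMeasure_self (G := G) (K₀ := ⊤)
    exact this
  have : IsProbabilityMeasure μ := ⟨hμuniv⟩
  have hfib : ∀ p : P, μ {x | (p, x) ∉ Y0} = 0 := by
    intro p
    have hm : Measurable (fun x : G => (p, x)) := measurable_const.prodMk measurable_id
    let μp : Measure (P × G) := μ.map (fun x => (p, x))
    have hμp : μp ∈ Prob (YS d hd) := by
      refine ⟨?_, ?_⟩
      · exact Measure.isProbabilityMeasure_map hm.aemeasurable
      · intro i
        have hact : Measurable (fun y : P × G => (y.1, y.2 + i ⟨0, hd⟩ • rg y.1)) := by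
          have h1 : Continuous (fun y : P × G => (y.1, y.2 + i ⟨0, hd⟩ • rg y.1)) := by
            have := continuous_rg
            fun_prop
          exact h1.measurable
        change (μ.map (fun x => (p, x))).map (fun y : P × G => (y.1, y.2 + i ⟨0, hd⟩ • rg y.1)) =
          μ.map (fun x => (p, x))
        rw [Measure.map_map hact hm]
        have h2 : ((fun y : P × G => (y.1, y.2 + i ⟨0, hd⟩ • rg y.1)) ∘ fun x : G => (p, x)) =
            (fun x : G => (p, x)) ∘ fun x => x + i ⟨0, hd⟩ • rg p := rfl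
        rw [h2, ← Measure.map_map hm (measurable_add_const _), map_add_right_eq_self]
    have h0 := hfull μp hμp
    have h1 : μp Y0ᶜ = μ ((fun x => (p, x)) ⁻¹' Y0ᶜ) := Measure.map_apply hm hY0.compl
    have h2 : μp Y0ᶜ = 0 := h0
    rw [h1] at h2
    exact h2
  -- measurability of sections
  have hsec : ∀ (p : P) (S : Set X), MeasurableSet S →
      MeasurableSet {x : G | (p, x) ∈ Y0 ∧ R (p, x) ∈ S} := by
    intro p S hS
    have hm : Measurable (fun x : G => (p, x)) := measurable_const.prodMk measurable_id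
    exact (hm hY0).inter ((hR.comp hm) hS)
  -- the code coordinate is preserved
  have hc1 : ∀ (p : P) (k : ℕ), bas k p ≠ true →
      μ {x : G | (p, x) ∈ Y0 ∧ bas k (R (p, x)).1.1.1 = true} = 0 := by
    intro p k hk
    by_contra hne
    obtain ⟨U, hU, hUn⟩ := exists_nhds_avoid (pt (pr k)) (pr k) (pr_prime k).pos
      ((nsmul_pt_eq_zero (pr_prime k).pos _).2 dvd_rfl)
    have hbm : MeasurableSet {z : X | bas k z.1.1.1 = true} := by
      have h1 : Measurable (fun z : X => z.1.1.1) :=
        measurable_fst.comp (measurable_subtype_coe.comp measurable_fst)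
      have h2 : Measurable (fun p : P => bas k p) := by
        unfold bas
        have h3 : Measurable (fun b : Bool => decide (b = decide (k % 2 = 1))) := measurable_from_top
        exact h3.comp (measurable_pi_apply _)
      exact (h2.comp h1) (measurableSet_singleton true)
    refine no_rot μ {x : G | (p, x) ∈ Y0 ∧ bas k (R (p, x)).1.1.1 = true} (hsec p _ hbm)
      (pos_iff_ne_zero.2 hne) (fun x => (R (p, x)).2.1 (Sum.inr k)) ?_ (rg p) (pt (pr k))
      (NN p) (tendsto_NN p) U hU ?_ ?_
    · have hm : Measurable (fun x : G => (p, x)) := measurable_const.prodMk measurable_id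
      exact (measurable_pi_apply (Sum.inr k)).comp
        (measurable_fst.comp (measurable_snd.comp (hR.comp hm)))
    · intro l
      apply hUn
      rw [Ne, nsmul_pt_eq_zero (pr_prime k).pos]
      refine not_dvd_NN (pr_prime k) ?_ p ?_ l
      · have := pr_ge k; omega
      · intro j hj hjk
        have := pr_injective hjk
        subst this
        exact hk hj
    · rintro l x ⟨h1, h2⟩ ⟨h3, -⟩
      change (R (p, x + NN p l • rg p)).2.1 (Sum.inr k) =
        (R (p, x)).2.1 (Sum.inr k) + NN p l • pt (pr k)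
      rw [hRrot p x (NN p l) h1 h3]
      change (R (p, x)).2.1 (Sum.inr k) +
        NN p l • (if bas k (R (p, x)).1.1.1 = true then pt (pr k) else 0) = _
      rw [if_pos h2]
  -- no coordinate of the coded witness is infinite
  have hc2 : ∀ (p : P) (i : ℕ), μ {x : G | (p, x) ∈ Y0 ∧ (R (p, x)).1.1.2 i = pt 3} = 0 := by
    intro p i
    by_contra hne
    obtain ⟨U, hU, hUn⟩ := exists_nhds_avoid (pt 3) 3 (by norm_num)
      ((nsmul_pt_eq_zero (by norm_num) _).2 dvd_rfl)
    have hbm : MeasurableSet {z : X | z.1.1.2 i = pt 3} := by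
      have h1 : Measurable (fun z : X => z.1.1.2 i) :=
        (measurable_pi_apply i).comp (measurable_snd.comp (measurable_subtype_coe.comp measurable_fst))
      exact h1 (measurableSet_singleton _)
    refine no_rot μ {x : G | (p, x) ∈ Y0 ∧ (R (p, x)).1.1.2 i = pt 3} (hsec p _ hbm)
      (pos_iff_ne_zero.2 hne) (fun x => (R (p, x)).2.2 i) ?_ (rg p) (pt 3)
      (NN p) (tendsto_NN p) U hU ?_ ?_
    · have hm : Measurable (fun x : G => (p, x)) := measurable_const.prodMk measurable_id
      exact (measurable_pi_apply i).comp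
        (measurable_snd.comp (measurable_snd.comp (hR.comp hm)))
    · intro l
      apply hUn
      rw [Ne, nsmul_pt_eq_zero (by norm_num)]
      refine not_dvd_NN Nat.prime_three (by norm_num) p ?_ l
      intro j _ hj
      have := pr_ge j
      omega
    · rintro l x ⟨h1, h2⟩ ⟨h3, -⟩
      change (R (p, x + NN p l • rg p)).2.2 i = (R (p, x)).2.2 i + NN p l • pt 3
      rw [hRrot p x (NN p l) h1 h3]
      change (R (p, x)).2.2 i + NN p l • (R (p, x)).1.1.2 i = _
      rw [h2]
  -- almost everywhere statement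
  have hae : ∀ p : P, ∀ᵐ x ∂μ, (p, x) ∈ Y0 ∧
      ∃ w, (p, w) ∈ Cl ∧ (R (p, x)).1.1.2 = fun i => rp (w i) := by
    intro p
    have a1 : ∀ᵐ x ∂μ, (p, x) ∈ Y0 := hfib p
    have a2 : ∀ᵐ x ∂μ, ∀ k, bas k p ≠ true →
        ¬ ((p, x) ∈ Y0 ∧ bas k (R (p, x)).1.1.1 = true) := by
      rw [ae_all_iff]
      intro k
      by_cases hk : bas k p = true
      · exact Eventually.of_forall fun x h => absurd hk h
      · have h1 : ∀ᵐ x ∂μ, x ∉ {x : G | (p, x) ∈ Y0 ∧ bas k (R (p, x)).1.1.1 = true} :=
          measure_eq_zero_iff_ae_notMem.1 (hc1 p k hk)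
        filter_upwards [h1] with x hx _
        exact hx
    have a3 : ∀ᵐ x ∂μ, ∀ i, ¬ ((p, x) ∈ Y0 ∧ (R (p, x)).1.1.2 i = pt 3) := by
      rw [ae_all_iff]
      intro i
      exact measure_eq_zero_iff_ae_notMem.1 (hc2 p i)
    filter_upwards [a1, a2, a3] with x h1 h2 h3
    refine ⟨h1, ?_⟩
    have hp : (R (p, x)).1.1.1 = p := by
      apply bas_determines
      intro k hk
      by_contra hcon
      exact h2 k hcon ⟨h1, hk⟩
    rcases QS_cases (R (p, x)).1.2 with ⟨i, hi⟩ | ⟨w, hw, hβ⟩
    · exact absurd ⟨h1, hi⟩ (h3 i)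
    · rw [hp] at hw
      exact ⟨w, hw, hβ⟩
  -- the diagonal set
  let E : Set (P × G) := Y0 ∩ {y | (R y).1.1.2 0 = rp 1}
  have hE : MeasurableSet E := by
    refine hY0.inter ?_
    have h1 : Measurable (fun y : P × G => (R y).1.1.2 0) :=
      (measurable_pi_apply 0).comp (measurable_snd.comp
        (measurable_subtype_coe.comp (measurable_fst.comp hR)))
    exact h1 (measurableSet_singleton _)
  let B : Set P := {p | 0 < μ (Prod.mk p ⁻¹' E)}
  have hB : MeasurableSet B := by
    have h1 : Measurable (fun p : P => μ (Prod.mk p ⁻¹' E)) := measurable_measure_prodMk_left hE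
    exact h1 measurableSet_Ioi
  obtain ⟨c, hc⟩ := exists_codes B hB
  by_cases hcB : c ∈ B
  · have h0 : μ (Prod.mk c ⁻¹' E) = 0 := by
      rw [measure_eq_zero_iff_ae_notMem]
      filter_upwards [hae c] with x hx hxE
      obtain ⟨-, w, hw, hβ⟩ := hx
      have h1 : (R (c, x)).1.1.2 0 = rp 1 := hxE.2
      rw [hβ] at h1
      exact (Cl_bit hc hw).1 (rp_injective h1) hcB
    have h2 : 0 < μ (Prod.mk c ⁻¹' E) := hcB
    rw [h0] at h2
    exact lt_irrefl _ h2
  · apply hcB
    have h0 : ∀ᵐ x ∂μ, x ∈ Prod.mk c ⁻¹' E := by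
      filter_upwards [hae c] with x hx
      obtain ⟨h1, w, hw, hβ⟩ := hx
      refine ⟨h1, ?_⟩
      change (R (c, x)).1.1.2 0 = rp 1
      rw [hβ]
      change rp (w 0) = rp 1
      rw [(Cl_bit hc hw).2 hcB]
    change 0 < μ (Prod.mk c ⁻¹' E)
    have h1 : μ (Prod.mk c ⁻¹' E) = 1 := by
      have h2 : (Prod.mk c ⁻¹' E : Set G) =ᵐ[μ] univ := eventuallyEq_univ.2 h0
      rw [measure_congr h2, hμuniv]
    rw [h1]
    exact one_pos

end Q215.Ab
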