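import Mathlib

/-!
An independent perfect family in the group `ℕ → ZMod 2`, and sets all of whose differences are
sums of two members of it.
-/

namespace Q215.CI

/-- the Cantor group. -/
abbrev C : Type := ℕ → ZMod 2

lemma polishC : PolishSpace C := {}

/-- agreement of two points below `n`. -/
def Agree (x y : C) (n : ℕ) : Prop := ∀ i, i < n → x i = y i

lemma Agree.symm {x y : C} {n : ℕ} (h : Agree x y n) : Agree y x n := fun i hi => (h i hi).symm
lemma Agree.trans {x y z : C} {n : ℕ} (h : Agree x y n) (h' : Agree y z n) : Agree x z n :=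
  fun i hi => (h i hi).trans (h' i hi)
lemma Agree.mono {x y : C} {n m : ℕ} (h : Agree x y n) (hm : m ≤ n) : Agree x y m :=
  fun i hi => h i (lt_of_lt_of_le hi hm)

/-- the code of the restriction of `x` to `k`. -/
def enc (x : C) (k : ℕ) : ℕ := Encodable.encode ((List.range k).map (fun i => (x i).val))

lemma enc_eq {x y : C} {k l : ℕ} : enc x k = enc y l ↔ k = l ∧ Agree x y k := by
  unfold enc
  rw [Encodable.encode_inj]
  constructor
  · intro h
    have hl : k = l := by
      have := congrArg List.length h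
      simpa using this
    subst hl
    refine ⟨rfl, fun i hi => ?_⟩
    exact ZMod.val_injective 2 (List.map_inj_left.1 h i (List.mem_range.2 hi))
  · rintro ⟨rfl, h⟩
    exact List.map_inj_left.2 fun i hi => by rw [h i (List.mem_range.1 hi)]

open Classical in
/-- the independent family. -/
noncomputable def e (x : C) : C := fun n => if ∃ k, enc x k = n then 1 else 0

open Classical in
lemma e_enc (x y : C) (k : ℕ) : e y (enc x k) = if Agree x y k then 1 else 0 := by
  unfold e
  by_cases h : Agree x y k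
  · rw [if_pos h, if_pos]
    exact ⟨k, enc_eq.2 ⟨rfl, h.symm⟩⟩
  · rw [if_neg h, if_neg]
    rintro ⟨l, hl⟩
    obtain ⟨h1, h2⟩ := enc_eq.1 hl
    subst h1
    exact h h2.symm

lemma exists_level (l : List C) (x : C) : ∃ k, ∀ y ∈ l, Agree x y k → y = x := by
  induction l with
  | nil => exact ⟨0, fun y hy => by simp at hy⟩
  | cons z l ih =>
    obtain ⟨k, hk⟩ := ih
    by_cases h : z = x
    · refine ⟨k, fun y hy hag => ?_⟩
      rcases List.mem_cons.1 hy with h' | h'
      · rw [h', h]
      · exact hk y h' hag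
    · obtain ⟨i, hi⟩ := Function.ne_iff.1 h
      refine ⟨max k (i + 1), fun y hy hag => ?_⟩
      rcases List.mem_cons.1 hy with h' | h'
      · subst h'
        exact absurd (hag i (lt_of_lt_of_le (Nat.lt_succ_self i) (le_max_right _ _))).symm hi
      · exact hk y h' (hag.mono (le_max_left _ _))

open Classical in
lemma even_count (l : List C) (h : (l.map e).sum = 0) (x : C) : Even (l.count x) := by
  obtain ⟨k, hk⟩ := exists_level l x
  have key : ∀ l' : List C, (∀ y ∈ l', y ∈ l) →
      (l'.map e).sum (enc x k) = ((l'.count x : ℕ) : ZMod 2) := by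
    intro l'
    induction l' with
    | nil => intro _; simp
    | cons y l' ih =>
      intro hsub
      rw [List.map_cons, List.sum_cons, Pi.add_apply, ih (fun z hz => hsub z (by simp [hz])),
        e_enc, List.count_cons]
      by_cases hy : y = x
      · subst hy
        have : Agree y y k := fun _ _ => rfl
        rw [if_pos this]
        simp [add_comm]
      · have : ¬ Agree x y k := fun hag => hy (hk y (hsub y (by simp)) hag)
        rw [if_neg this]
        simp [hy]
  have h1 := key l (fun _ h => h)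
  rw [h] at h1
  exact (ZMod.natCast_eq_zero_iff_even).1 h1.symm

lemma e_injective : Function.Injective e := by
  classical
  intro x y h
  by_contra hne
  have h1 : (([x, y] : List C).map e).sum = 0 := by
    simp only [List.map_cons, List.map_nil, List.sum_cons, List.sum_nil, add_zero, h]
    exact CharTwo.add_self_eq_zero _
  have h2 := even_count _ h1 x
  have hne' : ¬ y = x := fun h => hne h.symm
  simp [hne'] at h2

lemma add_self (x : C) : x + x = 0 := by
  funext i
  exact CharTwo.add_self_eq_zero _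

lemma eq_of_add_eq_zero {x y : C} (h : x + y = 0) : x = y := by
  have : x + y + y = y := by rw [h, zero_add]
  rwa [add_assoc, add_self, add_zero] at this

/-- four summands -/
lemma four {p q p' q' : C} (hpq : p ≠ q) (h : e p + e q = e p' + e q') :
    (p = p' ∧ q = q') ∨ (p = q' ∧ q = p') := by
  classical
  have h1 : (([p, q, p', q'] : List C).map e).sum = 0 := by
    simp only [List.map_cons, List.map_nil, List.sum_cons, List.sum_nil, add_zero]
    rw [← add_assoc, ← add_assoc, add_assoc, h, add_self]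
  have h2 := even_count _ h1 p
  have h3 := even_count _ h1 q
  have hqp : q ≠ p := hpq.symm
  by_cases a1 : p' = p <;> by_cases a2 : q' = p <;> by_cases a3 : p' = q <;>
    by_cases a4 : q' = q <;> simp_all [Nat.even_iff]

/-- six summands -/
lemma six {p1 q1 p2 q2 p3 q3 : C} (h1 : p1 ≠ q1) (h2 : p2 ≠ q2)
    (h : e p1 + e q1 + (e p2 + e q2) = e p3 + e q3) :
    p1 = p2 ∨ p1 = q2 ∨ q1 = p2 ∨ q1 = q2 := by
  classical
  by_contra hcon
  push Not at hcon
  obtain ⟨n1, n2, n3, n4⟩ := hcon
  have hs : (([p1, q1, p2, q2, p3, q3] : List C).map e).sum = 0 := by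
    simp only [List.map_cons, List.map_nil, List.sum_cons, List.sum_nil, add_zero]
    have : e p1 + (e q1 + (e p2 + (e q2 + (e p3 + e q3)))) =
        (e p1 + e q1 + (e p2 + e q2)) + (e p3 + e q3) := by
      simp only [add_assoc]
    rw [this, h, add_self]
  have c1 := even_count _ hs p1
  have c2 := even_count _ hs q1
  have c3 := even_count _ hs p2
  simp only [List.count_cons, List.count_nil, Nat.even_iff, beq_iff_eq] at c1 c2 c3
  simp only [if_neg h1.symm, if_neg n1.symm, if_neg n2.symm, if_true] at c1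
  simp only [if_neg h1, if_neg n3.symm, if_neg n4.symm, if_true] at c2
  simp only [if_neg n1, if_neg n3, if_neg h2.symm, if_true] at c3
  have d1 : p3 = p1 ∨ q3 = p1 := by
    by_contra hc
    push Not at hc
    rw [if_neg hc.1, if_neg hc.2] at c1
    omega
  have d2 : p3 = q1 ∨ q3 = q1 := by
    by_contra hc
    push Not at hc
    rw [if_neg hc.1, if_neg hc.2] at c2
    omega
  have d3 : p3 = p2 ∨ q3 = p2 := by
    by_contra hc
    push Not at hc
    rw [if_neg hc.1, if_neg hc.2] at c3
    omega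
  rcases d1 with d1 | d1 <;> rcases d2 with d2 | d2 <;> rcases d3 with d3 | d3 <;>
    first
      | exact h1 (d1.symm.trans d2)
      | exact n1 (d1.symm.trans d3)
      | exact n3 (d2.symm.trans d3)

lemma star {P : Set C} (hinf : P.Infinite)
    (h : ∀ x ∈ P, ∀ y ∈ P, x ≠ y → ∃ p q, p ≠ q ∧ x + y = e p + e q) :
    ∃ t : C, ∀ x ∈ P, ∃ p, x = t + e p := by
  classical
  obtain ⟨x0, hx0⟩ := hinf.nonempty
  obtain ⟨y1, hy1, hy1'⟩ := hinf.exists_notMem_finset {x0}
  obtain ⟨y2, hy2, hy2'⟩ := hinf.exists_notMem_finset {x0, y1}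
  simp only [Finset.mem_insert, Finset.mem_singleton, not_or] at hy1' hy2'
  -- a common index
  obtain ⟨c, u1, u2, hc1, hc2, h12, e1, e2⟩ : ∃ c u1 u2 : C, c ≠ u1 ∧ c ≠ u2 ∧ u1 ≠ u2 ∧
      x0 + y1 = e c + e u1 ∧ x0 + y2 = e c + e u2 := by
    obtain ⟨p1, q1, n1, g1⟩ := h x0 hx0 y1 hy1 (fun h => hy1' h.symm)
    obtain ⟨p2, q2, n2, g2⟩ := h x0 hx0 y2 hy2 (fun h => hy2'.1 h.symm)
    obtain ⟨p3, q3, n3, g3⟩ := h y1 hy1 y2 hy2 (fun h => hy2'.2 h.symm)
    have hsum : e p1 + e q1 + (e p2 + e q2) = e p3 + e q3 := by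
      rw [← g1, ← g2, ← g3]
      have : x0 + y1 + (x0 + y2) = (x0 + x0) + (y1 + y2) := by ring
      rw [this, add_self, zero_add]
    have hy12 : y1 ≠ y2 := fun h => hy2'.2 h.symm
    have hne : ∀ a b d : C, x0 + y1 = e a + e b → x0 + y2 = e a + e d → b ≠ d := by
      intro a b d k1 k2 hbd
      subst hbd
      rw [← k2] at k1
      exact hy12 (add_left_cancel k1)
    rcases six n1 n2 hsum with h' | h' | h' | h'
    · subst h'
      exact ⟨p1, q1, q2, n1, n2, hne _ _ _ g1 g2, g1, g2⟩
    · subst h'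
      rw [add_comm (e p2)] at g2
      exact ⟨p1, q1, p2, n1, n2.symm, hne _ _ _ g1 g2, g1, g2⟩
    · subst h'
      rw [add_comm (e p1)] at g1
      exact ⟨q1, p1, q2, n1.symm, n2, hne _ _ _ g1 g2, g1, g2⟩
    · subst h'
      rw [add_comm (e p1)] at g1
      rw [add_comm (e p2)] at g2
      exact ⟨q1, p1, p2, n1.symm, n2.symm, hne _ _ _ g1 g2, g1, g2⟩
  have claimA : ∀ y ∈ P, y ≠ x0 → (∃ u, c ≠ u ∧ x0 + y = e c + e u) ∨
      x0 + y = e u1 + e u2 := by
    intro y hy hyx
    obtain ⟨p, q, n, g⟩ := h x0 hx0 y hy hyx.symm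
    by_cases hyy1 : y = y1
    · left; exact ⟨u1, hc1, by rw [hyy1]; exact e1⟩
    by_cases hyy2 : y = y2
    · left; exact ⟨u2, hc2, by rw [hyy2]; exact e2⟩
    have k1 : p = c ∨ p = u1 ∨ q = c ∨ q = u1 := by
      obtain ⟨p3, q3, -, g3⟩ := h y hy y1 hy1 hyy1
      apply six n hc1 (p3 := p3) (q3 := q3)
      rw [← g, ← e1, ← g3]
      have : x0 + y + (x0 + y1) = (x0 + x0) + (y + y1) := by ring
      rw [this, add_self, zero_add]
    have k2 : p = c ∨ p = u2 ∨ q = c ∨ q = u2 := by
      obtain ⟨p3, q3, -, g3⟩ := h y hy y2 hy2 hyy2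
      apply six n hc2 (p3 := p3) (q3 := q3)
      rw [← g, ← e2, ← g3]
      have : x0 + y + (x0 + y2) = (x0 + x0) + (y + y2) := by ring
      rw [this, add_self, zero_add]
    by_cases hpc : p = c
    · left; subst hpc; exact ⟨q, n, g⟩
    by_cases hqc : q = c
    · left; subst hqc; exact ⟨p, n.symm, by rw [g, add_comm]⟩
    right
    simp only [hpc, hqc, false_or] at k1 k2
    rcases k1 with k1 | k1 <;> rcases k2 with k2 | k2
    · exact absurd (k1.symm.trans k2) h12
    · rw [g, k1, k2]
    · rw [g, k1, k2, add_comm]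
    · exact absurd (k1.symm.trans k2) h12
  have claimB : ∀ y ∈ P, x0 + y ≠ e u1 + e u2 := by
    intro z hz hzz
    obtain ⟨y4, hy4, hy4'⟩ := hinf.exists_notMem_finset {x0, y1, y2, z}
    simp only [Finset.mem_insert, Finset.mem_singleton, not_or] at hy4'
    obtain ⟨m0, m1, m2, m3⟩ := hy4'
    rcases claimA y4 hy4 m0 with ⟨u4, hc4, g4⟩ | g4
    · obtain ⟨p3, q3, -, g3⟩ := h z hz y4 hy4 (fun h => m3 h.symm)
      have := six h12 hc4 (p3 := p3) (q3 := q3) (by
        rw [← hzz, ← g4, ← g3]
        have : x0 + z + (x0 + y4) = (x0 + x0) + (z + y4) := by ring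
        rw [this, add_self, zero_add])
      rcases this with k | k | k | k
      · exact hc1 k.symm
      · subst k
        rw [← e1] at g4
        exact m1 (add_left_cancel g4)
      · exact hc2 k.symm
      · subst k
        rw [← e2] at g4
        exact m2 (add_left_cancel g4)
    · rw [← hzz] at g4
      exact m3 (add_left_cancel g4)
  refine ⟨x0 + e c, fun y hy => ?_⟩
  by_cases hyx : y = x0
  · refine ⟨c, ?_⟩
    rw [add_assoc, add_self, add_zero, hyx]
  · rcases claimA y hy hyx with ⟨u, -, g⟩ | g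
    · refine ⟨u, ?_⟩
      rw [add_assoc, ← g, ← add_assoc, add_self, zero_add]
    · exact absurd g (claimB y hy)

/-! ### Continuity -/

lemma cont_of_agree {f : C → C} (h : ∀ x n, ∃ k, ∀ y, Agree x y k → f y n = f x n) :
    Continuous f := by
  rw [continuous_pi_iff]
  intro n
  rw [continuous_discrete_rng]
  intro b
  rw [isOpen_pi_iff]
  intro x hx
  obtain ⟨k, hk⟩ := h x n
  refine ⟨Finset.range k, fun j => {x j}, fun j _ => ⟨isOpen_discrete _, rfl⟩, ?_⟩
  intro y hy
  show f y n = b
  rw [hk y fun i hi => (hy i (by simpa using hi)).symm]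
  exact hx

lemma e_local (x : C) (n : ℕ) : ∃ k, ∀ y, Agree x y k → e y n = e x n := by
  classical
  by_cases h : ∃ z k, enc z k = n
  · obtain ⟨z, k, rfl⟩ := h
    refine ⟨k, fun y hy => ?_⟩
    rw [e_enc, e_enc]
    have : Agree z y k ↔ Agree z x k :=
      ⟨fun g => g.trans hy.symm, fun g => g.trans hy⟩
    simp only [this]
  · refine ⟨0, fun y _ => ?_⟩
    unfold e
    rw [if_neg (fun ⟨k, hk⟩ => h ⟨y, k, hk⟩), if_neg (fun ⟨k, hk⟩ => h ⟨x, k, hk⟩)]

lemma e_continuous : Continuous e := cont_of_agree e_local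

/-- the neighbourhoods of a point given by agreement. -/
lemma isOpen_agree (x : C) (n : ℕ) : IsOpen {y | Agree x y n} := by
  have : {y | Agree x y n} = ⋂ i ∈ Set.Iio n, {y : C | x i = y i} := by
    ext y
    simp only [Set.mem_iInter, Set.mem_Iio]
    rfl
  rw [this]
  refine (Set.finite_Iio n).isOpen_biInter fun i _ => ?_
  exact (isOpen_discrete {a : ZMod 2 | x i = a}).preimage (continuous_apply i)

lemma mem_nhds_agree {x : C} {U : Set C} (hU : IsOpen U) (hx : x ∈ U) :
    ∃ n, ∀ y, Agree x y n → y ∈ U := by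
  obtain ⟨I, u, hu, hsub⟩ := isOpen_pi_iff.1 hU x hx
  refine ⟨I.sup id + 1, fun y hy => hsub fun i hi => ?_⟩
  rw [← hy i (Nat.lt_succ_of_le (Finset.le_sup (f := id) hi))]
  exact (hu i hi).2

lemma e_inv (x y : C) (k : ℕ) (h : Agree (e x) (e y) (enc x k + 1)) : Agree x y k := by
  classical
  have h1 := h (enc x k) (Nat.lt_succ_self _)
  rw [e_enc, e_enc] at h1
  by_contra hc
  rw [if_neg hc, if_pos (show Agree x x k from fun _ _ => rfl)] at h1
  exact one_ne_zero h1

/-- The set of indices of a translate. -/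
lemma perfect_indices {P : Set C} (hP : Perfect P) (hne : P.Nonempty) (t : C)
    (h : ∀ x ∈ P, ∃ p, x = t + e p) :
    Perfect {p | t + e p ∈ P} ∧ {p | t + e p ∈ P}.Nonempty := by
  refine ⟨⟨?_, ?_⟩, ?_⟩
  · exact hP.closed.preimage (continuous_const.add e_continuous)
  · intro p hp
    rw [accPt_iff_nhds]
    intro U hU
    obtain ⟨V, hVU, hV, hpV⟩ := mem_nhds_iff.1 hU
    obtain ⟨k, hk⟩ := mem_nhds_agree hV hpV
    -- a neighbourhood of t + e p
    have hW := (isOpen_agree (t + e p) (enc p k + 1)).mem_nhds (fun _ _ => rfl)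
    obtain ⟨y, ⟨hyW, hyP⟩, hyne⟩ := accPt_iff_nhds.1 (hP.acc _ hp) _ hW
    obtain ⟨q, rfl⟩ := h y hyP
    refine ⟨q, ⟨hVU (hk q ?_), hyP⟩, ?_⟩
    · apply e_inv
      intro i hi
      have := hyW i hi
      simp only [Pi.add_apply] at this
      exact add_left_cancel this
    · rintro rfl
      exact hyne rfl
  · obtain ⟨x, hx⟩ := hne
    obtain ⟨p, rfl⟩ := h x hx
    exact ⟨p, hx⟩

end Q215.CI
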