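import Mathlib

/-!
Boolean completions of forcing notions with finite supports: an isomorphism between the
completions respects many subalgebras, and this distinguishes Cohen forcing from the forcing
with finite triangle-free graphs.
-/

open Set Cardinal

namespace Q215.CohenRO

/-- Regular open sets of conditions. -/
structure IsRegOpen {P : Type} [Preorder P] (U : Set P) : Prop where
  down : ∀ p ∈ U, ∀ q, q ≤ p → q ∈ U
  reg : ∀ p, (∀ q, q ≤ p → ∃ r, r ≤ q ∧ r ∈ U) → p ∈ U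

/-- The Boolean completion of `P`: the regular open sets of conditions, ordered by inclusion. -/
def RO (P : Type) [Preorder P] : Type := {U : Set P // IsRegOpen U}

instance (P : Type) [Preorder P] : PartialOrder (RO P) := PartialOrder.lift (fun U => U.1)
  Subtype.val_injective

section General

variable {P : Type} [Preorder P]

lemma le_iff {U V : RO P} : U ≤ V ↔ U.1 ⊆ V.1 := Iff.rfl

/-- compatibility -/
def Comp (p q : P) : Prop := ∃ r, r ≤ p ∧ r ≤ q

/-- the regular open set generated by a condition. -/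
def gen (q : P) : RO P := ⟨{s | ∀ t, t ≤ s → ∃ v, v ≤ t ∧ v ≤ q},
  fun _ hp _ hq t ht => hp t (ht.trans hq), fun p hp t ht => by
    obtain ⟨r, hr, hrU⟩ := hp t ht
    obtain ⟨v, hv, hvq⟩ := hrU r le_rfl
    exact ⟨v, hv.trans hr, hvq⟩⟩

lemma mem_gen_self (q : P) : q ∈ (gen q).1 := fun t ht => ⟨t, le_rfl, ht⟩

lemma gen_le {q : P} {U : RO P} (h : q ∈ U.1) : gen q ≤ U := by
  intro s hs
  apply U.2.reg
  intro t ht
  obtain ⟨v, hv, hvq⟩ := hs t ht
  exact ⟨v, hv, U.2.down q h v hvq⟩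

/-- the intersection. -/
def inter (U V : RO P) : RO P := ⟨U.1 ∩ V.1, fun p hp q hq =>
  ⟨U.2.down p hp.1 q hq, V.2.down p hp.2 q hq⟩, fun p hp =>
    ⟨U.2.reg p fun q hq => by
      obtain ⟨r, hr, h⟩ := hp q hq
      exact ⟨r, hr, h.1⟩, V.2.reg p fun q hq => by
      obtain ⟨r, hr, h⟩ := hp q hq
      exact ⟨r, hr, h.2⟩⟩⟩

/-- the least element. -/
def bot : RO P := ⟨∅, fun _ hp => absurd hp (notMem_empty _), fun p hp => by
  obtain ⟨r, -, hr⟩ := hp p le_rfl
  exact absurd hr (notMem_empty _)⟩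

/-- the countable chain condition -/
def CCC (P : Type) [Preorder P] : Prop :=
  ∀ S : Set P, (∀ p ∈ S, ∀ q ∈ S, p ≠ q → ¬ Comp p q) → S.Countable

end General

section Transfer

variable {P Q : Type} [Preorder P] [Preorder Q]

lemma nonempty_map (φ : RO P ≃o RO Q) {U : RO P} (h : U.1.Nonempty) : (φ U).1.Nonempty := by
  by_contra hc
  rw [not_nonempty_iff_eq_empty] at hc
  have h1 : φ U ≤ φ bot := by
    rw [le_iff, hc]; exact empty_subset _
  have h2 : U ≤ bot := φ.le_iff_le.1 h1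
  obtain ⟨x, hx⟩ := h
  exact h2 hx

lemma inter_map (φ : RO P ≃o RO Q) (U V : RO P) : φ (inter U V) = inter (φ U) (φ V) := by
  apply le_antisymm
  · intro x hx
    exact ⟨(φ.le_iff_le.2 (show inter U V ≤ U from fun y hy => hy.1)) hx,
      (φ.le_iff_le.2 (show inter U V ≤ V from fun y hy => hy.2)) hx⟩
  · rw [← φ.symm.le_iff_le, φ.symm_apply_apply]
    have h1 : φ.symm (inter (φ U) (φ V)) ≤ U := by
      rw [← φ.le_iff_le, φ.apply_symm_apply]
      exact fun y hy => hy.1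
    have h2 : φ.symm (inter (φ U) (φ V)) ≤ V := by
      rw [← φ.le_iff_le, φ.apply_symm_apply]
      exact fun y hy => hy.2
    exact fun y hy => ⟨h1 hy, h2 hy⟩

lemma nonempty_inter_map (φ : RO P ≃o RO Q) {U V : RO P} (h : (U.1 ∩ V.1).Nonempty) :
    ((φ U).1 ∩ (φ V).1).Nonempty := by
  have h1 : (φ (inter U V)).1.Nonempty := nonempty_map φ h
  rw [inter_map] at h1
  exact h1

lemma ccc_of_iso (φ : RO P ≃o RO Q) (hP : CCC P) : CCC Q := by
  classical
  intro S hS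
  have hne : ∀ q : Q, (φ.symm (gen q)).1.Nonempty := fun q =>
    nonempty_map φ.symm ⟨q, mem_gen_self q⟩
  choose f hf using hne
  have hinc : ∀ p ∈ S, ∀ q ∈ S, p ≠ q → ¬ Comp (f p) (f q) := by
    rintro p hp q hq hpq ⟨r, hr1, hr2⟩
    have h1 : ((φ.symm (gen p)).1 ∩ (φ.symm (gen q)).1).Nonempty :=
      ⟨r, (φ.symm (gen p)).2.down _ (hf p) _ hr1, (φ.symm (gen q)).2.down _ (hf q) _ hr2⟩
    have h2 := nonempty_inter_map φ h1
    rw [φ.apply_symm_apply, φ.apply_symm_apply] at h2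
    obtain ⟨s, hs1, hs2⟩ := h2
    obtain ⟨v, hv, hvp⟩ := hs1 s le_rfl
    obtain ⟨w, hw, hwq⟩ := hs2 v hv
    exact hS p hp q hq hpq ⟨w, hw.trans hvp, hwq⟩
  have hinj : Set.InjOn f S := by
    intro p hp q hq hpq
    by_contra hne
    exact hinc p hp q hq hne ⟨f p, le_rfl, hpq.le⟩
  have hc : (f '' S).Countable := by
    apply hP
    rintro - ⟨p, hp, rfl⟩ - ⟨q, hq, rfl⟩ hne
    exact hinc p hp q hq fun h => hne (by rw [h])
  exact Set.countable_of_injective_of_countable_image hinj hc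

end Transfer

/-! ### Systems of restrictions -/

/-- A forcing notion with finite supports and restrictions. -/
structure Sys (X P : Type) [Preorder P] where
  dom : P → Set X
  fin : ∀ p, (dom p).Finite
  res : Set X → P → P
  dom_res : ∀ A p, dom (res A p) ⊆ A
  le_res : ∀ A p, p ≤ res A p
  res_mono : ∀ A p q, p ≤ q → res A p ≤ res A q
  res_le : ∀ A p, dom p ⊆ A → res A p ≤ p
  amalg : ∀ A r q, dom r ⊆ A → r ≤ res A q → ∃ s, s ≤ r ∧ s ≤ q
  cnt : ∀ A : Set X, A.Countable → {p | dom p ⊆ A}.Countable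

section Support

variable {X P : Type} [Preorder P] (σ : Sys X P)

/-- `U` is supported by `A`. -/
def Sup (A : Set X) (U : RO P) : Prop := ∀ p ∈ U.1, σ.res A p ∈ U.1

lemma sup_of {A : Set X} {U : RO P}
    (h : ∀ p ∈ U.1, ∃ q ∈ U.1, σ.dom q ⊆ A ∧ Comp p q) : Sup σ A U := by
  intro p hp
  apply U.2.reg
  by_contra hcon
  push Not at hcon
  obtain ⟨q, hqp, hq⟩ := hcon
  have claim : ∀ t ∈ U.1, σ.dom t ⊆ A → ¬ t ≤ σ.res A q := by
    intro t ht htA hle
    obtain ⟨s, hs1, hs2⟩ := σ.amalg A t q htA hle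
    exact hq s hs2 (U.2.down t ht s hs1)
  have h1 : σ.res A q ≤ σ.res A p :=
    (σ.res_mono A _ _ hqp).trans (σ.res_le A _ (σ.dom_res A p))
  obtain ⟨s, hs1, hs2⟩ := σ.amalg A (σ.res A q) p (σ.dom_res A q) h1
  have hsU := U.2.down p hp s hs2
  obtain ⟨t, ht, htA, v, hv1, hv2⟩ := h s hsU
  have h2 : σ.res A v ≤ t := (σ.res_mono A _ _ hv2).trans (σ.res_le A t htA)
  refine claim (σ.res A v) (U.2.down t ht _ h2) (σ.dom_res A v) ?_
  exact (σ.res_mono A _ _ hv1).trans ((σ.res_mono A _ _ hs1).trans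
    (σ.res_le A _ (σ.dom_res A q)))

lemma sup_mono {A B : Set X} (hAB : A ⊆ B) {U : RO P} (h : Sup σ A U) : Sup σ B U :=
  sup_of σ fun p hp => ⟨σ.res A p, h p hp, (σ.dom_res A p).trans hAB, p, le_rfl, σ.le_res A p⟩

lemma sup_gen {A : Set X} {q : P} (h : σ.dom q ⊆ A) : Sup σ A (gen q) :=
  sup_of σ fun p hp => ⟨q, mem_gen_self q, h, by
    obtain ⟨v, hv, hvq⟩ := hp p le_rfl
    exact ⟨v, hv, hvq⟩⟩

lemma exists_sup (hP : CCC P) (U : RO P) : ∃ A : Set X, A.Countable ∧ Sup σ A U := by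
  obtain ⟨S, hS⟩ := zorn_subset
    {S : Set P | S ⊆ U.1 ∧ S.Pairwise (fun p q => ¬ Comp p q)} (by
    intro c hc hchain
    refine ⟨⋃₀ c, ⟨sUnion_subset fun s hs => (hc hs).1, ?_⟩,
      fun s hs => subset_sUnion_of_mem hs⟩
    exact (Set.pairwise_sUnion hchain.directedOn).2 fun a ha => (hc ha).2)
  have hc : S.Countable := hP S fun p hp q hq hne => hS.prop.2 hp hq hne
  refine ⟨⋃ p ∈ S, σ.dom p, hc.biUnion fun p _ => (σ.fin p).countable, ?_⟩
  apply sup_of
  intro p hp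
  by_contra hcon
  push Not at hcon
  have hp' : ∀ q ∈ S, ¬ Comp p q := fun q hq =>
    hcon q (hS.prop.1 hq) (subset_biUnion_of_mem hq)
  have hpS : p ∉ S := fun h => hp' p h ⟨p, le_rfl, le_rfl⟩
  refine hpS (hS.le_of_ge ⟨?_, ?_⟩ (subset_insert p S) (mem_insert p S))
  · exact insert_subset hp hS.prop.1
  · refine hS.prop.2.insert fun q hq _ => ⟨hp' q hq, fun ⟨r, h1, h2⟩ => hp' q hq ⟨r, h2, h1⟩⟩

end Support

section Main

variable {X P Q : Type} [Preorder P] [Preorder Q] (σ : Sys X P) (τ : Sys X Q)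

/-- `A` is closed with respect to the isomorphism. -/
def Clo (φ : RO P ≃o RO Q) (A : Set X) : Prop :=
  (∀ p, σ.dom p ⊆ A → Sup τ A (φ (gen p))) ∧ (∀ q, τ.dom q ⊆ A → Sup σ A (φ.symm (gen q)))

lemma exists_clo (φ : RO P ≃o RO Q) (hP : CCC P) {A : Set X} (hA : A.Countable) :
    ∃ B, A ⊆ B ∧ B.Countable ∧ Clo σ τ φ B := by
  have hQ := ccc_of_iso φ hP
  choose S hS1 hS2 using fun p => exists_sup τ hQ (φ (gen p))
  choose S' hS1' hS2' using fun q => exists_sup σ hP (φ.symm (gen q))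
  let c : Set X → Set X := fun A => A ∪ ((⋃ p ∈ {p | σ.dom p ⊆ A}, S p) ∪
    ⋃ q ∈ {q | τ.dom q ⊆ A}, S' q)
  have hc : ∀ A, A ⊆ c A := fun A => subset_union_left
  have hcc : ∀ A : Set X, A.Countable → (c A).Countable := fun A hA =>
    hA.union (((σ.cnt A hA).biUnion fun p _ => hS1 p).union
      ((τ.cnt A hA).biUnion fun q _ => hS1' q))
  let B : ℕ → Set X := fun n => c^[n] A
  have hB0 : B 0 = A := rfl
  have hBs : ∀ n, B (n + 1) = c (B n) := fun n => Function.iterate_succ_apply' c n A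
  have hBc : ∀ n, (B n).Countable := by
    intro n
    induction n with
    | zero => exact hA
    | succ n ih => rw [hBs]; exact hcc _ ih
  have hBm : Monotone B := monotone_nat_of_le_succ fun n => by rw [hBs]; exact hc _
  have hfin : ∀ D : Set X, D.Finite → D ⊆ ⋃ n, B n → ∃ n, D ⊆ B n := by
    intro D hD
    induction D, hD using Set.Finite.induction_on with
    | empty => intro _; exact ⟨0, empty_subset _⟩
    | @insert a D _ _ ih =>
      intro h
      obtain ⟨n, hn⟩ := ih ((subset_insert _ _).trans h)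
      obtain ⟨m, hm⟩ := mem_iUnion.1 (h (mem_insert _ _))
      refine ⟨max n m, insert_subset (hBm (le_max_right _ _) hm)
        (hn.trans (hBm (le_max_left _ _)))⟩
  refine ⟨⋃ n, B n, ?_, Set.countable_iUnion hBc, ?_, ?_⟩
  · rw [← hB0]; exact subset_iUnion B 0
  · intro p hp
    obtain ⟨n, hn⟩ := hfin _ (σ.fin p) hp
    refine sup_mono τ ?_ (hS2 p)
    refine Subset.trans ?_ (subset_iUnion B (n + 1))
    rw [hBs]
    exact (subset_biUnion_of_mem (u := fun p => S p) hn).trans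
      (subset_union_left.trans subset_union_right)
  · intro q hq
    obtain ⟨n, hn⟩ := hfin _ (τ.fin q) hq
    refine sup_mono σ ?_ (hS2' q)
    refine Subset.trans ?_ (subset_iUnion B (n + 1))
    rw [hBs]
    exact (subset_biUnion_of_mem (u := fun q => S' q) hn).trans
      (subset_union_right.trans subset_union_right)

lemma sup_map {φ : RO P ≃o RO Q} {A : Set X} (hA : ∀ p, σ.dom p ⊆ A → Sup τ A (φ (gen p)))
    {U : RO P} (hU : Sup σ A U) : Sup τ A (φ U) := by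
  apply sup_of
  intro q hq
  have h1 : ((gen q).1 ∩ (φ U).1).Nonempty := ⟨q, mem_gen_self q, hq⟩
  have h2 := nonempty_inter_map φ.symm h1
  rw [φ.symm_apply_apply] at h2
  obtain ⟨p, hp1, hp2⟩ := h2
  have hp' := hU p hp2
  have h3 := hA (σ.res A p) (σ.dom_res A p)
  have h4 : ((gen (σ.res A p)).1 ∩ (φ.symm (gen q)).1).Nonempty :=
    ⟨p, (gen (σ.res A p)).2.down _ (mem_gen_self _) _ (σ.le_res A p), hp1⟩
  have h5 := nonempty_inter_map φ h4
  rw [φ.apply_symm_apply] at h5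
  obtain ⟨t, ht1, ht2⟩ := h5
  have h6 : φ (gen (σ.res A p)) ≤ φ U := φ.le_iff_le.2 (gen_le hp')
  refine ⟨τ.res A t, h6 (h3 t ht1), τ.dom_res A t, ?_⟩
  obtain ⟨v, hv, hvq⟩ := ht2 t le_rfl
  exact ⟨v, hvq, hv.trans (τ.le_res A t)⟩

/-- The property distinguishing the two forcing notions. -/
def Prop1 (σ : Sys X P) (A B : Set X) : Prop :=
  ∀ U : RO P, U.1.Nonempty → ∃ V W : RO P, Sup σ A V ∧ Sup σ B W ∧ (V.1 ∩ W.1).Nonempty ∧
    ∀ V' W' : RO P, Sup σ A V' → Sup σ B W' → V' ≤ V → W' ≤ W → (V'.1 ∩ W'.1).Nonempty →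
      ((inter V' W').1 ∩ U.1).Nonempty

lemma prop_map {φ : RO P ≃o RO Q} {A B : Set X} (hA : Clo σ τ φ A) (hB : Clo σ τ φ B)
    (h : Prop1 σ A B) : Prop1 τ A B := by
  intro U hU
  obtain ⟨V, W, hV, hW, hVW, hmain⟩ := h (φ.symm U) (nonempty_map φ.symm hU)
  refine ⟨φ V, φ W, sup_map σ τ hA.1 hV, sup_map σ τ hB.1 hW, nonempty_inter_map φ hVW, ?_⟩
  intro V' W' hV' hW' hle hle' hne
  have h1 := hmain (φ.symm V') (φ.symm W') (sup_map τ σ (φ := φ.symm) hA.2 hV')
    (sup_map τ σ (φ := φ.symm) hB.2 hW')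
    (by rw [← φ.le_iff_le, φ.apply_symm_apply]; exact hle)
    (by rw [← φ.le_iff_le, φ.apply_symm_apply]; exact hle')
    (nonempty_inter_map φ.symm hne)
  have h2 := nonempty_inter_map φ h1
  rw [inter_map, φ.apply_symm_apply, φ.apply_symm_apply, φ.apply_symm_apply] at h2
  exact h2

/-- Free pairs. -/
lemma exists_free (hX : ℵ_ 2 ≤ #X) (F : X → Set X) (hF : ∀ x, (F x).Countable) :
    ∃ x y, x ∉ F y ∧ y ∉ F x := by
  have h1 : ℵ_ 1 ≤ #X := (Cardinal.aleph_le_aleph.2 (by norm_num)).trans hX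
  obtain ⟨Z, hZ⟩ := Cardinal.le_mk_iff_exists_set.1 h1
  have h2 : #(⋃ x : Z, F x : Set X) ≤ ℵ_ 1 := by
    calc #(⋃ x : Z, F x : Set X) ≤ Cardinal.sum fun x : Z => #(F x) :=
          Cardinal.mk_iUnion_le_sum_mk
      _ ≤ Cardinal.sum fun _ : Z => ℵ₀ := Cardinal.sum_le_sum _ _ fun x => (hF x).le_aleph0
      _ = #Z * ℵ₀ := by rw [Cardinal.sum_const]; simp
      _ = ℵ_ 1 := by
        rw [hZ]
        exact Cardinal.mul_aleph0_eq (Cardinal.aleph0_le_aleph 1)
  obtain ⟨y, hy⟩ : ∃ y, y ∉ (⋃ x : Z, F x : Set X) := by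
    by_contra hc
    push Not at hc
    have h3 : (⋃ x : Z, F x : Set X) = Set.univ := eq_univ_of_forall hc
    rw [h3, Cardinal.mk_univ] at h2
    have h4 := hX.trans h2
    exact absurd h4 (not_le.2 (Cardinal.aleph_lt_aleph.2 (by norm_num)))
  obtain ⟨x, hx, hxy⟩ : ∃ x ∈ Z, x ∉ F y := by
    by_contra hc
    push Not at hc
    have h3 : Z.Countable := (hF y).mono hc
    have h4 := h3.le_aleph0
    rw [hZ] at h4
    exact absurd h4 (not_le.2 Cardinal.aleph0_lt_aleph_one)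
  refine ⟨x, y, hxy, fun h => hy (mem_iUnion.2 ⟨⟨x, hx⟩, h⟩)⟩

theorem no_iso (hX : ℵ_ 2 ≤ #X) (hP : CCC P) (h1 : ∀ A B, Prop1 σ A B)
    (h2 : ∀ A B : Set X, (A ∩ B).Infinite → ∀ x ∈ A, x ∉ B → ∀ y ∈ B, y ∉ A → ¬ Prop1 τ A B)
    (φ : RO P ≃o RO Q) : False := by
  have hinf : ℵ₀ ≤ #X := (Cardinal.aleph0_le_aleph 2).trans hX
  obtain ⟨Z, hZ⟩ := Cardinal.le_mk_iff_exists_set.1 hinf
  have hZc : Z.Countable := by rw [← Cardinal.le_aleph0_iff_set_countable, hZ]
  have hZi : Z.Infinite := by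
    rw [← Set.infinite_coe_iff, Cardinal.infinite_iff, hZ]
  choose F hF1 hF2 hF3 using fun x : X => exists_clo σ τ φ hP (hZc.insert x)
  obtain ⟨x, y, hxy, hyx⟩ := exists_free hX F hF2
  refine h2 (F x) (F y) (hZi.mono (subset_inter ((subset_insert _ _).trans (hF1 x))
    ((subset_insert _ _).trans (hF1 y)))) x (hF1 x (mem_insert _ _)) hxy y
    (hF1 y (mem_insert _ _)) hyx ?_
  exact prop_map σ τ (hF3 x) (hF3 y) (h1 _ _)

end Main

end Q215.CohenRO
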