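import Mathlib
import Pool.Agent.Q215.CohenRO

/-!
The two concrete forcing notions: finite partial functions into two values, and finite
triangle-free graphs.
-/

open Set Cardinal

namespace Q215.CohenRO

/-! ### Finite partial functions -/

/-- Finite partial functions from `X` to two values: `D` is the domain and `S` the set of the
points with the first value. -/
structure P0 (X : Type) where
  D : Set X
  S : Set X
  fin : D.Finite
  sub : S ⊆ D

instance (X : Type) : Preorder (P0 X) where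
  le p q := q.D ⊆ p.D ∧ ∀ x ∈ q.D, (x ∈ q.S ↔ x ∈ p.S)
  le_refl p := ⟨subset_rfl, fun _ _ => Iff.rfl⟩
  le_trans p q r h1 h2 := ⟨h2.1.trans h1.1, fun x hx =>
    (h2.2 x hx).trans (h1.2 x (h2.1 hx))⟩

section P0

variable {X : Type}

lemma P0.le_def {p q : P0 X} : p ≤ q ↔ q.D ⊆ p.D ∧ ∀ x ∈ q.D, (x ∈ q.S ↔ x ∈ p.S) := Iff.rfl

lemma P0.ext' {p q : P0 X} (h1 : p.D = q.D) (h2 : p.S = q.S) : p = q := by
  cases p; cases q; simp only at h1 h2; subst h1 h2; rfl

/-- conflict -/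
def Conf (p q : P0 X) : Prop := ∃ x, x ∈ p.D ∧ x ∈ q.D ∧ ¬ (x ∈ p.S ↔ x ∈ q.S)

/-- the union -/
def uni (p q : P0 X) : P0 X := ⟨p.D ∪ q.D, p.S ∪ q.S, p.fin.union q.fin,
  union_subset_union p.sub q.sub⟩

lemma comp_of_not_conf {p q : P0 X} (h : ¬ Conf p q) : uni p q ≤ p ∧ uni p q ≤ q := by
  have h' : ∀ x, x ∈ p.D → x ∈ q.D → (x ∈ p.S ↔ x ∈ q.S) := by
    intro x h1 h2
    by_contra hc
    exact h ⟨x, h1, h2, hc⟩
  refine ⟨⟨subset_union_left, fun x hx => ⟨fun h => Or.inl h, ?_⟩⟩,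
    ⟨subset_union_right, fun x hx => ⟨fun h => Or.inr h, ?_⟩⟩⟩
  · rintro (h1 | h1)
    · exact h1
    · exact (h' x hx (q.sub h1)).2 h1
  · rintro (h1 | h1)
    · exact (h' x (p.sub h1) hx).1 h1
    · exact h1

/-- the restriction -/
def P0.res (A : Set X) (p : P0 X) : P0 X := ⟨p.D ∩ A, p.S ∩ A, p.fin.subset inter_subset_left,
  inter_subset_inter_left A p.sub⟩

/-- the system of restrictions -/
def sysP0 (X : Type) : Sys X (P0 X) where
  dom p := p.D
  fin p := p.fin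
  res := P0.res
  dom_res := fun A p => inter_subset_right
  le_res := fun A p => ⟨inter_subset_left, fun x hx => ⟨fun h => h.1, fun h => ⟨h, hx.2⟩⟩⟩
  res_mono := fun A p q h => ⟨inter_subset_inter_left A h.1, fun x hx =>
    ⟨fun h' => ⟨(h.2 x hx.1).1 h'.1, h'.2⟩, fun h' => ⟨(h.2 x hx.1).2 h'.1, h'.2⟩⟩⟩
  res_le := fun A p h => ⟨fun x hx => ⟨hx, h hx⟩, fun x hx =>
    ⟨fun h' => ⟨h', h hx⟩, fun h' => h'.1⟩⟩
  amalg := by
    intro A r q hr hrq
    have : ¬ Conf r q := by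
      rintro ⟨x, h1, h2, h3⟩
      apply h3
      have h4 := hrq.2 x ⟨h2, hr h1⟩
      exact ⟨fun h => (h4.2 h).1, fun h => h4.1 ⟨h, hr h1⟩⟩
    exact ⟨uni r q, (comp_of_not_conf this).1, (comp_of_not_conf this).2⟩
  cnt := by
    intro A hA
    have h1 := Set.countable_ofPred_finite_subset hA
    have h2 : ((fun p : P0 X => (p.D, p.S)) '' {p | p.D ⊆ A}).Countable := by
      refine (h1.prod h1).mono ?_
      rintro - ⟨p, hp, rfl⟩
      exact ⟨⟨p.fin, hp⟩, ⟨p.fin.subset p.sub, p.sub.trans hp⟩⟩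
    refine Set.countable_of_injective_of_countable_image ?_ h2
    intro p _ q _ h
    exact P0.ext' (congrArg Prod.fst h) (congrArg Prod.snd h)

lemma finite_antichain (n : ℕ) : ∀ S : Set (P0 X), (∀ p ∈ S, ∀ q ∈ S, p ≠ q → Conf p q) →
    (∀ p ∈ S, p.D.ncard ≤ n) → S.Finite := by
  classical
  induction n with
  | zero =>
    intro S hS hn
    apply Set.Subsingleton.finite
    intro p hp q hq
    by_contra hne
    obtain ⟨x, hx, -⟩ := hS p hp q hq hne
    have h0 : p.D = ∅ := (Set.ncard_eq_zero p.fin).1 (Nat.le_zero.1 (hn p hp))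
    rw [h0] at hx
    exact hx
  | succ n ih =>
    intro S hS hn
    rcases S.eq_empty_or_nonempty with h | ⟨c0, hc0⟩
    · rw [h]; exact Set.finite_empty
    let er : X → P0 X → P0 X := fun x p => ⟨p.D \ {x}, p.S \ {x}, p.fin.subset sdiff_subset,
      sdiff_subset_sdiff_left p.sub⟩
    let Sx : X → Set (P0 X) := fun x => {c | c ∈ S ∧ x ∈ c.D ∧ ¬ (x ∈ c.S ↔ x ∈ c0.S)}
    have hcov : S ⊆ {c0} ∪ ⋃ x ∈ c0.D, Sx x := by
      intro c hc
      by_cases h : c = c0
      · left; exact h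
      · right
        obtain ⟨x, h1, h2, h3⟩ := hS c hc c0 hc0 h
        exact mem_iUnion₂.2 ⟨x, h2, hc, h1, h3⟩
    refine Set.Finite.subset ((Set.finite_singleton c0).union
      (c0.fin.biUnion fun x _ => ?_)) hcov
    have hinj : Set.InjOn (er x) (Sx x) := by
      rintro p ⟨hp, hpx, hpv⟩ q ⟨hq, hqx, hqv⟩ h
      have h1 : p.D \ {x} = q.D \ {x} := congrArg P0.D h
      have h2 : p.S \ {x} = q.S \ {x} := congrArg P0.S h
      have hD : p.D = q.D := by
        ext y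
        by_cases hy : y = x
        · subst hy; exact ⟨fun _ => hqx, fun _ => hpx⟩
        · have := Set.ext_iff.1 h1 y
          simp only [mem_sdiff, mem_singleton_iff, hy, not_false_eq_true, and_true] at this
          exact this
      have hS' : p.S = q.S := by
        ext y
        by_cases hy : y = x
        · subst hy; tauto
        · have := Set.ext_iff.1 h2 y
          simp only [mem_sdiff, mem_singleton_iff, hy, not_false_eq_true, and_true] at this
          exact this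
      exact P0.ext' hD hS'
    refine Set.Finite.of_finite_image (ih (er x '' Sx x) ?_ ?_) hinj
    · rintro - ⟨p, ⟨hp, hpx, hpv⟩, rfl⟩ - ⟨q, ⟨hq, hqx, hqv⟩, rfl⟩ hne
      have hpq : p ≠ q := fun h => hne (by rw [h])
      obtain ⟨y, h1, h2, h3⟩ := hS p hp q hq hpq
      have hyx : y ≠ x := by
        rintro rfl
        tauto
      refine ⟨y, ⟨h1, hyx⟩, ⟨h2, hyx⟩, ?_⟩
      intro h4
      apply h3
      have h5 : y ∈ p.S \ {x} ↔ y ∈ q.S \ {x} := h4
      simp only [mem_sdiff, mem_singleton_iff, hyx, not_false_eq_true, and_true] at h5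
      exact h5
    · rintro - ⟨p, ⟨hp, hpx, -⟩, rfl⟩
      show (p.D \ {x}).ncard ≤ n
      have h1 := Set.ncard_sdiff_singleton_add_one hpx p.fin
      have h2 := hn p hp
      omega

lemma ccc_P0 : CCC (P0 X) := by
  intro S hS
  have h1 : ∀ p ∈ S, ∀ q ∈ S, p ≠ q → Conf p q := by
    intro p hp q hq hne
    by_contra hc
    exact hS p hp q hq hne ⟨uni p q, (comp_of_not_conf hc).1, (comp_of_not_conf hc).2⟩
  have hcov : S ⊆ ⋃ n : ℕ, {p | p ∈ S ∧ p.D.ncard ≤ n} := fun p hp =>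
    mem_iUnion.2 ⟨p.D.ncard, hp, le_rfl⟩
  refine (Set.countable_iUnion fun n => ?_).mono hcov
  exact (finite_antichain n _ (fun p hp q hq => h1 p hp.1 q hq.1) fun p hp => hp.2).countable

lemma sep_P0 {s q : P0 X} (h : s ∈ (gen q).1) : s ≤ q := by
  classical
  have hD : q.D ⊆ s.D := by
    intro x hx
    by_contra hxs
    -- extend s by the wrong value at x
    by_cases hv : x ∈ q.S
    · obtain ⟨v, hv1, hv2⟩ := h ⟨insert x s.D, s.S, s.fin.insert x,
        s.sub.trans (subset_insert _ _)⟩ ⟨subset_insert _ _, fun y _ => Iff.rfl⟩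
      have h1 : x ∈ s.S ↔ x ∈ v.S := hv1.2 x (mem_insert _ _)
      have h2 := hv2.2 x hx
      exact hxs (s.sub (h1.2 (h2.1 hv)))
    · obtain ⟨v, hv1, hv2⟩ := h ⟨insert x s.D, insert x s.S, s.fin.insert x,
        insert_subset_insert s.sub⟩ ⟨subset_insert _ _, fun y hy =>
          ⟨fun h => mem_insert_of_mem _ h, fun h => by
            rcases h with h | h
            · rw [h] at hy; exact absurd hy hxs
            · exact h⟩⟩
      have h1 : x ∈ insert x s.S ↔ x ∈ v.S := hv1.2 x (mem_insert _ _)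
      have h2 := hv2.2 x hx
      exact hv (h2.2 (h1.1 (mem_insert _ _)))
  refine ⟨hD, fun x hx => ?_⟩
  obtain ⟨v, hv1, hv2⟩ := h s le_rfl
  exact (hv2.2 x hx).trans (hv1.2 x (hD hx)).symm

lemma prop_P0 (A B : Set X) : Prop1 (sysP0 X) A B := by
  rintro U ⟨r, hr⟩
  refine ⟨gen (P0.res A r), gen (P0.res B r), sup_gen _ inter_subset_right,
    sup_gen _ inter_subset_right, ⟨r, ?_, ?_⟩, ?_⟩
  · exact (gen _).2.down _ (mem_gen_self _) _ ((sysP0 X).le_res A r)
  · exact (gen _).2.down _ (mem_gen_self _) _ ((sysP0 X).le_res B r)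
  · rintro V' W' hV' hW' hle hle' ⟨s, hs1, hs2⟩
    have h1 : s ≤ P0.res A r := sep_P0 (hle hs1)
    have h2 : s ≤ P0.res B r := sep_P0 (hle' hs2)
    let t : P0 X := P0.res (A ∪ B) s
    have ht1 : t ≤ P0.res A s := ⟨inter_subset_inter_right _ subset_union_left, fun x hx =>
      ⟨fun h => ⟨h.1, Or.inl h.2⟩, fun h => ⟨h.1, hx.2⟩⟩⟩
    have ht2 : t ≤ P0.res B s := ⟨inter_subset_inter_right _ subset_union_right, fun x hx =>
      ⟨fun h => ⟨h.1, Or.inr h.2⟩, fun h => ⟨h.1, hx.2⟩⟩⟩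
    have ht3 : t ∈ V'.1 := V'.2.down _ (hV' s hs1) _ ht1
    have ht4 : t ∈ W'.1 := W'.2.down _ (hW' s hs2) _ ht2
    have hnc : ¬ Conf t r := by
      rintro ⟨x, hx1, hx2, hx3⟩
      apply hx3
      have key : x ∈ r.S ↔ x ∈ s.S := by
        rcases hx1.2 with hA | hB
        · have := h1.2 x ⟨hx2, hA⟩
          exact ⟨fun h => this.1 ⟨h, hA⟩, fun h => (this.2 h).1⟩
        · have := h2.2 x ⟨hx2, hB⟩
          exact ⟨fun h => this.1 ⟨h, hB⟩, fun h => (this.2 h).1⟩
      exact ⟨fun h => key.2 h.1, fun h => ⟨key.1 h, hx1.2⟩⟩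
    obtain ⟨g1, g2⟩ := comp_of_not_conf hnc
    exact ⟨uni t r, ⟨V'.2.down _ ht3 _ g1, W'.2.down _ ht4 _ g1⟩, U.2.down _ hr _ g2⟩

end P0

/-! ### Finite triangle-free graphs -/

/-- Finite triangle-free graphs on subsets of `X`. -/
structure Q0 (X : Type) where
  D : Set X
  E : X → X → Prop
  fin : D.Finite
  sub : ∀ x y, E x y → x ∈ D ∧ y ∈ D
  symm : ∀ x y, E x y → E y x
  irr : ∀ x, ¬ E x x
  tf : ∀ x y z, E x y → E y z → ¬ E x z

instance (X : Type) : Preorder (Q0 X) where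
  le p q := q.D ⊆ p.D ∧ ∀ x ∈ q.D, ∀ y ∈ q.D, (q.E x y ↔ p.E x y)
  le_refl p := ⟨subset_rfl, fun _ _ _ _ => Iff.rfl⟩
  le_trans p q r h1 h2 := ⟨h2.1.trans h1.1, fun x hx y hy =>
    (h2.2 x hx y hy).trans (h1.2 x (h2.1 hx) y (h2.1 hy))⟩

section Q0

variable {X : Type}

lemma Q0.ext' {p q : Q0 X} (h1 : p.D = q.D) (h2 : p.E = q.E) : p = q := by
  cases p; cases q; simp only at h1 h2; subst h1 h2; rfl

/-- the restriction -/
def Q0.res (A : Set X) (p : Q0 X) : Q0 X where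
  D := p.D ∩ A
  E x y := p.E x y ∧ x ∈ A ∧ y ∈ A
  fin := p.fin.subset inter_subset_left
  sub := fun x y h => ⟨⟨(p.sub x y h.1).1, h.2.1⟩, ⟨(p.sub x y h.1).2, h.2.2⟩⟩
  symm := fun x y h => ⟨p.symm x y h.1, h.2.2, h.2.1⟩
  irr := fun x h => p.irr x h.1
  tf := fun x y z h1 h2 h3 => p.tf x y z h1.1 h2.1 h3.1

/-- the system of restrictions -/
def sysQ0 (X : Type) : Sys X (Q0 X) where
  dom p := p.D
  fin p := p.fin
  res := Q0.res
  dom_res := fun A p => inter_subset_right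
  le_res := fun A p => ⟨inter_subset_left, fun x hx y hy =>
    ⟨fun h => h.1, fun h => ⟨h, hx.2, hy.2⟩⟩⟩
  res_mono := fun A p q h => ⟨inter_subset_inter_left A h.1, fun x hx y hy =>
    ⟨fun h' => ⟨(h.2 x hx.1 y hy.1).1 h'.1, h'.2⟩,
      fun h' => ⟨(h.2 x hx.1 y hy.1).2 h'.1, h'.2⟩⟩⟩
  res_le := fun A p h => ⟨fun x hx => ⟨hx, h hx⟩, fun x hx y hy =>
    ⟨fun h' => ⟨h', h hx, h hy⟩, fun h' => h'.1⟩⟩
  amalg := by
    intro A r q hr hrq
    have c1 : ∀ x y, r.E x y → x ∈ q.D → y ∈ q.D → q.E x y := by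
      intro x y h hx hy
      have h1 := r.sub x y h
      exact ((hrq.2 x ⟨hx, hr h1.1⟩ y ⟨hy, hr h1.2⟩).2 h).1
    have c2 : ∀ x y, q.E x y → x ∈ r.D → y ∈ r.D → r.E x y := by
      intro x y h hx hy
      have h1 := q.sub x y h
      exact (hrq.2 x ⟨h1.1, hr hx⟩ y ⟨h1.2, hr hy⟩).1 ⟨h, hr hx, hr hy⟩
    refine ⟨⟨r.D ∪ q.D, fun x y => r.E x y ∨ q.E x y, r.fin.union q.fin, ?_, ?_, ?_, ?_⟩,
      ⟨subset_union_left, ?_⟩, ⟨subset_union_right, ?_⟩⟩
    · rintro x y (h | h)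
      · exact ⟨Or.inl (r.sub x y h).1, Or.inl (r.sub x y h).2⟩
      · exact ⟨Or.inr (q.sub x y h).1, Or.inr (q.sub x y h).2⟩
    · rintro x y (h | h)
      · exact Or.inl (r.symm x y h)
      · exact Or.inr (q.symm x y h)
    · rintro x (h | h)
      · exact r.irr x h
      · exact q.irr x h
    · rintro x y z (h1 | h1) (h2 | h2) (h3 | h3)
      · exact r.tf x y z h1 h2 h3
      · exact r.tf x y z h1 h2 (c2 x z h3 (r.sub x y h1).1 (r.sub y z h2).2)
      · exact r.tf x y z h1 (c2 y z h2 (r.sub x y h1).2 (r.sub x z h3).2) h3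
      · exact q.tf x y z (c1 x y h1 (q.sub x z h3).1 (q.sub y z h2).1) h2 h3
      · exact r.tf x y z (c2 x y h1 (r.sub x z h3).1 (r.sub y z h2).1) h2 h3
      · exact q.tf x y z h1 (c1 y z h2 (q.sub x y h1).2 (q.sub x z h3).2) h3
      · exact q.tf x y z h1 h2 (c1 x z h3 (q.sub x y h1).1 (q.sub y z h2).2)
      · exact q.tf x y z h1 h2 h3
    · intro x hx y hy
      exact ⟨fun h => Or.inl h, fun h => h.elim id fun h => c2 x y h hx hy⟩
    · intro x hx y hy
      exact ⟨fun h => Or.inr h, fun h => h.elim (fun h => c1 x y h hx hy) id⟩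
  cnt := by
    intro A hA
    have h1 := Set.countable_ofPred_finite_subset hA
    have h1' := Set.countable_ofPred_finite_subset (hA.prod hA)
    have h2 : ((fun p : Q0 X => (p.D, {z : X × X | p.E z.1 z.2})) '' {p | p.D ⊆ A}).Countable := by
      refine (h1.prod h1').mono ?_
      rintro - ⟨p, hp, rfl⟩
      have hsub : {z : X × X | p.E z.1 z.2} ⊆ p.D ×ˢ p.D := fun z hz => p.sub _ _ hz
      exact ⟨⟨p.fin, hp⟩, ⟨(p.fin.prod p.fin).subset hsub,
        hsub.trans (Set.prod_mono hp hp)⟩⟩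
    refine Set.countable_of_injective_of_countable_image ?_ h2
    intro p _ q _ h
    refine Q0.ext' (congrArg Prod.fst h) ?_
    funext x y
    have h3 := Set.ext_iff.1 (congrArg Prod.snd h) (x, y)
    exact propext h3

lemma not_prop_Q0 (A B : Set X) (hinf : (A ∩ B).Infinite) (x : X) (hxA : x ∈ A) (hxB : x ∉ B)
    (y : X) (hyB : y ∈ B) (hyA : y ∉ A) : ¬ Prop1 (sysQ0 X) A B := by
  classical
  intro h
  have hxy : x ≠ y := by rintro rfl; exact hyA hxA
  -- the condition with the edge x y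
  let r0 : Q0 X := ⟨{x, y}, fun a b => (a = x ∧ b = y) ∨ (a = y ∧ b = x),
    (Set.finite_singleton y).insert x, by
      rintro a b (⟨rfl, rfl⟩ | ⟨rfl, rfl⟩)
      · exact ⟨Or.inl rfl, Or.inr rfl⟩
      · exact ⟨Or.inr rfl, Or.inl rfl⟩, by
      rintro a b (⟨rfl, rfl⟩ | ⟨rfl, rfl⟩)
      · exact Or.inr ⟨rfl, rfl⟩
      · exact Or.inl ⟨rfl, rfl⟩, by
      rintro a (⟨h1, h2⟩ | ⟨h1, h2⟩)
      · exact hxy (h1.symm.trans h2)
      · exact hxy (h2.symm.trans h1), by
      rintro a b c (⟨rfl, rfl⟩ | ⟨rfl, rfl⟩) (⟨h1, rfl⟩ | ⟨h1, rfl⟩) (⟨h2, h3⟩ | ⟨h2, h3⟩) <;>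
        first
          | exact hxy h1
          | exact hxy h1.symm
          | exact hxy h2
          | exact hxy h2.symm
          | exact hxy h3
          | exact hxy h3.symm⟩
  obtain ⟨V, W, hV, hW, ⟨s, hsV, hsW⟩, hmain⟩ := h (gen r0) ⟨r0, mem_gen_self r0⟩
  -- remove the edge x y from s
  let s' : Q0 X := ⟨s.D, fun a b => s.E a b ∧ ¬ (a = x ∧ b = y) ∧ ¬ (a = y ∧ b = x), s.fin,
    fun a b h => s.sub a b h.1, fun a b h => ⟨s.symm a b h.1, fun h' => h.2.2 ⟨h'.2, h'.1⟩,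
      fun h' => h.2.1 ⟨h'.2, h'.1⟩⟩, fun a h => s.irr a h.1,
    fun a b c h1 h2 h3 => s.tf a b c h1.1 h2.1 h3.1⟩
  have hs'A : s' ≤ Q0.res A s := by
    refine ⟨inter_subset_left, ?_⟩
    intro a ha b hb
    constructor
    · intro h
      refine ⟨h.1, ?_, ?_⟩
      · rintro ⟨-, rfl⟩; exact hyA hb.2
      · rintro ⟨rfl, -⟩; exact hyA ha.2
    · intro h
      exact ⟨h.1, ha.2, hb.2⟩
  have hs'B : s' ≤ Q0.res B s := by
    refine ⟨inter_subset_left, ?_⟩
    intro a ha b hb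
    constructor
    · intro h
      refine ⟨h.1, ?_, ?_⟩
      · rintro ⟨rfl, -⟩; exact hxB ha.2
      · rintro ⟨-, rfl⟩; exact hxB hb.2
    · intro h
      exact ⟨h.1, ha.2, hb.2⟩
  have hs'V : s' ∈ V.1 := V.2.down _ (hV s hsV) _ hs'A
  have hs'W : s' ∈ W.1 := W.2.down _ (hW s hsW) _ hs'B
  obtain ⟨z, ⟨hzA, hzB⟩, hzs⟩ := (hinf.sdiff s.fin).nonempty
  have hzx : z ≠ x := by rintro rfl; exact hxB hzB
  have hzy : z ≠ y := by rintro rfl; exact hyA hzA
  -- add z with edges to x and y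
  let N : X → X → Prop := fun a b =>
    (a = z ∧ (b = x ∨ b = y)) ∨ (b = z ∧ (a = x ∨ a = y))
  have hnoz : ∀ a, ¬ s'.E a z := fun a h => hzs (s'.sub a z h).2
  have hnoz' : ∀ a, ¬ s'.E z a := fun a h => hzs (s'.sub z a h).1
  have hnxy : ¬ s'.E x y := fun h => h.2.1 ⟨rfl, rfl⟩
  have hnyx : ¬ s'.E y x := fun h => h.2.2 ⟨rfl, rfl⟩
  let u : Q0 X := ⟨s'.D ∪ {x, y, z}, fun a b => s'.E a b ∨ N a b,
    s'.fin.union (((Set.finite_singleton z).insert y).insert x), by
      rintro a b (h | ⟨rfl, rfl | rfl⟩ | ⟨rfl, rfl | rfl⟩)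
      · exact ⟨Or.inl (s'.sub a b h).1, Or.inl (s'.sub a b h).2⟩
      all_goals exact ⟨Or.inr (by simp), Or.inr (by simp)⟩, by
      rintro a b (h | h | h)
      · exact Or.inl (s'.symm a b h)
      · exact Or.inr (Or.inr h)
      · exact Or.inr (Or.inl h), by
      rintro a (h | ⟨rfl, h | h⟩ | ⟨rfl, h | h⟩)
      · exact s'.irr a h
      · exact hzx h
      · exact hzy h
      · exact hzx h
      · exact hzy h, by
      -- triangle-free
      intro a b c h1 h2 h3
      have key : ∀ a b c : X, (s'.E a b ∨ N a b) → (s'.E b c ∨ N b c) → (s'.E a c ∨ N a c) →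
          a ≠ z := by
        rintro a b c h1 h2 h3 rfl
        have e1 : b = x ∨ b = y := by
          rcases h1 with h | ⟨-, h⟩ | ⟨h, h'⟩
          · exact absurd h (hnoz' b)
          · exact h
          · rcases h' with h' | h'
            · exact absurd h' hzx
            · exact absurd h' hzy
        have e2 : c = x ∨ c = y := by
          rcases h3 with h | ⟨-, h⟩ | ⟨h, h'⟩
          · exact absurd h (hnoz' c)
          · exact h
          · rcases h' with h' | h'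
            · exact absurd h' hzx
            · exact absurd h' hzy
        have hb : b ≠ a := by
          rcases e1 with rfl | rfl
          · exact hzx.symm
          · exact hzy.symm
        have hc : c ≠ a := by
          rcases e2 with rfl | rfl
          · exact hzx.symm
          · exact hzy.symm
        have h2' : s'.E b c := by
          rcases h2 with h | ⟨h, -⟩ | ⟨h, -⟩
          · exact h
          · exact absurd h hb
          · exact absurd h hc
        rcases e1 with rfl | rfl <;> rcases e2 with rfl | rfl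
        · exact s'.irr _ h2'
        · exact hnxy h2'
        · exact hnyx h2'
        · exact s'.irr _ h2'
      have sy : ∀ a b : X, (s'.E a b ∨ N a b) → (s'.E b a ∨ N b a) := by
        rintro a b (h | h | h)
        · exact Or.inl (s'.symm a b h)
        · exact Or.inr (Or.inr h)
        · exact Or.inr (Or.inl h)
      have ha : a ≠ z := key a b c h1 h2 h3
      have hb : b ≠ z := key b a c (sy _ _ h1) h3 h2
      have hc : c ≠ z := key c a b (sy _ _ h3) h1 (sy _ _ h2)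
      have f1 : s'.E a b := by
        rcases h1 with h | ⟨h, -⟩ | ⟨h, -⟩
        · exact h
        · exact absurd h ha
        · exact absurd h hb
      have f2 : s'.E b c := by
        rcases h2 with h | ⟨h, -⟩ | ⟨h, -⟩
        · exact h
        · exact absurd h hb
        · exact absurd h hc
      have f3 : s'.E a c := by
        rcases h3 with h | ⟨h, -⟩ | ⟨h, -⟩
        · exact h
        · exact absurd h ha
        · exact absurd h hc
      exact s'.tf a b c f1 f2 f3⟩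
  have hus : u ≤ s' := by
    refine ⟨subset_union_left, ?_⟩
    intro a ha b hb
    refine ⟨fun h => Or.inl h, ?_⟩
    rintro (h | ⟨rfl, -⟩ | ⟨rfl, -⟩)
    · exact h
    · exact absurd ha hzs
    · exact absurd hb hzs
  have huV : Q0.res A u ∈ V.1 := hV u (V.2.down _ hs'V _ hus)
  have huW : Q0.res B u ∈ W.1 := hW u (W.2.down _ hs'W _ hus)
  obtain ⟨t, ⟨ht1, ht2⟩, ht3⟩ := hmain (gen (Q0.res A u)) (gen (Q0.res B u))
    (sup_gen _ inter_subset_right) (sup_gen _ inter_subset_right) (gen_le huV) (gen_le huW)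
    ⟨u, (gen _).2.down _ (mem_gen_self _) _ ((sysQ0 X).le_res A u),
      (gen _).2.down _ (mem_gen_self _) _ ((sysQ0 X).le_res B u)⟩
  obtain ⟨t1, g1, g1'⟩ := ht1 t le_rfl
  obtain ⟨t2, g2, g2'⟩ := ht2 t1 g1
  obtain ⟨t3, g3, g3'⟩ := ht3 t2 (g2.trans g1)
  have l1 : t3 ≤ Q0.res A u := g3.trans (g2.trans g1')
  have l2 : t3 ≤ Q0.res B u := g3.trans g2'
  have hxu : x ∈ u.D := Or.inr (by simp)
  have hyu : y ∈ u.D := Or.inr (by simp)
  have hzu : z ∈ u.D := Or.inr (by simp)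
  have m1 : t3.E z x := (l1.2 z ⟨hzu, hzA⟩ x ⟨hxu, hxA⟩).1
    ⟨Or.inr (Or.inl ⟨rfl, Or.inl rfl⟩), hzA, hxA⟩
  have m2 : t3.E z y := (l2.2 z ⟨hzu, hzB⟩ y ⟨hyu, hyB⟩).1
    ⟨Or.inr (Or.inl ⟨rfl, Or.inr rfl⟩), hzB, hyB⟩
  have m3 : t3.E x y := (g3'.2 x (Or.inl rfl) y (Or.inr rfl)).1 (Or.inl ⟨rfl, rfl⟩)
  exact t3.tf z x y m1 m3 m2

/-- the two forcing notions have nonisomorphic completions. -/
theorem no_iso_concrete (hX : ℵ_ 2 ≤ #X) (φ : RO (P0 X) ≃o RO (Q0 X)) : False :=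
  no_iso (sysP0 X) (sysQ0 X) hX ccc_P0 prop_P0 not_prop_Q0 φ

end Q0

end Q215.CohenRO
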