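import Pool.Agent.Q215.CsDefs

/-!
# Basic facts on the Carlson-Simpson space: minima, and Polishness
-/

open Set Topology

namespace Q215.CSp

open Classical in
/-- least element of the class of `m` -/
noncomputable def mn (S : Setoid ℕ) (m : ℕ) : ℕ := Nat.find (⟨m, S.refl m⟩ : ∃ k, S k m)

theorem mn_rel (S : Setoid ℕ) (m : ℕ) : S (mn S m) m := by
  classical
  exact Nat.find_spec (⟨m, S.refl m⟩ : ∃ k, S k m)

theorem mn_le_of (S : Setoid ℕ) {k m : ℕ} (h : S k m) : mn S m ≤ k := by
  classical
  exact Nat.find_min' _ h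

theorem mn_le (S : Setoid ℕ) (m : ℕ) : mn S m ≤ m := mn_le_of S (S.refl m)

theorem mn_eq (S : Setoid ℕ) {i j : ℕ} (h : S i j) : mn S i = mn S j := by
  apply le_antisymm
  · exact mn_le_of S (S.trans (mn_rel S j) (S.symm h))
  · exact mn_le_of S (S.trans (mn_rel S i) h)

theorem rel_of_mn_eq (S : Setoid ℕ) {i j : ℕ} (h : mn S i = mn S j) : S i j := by
  have h1 := mn_rel S i
  rw [h] at h1
  exact S.trans (S.symm h1) (mn_rel S j)

theorem mn_mn (S : Setoid ℕ) (m : ℕ) : mn S (mn S m) = mn S m := mn_eq S (mn_rel S m)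

/-- minima of a setoid -/
def IsMinS (S : Setoid ℕ) (m : ℕ) : Prop := ∀ k < m, ¬ S k m

theorem isMinS_iff (S : Setoid ℕ) (m : ℕ) : IsMinS S m ↔ mn S m = m := by
  constructor
  · intro h
    by_contra hne
    exact h _ (lt_of_le_of_ne (mn_le S m) hne) (mn_rel S m)
  · intro h k hk hkm
    have := mn_le_of S hkm
    omega

theorem isMin_iff (A : CS) (m : ℕ) : IsMin A m ↔ mn A.1 m = m := isMinS_iff A.1 m

theorem isMin_mn (S : Setoid ℕ) (m : ℕ) : IsMinS S (mn S m) := (isMinS_iff S _).2 (mn_mn S m)

theorem good_of_infinite (S : Setoid ℕ) (h : Infinite (Quotient S)) :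
    ∀ n, ∃ m, n ≤ m ∧ IsMinS S m := by
  intro n
  by_contra hcon
  push Not at hcon
  have hlt : ∀ m, mn S m < n := by
    intro m
    by_contra hge
    push Not at hge
    exact hcon _ hge (isMin_mn S m)
  -- the quotient injects into Fin n
  let f : Quotient S → Fin n := Quotient.lift (fun m => (⟨mn S m, hlt m⟩ : Fin n))
    (fun a b hab => by
      have := mn_eq S hab
      simp only [this])
  have hf : Function.Injective f := by
    intro a b
    induction a using Quotient.inductionOn with
    | _ a =>
      induction b using Quotient.inductionOn with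
      | _ b =>
        intro hab
        apply Quotient.sound
        have h1 : mn S a = mn S b := by
          have := congrArg Fin.val hab
          simpa [f] using this
        exact rel_of_mn_eq S h1
  have := Finite.of_injective f hf
  exact not_finite (Quotient S)

theorem infinite_of_good (S : Setoid ℕ) (h : ∀ n, ∃ m, n ≤ m ∧ IsMinS S m) :
    Infinite (Quotient S) := by
  by_contra hfin
  rw [not_infinite_iff_finite] at hfin
  have hinf : Set.Infinite {m | IsMinS S m} := by
    intro hf
    obtain ⟨b, hb⟩ := hf.bddAbove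
    obtain ⟨m, hm, hm'⟩ := h (b + 1)
    have := hb hm'
    omega
  have hinj : Set.InjOn (fun m : ℕ => (Quotient.mk S m)) {m | IsMinS S m} := by
    intro a ha b hb hab
    have h1 : S a b := Quotient.exact hab
    have h2 := mn_eq S h1
    rw [(isMinS_iff S a).1 ha, (isMinS_iff S b).1 hb] at h2
    exact h2
  exact (Set.infinite_of_injOn_mapsTo hinj (Set.mapsTo_univ _ _) hinf) Set.finite_univ

theorem good (A : CS) : ∀ n, ∃ m, n ≤ m ∧ IsMin A m := good_of_infinite A.1 A.2

theorem setOf_infinite (A : CS) : (Set.ofPred (IsMin A)).Infinite := by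
  intro hf
  obtain ⟨b, hb⟩ := hf.bddAbove
  obtain ⟨m, hm, hm'⟩ := good A (b + 1)
  have := hb hm'
  omega

theorem isMin_mu (A : CS) (n : ℕ) : IsMin A (mu A n) := Nat.nth_mem_of_infinite (setOf_infinite A) n

theorem mu_strictMono (A : CS) : StrictMono (mu A) := Nat.nth_strictMono (setOf_infinite A)

theorem exists_mu (A : CS) {m : ℕ} (h : IsMin A m) : ∃ n, mu A n = m := by
  classical
  exact ⟨Nat.count (IsMin A) m, Nat.nth_count h⟩

theorem box_mem_iff (s : FinRel) (B A : CS) : A ∈ box s B ↔
    Below A B ∧ IsMin A s.len ∧ ∀ i j : Fin s.len, s.rel i j ↔ A.1 i j := by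
  constructor
  · rintro ⟨h1, n, h2, h3⟩
    refine ⟨h1, ?_, h3⟩
    rw [h2]
    exact isMin_mu A n
  · rintro ⟨h1, h2, h3⟩
    obtain ⟨n, hn⟩ := exists_mu A h2
    exact ⟨h1, n, hn.symm, h3⟩

theorem Below.refl (A : CS) : Below A A := fun _ _ h => h

theorem Below.trans {A B C : CS} (h : Below A B) (h' : Below B C) : Below A C :=
  fun i j hij => h i j (h' i j hij)

theorem Below.isMin {A B : CS} (h : Below A B) {m : ℕ} (hm : IsMin A m) : IsMin B m :=
  fun k hk hB => hm k hk (h _ _ hB)

/-! ## Polishness -/

/-- index of the class of `m` -/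
noncomputable def idx (A : CS) (m : ℕ) : ℕ := (exists_mu A (m := mn A.1 m) (isMin_mn A.1 m)).choose

theorem mu_idx (A : CS) (m : ℕ) : mu A (idx A m) = mn A.1 m :=
  (exists_mu A (m := mn A.1 m) (isMin_mn A.1 m)).choose_spec

theorem idx_eq_iff (A : CS) (m n : ℕ) : idx A m = n ↔ A.1 m (mu A n) := by
  constructor
  · intro h
    rw [← h, mu_idx]
    exact A.1.symm (mn_rel A.1 m)
  · intro h
    apply (mu_strictMono A).injective
    rw [mu_idx, mn_eq A.1 h]
    exact (isMin_iff A _).1 (isMin_mu A n)

theorem idx_eq_idx_iff (A : CS) (i j : ℕ) : idx A i = idx A j ↔ A.1 i j := by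
  rw [idx_eq_iff, mu_idx]
  constructor
  · intro h
    exact A.1.trans h (mn_rel A.1 j)
  · intro h
    exact A.1.trans h (A.1.symm (mn_rel A.1 j))

theorem code_eq (A : CS) (n m : ℕ) : code A n m = decide (idx A m = n) := by
  unfold code
  congr 1
  exact propext (idx_eq_iff A m n).symm

theorem code_true_iff (A : CS) (n m : ℕ) : code A n m = true ↔ idx A m = n := by
  rw [code_eq]; simp

/-- the pair of the enumeration of the minima and the index function -/
noncomputable def Phi (A : CS) : (ℕ → ℕ) × (ℕ → ℕ) := (mu A, idx A)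

theorem continuous_code : Continuous code := continuous_induced_dom

theorem continuous_code_apply (n m : ℕ) : Continuous (fun A => code A n m) := by
  have h := continuous_code
  exact (continuous_apply m).comp ((continuous_apply n).comp h)

theorem isOpen_idx_eq (m n : ℕ) : IsOpen {A : CS | idx A m = n} := by
  have : {A : CS | idx A m = n} = (fun A => code A n m) ⁻¹' {true} := by
    ext A
    simp [code_true_iff]
  rw [this]
  exact (isOpen_discrete _).preimage (continuous_code_apply n m)

theorem continuous_idx (m : ℕ) : Continuous (fun A : CS => idx A m) := by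
  rw [continuous_discrete_rng]
  intro n
  exact isOpen_idx_eq m n

theorem mu_eq_iff (A : CS) (n m : ℕ) : mu A n = m ↔ idx A m = n ∧ ∀ k < m, idx A k ≠ n := by
  constructor
  · rintro rfl
    refine ⟨(idx_eq_iff A _ _).2 (A.1.refl _), ?_⟩
    intro k hk h
    exact isMin_mu A n k hk ((idx_eq_iff A _ _).1 h)
  · rintro ⟨h1, h2⟩
    have h3 : mu A n = mn A.1 m := by rw [← h1, mu_idx]
    rw [h3]
    by_contra hne
    have hlt := lt_of_le_of_ne (mn_le A.1 m) hne
    apply h2 _ hlt
    rw [← h1]
    exact (idx_eq_idx_iff A _ _).2 (mn_rel A.1 m)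

theorem continuous_mu (n : ℕ) : Continuous (fun A : CS => mu A n) := by
  rw [continuous_discrete_rng]
  intro m
  have : ((fun A : CS => mu A n) ⁻¹' {m}) =
      {A : CS | idx A m = n} ∩ ⋂ k ∈ Set.Iio m, {A : CS | idx A k ≠ n} := by
    ext A
    simp [mu_eq_iff]
  rw [this]
  refine (isOpen_idx_eq m n).inter ((Set.finite_Iio m).isOpen_biInter ?_)
  intro k _
  exact (isOpen_discrete {n}ᶜ).preimage (continuous_idx k)

theorem continuous_Phi : Continuous Phi :=
  Continuous.prodMk (continuous_pi continuous_mu) (continuous_pi continuous_idx)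

theorem Phi_injective : Function.Injective Phi := by
  intro A B h
  have h2 : idx A = idx B := congrArg Prod.snd h
  apply Subtype.ext
  apply Setoid.ext
  intro i j
  rw [← idx_eq_idx_iff A, ← idx_eq_idx_iff B, h2]

theorem isInducing_Phi : IsInducing Phi := by
  constructor
  apply le_antisymm
  · exact continuous_iff_le_induced.1 continuous_Phi
  · -- code factors through Phi
    let Psi : (ℕ → ℕ) × (ℕ → ℕ) → ℕ → ℕ → Bool := fun p n m => decide (p.2 m = n)
    have hPsi : Continuous Psi := by
      apply continuous_pi; intro n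
      apply continuous_pi; intro m
      have h1 : Continuous (fun k : ℕ => decide (k = n)) := continuous_of_discreteTopology
      exact h1.comp ((continuous_apply m).comp continuous_snd)
    have hcomp : code = Psi ∘ Phi := by
      funext A n m
      simp only [Psi, Phi, Function.comp, code_eq]
    change TopologicalSpace.induced Phi _ ≤ TopologicalSpace.induced code _
    rw [hcomp, ← induced_compose]
    exact induced_mono (continuous_iff_le_induced.1 hPsi)

theorem isClosed_range_Phi : IsClosed (range Phi) := by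
  have hset : range Phi = {p : (ℕ → ℕ) × (ℕ → ℕ) | (∀ n, p.1 n < p.1 (n + 1)) ∧
      (∀ n, p.2 (p.1 n) = n) ∧ ∀ m, p.1 (p.2 m) ≤ m} := by
    ext p
    constructor
    · rintro ⟨A, rfl⟩
      refine ⟨fun n => mu_strictMono A (Nat.lt_succ_self n), fun n => ?_, fun m => ?_⟩
      · exact (idx_eq_iff A _ _).2 (A.1.refl _)
      · change mu A (idx A m) ≤ m
        rw [mu_idx]
        exact mn_le A.1 m
    · rintro ⟨h1, h2, h3⟩
      obtain ⟨μ, ι⟩ := p
      simp only at h1 h2 h3
      have hmono : StrictMono μ := strictMono_nat_of_lt_succ h1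
      have hmin : ∀ m, IsMinS (Setoid.ker ι) m ↔ μ (ι m) = m := by
        intro m
        constructor
        · intro h
          by_contra hne
          exact h _ (lt_of_le_of_ne (h3 m) hne) (by rw [Setoid.ker_def]; exact h2 _)
        · intro h k hk hker
          rw [Setoid.ker_def] at hker
          have := h3 k
          rw [hker, h] at this
          omega
      have hinf : Infinite (Quotient (Setoid.ker ι)) := by
        apply infinite_of_good
        intro n
        refine ⟨μ n, hmono.id_le n, (hmin _).2 ?_⟩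
        rw [h2]
      let A : CS := ⟨Setoid.ker ι, hinf⟩
      have hA : ∀ m, IsMin A m ↔ μ (ι m) = m := hmin
      have hmu : ∀ n, mu A n = μ n := by
        have hr : range (mu A) = range μ := by
          ext m
          constructor
          · rintro ⟨n, rfl⟩
            exact ⟨_, (hA _).1 (isMin_mu A n)⟩
          · rintro ⟨n, rfl⟩
            apply exists_mu
            rw [hA, h2]
        have := StrictMono.range_inj (mu_strictMono A) hmono
        intro n
        rw [this.1 hr]
      refine ⟨A, ?_⟩
      have hidx : idx A = ι := by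
        funext m
        rw [idx_eq_iff, hmu]
        change Setoid.ker ι m (μ (ι m))
        rw [Setoid.ker_def, h2]
      have hmu' : mu A = μ := funext hmu
      unfold Phi
      rw [hmu', hidx]
  rw [hset]
  have c1 : ∀ n, Continuous (fun p : (ℕ → ℕ) × (ℕ → ℕ) => p.1 n) := fun n =>
    (continuous_apply n).comp continuous_fst
  have c2 : ∀ n, Continuous (fun p : (ℕ → ℕ) × (ℕ → ℕ) => p.2 n) := fun n =>
    (continuous_apply n).comp continuous_snd
  have c3 : ∀ m, Continuous (fun p : (ℕ → ℕ) × (ℕ → ℕ) => p.1 (p.2 m)) := by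
    intro m
    rw [continuous_discrete_rng]
    intro b
    have : ((fun p : (ℕ → ℕ) × (ℕ → ℕ) => p.1 (p.2 m)) ⁻¹' {b}) =
        ⋃ n, ({p | p.2 m = n} ∩ {p | p.1 n = b}) := by
      ext p
      simp
    rw [this]
    refine isOpen_iUnion fun n => ?_
    exact ((isOpen_discrete {n}).preimage (c2 m)).inter ((isOpen_discrete {b}).preimage (c1 n))
  have c4 : ∀ m, Continuous (fun p : (ℕ → ℕ) × (ℕ → ℕ) => p.2 (p.1 m)) := by
    intro m
    rw [continuous_discrete_rng]
    intro b
    have : ((fun p : (ℕ → ℕ) × (ℕ → ℕ) => p.2 (p.1 m)) ⁻¹' {b}) =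
        ⋃ n, ({p | p.1 m = n} ∩ {p | p.2 n = b}) := by
      ext p
      simp
    rw [this]
    refine isOpen_iUnion fun n => ?_
    exact ((isOpen_discrete {n}).preimage (c1 m)).inter ((isOpen_discrete {b}).preimage (c2 n))
  simp only [Set.ofPred_and, Set.ofPred_forall]
  refine IsClosed.inter ?_ (IsClosed.inter ?_ ?_)
  · refine isClosed_iInter fun n => ?_
    have : {x : (ℕ → ℕ) × (ℕ → ℕ) | x.1 n < x.1 (n + 1)} =
        (fun x => (x.1 n, x.1 (n + 1))) ⁻¹' {q : ℕ × ℕ | q.1 < q.2} := rfl
    rw [this]
    exact (isClosed_discrete _).preimage ((c1 n).prodMk (c1 (n + 1)))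
  · refine isClosed_iInter fun n => ?_
    exact (isClosed_discrete {n}).preimage (c4 n)
  · refine isClosed_iInter fun m => ?_
    exact (isClosed_discrete (Iic m)).preimage (c3 m)

theorem isClosedEmbedding_Phi : IsClosedEmbedding Phi :=
  ⟨⟨isInducing_Phi, Phi_injective⟩, isClosed_range_Phi⟩

instance : PolishSpace CS := isClosedEmbedding_Phi.polishSpace

end Q215.CSp
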