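import Pool.Agent.Q215.CsA

/-!
# Neighbourhoods in the topology generated by the sets `[s, A]`, and the one step lemma
-/

open Set Topology

namespace Q215.CSp

/-- agreement of two setoids below `d` -/
def Agr (S T : Setoid ℕ) (d : ℕ) : Prop := ∀ i j, i < d → j < d → (S i j ↔ T i j)

theorem Agr.refl (S : Setoid ℕ) (d : ℕ) : Agr S S d := fun _ _ _ _ => Iff.rfl

theorem Agr.symm {S T : Setoid ℕ} {d : ℕ} (h : Agr S T d) : Agr T S d :=
  fun i j hi hj => (h i j hi hj).symm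

theorem Agr.trans {S T U : Setoid ℕ} {d : ℕ} (h : Agr S T d) (h' : Agr T U d) : Agr S U d :=
  fun i j hi hj => (h i j hi hj).trans (h' i j hi hj)

theorem Agr.mono {S T : Setoid ℕ} {d e : ℕ} (h : Agr S T d) (hed : e ≤ d) : Agr S T e :=
  fun i j hi hj => h i j (hi.trans_le hed) (hj.trans_le hed)

/-- The basic neighbourhood of `D` determined by `d`. -/
def nb (D : CS) (d : ℕ) : Set CS := {G | Below G D ∧ IsMin G d ∧ Agr G.1 D.1 d}

/-- the restriction of `D` to `{0, ..., d - 1}` -/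
def restr (D : CS) (d : ℕ) : FinRel := ⟨d, D.1.comap (fun i : Fin d => (i : ℕ))⟩

theorem nb_eq_box (D : CS) (d : ℕ) : nb D d = box (restr D d) D := by
  ext G
  rw [box_mem_iff]
  constructor
  · rintro ⟨h1, h2, h3⟩
    refine ⟨h1, h2, fun i j => ?_⟩
    exact (h3 i j i.2 j.2).symm
  · rintro ⟨h1, h2, h3⟩
    refine ⟨h1, h2, fun i j hi hj => ?_⟩
    exact (h3 ⟨i, hi⟩ ⟨j, hj⟩).symm

theorem isOpen_nb (D : CS) (d : ℕ) : IsOpen[ell] (nb D d) := by
  apply TopologicalSpace.isOpen_generateFrom_of_mem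
  exact ⟨_, _, nb_eq_box D d⟩

theorem mem_nb_self (D : CS) {d : ℕ} (h : IsMin D d) : D ∈ nb D d :=
  ⟨Below.refl D, h, Agr.refl _ _⟩

theorem isMin_of_agr {G D : CS} {d e : ℕ} (h : Agr G.1 D.1 d) (hed : e < d) (hD : IsMin D e) :
    IsMin G e := by
  intro k hk hG
  exact hD k hk ((h k e (hk.trans hed) hed).1 hG)

theorem nb_subset_box {s : FinRel} {A D : CS} (hD : D ∈ box s A) {d : ℕ} (hd : s.len ≤ d) :
    nb D d ⊆ box s A := by
  rw [box_mem_iff] at hD
  obtain ⟨h1, h2, h3⟩ := hD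
  rintro G ⟨g1, g2, g3⟩
  rw [box_mem_iff]
  refine ⟨g1.trans h1, ?_, ?_⟩
  · rcases hd.eq_or_lt with h | h
    · rw [h]; exact g2
    · exact isMin_of_agr g3 h h2
  · intro i j
    rw [h3 i j]
    exact (g3 i j (i.2.trans_le hd) (j.2.trans_le hd)).symm

/-- Every neighbourhood of `D` contains the sets `nb D d` for all large `d`. -/
theorem exists_nb_subset {U : Set CS} (hU : IsOpen[ell] U) :
    ∀ D ∈ U, ∃ N, ∀ d, N ≤ d → nb D d ⊆ U := by
  induction hU with
  | basic V hV =>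
    obtain ⟨s, A, rfl⟩ := hV
    intro D hD
    exact ⟨s.len, fun d hd => nb_subset_box hD hd⟩
  | univ => intro D _; exact ⟨0, fun d _ => subset_univ _⟩
  | inter V W _ _ hV hW =>
    intro D hD
    obtain ⟨N1, h1⟩ := hV D hD.1
    obtain ⟨N2, h2⟩ := hW D hD.2
    refine ⟨max N1 N2, fun d hd => subset_inter (h1 d ?_) (h2 d ?_)⟩
    · exact (le_max_left _ _).trans hd
    · exact (le_max_right _ _).trans hd
  | sUnion S _ hS =>
    intro D hD
    obtain ⟨V, hV, hDV⟩ := hD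
    obtain ⟨N, hN⟩ := hS V hV D hDV
    exact ⟨N, fun d hd => (hN d hd).trans (subset_sUnion_of_mem hV)⟩

/-! ## Merging classes into the class of `0` -/

/-- `i` lies in the class of `0` or of an element of `Z` -/
def InZ (S : Setoid ℕ) (Z : Set ℕ) (i : ℕ) : Prop := ∃ z, (z = 0 ∨ z ∈ Z) ∧ S i z

/-- merge the classes of the elements of `Z` into the class of `0` -/
def mrg (S : Setoid ℕ) (Z : Set ℕ) : Setoid ℕ where
  r i j := S i j ∨ (InZ S Z i ∧ InZ S Z j)
  iseqv := by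
    have hinv : ∀ i j, S i j → InZ S Z j → InZ S Z i := by
      rintro i j hij ⟨z, hz, hz'⟩
      exact ⟨z, hz, S.trans hij hz'⟩
    constructor
    · intro i; exact Or.inl (S.refl i)
    · rintro i j (h | ⟨h1, h2⟩)
      · exact Or.inl (S.symm h)
      · exact Or.inr ⟨h2, h1⟩
    · rintro i j k (h | ⟨h1, h2⟩) (h' | ⟨h3, h4⟩)
      · exact Or.inl (S.trans h h')
      · exact Or.inr ⟨hinv _ _ h h3, h4⟩
      · exact Or.inr ⟨h1, hinv _ _ (S.symm h') h2⟩
      · exact Or.inr ⟨h1, h4⟩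

theorem mrg_iff (S : Setoid ℕ) (Z : Set ℕ) (i j : ℕ) :
    mrg S Z i j ↔ S i j ∨ (InZ S Z i ∧ InZ S Z j) := Iff.rfl

theorem inZ_zero (S : Setoid ℕ) (Z : Set ℕ) : InZ S Z 0 := ⟨0, Or.inl rfl, S.refl 0⟩

theorem inZ_of_mem {S : Setoid ℕ} {Z : Set ℕ} {z : ℕ} (h : z ∈ Z) : InZ S Z z :=
  ⟨z, Or.inr h, S.refl z⟩

/-- minima of the merged relation -/
theorem isMinS_mrg {S : Setoid ℕ} {Z : Set ℕ} (hZ : ∀ z ∈ Z, IsMinS S z) (m : ℕ) (hm : 0 < m) :
    IsMinS (mrg S Z) m ↔ IsMinS S m ∧ m ∉ Z := by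
  constructor
  · intro h
    refine ⟨fun k hk hkm => h k hk (Or.inl hkm), fun hmZ => ?_⟩
    exact h 0 hm (Or.inr ⟨inZ_zero S Z, inZ_of_mem hmZ⟩)
  · rintro ⟨h1, h2⟩ k hk (h | ⟨-, z, hz, hmz⟩)
    · exact h1 k hk h
    · have hzmin : IsMinS S z := by
        rcases hz with rfl | hz
        · intro k hk; omega
        · exact hZ z hz
      have : m = z := by
        rw [isMinS_iff] at h1 hzmin
        rw [← h1, ← hzmin]
        exact mn_eq S hmz
      subst this
      rcases hz with hz | hz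
      · omega
      · exact h2 hz

/-- an element above all of `Z` remains a minimum -/
theorem isMinS_mrg_of_lt {S : Setoid ℕ} {Z : Set ℕ} {d : ℕ} (hZ : ∀ z ∈ Z, z < d)
    (hd : IsMinS S d) : IsMinS (mrg S Z) d := by
  intro k hk
  rintro (h | ⟨-, z, hz, hmz⟩)
  · exact hd k hk h
  · have hzd : z < d := by
      rcases hz with rfl | hz
      · omega
      · exact hZ z hz
    exact hd z hzd (S.symm hmz)

/-- merging finitely many classes -/
def mrgC (A : CS) (Z : Finset ℕ) : CS := ⟨mrg A.1 Z, by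
  apply infinite_of_good
  intro n
  obtain ⟨b, hb⟩ := Z.bddAbove
  obtain ⟨m, hm, hm'⟩ := good A (max n (b + 1))
  refine ⟨m, (le_max_left _ _).trans hm, ?_⟩
  apply isMinS_mrg_of_lt _ hm'
  intro z hz
  have := hb hz
  have := (le_max_right _ _).trans hm
  omega⟩

theorem mrgC_val (A : CS) (Z : Finset ℕ) : (mrgC A Z).1 = mrg A.1 Z := rfl

theorem inZ_agr {S T : Setoid ℕ} {d : ℕ} (h : Agr S T d) {Z : Set ℕ} (hZ : ∀ z ∈ Z, z < d)
    {i : ℕ} (hi : i < d) (hz : InZ S Z i) : InZ T Z i := by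
  obtain ⟨z, hz, hz'⟩ := hz
  refine ⟨z, hz, (h i z hi ?_).1 hz'⟩
  rcases hz with rfl | hz
  · omega
  · exact hZ z hz

theorem mrg_agr {S T : Setoid ℕ} {d : ℕ} (h : Agr S T d) {Z : Set ℕ} (hZ : ∀ z ∈ Z, z < d) :
    Agr (mrg S Z) (mrg T Z) d := by
  intro i j hi hj
  rw [mrg_iff, mrg_iff, h i j hi hj]
  constructor
  · rintro (h1 | ⟨h1, h2⟩)
    · exact Or.inl h1
    · exact Or.inr ⟨inZ_agr h hZ hi h1, inZ_agr h hZ hj h2⟩
  · rintro (h1 | ⟨h1, h2⟩)
    · exact Or.inl h1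
    · exact Or.inr ⟨inZ_agr h.symm hZ hi h1, inZ_agr h.symm hZ hj h2⟩

theorem mrg_below {S T : Setoid ℕ} (h : ∀ i j, T i j → S i j) {Z Z' : Set ℕ} (hZ : Z' ⊆ Z) :
    ∀ i j, mrg T Z' i j → mrg S Z i j := by
  have hin : ∀ i, InZ T Z' i → InZ S Z i := by
    rintro i ⟨z, hz, hz'⟩
    exact ⟨z, hz.imp id (fun h => hZ h), h _ _ hz'⟩
  rintro i j (h1 | ⟨h1, h2⟩)
  · exact Or.inl (h _ _ h1)
  · exact Or.inr ⟨hin _ h1, hin _ h2⟩

/-- monotonicity of the neighbourhoods of the merged relations -/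
theorem nb_mono {A A' : CS} {d d' : ℕ} {Z : Finset ℕ} (hbel : Below A' A)
    (hagr : Agr A'.1 A.1 (d + 1)) (hd : IsMin A d) (hdd : d < d') (hZ : ∀ z ∈ Z, z < d) :
    nb (mrgC A' Z) d' ⊆ nb (mrgC A Z) d := by
  rintro G ⟨g1, g2, g3⟩
  have hmd : IsMin A' d := isMin_of_agr hagr (Nat.lt_succ_self d) hd
  refine ⟨?_, ?_, ?_⟩
  · intro i j hij
    exact g1 i j (mrg_below hbel (subset_refl _) i j hij)
  · apply isMin_of_agr g3 hdd
    exact isMinS_mrg_of_lt hZ hmd
  · refine (g3.mono hdd.le).trans ?_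
    exact mrg_agr (hagr.mono (Nat.le_succ d)) hZ

/-! ## The one step lemma -/

/-- the lift of a coarsening `D` of `mrg A Z` to a coarsening of `A` agreeing with `A` below `d` -/
noncomputable def lft (S D : Setoid ℕ) (d : ℕ) (m : ℕ) : ℕ :=
  if mn S m < d then mn S m else mn D m

theorem one_step {𝒟 : Set (Set CS)} (hopen : ∀ U ∈ 𝒟, IsOpen[ell] U)
    (hdense : ∀ V : Set CS, IsOpen[ell] V → V.Nonempty → ∃ U ∈ 𝒟, (U ∩ V).Nonempty)
    (A : CS) {d : ℕ} (hd : IsMin A d) (Z : Finset ℕ) (hZ : ∀ z ∈ Z, z < d) :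
    ∃ (A' : CS) (d' : ℕ), Below A' A ∧ Agr A'.1 A.1 (d + 1) ∧ d < d' ∧ IsMin A' d' ∧
      ∃ U ∈ 𝒟, nb (mrgC A' Z) d' ⊆ U := by
  have hdm : IsMin (mrgC A Z) d := isMinS_mrg_of_lt hZ hd
  obtain ⟨U, hU, D, hDU, hD⟩ := hdense (nb (mrgC A Z) d) (isOpen_nb _ _) ⟨_, mem_nb_self _ hdm⟩
  obtain ⟨N, hN⟩ := exists_nb_subset (hopen U hU) D hDU
  obtain ⟨d', hd', hDd'⟩ := good D (max N (d + 1))
  obtain ⟨hD1, hD2, hD3⟩ := hD
  -- properties of D
  have hDA : ∀ i j, A.1 i j → D.1 i j := fun i j h => hD1 i j (Or.inl h)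
  set S := A.1 with hS
  set T := D.1 with hT
  have hmnle : ∀ m, mn T m ≤ mn S m := fun m => mn_le_of T (hDA _ _ (mn_rel S m))
  have hSd : mn S d = d := (isMinS_iff S d).1 hd
  have hTd : mn T d = d := (isMinS_iff T d).1 hD2
  let a := lft S T d
  have ha1 : ∀ m, mn S m < d → a m = mn S m := fun m h => by simp [a, lft, h]
  have ha2 : ∀ m, ¬ mn S m < d → a m = mn T m := fun m h => by simp [a, lft, h]
  have hmnT : ∀ m, mn S (mn T m) = mn T m := by
    intro m
    apply le_antisymm (mn_le _ _)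
    have := mn_le_of T (hDA _ _ (mn_rel S (mn T m)))
    rw [mn_mn] at this
    exact this
  have haa : ∀ m, a (a m) = a m := by
    intro m
    by_cases h : mn S m < d
    · rw [ha1 m h, ha1 (mn S m) (by rw [mn_mn]; exact h), mn_mn]
    · rw [ha2 m h]
      by_cases h' : mn T m < d
      · rw [ha1 _ (by rw [hmnT]; exact h'), hmnT]
      · rw [ha2 _ (by rw [hmnT]; exact h'), mn_mn]
  have hale : ∀ m, a m ≤ m := by
    intro m
    by_cases h : mn S m < d
    · rw [ha1 m h]; exact mn_le _ _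
    · rw [ha2 m h]; exact mn_le _ _
  have haT : ∀ m, T (a m) m := by
    intro m
    by_cases h : mn S m < d
    · rw [ha1 m h]; exact hDA _ _ (mn_rel S m)
    · rw [ha2 m h]; exact mn_rel T m
  -- minima of the kernel
  have hkmin : ∀ m, IsMinS (Setoid.ker a) m ↔ a m = m := by
    intro m
    constructor
    · intro h
      by_contra hne
      exact h _ (lt_of_le_of_ne (hale m) hne) (by rw [Setoid.ker_def]; exact haa m)
    · intro h k hk hker
      rw [Setoid.ker_def, h] at hker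
      have := hale k
      omega
  -- D-minima are minima of the kernel
  have hDmin : ∀ m, IsMin D m → a m = m := by
    intro m hm
    have h1 : mn T m = m := (isMinS_iff T m).1 hm
    have h2 : mn S m = m := by
      have := hmnT m
      rw [h1] at this
      exact this
    by_cases h : mn S m < d
    · rw [ha1 m h, h2]
    · rw [ha2 m h, h1]
  have hinf : Infinite (Quotient (Setoid.ker a)) := by
    apply infinite_of_good
    intro n
    obtain ⟨m, hm, hm'⟩ := good D n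
    exact ⟨m, hm, (hkmin m).2 (hDmin m hm')⟩
  let A' : CS := ⟨Setoid.ker a, hinf⟩
  have hlow : ∀ i, i < d → a i = mn S i := fun i hi => ha1 i ((mn_le S i).trans_lt hi)
  have hagr : Agr A'.1 A.1 (d + 1) := by
    intro i j hi hj
    change Setoid.ker a i j ↔ S i j
    rw [Setoid.ker_def]
    have key : ∀ i, i < d + 1 → a i = mn S i := by
      intro i hi
      rcases Nat.lt_succ_iff_lt_or_eq.1 hi with h | h
      · exact hlow i h
      · subst h
        rw [ha2 _ (by rw [hSd]; exact lt_irrefl _), hTd, hSd]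
    rw [key i hi, key j hj]
    exact ⟨rel_of_mn_eq S, mn_eq S⟩
  have hbel : Below A' A := by
    intro i j hij
    change Setoid.ker a i j
    rw [Setoid.ker_def]
    have h1 : mn S i = mn S j := mn_eq S hij
    by_cases h : mn S i < d
    · rw [ha1 i h, ha1 j (h1 ▸ h), h1]
    · rw [ha2 i h, ha2 j (h1 ▸ h)]
      exact mn_eq T (hDA _ _ hij)
  have hd'd : d < d' := by
    have := (le_max_right N (d + 1)).trans hd'
    omega
  have hmrg : mrgC A' Z = D := by
    apply Subtype.ext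
    apply Setoid.ext
    intro i j
    change mrg (Setoid.ker a) Z i j ↔ T i j
    constructor
    · have hz0 : ∀ z, (z = 0 ∨ z ∈ (Z : Set ℕ)) → T z 0 := by
        intro z hz
        apply hD1
        refine Or.inr ⟨⟨z, hz, S.refl z⟩, inZ_zero _ _⟩
      have hA'D : ∀ i j, Setoid.ker a i j → T i j := by
        intro i j hij
        rw [Setoid.ker_def] at hij
        have h1 := haT i
        rw [hij] at h1
        exact T.trans (T.symm h1) (haT j)
      rintro (h | ⟨⟨z, hz, hz'⟩, ⟨w, hw, hw'⟩⟩)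
      · exact hA'D i j h
      · have h1 := T.trans (hA'D _ _ hz') (hz0 z hz)
        have h2 := T.trans (hA'D _ _ hw') (hz0 w hw)
        exact T.trans h1 (T.symm h2)
    · intro hij
      have key : ∀ m, mrg (Setoid.ker a) Z m (mn T m) := by
        intro m
        have h1 : mrg (Setoid.ker a) Z m (a m) := Or.inl (by
          rw [Setoid.ker_def]; exact (haa m).symm)
        by_cases h : mn S m < d
        · rw [ha1 m h] at h1
          have hTm : T (mn S m) (mn T m) :=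
            T.trans (hDA _ _ (mn_rel S m)) (T.symm (mn_rel T m))
          have hlt : mn T m < d := (hmnle m).trans_lt h
          have h2 : (mrgC A Z).1 (mn S m) (mn T m) := (hD3 _ _ h hlt).1 hTm
          have h3 : mrg (Setoid.ker a) Z (mn S m) (mn T m) := by
            have := (mrg_agr (hagr.mono (Nat.le_succ d)) (Z := (Z : Set ℕ)) hZ _ _ h hlt).2 h2
            exact this
          exact (mrg (Setoid.ker a) Z).trans h1 h3
        · rw [ha2 m h] at h1
          exact h1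
      have h1 := key i
      have h2 := key j
      rw [mn_eq T hij] at h1
      exact (mrg (Setoid.ker a) Z).trans h1 ((mrg (Setoid.ker a) Z).symm h2)
  refine ⟨A', d', hbel, hagr, hd'd, (hkmin d').2 (hDmin d' hDd'), U, hU, ?_⟩
  rw [hmrg]
  exact hN d' ((le_max_left _ _).trans hd')

/-- the one step lemma for finitely many mergings -/
theorem one_step_finset {𝒟 : Set (Set CS)} (hopen : ∀ U ∈ 𝒟, IsOpen[ell] U)
    (hdense : ∀ V : Set CS, IsOpen[ell] V → V.Nonempty → ∃ U ∈ 𝒟, (U ∩ V).Nonempty)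
    (A : CS) {d : ℕ} (F : Finset (Finset ℕ)) (hF : ∀ Z ∈ F, ∀ z ∈ Z, z < d) :
    ∃ (A' : CS) (d' : ℕ), Below A' A ∧ Agr A'.1 A.1 (d + 1) ∧ d < d' ∧ IsMin A' d' ∧
      ∀ Z ∈ F, ∃ U ∈ 𝒟, nb (mrgC A' Z) d' ⊆ U := by
  classical
  induction F using Finset.induction_on with
  | empty =>
    obtain ⟨d', h1, h2⟩ := good A (d + 1)
    exact ⟨A, d', Below.refl A, Agr.refl _ _, by omega, h2, by simp⟩
  | insert Z F _ ih =>
    obtain ⟨A1, d1, h1, h2, h3, h4, h5⟩ := ih (fun Y hY => hF Y (Finset.mem_insert_of_mem hY))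
    have hZ1 : ∀ z ∈ Z, z < d1 := fun z hz => (hF Z (Finset.mem_insert_self _ _) z hz).trans h3
    obtain ⟨A2, d2, g1, g2, g3, g4, U, hU, g5⟩ := one_step hopen hdense A1 h4 Z hZ1
    refine ⟨A2, d2, g1.trans h1, ?_, h3.trans g3, g4, ?_⟩
    · exact (g2.mono (by omega)).trans h2
    · intro Y hY
      rcases Finset.mem_insert.1 hY with rfl | hY'
      · exact ⟨U, hU, g5⟩
      · obtain ⟨V, hV, hV'⟩ := h5 Y hY'
        refine ⟨V, hV, (nb_mono g1 g2 h4 g3 ?_).trans hV'⟩
        intro z hz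
        exact (hF Y hY z hz).trans h3

end Q215.CSp
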