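import Pool.Agent.Q215.CsB

/-!
# The fusion: a copy of the Cantor space inside a comeager set
-/

open Set Topology

namespace Q215.CSp

/-- states of the construction -/
structure St where
  A : CS
  d : ℕ
  W : Finset ℕ
  hd : IsMin A d
  hW : ∀ w ∈ W, w < d

/-- the step relation of the construction -/
def Step (𝒟 : Set (Set CS)) (s t : St) (e : ℕ) : Prop :=
  s.d < e ∧ e < t.d ∧ IsMin s.A e ∧ t.W = insert e s.W ∧ Below t.A s.A ∧
    Agr t.A.1 s.A.1 (e + 1) ∧ ∀ Z ⊆ t.W, ∃ U ∈ 𝒟, nb (mrgC t.A Z) t.d ⊆ U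

theorem exists_step {𝒟 : Set (Set CS)} (hopen : ∀ U ∈ 𝒟, IsOpen[ell] U)
    (hdense : ∀ V : Set CS, IsOpen[ell] V → V.Nonempty → ∃ U ∈ 𝒟, (U ∩ V).Nonempty)
    (s : St) : ∃ (t : St) (e : ℕ), Step 𝒟 s t e := by
  obtain ⟨e, he1, he2⟩ := good s.A (s.d + 1)
  obtain ⟨p, hp1, hp2⟩ := good s.A (e + 1)
  have hlt : ∀ w ∈ insert e s.W, w < p := by
    intro w hw
    rcases Finset.mem_insert.1 hw with rfl | hw
    · omega
    · have := s.hW w hw; omega
  obtain ⟨A', d', h1, h2, h3, h4, h5⟩ := one_step_finset hopen hdense s.A (d := p)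
    (insert e s.W).powerset
    (fun Z hZ z hz => hlt z ((Finset.mem_powerset.1 hZ) hz))
  refine ⟨⟨A', d', insert e s.W, h4, fun w hw => (hlt w hw).trans h3⟩, e, by omega, by
    change e < d'; omega, he2, rfl, h1, h2.mono (by omega), ?_⟩
  intro Z hZ
  exact h5 Z (Finset.mem_powerset.2 hZ)

theorem exists_seq (𝒟 : ℕ → Set (Set CS)) (hopen : ∀ k, ∀ U ∈ 𝒟 k, IsOpen[ell] U)
    (hdense : ∀ k, ∀ V : Set CS, IsOpen[ell] V → V.Nonempty → ∃ U ∈ 𝒟 k, (U ∩ V).Nonempty)
    (s0 : St) : ∃ (st : ℕ → St) (e : ℕ → ℕ), st 0 = s0 ∧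
      ∀ k, Step (𝒟 k) (st k) (st (k + 1)) (e k) := by
  let nxt : ℕ → St → St := fun k s => (exists_step (hopen k) (hdense k) s).choose
  let st : ℕ → St := fun n => Nat.rec s0 (fun k s => nxt k s) n
  have hst : ∀ k, ∃ e, Step (𝒟 k) (st k) (st (k + 1)) e := fun k =>
    (exists_step (hopen k) (hdense k) (st k)).choose_spec
  choose e he using hst
  exact ⟨st, e, rfl, he⟩

theorem fusion (𝒟 : ℕ → Set (Set CS)) (hopen : ∀ k, ∀ U ∈ 𝒟 k, IsOpen[ell] U)
    (hdense : ∀ k, ∀ V : Set CS, IsOpen[ell] V → V.Nonempty → ∃ U ∈ 𝒟 k, (U ∩ V).Nonempty)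
    (A0 : CS) (d0 : ℕ) (h0 : IsMin A0 d0) :
    ∃ (B : Setoid ℕ) (e : ℕ → ℕ) (am : (ℕ → Bool) → CS), StrictMono e ∧ (∀ k, IsMinS B (e k)) ∧
      (∀ k, 0 < e k) ∧ (∀ M, (am M).1 = mrg B {x | ∃ k, e k = x ∧ M k = false}) ∧
      (∀ M, am M ∈ nb A0 d0) ∧
      ∀ (k : ℕ) (M : ℕ → Bool), ∃ U ∈ 𝒟 k, ∀ M' : ℕ → Bool, (∀ i ≤ k, M' i = M i) → am M' ∈ U := by
  classical
  obtain ⟨st, e, hst0, hst⟩ := exists_seq 𝒟 hopen hdense
    ⟨A0, d0, ∅, h0, by simp⟩
  have hde : ∀ k, (st k).d < e k := fun k => (hst k).1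
  have hed : ∀ k, e k < (st (k + 1)).d := fun k => (hst k).2.1
  have hemin : ∀ k, IsMin (st k).A (e k) := fun k => (hst k).2.2.1
  have hbel1 : ∀ k, Below (st (k + 1)).A (st k).A := fun k => (hst k).2.2.2.2.1
  have hagr1 : ∀ k, Agr (st (k + 1)).A.1 (st k).A.1 (e k + 1) := fun k => (hst k).2.2.2.2.2.1
  have hemono : StrictMono e := strictMono_nat_of_lt_succ fun k => (hed k).trans (hde (k + 1))
  have hdmono : StrictMono (fun k => (st k).d) :=
    strictMono_nat_of_lt_succ fun k => (hde k).trans (hed k)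
  have hWk : ∀ k, (st k).W = (Finset.range k).image e := by
    intro k
    induction k with
    | zero => rw [hst0]; simp
    | succ k ih => rw [(hst k).2.2.2.1, ih, Finset.range_add_one, Finset.image_insert]
  have hbel : ∀ k j, k ≤ j → Below (st j).A (st k).A := by
    intro k j hkj
    induction j, hkj using Nat.le_induction with
    | base => exact Below.refl _
    | succ j _ ih => exact (hbel1 j).trans ih
  have hagr : ∀ k j, k ≤ j → Agr (st j).A.1 (st k).A.1 (e k + 1) := by
    intro k j hkj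
    induction j, hkj using Nat.le_induction with
    | base => exact Agr.refl _ _
    | succ j hj ih =>
      refine ((hagr1 j).mono ?_).trans ih
      have := hemono.monotone hj
      omega
  -- the limit
  let B : Setoid ℕ := {
    r := fun i j => ∃ k, (st k).A.1 i j
    iseqv := by
      constructor
      · intro i; exact ⟨0, (st 0).A.1.refl i⟩
      · rintro i j ⟨k, hk⟩; exact ⟨k, (st k).A.1.symm hk⟩
      · rintro i j l ⟨k, hk⟩ ⟨k', hk'⟩
        refine ⟨max k k', ?_⟩
        exact (st (max k k')).A.1.trans (hbel k _ (le_max_left _ _) _ _ hk)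
          (hbel k' _ (le_max_right _ _) _ _ hk') }
  have hBiff : ∀ i j, B i j ↔ ∃ k, (st k).A.1 i j := fun i j => Iff.rfl
  have hBA : ∀ k i j, (st k).A.1 i j → B i j := fun k i j h => ⟨k, h⟩
  have hBagr : ∀ k, Agr B (st k).A.1 (e k + 1) := by
    intro k i j hi hj
    constructor
    · rintro ⟨k', hk'⟩
      rcases le_total k' k with h | h
      · exact hbel k' k h _ _ hk'
      · exact (hagr k k' h i j hi hj).1 hk'
    · intro h; exact ⟨k, h⟩
  have hBmin : ∀ k m, m ≤ e k → IsMin (st k).A m → IsMinS B m := by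
    intro k m hm h i hi hB
    exact h i hi ((hBagr k i m (by omega) (by omega)).1 hB)
  have hBd : ∀ k, IsMinS B (st k).d := fun k => hBmin k _ (hde k).le (st k).hd
  have hBe : ∀ k, IsMinS B (e k) := fun k => hBmin k _ le_rfl (hemin k)
  have hne : ∀ k j, (st k).d ≠ e j := by
    intro k j
    rcases lt_or_ge j k with h | h
    · have h1 := hdmono.monotone (Nat.succ_le_of_lt h)
      have h2 := hed j
      simp only [Nat.succ_eq_add_one] at h1
      omega
    · have h1 := hemono.monotone h
      have h2 := hde k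
      omega
  let ZM : (ℕ → Bool) → Set ℕ := fun M => {x | ∃ k, e k = x ∧ M k = false}
  have hZmin : ∀ M, ∀ z ∈ ZM M, IsMinS B z := by
    rintro M z ⟨k, rfl, -⟩; exact hBe k
  have hdM : ∀ M k, IsMinS (mrg B (ZM M)) (st k).d := by
    intro M k
    rcases Nat.eq_zero_or_pos (st k).d with h | h
    · intro i hi; omega
    · rw [isMinS_mrg (hZmin M) _ h]
      refine ⟨hBd k, ?_⟩
      rintro ⟨j, hj, -⟩
      exact hne k j hj.symm
  have hinf : ∀ M, Infinite (Quotient (mrg B (ZM M))) := by
    intro M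
    apply infinite_of_good
    intro n
    exact ⟨(st n).d, hdmono.id_le n, hdM M n⟩
  have hzlt : ∀ i z, B i z → IsMinS B z → z ≤ i := by
    intro i z h hz
    by_contra hcon
    push Not at hcon
    exact hz i hcon h
  refine ⟨B, e, fun M => ⟨mrg B (ZM M), hinf M⟩, hemono, hBe, fun k => ?_, fun M => rfl, ?_, ?_⟩
  · have := hde k; omega
  · intro M
    refine ⟨?_, ?_, ?_⟩
    · intro i j hij
      have h1 : (st 0).A.1 i j := by rw [hst0]; exact hij
      exact Or.inl (hBA 0 i j h1)
    · have := hdM M 0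
      rw [hst0] at this
      exact this
    · have hd0 : (st 0).d = d0 := by rw [hst0]
      have hA0 : (st 0).A = A0 := by rw [hst0]
      have he0 := hde 0
      rw [hd0] at he0
      have h1 : Agr B A0.1 d0 := by
        have := hBagr 0
        rw [hA0] at this
        exact this.mono (by omega)
      intro i j hi hj
      rw [← h1 i j hi hj]
      change (B i j ∨ (InZ B (ZM M) i ∧ InZ B (ZM M) j)) ↔ B i j
      have hin : ∀ i, i < d0 → InZ B (ZM M) i → B i 0 := by
        rintro i hi ⟨z, hz, hz'⟩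
        rcases hz with rfl | ⟨k, rfl, -⟩
        · exact hz'
        · have h2 := hzlt i (e k) hz' (hBe k)
          have h3 := hemono.monotone (Nat.zero_le k)
          omega
      constructor
      · rintro (h | ⟨h2, h3⟩)
        · exact h
        · exact B.trans (hin i hi h2) (B.symm (hin j hj h3))
      · exact Or.inl
  · intro k M
    let Z : Finset ℕ := ((Finset.range (k + 1)).filter (fun i => M i = false)).image e
    have hZW : Z ⊆ (st (k + 1)).W := by
      rw [hWk]
      exact Finset.image_subset_image (Finset.filter_subset _ _)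
    obtain ⟨U, hU, hUsub⟩ := (hst k).2.2.2.2.2.2 Z hZW
    refine ⟨U, hU, ?_⟩
    intro M' hM'
    apply hUsub
    have hZmem : ∀ x, x ∈ Z ↔ ∃ i, i ≤ k ∧ M' i = false ∧ e i = x := by
      intro x
      simp only [Z, Finset.mem_image, Finset.mem_filter, Finset.mem_range]
      constructor
      · rintro ⟨i, ⟨hi, hM⟩, rfl⟩
        exact ⟨i, by omega, by rw [hM' i (by omega)]; exact hM, rfl⟩
      · rintro ⟨i, hi, hM, rfl⟩
        exact ⟨i, ⟨by omega, by rw [← hM' i hi]; exact hM⟩, rfl⟩
    refine ⟨?_, hdM M' (k + 1), ?_⟩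
    · intro i j hij
      refine mrg_below (hBA (k + 1)) ?_ i j hij
      intro x hx
      obtain ⟨i, _, hM, rfl⟩ := (hZmem x).1 hx
      exact ⟨i, rfl, hM⟩
    · have hZlt : ∀ z ∈ (Z : Set ℕ), z < (st (k + 1)).d := by
        intro z hz
        exact (st (k + 1)).hW z (hZW hz)
      have h1 : Agr (mrg B (Z : Set ℕ)) (mrg (st (k + 1)).A.1 (Z : Set ℕ)) (st (k + 1)).d :=
        mrg_agr ((hBagr (k + 1)).mono ((hde (k + 1)).le.trans (Nat.le_succ _))) hZlt
      refine Agr.trans ?_ h1
      have hin : ∀ i, i < (st (k + 1)).d → (InZ B (ZM M') i ↔ InZ B (Z : Set ℕ) i) := by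
        intro i hi
        constructor
        · rintro ⟨z, hz, hz'⟩
          refine ⟨z, ?_, hz'⟩
          rcases hz with rfl | ⟨j, rfl, hj⟩
          · exact Or.inl rfl
          · right
            have h2 := hzlt i (e j) hz' (hBe j)
            have hjk : j ≤ k := by
              by_contra hcon
              push Not at hcon
              have h3 := hemono.monotone (Nat.succ_le_of_lt hcon)
              have h4 := hde (k + 1)
              simp only [Nat.succ_eq_add_one] at h3
              omega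
            exact (hZmem _).2 ⟨j, hjk, hj, rfl⟩
        · rintro ⟨z, hz, hz'⟩
          refine ⟨z, ?_, hz'⟩
          rcases hz with rfl | hz
          · exact Or.inl rfl
          · right
            obtain ⟨j, _, hM, rfl⟩ := (hZmem z).1 hz
            exact ⟨j, rfl, hM⟩
      intro i j hi hj
      change (B i j ∨ (InZ B (ZM M') i ∧ InZ B (ZM M') j)) ↔
        (B i j ∨ (InZ B (Z : Set ℕ) i ∧ InZ B (Z : Set ℕ) j))
      rw [hin i hi, hin j hj]

open Classical in
/-- number of ones of `M` below `n` -/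
noncomputable def ones (M : ℕ → Bool) (n : ℕ) : ℕ := Nat.count (fun i => M i = true) n

open Classical in
/-- number of minima of `A` below `n` -/
noncomputable def cnt (A : CS) (n : ℕ) : ℕ := Nat.count (IsMin A) n

open Classical in
theorem cnt_formula {B : Setoid ℕ} {e : ℕ → ℕ} (he : StrictMono e) (hB : ∀ k, IsMinS B (e k))
    (he0 : ∀ k, 0 < e k) {M : ℕ → Bool} {A : CS}
    (hA : A.1 = mrg B {x | ∃ k, e k = x ∧ M k = false}) (x : ℕ) :
    ∀ κ, (∀ k, e k < x ↔ k < κ) → cnt A x + κ = Nat.count (IsMinS B) x + ones M κ := by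
  have hZ : ∀ z ∈ {x | ∃ k, e k = x ∧ M k = false}, IsMinS B z := by
    rintro z ⟨k, rfl, -⟩; exact hB k
  have hmin : ∀ m, 0 < m → (IsMin A m ↔ IsMinS B m ∧ m ∉ {x | ∃ k, e k = x ∧ M k = false}) := by
    intro m hm
    rw [← isMinS_mrg hZ m hm, ← hA]
    exact Iff.rfl
  induction x with
  | zero =>
    intro κ hκ
    have : κ = 0 := by
      by_contra h
      have := (hκ 0).2 (Nat.pos_of_ne_zero h)
      omega
    subst this
    simp [cnt, ones]
  | succ x ih =>
    intro κ hκ
    unfold cnt ones at ih ⊢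
    rw [Nat.count_succ, Nat.count_succ]
    by_cases hx : ∃ k0, e k0 = x
    · obtain ⟨k0, rfl⟩ := hx
      have hκ' : κ = k0 + 1 := by
        apply le_antisymm
        · by_contra hcon
          push Not at hcon
          have h1 := (hκ (k0 + 1)).2 hcon
          have h2 := he (Nat.lt_succ_self k0)
          simp only [Nat.succ_eq_add_one] at h2
          omega
        · exact (hκ k0).1 (Nat.lt_succ_self _)
      subst hκ'
      have h1 := ih k0 (fun k => he.lt_iff_lt)
      rw [Nat.count_succ]
      have h2 : IsMin A (e k0) ↔ M k0 = true := by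
        rw [hmin _ (he0 k0)]
        constructor
        · rintro ⟨-, h⟩
          by_contra hM
          exact h ⟨k0, rfl, by simpa using hM⟩
        · intro hM
          refine ⟨hB k0, ?_⟩
          rintro ⟨k, hk, hM'⟩
          rw [he.injective hk, hM] at hM'
          exact absurd hM' (by decide)
      rw [if_pos (hB k0)]
      by_cases hM : M k0 = true
      · rw [if_pos (h2.2 hM), if_pos hM]; omega
      · rw [if_neg (fun h => hM (h2.1 h)), if_neg hM]; omega
    · have h1 := ih κ (fun k => by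
        rw [← hκ k]
        constructor
        · intro h; omega
        · intro h
          have : e k ≠ x := fun hk => hx ⟨k, hk⟩
          omega)
      have h2 : IsMin A x ↔ IsMinS B x := by
        rcases Nat.eq_zero_or_pos x with h | h
        · subst h
          constructor
          · intro _ k hk; omega
          · intro _ k hk; omega
        · rw [hmin x h]
          constructor
          · exact fun h => h.1
          · intro hb
            refine ⟨hb, ?_⟩
            rintro ⟨k, hk, -⟩
            exact hx ⟨k, hk⟩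
      by_cases hb : IsMinS B x
      · rw [if_pos hb, if_pos (h2.2 hb)]; omega
      · rw [if_neg hb, if_neg (fun h => hb (h2.1 h))]; omega

/-- bounded difference of the counting functions of the minima -/
def EC (A B : CS) : Prop := ∃ K, ∀ n, cnt A n ≤ cnt B n + K ∧ cnt B n ≤ cnt A n + K

theorem EC_iff {B : Setoid ℕ} {e : ℕ → ℕ} (he : StrictMono e) (hB : ∀ k, IsMinS B (e k))
    (he0 : ∀ k, 0 < e k) {am : (ℕ → Bool) → CS}
    (hA : ∀ M, (am M).1 = mrg B {x | ∃ k, e k = x ∧ M k = false}) (M N : ℕ → Bool) :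
    EC (am M) (am N) ↔ ∃ K, ∀ n, ones M n ≤ ones N n + K ∧ ones N n ≤ ones M n + K := by
  classical
  constructor
  · rintro ⟨K, hK⟩
    refine ⟨K, fun n => ?_⟩
    have h1 := cnt_formula he hB he0 (hA M) (e n) n (fun k => he.lt_iff_lt)
    have h2 := cnt_formula he hB he0 (hA N) (e n) n (fun k => he.lt_iff_lt)
    have h3 := hK (e n)
    constructor <;> omega
  · rintro ⟨K, hK⟩
    refine ⟨K, fun x => ?_⟩
    have hex : ∃ κ, ∀ k, e k < x ↔ k < κ := by
      have hex' : ∃ κ, x ≤ e κ := ⟨x, he.id_le x⟩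
      refine ⟨Nat.find hex', fun k => ?_⟩
      constructor
      · intro h
        by_contra hcon
        push Not at hcon
        have h1 := Nat.find_spec hex'
        have h2 := he.monotone hcon
        omega
      · intro h
        have := Nat.find_min hex' h
        omega
    obtain ⟨κ, hκ⟩ := hex
    have h1 := cnt_formula he hB he0 (hA M) x κ hκ
    have h2 := cnt_formula he hB he0 (hA N) x κ hκ
    have h3 := hK κ
    constructor <;> omega

end Q215.CSp
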