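import Pool.Agent.Q215.CsC

/-!
# Bounded difference of the numbers of ones is not a countable union of closed smooth relations
-/

open Set Topology

namespace Q215.CSp

theorem ones_congr {f g : ℕ → Bool} {n : ℕ} (h : ∀ i < n, f i = g i) :
    ∀ j ≤ n, ones f j = ones g j := by
  classical
  intro j hj
  induction j with
  | zero => simp [ones]
  | succ j ih =>
    have h1 := ih (by omega)
    have h2 := h j (by omega)
    unfold ones at h1 ⊢
    rw [Nat.count_succ, Nat.count_succ, h1, h2]

theorem ones_add (f : ℕ → Bool) (n l : ℕ) :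
    ones f (n + l) = ones f n + ones (fun i => f (n + i)) l := by
  classical
  unfold ones
  rw [Nat.count_add]

theorem ones_thr (k l : ℕ) : ones (fun i => decide (i < k)) l = min l k := by
  classical
  induction l with
  | zero => simp [ones]
  | succ l ih =>
    unfold ones at ih ⊢
    rw [Nat.count_succ, ih]
    by_cases h : l < k
    · simp [h]; omega
    · simp [h]; omega

theorem continuous_ones (n : ℕ) : Continuous (fun M : ℕ → Bool => ones M n) := by
  classical
  induction n with
  | zero => simp only [ones, Nat.count_zero]; exact continuous_const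
  | succ n ih =>
    have : (fun M : ℕ → Bool => ones M (n + 1)) = fun M => ones M n + (if M n = true then 1 else 0) := by
      funext M
      unfold ones
      rw [Nat.count_succ]
    rw [this]
    refine ih.add ?_
    have h1 : Continuous (fun b : Bool => if b = true then 1 else 0) := continuous_of_discreteTopology
    exact h1.comp (continuous_apply n)

/-- pairs of points whose numbers of ones differ by at most one -/
def Pcl : Set ((ℕ → Bool) × (ℕ → Bool)) :=
  {p | ∀ n, ones p.1 n ≤ ones p.2 n + 1 ∧ ones p.2 n ≤ ones p.1 n + 1}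

theorem isClosed_Pcl : IsClosed Pcl := by
  have : Pcl = ⋂ n, (fun p : (ℕ → Bool) × (ℕ → Bool) => (ones p.1 n, ones p.2 n)) ⁻¹'
      {q : ℕ × ℕ | q.1 ≤ q.2 + 1 ∧ q.2 ≤ q.1 + 1} := by
    ext p
    simp [Pcl]
  rw [this]
  refine isClosed_iInter fun n => ?_
  exact (isClosed_discrete _).preimage
    (((continuous_ones n).comp continuous_fst).prodMk ((continuous_ones n).comp continuous_snd))

theorem open_cyl {V : Set (ℕ → Bool)} (hV : IsOpen V) {M : ℕ → Bool} (hM : M ∈ V) :
    ∃ n, ∀ M' : ℕ → Bool, (∀ i < n, M' i = M i) → M' ∈ V := by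
  obtain ⟨s, ⟨x, n, rfl⟩, hx, hs⟩ :=
    (PiNat.isTopologicalBasis_cylinders (fun _ : ℕ => Bool)).exists_subset_of_mem_open hM hV
  refine ⟨n, fun M' h => hs ?_⟩
  intro i hi
  rw [h i hi]
  exact hx i hi

theorem cantor_false (φ : ℕ → (ℕ → Bool) → (ℕ → Bool)) (hc : ∀ m, Continuous (φ m))
    (h : ∀ M N, (∃ K, ∀ n, ones M n ≤ ones N n + K ∧ ones N n ≤ ones M n + K) ↔
      ∃ m, φ m M = φ m N) : False := by
  classical
  have hcomp : CompactSpace Pcl := isCompact_iff_compactSpace.1 isClosed_Pcl.isCompact
  have hne : Nonempty Pcl := ⟨⟨(fun _ => false, fun _ => false), fun n => ⟨by simp, by simp⟩⟩⟩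
  let f : ℕ → Set Pcl := fun m => {p | φ m p.1.1 = φ m p.1.2}
  have hf : ∀ m, IsClosed (f m) := fun m =>
    isClosed_eq ((hc m).comp (continuous_fst.comp continuous_subtype_val))
      ((hc m).comp (continuous_snd.comp continuous_subtype_val))
  have hU : ⋃ m, f m = univ := by
    apply eq_univ_of_forall
    intro p
    obtain ⟨m, hm⟩ := (h p.1.1 p.1.2).1 ⟨1, p.2⟩
    exact mem_iUnion.2 ⟨m, hm⟩
  obtain ⟨m, p0, hp0⟩ := nonempty_interior_of_iUnion_of_closed hf hU
  obtain ⟨V, hV, hVf⟩ := isOpen_induced_iff.1 (isOpen_interior (s := f m))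
  have hp0V : p0.1 ∈ V := by
    have : p0 ∈ Subtype.val ⁻¹' V := by rw [hVf]; exact hp0
    exact this
  have hVm : ∀ p ∈ Pcl, p ∈ V → φ m p.1 = φ m p.2 := by
    intro p hp hpV
    have h1 : (⟨p, hp⟩ : Pcl) ∈ Subtype.val ⁻¹' V := hpV
    rw [hVf] at h1
    have h2 : (⟨p, hp⟩ : Pcl) ∈ f m := interior_subset h1
    exact h2
  obtain ⟨⟨M0, N0⟩, hP0⟩ := p0
  obtain ⟨V1, V2, hV1, hV2, hM0, hN0, hsub⟩ := isOpen_prod_iff.1 hV M0 N0 hp0V
  obtain ⟨n1, hn1⟩ := open_cyl hV1 hM0
  obtain ⟨n2, hn2⟩ := open_cyl hV2 hN0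
  set n := max n1 n2 with hn
  -- the points
  let X : ℕ → ℕ → Bool := fun k i => if i < n then M0 i else decide (i - n < k)
  let Y : ℕ → ℕ → Bool := fun k i => if i < n then N0 i else decide (i - n < k)
  have hXlow : ∀ k, ∀ i < n, X k i = M0 i := fun k i hi => by simp [X, hi]
  have hYlow : ∀ k, ∀ i < n, Y k i = N0 i := fun k i hi => by simp [Y, hi]
  have hXones : ∀ k l, ones (X k) (n + l) = ones M0 n + min l k := by
    intro k l
    rw [ones_add, ones_congr (hXlow k) n le_rfl]
    have : (fun i => X k (n + i)) = fun i => decide (i < k) := by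
      funext i; simp [X]
    rw [this, ones_thr]
  have hYones : ∀ k l, ones (Y k) (n + l) = ones N0 n + min l k := by
    intro k l
    rw [ones_add, ones_congr (hYlow k) n le_rfl]
    have : (fun i => Y k (n + i)) = fun i => decide (i < k) := by
      funext i; simp [Y]
    rw [this, ones_thr]
  have hXV : ∀ k, X k ∈ V1 := fun k => hn1 _ fun i hi => hXlow k i (hi.trans_le (le_max_left _ _))
  have hYV : ∀ k, Y k ∈ V2 := fun k => hn2 _ fun i hi => hYlow k i (hi.trans_le (le_max_right _ _))
  have hP : ∀ k k', (∀ l, ones M0 n + min l k ≤ ones N0 n + min l k' + 1 ∧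
      ones N0 n + min l k' ≤ ones M0 n + min l k + 1) → φ m (X k) = φ m (Y k') := by
    intro k k' hkk
    apply hVm (X k, Y k') _ (hsub ⟨hXV k, hYV k'⟩)
    intro j
    change ones (X k) j ≤ ones (Y k') j + 1 ∧ ones (Y k') j ≤ ones (X k) j + 1
    rcases le_total j n with hj | hj
    · rw [ones_congr (hXlow k) j hj, ones_congr (hYlow k') j hj]
      exact hP0 j
    · obtain ⟨l, rfl⟩ := Nat.exists_eq_add_of_le hj
      rw [hXones, hYones]
      exact hkk l
  have hn0 := hP0 n
  simp only at hn0
  have hstep : ∀ k, φ m (X (k + 1)) = φ m (X k) := by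
    intro k
    by_cases hδ : ones M0 n = ones N0 n + 1
    · rw [hP (k + 1) (k + 1) (fun l => by constructor <;> omega),
        hP k (k + 1) (fun l => by constructor <;> omega)]
    · rw [hP (k + 1) k (fun l => by constructor <;> omega),
        hP k k (fun l => by constructor <;> omega)]
  have hall : ∀ k, φ m (X k) = φ m (X 0) := by
    intro k
    induction k with
    | zero => rfl
    | succ k ih => rw [hstep, ih]
  -- the limit
  let Xi : ℕ → Bool := fun i => if i < n then M0 i else true
  have hlim : Filter.Tendsto X Filter.atTop (𝓝 Xi) := by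
    rw [tendsto_pi_nhds]
    intro i
    apply tendsto_const_nhds.congr'
    filter_upwards [Filter.eventually_gt_atTop i] with k hk
    by_cases hi : i < n
    · simp [X, Xi, hi]
    · simp only [X, Xi, hi, if_false]
      symm
      rw [decide_eq_true_eq]
      omega
  have hXi : φ m Xi = φ m (X 0) := by
    have h1 := ((hc m).tendsto Xi).comp hlim
    have h2 : (φ m ∘ X) = fun _ => φ m (X 0) := by
      funext k; exact hall k
    rw [h2] at h1
    exact (tendsto_nhds_unique h1 tendsto_const_nhds)
  obtain ⟨K, hK⟩ := (h Xi (X 0)).2 ⟨m, hXi⟩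
  have h1 := (hK (n + (K + 1))).1
  rw [hXones 0 (K + 1)] at h1
  have h2 : ones Xi (n + (K + 1)) = ones M0 n + (K + 1) := by
    rw [ones_add]
    have hlow : ∀ i < n, Xi i = M0 i := fun i hi => by simp [Xi, hi]
    rw [ones_congr hlow n le_rfl]
    congr 1
    have h3 : (fun i => Xi (n + i)) = fun _ => true := by
      funext i; simp [Xi]
    rw [h3]
    unfold ones
    simp
  rw [h2] at h1
  omega

end Q215.CSp
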