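import Mathlib

/-!
# The Carlson-Simpson space and Borel reducibility: definitions
-/

open Set Topology

namespace Q215.CSp

/-- The space of all equivalence relations on `ℕ` with infinitely many classes. -/
def CS : Type := {A : Setoid ℕ // Infinite (Quotient A)}

/-- `m` is the least element of its `A`-class. -/
def IsMin (A : CS) (m : ℕ) : Prop := ∀ k < m, ¬ A.1 k m

/-- `μ_n(A)`: the `n`-th least element of an `A`-class. -/
noncomputable def mu (A : CS) (n : ℕ) : ℕ := Nat.nth (IsMin A) n

open Classical in
/-- The point `x_A` of `2^(ℕ × ℕ)`: `x_A(n, m) = 1` iff `m` is `A`-equivalent to `μ_n(A)`. -/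
noncomputable def code (A : CS) : ℕ → ℕ → Bool := fun n m => decide (A.1 m (mu A n))

/-- The Polish topology of the space: the one transported by `A ↦ x_A`. -/
noncomputable instance : TopologicalSpace CS := TopologicalSpace.induced code inferInstance

/-- The Borel sets of the Polish topology. -/
noncomputable instance : MeasurableSpace CS := borel CS

instance : BorelSpace CS := ⟨rfl⟩

/-- `A ≤ B`: every `A`-class is a union of `B`-classes. -/
def Below (A B : CS) : Prop := ∀ i j, B.1 i j → A.1 i j

/-- A finite equivalence relation on an initial segment `{0, ..., len - 1}` of `ℕ`. -/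
structure FinRel where
  /-- the length of the initial segment -/
  len : ℕ
  /-- the relation -/
  rel : Setoid (Fin len)

/-- `s = r_n(A)`: `s` is the restriction of `A` to `{0, ..., μ_n(A) - 1}`. -/
def IsRestr (s : FinRel) (n : ℕ) (A : CS) : Prop :=
  s.len = mu A n ∧ ∀ i j : Fin s.len, s.rel i j ↔ A.1 i j

/-- The set `[s, B]`. -/
def box (s : FinRel) (B : CS) : Set CS := {A | Below A B ∧ ∃ n, IsRestr s n A}

/-- The topology generated by all sets `[s, A]`. -/
@[reducible] def ell : TopologicalSpace CS := TopologicalSpace.generateFrom {U | ∃ s A, U = box s A}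

/-- The `σ`-ideal of the sets which are meager in the topology generated by all `[s, A]`. -/
def Ideal (X : Set CS) : Prop := @IsMeagre CS ell X

/-- Borel reducibility `E ≤_B F`. -/
def BorelRed {X Y : Type*} [MeasurableSpace X] [MeasurableSpace Y]
    (E : X → X → Prop) (F : Y → Y → Prop) : Prop :=
  ∃ f : X → Y, Measurable f ∧ ∀ x x', E x x' ↔ F (f x) (f x')

/-- Smooth: Borel reducible to equality on `2^ℕ`. -/
def Smooth {X : Type*} [MeasurableSpace X] (E : X → X → Prop) : Prop :=
  BorelRed E (fun a b : ℕ → Bool => a = b)

/-- Hypersmooth: increasing union of a sequence of smooth equivalence relations. -/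
def Hypersmooth {X : Type*} [MeasurableSpace X] (E : X → X → Prop) : Prop :=
  ∃ En : ℕ → X → X → Prop, (∀ n, Equivalence (En n)) ∧ (∀ n, Smooth (En n)) ∧
    (∀ n x y, En n x y → En (n + 1) x y) ∧ ∀ x y, E x y ↔ ∃ n, En n x y

/-- The ideal canonizes `E` to `F`: every Borel set `B` outside the ideal contains a Borel
set `C` outside the ideal with `E` restricted to `C` Borel reducible to `F`. -/
def Canonizes (E : CS → CS → Prop) {Y : Type*} [MeasurableSpace Y] (F : Y → Y → Prop) : Prop :=
  ∀ B : Set CS, MeasurableSet B → ¬ Ideal B →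
    ∃ C : Set CS, C ⊆ B ∧ MeasurableSet C ∧ ¬ Ideal C ∧ BorelRed (fun x y : C => E x y) F

end Q215.CSp
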