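import Pool.Agent.Q215.CsD

/-!
# The relation `EC` is not hypersmooth on any Borel set outside the ideal
-/

open Set Topology

namespace Q215.CSp

theorem EC_equivalence : Equivalence EC := by
  constructor
  · intro A; exact ⟨0, fun n => ⟨le_rfl, le_rfl⟩⟩
  · rintro A B ⟨K, hK⟩; exact ⟨K, fun n => ⟨(hK n).2, (hK n).1⟩⟩
  · rintro A B C ⟨K, hK⟩ ⟨L, hL⟩
    refine ⟨K + L, fun n => ?_⟩
    have h1 := hK n
    have h2 := hL n
    constructor <;> omega

theorem measurableSet_isMin (m : ℕ) : MeasurableSet {A : CS | IsMin A m} := by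
  have : {A : CS | IsMin A m} = ⋃ j, {A : CS | mu A j = m} := by
    ext A
    simp only [mem_iUnion]
    constructor
    · intro h; exact exists_mu A h
    · rintro ⟨j, hj⟩
      have hj' : mu A j = m := hj
      change IsMin A m
      rw [← hj']; exact isMin_mu A j
  rw [this]
  exact MeasurableSet.iUnion fun j => ((isOpen_discrete {m}).preimage (continuous_mu j)).measurableSet

theorem measurable_cnt (n : ℕ) : Measurable (fun A : CS => cnt A n) := by
  classical
  induction n with
  | zero =>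
    have : (fun A : CS => cnt A 0) = fun _ => 0 := by funext A; simp [cnt]
    rw [this]; exact measurable_const
  | succ n ih =>
    have : (fun A : CS => cnt A (n + 1)) = fun A => cnt A n + (if IsMin A n then 1 else 0) := by
      funext A
      unfold cnt
      rw [Nat.count_succ]
    rw [this]
    exact ih.add (Measurable.ite (measurableSet_isMin n) measurable_const measurable_const)

theorem measurableSet_EC : MeasurableSet {p : CS × CS | EC p.1 p.2} := by
  have : {p : CS × CS | EC p.1 p.2} = ⋃ K, ⋂ n, {p : CS × CS | cnt p.1 n ≤ cnt p.2 n + K ∧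
      cnt p.2 n ≤ cnt p.1 n + K} := by
    ext p
    simp only [mem_iUnion, mem_iInter]
    exact Iff.rfl
  rw [this]
  refine MeasurableSet.iUnion fun K => MeasurableSet.iInter fun n => ?_
  have h1 : Measurable (fun p : CS × CS => cnt p.1 n) := (measurable_cnt n).comp measurable_fst
  have h2 : Measurable (fun p : CS × CS => cnt p.2 n) := (measurable_cnt n).comp measurable_snd
  have h3 := measurableSet_le h1 (h2.add_const K)
  have h4 := measurableSet_le h2 (h1.add_const K)
  exact h3.inter h4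

/-! ## The Borel sets of the Polish topology have the Baire property in the fine topology -/

theorem mu_of_agr {G A : CS} {d n : ℕ} (h : Agr G.1 A.1 d) (hn : mu A n < d) :
    mu G n = mu A n := by
  classical
  have hmin : IsMin G (mu A n) := isMin_of_agr h hn (isMin_mu A n)
  have hcount : Nat.count (IsMin G) (mu A n) = Nat.count (IsMin A) (mu A n) := by
    have key : ∀ j ≤ mu A n, Nat.count (IsMin G) j = Nat.count (IsMin A) j := by
      intro j hj
      induction j with
      | zero => simp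
      | succ j ih =>
        rw [Nat.count_succ, Nat.count_succ, ih (by omega)]
        have : IsMin G j ↔ IsMin A j :=
          ⟨fun hG => isMin_of_agr h.symm (by omega) hG, fun hA => isMin_of_agr h (by omega) hA⟩
        simp only [this]
    exact key _ le_rfl
  have h1 : Nat.nth (IsMin G) (Nat.count (IsMin G) (mu A n)) = mu A n := Nat.nth_count hmin
  rw [hcount] at h1
  have h2 : Nat.count (IsMin A) (mu A n) = n := Nat.count_nth_of_infinite (setOf_infinite A) n
  rw [h2] at h1
  exact h1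

theorem ell_le : ell ≤ (inferInstance : TopologicalSpace CS) := by
  change ell ≤ TopologicalSpace.induced code _
  rw [← continuous_iff_le_induced]
  refine @continuous_pi CS ℕ (fun _ => ℕ → Bool) ell _ code fun n => ?_
  refine @continuous_pi CS ℕ (fun _ => Bool) ell _ (fun A => code A n) fun m => ?_
  refine @Continuous.mk CS Bool ell _ _ fun s _ => ?_
  refine (@isOpen_iff_mem_nhds CS ell ((fun A => code A n m) ⁻¹' s)).2 fun A hA => ?_
  obtain ⟨d, hd, hdmin⟩ := good A (max m (mu A n) + 1)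
  refine (@mem_nhds_iff CS ell A _).2 ⟨nb A d, ?_, isOpen_nb A d, mem_nb_self A hdmin⟩
  rintro G ⟨-, -, hG⟩
  have h1 : mu A n < d := by
    have := le_max_right m (mu A n); omega
  have h2 : m < d := by
    have := le_max_left m (mu A n); omega
  have h3 : code G n m = code A n m := by
    unfold code
    rw [mu_of_agr hG h1]
    congr 1
    exact propext (hG m (mu A n) h2 h1)
  change code G n m ∈ s
  rw [h3]
  exact hA

theorem bp (S : Set CS) (hS : MeasurableSet S) :
    ∃ U, IsOpen[ell] U ∧ ∃ R ∈ @residual CS ell, ∀ x ∈ R, (x ∈ S ↔ x ∈ U) := by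
  have h1 : @MeasurableSet CS (@borel CS ell) S := borel_anti ell_le S hS
  obtain ⟨U, hU, hSU⟩ := @MeasurableSet.residualEq_isOpen CS ell S (@borel CS ell)
    (@BorelSpace.mk CS ell (@borel CS ell) rfl) h1
  refine ⟨U, hU, {x | x ∈ S ↔ x ∈ U}, ?_, fun x hx => hx⟩
  filter_upwards [hSU] with x hx
  exact iff_of_eq hx

theorem residual_seq {R : Set CS} (hR : R ∈ @residual CS ell) :
    ∃ O : ℕ → Set CS, (∀ k, IsOpen[ell] (O k)) ∧ (∀ k, @Dense CS ell (O k)) ∧ ⋂ k, O k ⊆ R := by
  obtain ⟨S, hS1, hS2, hS3, hS4⟩ := (@mem_residual_iff CS ell R).1 hR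
  by_cases hne : S.Nonempty
  · obtain ⟨O, hO⟩ := hS3.exists_eq_range hne
    refine ⟨O, fun k => hS1 _ (hO ▸ mem_range_self k), fun k => hS2 _ (hO ▸ mem_range_self k), ?_⟩
    rw [hO] at hS4
    rwa [sInter_range] at hS4
  · rw [not_nonempty_iff_eq_empty] at hne
    subst hne
    rw [sInter_empty] at hS4
    exact ⟨fun _ => univ, fun _ => @isOpen_univ CS ell, fun _ => @dense_univ CS ell,
      (subset_univ _).trans hS4⟩

/-- The combined statement: a copy of the Cantor space inside a comeager subset of a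
nonempty open set, along which countably many open sets are decided continuously. -/
theorem copy {R : Set CS} (hR : R ∈ @residual CS ell) (U0 : Set CS) (hU0 : IsOpen[ell] U0)
    (hne : U0.Nonempty) (U : ℕ → Set CS) (hU : ∀ k, IsOpen[ell] (U k)) :
    ∃ am : (ℕ → Bool) → CS, (∀ M, am M ∈ R) ∧ (∀ M, am M ∈ U0) ∧
      (∀ k M, ∀ M' : ℕ → Bool, (∀ i ≤ k, M' i = M i) → (am M' ∈ U k ↔ am M ∈ U k)) ∧
      (∀ M N, EC (am M) (am N) ↔ ∃ K, ∀ n, ones M n ≤ ones N n + K ∧ ones N n ≤ ones M n + K) := by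
  obtain ⟨O, hO1, hO2, hO3⟩ := residual_seq hR
  let 𝒟 : ℕ → Set (Set CS) := fun k => {V | IsOpen[ell] V ∧ V ⊆ O k ∧ (V ⊆ U k ∨ Disjoint V (U k))}
  have hopen : ∀ k, ∀ V ∈ 𝒟 k, IsOpen[ell] V := fun k V hV => hV.1
  have hdense : ∀ k, ∀ V : Set CS, IsOpen[ell] V → V.Nonempty → ∃ W ∈ 𝒟 k, (W ∩ V).Nonempty := by
    intro k V hV hVne
    have h1 : (V ∩ O k).Nonempty := @Dense.inter_open_nonempty CS ell _ (hO2 k) V hV hVne
    have h2 : IsOpen[ell] (V ∩ O k) := @IsOpen.inter CS ell _ _ hV (hO1 k)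
    by_cases h3 : ((V ∩ O k) ∩ U k).Nonempty
    · refine ⟨(V ∩ O k) ∩ U k, ⟨@IsOpen.inter CS ell _ _ h2 (hU k),
        inter_subset_left.trans inter_subset_right, Or.inl inter_subset_right⟩, ?_⟩
      obtain ⟨x, hx⟩ := h3
      exact ⟨x, hx, hx.1.1⟩
    · refine ⟨V ∩ O k, ⟨h2, inter_subset_right, Or.inr ?_⟩, ?_⟩
      · rw [disjoint_iff_inter_eq_empty]
        exact not_nonempty_iff_eq_empty.1 h3
      · obtain ⟨x, hx⟩ := h1
        exact ⟨x, hx, hx.1⟩
  obtain ⟨D, hD⟩ := hne
  obtain ⟨N, hN⟩ := exists_nb_subset hU0 D hD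
  obtain ⟨d, hd, hdmin⟩ := good D N
  obtain ⟨B, e, am, he, hB, he0, hA, ham0, ham⟩ := fusion 𝒟 hopen hdense D d hdmin
  refine ⟨am, ?_, fun M => hN d hd (ham0 M), ?_, fun M N => EC_iff he hB he0 hA M N⟩
  · intro M
    apply hO3
    rw [mem_iInter]
    intro k
    obtain ⟨V, hV, hV'⟩ := ham k M
    exact hV.2.1 (hV' M fun _ _ => rfl)
  · intro k M M' hM'
    obtain ⟨V, hV, hV'⟩ := ham k M
    have h1 := hV' M fun _ _ => rfl
    have h2 := hV' M' hM'
    rcases hV.2.2 with h | h
    · exact ⟨fun _ => h h1, fun _ => h h2⟩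
    · exact ⟨fun h3 => absurd h3 (disjoint_left.1 h h2), fun h3 => absurd h3 (disjoint_left.1 h h1)⟩

theorem nonempty_CS : Nonempty CS := by
  refine ⟨⟨⊥, infinite_of_good _ fun n => ⟨n, le_rfl, fun k hk h => ?_⟩⟩⟩
  have : k = n := h
  omega

theorem not_ideal_univ : ¬ Ideal (univ : Set CS) := by
  intro h
  have hR : (∅ : Set CS) ∈ @residual CS ell := by
    have h1 : (univ : Set CS)ᶜ ∈ @residual CS ell := h
    rwa [compl_univ] at h1
  obtain ⟨x⟩ := nonempty_CS
  obtain ⟨am, h1, -⟩ := copy hR univ (@isOpen_univ CS ell) ⟨x, mem_univ x⟩ (fun _ => univ)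
    (fun _ => @isOpen_univ CS ell)
  exact h1 (fun _ => true)

/-- **Main theorem.** On a Borel set outside the ideal, `EC` is not even a countable union of
smooth equivalence relations. -/
theorem not_hypersmooth {C : Set CS} (hC : MeasurableSet C) (hCI : ¬ Ideal C) :
    ¬ Hypersmooth (fun x y : C => EC x y) := by
  rintro ⟨En, -, hsm, -, hEn⟩
  choose f hfm hf using hsm
  -- Baire property of C
  obtain ⟨UC, hUC, RC, hRC, hCU⟩ := bp C hC
  have hUCne : UC.Nonempty := by
    by_contra hcon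
    rw [not_nonempty_iff_eq_empty] at hcon
    apply hCI
    change Cᶜ ∈ @residual CS ell
    refine Filter.mem_of_superset hRC fun x hx hxC => ?_
    have := (hCU x hx).1 hxC
    rw [hcon] at this
    exact this
  -- the sets S k
  let S : ℕ → Set CS := fun k => Subtype.val '' {x : C | f k.unpair.1 x k.unpair.2 = true}
  have hS : ∀ k, MeasurableSet (S k) := by
    intro k
    apply MeasurableSet.subtype_image hC
    have h1 : Measurable (fun x : C => f k.unpair.1 x k.unpair.2) :=
      (measurable_pi_apply k.unpair.2).comp (hfm k.unpair.1)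
    exact h1 (measurableSet_singleton true)
  choose U hU Rk hRk hSU using fun k => bp (S k) (hS k)
  have hR : RC ∩ ⋂ k, Rk k ∈ @residual CS ell :=
    Filter.inter_mem hRC (countable_iInter_mem.2 hRk)
  obtain ⟨am, h1, h2, h3, h4⟩ := copy hR UC hUC hUCne U hU
  have hamC : ∀ M, am M ∈ C := fun M => (hCU _ (h1 M).1).2 (h2 M)
  let φ : ℕ → (ℕ → Bool) → (ℕ → Bool) := fun m M => f m ⟨am M, hamC M⟩
  have hφ : ∀ m i M, φ m M i = true ↔ am M ∈ U (Nat.pair m i) := by
    intro m i M
    rw [← hSU (Nat.pair m i) (am M) (mem_iInter.1 (h1 M).2 _)]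
    constructor
    · intro h
      refine ⟨⟨am M, hamC M⟩, ?_, rfl⟩
      change f (Nat.unpair (Nat.pair m i)).1 ⟨am M, hamC M⟩ (Nat.unpair (Nat.pair m i)).2 = true
      rw [Nat.unpair_pair]
      exact h
    · rintro ⟨x, hx, hxM⟩
      have hx' : f (Nat.unpair (Nat.pair m i)).1 x (Nat.unpair (Nat.pair m i)).2 = true := hx
      rw [Nat.unpair_pair] at hx'
      have : x = ⟨am M, hamC M⟩ := Subtype.ext hxM
      rw [this] at hx'
      exact hx'
  have hcont : ∀ m, Continuous (φ m) := by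
    intro m
    apply continuous_pi
    intro i
    rw [continuous_discrete_rng]
    intro b
    rw [isOpen_iff_mem_nhds]
    intro M hM
    refine mem_nhds_iff.2 ⟨PiNat.cylinder M (Nat.pair m i + 1), ?_,
      PiNat.isOpen_cylinder _ _ _, PiNat.self_mem_cylinder _ _⟩
    intro M' hM'
    have h5 := h3 (Nat.pair m i) M M' fun j hj => hM' j (by omega)
    rw [← hφ, ← hφ] at h5
    have hM2 : φ m M i = b := hM
    change φ m M' i = b
    rw [← hM2]
    exact Bool.eq_iff_iff.2 h5
  apply cantor_false φ hcont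
  intro M N
  rw [← h4 M N]
  have h5 : EC (am M) (am N) ↔ _ := hEn ⟨am M, hamC M⟩ ⟨am N, hamC N⟩
  rw [h5]
  constructor
  · rintro ⟨m, hm⟩; exact ⟨m, (hf m _ _).1 hm⟩
  · rintro ⟨m, hm⟩; exact ⟨m, (hf m _ _).2 hm⟩

theorem Hypersmooth.comap {X Y : Type*} [MeasurableSpace X] [MeasurableSpace Y]
    {E : X → X → Prop} {F : Y → Y → Prop} (hF : Hypersmooth F) (h : BorelRed E F) :
    Hypersmooth E := by
  obtain ⟨g, hg, hEF⟩ := h
  obtain ⟨Fn, h1, h2, h3, h4⟩ := hF
  refine ⟨fun n x y => Fn n (g x) (g y), fun n => ?_, fun n => ?_, fun n x y => h3 n _ _,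
    fun x y => ?_⟩
  · exact ⟨fun x => (h1 n).refl _, fun h => (h1 n).symm h, fun h h' => (h1 n).trans h h'⟩
  · obtain ⟨f, hf, hfF⟩ := h2 n
    exact ⟨f ∘ g, hf.comp hg, fun x x' => hfF _ _⟩
  · rw [hEF, h4]

end Q215.CSp
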