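import Mathlib

set_option autoImplicit false

/-! Pairs of numbers, histories and runs of the edge-query game. -/

namespace Pool.Agent.Q215.Elus

/-- the pairs of distinct numbers -/
abbrev Pair : Type := {e : Sym2 ℕ // ¬ e.IsDiag}

/-- the finite histories -/
abbrev Hist : Type := List (Pair × Bool)

/-- the history of a run after `n` turns -/
def hist (r : ℕ → Pair × Bool) (n : ℕ) : Hist := (List.range n).map r

theorem hist_succ (r : ℕ → Pair × Bool) (n : ℕ) : hist r (n + 1) = hist r n ++ [r n] := by
  simp [hist, List.range_succ]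

theorem hist_length (r : ℕ → Pair × Bool) (n : ℕ) : (hist r n).length = n := by simp [hist]

theorem mem_hist (r : ℕ → Pair × Bool) (n : ℕ) (x : Pair × Bool) :
    x ∈ hist r n ↔ ∃ i < n, r i = x := by simp [hist]

/-- the histories against the strategy `τ` of Hider -/
inductive TG (τ : Hist → Pair → Bool) : Hist → Prop
  | nil : TG τ []
  | snoc (l : Hist) (e : Pair) : TG τ l → (∀ c, (e, c) ∉ l) → TG τ (l ++ [(e, τ l e)])

theorem TG.unique {τ : Hist → Pair → Bool} {l : Hist} (h : TG τ l) {e : Pair} {c d : Bool}
    (hc : (e, c) ∈ l) (hd : (e, d) ∈ l) : c = d := by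
  induction h with
  | nil => simp at hc
  | snoc l e' h1 h2 ih =>
    rw [List.mem_append, List.mem_singleton] at hc hd
    rcases hc with hc | hc <;> rcases hd with hd | hd
    · exact ih hc hd
    · have := (Prod.ext_iff.mp hd).1
      simp only at this
      rw [this] at hc
      exact absurd hc (h2 c)
    · have := (Prod.ext_iff.mp hc).1
      simp only at this
      rw [this] at hd
      exact absurd hd (h2 d)
    · rw [← hd] at hc
      exact (Prod.ext_iff.mp hc).2

/-- a run against `τ` -/
structure Run (τ : Hist → Pair → Bool) (r : ℕ → Pair × Bool) : Prop where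
  inj : Function.Injective (fun n => (r n).1)
  fol : ∀ n, (r n).2 = τ (hist r n) (r n).1

theorem Run.tg {τ : Hist → Pair → Bool} {r : ℕ → Pair × Bool} (h : Run τ r) (n : ℕ) :
    TG τ (hist r n) := by
  induction n with
  | zero => exact TG.nil
  | succ n ih =>
    rw [hist_succ]
    have : r n = ((r n).1, τ (hist r n) (r n).1) := Prod.ext rfl (h.fol n)
    rw [this]
    refine TG.snoc _ _ ih fun c hc => ?_
    rw [mem_hist] at hc
    obtain ⟨i, hi, he⟩ := hc
    have h1 : (r i).1 = (r n).1 := by rw [he]
    have := h.inj h1
    omega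

theorem TG.get {τ : Hist → Pair → Bool} {l : Hist} (h : TG τ l) (n : ℕ) (hn : n < l.length) :
    l[n].2 = τ (l.take n) l[n].1 := by
  induction h with
  | nil => simp at hn
  | snoc l e h1 h2 ih =>
    rw [List.length_append, List.length_singleton] at hn
    rcases Nat.lt_or_ge n l.length with h3 | h3
    · rw [List.getElem_append_left h3, List.take_append_of_le_length h3.le]
      exact ih h3
    · have h4 : n = l.length := by omega
      subst h4
      rw [List.getElem_append_right (le_refl _)]
      simp

theorem TG.nodup {τ : Hist → Pair → Bool} {l : Hist} (h : TG τ l) : (l.map Prod.fst).Nodup := by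
  induction h with
  | nil => simp
  | snoc l e h1 h2 ih =>
    rw [List.map_append, List.nodup_append]
    refine ⟨ih, by simp, ?_⟩
    intro a ha b hb
    simp only [List.map_cons, List.map_nil, List.mem_singleton] at hb
    subst hb
    rintro rfl
    obtain ⟨x, hx, rfl⟩ := List.mem_map.mp ha
    exact h2 x.2 hx

/-- the limit of a chain of histories -/
theorem chain_run (τ : Hist → Pair → Bool) (H : ℕ → Hist) (hTG : ∀ k, TG τ (H k))
    (hpre : ∀ k, H k <+: H (k + 1)) (hlen : ∀ k, k ≤ (H k).length) :
    ∃ r : ℕ → Pair × Bool, Run τ r ∧ (∀ k, H k = hist r (H k).length) ∧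
      (∀ x, (∃ n, r n = x) ↔ ∃ k, x ∈ H k) := by
  have hpre' : ∀ k m, k ≤ m → H k <+: H m := by
    intro k m hkm
    induction hkm with
    | refl => exact List.prefix_refl _
    | step _ ih => exact ih.trans (hpre _)
  have hget : ∀ k m n (h1 : n < (H k).length) (h2 : n < (H m).length), (H k)[n] = (H m)[n] := by
    intro k m n h1 h2
    rcases Nat.le_total k m with h | h
    · exact (hpre' k m h).getElem h1
    · exact ((hpre' m k h).getElem h2).symm
  let r : ℕ → Pair × Bool := fun n => (H (n + 1))[n]'(hlen (n + 1))
  have hr : ∀ k n (h : n < (H k).length), r n = (H k)[n] := fun k n h => hget _ _ _ _ _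
  have hH : ∀ k, H k = hist r (H k).length := by
    intro k
    apply List.ext_getElem
    · rw [hist_length]
    · intro n h1 h2
      simp only [hist, List.getElem_map, List.getElem_range]
      exact (hr k n h1).symm
  have hmem : ∀ x, (∃ n, r n = x) ↔ ∃ k, x ∈ H k := by
    intro x
    constructor
    · rintro ⟨n, rfl⟩
      exact ⟨n + 1, List.getElem_mem _⟩
    · rintro ⟨k, hk⟩
      obtain ⟨n, hn, rfl⟩ := List.getElem_of_mem hk
      exact ⟨n, hr k n hn⟩
  refine ⟨r, ⟨?_, ?_⟩, hH, hmem⟩
  · intro a b hab
    simp only at hab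
    let m := max (a + 1) (b + 1)
    have ha : a < (H m).length := lt_of_lt_of_le (by omega) (hlen m)
    have hb : b < (H m).length := lt_of_lt_of_le (by omega) (hlen m)
    rw [hr m a ha, hr m b hb] at hab
    have hnd := (hTG m).nodup
    have h3 := (List.nodup_iff_injective_get.mp hnd)
    have h4 := @h3 ⟨a, by simpa using ha⟩ ⟨b, by simpa using hb⟩ (by simpa using hab)
    simpa using h4
  · intro n
    have h1 : n < (H (n + 1)).length := hlen (n + 1)
    have h2 := (hTG (n + 1)).get n h1
    have h3 : (H (n + 1)).take n = hist r n := by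
      rw [hH (n + 1)]
      unfold hist
      rw [← List.map_take, List.take_range, Nat.min_eq_left h1.le]
    rw [h3] at h2
    exact h2

/-- consistent with the answers -/
def Cs (l : Set (Pair × Bool)) (G : Set Pair) : Prop := ∀ e c, (e, c) ∈ l → (e ∈ G ↔ c = true)

/-- `e` has been asked -/
def As (l : Hist) (e : Pair) : Prop := ∃ c, (e, c) ∈ l

instance : Countable Pair := by
  have : Countable (Sym2 ℕ) := (Sym2.mk_surjective (α := ℕ)).countable
  infer_instance

/-- a fixed numbering of the pairs -/
noncomputable def num : Pair → ℕ := (Countable.exists_injective_nat Pair).choose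

theorem num_inj : Function.Injective num := (Countable.exists_injective_nat Pair).choose_spec

/-- asking all the pairs that are eligible for a monotone notion of eligibility: the limit run asks
every pair that ever becomes eligible -/
theorem explore (τ : Hist → Pair → Bool) (El : Hist → Pair → Prop)
    (hmono : ∀ l l', l <+: l' → ∀ e, El l e → El l' e)
    (hex : ∀ l, TG τ l → ∃ e, El l e ∧ ¬ As l e) (h0 : Hist) (hTG : TG τ h0) :
    ∃ r, Run τ r ∧ hist r h0.length = h0 ∧
      (∀ n, h0.length ≤ n → El (hist r n) (r n).1) ∧
      (∀ n e, El (hist r n) e → ∃ m, (r m).1 = e) := by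
  classical
  have hmin : ∀ l, TG τ l → ∃ e, (El l e ∧ ¬ As l e) ∧ ∀ e', El l e' ∧ ¬ As l e' → num e ≤ num e' := by
    intro l hl
    obtain ⟨e, he⟩ := hex l hl
    have hP : ∃ k, ∃ e, (El l e ∧ ¬ As l e) ∧ num e = k := ⟨num e, e, he, rfl⟩
    obtain ⟨e1, he1, hk⟩ := Nat.find_spec hP
    refine ⟨e1, he1, fun e' he' => ?_⟩
    rw [hk]
    exact Nat.find_min' hP ⟨e', he', rfl⟩
  choose! N hN1 hN2 using hmin
  let H : ℕ → Hist := fun k => Nat.rec h0 (fun _ l => l ++ [(N l, τ l (N l))]) k
  have hH0 : H 0 = h0 := rfl
  have hHs : ∀ k, H (k + 1) = H k ++ [(N (H k), τ (H k) (N (H k)))] := fun k => rfl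
  have hHT : ∀ k, TG τ (H k) := by
    intro k
    induction k with
    | zero => exact hTG
    | succ k ih =>
      rw [hHs]
      exact TG.snoc _ _ ih fun c hc => (hN1 _ ih).2 ⟨c, hc⟩
  have hHl : ∀ k, (H k).length = h0.length + k := by
    intro k
    induction k with
    | zero => rfl
    | succ k ih => rw [hHs, List.length_append, ih, List.length_singleton]; omega
  obtain ⟨r, hr, hH, hmem⟩ := chain_run τ H hHT (fun k => by rw [hHs]; exact List.prefix_append _ _)
    (fun k => by rw [hHl]; omega)
  have hHk : ∀ k, hist r (h0.length + k) = H k := fun k => by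
    have := hH k
    rw [hHl] at this
    exact this.symm
  have hrn : ∀ k, r (h0.length + k) = (N (H k), τ (H k) (N (H k))) := by
    intro k
    have h1 := hHk (k + 1)
    rw [← add_assoc, hist_succ, hHs, hHk] at h1
    simpa using h1
  refine ⟨r, hr, hHk 0, ?_, ?_⟩
  · intro n hn
    obtain ⟨k, rfl⟩ := Nat.exists_eq_add_of_le hn
    rw [hrn, hHk]
    exact (hN1 _ (hHT k)).1
  · intro n e hel
    by_contra hno
    push Not at hno
    have hinj : Function.Injective (fun k => (r (h0.length + n + k)).1) := by
      intro a b hab
      have := hr.inj hab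
      omega
    have hle : ∀ k, num ((r (h0.length + n + k)).1) ≤ num e := by
      intro k
      rw [add_assoc, hrn]
      apply hN2 _ (hHT _)
      refine ⟨?_, ?_⟩
      · apply hmono (hist r n) _ _ _ hel
        rw [← hHk]
        have : h0.length + (n + k) = n + (h0.length + k) := by omega
        rw [this]
        unfold hist
        rw [List.range_add, List.map_append]
        exact List.prefix_append _ _
      · rintro ⟨c, hc⟩
        rw [← hHk, mem_hist] at hc
        obtain ⟨i, _, hi⟩ := hc
        exact hno i (by rw [hi])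
    have hfin : Set.Finite (Set.range (fun k => num ((r (h0.length + n + k)).1))) :=
      (Set.finite_Iic (num e)).subset (by rintro x ⟨k, rfl⟩; exact hle k)
    have hinj2 : Function.Injective (fun k => num ((r (h0.length + n + k)).1)) :=
      num_inj.comp hinj
    exact Set.infinite_range_of_injective hinj2 hfin

end Pool.Agent.Q215.Elus
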