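import Mathlib
import Pool.Agent.Q215.ElusA

set_option autoImplicit false

/-! The rigid graphs that code sequences of bits. -/

namespace Pool.Agent.Q215.Elus

/-- the vertices of the coding graphs: a hub, a ray, four leaves at its beginning, two vertices at
every later vertex of the ray -/
inductive Role : Type
  | z : Role
  | r : ℕ → Role
  | s : Fin 4 → Role
  | g : ℕ → Bool → Role
  deriving DecidableEq

open Role

/-- one direction of the adjacency -/
def Ba (x : ℕ → Bool) : Role → Role → Prop
  | z, r _ => True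
  | r i, r j => j = i + 1
  | r i, s _ => i = 0
  | r i, g j _ => i = j + 1
  | g i b, g j c => i = j ∧ b = false ∧ c = true ∧ x i = true
  | _, _ => False

/-- the adjacency -/
def A (x : ℕ → Bool) (a b : Role) : Prop := Ba x a b ∨ Ba x b a

theorem A_symm {x : ℕ → Bool} {a b : Role} (h : A x a b) : A x b a := h.symm

theorem A_comm (x : ℕ → Bool) (a b : Role) : A x a b ↔ A x b a := ⟨A_symm, A_symm⟩

theorem A_z (x : ℕ → Bool) (a : Role) : A x z a ↔ ∃ i, a = r i := by
  cases a <;> simp [A, Ba]

theorem A_r0 (x : ℕ → Bool) (a : Role) : A x (r 0) a ↔ a = z ∨ a = r 1 ∨ ∃ j, a = s j := by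
  cases a <;> simp [A, Ba]

theorem A_rs (x : ℕ → Bool) (i : ℕ) (a : Role) : A x (r (i + 1)) a ↔
    a = z ∨ a = r i ∨ a = r (i + 2) ∨ a = g i false ∨ a = g i true := by
  cases a with
  | z => simp [A, Ba]
  | r k => simp only [A, Ba]; simp; omega
  | s j => simp [A, Ba]
  | g k b => cases b <;> simp [A, Ba, eq_comm]

theorem A_s (x : ℕ → Bool) (j : Fin 4) (a : Role) : A x (s j) a ↔ a = r 0 := by
  cases a <;> simp [A, Ba]

theorem A_g (x : ℕ → Bool) (i : ℕ) (b : Bool) (a : Role) : A x (g i b) a ↔
    a = r (i + 1) ∨ (a = g i (!b) ∧ x i = true) := by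
  cases a with
  | z => simp [A, Ba]
  | r k => simp [A, Ba]
  | s j => simp [A, Ba]
  | g k c =>
    simp only [A, Ba]
    constructor
    · rintro (⟨rfl, rfl, rfl, h⟩ | ⟨rfl, rfl, rfl, h⟩) <;> simp [h]
    · rintro (h | ⟨h1, h2⟩)
      · simp at h
      · simp only [Role.g.injEq] at h1
        obtain ⟨rfl, rfl⟩ := h1
        cases b <;> simp [h2]

/-- the neighbours of the vertices other than the hub -/
def nb (x : ℕ → Bool) : Role → Finset Role
  | z => ∅
  | r 0 => {z, r 1, s 0, s 1, s 2, s 3}
  | r (i + 1) => {z, r i, r (i + 2), g i false, g i true}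
  | s _ => {r 0}
  | g i b => if x i = true then {r (i + 1), g i (!b)} else {r (i + 1)}

theorem mem_nb (x : ℕ → Bool) (a b : Role) (ha : a ≠ z) : b ∈ nb x a ↔ A x a b := by
  match a with
  | z => exact absurd rfl ha
  | r 0 =>
    rw [A_r0]
    simp only [nb, Finset.mem_insert, Finset.mem_singleton]
    constructor
    · rintro (h | h | h | h | h | h)
      · exact Or.inl h
      · exact Or.inr (Or.inl h)
      all_goals exact Or.inr (Or.inr ⟨_, h⟩)
    · rintro (h | h | ⟨j, h⟩)
      · exact Or.inl h
      · exact Or.inr (Or.inl h)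
      · fin_cases j <;> simp_all
  | r (i + 1) =>
    rw [A_rs]
    simp only [nb, Finset.mem_insert, Finset.mem_singleton]
  | s j =>
    rw [A_s]
    simp only [nb, Finset.mem_singleton]
  | g i c =>
    rw [A_g]
    by_cases hx : x i = true <;> simp [nb, hx]

theorem card_r0 (x : ℕ → Bool) : (nb x (r 0)).card = 6 := by
  have h : ({z, r 1, s 0, s 1, s 2, s 3} : Finset Role).card = 6 := by decide
  exact h

theorem card_rs (x : ℕ → Bool) (i : ℕ) : (nb x (r (i + 1))).card = 5 := by
  have h : ({z, r i, r (i + 2), g i false, g i true} : Finset Role).card = 5 := by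
    rw [Finset.card_insert_of_notMem, Finset.card_insert_of_notMem, Finset.card_insert_of_notMem,
      Finset.card_insert_of_notMem, Finset.card_singleton] <;> simp
  exact h

theorem card_s (x : ℕ → Bool) (j : Fin 4) : (nb x (s j)).card = 1 := by simp [nb]

theorem card_g (x : ℕ → Bool) (i : ℕ) (b : Bool) : (nb x (g i b)).card ≤ 2 := by
  show (if x i = true then ({r (i + 1), g i (!b)} : Finset Role) else {r (i + 1)}).card ≤ 2
  split_ifs
  · exact Finset.card_le_two
  · simp

theorem card_r (x : ℕ → Bool) (i : ℕ) : 5 ≤ (nb x (r i)).card := by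
  cases i with
  | zero => rw [card_r0]; norm_num
  | succ i => rw [card_rs]

theorem card_le (x : ℕ → Bool) (a : Role) : (nb x a).card ≤ 6 := by
  match a with
  | z => simp [nb]
  | r 0 => rw [card_r0]
  | r (i + 1) => rw [card_rs]; norm_num
  | s j => rw [card_s]; norm_num
  | g i b => exact (card_g x i b).trans (by norm_num)

theorem card_small (x : ℕ → Bool) (a : Role) (ha : ∀ i, a ≠ r i) : (nb x a).card ≤ 2 := by
  match a with
  | z => simp [nb]
  | r i => exact absurd rfl (ha i)
  | s j => rw [card_s]; norm_num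
  | g i b => exact card_g x i b

theorem eq_r0 (x : ℕ → Bool) (a : Role) (h : 6 ≤ (nb x a).card) : a = r 0 := by
  match a with
  | z => simp [nb] at h
  | r 0 => rfl
  | r (i + 1) => rw [card_rs] at h; omega
  | s j => rw [card_s] at h; omega
  | g i b => have := card_g x i b; omega

/-- a bijection of the vertices which changes only one adjacency -/
theorem one_edge (x x' : ℕ → Bool) (φ : Role ≃ Role) (a0 b0 : Role) (hab : a0 ≠ b0)
    (h1 : ∀ a b, ¬ (a = a0 ∧ b = b0) → ¬ (a = b0 ∧ b = a0) → (A x' (φ a) (φ b) ↔ A x a b))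
    (h2 : A x' (φ a0) (φ b0) ↔ ¬ A x a0 b0) :
    ∃ i b, a0 = g i b ∧ b0 = g i (!b) := by
  classical
  -- the hub
  have hz : φ z = z := by
    by_contra hne
    have hfin : ({i : ℕ | r i ≠ a0 ∧ r i ≠ b0}).Infinite := by
      have : ({i : ℕ | r i ≠ a0 ∧ r i ≠ b0}ᶜ).Finite := by
        have h3 : ({i : ℕ | r i ≠ a0 ∧ r i ≠ b0}ᶜ) ⊆ {i | r i = a0} ∪ {i | r i = b0} := by
          intro i hi
          simp only [Set.mem_compl_iff, Set.mem_ofPred_eq, not_and_or, not_not] at hi
          exact hi
        refine Set.Finite.subset (Set.Finite.union ?_ ?_) h3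
        · apply Set.Subsingleton.finite
          intro i hi j hj
          have : r i = r j := Eq.trans hi hj.symm
          exact Role.r.inj this
        · apply Set.Subsingleton.finite
          intro i hi j hj
          have : r i = r j := Eq.trans hi hj.symm
          exact Role.r.inj this
      exact Set.infinite_of_finite_compl this
    have h4 : Set.MapsTo (fun i => φ (r i)) {i : ℕ | r i ≠ a0 ∧ r i ≠ b0} (nb x' (φ z) : Set Role) := by
      intro i hi
      rw [Finset.mem_coe, mem_nb x' _ _ hne, h1 _ _ (fun h => hi.2 h.2) (fun h => hi.1 h.2), A_z]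
      exact ⟨i, rfl⟩
    have h5 : Set.InjOn (fun i => φ (r i)) {i : ℕ | r i ≠ a0 ∧ r i ≠ b0} := by
      intro i _ j _ h
      exact Role.r.inj (φ.injective h)
    exact hfin (Set.Finite.of_injOn h4 h5 (Finset.finite_toSet _))
  have hne : ∀ a, a ≠ z → φ a ≠ z := fun a ha h => ha (φ.injective (h.trans hz.symm))
  -- the degrees
  have d1 : ∀ a, a ≠ z → a ≠ a0 → a ≠ b0 → (nb x' (φ a)).card = (nb x a).card := by
    intro a ha h3 h4
    have : nb x' (φ a) = (nb x a).map φ.toEmbedding := by
      ext c
      rw [mem_nb x' _ _ (hne a ha), Finset.mem_map_equiv, mem_nb x _ _ ha]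
      have := h1 a (φ.symm c) (fun h => h3 h.1) (fun h => h4 h.1)
      rwa [Equiv.apply_symm_apply] at this
    rw [this, Finset.card_map]
  have gen : ∀ p q, p ≠ q → p ≠ z →
      (∀ a b, ¬ (a = p ∧ b = q) → ¬ (a = q ∧ b = p) → (A x' (φ a) (φ b) ↔ A x a b)) →
      (A x' (φ p) (φ q) ↔ ¬ A x p q) →
      (A x p q → (nb x' (φ p)).card + 1 = (nb x p).card) ∧
      (¬ A x p q → (nb x' (φ p)).card = (nb x p).card + 1) := by
    intro p q hpq hp k1 k2
    constructor
    · intro hA
      have : nb x' (φ p) = ((nb x p).erase q).map φ.toEmbedding := by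
        ext c
        rw [mem_nb x' _ _ (hne p hp), Finset.mem_map_equiv, Finset.mem_erase, mem_nb x _ _ hp]
        by_cases hc : φ.symm c = q
        · have : c = φ q := by rw [← hc, Equiv.apply_symm_apply]
          rw [this, k2, Equiv.symm_apply_apply]
          simp [hA]
        · have := k1 p (φ.symm c) (fun h => hc h.2) (fun h => hpq h.1)
          rw [Equiv.apply_symm_apply] at this
          rw [this]
          simp [hc]
      rw [this, Finset.card_map, Finset.card_erase_of_mem ((mem_nb x _ _ hp).mpr hA)]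
      have : 0 < (nb x p).card := Finset.card_pos.mpr ⟨q, (mem_nb x _ _ hp).mpr hA⟩
      omega
    · intro hA
      have : nb x' (φ p) = (insert q (nb x p)).map φ.toEmbedding := by
        ext c
        rw [mem_nb x' _ _ (hne p hp), Finset.mem_map_equiv, Finset.mem_insert, mem_nb x _ _ hp]
        by_cases hc : φ.symm c = q
        · have : c = φ q := by rw [← hc, Equiv.apply_symm_apply]
          rw [this, k2, Equiv.symm_apply_apply]
          simp [hA]
        · have := k1 p (φ.symm c) (fun h => hc h.2) (fun h => hpq h.1)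
          rw [Equiv.apply_symm_apply] at this
          rw [this]
          simp [hc]
      rw [this, Finset.card_map, Finset.card_insert_of_notMem (fun h => hA ((mem_nb x _ _ hp).mp h))]
  have h1' : ∀ a b, ¬ (a = b0 ∧ b = a0) → ¬ (a = a0 ∧ b = b0) → (A x' (φ a) (φ b) ↔ A x a b) :=
    fun a b k1 k2 => h1 a b k2 k1
  have h2' : A x' (φ b0) (φ a0) ↔ ¬ A x b0 a0 := by rw [A_comm x', h2, A_comm x]
  -- the hub is not concerned
  have hzc : ∀ p q, p ≠ q →
      (∀ a b, ¬ (a = p ∧ b = q) → ¬ (a = q ∧ b = p) → (A x' (φ a) (φ b) ↔ A x a b)) →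
      (A x' (φ p) (φ q) ↔ ¬ A x p q) → q ≠ z := by
    intro p q hpq k1 k2 hq
    subst hq
    have hp : p ≠ z := hpq
    obtain ⟨e1, e2⟩ := gen p z hp hp k1 k2
    rw [hz] at k2
    by_cases hA : A x p z
    · have h3 := e1 hA
      obtain ⟨i, rfl⟩ := (A_z x p).mp (A_symm hA)
      have h4 := card_r x i
      have h5 : ∀ j, φ (r i) ≠ r j := by
        intro j hj
        exact (k2.mp (A_symm ((A_z x' _).mpr ⟨j, hj⟩))) hA
      have := card_small x' _ h5
      omega
    · have h3 := e2 hA
      obtain ⟨j, hj⟩ := (A_z x' _).mp (A_symm (k2.mpr hA))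
      have h4 : ∀ i, p ≠ r i := fun i hi => hA (A_symm ((A_z x p).mpr ⟨i, hi⟩))
      have h5 := card_small x p h4
      rw [hj] at h3
      have := card_r x' j
      omega
  have hb0 : b0 ≠ z := hzc a0 b0 hab h1 h2
  have ha0 : a0 ≠ z := hzc b0 a0 hab.symm h1' h2'
  have hray : ∀ a, (∃ i, a = r i) ↔ ∃ j, φ a = r j := by
    intro a
    rw [← A_z x, ← A_z x']
    have := h1 z a (fun h => ha0 h.1.symm) (fun h => hb0 h.1.symm)
    rw [hz] at this
    exact this.symm
  -- the ray is not concerned
  have hrc : ∀ p q, p ≠ q → p ≠ z → q ≠ z →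
      (∀ a b, ¬ (a = p ∧ b = q) → ¬ (a = q ∧ b = p) → (A x' (φ a) (φ b) ↔ A x a b)) →
      (A x' (φ p) (φ q) ↔ ¬ A x p q) →
      (∀ a, a ≠ z → a ≠ p → a ≠ q → (nb x' (φ a)).card = (nb x a).card) → ∀ k, p ≠ r k := by
    intro p q hpq hp hq k1 k2 k3 k hk
    obtain ⟨e1, e2⟩ := gen p q hpq hp k1 k2
    have k1' : ∀ a b, ¬ (a = q ∧ b = p) → ¬ (a = p ∧ b = q) → (A x' (φ a) (φ b) ↔ A x a b) :=
      fun a b m1 m2 => k1 a b m2 m1
    have k2' : A x' (φ q) (φ p) ↔ ¬ A x q p := by rw [A_comm x', k2, A_comm x]
    obtain ⟨f1, f2⟩ := gen q p hpq.symm hq k1' k2'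
    have hr0z : (r 0) ≠ z := by simp
    obtain ⟨j, hj⟩ := (hray p).mp ⟨k, hk⟩
    by_cases hA : A x p q
    · have e := e1 hA
      have f := f1 (A_symm hA)
      -- the preimage of the beginning
      obtain ⟨c, hc⟩ := φ.surjective (r 0)
      have hcz : c ≠ z := by rintro rfl; rw [hz] at hc; simp at hc
      have hc6 : (nb x' (φ c)).card = 6 := by rw [hc, card_r0]
      have hle : 6 ≤ (nb x c).card := by
        by_cases hcp : c = p
        · rw [hcp] at hc6 ⊢; omega
        · by_cases hcq : c = q
          · rw [hcq] at hc6 ⊢; omega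
          · rw [← k3 c hcz hcp hcq, hc6]
      have hc0 := eq_r0 x c hle
      have hcard := card_r0 x
      by_cases hcp : c = p
      · rw [← hcp, hc0] at e; rw [hc0] at hc6; omega
      · by_cases hcq : c = q
        · rw [← hcq, hc0] at f; rw [hc0] at hc6; omega
        · -- `p` has too few neighbours
          rw [hj] at e
          have hj0 : j ≠ 0 := by
            rintro rfl
            exact hcp (φ.injective (hc.trans hj.symm))
          have hk0 : k ≠ 0 := by
            rintro rfl
            exact hcp (hc0.trans hk.symm)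
          obtain ⟨j', rfl⟩ := Nat.exists_eq_succ_of_ne_zero hj0
          obtain ⟨k', rfl⟩ := Nat.exists_eq_succ_of_ne_zero hk0
          rw [hk] at e
          have c1 := card_rs x' j'
          have c2 := card_rs x k'
          simp only [Nat.succ_eq_add_one] at e
          omega
    · have e := e2 hA
      have f := f2 (fun h => hA (A_symm h))
      have hcard := card_r0 x
      have hle := card_le x' (φ p)
      have hle2 := card_le x' (φ q)
      by_cases hp0 : p = r 0
      · rw [hp0] at e hle; omega
      · by_cases hq0 : q = r 0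
        · rw [hq0] at f hle2; omega
        · have h0 : φ (r 0) = r 0 := by
            apply eq_r0 x'
            rw [k3 (r 0) hr0z (Ne.symm hp0) (Ne.symm hq0), hcard]
          have h6 : 6 ≤ (nb x' (φ p)).card := by
            rw [e, hk]
            have := card_r x k
            omega
          have := eq_r0 x' _ h6
          exact hp0 (φ.injective (this.trans h0.symm))
  have ha : ∀ k, a0 ≠ r k := hrc a0 b0 hab ha0 hb0 h1 h2 d1
  have hb : ∀ k, b0 ≠ r k := hrc b0 a0 hab.symm hb0 ha0 h1' h2' (fun a m1 m2 m3 => d1 a m1 m3 m2)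
  by_cases hA : A x a0 b0
  · match a0, ha0, ha with
    | z, k, _ => exact absurd rfl k
    | r i, _, k => exact absurd rfl (k i)
    | s j, _, _ =>
      rw [A_s] at hA
      exact absurd hA (hb 0)
    | g i c, _, _ =>
      rw [A_g] at hA
      rcases hA with h | h
      · exact absurd h (hb _)
      · exact ⟨i, c, rfl, h.1⟩
  · have hA' := h2.mpr hA
    have ha' : ∀ k, φ a0 ≠ r k := fun k hk => by
      obtain ⟨i, hi⟩ := (hray a0).mpr ⟨k, hk⟩
      exact ha i hi
    have hb' : ∀ k, φ b0 ≠ r k := fun k hk => by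
      obtain ⟨i, hi⟩ := (hray b0).mpr ⟨k, hk⟩
      exact hb i hi
    obtain ⟨i, c, hi, hi'⟩ : ∃ i c, φ a0 = g i c ∧ φ b0 = g i (!c) := by
      rcases hφ : φ a0 with _ | k | k | ⟨i, c⟩
      · exact absurd hφ (hne _ ha0)
      · exact absurd hφ (ha' k)
      · rw [hφ, A_s] at hA'
        exact absurd hA' (hb' 0)
      · rw [hφ, A_g] at hA'
        rcases hA' with h | h
        · exact absurd h (hb' _)
        · exact ⟨i, c, rfl, h.1⟩
    obtain ⟨c0, hc0⟩ := φ.surjective (r (i + 1))
    obtain ⟨k, hk⟩ := (hray c0).mpr ⟨i + 1, hc0⟩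
    have hca : c0 ≠ a0 := fun h => ha k (h.symm.trans hk)
    have hcb : c0 ≠ b0 := fun h => hb k (h.symm.trans hk)
    have e1 : A x c0 a0 := by
      rw [← h1 c0 a0 (fun h => hca h.1) (fun h => hcb h.1), hc0, hi, A_comm, A_g]
      exact Or.inl rfl
    have e2 : A x c0 b0 := by
      rw [← h1 c0 b0 (fun h => hca h.1) (fun h => hcb h.1), hc0, hi', A_comm, A_g]
      exact Or.inl rfl
    cases k with
    | zero =>
      have : φ c0 = r 0 := by
        apply eq_r0 x'
        rw [d1 c0 (by rw [hk]; simp) hca hcb, hk, card_r0]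
      rw [this] at hc0
      simp at hc0
    | succ k =>
      rw [hk, A_rs] at e1 e2
      have f1 : a0 = g k false ∨ a0 = g k true := by
        rcases e1 with h | h | h | h | h
        · exact absurd h ha0
        · exact absurd h (ha _)
        · exact absurd h (ha _)
        · exact Or.inl h
        · exact Or.inr h
      have f2 : b0 = g k false ∨ b0 = g k true := by
        rcases e2 with h | h | h | h | h
        · exact absurd h hb0
        · exact absurd h (hb _)
        · exact absurd h (hb _)
        · exact Or.inl h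
        · exact Or.inr h
      rcases f1 with f1 | f1 <;> rcases f2 with f2 | f2
      · exact absurd (f1.trans f2.symm) hab
      · exact ⟨k, false, f1, f2⟩
      · exact ⟨k, true, f1, f2⟩
      · exact absurd (f1.trans f2.symm) hab

end Pool.Agent.Q215.Elus
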