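import Mathlib

set_option autoImplicit false

/-! A three-valued function of four bits which is evasive, although an evasive adversary cannot
guarantee any single final value. -/

namespace Pool.Agent.Q215.Elus

/-- the function of four bits -/
def kap (u : Fin 4 → Bool) : ℕ :=
  match u 3, u 2, u 1, u 0 with
  | false, false, false, false => 0
  | false, false, false, true => 0
  | false, false, true, false => 0
  | false, false, true, true => 0
  | false, true, false, false => 0
  | false, true, false, true => 1
  | false, true, true, false => 0
  | false, true, true, true => 1
  | true, false, false, false => 2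
  | true, false, false, true => 0
  | true, false, true, false => 2
  | true, false, true, true => 1
  | true, true, false, false => 1
  | true, true, false, true => 1
  | true, true, true, false => 0
  | true, true, true, true => 1

/-- the partial assignments of the four bits -/
abbrev St : Type := Fin 4 → Option Bool

/-- give the value `a` to the bit `j` -/
def up (st : St) (j : Fin 4) (a : Bool) : St := fun i => if i = j then some a else st i

/-- complete an assignment -/
def fl (st : St) : Fin 4 → Bool := fun i => (st i).getD false

/-- the adversary can keep the last question decisive; `n` bits are unassigned -/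
def good : ℕ → St → Prop
  | 0, _ => True
  | 1, st => ∀ j, st j = none → kap (fl (up st j false)) ≠ kap (fl (up st j true))
  | n + 2, st => ∀ j, st j = none → ∃ a, good (n + 1) (up st j a)

instance decGood : ∀ n st, Decidable (good n st)
  | 0, _ => inferInstanceAs (Decidable True)
  | 1, st => inferInstanceAs (Decidable (∀ j, st j = none →
      kap (fl (up st j false)) ≠ kap (fl (up st j true))))
  | n + 2, st => by
      have : ∀ st, Decidable (good (n + 1) st) := decGood (n + 1)
      exact inferInstanceAs (Decidable (∀ j, st j = none → ∃ a, good (n + 1) (up st j a)))

/-- the questioner can force a value different from `c`, or an indecisive last question -/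
def fw : ℕ → ℕ → St → Prop
  | 0, c, st => kap (fl st) ≠ c
  | 1, c, st => ∀ j, st j = none → kap (fl (up st j false)) ≠ kap (fl (up st j true)) →
      ∀ a, kap (fl (up st j a)) ≠ c
  | n + 2, c, st => ∃ j, st j = none ∧ ∀ a, fw (n + 1) c (up st j a)

instance decFw : ∀ n c st, Decidable (fw n c st)
  | 0, c, st => inferInstanceAs (Decidable (kap (fl st) ≠ c))
  | 1, c, st => inferInstanceAs (Decidable (∀ j, st j = none →
      kap (fl (up st j false)) ≠ kap (fl (up st j true)) → ∀ a, kap (fl (up st j a)) ≠ c))
  | n + 2, c, st => by
      have : ∀ c st, Decidable (fw (n + 1) c st) := decFw (n + 1)
      exact inferInstanceAs (Decidable (∃ j, st j = none ∧ ∀ a, fw (n + 1) c (up st j a)))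

theorem good_start : good 4 (fun _ => none) := by decide

theorem fw_start0 : fw 4 0 (fun _ => none) := by decide
theorem fw_start1 : fw 4 1 (fun _ => none) := by decide
theorem fw_start2 : fw 4 2 (fun _ => none) := by decide

end Pool.Agent.Q215.Elus
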