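import Mathlib
import Pool.Agent.Q215.ElusB
import Pool.Agent.Q215.ElusC

set_option autoImplicit false

/-! Graphs which code sequences of bits: decoding, uniqueness, changes of one pair. -/

namespace Pool.Agent.Q215.Elus

open Role

/-- the level of a vertex -/
def lv : Role → ℕ
  | z => 0
  | r i => i
  | s _ => 0
  | g i _ => i + 1

/-- the graph without variable edges -/
def sk (a b : Role) : Prop := A (fun _ => false) a b

theorem sk_A {x : ℕ → Bool} {a b : Role} (h : sk a b) : A x a b := by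
  unfold sk at h
  cases a with
  | z => rwa [A_z] at h ⊢
  | r i =>
    cases i with
    | zero => rwa [A_r0] at h ⊢
    | succ i => rwa [A_rs] at h ⊢
  | s j => rwa [A_s] at h ⊢
  | g i c =>
    rw [A_g] at h ⊢
    rcases h with h | h
    · exact Or.inl h
    · exact absurd h.2 (by simp)

/-- the hub, the ray and the variable pairs up to a level are determined by the edges -/
theorem pinned (x' : ℕ → Bool) (φ : Role ≃ Role) (n : ℕ) (hn : 6 ≤ n)
    (h : ∀ a b, sk a b → lv a ≤ n → lv b ≤ n → A x' (φ a) (φ b)) :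
    φ z = z ∧ (∀ i, i ≤ n → φ (r i) = r i) ∧
      (∀ i, i + 2 ≤ n → ∀ b, ∃ b', φ (g i b) = g i b') := by
  classical
  have hz : φ z = z := by
    by_contra hne
    have h1 : (Finset.univ.image fun i : Fin 7 => φ (r i.val)) ⊆ nb x' (φ z) := by
      intro c hc
      rw [Finset.mem_image] at hc
      obtain ⟨i, _, rfl⟩ := hc
      rw [mem_nb x' _ _ hne]
      apply h
      · exact (A_z _ _).mpr ⟨_, rfl⟩
      · exact Nat.zero_le _
      · show i.val ≤ n
        omega
    have h2 : (Finset.univ.image fun i : Fin 7 => φ (r i.val)).card = 7 := by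
      rw [Finset.card_image_of_injective]
      · simp
      · intro i j hij
        exact Fin.ext (Role.r.inj (φ.injective hij))
    have h3 := Finset.card_le_card h1
    have h4 := card_le x' (φ z)
    omega
  have h0 : φ (r 0) = r 0 := by
    have hne : φ (r 0) ≠ z := by
      intro hc
      have := φ.injective (hc.trans hz.symm)
      simp at this
    apply eq_r0 x'
    have h1 : ({z, r 1, s 0, s 1, s 2, s 3} : Finset Role).map φ.toEmbedding ⊆ nb x' (φ (r 0)) := by
      intro c hc
      rw [Finset.mem_map] at hc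
      obtain ⟨d, hd, rfl⟩ := hc
      rw [mem_nb x' _ _ hne]
      have hd' : sk (r 0) d := (mem_nb (fun _ => false) (r 0) d (by simp)).mp hd
      apply h _ _ hd'
      · exact Nat.zero_le _
      · simp only [Finset.mem_insert, Finset.mem_singleton] at hd
        rcases hd with rfl | rfl | rfl | rfl | rfl | rfl <;> simp [lv]
        omega
    have h2 := Finset.card_le_card h1
    rw [Finset.card_map] at h2
    have h3 : ({z, r 1, s 0, s 1, s 2, s 3} : Finset Role).card = 6 := by decide
    omega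
  have hr : ∀ i, i ≤ n → φ (r i) = r i := by
    intro i
    induction i using Nat.strong_induction_on with
    | _ i ih =>
      intro hi
      cases i with
      | zero => exact h0
      | succ i =>
        have h1 := ih i (by omega) (by omega)
        have h2 : A x' z (φ (r (i + 1))) := by
          have := h z (r (i + 1)) ((A_z _ _).mpr ⟨_, rfl⟩) (Nat.zero_le _) hi
          rwa [hz] at this
        obtain ⟨k, hk⟩ := (A_z _ _).mp h2
        have h3 : A x' (r i) (r k) := by
          have := h (r i) (r (i + 1)) (by simp [sk, A, Ba]) (by show i ≤ n; omega) hi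
          rwa [h1, hk] at this
        have h4 : k = i + 1 ∨ i = k + 1 := by simpa [A, Ba] using h3
        rcases h4 with h4 | h4
        · rw [hk, h4]
        · have h5 := ih k (by omega) (by omega)
          have h6 := Role.r.inj (φ.injective (hk.trans h5.symm))
          omega
  refine ⟨hz, hr, fun i hi b => ?_⟩
  have h1 := h (r (i + 1)) (g i b) (by simp [sk, A, Ba]) (by show i + 1 ≤ n; omega)
    (by show i + 1 ≤ n; omega)
  rw [hr (i + 1) (by omega), A_rs] at h1
  rcases h1 with h1 | h1 | h1 | h1 | h1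
  · have := φ.injective (h1.trans hz.symm)
    simp at this
  · have := φ.injective (h1.trans (hr i (by omega)).symm)
    simp at this
  · have := φ.injective (h1.trans (hr (i + 2) hi).symm)
    simp at this
  · exact ⟨_, h1⟩
  · exact ⟨_, h1⟩

/-- a pair -/
def pr (u v : ℕ) (h : u ≠ v) : Pair := ⟨s(u, v), by simpa using h⟩

theorem pr_comm (u v : ℕ) (h : u ≠ v) : pr u v h = pr v u h.symm := Subtype.ext Sym2.eq_swap

theorem pr_eq {u v u' v' : ℕ} {h : u ≠ v} {h' : u' ≠ v'} :
    pr u v h = pr u' v' h' ↔ (u = u' ∧ v = v') ∨ (u = v' ∧ v = u') := by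
  unfold pr
  rw [Subtype.mk.injEq, Sym2.eq_iff]

theorem pr_cases (e : Pair) : ∃ u v h, e = pr u v h := by
  obtain ⟨e, he⟩ := e
  induction e using Sym2.ind with
  | _ u v => exact ⟨u, v, by simpa using he, rfl⟩

/-- adjacency in a graph -/
def ad (G : Set Pair) (u v : ℕ) : Prop := ∃ h : u ≠ v, pr u v h ∈ G

theorem ad_iff (G : Set Pair) {u v : ℕ} (h : u ≠ v) : ad G u v ↔ pr u v h ∈ G :=
  ⟨fun k => k.2, fun k => ⟨h, k⟩⟩

/-- `G` codes the sequence `x` -/
def Dec (G : Set Pair) (π : Role ≃ ℕ) (x : ℕ → Bool) : Prop :=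
  ∀ a b, ad G (π a) (π b) ↔ A x a b

theorem A_irr (x : ℕ → Bool) (a : Role) : ¬ A x a a := by
  rcases a with _ | i | j | ⟨i, c⟩
  · simp [A, Ba]
  · simp [A, Ba]
  · simp [A, Ba]
  · cases c <;> simp [A, Ba]

theorem Dec.pr {G : Set Pair} {π : Role ≃ ℕ} {x : ℕ → Bool} (h : Dec G π x) {a b : Role}
    (hab : π a ≠ π b) : Elus.pr (π a) (π b) hab ∈ G ↔ A x a b := by
  rw [← h a b, ad_iff]

/-- the graph with the vertices `π a` that codes `x` -/
def std (π : Role ≃ ℕ) (x : ℕ → Bool) : Set Pair :=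
  {e | ∃ a b, A x a b ∧ ∃ h, e = pr (π a) (π b) h}

theorem dec_std (π : Role ≃ ℕ) (x : ℕ → Bool) : Dec (std π x) π x := by
  intro a b
  constructor
  · rintro ⟨h, a', b', hA, h', he⟩
    rw [pr_eq] at he
    rcases he with ⟨h1, h2⟩ | ⟨h1, h2⟩
    · rw [π.injective h1, π.injective h2]
      exact hA
    · rw [π.injective h1, π.injective h2]
      exact A_symm hA
  · intro hA
    have h : π a ≠ π b := by
      intro hc
      rw [π.injective hc] at hA
      exact A_irr x b hA
    exact ⟨h, a, b, hA, h, rfl⟩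

/-- the variable pair number `i` -/
def vp (π : Role ≃ ℕ) (i : ℕ) : Pair := pr (π (g i false)) (π (g i true)) (by
  intro h
  have := π.injective h
  simp at this)

theorem vp_inj (π : Role ≃ ℕ) : Function.Injective (vp π) := by
  intro i j h
  unfold vp at h
  rw [pr_eq] at h
  rcases h with h | h
  · have := π.injective h.1
    simp at this
    exact this
  · have := π.injective h.1
    simp at this

theorem mem_vp {G : Set Pair} {π : Role ≃ ℕ} {x : ℕ → Bool} (h : Dec G π x) (i : ℕ) :
    vp π i ∈ G ↔ x i = true := by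
  unfold vp
  rw [h.pr, A_g]
  simp

/-- agreement of the variable pairs -/
theorem vp_eq {π π' : Role ≃ ℕ} {i : ℕ} (h : ∀ b, ∃ b', π (g i b) = π' (g i b')) :
    vp π i = vp π' i := by
  obtain ⟨b, hb⟩ := h false
  obtain ⟨c, hc⟩ := h true
  have hbc : b ≠ c := by
    rintro rfl
    have := π.injective (hb.trans hc.symm)
    simp at this
  unfold vp
  rw [pr_eq]
  cases b <;> cases c
  · exact absurd rfl hbc
  · exact Or.inl ⟨hb, hc⟩
  · exact Or.inr ⟨hb, hc⟩
  · exact absurd rfl hbc

theorem pinned_vp {G' : Set Pair} {π π' : Role ≃ ℕ} {x' : ℕ → Bool} (h' : Dec G' π' x') (n : ℕ)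
    (hn : 6 ≤ n) (h : ∀ a b, sk a b → lv a ≤ n → lv b ≤ n → ad G' (π a) (π b)) (i : ℕ)
    (hi : i + 2 ≤ n) : vp π i = vp π' i := by
  have h1 := pinned x' (π.trans π'.symm) n hn (fun a b hab ha hb => by
    have := h a b hab ha hb
    rw [← h']
    simpa using this)
  apply vp_eq
  intro b
  obtain ⟨b', hb'⟩ := h1.2.2 i hi b
  refine ⟨b', ?_⟩
  rw [← hb']
  simp

/-- the coded sequence is unique -/
theorem code_unique {G : Set Pair} {π π' : Role ≃ ℕ} {x x' : ℕ → Bool} (h : Dec G π x)
    (h' : Dec G π' x') : x = x' := by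
  funext i
  have h1 := pinned_vp h' (i + 6) (by omega) (π := π) (fun a b hab _ _ => (h a b).mpr (sk_A hab)) i
    (by omega)
  have h2 := mem_vp h i
  rw [h1, mem_vp h' i] at h2
  exact (Bool.eq_iff_iff.mpr h2).symm

/-- two coding graphs which differ in one pair -/
theorem differ {G G' : Set Pair} {π π' : Role ≃ ℕ} {x x' : ℕ → Bool} (h : Dec G π x)
    (h' : Dec G' π' x') (e : Pair) (he : ∀ e', e' ≠ e → (e' ∈ G' ↔ e' ∈ G)) (he' : e ∈ G' ↔ e ∉ G) :
    ∃ i, e = vp π i := by
  obtain ⟨u, v, huv, rfl⟩ := pr_cases e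
  obtain ⟨a0, rfl⟩ := π.surjective u
  obtain ⟨b0, rfl⟩ := π.surjective v
  have hab : a0 ≠ b0 := fun k => huv (by rw [k])
  obtain ⟨i, b, h1, h2⟩ := one_edge x x' (π.trans π'.symm) a0 b0 hab (by
      intro a b k1 k2
      rw [← h', ← h]
      simp only [Equiv.trans_apply, Equiv.apply_symm_apply]
      by_cases hπ : π a = π b
      · rw [hπ]
        constructor
        · rintro ⟨k, _⟩; exact absurd rfl k
        · rintro ⟨k, _⟩; exact absurd rfl k
      · rw [ad_iff _ hπ, ad_iff _ hπ]
        apply he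
        intro hc
        rw [pr_eq] at hc
        rcases hc with ⟨c1, c2⟩ | ⟨c1, c2⟩
        · exact k1 ⟨π.injective c1, π.injective c2⟩
        · exact k2 ⟨π.injective c1, π.injective c2⟩) (by
      rw [← h', ← h]
      simp only [Equiv.trans_apply, Equiv.apply_symm_apply]
      rw [ad_iff _ huv, ad_iff _ huv]
      exact he')
  refine ⟨i, ?_⟩
  unfold vp
  rw [pr_eq, h1, h2]
  cases b
  · exact Or.inl ⟨rfl, rfl⟩
  · exact Or.inr ⟨rfl, rfl⟩

theorem A_change {x x' : ℕ → Bool} {i : ℕ} (h : ∀ j, j ≠ i → x' j = x j) {a b : Role}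
    (hab : ¬ (∃ c, a = g i c ∧ b = g i (!c))) : A x' a b ↔ A x a b := by
  match a with
  | z => rw [A_z, A_z]
  | r 0 => rw [A_r0, A_r0]
  | r (j + 1) => rw [A_rs, A_rs]
  | s j => rw [A_s, A_s]
  | g j c =>
    rw [A_g, A_g]
    by_cases hj : j = i
    · subst hj
      have : ¬ b = g j (!c) := fun k => hab ⟨c, rfl, k⟩
      simp [this]
    · rw [h j hj]

/-- changing a variable pair -/
theorem dec_change {G G' : Set Pair} {π : Role ≃ ℕ} {x x' : ℕ → Bool} (h : Dec G π x) (i : ℕ)
    (hG : ∀ e, e ≠ vp π i → (e ∈ G' ↔ e ∈ G)) (hi : vp π i ∈ G' ↔ x' i = true)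
    (hx : ∀ j, j ≠ i → x' j = x j) : Dec G' π x' := by
  intro a b
  by_cases hab : ∃ c, a = g i c ∧ b = g i (!c)
  · obtain ⟨c, rfl, rfl⟩ := hab
    have hne : π (g i c) ≠ π (g i (!c)) := by
      intro k
      have := π.injective k
      simp at this
    rw [ad_iff _ hne]
    have e1 : pr (π (g i c)) (π (g i (!c))) hne = vp π i := by
      unfold vp
      rw [pr_eq]
      cases c
      · exact Or.inl ⟨rfl, rfl⟩
      · exact Or.inr ⟨rfl, rfl⟩
    rw [e1, hi, A_g]
    simp
  · rw [A_change hx hab, ← h]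
    by_cases hπ : π a = π b
    · rw [hπ]
      constructor
      · rintro ⟨k, _⟩; exact absurd rfl k
      · rintro ⟨k, _⟩; exact absurd rfl k
    · rw [ad_iff _ hπ, ad_iff _ hπ]
      apply hG
      intro hc
      unfold vp at hc
      rw [pr_eq] at hc
      rcases hc with ⟨c1, c2⟩ | ⟨c1, c2⟩
      · exact hab ⟨false, π.injective c1, π.injective c2⟩
      · exact hab ⟨true, π.injective c1, π.injective c2⟩

/-- the blocks -/
def blk (x : ℕ → Bool) (n : ℕ) : ℕ × Bool := (kap (fun j => x (5 * n + j.val)), x (5 * n + 4))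

/-- the property given by a set of sequences of blocks -/
def SI (I : Set (ℕ → ℕ × Bool)) : Set (Set Pair) := {G | ∃ π x, Dec G π x ∧ blk x ∈ I}

theorem mem_SI {G : Set Pair} {π : Role ≃ ℕ} {x : ℕ → Bool} (h : Dec G π x)
    (I : Set (ℕ → ℕ × Bool)) : G ∈ SI I ↔ blk x ∈ I := by
  constructor
  · rintro ⟨π', x', h', hI⟩
    rwa [code_unique h h']
  · intro hI
    exact ⟨π, x, h, hI⟩

end Pool.Agent.Q215.Elus
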