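import Mathlib
import Pool.Agent.Q215.ElusD

set_option autoImplicit false

/-! Every strategy of Hider admits a run won by Seeker for all codes, or many runs which Seeker wins
unless one given sequence of blocks is in the set. -/

namespace Pool.Agent.Q215.Elus

open Role

/-- Seeker wins the run -/
def WinRun (S : Set (Set Pair)) (r : ℕ → Pair × Bool) : Prop :=
  (∃ e, ∀ n, (r n).1 ≠ e) ∧
    ((∀ G, Cs (Set.range r) G → G ∈ S) ∨ (∀ G, Cs (Set.range r) G → G ∉ S))

/-- histories as sets -/
def HS (l : Hist) : Set (Pair × Bool) := {y | y ∈ l}

theorem Cs.mono {l l' : Set (Pair × Bool)} {G : Set Pair} (h : Cs l' G) (hl : l ⊆ l') : Cs l G :=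
  fun e c hc => h e c (hl hc)

theorem hs_pre {l l' : Hist} (h : l <+: l') : HS l ⊆ HS l' := fun _ hx => h.subset hx

theorem hs_run {r : ℕ → Pair × Bool} (n : ℕ) : HS (hist r n) ⊆ Set.range r := by
  intro x hx
  obtain ⟨i, _, hi⟩ := (mem_hist r n x).mp hx
  exact ⟨i, hi⟩

theorem As.mono {l l' : Hist} (h : l <+: l') {e : Pair} (hA : As l e) : As l' e :=
  hA.imp fun _ hc => h.subset hc

theorem as_snoc {l : Hist} {e e' : Pair} {c : Bool} : As (l ++ [(e', c)]) e ↔ As l e ∨ e = e' := by
  unfold As
  simp only [List.mem_append, List.mem_singleton, Prod.mk.injEq]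
  constructor
  · rintro ⟨d, h | h⟩
    · exact Or.inl ⟨d, h⟩
    · exact Or.inr h.1
  · rintro (⟨d, h⟩ | h)
    · exact ⟨d, Or.inl h⟩
    · exact ⟨c, Or.inr ⟨h, rfl⟩⟩

theorem finite_as (l : Hist) : {e | As l e}.Finite := by
  refine (List.finite_toSet (l.map Prod.fst)).subset ?_
  rintro e ⟨c, hc⟩
  exact List.mem_map.mpr ⟨_, hc, rfl⟩

theorem hist_pre (r : ℕ → Pair × Bool) {m n : ℕ} (h : m ≤ n) : hist r m <+: hist r n := by
  obtain ⟨k, rfl⟩ := Nat.exists_eq_add_of_le h
  unfold hist
  rw [List.range_add, List.map_append]
  exact List.prefix_append _ _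

/-- infinitely many pairs contain a given number -/
theorem inf_star (v : ℕ) (F : Set Pair) (hF : F.Finite) : ∃ w, ∃ h : v ≠ w, pr v w h ∉ F := by
  by_contra hno
  push Not at hno
  have h1 : Set.Infinite (Set.range (fun k : ℕ => pr v (v + k + 1) (by omega))) := by
    apply Set.infinite_range_of_injective
    intro a b hab
    simp only at hab
    rw [pr_eq] at hab
    omega
  exact h1 (hF.subset (by rintro x ⟨k, rfl⟩; exact hno _ _))

/-- the play in a block of four pairs -/
theorem play (τ : Hist → Pair → Bool) (q : Fin 4 → Pair) (hq : Function.Injective q) (e2 : Pair)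
    (he2 : ∀ j, q j ≠ e2) (c : ℕ) :
    ∀ n st, fw n c st → (Finset.univ.filter fun j => st j = none).card = n →
      ∀ l, TG τ l → ¬ As l e2 → (∀ j, match st j with | some a => (q j, a) ∈ l | none => ¬ As l (q j)) →
      ∃ l', l <+: l' ∧ TG τ l' ∧ ¬ As l' e2 ∧
        ((∃ u : Fin 4 → Bool, (∀ j, (q j, u j) ∈ l') ∧ kap u ≠ c) ∨
        (∃ j, ∃ u : Fin 4 → Bool, ¬ As l' (q j) ∧ (∀ i, i ≠ j → (q i, u i) ∈ l') ∧
          kap (Function.update u j false) = kap (Function.update u j true))) := by
  have hup : ∀ (st : St) j a, fl (up st j a) = Function.update (fl st) j a := by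
    intro st j a
    funext i
    unfold fl up Function.update
    by_cases h : i = j
    · subst h; simp
    · simp [h]
  have hcard : ∀ (st : St) j a, st j = none →
      (Finset.univ.filter fun i => (up st j a) i = none).card + 1 =
        (Finset.univ.filter fun i => st i = none).card := by
    intro st j a hj
    have : (Finset.univ.filter fun i => (up st j a) i = none) =
        (Finset.univ.filter fun i => st i = none).erase j := by
      ext i
      rw [Finset.mem_filter, Finset.mem_erase, Finset.mem_filter]
      by_cases h : i = j
      · simp [h, up]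
      · simp [h, up]
    rw [this, Finset.card_erase_add_one]
    simp [hj]
  -- one more question
  have hstep : ∀ (st : St) (l : Hist) j, TG τ l → ¬ As l e2 →
      (∀ j, match st j with | some a => (q j, a) ∈ l | none => ¬ As l (q j)) → st j = none →
      TG τ (l ++ [(q j, τ l (q j))]) ∧ ¬ As (l ++ [(q j, τ l (q j))]) e2 ∧
      (∀ i, match (up st j (τ l (q j))) i with
        | some a => (q i, a) ∈ l ++ [(q j, τ l (q j))]
        | none => ¬ As (l ++ [(q j, τ l (q j))]) (q i)) := by
    intro st l j hl he hst hj
    have h1 : ¬ As l (q j) := by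
      have := hst j
      rw [hj] at this
      exact this
    refine ⟨TG.snoc _ _ hl fun c hc => h1 ⟨c, hc⟩, ?_, ?_⟩
    · rw [as_snoc]
      rintro (h | h)
      · exact he h
      · exact he2 j h.symm
    · intro i
      by_cases h : i = j
      · subst h
        simp [up]
      · have h2 : up st j (τ l (q j)) i = st i := by simp [up, h]
        rw [h2]
        have h3 := hst i
        cases hs : st i with
        | none =>
          rw [hs] at h3
          show ¬ As _ _
          rw [as_snoc]
          rintro (h4 | h4)
          · exact h3 h4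
          · exact h (hq h4)
        | some a =>
          rw [hs] at h3
          exact List.mem_append_left _ h3
  intro n
  induction n with
  | zero =>
    intro st hfw hn l hl he hst
    refine ⟨l, List.prefix_refl _, hl, he, Or.inl ⟨fl st, fun j => ?_, hfw⟩⟩
    have h1 : st j ≠ none := by
      intro h
      have : j ∈ Finset.univ.filter fun j => st j = none := by simp [h]
      rw [Finset.card_eq_zero.mp hn] at this
      simp at this
    obtain ⟨a, ha⟩ := Option.ne_none_iff_exists'.mp h1
    have h2 := hst j
    rw [ha] at h2
    have h3 : fl st j = a := by simp [fl, ha]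
    rw [h3]
    exact h2
  | succ n ih =>
    cases n with
    | zero =>
      intro st hfw hn l hl he hst
      obtain ⟨j, hj⟩ := Finset.card_eq_one.mp hn
      have hj0 : st j = none := by
        have : j ∈ Finset.univ.filter fun j => st j = none := by rw [hj]; simp
        simpa using this
      have hother : ∀ i, i ≠ j → ∃ a, st i = some a := by
        intro i hi
        have h1 : st i ≠ none := by
          intro h
          have : i ∈ Finset.univ.filter fun j => st j = none := by simp [h]
          rw [hj] at this
          exact hi (by simpa using this)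
        exact Option.ne_none_iff_exists'.mp h1
      have hmem : ∀ i, i ≠ j → (q i, fl st i) ∈ l := by
        intro i hi
        obtain ⟨a, ha⟩ := hother i hi
        have h2 := hst i
        rw [ha] at h2
        have h3 : fl st i = a := by simp [fl, ha]
        rw [h3]
        exact h2
      by_cases hpiv : kap (fl (up st j false)) = kap (fl (up st j true))
      · refine ⟨l, List.prefix_refl _, hl, he, Or.inr ⟨j, fl st, ?_, hmem, ?_⟩⟩
        · have := hst j
          rw [hj0] at this
          exact this
        · rwa [hup, hup] at hpiv
      · obtain ⟨h1, h2, h3⟩ := hstep st l j hl he hst hj0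
        refine ⟨_, List.prefix_append _ _, h1, h2, Or.inl ⟨fl (up st j (τ l (q j))), ?_, ?_⟩⟩
        · intro i
          by_cases hi : i = j
          · subst hi
            rw [hup, Function.update_self]
            simp
          · rw [hup, Function.update_of_ne hi]
            exact List.mem_append_left _ (hmem i hi)
        · exact hfw j hj0 hpiv _
    | succ n =>
      intro st hfw hn l hl he hst
      obtain ⟨j, hj, hfw'⟩ := hfw
      obtain ⟨h1, h2, h3⟩ := hstep st l j hl he hst hj
      obtain ⟨l', k1, k2, k3, k4⟩ := ih (up st j (τ l (q j))) (hfw' _)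
        (by have := hcard st j (τ l (q j)) hj; omega) _ h1 h2 h3
      exact ⟨l', (List.prefix_append _ _).trans k1, k2, k3, k4⟩

end Pool.Agent.Q215.Elus
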