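import Mathlib
import Pool.Agent.Q215.ElusE

set_option autoImplicit false

/-! Every strategy of Hider: the survey of the hub and of the ray, and the tree of runs. -/

namespace Pool.Agent.Q215.Elus

open Role

theorem fin_time {α : Type} (F : Set α) (hF : F.Finite) (P : α → ℕ → Prop)
    (h : ∀ a ∈ F, ∃ m, P a m) : ∃ N, ∀ a ∈ F, ∃ m < N, P a m := by
  choose! t ht using h
  obtain ⟨N, hN⟩ := (hF.image t).bddAbove
  exact ⟨N + 1, fun a ha => ⟨t a, Nat.lt_succ_of_le (hN ⟨a, ha, rfl⟩), ht a ha⟩⟩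

theorem mem_pr {w u v : ℕ} {h : u ≠ v} : w ∈ (pr u v h).1 ↔ w = u ∨ w = v := Sym2.mem_iff

/-- data found at the beginning: the hub, and a pair which is certainly not an edge -/
structure Base (τ : Hist → Pair → Bool) (l0 : Hist) (z0 : ℕ) (e2 : Pair) : Prop where
  tg : TG τ l0
  na : ¬ As l0 e2
  det : ∀ G π x, Cs (HS l0) G → Dec G π x → π z = z0 ∧ e2 ∉ G

/-- the assumption that Hider answers according to some coding graph -/
def Hyp (τ : Hist → Pair → Bool) : Prop :=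
  ∀ ρ, Run τ ρ → (∃ e, ∀ n, (ρ n).1 ≠ e) → ∃ G π x, Cs (Set.range ρ) G ∧ Dec G π x

theorem base_exists (τ : Hist → Pair → Bool) (hyp : Hyp τ) : ∃ l0 z0 e2, Base τ l0 z0 e2 := by
  classical
  let e1 : Pair := pr 0 1 (by norm_num)
  obtain ⟨ρ, hr, -, hr1, hr2⟩ := explore τ (fun _ e => e ≠ e1) (fun _ _ _ e h => h) (fun l _ => by
    obtain ⟨w, h, hw⟩ := inf_star 0 ({e | As l e} ∪ {e1}) ((finite_as l).union (Set.finite_singleton _))
    refine ⟨pr 0 w h, ?_, ?_⟩
    · intro hc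
      exact hw (Or.inr hc)
    · intro hc
      exact hw (Or.inl hc)) [] TG.nil
  obtain ⟨G0, π0, x0, hc0, hd0⟩ := hyp ρ hr ⟨e1, fun n => hr1 n (Nat.zero_le _)⟩
  let idx : Role → ℕ := fun a => match a with | r i => i | _ => 0
  let K : ℕ := max (idx (π0.symm 0)) (idx (π0.symm 1)) + 1
  have hK : ∀ i, K ≤ i → π0 (r i) ≠ 0 ∧ π0 (r i) ≠ 1 := by
    intro i hi
    constructor
    · intro h
      have h1 : π0.symm 0 = r i := by rw [← h, Equiv.symm_apply_apply]
      have h2 : idx (π0.symm 0) = i := by rw [h1]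
      have := le_max_left (idx (π0.symm 0)) (idx (π0.symm 1))
      omega
    · intro h
      have h1 : π0.symm 1 = r i := by rw [← h, Equiv.symm_apply_apply]
      have h2 : idx (π0.symm 1) = i := by rw [h1]
      have := le_max_right (idx (π0.symm 0)) (idx (π0.symm 1))
      omega
  have hask : ∀ i, K ≤ i → ∀ b, A x0 (r i) b → ∃ m, ∃ h, ρ m = (pr (π0 (r i)) (π0 b) h, true) := by
    intro i hi b hA
    obtain ⟨h, hG⟩ := (hd0 (r i) b).mpr hA
    have hne : pr (π0 (r i)) (π0 b) h ≠ e1 := by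
      intro hc
      have h1 : π0 (r i) ∈ e1.1 := by
        rw [← hc, mem_pr]
        exact Or.inl rfl
      rw [mem_pr] at h1
      rcases h1 with h1 | h1
      · exact (hK i hi).1 h1
      · exact (hK i hi).2 h1
    obtain ⟨m, hm⟩ := hr2 0 _ hne
    refine ⟨m, h, ?_⟩
    have h2 : ρ m = (pr (π0 (r i)) (π0 b) h, (ρ m).2) := Prod.ext hm rfl
    have h3 := (hc0 _ _ ⟨m, h2⟩).mp hG
    rw [h2, h3]
  let P : Set (ℕ × Role) := (Finset.univ.image fun j : Fin 7 => (K + j.val, z)) ∪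
    ((nb x0 (r (K + 1))).image fun b => (K + 1, b))
  have hPfin : P.Finite := (Finset.finite_toSet _).union (Finset.finite_toSet _)
  obtain ⟨N, hN⟩ := fin_time P hPfin
    (fun p m => ∃ h, ρ m = (pr (π0 (r p.1)) (π0 p.2) h, true)) (by
      rintro ⟨i, b⟩ hp
      have hA : K ≤ i ∧ A x0 (r i) b := by
        rcases hp with hp | hp
        · rw [Finset.mem_coe, Finset.mem_image] at hp
          obtain ⟨j, _, hj⟩ := hp
          obtain ⟨rfl, rfl⟩ := Prod.mk.inj hj
          exact ⟨by omega, A_symm ((A_z _ _).mpr ⟨_, rfl⟩)⟩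
        · rw [Finset.mem_coe, Finset.mem_image] at hp
          obtain ⟨c, hc, hj⟩ := hp
          obtain ⟨rfl, rfl⟩ := Prod.mk.inj hj
          exact ⟨by omega, (mem_nb x0 _ _ (by simp)).mp hc⟩
      exact hask i hA.1 b hA.2)
  have hNe : (π0 (r (K + 1))) ≠ 0 := (hK _ (by omega)).1
  obtain ⟨w, hw, hwF⟩ := inf_star (π0 (r (K + 1))) ({e | As (hist ρ N) e} ∪
    {e | ∃ b ∈ nb x0 (r (K + 1)), ∃ h, e = pr (π0 (r (K + 1))) (π0 b) h}) (by
      refine (finite_as _).union ?_
      have h1 : {e : Pair | ∃ b ∈ nb x0 (r (K + 1)), ∃ h, e = pr (π0 (r (K + 1))) (π0 b) h} ⊆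
          ⋃ b ∈ (nb x0 (r (K + 1)) : Set Role), {e : Pair | ∃ h, e = pr (π0 (r (K + 1))) (π0 b) h} := by
        rintro e ⟨b, hb, he⟩
        exact Set.mem_biUnion hb he
      refine Set.Finite.subset (Set.Finite.biUnion (Finset.finite_toSet _) fun b _ => ?_) h1
      apply Set.Subsingleton.finite
      rintro e ⟨h, rfl⟩ e' ⟨h', rfl⟩
      rfl)
  refine ⟨hist ρ N, π0 z, pr (π0 (r (K + 1))) w hw, hr.tg N, fun hc => hwF (Or.inl hc), ?_⟩
  intro G π x hc hd
  let φ : Role ≃ Role := π0.trans π.symm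
  have hφ : ∀ a, π (φ a) = π0 a := fun a => by simp [φ]
  have hA : ∀ p ∈ P, A x (φ (r p.1)) (φ p.2) := by
    intro p hp
    obtain ⟨m, hm, h, hrm⟩ := hN p hp
    have h1 : (pr (π0 (r p.1)) (π0 p.2) h, true) ∈ HS (hist ρ N) := by
      show _ ∈ hist ρ N
      rw [mem_hist]
      exact ⟨m, hm, hrm⟩
    have h2 := (hc _ _ h1).mpr rfl
    rw [← hd, hφ, hφ]
    exact ⟨h, h2⟩
  have hP1 : ∀ j : ℕ, j < 7 → (K + j, z) ∈ P := by
    intro j hj
    left
    rw [Finset.mem_coe, Finset.mem_image]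
    exact ⟨⟨j, hj⟩, Finset.mem_univ _, rfl⟩
  have hP2 : ∀ b ∈ nb x0 (r (K + 1)), (K + 1, b) ∈ P := by
    intro b hb
    right
    rw [Finset.mem_coe, Finset.mem_image]
    exact ⟨b, hb, rfl⟩
  have hz : φ z = z := by
    by_contra hne
    have h1 : (Finset.univ.image fun i : Fin 7 => φ (r (K + i.val))) ⊆ nb x (φ z) := by
      intro c hc
      rw [Finset.mem_image] at hc
      obtain ⟨i, _, rfl⟩ := hc
      rw [mem_nb x _ _ hne]
      exact A_symm (hA _ (hP1 i.val i.isLt))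
    have h2 : (Finset.univ.image fun i : Fin 7 => φ (r (K + i.val))).card = 7 := by
      rw [Finset.card_image_of_injective]
      · simp
      · intro i j hij
        have := Role.r.inj (φ.injective hij)
        exact Fin.ext (by omega)
    have h3 := Finset.card_le_card h1
    have h4 := card_le x (φ z)
    omega
  refine ⟨by rw [← hφ, hz], ?_⟩
  have hrayz : ∀ j, j < 7 → ∃ k, φ (r (K + j)) = r k := by
    intro j hj
    have := hA _ (hP1 j hj)
    simp only at this
    rw [hz] at this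
    exact (A_z _ _).mp (A_symm this)
  obtain ⟨k, hk⟩ := hrayz 1 (by norm_num)
  have hneighbors : ∀ b ∈ nb x0 (r (K + 1)), A x (r k) (φ b) := by
    intro b hb
    have := hA _ (hP2 b hb)
    simp only at this
    rwa [hk] at this
  have hk0 : k ≠ 0 := by
    rintro rfl
    obtain ⟨k1, hk1⟩ := hrayz 0 (by norm_num)
    obtain ⟨k2, hk2⟩ := hrayz 2 (by norm_num)
    have m1 : r (K + 0) ∈ nb x0 (r (K + 1)) := by
      rw [mem_nb _ _ _ (by simp), A_rs]; simp
    have m2 : r (K + 2) ∈ nb x0 (r (K + 1)) := by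
      rw [mem_nb _ _ _ (by simp), A_rs]; simp
    have a1 := hneighbors _ m1
    have a2 := hneighbors _ m2
    rw [A_r0, hk1] at a1
    rw [A_r0, hk2] at a2
    have b1 : k1 = 1 := by simpa using a1
    have b2 : k2 = 1 := by simpa using a2
    have := Role.r.inj (φ.injective (hk1.trans (by rw [b1, hk2, b2])))
    omega
  obtain ⟨k', rfl⟩ := Nat.exists_eq_succ_of_ne_zero hk0
  have heq : (nb x0 (r (K + 1))).map φ.toEmbedding = nb x (r (k' + 1)) := by
    apply Finset.eq_of_subset_of_card_le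
    · intro c hc
      rw [Finset.mem_map] at hc
      obtain ⟨b, hb, rfl⟩ := hc
      rw [mem_nb x _ _ (by simp)]
      exact hneighbors b hb
    · rw [Finset.card_map, card_rs, card_rs]
  intro he2
  have h1 : A x (r (k' + 1)) (π.symm w) := by
    have : ad G (π (r (k' + 1))) (π (π.symm w)) := by
      rw [Equiv.apply_symm_apply]
      have : π (r (k' + 1)) = π0 (r (K + 1)) := by rw [← hφ, hk]
      rw [this]
      exact ⟨hw, he2⟩
    exact (hd _ _).mp this
  rw [← mem_nb x _ _ (by simp), ← heq, Finset.mem_map] at h1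
  obtain ⟨b, hb, hbw⟩ := h1
  have h2 : w = π0 b := by
    rw [← hφ b]
    have : φ b = π.symm w := hbw
    rw [this, Equiv.apply_symm_apply]
  subst h2
  exact hwF (Or.inr ⟨b, hb, hw, rfl⟩)

/-- the survey: all edges of the fixed part are found, no further variable pair is asked -/
theorem survey (τ : Hist → Pair → Bool) (hyp : Hyp τ) {l0 : Hist} {z0 : ℕ} {e2 : Pair}
    (hb : Base τ l0 z0 e2) (l : Hist) (hl : TG τ l) (h0 : l0 <+: l) (h2 : ¬ As l e2) :
    ∃ (ρ : ℕ → Pair × Bool) (π : Role ≃ ℕ), Run τ ρ ∧ hist ρ l.length = l ∧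
      (∀ n, (ρ n).1 ≠ e2) ∧
      (∀ a b, sk a b → ∃ m h, ρ m = (pr (π a) (π b) h, true)) ∧
      (∀ i n, l.length ≤ n → (ρ n).1 ≠ vp π i) ∧ (∀ i, vp π i ≠ e2) := by
  obtain ⟨ρ, hr, hrl, hr1, hr2⟩ := explore τ
    (fun l' e => e ≠ e2 ∧ (z0 ∈ e.1 ∨ ∃ v, ∃ h : z0 ≠ v, (pr z0 v h, true) ∈ l' ∧ v ∈ e.1))
    (by
      rintro l1 l2 h12 e ⟨h3, h4⟩
      refine ⟨h3, ?_⟩
      rcases h4 with h4 | ⟨v, h, h5, h6⟩
      · exact Or.inl h4
      · exact Or.inr ⟨v, h, h12.subset h5, h6⟩)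
    (fun l' _ => by
      obtain ⟨w, h, hw⟩ := inf_star z0 ({e | As l' e} ∪ {e2})
        ((finite_as l').union (Set.finite_singleton _))
      exact ⟨_, ⟨fun hc => hw (Or.inr hc), Or.inl (mem_pr.mpr (Or.inl rfl))⟩,
        fun hc => hw (Or.inl hc)⟩) l hl
  have hne : ∀ n, (ρ n).1 ≠ e2 := by
    intro n hn
    rcases Nat.lt_or_ge n l.length with h | h
    · apply h2
      refine ⟨(ρ n).2, ?_⟩
      rw [← hrl, mem_hist]
      exact ⟨n, h, Prod.ext hn rfl⟩
    · exact (hr1 n h).1 hn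
  obtain ⟨G, π, x, hc, hd⟩ := hyp ρ hr ⟨e2, hne⟩
  have hc0 : Cs (HS l0) G := by
    apply hc.mono
    refine (hs_pre h0).trans ?_
    rw [← hrl]
    exact hs_run _
  obtain ⟨hz, he2⟩ := hb.det G π x hc0 hd
  have key : ∀ e n, (e ≠ e2 ∧ (z0 ∈ e.1 ∨ ∃ v, ∃ h : z0 ≠ v, (pr z0 v h, true) ∈ hist ρ n ∧ v ∈ e.1)) →
      e ∈ G → ∃ m, ρ m = (e, true) := by
    intro e n hel heG
    obtain ⟨m, hm⟩ := hr2 n e hel
    have h3 : ρ m = (e, (ρ m).2) := Prod.ext hm rfl
    have h4 := (hc _ _ ⟨m, h3⟩).mp heG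
    exact ⟨m, by rw [h3, h4]⟩
  have hhub : ∀ a b, sk a b → a = z → ∃ m h, ρ m = (pr (π a) (π b) h, true) := by
    intro a b hab ha
    obtain ⟨h, hG⟩ := (hd a b).mpr (sk_A hab)
    obtain ⟨m, hm⟩ := key _ 0 ⟨fun k => he2 (k ▸ hG), Or.inl (by rw [mem_pr, ha, hz]; exact Or.inl rfl)⟩ hG
    exact ⟨m, h, hm⟩
  have hray : ∀ a b, sk a b → (∃ i, a = r i) → ∃ m h, ρ m = (pr (π a) (π b) h, true) := by
    rintro a b hab ⟨i, rfl⟩
    obtain ⟨m, h, hm⟩ := hhub z (r i) ((A_z _ _).mpr ⟨i, rfl⟩) rfl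
    obtain ⟨h', hG⟩ := (hd (r i) b).mpr (sk_A hab)
    obtain ⟨m', hm'⟩ := key _ (m + 1) ⟨fun k => he2 (k ▸ hG), Or.inr ⟨π (r i), by rw [← hz]; exact h, by
      rw [mem_hist]
      refine ⟨m, by omega, ?_⟩
      rw [hm]
      exact Prod.ext (by simp only [hz]) rfl, mem_pr.mpr (Or.inl rfl)⟩⟩ hG
    exact ⟨m', h', hm'⟩
  refine ⟨ρ, π, hr, hrl, hne, ?_, ?_, ?_⟩
  · intro a b hab
    have swap : ∀ {a b}, (∃ m h, ρ m = (pr (π b) (π a) h, true)) →
        ∃ m h, ρ m = (pr (π a) (π b) h, true) := by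
      rintro a b ⟨m, h, hm⟩
      exact ⟨m, h.symm, by rw [hm, pr_comm]⟩
    have hba : sk b a := A_symm hab
    rcases a with _ | i | j | ⟨i, c⟩
    · exact hhub _ _ hab rfl
    · exact hray _ _ hab ⟨i, rfl⟩
    · have : b = r 0 := (A_s _ _ _).mp hab
      exact swap (hray _ _ hba ⟨0, this⟩)
    · have h3 := (A_g _ _ _ _).mp hab
      rcases h3 with h3 | h3
      · exact swap (hray _ _ hba ⟨i + 1, h3⟩)
      · exact absurd h3.2 (by simp)
  · intro i n hn hvp
    have h3 := (hr1 n hn).2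
    rw [hvp] at h3
    unfold vp at h3
    have hno : ∀ v, v ∈ (pr (π (g i false)) (π (g i true)) (by
        intro h
        have := π.injective h
        simp at this)).1 → ∃ c, v = π (g i c) := by
      intro v hv
      rw [mem_pr] at hv
      rcases hv with hv | hv
      · exact ⟨_, hv⟩
      · exact ⟨_, hv⟩
    rcases h3 with h3 | ⟨v, h, h4, h5⟩
    · obtain ⟨c, hc'⟩ := hno _ h3
      rw [← hz] at hc'
      have := π.injective hc'
      simp at this
    · obtain ⟨c, rfl⟩ := hno _ h5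
      have h6 : pr z0 (π (g i c)) h ∈ G := (hc _ _ (hs_run n h4)).mpr rfl
      have h7 : A x z (g i c) := by
        rw [← hd, hz]
        exact ⟨h, h6⟩
      obtain ⟨k, hk⟩ := (A_z _ _).mp h7
      simp at hk
  · intro i hi
    -- `e2` is not an edge, but changing the bit `i` gives another coding graph
    by_cases hx : x i = true
    · exact he2 (hi ▸ (mem_vp hd i).mpr hx)
    · have hd' : Dec (insert (vp π i) G) π (Function.update x i true) := by
        apply dec_change hd i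
        · intro e he
          simp [he]
        · simp
        · intro j hj
          simp [hj]
      have hc' : Cs (HS l0) (insert (vp π i) G) := by
        intro e c hec
        by_cases he : e = e2
        · subst he
          exact absurd ⟨c, hec⟩ hb.na
        · have := hc0 e c hec
          rw [← this, hi]
          simp [he]
      have := (hb.det _ _ _ hc' hd').2
      rw [hi] at this
      simp at this

end Pool.Agent.Q215.Elus
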