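import Mathlib
import Pool.Agent.Q215.ElusF

set_option autoImplicit false

/-! Every strategy of Hider: the tree of runs. -/

namespace Pool.Agent.Q215.Elus

open Role

/-- no run against `τ` is won by Seeker for all sets of sequences of blocks -/
def NW (τ : Hist → Pair → Bool) : Prop := ∀ ρ, Run τ ρ → ¬ ∀ I, WinRun (SI I) ρ

theorem hyp_of {τ : Hist → Pair → Bool} (h : NW τ) : Hyp τ := by
  intro ρ hρ he
  by_contra hno
  apply h ρ hρ
  intro I
  refine ⟨he, Or.inr fun G hG hS => ?_⟩
  obtain ⟨π, x, hd, _⟩ := hS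
  exact hno ⟨G, π, x, hG, hd⟩

theorem win_nonpiv (ρ : ℕ → Pair × Bool) (q : Pair) (hq : ∀ n, (ρ n).1 ≠ q)
    (hall : ∀ e, e ≠ q → ∃ m, (ρ m).1 = e)
    (h : ∀ G π x, Cs (Set.range ρ) G → Dec G π x → ∃ i, vp π i = q ∧
      blk (Function.update x i false) = blk (Function.update x i true)) (I : Set (ℕ → ℕ × Bool)) :
    WinRun (SI I) ρ := by
  classical
  refine ⟨⟨q, hq⟩, ?_⟩
  by_cases hS : ∃ G0, Cs (Set.range ρ) G0 ∧ G0 ∈ SI I
  · left
    intro G hG
    obtain ⟨G0, hG0, π, x, hd, hI⟩ := hS
    obtain ⟨i, hi, hb⟩ := h G0 π x hG0 hd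
    have h1 : ∀ e, e ≠ q → (e ∈ G ↔ e ∈ G0) := by
      intro e he
      obtain ⟨m, hm⟩ := hall e he
      have h2 : ρ m = (e, (ρ m).2) := Prod.ext hm rfl
      rw [hG _ _ ⟨m, h2⟩, hG0 _ _ ⟨m, h2⟩]
    have h3 : Dec G π (Function.update x i (decide (q ∈ G))) := by
      apply dec_change hd i
      · intro e he
        exact h1 e (by rwa [hi] at he)
      · rw [hi, Function.update_self]
        simp
      · intro j hj
        rw [Function.update_of_ne hj]
    refine ⟨π, _, h3, ?_⟩
    have h4 : ∀ b, blk (Function.update x i b) = blk (Function.update x i false) := by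
      intro b
      cases b
      · rfl
      · exact hb.symm
    have h5 : blk x = blk (Function.update x i false) := by
      rw [← h4 (x i), Function.update_eq_self]
    rw [h4, ← h5]
    exact hI
  · right
    intro G hG hGS
    exact hS ⟨G, hG, hGS⟩

theorem fin_lv (n : ℕ) : {a : Role | lv a ≤ n}.Finite := by
  have h : {a : Role | lv a ≤ n} ⊆ {z} ∪ (r '' Set.Iic n) ∪ Set.range s ∪
      (fun p : ℕ × Bool => g p.1 p.2) '' (Set.Iic n ×ˢ Set.univ) := by
    rintro a ha
    rcases a with _ | i | j | ⟨i, c⟩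
    · simp
    · left; left; right
      exact ⟨i, ha, rfl⟩
    · left; right
      exact ⟨j, rfl⟩
    · right
      refine ⟨(i, c), ⟨?_, Set.mem_univ _⟩, rfl⟩
      have : i + 1 ≤ n := ha
      exact Set.mem_Iic.mpr (by omega)
  refine Set.Finite.subset ?_ h
  refine Set.Finite.union (Set.Finite.union (Set.Finite.union (Set.finite_singleton _) ?_)
    (Set.finite_range _)) ?_
  · exact (Set.finite_Iic n).image _
  · exact ((Set.finite_Iic n).prod Set.finite_univ).image _

theorem kap_le (u : Fin 4 → Bool) : kap u ≤ 2 := by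
  unfold kap
  split <;> omega

theorem fw_start (c : ℕ) (hc : c ≤ 2) : fw 4 c (fun _ => none) := by
  interval_cases c
  · exact fw_start0
  · exact fw_start1
  · exact fw_start2

/-- one branching -/
theorem step (τ : Hist → Pair → Bool) (hNW : NW τ) {l0 : Hist} {z0 : ℕ} {e2 : Pair}
    (hb : Base τ l0 z0 e2) (l : Hist) (hl : TG τ l) (h0 : l0 <+: l) (h2 : ¬ As l e2) :
    ∃ (m : ℕ) (cc : Bool → ℕ) (L : Bool → Hist), cc false ≠ cc true ∧ ∀ b,
      l <+: L b ∧ l.length < (L b).length ∧ TG τ (L b) ∧ ¬ As (L b) e2 ∧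
      ∀ G π x, Cs (HS (L b)) G → Dec G π x → (blk x m).1 = cc b := by
  classical
  obtain ⟨ρ, π, hρ, hρl, hne, hsk, hvp, hve⟩ := survey τ (hyp_of hNW) hb l hl h0 h2
  -- an untouched block
  obtain ⟨m, hm⟩ : ∃ m, ∀ j : Fin 4, ¬ As l (vp π (5 * m + j.val)) := by
    have hfin : (vp π ⁻¹' {e | As l e}).Finite :=
      Set.Finite.preimage (vp_inj π).injOn (finite_as l)
    obtain ⟨M, hM⟩ := hfin.bddAbove
    refine ⟨M + 1, fun j hj => ?_⟩
    have : 5 * (M + 1) + j.val ≤ M := hM hj
    omega
  let n : ℕ := 5 * m + 11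
  obtain ⟨N, hN⟩ := fin_time ({a : Role | lv a ≤ n} ×ˢ {b : Role | lv b ≤ n})
    ((fin_lv n).prod (fin_lv n)) (fun p t => sk p.1 p.2 → ∃ h, ρ t = (pr (π p.1) (π p.2) h, true)) (by
      rintro ⟨a, b⟩ _
      by_cases hab : sk a b
      · obtain ⟨t, h, ht⟩ := hsk a b hab
        exact ⟨t, fun _ => ⟨h, ht⟩⟩
      · exact ⟨0, fun k => absurd k hab⟩)
  let M : ℕ := max N l.length
  let l1 : Hist := hist ρ M
  have hl1 : l <+: l1 := by
    have : hist ρ l.length <+: l1 := hist_pre ρ (le_max_right _ _)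
    rwa [hρl] at this
  have hT1 : TG τ l1 := hρ.tg M
  have hE1 : ¬ As l1 e2 := by
    rintro ⟨c, hc⟩
    obtain ⟨i, _, hi⟩ := (mem_hist ρ M _).mp hc
    exact hne i (by rw [hi])
  have hq1 : ∀ j : Fin 4, ¬ As l1 (vp π (5 * m + j.val)) := by
    rintro j ⟨c, hc⟩
    obtain ⟨i, _, hi⟩ := (mem_hist ρ M _).mp hc
    rcases Nat.lt_or_ge i l.length with h | h
    · apply hm j
      refine ⟨c, ?_⟩
      rw [← hρl, mem_hist]
      exact ⟨i, h, hi⟩
    · exact hvp _ i h (by rw [hi])
  let q : Fin 4 → Pair := fun j => vp π (5 * m + j.val)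
  have hqi : Function.Injective q := by
    intro i j hij
    have := vp_inj π hij
    exact Fin.ext (by omega)
  -- all coding graphs agree on the place of the block
  have hloc : ∀ l2, l1 <+: l2 → ∀ G π' x', Cs (HS l2) G → Dec G π' x' → ∀ i, i + 2 ≤ n →
      vp π i = vp π' i := by
    intro l2 hl2 G π' x' hG hd i hi
    refine pinned_vp hd n (by omega) (fun a b hab ha hb' => ?_) i hi
    obtain ⟨t, ht, ht'⟩ := hN (a, b) ⟨ha, hb'⟩
    obtain ⟨h, hρt⟩ := ht' hab
    refine ⟨h, ?_⟩
    have h3 : (pr (π a) (π b) h, true) ∈ HS l2 := by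
      apply hs_pre hl2
      show _ ∈ hist ρ M
      rw [mem_hist]
      exact ⟨t, lt_of_lt_of_le ht (le_max_left _ _), hρt⟩
    exact (hG _ _ h3).mpr rfl
  have main : ∀ c ≤ 2, ∃ l2 u, kap u ≠ c ∧ l <+: l2 ∧ l.length < l2.length ∧ TG τ l2 ∧ ¬ As l2 e2 ∧
      ∀ G π x, Cs (HS l2) G → Dec G π x → (blk x m).1 = kap u := by
    intro c hc
    obtain ⟨l2, k1, k2, k3, k4⟩ := play τ q hqi e2 (fun j => hve _) c 4 (fun _ => none) (fw_start c hc)
      (by simp) l1 hT1 hE1 (fun j => hq1 j)
    rcases k4 with ⟨u, hu, huc⟩ | ⟨j, u, hj, hu, huk⟩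
    · refine ⟨l2, u, huc, hl1.trans k1, ?_, k2, k3, ?_⟩
      · have hpre := hl1.trans k1
        rcases Nat.lt_or_ge l.length l2.length with h | h
        · exact h
        · exfalso
          have : l = l2 := hpre.eq_of_length_le h
          apply hq1 0
          refine ⟨u 0, ?_⟩
          apply hl1.subset
          rw [this]
          exact hu 0
      · intro G π' x' hG hd
        have h3 : (fun j : Fin 4 => x' (5 * m + j.val)) = u := by
          funext j
          have h4 := hloc l2 k1 G π' x' hG hd (5 * m + j.val) (by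
            show 5 * m + j.val + 2 ≤ 5 * m + 11
            omega)
          have h5 := (hG _ _ (hu j))
          have h6 := mem_vp hd (5 * m + j.val)
          rw [← h4] at h6
          rw [Bool.eq_iff_iff, ← h6, ← h5]
        show kap (fun j => x' (5 * m + j.val)) = _
        rw [h3]
    · exfalso
      obtain ⟨ρ', hρ', hh, hn1, hn2⟩ := explore τ (fun _ e => e ≠ q j) (fun _ _ _ e h => h) (fun l' _ => by
        obtain ⟨w, h, hw⟩ := inf_star 0 ({e | As l' e} ∪ {q j})
          ((finite_as l').union (Set.finite_singleton _))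
        exact ⟨pr 0 w h, fun hc' => hw (Or.inr hc'), fun hc' => hw (Or.inl hc')⟩) l2 k2
      apply hNW ρ' hρ'
      intro I
      have hsub : HS l2 ⊆ Set.range ρ' := by
        rw [← hh]
        exact hs_run _
      refine win_nonpiv ρ' (q j) ?_ (fun e he => hn2 0 e he) ?_ I
      · intro i hi
        rcases Nat.lt_or_ge i l2.length with h | h
        · apply hj
          refine ⟨(ρ' i).2, ?_⟩
          rw [← hh, mem_hist]
          exact ⟨i, h, Prod.ext hi rfl⟩
        · exact hn1 i h hi
      · intro G π' x' hG hd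
        have hG2 : Cs (HS l2) G := hG.mono hsub
        have hv : ∀ i : Fin 4, vp π (5 * m + i.val) = vp π' (5 * m + i.val) := fun i =>
          hloc l2 k1 G π' x' hG2 hd (5 * m + i.val) (by
            show 5 * m + i.val + 2 ≤ 5 * m + 11
            omega)
        refine ⟨5 * m + j.val, (hv j).symm, ?_⟩
        funext m'
        unfold blk
        by_cases hm' : m' = m
        · subst hm'
          have h7 : ∀ b, (fun i : Fin 4 => Function.update x' (5 * m' + j.val) b (5 * m' + i.val)) =
              Function.update u j b := by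
            intro b
            funext i
            by_cases hij : i = j
            · subst hij
              simp
            · have h8 : 5 * m' + i.val ≠ 5 * m' + j.val := by
                intro h
                exact hij (Fin.ext (by omega))
              rw [Function.update_of_ne h8, Function.update_of_ne hij]
              have h5 := (hG2 _ _ (hu i hij))
              have h6 := mem_vp hd (5 * m' + i.val)
              rw [← hv i] at h6
              rw [Bool.eq_iff_iff, ← h6, ← h5]
          rw [h7, h7, huk]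
          have h9 : 5 * m' + 4 ≠ 5 * m' + j.val := by omega
          rw [Function.update_of_ne h9, Function.update_of_ne h9]
        · have h7 : ∀ b, (fun i : Fin 4 => Function.update x' (5 * m + j.val) b (5 * m' + i.val)) =
              fun i : Fin 4 => x' (5 * m' + i.val) := by
            intro b
            funext i
            rw [Function.update_of_ne]
            omega
          rw [h7, h7]
          have h9 : 5 * m' + 4 ≠ 5 * m + j.val := by omega
          rw [Function.update_of_ne h9, Function.update_of_ne h9]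
  obtain ⟨la, ua, ha, ha'⟩ := main 0 (by norm_num)
  obtain ⟨lb, ub, hub, hb'⟩ := main (kap ua) (kap_le ua)
  refine ⟨m, fun b => if b then kap ub else kap ua, fun b => if b then lb else la, ?_, ?_⟩
  · simp only [Bool.false_eq_true, if_false, if_true]
    exact hub.symm
  · intro b
    cases b
    · simpa using ha'
    · simpa using hb'

/-- Hider's strategies -/
theorem part_T (τ : Hist → Pair → Bool) :
    (∃ ρ, Run τ ρ ∧ ∀ I, WinRun (SI I) ρ) ∨
    ∃ (R : (ℕ → Bool) → ℕ → Pair × Bool) (zz : (ℕ → Bool) → ℕ → ℕ × Bool),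
      Function.Injective zz ∧ ∀ b, Run τ (R b) ∧ ∀ I, zz b ∉ I → WinRun (SI I) (R b) := by
  classical
  by_cases hex : ∃ ρ, Run τ ρ ∧ ∀ I, WinRun (SI I) ρ
  · exact Or.inl hex
  right
  have hNW : NW τ := fun ρ hρ hI => hex ⟨ρ, hρ, hI⟩
  have hyp := hyp_of hNW
  obtain ⟨l0, z0, e2, hb⟩ := base_exists τ hyp
  have : Nonempty Pair := ⟨e2⟩
  obtain ⟨en, hen⟩ := exists_surjective_nat Pair
  let OK : Hist → Prop := fun l => TG τ l ∧ l0 <+: l ∧ ¬ As l e2
  have hnext : ∀ l, OK l → ∃ (m : ℕ) (cc : Bool → ℕ) (L : Bool → Hist), cc false ≠ cc true ∧ ∀ b,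
      l <+: L b ∧ l.length < (L b).length ∧ TG τ (L b) ∧ ¬ As (L b) e2 ∧
      ∀ G π x, Cs (HS (L b)) G → Dec G π x → (blk x m).1 = cc b :=
    fun l hl => step τ hNW hb l hl.1 hl.2.1 hl.2.2
  choose! mm cc L hcc hL using hnext
  let ask : Hist → Pair → Hist := fun l e => if e ≠ e2 ∧ ¬ As l e then l ++ [(e, τ l e)] else l
  have hask : ∀ l e, l <+: ask l e := by
    intro l e
    show l <+: (if e ≠ e2 ∧ ¬ As l e then l ++ [(e, τ l e)] else l)
    split_ifs
    · exact List.prefix_append _ _
    · exact List.prefix_refl _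
  have hask2 : ∀ l e, OK l → OK (ask l e) := by
    intro l e hl
    show OK (if e ≠ e2 ∧ ¬ As l e then l ++ [(e, τ l e)] else l)
    split_ifs with h
    · refine ⟨TG.snoc _ _ hl.1 fun c hc => h.2 ⟨c, hc⟩, hl.2.1.trans (List.prefix_append _ _), ?_⟩
      rw [as_snoc]
      rintro (h' | h')
      · exact hl.2.2 h'
      · exact h.1 h'.symm
    · exact hl
  have hask3 : ∀ l e, e ≠ e2 → As (ask l e) e := by
    intro l e he
    show As (if e ≠ e2 ∧ ¬ As l e then l ++ [(e, τ l e)] else l) e
    split_ifs with h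
    · rw [as_snoc]
      exact Or.inr rfl
    · push Not at h
      exact h he
  let H : (ℕ → Bool) → ℕ → Hist := fun β k =>
    Nat.rec l0 (fun k l => ask (L l (β k)) (en k)) k
  have hHs : ∀ β k, H β (k + 1) = ask (L (H β k) (β k)) (en k) := fun β k => rfl
  have hOK : ∀ β k, OK (H β k) := by
    intro β k
    induction k with
    | zero => exact ⟨hb.tg, List.prefix_refl _, hb.na⟩
    | succ k ih =>
      rw [hHs]
      obtain ⟨h1, h2, h3, h4, h5⟩ := hL _ ih (β k)
      exact hask2 _ _ ⟨h3, ih.2.1.trans h1, h4⟩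
  have hpre : ∀ β k, H β k <+: H β (k + 1) := by
    intro β k
    rw [hHs]
    exact (hL _ (hOK β k) (β k)).1.trans (hask _ _)
  have hlen : ∀ β k, k ≤ (H β k).length := by
    intro β k
    induction k with
    | zero => exact Nat.zero_le _
    | succ k ih =>
      rw [hHs]
      have h1 := (hL _ (hOK β k) (β k)).2.1
      have h2 := (hask (L (H β k) (β k)) (en k)).length_le
      omega
  have hrun : ∀ β, ∃ ρ : ℕ → Pair × Bool, Run τ ρ ∧ (∀ k, H β k = hist ρ (H β k).length) ∧
      (∀ x, (∃ n, ρ n = x) ↔ ∃ k, x ∈ H β k) := fun β =>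
    chain_run τ (H β) (fun k => (hOK β k).1) (hpre β) (hlen β)
  choose R hR hRH hRm using hrun
  have hRe2 : ∀ β n, (R β n).1 ≠ e2 := by
    intro β n hn
    obtain ⟨k, hk⟩ := (hRm β (R β n)).mp ⟨n, rfl⟩
    exact (hOK β k).2.2 ⟨(R β n).2, by rw [← hn]; exact hk⟩
  have hRall : ∀ β e, e ≠ e2 → ∃ n c, R β n = (e, c) := by
    intro β e he
    obtain ⟨k, rfl⟩ := hen e
    obtain ⟨c, hc⟩ : As (H β (k + 1)) (en k) := by
      rw [hHs]
      exact hask3 _ _ he
    obtain ⟨n, hn⟩ := (hRm β _).mpr ⟨k + 1, hc⟩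
    exact ⟨n, c, hn⟩
  have hG : ∀ β, ∃ G π x, Cs (Set.range (R β)) G ∧ Dec G π x := fun β =>
    hyp (R β) (hR β) ⟨e2, hRe2 β⟩
  choose G π x hGc hGd using hG
  have hsub : ∀ β k, HS (H β k) ⊆ Set.range (R β) := by
    intro β k y hy
    exact (hRm β y).mpr ⟨k, hy⟩
  refine ⟨R, fun β => blk (x β), ?_, ?_⟩
  · intro β β' hββ
    by_contra hne
    have hne' : ∃ k, β k ≠ β' k := by
      by_contra h
      push Not at h
      exact hne (funext h)
    have hk := Nat.find_spec hne'
    have hk' : ∀ i < Nat.find hne', β i = β' i := fun i hi => by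
      have := Nat.find_min hne' hi
      push Not at this
      exact this
    generalize Nat.find hne' = k at hk hk'
    have hHe : ∀ i ≤ k, H β i = H β' i := by
      intro i
      induction i with
      | zero => intro _; rfl
      | succ i ih =>
        intro hi
        rw [hHs, hHs, ih (by omega), hk' i (by omega)]
    have h1 := (hL _ (hOK β k) (β k)).2.2.2.2 (G β) (π β) (x β)
      ((hGc β).mono ((hs_pre (hask _ (en k))).trans (hsub β (k + 1)))) (hGd β)
    have h2 := (hL _ (hOK β' k) (β' k)).2.2.2.2 (G β') (π β') (x β')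
      ((hGc β').mono ((hs_pre (hask _ (en k))).trans (hsub β' (k + 1)))) (hGd β')
    have h3 : blk (x β) = blk (x β') := hββ
    rw [← hHe k le_rfl, ← h3, h1] at h2
    have h4 := hcc _ (hOK β k)
    cases hβ : β k <;> cases hβ' : β' k
    · rw [hβ, hβ'] at hk
      exact hk rfl
    · rw [hβ, hβ'] at h2
      exact h4 h2
    · rw [hβ, hβ'] at h2
      exact h4 h2.symm
    · rw [hβ, hβ'] at hk
      exact hk rfl
  · intro β
    refine ⟨hR β, fun I hI => ⟨⟨e2, hRe2 β⟩, Or.inr ?_⟩⟩
    rintro G' hG' ⟨π', x', hd', hI'⟩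
    have hl0 : HS l0 ⊆ Set.range (R β) := hsub β 0
    have h1 := (hb.det G' π' x' (hG'.mono hl0) hd').2
    have h2 := (hb.det (G β) (π β) (x β) ((hGc β).mono hl0) (hGd β)).2
    have h3 : G' = G β := by
      ext e
      by_cases he : e = e2
      · rw [he]
        exact ⟨fun k => absurd k h1, fun k => absurd k h2⟩
      · obtain ⟨n, c, hn⟩ := hRall β e he
        rw [hG' _ _ ⟨n, hn⟩, hGc β _ _ ⟨n, hn⟩]
    rw [h3] at hd'
    rw [code_unique hd' (hGd β)] at hI'
    exact hI hI'

end Pool.Agent.Q215.Elus
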