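import Mathlib
import Pool.Agent.Q215.ElusG

set_option autoImplicit false

/-! Every strategy of Seeker: Hider keeps many codes undecided. -/

namespace Pool.Agent.Q215.Elus

open Role

/-- the number of unassigned bits -/
def nn (st : St) : ℕ := (Finset.univ.filter fun j => st j = none).card

theorem nn_up (st : St) (j : Fin 4) (a : Bool) (hj : st j = none) : nn (up st j a) + 1 = nn st := by
  have : (Finset.univ.filter fun i => (up st j a) i = none) =
      (Finset.univ.filter fun i => st i = none).erase j := by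
    ext i
    rw [Finset.mem_filter, Finset.mem_erase, Finset.mem_filter]
    by_cases h : i = j
    · simp [h, up]
    · simp [h, up]
  unfold nn
  rw [this, Finset.card_erase_add_one]
  simp [hj]

/-- the adversary is still able to keep the last question decisive -/
def Good (st : St) : Prop := good (nn st) st

theorem good_ans {st : St} (h : Good st) (j : Fin 4) (hj : st j = none) : ∃ a, Good (up st j a) := by
  unfold Good at h
  have h1 : 0 < nn st := by
    unfold nn
    rw [Finset.card_pos]
    exact ⟨j, by simp [hj]⟩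
  obtain ⟨n, hn⟩ : ∃ n, nn st = n + 1 := ⟨nn st - 1, by omega⟩
  cases n with
  | zero =>
    refine ⟨false, ?_⟩
    unfold Good
    have := nn_up st j false hj
    have h2 : nn (up st j false) = 0 := by omega
    rw [h2]
    trivial
  | succ n =>
    rw [hn] at h
    obtain ⟨a, ha⟩ := h j hj
    refine ⟨a, ?_⟩
    unfold Good
    have := nn_up st j a hj
    have h2 : nn (up st j a) = n + 1 := by omega
    rw [h2]
    exact ha

theorem fl_some {st : St} {i : Fin 4} {a : Bool} (h : st i = some a) : fl st i = a := by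
  simp [fl, h]

theorem good_split : ∀ n (st : St), nn st = n + 1 → good (n + 1) st →
    ∃ u u' : Fin 4 → Bool, (∀ i a, st i = some a → u i = a ∧ u' i = a) ∧ kap u ≠ kap u' := by
  intro n
  induction n with
  | zero =>
    intro st hn hg
    obtain ⟨j, hj⟩ := Finset.card_eq_one.mp hn
    have hj0 : st j = none := by
      have : j ∈ Finset.univ.filter fun j => st j = none := by rw [hj]; simp
      simpa using this
    refine ⟨fl (up st j false), fl (up st j true), ?_, hg j hj0⟩
    intro i a hi
    have hij : i ≠ j := by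
      rintro rfl
      rw [hj0] at hi
      simp at hi
    exact ⟨fl_some (by simp [up, hij, hi]), fl_some (by simp [up, hij, hi])⟩
  | succ n ih =>
    intro st hn hg
    have h1 : 0 < nn st := by omega
    unfold nn at h1
    rw [Finset.card_pos] at h1
    obtain ⟨j, hj⟩ := h1
    have hj0 : st j = none := by simpa using hj
    obtain ⟨a, ha⟩ := hg j hj0
    have h2 := nn_up st j a hj0
    obtain ⟨u, u', hu, huu⟩ := ih (up st j a) (by omega) ha
    refine ⟨u, u', ?_, huu⟩
    intro i b hi
    have hij : i ≠ j := by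
      rintro rfl
      rw [hj0] at hi
      simp at hi
    exact hu i b (by simp [up, hij, hi])

/-- the state of a block -/
noncomputable def bs (π : Role ≃ ℕ) (l : Hist) (n : ℕ) : St := by
  classical
  exact fun j => if (vp π (5 * n + j.val), true) ∈ l then some true
    else if (vp π (5 * n + j.val), false) ∈ l then some false else none

theorem bs_some {π : Role ≃ ℕ} {l : Hist} {n : ℕ} {j : Fin 4} {a : Bool}
    (h : bs π l n j = some a) : (vp π (5 * n + j.val), a) ∈ l := by
  unfold bs at h
  split_ifs at h with h1 h2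
  · cases h; exact h1
  · cases h; exact h2

theorem bs_none {π : Role ≃ ℕ} {l : Hist} {n : ℕ} {j : Fin 4} :
    bs π l n j = none ↔ ¬ As l (vp π (5 * n + j.val)) := by
  unfold bs As
  split_ifs with h1 h2
  · simp only [false_iff, not_not]
    exact ⟨_, h1⟩
  · simp only [false_iff, not_not]
    exact ⟨_, h2⟩
  · simp only [true_iff]
    rintro ⟨c, hc⟩
    cases c
    · exact h2 hc
    · exact h1 hc

theorem bs_snoc_other {π : Role ≃ ℕ} {l : Hist} {n : ℕ} {e : Pair} {c : Bool}
    (h : ∀ j : Fin 4, e ≠ vp π (5 * n + j.val)) : bs π (l ++ [(e, c)]) n = bs π l n := by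
  funext j
  unfold bs
  have h1 : ∀ b, ((vp π (5 * n + j.val), b) ∈ l ++ [(e, c)]) ↔ (vp π (5 * n + j.val), b) ∈ l := by
    intro b
    rw [List.mem_append, List.mem_singleton]
    constructor
    · rintro (k | k)
      · exact k
      · exact absurd (Prod.mk.inj k).1.symm (h j)
    · exact Or.inl
  simp only [h1]

theorem bs_snoc_self {π : Role ≃ ℕ} {l : Hist} {n : ℕ} {j : Fin 4} {c : Bool}
    (h : ¬ As l (vp π (5 * n + j.val))) :
    bs π (l ++ [(vp π (5 * n + j.val), c)]) n = up (bs π l n) j c := by
  funext i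
  by_cases hij : i = j
  · subst hij
    have h1 : up (bs π l n) i c i = some c := by simp [up]
    rw [h1]
    unfold bs
    have h2 : ∀ b, ((vp π (5 * n + i.val), b) ∈ l ++ [(vp π (5 * n + i.val), c)]) ↔ b = c := by
      intro b
      rw [List.mem_append, List.mem_singleton]
      constructor
      · rintro (k | k)
        · exact absurd ⟨_, k⟩ h
        · exact (Prod.mk.inj k).2
      · rintro rfl
        exact Or.inr rfl
    simp only [h2]
    cases c <;> simp
  · have h1 : up (bs π l n) j c i = bs π l n i := by simp [up, hij]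
    rw [h1]
    unfold bs
    have h2 : ∀ b, ((vp π (5 * n + i.val), b) ∈ l ++ [(vp π (5 * n + j.val), c)]) ↔
        (vp π (5 * n + i.val), b) ∈ l := by
      intro b
      rw [List.mem_append, List.mem_singleton]
      constructor
      · rintro (k | k)
        · exact k
        · exfalso
          have := vp_inj π (Prod.mk.inj k).1
          exact hij (Fin.ext (by omega))
      · exact Or.inl
    simp only [h2]

theorem std_nv {π : Role ≃ ℕ} {e : Pair} (he : ∀ i, e ≠ vp π i) (x x' : ℕ → Bool)
    (h : e ∈ std π x) : e ∈ std π x' := by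
  obtain ⟨a, b, hA, hne, rfl⟩ := h
  refine ⟨a, b, ?_, hne, rfl⟩
  match a with
  | z => rwa [A_z] at hA ⊢
  | r 0 => rwa [A_r0] at hA ⊢
  | r (j + 1) => rwa [A_rs] at hA ⊢
  | s j => rwa [A_s] at hA ⊢
  | g j c =>
    rw [A_g] at hA ⊢
    rcases hA with hA | hA
    · exact Or.inl hA
    · exfalso
      apply he j
      obtain ⟨rfl, _⟩ := hA
      unfold vp
      rw [pr_eq]
      cases c
      · exact Or.inl ⟨rfl, rfl⟩
      · exact Or.inr ⟨rfl, rfl⟩

/-- what Hider maintains -/
structure Inv (π : Role ≃ ℕ) (h : ℕ → Bool) (l : Hist) : Prop where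
  gd : ∀ n, Good (bs π l n)
  fr : ∀ n c, (vp π (5 * n + 4), c) ∈ l → c = h n
  sk : ∀ e c, (e, c) ∈ l → (∀ i, e ≠ vp π i) → (c = true ↔ e ∈ std π (fun _ => false))

theorem inv_nil (π : Role ≃ ℕ) (h : ℕ → Bool) : Inv π h [] := by
  refine ⟨fun n => ?_, fun n c hc => by simp at hc, fun e c hc => by simp at hc⟩
  have h1 : bs π [] n = fun _ => none := by
    funext j
    rw [bs_none]
    rintro ⟨c, hc⟩
    simp at hc
  rw [h1]
  have h2 : nn (fun _ => none) = 4 := by simp [nn]
  unfold Good
  rw [h2]
  exact good_start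

theorem inv_step (π : Role ≃ ℕ) (h : ℕ → Bool) (l : Hist) (hl : Inv π h l) (e : Pair)
    (he : ¬ As l e) : ∃ a, Inv π h (l ++ [(e, a)]) := by
  classical
  by_cases h1 : ∃ i, e = vp π i
  · obtain ⟨i, rfl⟩ := h1
    by_cases h2 : i % 5 = 4
    · refine ⟨h (i / 5), ?_, ?_, ?_⟩
      · intro n
        rw [bs_snoc_other]
        · exact hl.gd n
        · intro j hj
          have := vp_inj π hj
          omega
      · intro n c hc
        rw [List.mem_append, List.mem_singleton] at hc
        rcases hc with hc | hc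
        · exact hl.fr n c hc
        · obtain ⟨h3, h4⟩ := Prod.mk.inj hc
          have := vp_inj π h3
          rw [h4]
          congr 1
          omega
      · intro e c hc hv
        rw [List.mem_append, List.mem_singleton] at hc
        rcases hc with hc | hc
        · exact hl.sk e c hc hv
        · exact absurd (Prod.mk.inj hc).1 (hv _)
    · have h3 : i % 5 < 4 := by omega
      have h4 : i = 5 * (i / 5) + (⟨i % 5, h3⟩ : Fin 4).val := by
        show i = 5 * (i / 5) + i % 5
        omega
      generalize hn : i / 5 = n at h4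
      generalize (⟨i % 5, h3⟩ : Fin 4) = j at h4
      subst h4
      obtain ⟨a, ha⟩ := good_ans (hl.gd n) j (bs_none.mpr he)
      refine ⟨a, ?_, ?_, ?_⟩
      · intro n'
        by_cases hnn : n' = n
        · subst hnn
          rw [bs_snoc_self he]
          exact ha
        · rw [bs_snoc_other]
          · exact hl.gd n'
          · intro j' hj'
            have := vp_inj π hj'
            omega
      · intro n' c hc
        rw [List.mem_append, List.mem_singleton] at hc
        rcases hc with hc | hc
        · exact hl.fr n' c hc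
        · have := vp_inj π (Prod.mk.inj hc).1
          omega
      · intro e c hc hv
        rw [List.mem_append, List.mem_singleton] at hc
        rcases hc with hc | hc
        · exact hl.sk e c hc hv
        · exact absurd (Prod.mk.inj hc).1 (hv _)
  · push Not at h1
    refine ⟨decide (e ∈ std π (fun _ => false)), ?_, ?_, ?_⟩
    · intro n
      rw [bs_snoc_other fun j => h1 _]
      exact hl.gd n
    · intro n c hc
      rw [List.mem_append, List.mem_singleton] at hc
      rcases hc with hc | hc
      · exact hl.fr n c hc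
      · exact absurd (Prod.mk.inj hc).1.symm (h1 _)
    · intro e' c hc hv
      rw [List.mem_append, List.mem_singleton] at hc
      rcases hc with hc | hc
      · exact hl.sk e' c hc hv
      · obtain ⟨rfl, rfl⟩ := Prod.mk.inj hc
        simp

/-- assemble a sequence of bits from blocks -/
def mk (u : ℕ → Fin 4 → Bool) (h : ℕ → Bool) : ℕ → Bool := fun i =>
  if hi : i % 5 < 4 then u (i / 5) ⟨i % 5, hi⟩ else h (i / 5)

theorem mk_lo (u : ℕ → Fin 4 → Bool) (h : ℕ → Bool) (n : ℕ) (j : Fin 4) :
    mk u h (5 * n + j.val) = u n j := by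
  have h1 : (5 * n + j.val) % 5 = j.val := by omega
  have h2 : (5 * n + j.val) / 5 = n := by omega
  have h3 : ∀ (a b : ℕ) (hlt : b < 4), a = n → b = j.val → u a ⟨b, hlt⟩ = u n j := by
    rintro _ _ _ rfl rfl
    rfl
  unfold mk
  rw [dif_pos (by omega)]
  exact h3 _ _ _ h2 h1

theorem mk_hi (u : ℕ → Fin 4 → Bool) (h : ℕ → Bool) (n : ℕ) : mk u h (5 * n + 4) = h n := by
  unfold mk
  rw [dif_neg (by omega)]
  congr 1
  omega

theorem blk_mk (u : ℕ → Fin 4 → Bool) (h : ℕ → Bool) (n : ℕ) : blk (mk u h) n = (kap (u n), h n) := by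
  unfold blk
  rw [mk_hi]
  congr 2
  funext j
  exact mk_lo u h n j

/-- the run in which Seeker follows `σ` and Hider follows `τ` -/
theorem both (σ : Hist → Pair) (hσ : ∀ l : Hist, (l.map Prod.fst).Nodup → ¬ As l (σ l))
    (τ : Hist → Pair → Bool) :
    ∃ ρ, Run τ ρ ∧ ∀ n, (ρ n).1 = σ (hist ρ n) := by
  let H : ℕ → Hist := fun k => Nat.rec [] (fun _ l => l ++ [(σ l, τ l (σ l))]) k
  have hHs : ∀ k, H (k + 1) = H k ++ [(σ (H k), τ (H k) (σ (H k)))] := fun k => rfl
  have hHT : ∀ k, TG τ (H k) := by
    intro k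
    induction k with
    | zero => exact TG.nil
    | succ k ih =>
      rw [hHs]
      exact TG.snoc _ _ ih fun c hc => hσ _ ih.nodup ⟨c, hc⟩
  have hHl : ∀ k, (H k).length = k := by
    intro k
    induction k with
    | zero => rfl
    | succ k ih => rw [hHs, List.length_append, ih, List.length_singleton]
  obtain ⟨ρ, hρ, hH, -⟩ := chain_run τ H hHT (fun k => by rw [hHs]; exact List.prefix_append _ _)
    (fun k => by rw [hHl])
  have hHk : ∀ k, hist ρ k = H k := fun k => by
    have := hH k
    rw [hHl] at this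
    exact this.symm
  refine ⟨ρ, hρ, fun k => ?_⟩
  have h1 := hHk (k + 1)
  rw [hist_succ, hHs, hHk] at h1
  rw [hHk]
  have h2 : ρ k = (σ (H k), τ (H k) (σ (H k))) := by simpa using h1
  rw [h2]

theorem not_win {S : Set (Set Pair)} {ρ : ℕ → Pair × Bool} {G1 G2 : Set Pair}
    (h1 : Cs (Set.range ρ) G1) (h2 : Cs (Set.range ρ) G2) (k1 : G1 ∈ S) (k2 : G2 ∉ S) :
    ¬ WinRun S ρ := by
  rintro ⟨_, h | h⟩
  · exact k2 (h G2 h2)
  · exact h G1 h1 k1

/-- Seeker's strategies -/
theorem part_S (σ : Hist → Pair) (hσ : ∀ l : Hist, (l.map Prod.fst).Nodup → ¬ As l (σ l))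
    (h : ℕ → Bool) :
    ∃ (ρ : ℕ → Pair × Bool) (z1 z2 : ℕ → ℕ × Bool),
      (Function.Injective (fun n => (ρ n).1) ∧ ∀ n, (ρ n).1 = σ (hist ρ n)) ∧ z1 ≠ z2 ∧
      (∀ n, (z1 n).2 = h n) ∧ (∃ k, ∀ n, n ≠ k → (z2 n).2 = h n) ∧
      ∀ I, z1 ∈ I → z2 ∉ I → ¬ WinRun (SI I) ρ := by
  classical
  obtain ⟨π⟩ : Nonempty (Role ≃ ℕ) := by
    have h1 : Infinite Role := Infinite.of_injective r (fun a b hab => by simpa using hab)
    have h2 : Countable Role := by
      let f : Role → (ℕ ⊕ ℕ) ⊕ (Fin 4 ⊕ ℕ × Bool) := fun a => match a with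
        | z => Sum.inl (Sum.inl 0)
        | r i => Sum.inl (Sum.inr i)
        | s j => Sum.inr (Sum.inl j)
        | g i c => Sum.inr (Sum.inr (i, c))
      apply Function.Injective.countable (f := f)
      intro a b hab
      cases a <;> cases b <;> simp_all [f]
    obtain ⟨hd⟩ := nonempty_denumerable Role
    exact ⟨Denumerable.eqv Role⟩
  have hans := inv_step π h
  choose! τ hτ using hans
  obtain ⟨ρ, hρ, hρσ⟩ := both σ hσ τ
  have hTG : ∀ l, TG τ l → Inv π h l := by
    intro l hl
    induction hl with
    | nil => exact inv_nil π h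
    | snoc l e h1 h2 ih => exact hτ l ih e (fun ⟨c, hc⟩ => h2 c hc)
  have hInv : ∀ n, Inv π h (hist ρ n) := fun n => hTG _ (hρ.tg n)
  -- the final states of the blocks
  have hst : ∀ n, ∃ st : St, Good st ∧
      (∀ j a, st j = some a → ∃ t, ρ t = (vp π (5 * n + j.val), a)) ∧
      (∀ j, st j = none → ∀ t, (ρ t).1 ≠ vp π (5 * n + j.val)) := by
    intro n
    obtain ⟨T, hT⟩ := fin_time {j : Fin 4 | ∃ t, (ρ t).1 = vp π (5 * n + j.val)} (Set.toFinite _)
      (fun j t => (ρ t).1 = vp π (5 * n + j.val)) (fun j hj => hj)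
    refine ⟨bs π (hist ρ T) n, (hInv T).gd n, ?_, ?_⟩
    · intro j a hj
      obtain ⟨t, _, ht⟩ := (mem_hist _ _ _).mp (bs_some hj)
      exact ⟨t, ht⟩
    · intro j hj t ht
      rw [bs_none] at hj
      obtain ⟨t', ht', hk⟩ := hT j ⟨t, ht⟩
      apply hj
      refine ⟨(ρ t').2, ?_⟩
      rw [mem_hist]
      exact ⟨t', ht', Prod.ext hk rfl⟩
  choose st hst1 hst2 hst3 using hst
  -- consistency
  have hcons : ∀ x : ℕ → Bool, (∀ t i, (ρ t).1 = vp π i → (ρ t).2 = x i) →
      Cs (Set.range ρ) (std π x) := by
    rintro x hx e c ⟨t, ht⟩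
    by_cases hv : ∃ i, e = vp π i
    · obtain ⟨i, rfl⟩ := hv
      rw [mem_vp (dec_std π x)]
      have := hx t i (by rw [ht])
      rw [ht] at this
      simp only at this
      rw [this]
    · push Not at hv
      have h1 := (hInv (t + 1)).sk e c (by rw [mem_hist]; exact ⟨t, by omega, ht⟩) hv
      rw [h1]
      exact ⟨std_nv hv _ _, std_nv hv _ _⟩
  have hmk : ∀ u : ℕ → Fin 4 → Bool, (∀ n i a, st n i = some a → u n i = a) →
      ∀ t i, (ρ t).1 = vp π i → (ρ t).2 = mk u h i := by
    intro u hu t i hi
    by_cases h2 : i % 5 = 4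
    · have h3 : i = 5 * (i / 5) + 4 := by omega
      rw [h3] at hi ⊢
      rw [mk_hi]
      apply (hInv (t + 1)).fr (i / 5)
      rw [mem_hist]
      exact ⟨t, by omega, Prod.ext hi rfl⟩
    · have h3 : i % 5 < 4 := by omega
      have h4 : i = 5 * (i / 5) + (⟨i % 5, h3⟩ : Fin 4).val := by
        show i = 5 * (i / 5) + i % 5
        omega
      generalize (⟨i % 5, h3⟩ : Fin 4) = j at h4
      rw [h4] at hi ⊢
      rw [mk_lo]
      cases hs : st (i / 5) j with
      | none => exact absurd hi (hst3 _ _ hs t)
      | some a =>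
        rw [hu _ _ _ hs]
        obtain ⟨t', ht'⟩ := hst2 _ _ _ hs
        have h5 : (ρ t).1 = (ρ t').1 := by rw [ht', hi]
        have h6 := hρ.inj h5
        rw [h6, ht']
  let u0 : ℕ → Fin 4 → Bool := fun n => fl (st n)
  have hu0 : ∀ n i a, st n i = some a → u0 n i = a := fun n i a hs => fl_some hs
  have hc0 : Cs (Set.range ρ) (std π (mk u0 h)) := hcons _ (hmk u0 hu0)
  have hin : ∀ I, blk (mk u0 h) ∈ I → std π (mk u0 h) ∈ SI I := fun I hI =>
    (mem_SI (dec_std π _) I).mpr hI
  by_cases hW : ∃ e0, ∀ n, (ρ n).1 ≠ e0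
  swap
  · refine ⟨ρ, fun n => (0, h n), fun n => (1, h n), ⟨hρ.inj, hρσ⟩, ?_, fun n => rfl, ⟨0, fun n _ => rfl⟩, ?_⟩
    · intro hc
      have := congrFun hc 0
      simp at this
    · intro I _ _ hw
      exact hW hw.1
  obtain ⟨e0, he0⟩ := hW
  by_cases hv : ∃ i, e0 = vp π i
  · obtain ⟨i, rfl⟩ := hv
    by_cases h2 : i % 5 = 4
    · -- a free bit
      let x' : ℕ → Bool := Function.update (mk u0 h) i (!(mk u0 h i))
      have hc1 : Cs (Set.range ρ) (std π x') := by
        apply hcons
        intro t i' hi'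
        have hne : i' ≠ i := by
          rintro rfl
          exact he0 t hi'
        show _ = Function.update (mk u0 h) i (!(mk u0 h i)) i'
        rw [Function.update_of_ne hne]
        exact hmk u0 hu0 t i' hi'
      refine ⟨ρ, blk (mk u0 h), blk x', ⟨hρ.inj, hρσ⟩, ?_, ?_, ⟨i / 5, ?_⟩, ?_⟩
      · intro hc
        have h3 := congrArg Prod.snd (congrFun hc (i / 5))
        have h4 : 5 * (i / 5) + 4 = i := by omega
        simp only [blk, h4] at h3
        have h5 : x' i = !(mk u0 h i) := Function.update_self _ _ _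
        rw [h5] at h3
        cases hmi : mk u0 h i <;> simp [hmi] at h3
      · intro n
        rw [blk_mk]
      · intro n hn
        show x' (5 * n + 4) = h n
        have h3 : 5 * n + 4 ≠ i := by omega
        show Function.update (mk u0 h) i (!(mk u0 h i)) (5 * n + 4) = h n
        rw [Function.update_of_ne h3, mk_hi]
      · intro I h3 h4
        exact not_win hc0 hc1 (hin I h3) (fun hc => h4 ((mem_SI (dec_std π _) I).mp hc))
    · -- a bit of a gadget
      have h3 : i % 5 < 4 := by omega
      have h4 : i = 5 * (i / 5) + (⟨i % 5, h3⟩ : Fin 4).val := by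
        show i = 5 * (i / 5) + i % 5
        omega
      generalize hn : i / 5 = n at h4
      generalize (⟨i % 5, h3⟩ : Fin 4) = j at h4
      have hnone : st n j = none := by
        cases hs : st n j with
        | none => rfl
        | some a =>
          obtain ⟨t, ht⟩ := hst2 _ _ _ hs
          exact absurd (by rw [ht, h4]) (he0 t)
      have hpos : 0 < nn (st n) := by
        unfold nn
        rw [Finset.card_pos]
        exact ⟨j, by simp [hnone]⟩
      have hg := hst1 n
      unfold Good at hg
      obtain ⟨k, hk⟩ : ∃ k, nn (st n) = k + 1 := ⟨nn (st n) - 1, by omega⟩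
      rw [hk] at hg
      obtain ⟨u, u', huu, hkk⟩ := good_split k (st n) hk hg
      let U : ℕ → Fin 4 → Bool := fun n' => if n' = n then u else u0 n'
      let U' : ℕ → Fin 4 → Bool := fun n' => if n' = n then u' else u0 n'
      have hU : ∀ n' i a, st n' i = some a → U n' i = a := by
        intro n' i a hs
        show (if n' = n then u else u0 n') i = a
        split_ifs with h5
        · subst h5
          exact (huu i a hs).1
        · exact hu0 n' i a hs
      have hU' : ∀ n' i a, st n' i = some a → U' n' i = a := by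
        intro n' i a hs
        show (if n' = n then u' else u0 n') i = a
        split_ifs with h5
        · subst h5
          exact (huu i a hs).2
        · exact hu0 n' i a hs
      refine ⟨ρ, blk (mk U h), blk (mk U' h), ⟨hρ.inj, hρσ⟩, ?_, ?_, ⟨0, ?_⟩, ?_⟩
      · intro hc
        have h5 := congrArg Prod.fst (congrFun hc n)
        rw [blk_mk, blk_mk] at h5
        simp only [U, U', if_true] at h5
        exact hkk h5
      · intro n'
        rw [blk_mk]
      · intro n' _
        rw [blk_mk]
      · intro I h5 h6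
        exact not_win (hcons _ (hmk U hU)) (hcons _ (hmk U' hU'))
          ((mem_SI (dec_std π _) I).mpr h5) (fun hc => h6 ((mem_SI (dec_std π _) I).mp hc))
  · -- a pair that is not variable
    push Not at hv
    let G2 : Set Pair := {e | if e = e0 then e ∉ std π (mk u0 h) else e ∈ std π (mk u0 h)}
    have hc2 : Cs (Set.range ρ) G2 := by
      rintro e c ⟨t, ht⟩
      have hne : e ≠ e0 := by
        rintro rfl
        exact he0 t (by rw [ht])
      have h1 : e ∈ G2 ↔ e ∈ std π (mk u0 h) := by
        show (if e = e0 then e ∉ std π (mk u0 h) else e ∈ std π (mk u0 h)) ↔ _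
        rw [if_neg hne]
      rw [h1]
      exact hc0 e c ⟨t, ht⟩
    have hno : ∀ I, G2 ∉ SI I := by
      rintro I ⟨π', x', hd', _⟩
      obtain ⟨i, hi⟩ := differ (dec_std π (mk u0 h)) hd' e0 (fun e he => by
        show (if e = e0 then e ∉ std π (mk u0 h) else e ∈ std π (mk u0 h)) ↔ _
        rw [if_neg he]) (by
        show (if e0 = e0 then e0 ∉ std π (mk u0 h) else e0 ∈ std π (mk u0 h)) ↔ _
        rw [if_pos rfl])
      exact hv i hi
    refine ⟨ρ, blk (mk u0 h), fun n => ((blk (mk u0 h) n).1 + 1, h n), ⟨hρ.inj, hρσ⟩, ?_, ?_, ⟨0, fun n _ => rfl⟩, ?_⟩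
    · intro hc
      have := congrArg Prod.fst (congrFun hc 0)
      simp at this
    · intro n
      rw [blk_mk]
    · intro I h3 _
      exact not_win hc0 hc2 (hin I h3) (hno I)

end Pool.Agent.Q215.Elus
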