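import Mathlib
import Pool.Agent.Q215.ElusH

set_option autoImplicit false

/-! A selection by transfinite recursion of length at most the continuum. -/

namespace Pool.Agent.Q215.Elus

open Cardinal

theorem select {Θ B Z : Type} (hΘ : #Θ ≤ 𝔠) (hB : #B = 𝔠) (U : Θ → B → Set Z)
    (hU : ∀ θ b, (U θ b).Countable) (hz : ∀ θ z, {b | z ∈ U θ b}.Countable) :
    ∃ f : Θ → B, ∀ θ θ', θ ≠ θ' → Disjoint (U θ (f θ)) (U θ' (f θ')) := by
  classical
  obtain ⟨lo, wf, hord⟩ := exists_ord_eq_type_lt Θ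
  have hne : Nonempty B := by
    rw [← mk_ne_zero_iff, hB]
    exact Cardinal.continuum_ne_zero
  have key : ∀ (θ : Θ) (V : Set Z), #V < 𝔠 → ∃ b, Disjoint V (U θ b) := by
    intro θ V hV
    by_contra hno
    push Not at hno
    have h1 : (Set.univ : Set B) ⊆ ⋃ z : V, {b | z.1 ∈ U θ b} := by
      intro b _
      have h2 := hno b
      rw [Set.not_disjoint_iff] at h2
      obtain ⟨z, hz1, hz2⟩ := h2
      exact Set.mem_iUnion.mpr ⟨⟨z, hz1⟩, hz2⟩
    have h2 : #(Set.univ : Set B) ≤ #(⋃ z : V, {b | z.1 ∈ U θ b}) := mk_le_mk_of_subset h1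
    rw [mk_univ, hB] at h2
    have h3 : #(⋃ z : V, {b | z.1 ∈ U θ b}) ≤ #V * ℵ₀ := by
      refine (mk_iUnion_le _).trans ?_
      gcongr
      apply ciSup_le'
      intro z
      exact le_aleph0_iff_set_countable.mpr (hz θ z.1)
    have h4 : #V * ℵ₀ < 𝔠 := mul_lt_of_lt aleph0_lt_continuum.le hV aleph0_lt_continuum
    exact absurd (h2.trans h3) (not_le.mpr h4)
  -- the recursion
  have hrec : ∀ θ : Θ, ∀ F : (θ' : Θ) → θ' < θ → B,
      ∃ b, ∀ θ' (h : θ' < θ), Disjoint (U θ' (F θ' h)) (U θ b) := by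
    intro θ F
    let V : Set Z := ⋃ p : Set.Iio θ, U p.1 (F p.1 p.2)
    have hV : #V < 𝔠 := by
      have h1 : #(Set.Iio θ) < #Θ := mk_Iio_lt θ hord
      have h2 : #V ≤ #(Set.Iio θ) * ℵ₀ := by
        refine (mk_iUnion_le _).trans ?_
        gcongr
        apply ciSup_le'
        intro z
        exact le_aleph0_iff_set_countable.mpr (hU _ _)
      exact lt_of_le_of_lt h2 (mul_lt_of_lt aleph0_lt_continuum.le (h1.trans_le hΘ) aleph0_lt_continuum)
    obtain ⟨b, hb⟩ := key θ V hV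
    refine ⟨b, fun θ' h => ?_⟩
    exact Set.disjoint_of_subset_left (fun z hz' => Set.mem_iUnion.mpr ⟨⟨θ', h⟩, hz'⟩) hb
  choose G hG using hrec
  let f : Θ → B := wf.wf.fix G
  have hf : ∀ θ, f θ = G θ (fun θ' _ => f θ') := fun θ => wf.wf.fix_eq G θ
  have hlt : ∀ θ θ', θ' < θ → Disjoint (U θ' (f θ')) (U θ (f θ)) := by
    intro θ θ' h
    have := hG θ (fun θ' _ => f θ') θ' h
    rwa [← hf] at this
  refine ⟨f, fun θ θ' h => ?_⟩
  rcases lt_trichotomy θ θ' with h1 | h1 | h1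
  · exact hlt _ _ h1
  · exact absurd h1 h
  · exact (hlt _ _ h1).symm

/-- the undetermined property -/
theorem exists_I : ∃ I : Set (ℕ → ℕ × Bool),
    (∀ σ : Hist → Pair, (∀ l : Hist, (l.map Prod.fst).Nodup → ¬ As l (σ l)) →
      ∃ ρ : ℕ → Pair × Bool, Function.Injective (fun n => (ρ n).1) ∧
        (∀ n, (ρ n).1 = σ (hist ρ n)) ∧ ¬ WinRun (SI I) ρ) ∧
    ∀ τ : Hist → Pair → Bool, ∃ ρ, Run τ ρ ∧ WinRun (SI I) ρ := by
  classical
  let Sk : Type := {σ : Hist → Pair // ∀ l : Hist, (l.map Prod.fst).Nodup → ¬ As l (σ l)}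
  let T : Type := Hist → Pair → Bool
  let B : Type := ℕ → Bool
  have hS : ∀ (σ : Sk) (h : B), ∃ (ρ : ℕ → Pair × Bool) (z1 z2 : ℕ → ℕ × Bool),
      (Function.Injective (fun n => (ρ n).1) ∧ ∀ n, (ρ n).1 = σ.1 (hist ρ n)) ∧ z1 ≠ z2 ∧
      (∀ n, (z1 n).2 = h n) ∧ (∃ k, ∀ n, n ≠ k → (z2 n).2 = h n) ∧
      ∀ I, z1 ∈ I → z2 ∉ I → ¬ WinRun (SI I) ρ := fun σ h => part_S σ.1 σ.2 h
  choose ρS z1 z2 hρS hz12 hz1 hz2 hwS using hS
  have hT : ∀ τ : T, ∃ (R : B → ℕ → Pair × Bool) (W : B → Set (ℕ → ℕ × Bool)),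
      (∀ b, (W b).Countable) ∧ (∀ z, {b | z ∈ W b}.Countable) ∧
      ∀ b, Run τ (R b) ∧ ∀ I, Disjoint I (W b) → WinRun (SI I) (R b) := by
    intro τ
    rcases part_T τ with ⟨ρ, hρ, hI⟩ | ⟨R, zz, hinj, hR⟩
    · refine ⟨fun _ => ρ, fun _ => ∅, fun _ => Set.countable_empty, fun z => ?_,
        fun b => ⟨hρ, fun I _ => hI I⟩⟩
      have : {b : B | z ∈ (∅ : Set (ℕ → ℕ × Bool))} = ∅ := by
        ext b
        simp
      rw [this]
      exact Set.countable_empty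
    · refine ⟨R, fun b => {zz b}, fun _ => Set.countable_singleton _, fun z => ?_,
        fun b => ⟨(hR b).1, fun I hI => (hR b).2 I (Set.disjoint_singleton_right.mp hI)⟩⟩
      apply Set.Subsingleton.countable
      intro b hb b' hb'
      exact hinj ((Set.mem_singleton_iff.mp hb).symm.trans (Set.mem_singleton_iff.mp hb'))
  choose R W hW1 hW2 hR using hT
  have hHist : #Hist ≤ ℵ₀ := mk_le_aleph0
  have hHP : #(Hist × Pair) ≤ ℵ₀ := mk_le_aleph0
  have hcardS : #(Hist → Pair) ≤ 𝔠 := by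
    rw [← power_def]
    calc #Pair ^ #Hist ≤ ℵ₀ ^ #Hist := power_le_power_right mk_le_aleph0
      _ ≤ ℵ₀ ^ ℵ₀ := power_le_power_left aleph0_ne_zero hHist
      _ = 𝔠 := aleph0_power_aleph0
  have hcardT : #T ≤ 𝔠 := by
    have e : T ≃ (Hist × Pair → Bool) := (Equiv.curry _ _ _).symm
    rw [e.cardinal_eq, ← power_def, mk_bool]
    calc (2 : Cardinal) ^ #(Hist × Pair) ≤ 2 ^ ℵ₀ := power_le_power_left two_ne_zero hHP
      _ = 𝔠 := two_power_aleph0
  have hΘ : #(Sk ⊕ T) ≤ 𝔠 := by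
    rw [mk_sum, lift_id, lift_id]
    have h1 : #Sk ≤ 𝔠 := (mk_subtype_le _).trans hcardS
    calc #Sk + #T ≤ 𝔠 + 𝔠 := add_le_add h1 hcardT
      _ = 𝔠 := continuum_add_self
  have hB : #B = 𝔠 := by
    show #(ℕ → Bool) = 𝔠
    rw [← power_def, mk_bool, mk_nat, two_power_aleph0]
  let U : Sk ⊕ T → B → Set (ℕ → ℕ × Bool) := fun θ b => match θ with
    | Sum.inl σ => {z1 σ b, z2 σ b}
    | Sum.inr τ => W τ b
  obtain ⟨f, hf⟩ := select hΘ hB U (by
    intro θ b
    rcases θ with σ | τ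
    · exact (Set.toFinite ({z1 σ b, z2 σ b} : Set (ℕ → ℕ × Bool))).countable
    · exact hW1 τ b) (by
    intro θ z
    rcases θ with σ | τ
    · have h1 : {b | z ∈ U (Sum.inl σ) b} ⊆
          Set.range (fun p : ℕ × Bool => Function.update (fun n => (z n).2) p.1 p.2) := by
        rintro b hb
        have hb' : z = z1 σ b ∨ z = z2 σ b := hb
        rcases hb' with rfl | rfl
        · refine ⟨(0, b 0), ?_⟩
          funext n
          by_cases hn : n = 0
          · subst hn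
            simp
          · simp only
            rw [Function.update_of_ne hn]
            exact hz1 σ b n
        · obtain ⟨k, hk⟩ := hz2 σ b
          refine ⟨(k, b k), ?_⟩
          funext n
          by_cases hn : n = k
          · subst hn
            simp
          · simp only
            rw [Function.update_of_ne hn]
            exact hk n hn
      exact (Set.countable_range _).mono h1
    · exact hW2 τ z)
  refine ⟨{z | ∃ σ, z = z1 σ (f (Sum.inl σ))}, ?_, ?_⟩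
  · intro σ hσ
    let σ' : Sk := ⟨σ, hσ⟩
    refine ⟨ρS σ' (f (Sum.inl σ')), (hρS _ _).1, (hρS _ _).2, hwS _ _ _ ⟨σ', rfl⟩ ?_⟩
    rintro ⟨σ'', h⟩
    by_cases he : σ'' = σ'
    · subst he
      exact hz12 _ _ h.symm
    · have h1 := hf (Sum.inl σ') (Sum.inl σ'') (fun k => he (Sum.inl.inj k).symm)
      rw [Set.disjoint_left] at h1
      exact h1 (a := z2 σ' (f (Sum.inl σ'))) (Or.inr rfl) (Or.inl h)
  · intro τ
    refine ⟨R τ (f (Sum.inr τ)), (hR _ _).1, (hR _ _).2 _ ?_⟩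
    rw [Set.disjoint_left]
    rintro z ⟨σ, rfl⟩ hz
    have h1 := hf (Sum.inl σ) (Sum.inr τ) (by simp)
    rw [Set.disjoint_left] at h1
    exact h1 (a := z1 σ (f (Sum.inl σ))) (Or.inl rfl) hz

end Pool.Agent.Q215.Elus
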