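import Mathlib

set_option autoImplicit false

/-!
Sets of triples which are complements of countable unions of rectangles (with arbitrary sides).
-/

namespace Q215.Gr

open Set Cardinal

universe u

variable {X : Type u}

/-- `Z` is the complement of a countable union of rectangles. -/
def Cl (Z : Set (X × X × X)) : Prop :=
  ∃ A B C : ℕ → Set X, ∀ x y z, (x, y, z) ∈ Z ↔ ∀ m, ¬ (x ∈ A m ∧ y ∈ B m ∧ z ∈ C m)

theorem cl_of_countable {κ : Type*} [Countable κ] {Z : Set (X × X × X)} (A B C : κ → Set X)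
    (h : ∀ x y z, (x, y, z) ∈ Z ↔ ∀ k, ¬ (x ∈ A k ∧ y ∈ B k ∧ z ∈ C k)) : Cl Z := by
  rcases isEmpty_or_nonempty κ with hκ | hκ
  · refine ⟨fun _ => ∅, fun _ => univ, fun _ => univ, fun x y z => ?_⟩
    rw [h]
    exact ⟨fun _ m hm => hm.1, fun _ k => (hκ.false k).elim⟩
  obtain ⟨g, hg⟩ := exists_surjective_nat κ
  refine ⟨fun m => A (g m), fun m => B (g m), fun m => C (g m), fun x y z => ?_⟩
  rw [h]
  constructor
  · intro hi m
    exact hi _
  · intro hn k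
    obtain ⟨m, rfl⟩ := hg k
    exact hn m

theorem Cl.inter {Z Z' : Set (X × X × X)} (h : Cl Z) (h' : Cl Z') : Cl (Z ∩ Z') := by
  obtain ⟨A, B, C, hZ⟩ := h
  obtain ⟨A', B', C', hZ'⟩ := h'
  refine cl_of_countable (κ := ℕ ⊕ ℕ) (fun k => k.elim A A') (fun k => k.elim B B')
    (fun k => k.elim C C') fun x y z => ?_
  rw [mem_inter_iff, hZ, hZ']
  constructor
  · rintro ⟨hn, hn'⟩ (m | m)
    · exact hn m
    · exact hn' m
  · intro h
    exact ⟨fun m => h (Sum.inl m), fun m => h (Sum.inr m)⟩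

theorem Cl.union {Z Z' : Set (X × X × X)} (h : Cl Z) (h' : Cl Z') : Cl (Z ∪ Z') := by
  obtain ⟨A, B, C, hZ⟩ := h
  obtain ⟨A', B', C', hZ'⟩ := h'
  refine cl_of_countable (κ := ℕ × ℕ) (fun k => A k.1 ∩ A' k.2) (fun k => B k.1 ∩ B' k.2)
    (fun k => C k.1 ∩ C' k.2) fun x y z => ?_
  rw [mem_union, hZ, hZ']
  constructor
  · rintro (h | h) ⟨m, m'⟩ h1
    · exact h m ⟨h1.1.1, h1.2.1.1, h1.2.2.1⟩
    · exact h m' ⟨h1.1.2, h1.2.1.2, h1.2.2.2⟩
  · intro h
    by_contra hc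
    push Not at hc
    obtain ⟨⟨m, h1, h2, h3⟩, ⟨m', h1', h2', h3'⟩⟩ := hc
    exact h (m, m') ⟨⟨h1, h1'⟩, ⟨h2, h2'⟩, ⟨h3, h3'⟩⟩

theorem Cl.pre {Z : Set (X × X × X)} (h : Cl Z) (f g k : X → X) :
    Cl {p : X × X × X | (f p.1, g p.2.1, k p.2.2) ∈ Z} := by
  obtain ⟨A, B, C, hZ⟩ := h
  exact ⟨fun m => f ⁻¹' A m, fun m => g ⁻¹' B m, fun m => k ⁻¹' C m, fun x y z => hZ _ _ _⟩

/-- Rectangles. -/
theorem cl_rect (A B C : Set X) : Cl {p : X × X × X | p.1 ∈ A ∧ p.2.1 ∈ B ∧ p.2.2 ∈ C} := by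
  refine cl_of_countable (κ := Fin 3) (fun k => if k = 0 then Aᶜ else univ)
    (fun k => if k = 1 then Bᶜ else univ) (fun k => if k = 2 then Cᶜ else univ)
    fun x y z => ?_
  simp only [mem_ofPred_eq, Fin.forall_fin_succ, Fin.isValue]
  simp

/-- Sets which are given piecewise, for a countable partition of the space. -/
theorem cl_pieces {Z : Set (X × X × X)} (δ : X → ℕ) (W : ℕ → Set (X × X × X))
    (hW : ∀ n, Cl (W n)) (h : ∀ x y z, (x, y, z) ∈ Z ↔ (x, y, z) ∈ W (δ x + δ y + δ z)) :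
    Cl Z := by
  choose A B C hABC using hW
  refine cl_of_countable (κ := (ℕ × ℕ × ℕ) × ℕ)
    (fun k => {x | δ x = k.1.1 ∧ x ∈ A (k.1.1 + k.1.2.1 + k.1.2.2) k.2})
    (fun k => {x | δ x = k.1.2.1 ∧ x ∈ B (k.1.1 + k.1.2.1 + k.1.2.2) k.2})
    (fun k => {x | δ x = k.1.2.2 ∧ x ∈ C (k.1.1 + k.1.2.1 + k.1.2.2) k.2}) fun x y z => ?_
  rw [h, hABC]
  constructor
  · rintro h1 ⟨⟨a, b, c⟩, m⟩ ⟨⟨h2, h3⟩, ⟨h4, h5⟩, ⟨h6, h7⟩⟩
    simp only at h2 h3 h4 h5 h6 h7
    subst h2 h4 h6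
    exact h1 m ⟨h3, h5, h7⟩
  · intro h1 m h2
    exact h1 ((δ x, δ y, δ z), m) ⟨⟨rfl, h2.1⟩, ⟨rfl, h2.2.1⟩, ⟨rfl, h2.2.2⟩⟩

variable {e : X → ℕ → Bool}

theorem cl_eq12 (he : Function.Injective e) (f g : X → X) :
    Cl {p : X × X × X | f p.1 = g p.2.1} := by
  refine cl_of_countable (κ := ℕ × Bool) (fun k => {x | e (f x) k.1 = k.2})
    (fun k => {x | e (g x) k.1 ≠ k.2}) (fun _ => univ) fun x y z => ?_
  simp only [mem_ofPred_eq, mem_univ, and_true, not_and, not_not, ne_eq]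
  constructor
  · rintro h k hk
    rw [← h]
    exact hk
  · intro h
    refine he (funext fun n => ?_)
    exact (h (n, e (f x) n) rfl).symm

theorem cl_eq13 (he : Function.Injective e) (f g : X → X) :
    Cl {p : X × X × X | f p.1 = g p.2.2} := by
  refine cl_of_countable (κ := ℕ × Bool) (fun k => {x | e (f x) k.1 = k.2})
    (fun _ => univ) (fun k => {x | e (g x) k.1 ≠ k.2}) fun x y z => ?_
  simp only [mem_ofPred_eq, mem_univ, true_and, not_and, not_not, ne_eq]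
  constructor
  · rintro h k hk
    rw [← h]
    exact hk
  · intro h
    refine he (funext fun n => ?_)
    exact (h (n, e (f x) n) rfl).symm

theorem cl_eq23 (he : Function.Injective e) (f g : X → X) :
    Cl {p : X × X × X | f p.2.1 = g p.2.2} := by
  refine cl_of_countable (κ := ℕ × Bool) (fun _ => univ)
    (fun k => {x | e (f x) k.1 = k.2}) (fun k => {x | e (g x) k.1 ≠ k.2}) fun x y z => ?_
  simp only [mem_ofPred_eq, mem_univ, true_and, not_and, not_not, ne_eq]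
  constructor
  · rintro h k hk
    rw [← h]
    exact hk
  · intro h
    refine he (funext fun n => ?_)
    exact (h (n, e (f y) n) rfl).symm

end Q215.Gr
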