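import Pool.Agent.Q215.GrA

set_option autoImplicit false

/-!
The multiplication graph of a group which is the union of a well-ordered chain of subgroups.
-/

namespace Q215.Gr

open Set Cardinal

universe u

variable {G : Type u} [Group G]

/-- The multiplication graph of the subgroup `H`. -/
def gr (H : Subgroup G) : Set (G × G × G) :=
  {p | p.1 ∈ H ∧ p.2.1 ∈ H ∧ p.2.2 ∈ H ∧ p.1 * p.2.1 = p.2.2}

section chain

variable {ι : Type u} [LinearOrder ι] [WellFoundedLT ι] [Nonempty ι] (C : ι → Subgroup G)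

open Classical in
/-- The least element of a nonempty set. -/
noncomputable def least (S : Set ι) : ι :=
  if h : S.Nonempty then wellFounded_lt.min S h else Classical.arbitrary ι

/-- The rank of an element of the union of the chain. -/
noncomputable def rk (x : G) : ι := least {i | x ∈ C i}

variable {C}

theorem mem_rk {x : G} (h : ∃ i, x ∈ C i) : x ∈ C (rk C x) := by
  have h' : {i | x ∈ C i}.Nonempty := h
  rw [rk, least, dif_pos h']
  exact wellFounded_lt.min_mem {i | x ∈ C i} h'

theorem rk_le {x : G} {i : ι} (h : x ∈ C i) : rk C x ≤ i := by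
  have h' : {i | x ∈ C i}.Nonempty := ⟨i, h⟩
  rw [rk, least, dif_pos h']
  exact not_lt.1 (wellFounded_lt.not_lt_min {i | x ∈ C i} h)

theorem rk_inv (x : G) : rk C x⁻¹ = rk C x := by
  have h : {i | x⁻¹ ∈ C i} = {i | x ∈ C i} := by
    ext i
    exact (C i).inv_mem_iff
  exact congrArg least h

variable (hC : Monotone C)
include hC

theorem rk_mul_lt {x y : G} {a : ι} (hx : ∃ i, x ∈ C i) (hy : ∃ i, y ∈ C i)
    (h1 : rk C x < a) (h2 : rk C y < a) : rk C (x * y) < a := by
  refine lt_of_le_of_lt (rk_le (i := max (rk C x) (rk C y)) ?_) (max_lt h1 h2)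
  exact mul_mem (hC (le_max_left _ _) (mem_rk hx)) (hC (le_max_right _ _) (mem_rk hy))

theorem rk_mul_le {x y : G} {a : ι} (hx : ∃ i, x ∈ C i) (hy : ∃ i, y ∈ C i)
    (h1 : rk C x ≤ a) (h2 : rk C y ≤ a) : rk C (x * y) ≤ a := by
  refine (rk_le (i := max (rk C x) (rk C y)) ?_).trans (max_le h1 h2)
  exact mul_mem (hC (le_max_left _ _) (mem_rk hx)) (hC (le_max_right _ _) (mem_rk hy))

theorem ex_mul {x y : G} (hx : ∃ i, x ∈ C i) (hy : ∃ i, y ∈ C i) : ∃ i, x * y ∈ C i := by
  obtain ⟨i, hi⟩ := hx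
  obtain ⟨k, hk⟩ := hy
  exact ⟨max i k, mul_mem (hC (le_max_left _ _) hi) (hC (le_max_right _ _) hk)⟩

omit hC in
theorem ex_inv {x : G} (hx : ∃ i, x ∈ C i) : ∃ i, x⁻¹ ∈ C i := by
  obtain ⟨i, hi⟩ := hx
  exact ⟨i, inv_mem hi⟩

end chain

section chain2

variable {ι : Type u} [LinearOrder ι] [WellFoundedLT ι] [Nonempty ι] (C : ι → Subgroup G)

/-- The left coset of `x` by the elements of smaller rank. -/
def SL (x : G) : Set G := {y | (∃ i, y ∈ C i) ∧ rk C y = rk C x ∧ rk C (x⁻¹ * y) < rk C x}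

/-- The right coset of `x` by the elements of smaller rank. -/
def SR (x : G) : Set G := {y | (∃ i, y ∈ C i) ∧ rk C y = rk C x ∧ rk C (y * x⁻¹) < rk C x}

open Classical in
/-- An element of a nonempty set. -/
noncomputable def pick (S : Set G) : G := if h : S.Nonempty then h.some else 1

/-- A representative of the left coset. -/
noncomputable def repL (x : G) : G := pick (SL C x)

/-- A representative of the right coset. -/
noncomputable def repR (x : G) : G := pick (SR C x)

/-- Left remainder. -/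
noncomputable def uL (x : G) : G := (repL C x)⁻¹ * x

/-- Right remainder. -/
noncomputable def uR (x : G) : G := x * (repR C x)⁻¹

/-- The third remainder. -/
noncomputable def vR (x : G) : G := repR C x⁻¹ * x

variable {C}

theorem repL_congr {x z : G} (h : SL C x = SL C z) : repL C x = repL C z :=
  congrArg pick h

theorem repR_congr {x z : G} (h : SR C x = SR C z) : repR C x = repR C z :=
  congrArg pick h

theorem repL_mem {x : G} (h : (SL C x).Nonempty) : repL C x ∈ SL C x := by
  rw [repL, pick, dif_pos h]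
  exact h.some_mem

theorem repR_mem {x : G} (h : (SR C x).Nonempty) : repR C x ∈ SR C x := by
  rw [repR, pick, dif_pos h]
  exact h.some_mem

variable (hC : Monotone C)
include hC

theorem SL_eq {x z : G} (hx : ∃ i, x ∈ C i) (hz : ∃ i, z ∈ C i) (h : rk C x = rk C z)
    (h1 : rk C (x⁻¹ * z) < rk C x) : SL C x = SL C z := by
  have h1' : rk C (z⁻¹ * x) < rk C x := by
    rw [← rk_inv]
    simpa using h1
  ext y
  constructor
  · rintro ⟨h2, h3, h4⟩
    refine ⟨h2, h3.trans h, ?_⟩
    have h5 : z⁻¹ * y = (z⁻¹ * x) * (x⁻¹ * y) := by group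
    rw [h5, ← h]
    exact rk_mul_lt hC (ex_mul hC (ex_inv hz) hx) (ex_mul hC (ex_inv hx) h2) h1' h4
  · rintro ⟨h2, h3, h4⟩
    refine ⟨h2, h3.trans h.symm, ?_⟩
    have h5 : x⁻¹ * y = (x⁻¹ * z) * (z⁻¹ * y) := by group
    rw [h5]
    rw [← h] at h4
    exact rk_mul_lt hC (ex_mul hC (ex_inv hx) hz) (ex_mul hC (ex_inv hz) h2) h1 h4

theorem SR_eq {x z : G} (hx : ∃ i, x ∈ C i) (hz : ∃ i, z ∈ C i) (h : rk C x = rk C z)
    (h1 : rk C (z * x⁻¹) < rk C x) : SR C x = SR C z := by
  have h1' : rk C (x * z⁻¹) < rk C x := by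
    rw [← rk_inv]
    simpa using h1
  ext y
  constructor
  · rintro ⟨h2, h3, h4⟩
    refine ⟨h2, h3.trans h, ?_⟩
    have h5 : y * z⁻¹ = (y * x⁻¹) * (x * z⁻¹) := by group
    rw [h5, ← h]
    exact rk_mul_lt hC (ex_mul hC h2 (ex_inv hx)) (ex_mul hC hx (ex_inv hz)) h4 h1'
  · rintro ⟨h2, h3, h4⟩
    refine ⟨h2, h3.trans h.symm, ?_⟩
    have h5 : y * x⁻¹ = (y * z⁻¹) * (z * x⁻¹) := by group
    rw [h5]
    rw [← h] at h4
    exact rk_mul_lt hC (ex_mul hC h2 (ex_inv hz)) (ex_mul hC hz (ex_inv hx)) h4 h1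

end chain2

section chain3

variable {ι : Type u} [LinearOrder ι] [WellFoundedLT ι] [Nonempty ι] (C : ι → Subgroup G)

/-- The triples of elements of the union. -/
def dom : Set (G × G × G) := {p | (∃ i, p.1 ∈ C i) ∧ (∃ i, p.2.1 ∈ C i) ∧ ∃ i, p.2.2 ∈ C i}

/-- The triples whose product relation is verified in at most `n` steps. -/
noncomputable def T : ℕ → Set (G × G × G)
  | 0 => {p | p ∈ dom C ∧ rk C p.1 = rk C p.2.1 ∧ rk C p.1 = rk C p.2.2 ∧ p.1 * p.2.1 = p.2.2}
  | n + 1 => T n ∪ ({p | p ∈ dom C ∧ repL C p.1 = repL C p.2.2 ∧ (uL C p.1, p.2.1, uL C p.2.2) ∈ T n} ∪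
      ({p | p ∈ dom C ∧ repR C p.2.1 = repR C p.2.2 ∧ (p.1, uR C p.2.1, uR C p.2.2) ∈ T n} ∪
      {p | p ∈ dom C ∧ repR C p.1 = repR C p.2.1⁻¹ ∧ (uR C p.1, vR C p.2.1, p.2.2) ∈ T n}))

variable {C}

theorem T_sound (n : ℕ) : ∀ p ∈ T C n, p ∈ dom C ∧ p.1 * p.2.1 = p.2.2 := by
  induction n with
  | zero => exact fun p hp => ⟨hp.1, hp.2.2.2⟩
  | succ n ih =>
    rintro ⟨x, y, z⟩ (h | ⟨h1, h2, h3⟩ | ⟨h1, h2, h3⟩ | ⟨h1, h2, h3⟩)
    · exact ih _ h
    · refine ⟨h1, ?_⟩
      have h4 := (ih _ h3).2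
      simp only [uL] at h4 h2
      rw [h2, mul_assoc] at h4
      exact mul_left_cancel h4
    · refine ⟨h1, ?_⟩
      have h4 := (ih _ h3).2
      simp only [uR] at h4 h2
      rw [h2, ← mul_assoc] at h4
      exact mul_right_cancel h4
    · refine ⟨h1, ?_⟩
      have h4 := (ih _ h3).2
      simp only [uR, vR] at h4 h2
      rw [h2] at h4
      rw [← h4]
      group

theorem T_mono {m n : ℕ} (h : m ≤ n) : T C m ⊆ T C n := by
  induction h with
  | refl => exact Subset.rfl
  | step _ ih => exact ih.trans subset_union_left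

open Classical in
/-- The depth of an element: a bound for the number of the reductions. -/
noncomputable def dep (C : ι → Subgroup G) : G → ℕ :=
  (InvImage.wf (rk C) (wellFounded_lt (α := ι))).fix fun x d =>
    1 + (if h : rk C (uL C x) < rk C x then d _ h else 0) +
      (if h : rk C (uR C x) < rk C x then d _ h else 0) +
      (if h : rk C (vR C x) < rk C x then d _ h else 0)

open Classical in
theorem dep_eq (x : G) : dep C x = 1 + (if rk C (uL C x) < rk C x then dep C (uL C x) else 0) +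
      (if rk C (uR C x) < rk C x then dep C (uR C x) else 0) +
      (if rk C (vR C x) < rk C x then dep C (vR C x) else 0) := by
  rw [dep, WellFounded.fix_eq]
  rfl

theorem dep_uL {x : G} (h : rk C (uL C x) < rk C x) : dep C (uL C x) < dep C x := by
  rw [dep_eq x, if_pos h]
  omega

theorem dep_uR {x : G} (h : rk C (uR C x) < rk C x) : dep C (uR C x) < dep C x := by
  rw [dep_eq x, if_pos h]
  omega

theorem dep_vR {x : G} (h : rk C (vR C x) < rk C x) : dep C (vR C x) < dep C x := by
  rw [dep_eq x, if_pos h]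
  omega

theorem T_complete (hC : Monotone C) (a : ι) : ∀ x y z : G, (x, y, z) ∈ dom C → x * y = z →
    rk C x ≤ a → rk C y ≤ a → rk C z ≤ a → (x, y, z) ∈ T C (dep C x + dep C y + dep C z) := by
  induction a using WellFoundedLT.induction with
  | _ a ih =>
    rintro x y z hd hxyz hx hy hz
    have hdx := hd.1
    have hdy := hd.2.1
    have hdz := hd.2.2
    simp only at hdx hdy hdz
    -- a smaller bound
    by_cases hall : rk C x < a ∧ rk C y < a ∧ rk C z < a
    · exact ih (max (rk C x) (max (rk C y) (rk C z)))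
        (max_lt hall.1 (max_lt hall.2.1 hall.2.2)) x y z hd hxyz (le_max_left _ _)
        ((le_max_left _ _).trans (le_max_right _ _)) ((le_max_right _ _).trans (le_max_right _ _))
    rcases hx.lt_or_eq with hx' | hx'
    · -- `x` has small rank, so `y` and `z` have rank `a`
      have hy' : rk C y = a := by
        refine hy.lt_or_eq.resolve_left fun hy' => hall ⟨hx', hy', ?_⟩
        rw [← hxyz]
        exact rk_mul_lt hC hdx hdy hx' hy'
      have hz' : rk C z = a := by
        refine hz.lt_or_eq.resolve_left fun hz' => hall ⟨hx', ?_, hz'⟩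
        have h1 : y = x⁻¹ * z := by rw [← hxyz]; group
        rw [h1]
        refine rk_mul_lt hC (ex_inv hdx) hdz ?_ hz'
        rwa [rk_inv]
      have h1 : z * y⁻¹ = x := by rw [← hxyz]; group
      have h2 : SR C y = SR C z := SR_eq hC hdy hdz (hy'.trans hz'.symm) (by rw [h1, hy']; exact hx')
      have h3 : (SR C y).Nonempty := ⟨z, hdz, hz'.trans hy'.symm, by rw [h1, hy']; exact hx'⟩
      have h4 := repR_mem h3
      have h5 := repR_congr h2
      have h6 := repR_mem (h2 ▸ h3)
      have h7 : rk C (uR C y) < a := by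
        rw [uR, ← rk_inv, mul_inv_rev, inv_inv, ← hy']
        exact h4.2.2
      have h8 : rk C (uR C z) < a := by
        rw [uR, ← rk_inv, mul_inv_rev, inv_inv, ← hz']
        exact h6.2.2
      have hn := ih (max (rk C x) (max (rk C (uR C y)) (rk C (uR C z))))
        (max_lt hx' (max_lt h7 h8)) x (uR C y) (uR C z)
        ⟨hdx, ex_mul hC hdy (ex_inv h4.1), ex_mul hC hdz (ex_inv h6.1)⟩ (by
          simp only [uR]
          rw [h5, ← mul_assoc, hxyz]) (le_max_left _ _)
        ((le_max_left _ _).trans (le_max_right _ _)) ((le_max_right _ _).trans (le_max_right _ _))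
      have h9 := dep_uR (by rw [hy']; exact h7 : rk C (uR C y) < rk C y)
      have h10 := dep_uR (by rw [hz']; exact h8 : rk C (uR C z) < rk C z)
      refine T_mono (m := dep C x + dep C (uR C y) + dep C (uR C z) + 1) (by omega) ?_
      exact Or.inr (Or.inr (Or.inl ⟨hd, h5, hn⟩))
    rcases hy.lt_or_eq with hy' | hy'
    · -- `y` has small rank
      have hz' : rk C z = a := by
        refine hz.lt_or_eq.resolve_left fun hz' => ?_
        have h1 : x = z * y⁻¹ := by rw [← hxyz]; group
        have h2 : rk C x < a := by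
          rw [h1]
          refine rk_mul_lt hC hdz (ex_inv hdy) hz' ?_
          rwa [rk_inv]
        exact h2.ne hx'
      have h1 : x⁻¹ * z = y := by rw [← hxyz]; group
      have h2 : SL C x = SL C z := SL_eq hC hdx hdz (hx'.trans hz'.symm) (by rw [h1, hx']; exact hy')
      have h3 : (SL C x).Nonempty := ⟨z, hdz, hz'.trans hx'.symm, by rw [h1, hx']; exact hy'⟩
      have h4 := repL_mem h3
      have h5 := repL_congr h2
      have h6 := repL_mem (h2 ▸ h3)
      have h7 : rk C (uL C x) < a := by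
        rw [uL, ← rk_inv, mul_inv_rev, inv_inv, ← hx']
        exact h4.2.2
      have h8 : rk C (uL C z) < a := by
        rw [uL, ← rk_inv, mul_inv_rev, inv_inv, ← hz']
        exact h6.2.2
      have hn := ih (max (rk C (uL C x)) (max (rk C y) (rk C (uL C z))))
        (max_lt h7 (max_lt hy' h8)) (uL C x) y (uL C z)
        ⟨ex_mul hC (ex_inv h4.1) hdx, hdy, ex_mul hC (ex_inv h6.1) hdz⟩ (by
          simp only [uL]
          rw [h5, mul_assoc, hxyz]) (le_max_left _ _)
        ((le_max_left _ _).trans (le_max_right _ _)) ((le_max_right _ _).trans (le_max_right _ _))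
      have h9 := dep_uL (by rw [hx']; exact h7 : rk C (uL C x) < rk C x)
      have h10 := dep_uL (by rw [hz']; exact h8 : rk C (uL C z) < rk C z)
      refine T_mono (m := dep C (uL C x) + dep C y + dep C (uL C z) + 1) (by omega) ?_
      exact Or.inr (Or.inl ⟨hd, h5, hn⟩)
    rcases hz.lt_or_eq with hz' | hz'
    · -- `z` has small rank
      have hyi : rk C y⁻¹ = a := by rw [rk_inv, hy']
      have h1 : y⁻¹ * x⁻¹ = z⁻¹ := by rw [← hxyz]; group
      have h1' : rk C (y⁻¹ * x⁻¹) < a := by rw [h1, rk_inv]; exact hz'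
      have h2 : SR C x = SR C y⁻¹ :=
        SR_eq hC hdx (ex_inv hdy) (hx'.trans hyi.symm) (by rw [hx']; exact h1')
      have h3 : (SR C x).Nonempty := ⟨y⁻¹, ex_inv hdy, hyi.trans hx'.symm, by rw [hx']; exact h1'⟩
      have h4 := repR_mem h3
      have h5 := repR_congr h2
      have h6 := repR_mem (h2 ▸ h3)
      have h7 : rk C (uR C x) < a := by
        rw [uR, ← rk_inv, mul_inv_rev, inv_inv, ← hx']
        exact h4.2.2
      have h8 : rk C (vR C y) < a := by
        have h9 := h6.2.2
        rw [inv_inv, hyi] at h9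
        exact h9
      have hn := ih (max (rk C (uR C x)) (max (rk C (vR C y)) (rk C z)))
        (max_lt h7 (max_lt h8 hz')) (uR C x) (vR C y) z
        ⟨ex_mul hC hdx (ex_inv h4.1), ex_mul hC h6.1 hdy, hdz⟩ (by
          simp only [uR, vR]
          rw [h5, ← hxyz]
          group) (le_max_left _ _)
        ((le_max_left _ _).trans (le_max_right _ _)) ((le_max_right _ _).trans (le_max_right _ _))
      have h9 := dep_uR (by rw [hx']; exact h7 : rk C (uR C x) < rk C x)
      have h10 := dep_vR (by rw [hy']; exact h8 : rk C (vR C y) < rk C y)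
      refine T_mono (m := dep C (uR C x) + dep C (vR C y) + dep C z + 1) (by omega) ?_
      exact Or.inr (Or.inr (Or.inr ⟨hd, h5, hn⟩))
    · exact T_mono (Nat.zero_le _) ⟨hd, hx'.trans hy'.symm, hx'.trans hz'.symm, hxyz⟩

theorem cl_T {e : G → ℕ → Bool} (he : Function.Injective e) {j : ι → G}
    (hj : Function.Injective j) (hS : ∀ i, Cl (gr (C i))) (n : ℕ) : Cl (T C n) := by
  have hdom : Cl (dom C) := cl_rect {x | ∃ i, x ∈ C i} {x | ∃ i, x ∈ C i} {x | ∃ i, x ∈ C i}
  induction n with
  | zero =>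
    have h12 : Cl {p : G × G × G | j (rk C p.1) = j (rk C p.2.1)} :=
      cl_eq12 he (fun x => j (rk C x)) fun x => j (rk C x)
    have h13 : Cl {p : G × G × G | j (rk C p.1) = j (rk C p.2.2)} :=
      cl_eq13 he (fun x => j (rk C x)) fun x => j (rk C x)
    choose A B D hABD using hS
    have h0 : Cl {p : G × G × G | ∀ m, ¬ (p.1 ∈ A (rk C p.1) m ∧
        p.2.1 ∈ B (rk C p.2.1) m ∧ p.2.2 ∈ D (rk C p.2.2) m)} :=
      ⟨fun m => {x | x ∈ A (rk C x) m}, fun m => {x | x ∈ B (rk C x) m},
        fun m => {x | x ∈ D (rk C x) m}, fun x y z => Iff.rfl⟩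
    have h1 : T C 0 = dom C ∩ ({p : G × G × G | j (rk C p.1) = j (rk C p.2.1)} ∩
        ({p : G × G × G | j (rk C p.1) = j (rk C p.2.2)} ∩
        {p : G × G × G | ∀ m, ¬ (p.1 ∈ A (rk C p.1) m ∧
        p.2.1 ∈ B (rk C p.2.1) m ∧ p.2.2 ∈ D (rk C p.2.2) m)})) := by
      ext ⟨x, y, z⟩
      constructor
      · rintro ⟨h1, h2, h3, h4⟩
        simp only at h2 h3 h4
        refine ⟨h1, congrArg j h2, congrArg j h3, fun m => ?_⟩
        have h5 : (x, y, z) ∈ gr (C (rk C x)) :=
          ⟨mem_rk h1.1, by rw [h2]; exact mem_rk h1.2.1, by rw [h3]; exact mem_rk h1.2.2, h4⟩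
        have hn := (hABD _ x y z).1 h5 m
        simp only
        rw [← h2, ← h3]
        exact hn
      · rintro ⟨h1, h2, h3, hn⟩
        have h2' : rk C x = rk C y := hj h2
        have h3' : rk C x = rk C z := hj h3
        refine ⟨h1, h2', h3', ?_⟩
        have h5 : (x, y, z) ∈ gr (C (rk C x)) := by
          refine (hABD _ x y z).2 fun m => ?_
          have h6 := hn m
          simp only at h6
          rw [← h2', ← h3'] at h6
          exact h6
        exact h5.2.2.2
    rw [h1]
    exact hdom.inter (h12.inter (h13.inter h0))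
  | succ n ih =>
    have h1 : Cl {p : G × G × G | p ∈ dom C ∧ repL C p.1 = repL C p.2.2 ∧
        (uL C p.1, p.2.1, uL C p.2.2) ∈ T C n} :=
      hdom.inter ((cl_eq13 he (repL C) (repL C)).inter (ih.pre (uL C) id (uL C)))
    have h2 : Cl {p : G × G × G | p ∈ dom C ∧ repR C p.2.1 = repR C p.2.2 ∧
        (p.1, uR C p.2.1, uR C p.2.2) ∈ T C n} :=
      hdom.inter ((cl_eq23 he (repR C) (repR C)).inter (ih.pre id (uR C) (uR C)))
    have h3 : Cl {p : G × G × G | p ∈ dom C ∧ repR C p.1 = repR C p.2.1⁻¹ ∧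
        (uR C p.1, vR C p.2.1, p.2.2) ∈ T C n} :=
      hdom.inter ((cl_eq12 he (repR C) fun y => repR C y⁻¹).inter (ih.pre (uR C) (vR C) id))
    exact ih.union (h1.union (h2.union h3))

/-- The graph of the union of a well-ordered chain of subgroups. -/
theorem cl_chain (hC : Monotone C) {e : G → ℕ → Bool} (he : Function.Injective e) {j : ι → G}
    (hj : Function.Injective j) (hS : ∀ i, Cl (gr (C i))) {H : Subgroup G}
    (hH : ∀ x, x ∈ H ↔ ∃ i, x ∈ C i) : Cl (gr H) := by
  refine cl_pieces (dep C) (T C) (fun n => cl_T he hj hS n) fun x y z => ?_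
  constructor
  · rintro ⟨h1, h2, h3, h4⟩
    rw [hH] at h1 h2 h3
    exact T_complete hC (max (rk C x) (max (rk C y) (rk C z))) x y z ⟨h1, h2, h3⟩ h4
      (le_max_left _ _) ((le_max_left _ _).trans (le_max_right _ _))
      ((le_max_right _ _).trans (le_max_right _ _))
  · intro hn
    obtain ⟨h1, h2⟩ := T_sound _ _ hn
    exact ⟨(hH _).2 h1.1, (hH _).2 h1.2.1, (hH _).2 h1.2.2, h2⟩

end chain3

/-- Countable subgroups. -/
theorem cl_countable {H : Subgroup G} (h : Countable H) : Cl (gr H) := by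
  have h1 : gr H = {p : G × G × G | p.1 ∈ (H : Set G) ∧ p.2.1 ∈ (H : Set G) ∧
      p.2.2 ∈ (H : Set G)} ∩ {p : G × G × G | ∀ a : H × H, ¬ (p.1 ∈ ({(a.1 : G)} : Set G) ∧
      p.2.1 ∈ ({(a.2 : G)} : Set G) ∧ p.2.2 ∈ ({(a.1 * a.2 : G)}ᶜ : Set G))} := by
    ext ⟨x, y, z⟩
    constructor
    · rintro ⟨h1, h2, h3, h4⟩
      refine ⟨⟨h1, h2, h3⟩, ?_⟩
      rintro ⟨⟨a, ha⟩, ⟨b, hb⟩⟩ ⟨h5, h6, h7⟩
      simp only [mem_singleton_iff] at h5 h6
      subst h5 h6
      exact h7 h4.symm
    · rintro ⟨⟨h1, h2, h3⟩, h4⟩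
      refine ⟨h1, h2, h3, ?_⟩
      by_contra hc
      exact h4 (⟨x, h1⟩, ⟨y, h2⟩) ⟨rfl, rfl, fun h5 => hc (mem_singleton_iff.1 h5).symm⟩
  rw [h1]
  refine (cl_rect _ _ _).inter (cl_of_countable (κ := H × H) (fun a => {(a.1 : G)})
    (fun a => {(a.2 : G)}) (fun a => {(a.1 * a.2 : G)}ᶜ) fun x y z => Iff.rfl)

theorem mk_closure_le (S : Set G) : #(Subgroup.closure S) ≤ max #S ℵ₀ := by
  have h1 : ((FreeGroup.lift ((↑) : S → G)).range : Subgroup G) = Subgroup.closure S := by
    rw [FreeGroup.range_lift_eq_closure, Subtype.range_coe]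
  rcases S.eq_empty_or_nonempty with rfl | hS
  · rw [Subgroup.closure_empty]
    exact (Cardinal.mk_le_one_iff_set_subsingleton.2 (by simp)).trans
      (one_le_aleph0.trans (le_max_right _ _))
  · have : Nonempty S := hS.to_subtype
    rw [← h1, ← Cardinal.mk_freeGroup]
    exact Cardinal.mk_le_of_surjective (FreeGroup.lift ((↑) : S → G)).rangeRestrict_surjective

/-- The graph of every subgroup of a group of cardinality at most the continuum. -/
theorem cl_subgroup {e : G → ℕ → Bool} (he : Function.Injective e) (κ : Cardinal.{u}) :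
    ∀ H : Subgroup G, #H = κ → Cl (gr H) := by
  induction κ using WellFoundedLT.induction with
  | _ κ ih =>
    intro H hκ
    rcases le_or_gt κ ℵ₀ with h | h
    · exact cl_countable (mk_le_aleph0_iff.1 (hκ.trans_le h))
    · let ι := κ.ord.ToType
      have hι : #ι = κ := mk_ord_toType κ
      obtain ⟨f⟩ : Nonempty (ι ≃ H) := Cardinal.eq.1 (hι.trans hκ.symm)
      have : Nonempty ι := f.nonempty_congr.2 ⟨1⟩
      let C : ι → Subgroup G := fun i => Subgroup.closure ((fun k => (f k : G)) '' Iic i)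
      have hC : Monotone C := fun i k hik =>
        Subgroup.closure_mono (image_mono (Iic_subset_Iic.2 hik))
      have hcard : ∀ i, #(C i) < κ := by
        intro i
        refine (mk_closure_le _).trans_lt (max_lt ?_ h)
        refine mk_image_le.trans_lt ?_
        have h1 : #(Iio i) < κ := by
          have := mk_Iio_lt (α := ι) i (by simp [ι])
          rwa [hι] at this
        have h2 : Iic i = insert i (Iio i) := by
          ext k
          simp [le_iff_eq_or_lt]
        rw [h2]
        refine mk_insert_le.trans_lt ?_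
        exact add_lt_of_lt h.le h1 (one_lt_aleph0.trans h)
      refine cl_chain (C := C) hC he (j := fun i => (f i : G))
        (fun i k hik => f.injective (Subtype.ext hik)) (fun i => ih _ (hcard i) _ rfl) fun x => ?_
      constructor
      · intro hx
        refine ⟨f.symm ⟨x, hx⟩, Subgroup.subset_closure ⟨f.symm ⟨x, hx⟩, mem_Iic.2 le_rfl, ?_⟩⟩
        simp
      · rintro ⟨i, hi⟩
        refine (Subgroup.closure_le H).2 ?_ hi
        rintro _ ⟨k, -, rfl⟩
        exact (f k).2

/-- The multiplication graph of a group of cardinality at most the continuum is the complement of a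
countable union of rectangles. -/
theorem cl_group (hG : #G ≤ 𝔠) : Cl {p : G × G × G | p.1 * p.2.1 = p.2.2} := by
  have h1 : Cardinal.lift.{0} #G ≤ Cardinal.lift.{u} #(ℕ → Bool) := by
    simpa using hG
  obtain ⟨e⟩ := Cardinal.lift_mk_le'.1 h1
  have h2 := cl_subgroup e.injective _ (⊤ : Subgroup G) rfl
  have h3 : gr (⊤ : Subgroup G) = {p : G × G × G | p.1 * p.2.1 = p.2.2} := by
    ext p
    simp [gr]
  rwa [h3] at h2

end Q215.Gr
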