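import Mathlib

set_option autoImplicit false

/-! Structures on the natural numbers, classes, Borel complete classes, Borel reductions of the
action groupoids. -/

namespace Pool.Agent.Q215.Grp

open FirstOrder MeasureTheory

/-- the structures with universe `ℕ` -/
abbrev Str (L : FirstOrder.Language.{0, 0}) : Type := L.Structure ℕ

/-- the Borel structure of the space of structures -/
instance instMS (L : FirstOrder.Language.{0, 0}) : MeasurableSpace (Str L) :=
  MeasurableSpace.generateFrom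
    ({s | ∃ (n : ℕ) (R : L.Relations n) (v : Fin n → ℕ), s = {M : Str L | M.RelMap R v}} ∪
      {s | ∃ (n : ℕ) (f : L.Functions n) (v : Fin n → ℕ) (k : ℕ), s = {M : Str L | M.funMap f v = k}})

/-- the Borel structure of `S_∞` -/
instance instMP : MeasurableSpace (Equiv.Perm ℕ) :=
  MeasurableSpace.generateFrom {s | ∃ i j : ℕ, s = {g : Equiv.Perm ℕ | g i = j}}

/-- the logic action -/
def act {L : FirstOrder.Language.{0, 0}} (g : Equiv.Perm ℕ) (M : Str L) : Str L where
  funMap f v := g (M.funMap f (g.symm ∘ v))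
  RelMap R v := M.RelMap R (g.symm ∘ v)

/-- isomorphism -/
def Iso {L : FirstOrder.Language.{0, 0}} (M N : Str L) : Prop := ∃ g : Equiv.Perm ℕ, act g M = N

/-- a class: an isomorphism-invariant Borel set -/
structure IsClass {L : FirstOrder.Language.{0, 0}} (C : Set (Str L)) : Prop where
  meas : MeasurableSet C
  inv : ∀ (g : Equiv.Perm ℕ) (M : Str L), M ∈ C → act g M ∈ C

/-- Borel complete classes -/
def BorelComplete {L : FirstOrder.Language.{0, 0}} (C : Set (Str L)) : Prop :=
  IsClass C ∧ ∀ (L' : FirstOrder.Language.{0, 0}), Countable (Σ n, L'.Functions n) →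
    Countable (Σ n, L'.Relations n) → ∀ C' : Set (Str L'), IsClass C' →
      ∃ f : C' → C, Measurable f ∧ ∀ x y : C', Iso x.1 y.1 ↔ Iso (f x).1 (f y).1

/-- Borel functors which are reductions, between the action groupoids of two classes -/
structure GReduction {L₁ L₂ : FirstOrder.Language.{0, 0}} (C : Set (Str L₁)) (D : Set (Str L₂)) where
  /-- the map of the objects -/
  obj : C → D
  /-- the arrow `(g, x)` is mapped to the arrow `(arr (g, x), obj x)` -/
  arr : Equiv.Perm ℕ × C → Equiv.Perm ℕ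
  /-- the functor is Borel -/
  meas : Measurable fun p : Equiv.Perm ℕ × C => (arr p, obj p.2)
  /-- ranges -/
  range : ∀ (g : Equiv.Perm ℕ) (x y : C), act g x.1 = y.1 → act (arr (g, x)) (obj x).1 = (obj y).1
  /-- identities -/
  one : ∀ x : C, arr (1, x) = 1
  /-- composition -/
  comp : ∀ (g h : Equiv.Perm ℕ) (x y : C), act g x.1 = y.1 →
    arr (h * g, x) = arr (h, y) * arr (g, x)
  /-- reduction -/
  red : ∀ x y : C, Iso (obj x).1 (obj y).1 → Iso x.1 y.1

theorem str_ext {L : FirstOrder.Language.{0, 0}} {M N : Str L}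
    (h1 : ∀ n (R : L.Relations n) v, M.RelMap R v ↔ N.RelMap R v)
    (h2 : ∀ n (f : L.Functions n) v, M.funMap f v = N.funMap f v) : M = N := by
  apply FirstOrder.Language.Structure.ext
  · funext n f v
    exact h2 n f v
  · funext n R v
    exact propext (h1 n R v)

theorem act_one {L : FirstOrder.Language.{0, 0}} (M : Str L) : act 1 M = M := by
  apply str_ext
  · intro n R v
    exact Iff.rfl
  · intro n f v
    rfl

theorem act_mul {L : FirstOrder.Language.{0, 0}} (g h : Equiv.Perm ℕ) (M : Str L) :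
    act (g * h) M = act g (act h M) := by
  apply str_ext
  · intro n R v
    exact Iff.rfl
  · intro n f v
    rfl

theorem act_inv {L : FirstOrder.Language.{0, 0}} {g : Equiv.Perm ℕ} {M N : Str L} (h : act g M = N) :
    act g⁻¹ N = M := by
  rw [← h, ← act_mul, inv_mul_cancel, act_one]

theorem meas_to {X : Type} [MeasurableSpace X] {L : FirstOrder.Language.{0, 0}} (f : X → Str L)
    (h1 : ∀ n (R : L.Relations n) v, MeasurableSet {x | (f x).RelMap R v})
    (h2 : ∀ n (F : L.Functions n) v k, MeasurableSet {x | (f x).funMap F v = k}) :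
    Measurable f := by
  apply measurable_generateFrom
  rintro s (⟨n, R, v, rfl⟩ | ⟨n, F, v, k, rfl⟩)
  · exact h1 n R v
  · exact h2 n F v k

theorem meas_rel {L : FirstOrder.Language.{0, 0}} {n : ℕ} (R : L.Relations n) (v : Fin n → ℕ) :
    MeasurableSet {M : Str L | M.RelMap R v} :=
  MeasurableSpace.measurableSet_generateFrom (Or.inl ⟨n, R, v, rfl⟩)

theorem meas_fun {L : FirstOrder.Language.{0, 0}} {n : ℕ} (F : L.Functions n) (v : Fin n → ℕ) (k : ℕ) :
    MeasurableSet {M : Str L | M.funMap F v = k} :=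
  MeasurableSpace.measurableSet_generateFrom (Or.inr ⟨n, F, v, k, rfl⟩)

theorem meas_perm (i j : ℕ) : MeasurableSet {g : Equiv.Perm ℕ | g i = j} :=
  MeasurableSpace.measurableSet_generateFrom ⟨i, j, rfl⟩

theorem meas_toPerm {X : Type} [MeasurableSpace X] (f : X → Equiv.Perm ℕ)
    (h : ∀ i j, MeasurableSet {x | f x i = j}) : Measurable f := by
  apply measurable_generateFrom
  rintro s ⟨i, j, rfl⟩
  exact h i j

/-- back and forth -/
theorem back_forth {A B : Type} [Countable A] [Countable B] [Nonempty A] [Nonempty B]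
    (I : List (A × B) → Prop) (h0 : I [])
    (hf : ∀ p, I p → ∀ a, ∃ b, I ((a, b) :: p)) (hb : ∀ p, I p → ∀ b, ∃ a, I ((a, b) :: p))
    (hfun : ∀ p, I p → ∀ a b a' b', (a, b) ∈ p → (a', b') ∈ p → (a = a' ↔ b = b')) :
    ∃ g : A ≃ B, ∀ l : List A, ∃ p, I p ∧ ∀ a ∈ l, (a, g a) ∈ p := by
  classical
  obtain ⟨ea, hea⟩ := exists_surjective_nat A
  obtain ⟨eb, heb⟩ := exists_surjective_nat B
  choose! F hF using hf
  choose! G hG using hb
  let P : ℕ → List (A × B) := fun n => Nat.rec [] (fun n p =>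
    (G ((ea n, F p (ea n)) :: p) (eb n), eb n) :: (ea n, F p (ea n)) :: p) n
  have hP : ∀ n, P (n + 1) = (G ((ea n, F (P n) (ea n)) :: P n) (eb n), eb n) ::
    (ea n, F (P n) (ea n)) :: P n := fun n => rfl
  have hI : ∀ n, I (P n) := by
    intro n
    induction n with
    | zero => exact h0
    | succ n ih =>
      rw [hP]
      exact hG _ (hF _ ih _) _
  have hmono1 : ∀ n y, y ∈ P n → y ∈ P (n + 1) := by
    intro n y hy
    rw [hP]
    exact List.mem_cons_of_mem _ (List.mem_cons_of_mem _ hy)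
  have hmono : ∀ m n, m ≤ n → ∀ y, y ∈ P m → y ∈ P n := by
    intro m n hmn
    induction hmn with
    | refl => exact fun _ h => h
    | step _ ih => exact fun y hy => hmono1 _ _ (ih y hy)
  have hA : ∀ a, ∃ n b, (a, b) ∈ P n := by
    intro a
    obtain ⟨n, rfl⟩ := hea a
    refine ⟨n + 1, F (P n) (ea n), ?_⟩
    rw [hP]
    exact List.mem_cons_of_mem _ List.mem_cons_self
  have hB : ∀ b, ∃ n a, (a, b) ∈ P n := by
    intro b
    obtain ⟨n, rfl⟩ := heb b
    refine ⟨n + 1, G ((ea n, F (P n) (ea n)) :: P n) (eb n), ?_⟩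
    rw [hP]
    exact List.mem_cons_self
  have huniq : ∀ m n a b a' b', (a, b) ∈ P m → (a', b') ∈ P n → (a = a' ↔ b = b') := by
    intro m n a b a' b' h h'
    exact hfun _ (hI (max m n)) a b a' b' (hmono _ _ (le_max_left _ _) _ h)
      (hmono _ _ (le_max_right _ _) _ h')
  choose na g hg using hA
  choose nb k hk using hB
  refine ⟨⟨g, k, ?_, ?_⟩, ?_⟩
  · intro a
    exact (huniq _ _ _ _ _ _ (hk (g a)) (hg a)).mpr rfl
  · intro b
    exact (huniq _ _ _ _ _ _ (hg (k b)) (hk b)).mp rfl
  · intro l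
    have : ∃ n, ∀ a ∈ l, (a, g a) ∈ P n := by
      induction l with
      | nil => exact ⟨0, by simp⟩
      | cons a l ih =>
        obtain ⟨n, hn⟩ := ih
        refine ⟨max n (na a), fun a' ha' => ?_⟩
        rcases List.mem_cons.mp ha' with rfl | ha'
        · exact hmono _ _ (le_max_right _ _) _ (hg _)
        · exact hmono _ _ (le_max_left _ _) _ (hn _ ha')
    obtain ⟨n, hn⟩ := this
    exact ⟨P n, hI n, hn⟩

/-- a colouring of the rationals with all colours dense -/
theorem exists_col : ∃ c : ℚ → ℕ, ∀ (a b : ℚ) (k : ℕ), a < b → ∃ q, a < q ∧ q < b ∧ c q = k := by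
  classical
  let S : Type := {t : ℚ × ℚ × ℕ // t.1 < t.2.1}
  have : Nonempty S := ⟨⟨(0, 1, 0), by norm_num⟩⟩
  obtain ⟨en, hen⟩ := exists_surjective_nat S
  have hpick : ∀ (l : List ℚ) (t : S), ∃ q, q ∉ l ∧ t.1.1 < q ∧ q < t.1.2.1 := by
    intro l t
    have h1 : (Set.Ioo t.1.1 t.1.2.1).Infinite := Set.Ioo_infinite t.2
    obtain ⟨q, hq, hql⟩ := h1.exists_notMem_finset l.toFinset
    exact ⟨q, by simpa using hql, hq.1, hq.2⟩
  choose pick hp1 hp2 hp3 using hpick
  let P : ℕ → List ℚ := fun n => Nat.rec [] (fun n l => pick l (en n) :: l) n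
  have hP : ∀ n, P (n + 1) = pick (P n) (en n) :: P n := fun n => rfl
  let q : ℕ → ℚ := fun n => pick (P n) (en n)
  have hmem : ∀ m n, m < n → q m ∈ P n := by
    intro m n hmn
    induction hmn with
    | refl => rw [hP]; exact List.mem_cons_self
    | step _ ih => rw [hP]; exact List.mem_cons_of_mem _ ih
  have hinj : Function.Injective q := by
    intro m n h
    rcases lt_trichotomy m n with h1 | h1 | h1
    · exact absurd (h ▸ hmem m n h1) (hp1 _ _)
    · exact h1
    · exact absurd (h ▸ hmem n m h1) (hp1 _ _)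
  refine ⟨fun r => if h : ∃ n, q n = r then (en h.choose).1.2.2 else 0, ?_⟩
  intro a b k hab
  obtain ⟨n, hn⟩ := hen ⟨(a, b, k), hab⟩
  refine ⟨q n, ?_, ?_, ?_⟩
  · have := hp2 (P n) (en n)
    rw [hn] at this
    show a < pick (P n) (en n)
    rw [hn]
    exact this
  · have := hp3 (P n) (en n)
    rw [hn] at this
    show pick (P n) (en n) < b
    rw [hn]
    exact this
  · have h1 : ∃ m, q m = q n := ⟨n, rfl⟩
    simp only
    rw [dif_pos h1]
    have h2 : h1.choose = n := hinj h1.choose_spec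
    rw [h2, hn]

/-- coloured version of Cantor's theorem -/
theorem cantor (c : ℚ → ℕ) (hc : ∀ (a b : ℚ) (k : ℕ), a < b → ∃ q, a < q ∧ q < b ∧ c q = k)
    (g : Equiv.Perm ℕ) : ∃ φ : ℚ ≃ ℚ, (∀ a b, a < b ↔ φ a < φ b) ∧ ∀ a, c (φ a) = g (c a) := by
  classical
  let I : List (ℚ × ℚ) → Prop := fun p => (∀ y ∈ p, c y.2 = g (c y.1)) ∧
    ∀ y ∈ p, ∀ z ∈ p, (y.1 < z.1 ↔ y.2 < z.2)
  have hIeq : ∀ p, I p → ∀ y ∈ p, ∀ z ∈ p, (y.1 = z.1 ↔ y.2 = z.2) := by
    intro p hp y hy z hz
    have h1 := hp.2 y hy z hz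
    have h2 := hp.2 z hz y hy
    constructor
    · intro h
      rw [h] at h1 h2
      exact le_antisymm (not_lt.mp fun k => absurd (h2.mpr k) (lt_irrefl _))
        (not_lt.mp fun k => absurd (h1.mpr k) (lt_irrefl _))
    · intro h
      rw [h] at h1 h2
      exact le_antisymm (not_lt.mp fun k => absurd (h2.mp k) (lt_irrefl _))
        (not_lt.mp fun k => absurd (h1.mp k) (lt_irrefl _))
  -- the one-sided extension, for a general target colour
  have ext : ∀ (p : List (ℚ × ℚ)) (k : ℕ) (a : ℚ), (∀ y ∈ p, ∀ z ∈ p, (y.1 < z.1 ↔ y.2 < z.2)) →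
      (∀ y ∈ p, y.1 ≠ a) → ∃ b, c b = k ∧ ∀ y ∈ p, (y.1 < a ↔ y.2 < b) ∧ (a < y.1 ↔ b < y.2) := by
    intro p k a hp ha
    let lo : Finset ℚ := ((p.filter fun y => decide (y.1 < a)).map Prod.snd).toFinset
    let hi : Finset ℚ := ((p.filter fun y => decide (a < y.1)).map Prod.snd).toFinset
    have hlo : ∀ x, x ∈ lo ↔ ∃ y ∈ p, y.1 < a ∧ y.2 = x := by
      intro x
      simp [lo, and_assoc]
    have hhi : ∀ x, x ∈ hi ↔ ∃ y ∈ p, a < y.1 ∧ y.2 = x := by
      intro x
      simp [hi, and_assoc]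
    obtain ⟨m1, h1, h2⟩ := Order.exists_between_finsets lo hi (by
      intro x hx z hz
      obtain ⟨y, hy, hya, rfl⟩ := (hlo x).mp hx
      obtain ⟨y', hy', hya', rfl⟩ := (hhi z).mp hz
      exact (hp y hy y' hy').mp (hya.trans hya'))
    obtain ⟨m2, h3, h4⟩ := Order.exists_between_finsets (insert m1 lo) hi (by
      intro x hx z hz
      rcases Finset.mem_insert.mp hx with rfl | hx
      · exact h2 z hz
      · exact (h1 x hx).trans (h2 z hz))
    obtain ⟨b, hb1, hb2, hbk⟩ := hc m1 m2 k (h3 m1 (Finset.mem_insert_self _ _))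
    refine ⟨b, hbk, fun y hy => ?_⟩
    rcases lt_trichotomy y.1 a with h | h | h
    · have h5 : y.2 < b := (h1 _ ((hlo _).mpr ⟨y, hy, h, rfl⟩)).trans hb1
      exact ⟨⟨fun _ => h5, fun _ => h⟩, ⟨fun k => absurd k h.asymm, fun k => absurd k h5.asymm⟩⟩
    · exact absurd h (ha y hy)
    · have h5 : b < y.2 := hb2.trans (h4 _ ((hhi _).mpr ⟨y, hy, h, rfl⟩))
      exact ⟨⟨fun k => absurd k h.asymm, fun k => absurd k h5.asymm⟩, ⟨fun _ => h5, fun _ => h⟩⟩
  obtain ⟨φ, hφ⟩ := back_forth (A := ℚ) (B := ℚ) I ⟨by simp, by simp⟩ (by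
    intro p hp a
    by_cases hex : ∃ y ∈ p, y.1 = a
    · obtain ⟨y, hy, rfl⟩ := hex
      refine ⟨y.2, ?_, ?_⟩
      · intro z hz
        rcases List.mem_cons.mp hz with rfl | hz
        · exact hp.1 y hy
        · exact hp.1 z hz
      · intro z hz w hw
        have e : ∀ z, z ∈ (y.1, y.2) :: p → z ∈ p := by
          intro z hz
          rcases List.mem_cons.mp hz with rfl | hz
          · exact hy
          · exact hz
        exact hp.2 z (e z hz) w (e w hw)
    · push Not at hex
      obtain ⟨b, hb, hb'⟩ := ext p (g (c a)) a hp.2 hex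
      refine ⟨b, ?_, ?_⟩
      · intro z hz
        rcases List.mem_cons.mp hz with rfl | hz
        · exact hb
        · exact hp.1 z hz
      · intro z hz w hw
        rcases List.mem_cons.mp hz with rfl | hz <;> rcases List.mem_cons.mp hw with rfl | hw
        · simp
        · exact (hb' w hw).2
        · exact (hb' z hz).1
        · exact hp.2 z hz w hw) (by
    intro p hp b
    by_cases hex : ∃ y ∈ p, y.2 = b
    · obtain ⟨y, hy, rfl⟩ := hex
      refine ⟨y.1, ?_, ?_⟩
      · intro z hz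
        rcases List.mem_cons.mp hz with rfl | hz
        · exact hp.1 y hy
        · exact hp.1 z hz
      · intro z hz w hw
        have e : ∀ z, z ∈ (y.1, y.2) :: p → z ∈ p := by
          intro z hz
          rcases List.mem_cons.mp hz with rfl | hz
          · exact hy
          · exact hz
        exact hp.2 z (e z hz) w (e w hw)
    · push Not at hex
      obtain ⟨a, ha, ha'⟩ := ext (p.map Prod.swap) (g.symm (c b)) b (by
        intro y hy z hz
        obtain ⟨y', hy', rfl⟩ := List.mem_map.mp hy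
        obtain ⟨z', hz', rfl⟩ := List.mem_map.mp hz
        exact (hp.2 y' hy' z' hz').symm) (by
        intro y hy
        obtain ⟨y', hy', rfl⟩ := List.mem_map.mp hy
        exact hex y' hy')
      have ha'' : ∀ z ∈ p, (z.2 < b ↔ z.1 < a) ∧ (b < z.2 ↔ a < z.1) := fun z hz =>
        ha' z.swap (List.mem_map.mpr ⟨z, hz, rfl⟩)
      refine ⟨a, ?_, ?_⟩
      · intro z hz
        rcases List.mem_cons.mp hz with rfl | hz
        · show c b = g (c a)
          rw [ha, Equiv.apply_symm_apply]
        · exact hp.1 z hz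
      · intro z hz w hw
        rcases List.mem_cons.mp hz with rfl | hz <;> rcases List.mem_cons.mp hw with rfl | hw
        · simp
        · exact (ha'' w hw).2.symm
        · exact (ha'' z hz).1.symm
        · exact hp.2 z hz w hw) (by
    intro p hp a b a' b' h h'
    exact hIeq p hp (a, b) h (a', b') h')
  refine ⟨φ, ?_, ?_⟩
  · intro a b
    obtain ⟨p, hp, hm⟩ := hφ [a, b]
    exact hp.2 (a, φ a) (hm a (by simp)) (b, φ b) (hm b (by simp))
  · intro a
    obtain ⟨p, hp, hm⟩ := hφ [a]
    exact hp.1 (a, φ a) (hm a (by simp))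

end Pool.Agent.Q215.Grp
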