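import Mathlib
import Pool.Agent.Q215.GrpA

set_option autoImplicit false

/-! The class of the linearly ordered structures of the big relational language is Borel
complete. -/

namespace Pool.Agent.Q215.Grp

open FirstOrder MeasureTheory

/-- the language: countably many relation symbols of each arity -/
def U : FirstOrder.Language.{0, 0} := ⟨fun _ => Empty, fun _ => ℕ⟩

/-- the relation symbol number `k` of arity `n` -/
def sy (n k : ℕ) : U.Relations n := (k : ℕ)

/-- the structures whose first binary relation is a strict linear order -/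
def LinO : Set (Str U) := {M | (∀ a, ¬ M.RelMap (sy 2 0) ![a, a]) ∧
  (∀ a b c, M.RelMap (sy 2 0) ![a, b] → M.RelMap (sy 2 0) ![b, c] → M.RelMap (sy 2 0) ![a, c]) ∧
  ∀ a b, a ≠ b → M.RelMap (sy 2 0) ![a, b] ∨ M.RelMap (sy 2 0) ![b, a]}

/-- the structure given by relations on a countable set -/
def tr {A : Type} (ν : A ≃ ℕ) (r : (n : ℕ) → ℕ → (Fin n → A) → Prop) : Str U where
  funMap f _ := f.elim
  RelMap {n} R v := r n R (ν.symm ∘ v)

/-- the conjugated permutation -/
def cj {A : Type} (ν : A ≃ ℕ) (Ψ : Equiv.Perm A) : Equiv.Perm ℕ := ν.symm.trans (Ψ.trans ν)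

theorem cj_mul {A : Type} (ν : A ≃ ℕ) (Ψ Φ : Equiv.Perm A) : cj ν (Ψ * Φ) = cj ν Ψ * cj ν Φ := by
  ext n
  simp [cj]

theorem cj_one {A : Type} (ν : A ≃ ℕ) : cj ν 1 = 1 := by
  ext n
  simp [cj]

theorem act_cj {A : Type} (ν : A ≃ ℕ) (Ψ : Equiv.Perm A) (r r' : (n : ℕ) → ℕ → (Fin n → A) → Prop) :
    act (cj ν Ψ) (tr ν r) = tr ν r' ↔ ∀ n k v, r n k v ↔ r' n k (Ψ ∘ v) := by
  constructor
  · intro h n k v
    have h1 : (act (cj ν Ψ) (tr ν r)).RelMap (sy n k) (ν ∘ Ψ ∘ v) =
        (tr ν r').RelMap (sy n k) (ν ∘ Ψ ∘ v) := by rw [h]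
    have h2 : (act (cj ν Ψ) (tr ν r)).RelMap (sy n k) (ν ∘ Ψ ∘ v) =
        r n k (ν.symm ∘ (cj ν Ψ).symm ∘ (ν ∘ Ψ ∘ v)) := rfl
    have h3 : (tr ν r').RelMap (sy n k) (ν ∘ Ψ ∘ v) = r' n k (ν.symm ∘ (ν ∘ Ψ ∘ v)) := rfl
    have h4 : ν.symm ∘ (cj ν Ψ).symm ∘ (ν ∘ Ψ ∘ v) = v := by
      funext i
      simp [cj]
    have h5 : ν.symm ∘ (ν ∘ Ψ ∘ v) = Ψ ∘ v := by
      funext i
      simp
    rw [h2, h3, h4, h5] at h1
    rw [h1]
  · intro h
    apply str_ext
    · intro n k v
      have h4 : ν.symm ∘ (cj ν Ψ).symm ∘ v = Ψ.symm ∘ (ν.symm ∘ v) := by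
        funext i
        simp [cj]
      show r n k (ν.symm ∘ (cj ν Ψ).symm ∘ v) ↔ r' n k (ν.symm ∘ v)
      rw [h4, h n k (Ψ.symm ∘ (ν.symm ∘ v))]
      have h5 : Ψ ∘ (Ψ.symm ∘ (ν.symm ∘ v)) = ν.symm ∘ v := by
        funext i
        simp
      rw [h5]
    · intro n f v
      exact f.elim

theorem iso_tr {A : Type} (ν : A ≃ ℕ) (r r' : (n : ℕ) → ℕ → (Fin n → A) → Prop) :
    Iso (tr ν r) (tr ν r') ↔ ∃ Ψ : Equiv.Perm A, ∀ n k v, r n k v ↔ r' n k (Ψ ∘ v) := by
  constructor
  · rintro ⟨g, hg⟩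
    refine ⟨ν.trans (g.trans ν.symm), ?_⟩
    rw [← act_cj ν]
    rw [← hg]
    congr 1
    ext n
    simp [cj]
  · rintro ⟨Ψ, h⟩
    exact ⟨cj ν Ψ, (act_cj ν Ψ r r').mpr h⟩

section

variable {L : FirstOrder.Language.{0, 0}}

/-- the labels -/
abbrev Lab (L : FirstOrder.Language.{0, 0}) : Type :=
  Unit ⊕ (ℕ × ℕ) ⊕ ((Σ n, L.Relations n) × List ℕ) ⊕ ((Σ n, L.Functions n) × List ℕ × ℕ)

/-- the coloured entry -/
def ent (c : ℚ → ℕ) (t : List ℚ) (i : ℕ) : ℕ := c (t.getD i 0)

/-- the meaning of the labels -/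
def sat (c : ℚ → ℕ) (M : Str L) : Lab L → List ℚ → Prop
  | Sum.inl _, t => t = []
  | Sum.inr (Sum.inl (i, j)), t => (i < t.length ∧ j < t.length) ∧ ent c t i = ent c t j
  | Sum.inr (Sum.inr (Sum.inl (R, w))), t =>
    (∀ i < R.1, w.getD i 0 < t.length) ∧ M.RelMap R.2 (fun i => ent c t (w.getD i 0))
  | Sum.inr (Sum.inr (Sum.inr (F, w, k))), t => ((∀ i < F.1, w.getD i 0 < t.length) ∧ k < t.length) ∧
    M.funMap F.2 (fun i => ent c t (w.getD i 0)) = ent c t k

/-- the relations of the tree -/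
def trel (c : ℚ → ℕ) (en : ℕ → Lab L) (M : Str L) : (n : ℕ) → ℕ → (Fin n → List ℚ) → Prop
  | 1, k, v => sat c M (en k) (v 0)
  | 2, 0, v => List.Lex (fun a b => a < b) (v 0) (v 1)
  | 2, 1, v => ∃ q, v 1 = q :: v 0
  | _, _, _ => False

theorem lex_map {φ : ℚ ≃ ℚ} (h : ∀ a b, a < b ↔ φ a < φ b) : ∀ s t : List ℚ,
    List.Lex (fun a b => a < b) s t ↔ List.Lex (fun a b => a < b) (s.map φ) (t.map φ) := by
  intro s
  induction s with
  | nil =>
    intro t
    cases t with
    | nil => exact Iff.rfl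
    | cons b t => exact ⟨fun _ => List.Lex.nil, fun _ => List.Lex.nil⟩
  | cons a s ih =>
    intro t
    cases t with
    | nil =>
      constructor
      · intro h
        cases h
      · intro h
        cases h
    | cons b t =>
      rw [List.map_cons, List.map_cons]
      constructor
      · intro h'
        cases h' with
        | rel h'' => exact List.Lex.rel ((h _ _).mp h'')
        | cons h'' => exact List.Lex.cons ((ih _).mp h'')
      · intro h'
        generalize ha : φ a = a' at h'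
        generalize hb : φ b = b' at h'
        cases h' with
        | rel h'' =>
          rw [← ha, ← hb] at h''
          exact List.Lex.rel ((h _ _).mpr h'')
        | cons h'' =>
          have : a = b := φ.injective (ha.trans hb.symm)
          rw [this]
          exact List.Lex.cons ((ih _).mpr h'')

theorem lex_irrefl : ∀ s : List ℚ, ¬ List.Lex (fun a b => a < b) s s := by
  intro s
  induction s with
  | nil => intro h; cases h
  | cons a s ih =>
    intro h
    cases h with
    | rel h => exact lt_irrefl _ h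
    | cons h => exact ih h

theorem lex_trans : ∀ s t u : List ℚ, List.Lex (fun a b => a < b) s t →
    List.Lex (fun a b => a < b) t u → List.Lex (fun a b => a < b) s u := by
  intro s
  induction s with
  | nil =>
    intro t u h1 h2
    cases h2 with
    | nil => cases h1
    | rel _ => exact List.Lex.nil
    | cons _ => exact List.Lex.nil
  | cons a s ih =>
    intro t u h1 h2
    cases h1 with
    | rel h =>
      cases h2 with
      | rel h' => exact List.Lex.rel (h.trans h')
      | cons h' => exact List.Lex.rel h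
    | cons h =>
      cases h2 with
      | rel h' => exact List.Lex.rel h'
      | cons h' => exact List.Lex.cons (ih _ _ h h')

theorem lex_tri : ∀ s t : List ℚ, s ≠ t → List.Lex (fun a b => a < b) s t ∨
    List.Lex (fun a b => a < b) t s := by
  intro s
  induction s with
  | nil =>
    intro t h
    cases t with
    | nil => exact absurd rfl h
    | cons b t => exact Or.inl List.Lex.nil
  | cons a s ih =>
    intro t h
    cases t with
    | nil => exact Or.inr List.Lex.nil
    | cons b t =>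
      rcases lt_trichotomy a b with hab | hab | hab
      · exact Or.inl (List.Lex.rel hab)
      · subst hab
        rcases ih t (fun e => h (by rw [e])) with h' | h'
        · exact Or.inl (List.Lex.cons h')
        · exact Or.inr (List.Lex.cons h')
      · exact Or.inr (List.Lex.rel hab)

theorem ent_map {c : ℚ → ℕ} {φ : ℚ ≃ ℚ} {g : Equiv.Perm ℕ} (h : ∀ a, c (φ a) = g (c a))
    (t : List ℚ) (i : ℕ) (hi : i < t.length) : ent c (t.map φ) i = g (ent c t i) := by
  have h1 : (t.map φ).getD i 0 = φ (t.getD i 0) := by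
    rw [List.getD_eq_getElem _ _ (by simpa using hi), List.getD_eq_getElem _ _ hi]
    simp
  show c ((t.map φ).getD i 0) = g (c (t.getD i 0))
  rw [h1, h]

theorem sat_map {c : ℚ → ℕ} {φ : ℚ ≃ ℚ} {g : Equiv.Perm ℕ} (h : ∀ a, c (φ a) = g (c a))
    {M N : Str L} (hMN : act g M = N) (l : Lab L) (t : List ℚ) : sat c M l t ↔ sat c N l (t.map φ) := by
  rcases l with _ | ⟨i, j⟩ | ⟨⟨n, R⟩, w⟩ | ⟨⟨n, F⟩, w, k⟩
  · show t = [] ↔ t.map φ = []
    simp
  · show (i < t.length ∧ j < t.length) ∧ ent c t i = ent c t j ↔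
      (i < (t.map φ).length ∧ j < (t.map φ).length) ∧ ent c (t.map φ) i = ent c (t.map φ) j
    rw [List.length_map]
    apply and_congr_right
    rintro ⟨h1, h2⟩
    rw [ent_map h _ _ h1, ent_map h _ _ h2]
    exact g.injective.eq_iff.symm
  · show (∀ i < n, w.getD i 0 < t.length) ∧ M.RelMap R (fun i => ent c t (w.getD i 0)) ↔
      (∀ i < n, w.getD i 0 < (t.map φ).length) ∧
        N.RelMap R (fun i => ent c (t.map φ) (w.getD i 0))
    rw [List.length_map]
    apply and_congr_right
    intro h1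
    have h2 : (fun i : Fin n => ent c (t.map φ) (w.getD i 0)) =
        g ∘ (fun i : Fin n => ent c t (w.getD i 0)) := by
      funext i
      exact ent_map h _ _ (h1 i i.2)
    rw [h2, ← hMN]
    show _ ↔ M.RelMap R (g.symm ∘ g ∘ fun i : Fin n => ent c t (w.getD i 0))
    rw [← Function.comp_assoc, Equiv.symm_comp_self, Function.id_comp]
  · show ((∀ i < n, w.getD i 0 < t.length) ∧ k < t.length) ∧
        M.funMap F (fun i => ent c t (w.getD i 0)) = ent c t k ↔
      ((∀ i < n, w.getD i 0 < (t.map φ).length) ∧ k < (t.map φ).length) ∧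
        N.funMap F (fun i => ent c (t.map φ) (w.getD i 0)) = ent c (t.map φ) k
    rw [List.length_map]
    apply and_congr_right
    rintro ⟨h1, hk⟩
    have h2 : (fun i : Fin n => ent c (t.map φ) (w.getD i 0)) =
        g ∘ (fun i : Fin n => ent c t (w.getD i 0)) := by
      funext i
      exact ent_map h _ _ (h1 i i.2)
    rw [h2, ent_map h _ _ hk, ← hMN]
    show _ ↔ g (M.funMap F (g.symm ∘ g ∘ fun i : Fin n => ent c t (w.getD i 0))) = _
    rw [← Function.comp_assoc, Equiv.symm_comp_self, Function.id_comp]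
    exact g.injective.eq_iff.symm

/-- isomorphic structures have isomorphic trees -/
theorem trel_map {c : ℚ → ℕ} (en : ℕ → Lab L) {φ : ℚ ≃ ℚ} {g : Equiv.Perm ℕ}
    (h : ∀ a, c (φ a) = g (c a)) (hφ : ∀ a b, a < b ↔ φ a < φ b) {M N : Str L} (hMN : act g M = N)
    (n k : ℕ) (v : Fin n → List ℚ) :
    trel c en M n k v ↔ trel c en N n k (fun i => (v i).map φ) := by
  match n, k, v with
  | 0, k, v => exact Iff.rfl
  | 1, k, v => exact sat_map h hMN (en k) (v 0)
  | 2, 0, v => exact lex_map hφ (v 0) (v 1)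
  | 2, 1, v =>
    show (∃ q, v 1 = q :: v 0) ↔ ∃ q, (v 1).map φ = q :: (v 0).map φ
    constructor
    · rintro ⟨q, hq⟩
      exact ⟨φ q, by rw [hq]; rfl⟩
    · rintro ⟨q, hq⟩
      refine ⟨φ.symm q, ?_⟩
      apply List.map_injective_iff.mpr φ.injective
      rw [hq]
      simp
  | 2, k + 2, v => exact Iff.rfl
  | n + 3, k, v => exact Iff.rfl

/-- isomorphic trees come from isomorphic structures -/
theorem trel_back {c : ℚ → ℕ} (hc : ∀ k, ∃ q, c q = k) (en : ℕ → Lab L)
    (hen : Function.Surjective en) {M N : Str L} (Ψ : Equiv.Perm (List ℚ))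
    (hΨ : ∀ n k v, trel c en M n k v ↔ trel c en N n k (Ψ ∘ v)) : Iso M N := by
  have hsat : ∀ l t, sat c M l t ↔ sat c N l (Ψ t) := by
    intro l t
    obtain ⟨k, rfl⟩ := hen l
    exact hΨ 1 k ![t]
  have hch : ∀ t t' : List ℚ, (∃ q, t' = q :: t) ↔ ∃ q, Ψ t' = q :: Ψ t := by
    intro t t'
    exact hΨ 2 1 ![t, t']
  have hroot : Ψ [] = [] := (hsat (Sum.inl ()) []).mp rfl
  have hlen : ∀ t : List ℚ, (Ψ t).length = t.length := by
    intro t
    induction t with
    | nil => rw [hroot]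
    | cons q t ih =>
      obtain ⟨r, hr⟩ := (hch t (q :: t)).mp ⟨q, rfl⟩
      rw [hr, List.length_cons, ih, List.length_cons]
  have hent : ∀ (t : List ℚ) (q : ℚ), ent c (q :: t) 0 = c q := fun t q => rfl
  have hents : ∀ (t : List ℚ) (q : ℚ) (i : ℕ), ent c (q :: t) (i + 1) = ent c t i := by
    intro t q i
    rfl
  let I : List (ℕ × ℕ) → Prop := fun p => ∃ t : List ℚ, t.length = p.length ∧
    ∀ i (h : i < p.length), p[i] = (ent c t i, ent c (Ψ t) i)
  obtain ⟨g, hg⟩ := back_forth (A := ℕ) (B := ℕ) I ⟨[], rfl, by simp⟩ (by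
    rintro p ⟨t, ht, hp⟩ a
    obtain ⟨q, hq⟩ := hc a
    obtain ⟨r, hr⟩ := (hch t (q :: t)).mp ⟨q, rfl⟩
    refine ⟨c r, q :: t, by simp [ht], ?_⟩
    intro i hi
    rw [hr]
    cases i with
    | zero =>
      rw [hent, hent, hq]
      rfl
    | succ i =>
      rw [hents, hents]
      exact hp i (by simpa using hi)) (by
    rintro p ⟨t, ht, hp⟩ b
    obtain ⟨q, hq⟩ := hc b
    have h1 : ∃ r, Ψ.symm (q :: Ψ t) = r :: t := by
      rw [hch]
      exact ⟨q, by simp⟩
    obtain ⟨r, hr⟩ := h1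
    have hr' : Ψ (r :: t) = q :: Ψ t := by
      rw [← hr]
      simp
    refine ⟨c r, r :: t, by simp [ht], ?_⟩
    intro i hi
    rw [hr']
    cases i with
    | zero =>
      rw [hent, hent, hq]
      rfl
    | succ i =>
      rw [hents, hents]
      exact hp i (by simpa using hi)) (by
    rintro p ⟨t, ht, hp⟩ a b a' b' h h'
    obtain ⟨i, hi, hi'⟩ := List.getElem_of_mem h
    obtain ⟨j, hj, hj'⟩ := List.getElem_of_mem h'
    have e1 := (hp i hi).symm.trans hi'
    have e2 := (hp j hj).symm.trans hj'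
    have h3 := hsat (Sum.inr (Sum.inl (i, j))) t
    have h4 : ((i < t.length ∧ j < t.length) ∧ ent c t i = ent c t j) ↔
        ((i < (Ψ t).length ∧ j < (Ψ t).length) ∧ ent c (Ψ t) i = ent c (Ψ t) j) := h3
    rw [hlen] at h4
    have hi2 : i < t.length := by omega
    have hj2 : j < t.length := by omega
    have h5 : ent c t i = ent c t j ↔ ent c (Ψ t) i = ent c (Ψ t) j := by
      constructor
      · intro h
        exact (h4.mp ⟨⟨hi2, hj2⟩, h⟩).2
      · intro h
        exact (h4.mpr ⟨⟨hi2, hj2⟩, h⟩).2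
    rw [Prod.mk.injEq] at e1 e2
    rw [e1.1, e1.2, e2.1, e2.2] at h5
    exact h5)
  -- indices for a finite tuple
  have hidx : ∀ (n : ℕ) (v : Fin n → ℕ) (u : ℕ), ∃ (t : List ℚ) (w : List ℕ) (k : ℕ),
      (∀ i < n, w.getD i 0 < t.length) ∧ k < t.length ∧
      (∀ i : Fin n, ent c t (w.getD i 0) = v i ∧ ent c (Ψ t) (w.getD i 0) = g (v i)) ∧
      ent c t k = u ∧ ent c (Ψ t) k = g u := by
    intro n v u
    obtain ⟨p, ⟨t, ht, hp⟩, hm⟩ := hg (u :: List.ofFn v)
    have h1 : ∀ a ∈ u :: List.ofFn v, ∃ i, i < t.length ∧ ent c t i = a ∧ ent c (Ψ t) i = g a := by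
      intro a ha
      obtain ⟨i, hi, hi'⟩ := List.getElem_of_mem (hm a ha)
      have e1 := (hp i hi).symm.trans hi'
      rw [Prod.mk.injEq] at e1
      exact ⟨i, by omega, e1.1, e1.2⟩
    obtain ⟨k, hk1, hk2, hk3⟩ := h1 u (by simp)
    have h2 : ∀ i : Fin n, ∃ j, j < t.length ∧ ent c t j = v i ∧ ent c (Ψ t) j = g (v i) := by
      intro i
      exact h1 (v i) (by simp)
    choose w hw1 hw2 hw3 using h2
    have h3 : ∀ i : Fin n, (List.ofFn w).getD i 0 = w i := by
      intro i
      rw [List.getD_eq_getElem _ _ (by simp)]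
      simp
    refine ⟨t, List.ofFn w, k, ?_, hk1, ?_, hk2, hk3⟩
    · intro i hi
      have := h3 ⟨i, hi⟩
      simp only at this
      rw [this]
      exact hw1 _
    · intro i
      rw [h3]
      exact ⟨hw2 i, hw3 i⟩
  refine ⟨g, ?_⟩
  apply str_ext
  · intro n R v
    show M.RelMap R (g.symm ∘ v) ↔ N.RelMap R v
    obtain ⟨t, w, k, hw, hk, hv, hu⟩ := hidx n (g.symm ∘ v) 0
    have h1 := hsat (Sum.inr (Sum.inr (Sum.inl (⟨n, R⟩, w)))) t
    have h2 : ((∀ i < n, w.getD i 0 < t.length) ∧ M.RelMap R (fun i => ent c t (w.getD i 0))) ↔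
        ((∀ i < n, w.getD i 0 < (Ψ t).length) ∧ N.RelMap R (fun i => ent c (Ψ t) (w.getD i 0))) := h1
    rw [hlen] at h2
    have h3 : (fun i : Fin n => ent c t (w.getD i 0)) = g.symm ∘ v := by
      funext i
      exact (hv i).1
    have h4 : (fun i : Fin n => ent c (Ψ t) (w.getD i 0)) = v := by
      funext i
      rw [(hv i).2]
      simp
    rw [h3, h4] at h2
    constructor
    · intro h
      exact (h2.mp ⟨hw, h⟩).2
    · intro h
      exact (h2.mpr ⟨hw, h⟩).2
  · intro n F v
    show g (M.funMap F (g.symm ∘ v)) = N.funMap F v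
    obtain ⟨t, w, k, hw, hk, hv, hu1, hu2⟩ := hidx n (g.symm ∘ v) (M.funMap F (g.symm ∘ v))
    have h1 := hsat (Sum.inr (Sum.inr (Sum.inr (⟨n, F⟩, w, k)))) t
    have h2 : (((∀ i < n, w.getD i 0 < t.length) ∧ k < t.length) ∧
        M.funMap F (fun i => ent c t (w.getD i 0)) = ent c t k) ↔
        (((∀ i < n, w.getD i 0 < (Ψ t).length) ∧ k < (Ψ t).length) ∧
          N.funMap F (fun i => ent c (Ψ t) (w.getD i 0)) = ent c (Ψ t) k) := h1
    rw [hlen] at h2
    have h3 : (fun i : Fin n => ent c t (w.getD i 0)) = g.symm ∘ v := by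
      funext i
      exact (hv i).1
    have h4 : (fun i : Fin n => ent c (Ψ t) (w.getD i 0)) = v := by
      funext i
      rw [(hv i).2]
      simp
    rw [h3, h4, hu1, hu2] at h2
    exact (h2.mp ⟨⟨hw, hk⟩, rfl⟩).2.symm

theorem meas_tree (c : ℚ → ℕ) (ν : List ℚ ≃ ℕ) (en : ℕ → Lab L) :
    Measurable fun M : Str L => tr ν (trel c en M) := by
  apply meas_to
  · intro n R v
    have hs : ∀ (l : Lab L) (t : List ℚ), MeasurableSet {M : Str L | sat c M l t} := by
      intro l t
      rcases l with _ | ⟨i, j⟩ | ⟨⟨n, R⟩, w⟩ | ⟨⟨n, F⟩, w, k⟩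
      · exact MeasurableSet.const _
      · exact MeasurableSet.const _
      · exact (MeasurableSet.const _).inter (meas_rel R _)
      · exact (MeasurableSet.const _).inter (meas_fun F _ _)
    show MeasurableSet {M : Str L | trel c en M n R (ν.symm ∘ v)}
    generalize ν.symm ∘ v = u
    have : ∀ (n k : ℕ) (u : Fin n → List ℚ), MeasurableSet {M : Str L | trel c en M n k u} := by
      intro n k u
      match n, k, u with
      | 0, k, v => exact MeasurableSet.const _
      | 1, k, v => exact hs (en k) (v 0)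
      | 2, 0, v => exact MeasurableSet.const _
      | 2, 1, v => exact MeasurableSet.const _
      | 2, k + 2, v => exact MeasurableSet.const _
      | n + 3, k, v => exact MeasurableSet.const _
    exact this n R u
  · intro n f
    exact f.elim

end

theorem isClass_univ (L : FirstOrder.Language.{0, 0}) : IsClass (Set.univ : Set (Str L)) :=
  ⟨MeasurableSet.univ, fun _ _ _ => trivial⟩

theorem isClass_LinO : IsClass LinO := by
  refine ⟨?_, ?_⟩
  · have h : LinO = (⋂ a : ℕ, {M : Str U | M.RelMap (sy 2 0) ![a, a]}ᶜ) ∩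
        ((⋂ a : ℕ, ⋂ b : ℕ, ⋂ c : ℕ, ({M : Str U | M.RelMap (sy 2 0) ![a, b]}ᶜ ∪
          {M : Str U | M.RelMap (sy 2 0) ![b, c]}ᶜ ∪ {M : Str U | M.RelMap (sy 2 0) ![a, c]})) ∩
        (⋂ a : ℕ, ⋂ b : ℕ, ({_M : Str U | a = b} ∪ {M : Str U | M.RelMap (sy 2 0) ![a, b]} ∪
          {M : Str U | M.RelMap (sy 2 0) ![b, a]}))) := by
      ext M
      simp only [LinO, Set.mem_ofPred_eq, Set.mem_inter_iff, Set.mem_iInter, Set.mem_union,
        Set.mem_compl_iff]
      refine and_congr Iff.rfl (and_congr ?_ ?_)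
      · refine forall_congr' fun a => forall_congr' fun b => forall_congr' fun c => ?_
        tauto
      · refine forall_congr' fun a => forall_congr' fun b => ?_
        tauto
    rw [h]
    refine MeasurableSet.inter (MeasurableSet.iInter fun a => (meas_rel _ _).compl)
      (MeasurableSet.inter (MeasurableSet.iInter fun a => MeasurableSet.iInter fun b =>
        MeasurableSet.iInter fun c => ?_) (MeasurableSet.iInter fun a =>
          MeasurableSet.iInter fun b => ?_))
    · exact ((meas_rel _ _).compl.union (meas_rel _ _).compl).union (meas_rel _ _)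
    · exact ((MeasurableSet.const _).union (meas_rel _ _)).union (meas_rel _ _)
  · intro g M hM
    have hg : ∀ a b, (act g M).RelMap (sy 2 0) ![a, b] ↔ M.RelMap (sy 2 0) ![g.symm a, g.symm b] := by
      intro a b
      show M.RelMap (sy 2 0) (g.symm ∘ ![a, b]) ↔ _
      have : g.symm ∘ ![a, b] = ![g.symm a, g.symm b] := by
        funext i
        fin_cases i <;> rfl
      rw [this]
    refine ⟨?_, ?_, ?_⟩
    · intro a
      rw [hg]
      exact hM.1 _
    · intro a b c
      rw [hg, hg, hg]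
      exact hM.2.1 _ _ _
    · intro a b hab
      rw [hg, hg]
      exact hM.2.2 _ _ (g.symm.injective.ne hab)

theorem complete_LinO : BorelComplete LinO := by
  refine ⟨isClass_LinO, ?_⟩
  intro L hF hR C hC
  obtain ⟨c, hcol⟩ := exists_col
  have ν : Nonempty (List ℚ ≃ ℕ) := nonempty_equiv_of_countable
  obtain ⟨ν⟩ := ν
  obtain ⟨en, hen⟩ := exists_surjective_nat (Lab L)
  have hD : ∀ M : Str L, tr ν (trel c en M) ∈ LinO := by
    intro M
    have h : ∀ a b : ℕ, (tr ν (trel c en M)).RelMap (sy 2 0) ![a, b] ↔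
        List.Lex (fun a b => a < b) (ν.symm a) (ν.symm b) := fun a b => Iff.rfl
    refine ⟨?_, ?_, ?_⟩
    · intro a
      rw [h]
      exact lex_irrefl _
    · intro a b c
      rw [h, h, h]
      exact lex_trans _ _ _
    · intro a b hab
      rw [h, h]
      exact lex_tri _ _ (ν.symm.injective.ne hab)
  refine ⟨fun M => ⟨tr ν (trel c en M.1), hD M.1⟩, ?_, ?_⟩
  · exact Measurable.subtype_mk ((meas_tree c ν en).comp measurable_subtype_coe)
  · intro M N
    show _ ↔ Iso (tr ν (trel c en M.1)) (tr ν (trel c en N.1))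
    rw [iso_tr]
    constructor
    · rintro ⟨g, hg⟩
      obtain ⟨φ, hφ1, hφ2⟩ := cantor c hcol g
      refine ⟨Equiv.listEquivOfEquiv φ, fun n k v => ?_⟩
      exact trel_map en hφ2 hφ1 hg n k v
    · rintro ⟨Ψ, hΨ⟩
      exact trel_back (fun k => by
        obtain ⟨q, _, _, hq⟩ := hcol 0 1 k (by norm_num)
        exact ⟨q, hq⟩) en hen Ψ hΨ

theorem complete_univ : BorelComplete (Set.univ : Set (Str U)) := by
  refine ⟨isClass_univ U, ?_⟩
  intro L hF hR C hC
  obtain ⟨f, hf, hf'⟩ := complete_LinO.2 L hF hR C hC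
  refine ⟨fun x => ⟨(f x).1, trivial⟩, ?_, hf'⟩
  exact Measurable.subtype_mk (measurable_subtype_coe.comp hf)

end Pool.Agent.Q215.Grp
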