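import Mathlib
import Pool.Agent.H418R3.GurWF

set_option autoImplicit false

/-! Pairs of relations, depending on a tree, which are isomorphic if and only if the tree has an
infinite branch. -/

namespace Pool.Agent.Q215.Grp

open Pool.Agent.H418R3.Gur

/-- The Kleene-Brouwer order of finite sequences. -/
def kb : List ℕ → List ℕ → Prop
  | [], _ => False
  | _ :: _, [] => True
  | x :: L, y :: M => x < y ∨ (x = y ∧ kb L M)

theorem kb_irrefl (L : List ℕ) : ¬ kb L L := by
  induction L with
  | nil => exact id
  | cons x L ih => simp [kb, ih]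

theorem kb_tri : ∀ (L M : List ℕ), kb L M ∨ L = M ∨ kb M L
  | [], [] => Or.inr (Or.inl rfl)
  | [], _ :: _ => Or.inr (Or.inr trivial)
  | _ :: _, [] => Or.inl trivial
  | x :: L, y :: M => by
    simp only [kb, List.cons.injEq]
    rcases lt_trichotomy x y with h | h | h
    · exact Or.inl (Or.inl h)
    · rcases kb_tri L M with h' | h' | h'
      · exact Or.inl (Or.inr ⟨h, h'⟩)
      · exact Or.inr (Or.inl ⟨h, h'⟩)
      · exact Or.inr (Or.inr (Or.inr ⟨h.symm, h'⟩))
    · exact Or.inr (Or.inr (Or.inl h))

theorem kb_append (L : List ℕ) (y : ℕ) : kb (L ++ [y]) L := by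
  induction L with
  | nil => exact trivial
  | cons x L ih => exact Or.inr ⟨rfl, ih⟩

theorem kb_left (u a b : List ℕ) : kb (u ++ a) (u ++ b) ↔ kb a b := by
  induction u with
  | nil => exact Iff.rfl
  | cons x u ih =>
    simp only [List.cons_append, kb, lt_irrefl, true_and, false_or]
    exact ih

/-- the sequences all of whose initial segments are in the tree -/
def nodes (x : List ℕ → Bool) : Set (List ℕ) := {u | inT x u.reverse = true}

/-- the order on the nodes -/
def rT (x : List ℕ → Bool) (u v : List ℕ) : Prop := u ∈ nodes x ∧ v ∈ nodes x ∧ kb u v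

/-- an infinite descending sequence from an infinite branch -/
theorem desc_of_IF {x : List ℕ → Bool} (h : x ∈ IF) : ∃ u ∈ nodes x, ¬ Acc (rT x) u := by
  obtain ⟨b, hb⟩ := h
  have hn : ∀ n, (br b n).reverse ∈ nodes x := by
    intro n
    show inT x (br b n).reverse.reverse = true
    rw [List.reverse_reverse]
    exact inT_br hb n
  refine ⟨(br b 0).reverse, hn 0, ?_⟩
  rw [not_acc_iff_exists_descending_chain]
  refine ⟨fun n => (br b n).reverse, rfl, fun n => ⟨hn _, hn _, ?_⟩⟩
  show kb (b n :: br b n).reverse (br b n).reverse
  rw [List.reverse_cons]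
  exact kb_append _ _

/-- the tree order is well-founded without an infinite branch -/
theorem acc_root {x : List ℕ → Bool} (h : x ∉ IF) :
    Acc (fun w' w : List ℕ => ∃ k, w' = k :: w ∧ inT x w' = true) [] := by
  by_contra hno
  rw [not_acc_iff_exists_descending_chain] at hno
  obtain ⟨f, hf0, hf⟩ := hno
  choose k hk hT using hf
  have hb : ∀ n, f n = br k n := by
    intro n
    induction n with
    | zero => exact hf0
    | succ n ih => rw [hk, ih]; rfl
  apply h
  refine ⟨k, fun n => ?_⟩
  have h1 := hT n
  rw [hk, hb] at h1
  exact inT_self (inT_suffix (List.suffix_cons _ _) h1)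

theorem acc_all {x : List ℕ → Bool} (h : x ∉ IF) : ∀ w : List ℕ, inT x w = true →
    Acc (fun w' w : List ℕ => ∃ k, w' = k :: w ∧ inT x w' = true) w
  | [], _ => acc_root h
  | k :: w, hw => (acc_all h w (inT_suffix (List.suffix_cons _ _) hw)).inv ⟨k, rfl, hw⟩

theorem kb_wf_aux (x : List ℕ → Bool) (w : List ℕ)
    (h : Acc (fun w' w : List ℕ => ∃ k, w' = k :: w ∧ inT x w' = true) w) :
    ∀ s, w.reverse <+: s → s ∈ nodes x →
      Acc (fun a b => rT x a b ∧ w.reverse <+: a ∧ w.reverse <+: b) s := by
  induction h with
  | intro w _ ih =>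
    -- the proper extensions
    have key : ∀ k s, w.reverse ++ [k] <+: s → s ∈ nodes x →
        Acc (fun a b => rT x a b ∧ w.reverse <+: a ∧ w.reverse <+: b) s := by
      intro k
      induction k using Nat.strong_induction_on with
      | _ k ihk =>
        intro s hs hsn
        have hin : inT x (k :: w) = true := by
          have h1 : (k :: w) <:+ s.reverse := by
            have h2 := List.reverse_suffix.mpr hs
            rwa [List.reverse_append, List.reverse_reverse] at h2
          exact inT_suffix h1 hsn
        have hr : (k :: w).reverse = w.reverse ++ [k] := List.reverse_cons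
        have h1 := ih (k :: w) ⟨k, rfl, hin⟩ s (by rw [hr]; exact hs) hsn
        induction h1 with
        | intro s _ ih2 =>
          constructor
          rintro a ⟨⟨ha, hs', hk⟩, hwa, hws⟩
          obtain ⟨a', rfl⟩ := hwa
          obtain ⟨s', rfl⟩ := hs
          rw [List.append_assoc, kb_left] at hk
          cases a' with
          | nil => exact hk.elim
          | cons j a' =>
            simp only [List.cons_append, List.nil_append, kb] at hk
            rcases hk with hk | ⟨rfl, hk⟩
            · exact ihk j hk _ ⟨a', by simp⟩ ha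
            · apply ih2
              · refine ⟨⟨ha, hs', ?_⟩, ?_, ?_⟩
                · rw [List.append_assoc, kb_left]
                  exact Or.inr ⟨rfl, hk⟩
                · rw [hr]
                  exact ⟨a', by simp⟩
                · rw [hr]
                  exact ⟨s', rfl⟩
              · exact ⟨a', by simp⟩
              · exact ha
    intro s hs hsn
    obtain ⟨s', rfl⟩ := hs
    cases s' with
    | nil =>
      constructor
      rintro a ⟨⟨ha, _, hk⟩, hwa, _⟩
      obtain ⟨a', rfl⟩ := hwa
      rw [kb_left] at hk
      cases a' with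
      | nil => exact hk.elim
      | cons j a' => exact key j _ ⟨a', by simp⟩ ha
    | cons k s' => exact key k _ ⟨s', by simp⟩ hsn

theorem acc_of_not_IF {x : List ℕ → Bool} (h : x ∉ IF) (u : List ℕ) (hu : u ∈ nodes x) :
    Acc (rT x) u := by
  by_cases h0 : inT x [] = true
  · have h1 := kb_wf_aux x [] (acc_root h) u (List.nil_prefix) hu
    induction h1 with
    | intro u _ ih =>
      constructor
      intro a ha
      exact ih a ⟨ha, List.nil_prefix, List.nil_prefix⟩ ha.1
  · exact absurd (inT_suffix (List.nil_suffix) hu) h0

end Pool.Agent.Q215.Grp
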