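import Mathlib
import Pool.Agent.Q215.GrpT

set_option autoImplicit false

/-! The trees of descending sequences. -/

namespace Pool.Agent.Q215.Grp

open Pool.Agent.H418R3.Gur

/-- the entries of the sequences: a node, or a symbol (`true`: top, `false`: junk), with a
multiplicity -/
abbrev Al : Type := (List ℕ ⊕ Bool) × ℕ

/-- the legal entries -/
def Vd (x : List ℕ → Bool) (b : Bool) : List ℕ ⊕ Bool → Prop
  | Sum.inl u => u ∈ nodes x
  | Sum.inr true => b = true
  | Sum.inr false => False

/-- the order of the entries -/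
def lt' : List ℕ ⊕ Bool → List ℕ ⊕ Bool → Prop
  | Sum.inl u, Sum.inl v => kb u v
  | Sum.inl _, Sum.inr true => True
  | _, _ => False

/-- the legal sequences: descending, the last entry is the head of the list -/
def vl (x : List ℕ → Bool) (b : Bool) : List Al → Prop
  | [] => True
  | [a] => Vd x b a.1
  | a :: c :: s => Vd x b a.1 ∧ lt' a.1 c.1 ∧ vl x b (c :: s)

/-- the relation -/
def RR (x : List ℕ → Bool) (b : Bool) (s t : List Al) : Prop :=
  (s = [] ∧ t = []) ∨ ∃ a, t = a :: s ∧ vl x b t

theorem vl_tail {x : List ℕ → Bool} {b : Bool} {a : Al} : ∀ {s : List Al}, vl x b (a :: s) → vl x b s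
  | [], _ => trivial
  | _ :: _, h => h.2.2

theorem vl_head {x : List ℕ → Bool} {b : Bool} {a : Al} : ∀ {s : List Al}, vl x b (a :: s) → Vd x b a.1
  | [], h => h
  | _ :: _, h => h.1

theorem vl_cons {x : List ℕ → Bool} {b : Bool} {a c : Al} {s : List Al} :
    vl x b (a :: c :: s) ↔ Vd x b a.1 ∧ lt' a.1 c.1 ∧ vl x b (c :: s) := Iff.rfl

theorem Vd_mono {x : List ℕ → Bool} {e : List ℕ ⊕ Bool} (h : Vd x false e) : Vd x true e := by
  rcases e with u | _ | _
  · exact h
  · exact h
  · exact rfl

theorem Vd_false {x : List ℕ → Bool} {e : List ℕ ⊕ Bool} (h : Vd x false e) :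
    ∃ u, e = Sum.inl u ∧ u ∈ nodes x := by
  rcases e with u | _ | _
  · exact ⟨u, rfl, h⟩
  · exact h.elim
  · exact absurd h (by simp [Vd])

/-- adding the top entry at the beginning -/
theorem vl_top {x : List ℕ → Bool} : ∀ {s : List Al}, vl x false s →
    vl x true (s ++ [(Sum.inr true, 0)])
  | [], _ => rfl
  | [a], h => by
    obtain ⟨u, hu, hu'⟩ := Vd_false h
    refine ⟨Vd_mono h, ?_, rfl⟩
    rw [hu]
    trivial
  | a :: c :: s, h => by
    refine ⟨Vd_mono h.1, h.2.1, ?_⟩
    exact vl_top (s := c :: s) h.2.2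

/-- an isomorphism gives a descending sequence -/
theorem desc_of_iso {x : List ℕ → Bool} (Φ : Equiv.Perm (List Al))
    (hΦ : ∀ s t, RR x false s t ↔ RR x true (Φ s) (Φ t)) : ∃ u, ¬ Acc (rT x) u ∧ u ∈ nodes x := by
  have loop : ∀ b s, RR x b s s ↔ s = [] := by
    intro b s
    constructor
    · rintro (h | ⟨a, h, _⟩)
      · exact h.1
      · have := congrArg List.length h
        simp at this
    · rintro rfl
      exact Or.inl ⟨rfl, rfl⟩
  have h0 : Φ [] = [] := by
    rw [← loop true, ← hΦ, loop]
  let Ψ := Φ.symm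
  have hΨ : ∀ s t, RR x true s t ↔ RR x false (Ψ s) (Ψ t) := by
    intro s t
    rw [hΦ]
    simp [Ψ]
  have hΨ0 : Ψ [] = [] := by
    show Φ.symm [] = []
    rw [Equiv.symm_apply_eq, h0]
  let top : Al := (Sum.inr true, 0)
  let w : ℕ → List Al := fun n => Nat.rec [] (fun _ w => Ψ (w ++ [top])) n
  have hw : ∀ n, w (n + 1) = Ψ (w n ++ [top]) := fun n => rfl
  have key : ∀ n, ∃ a, w (n + 1) = a :: w n ∧ vl x false (w (n + 1)) := by
    intro n
    induction n with
    | zero =>
      have h1 : RR x true [] ([] ++ [top]) := Or.inr ⟨top, rfl, rfl⟩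
      rw [hΨ, hΨ0] at h1
      rw [hw]
      rcases h1 with h1 | ⟨a, h1, h2⟩
      · exfalso
        have h2 : ([] : List Al) ++ [top] = [] := Ψ.injective (h1.2.trans hΨ0.symm)
        simp at h2
      · exact ⟨a, h1, h2⟩
    | succ n ih =>
      obtain ⟨a, ha, hv⟩ := ih
      have h1 : RR x true (w n ++ [top]) (w (n + 1) ++ [top]) := by
        right
        refine ⟨a, by rw [ha]; rfl, vl_top hv⟩
      rw [hΨ] at h1
      have h1 : RR x false (w (n + 1)) (w (n + 1 + 1)) := h1
      rcases h1 with h1 | ⟨a', h1, h2⟩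
      · rw [ha] at h1
        simp at h1
      · exact ⟨a', h1, h2⟩
  choose a ha hv using key
  have hu : ∀ n, ∃ u, (a n).1 = Sum.inl u ∧ u ∈ nodes x := by
    intro n
    have h1 := hv n
    rw [ha] at h1
    exact Vd_false (vl_head h1)
  choose u hu hun using hu
  refine ⟨u 0, ?_, hun 0⟩
  rw [not_acc_iff_exists_descending_chain]
  refine ⟨u, rfl, fun n => ⟨hun _, hun _, ?_⟩⟩
  have h1 := hv (n + 1)
  rw [ha (n + 1), ha n] at h1
  have h2 := h1.2.1
  rw [hu, hu] at h2
  exact h2

/-- the type of a sequence -/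
noncomputable def tp (x : List ℕ → Bool) (b : Bool) (s : List Al) : Option (Option (List ℕ)) := by
  classical
  exact if vl x b s then
    match s with
    | [] => some none
    | a :: _ => match a.1 with
      | Sum.inl u => if Acc (rT x) u then some (some u) else some none
      | Sum.inr _ => some none
  else none

theorem tp_nil (x : List ℕ → Bool) (b : Bool) : tp x b [] = some none := by
  unfold tp
  rw [if_pos (show vl x b [] from trivial)]

theorem tp_not {x : List ℕ → Bool} {b : Bool} {s : List Al} (h : ¬ vl x b s) : tp x b s = none := by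
  unfold tp
  rw [if_neg h]

theorem tp_none {x : List ℕ → Bool} {b : Bool} {s : List Al} : tp x b s = none ↔ ¬ vl x b s := by
  constructor
  · intro h hv
    unfold tp at h
    rw [if_pos hv] at h
    rcases s with _ | ⟨⟨u | c, k⟩, s⟩
    · simp at h
    · simp only at h
      split_ifs at h
    · simp at h
  · exact tp_not

theorem tp_acc {x : List ℕ → Bool} {b : Bool} {u : List ℕ} {k : ℕ} {s : List Al}
    (hv : vl x b ((Sum.inl u, k) :: s)) (h : Acc (rT x) u) :
    tp x b ((Sum.inl u, k) :: s) = some (some u) := by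
  unfold tp
  rw [if_pos hv]
  simp only
  rw [if_pos h]

theorem tp_nacc {x : List ℕ → Bool} {b : Bool} {u : List ℕ} {k : ℕ} {s : List Al}
    (hv : vl x b ((Sum.inl u, k) :: s)) (h : ¬ Acc (rT x) u) :
    tp x b ((Sum.inl u, k) :: s) = some none := by
  unfold tp
  rw [if_pos hv]
  simp only
  rw [if_neg h]

theorem tp_inr {x : List ℕ → Bool} {b c : Bool} {k : ℕ} {s : List Al}
    (hv : vl x b ((Sum.inr c, k) :: s)) : tp x b ((Sum.inr c, k) :: s) = some none := by
  unfold tp
  rw [if_pos hv]

theorem vl_mult {x : List ℕ → Bool} {b : Bool} {e : List ℕ ⊕ Bool} {k k' : ℕ} :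
    ∀ {s : List Al}, vl x b ((e, k) :: s) → vl x b ((e, k') :: s)
  | [], h => h
  | _ :: _, h => h

theorem tp_mult {x : List ℕ → Bool} {b : Bool} {e : List ℕ ⊕ Bool} {k k' : ℕ} {s : List Al} :
    tp x b ((e, k) :: s) = tp x b ((e, k') :: s) := by
  by_cases h : vl x b ((e, k) :: s)
  · have h' := vl_mult (k' := k') h
    rcases e with u | c
    · by_cases hA : Acc (rT x) u
      · rw [tp_acc h hA, tp_acc h' hA]
      · rw [tp_nacc h hA, tp_nacc h' hA]
    · rw [tp_inr h, tp_inr h']
  · rw [tp_not h, tp_not fun h' => h (vl_mult h')]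

/-- which types occur below a type -/
def Q (x : List ℕ → Bool) : Option (Option (List ℕ)) → Option (Option (List ℕ)) → Prop
  | none, θ => θ = none
  | some none, θ => θ = none ∨ θ = some none ∨ ∃ v ∈ nodes x, Acc (rT x) v ∧ θ = some (some v)
  | some (some u), θ => θ = none ∨ ∃ v ∈ nodes x, Acc (rT x) v ∧ kb v u ∧ θ = some (some v)

theorem child_iff {x : List ℕ → Bool} (hx : ∃ u ∈ nodes x, ¬ Acc (rT x) u) (b : Bool) (s : List Al)
    (θ : Option (Option (List ℕ))) : (∃ a, tp x b (a :: s) = θ) ↔ Q x (tp x b s) θ := by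
  by_cases hs : vl x b s
  swap
  · have h1 : ∀ a, tp x b (a :: s) = none := fun a => tp_not fun h => hs (vl_tail h)
    rw [tp_not hs]
    constructor
    · rintro ⟨a, rfl⟩
      exact h1 a
    · intro h
      exact ⟨(Sum.inl [], 0), (h1 _).trans h.symm⟩
  -- the junk child
  have hjunk : tp x b ((Sum.inr false, 0) :: s) = none := tp_not fun h => (vl_head h).elim
  -- the state of the last entry
  rcases s with _ | ⟨c, s⟩
  · rw [tp_nil]
    constructor
    · rintro ⟨⟨e, k⟩, rfl⟩
      by_cases h : vl x b [(e, k)]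
      · rcases e with u | c
        · by_cases hA : Acc (rT x) u
          · rw [tp_acc h hA]
            exact Or.inr (Or.inr ⟨u, vl_head h, hA, rfl⟩)
          · rw [tp_nacc h hA]
            exact Or.inr (Or.inl rfl)
        · rw [tp_inr h]
          exact Or.inr (Or.inl rfl)
      · rw [tp_not h]
        exact Or.inl rfl
    · rintro (rfl | rfl | ⟨v, hv, hA, rfl⟩)
      · exact ⟨_, hjunk⟩
      · obtain ⟨u, hu, hA⟩ := hx
        exact ⟨(Sum.inl u, 0), tp_nacc hu hA⟩
      · exact ⟨(Sum.inl v, 0), tp_acc hv hA⟩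
  · have hc := vl_head hs
    obtain ⟨e0, k0⟩ := c
    by_cases hWF : ∃ u, e0 = Sum.inl u ∧ Acc (rT x) u
    · obtain ⟨u, rfl, hA⟩ := hWF
      rw [tp_acc hs hA]
      constructor
      · rintro ⟨⟨e, k⟩, rfl⟩
        by_cases h : vl x b ((e, k) :: (Sum.inl u, k0) :: s)
        · rcases e with v | c
          · have h1 : kb v u := h.2.1
            have h2 : Acc (rT x) v := hA.inv ⟨vl_head h, hc, h1⟩
            rw [tp_acc h h2]
            exact Or.inr ⟨v, vl_head h, h2, h1, rfl⟩
          · cases c
            · exact (vl_head h).elim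
            · exact h.2.1.elim
        · rw [tp_not h]
          exact Or.inl rfl
      · rintro (rfl | ⟨v, hv, hA', hk, rfl⟩)
        · exact ⟨_, hjunk⟩
        · exact ⟨(Sum.inl v, 0), tp_acc ⟨hv, hk, hs⟩ hA'⟩
    · -- the last entry is in the ill-founded part
      have h1 : tp x b ((e0, k0) :: s) = some none := by
        rcases e0 with u | c
        · exact tp_nacc hs fun hA => hWF ⟨u, rfl, hA⟩
        · exact tp_inr hs
      rw [h1]
      -- everything well-founded is smaller
      have h2 : ∀ v ∈ nodes x, Acc (rT x) v → lt' (Sum.inl v) e0 := by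
        intro v hv hA
        rcases e0 with u | c
        · rcases kb_tri v u with h | h | h
          · exact h
          · exact absurd ⟨u, rfl, h ▸ hA⟩ hWF
          · exact absurd ⟨u, rfl, hA.inv ⟨hc, hv, h⟩⟩ hWF
        · cases c
          · exact hc.elim
          · trivial
      -- something ill-founded is smaller
      have h3 : ∃ v ∈ nodes x, ¬ Acc (rT x) v ∧ lt' (Sum.inl v) e0 := by
        rcases e0 with u | c
        · by_contra hno
          apply hWF
          refine ⟨u, rfl, Acc.intro _ ?_⟩
          intro v hv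
          by_contra hA
          exact hno ⟨v, hv.1, hA, hv.2.2⟩
        · obtain ⟨v, hv, hA⟩ := hx
          cases c
          · exact hc.elim
          · exact ⟨v, hv, hA, trivial⟩
      constructor
      · rintro ⟨⟨e, k⟩, rfl⟩
        by_cases h : vl x b ((e, k) :: (e0, k0) :: s)
        · rcases e with v | c
          · by_cases hA : Acc (rT x) v
            · rw [tp_acc h hA]
              exact Or.inr (Or.inr ⟨v, vl_head h, hA, rfl⟩)
            · rw [tp_nacc h hA]
              exact Or.inr (Or.inl rfl)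
          · rw [tp_inr h]
            exact Or.inr (Or.inl rfl)
        · rw [tp_not h]
          exact Or.inl rfl
      · rintro (rfl | rfl | ⟨v, hv, hA, rfl⟩)
        · exact ⟨_, hjunk⟩
        · obtain ⟨v, hv, hA, hlt⟩ := h3
          exact ⟨(Sum.inl v, 0), tp_nacc ⟨hv, hlt, hs⟩ hA⟩
        · exact ⟨(Sum.inl v, 0), tp_acc ⟨hv, h2 v hv hA, hs⟩ hA⟩

theorem child_equiv {x : List ℕ → Bool} (hx : ∃ u ∈ nodes x, ¬ Acc (rT x) u) (b b' : Bool)
    (s s' : List Al) (h : tp x b s = tp x b' s') (θ : Option (Option (List ℕ))) :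
    Nonempty ({a // tp x b (a :: s) = θ} ≃ {a // tp x b' (a :: s') = θ}) := by
  have h1 := child_iff hx b s θ
  have h2 := child_iff hx b' s' θ
  rw [h, ← h2] at h1
  by_cases hq : ∃ a, tp x b (a :: s) = θ
  · have hq' := h1.mp hq
    have inf : ∀ (b : Bool) (s : List Al), (∃ a, tp x b (a :: s) = θ) →
        Infinite {a // tp x b (a :: s) = θ} := by
      rintro b s ⟨⟨e, k⟩, ha⟩
      apply Infinite.of_injective (fun n : ℕ => (⟨(e, n), by rw [tp_mult (k' := k), ha]⟩ :
        {a // tp x b (a :: s) = θ}))
      intro m n hmn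
      simpa using hmn
    have i1 := inf b s hq
    have i2 := inf b' s' hq'
    obtain ⟨d1⟩ := nonempty_denumerable {a // tp x b (a :: s) = θ}
    obtain ⟨d2⟩ := nonempty_denumerable {a // tp x b' (a :: s') = θ}
    exact ⟨(Denumerable.eqv _).trans (Denumerable.eqv _).symm⟩
  · have e1 : IsEmpty {a // tp x b (a :: s) = θ} := ⟨fun a => hq ⟨a.1, a.2⟩⟩
    have e2 : IsEmpty {a // tp x b' (a :: s') = θ} := ⟨fun a => hq (h1.mpr ⟨a.1, a.2⟩)⟩
    exact ⟨Equiv.equivOfIsEmpty _ _⟩

theorem iso_of_desc {x : List ℕ → Bool} (hx : ∃ u ∈ nodes x, ¬ Acc (rT x) u) :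
    ∃ Φ : Equiv.Perm (List Al), ∀ s t, RR x false s t ↔ RR x true (Φ s) (Φ t) := by
  classical
  have hE : ∀ s s', tp x false s = tp x true s' → ∃ e : Equiv.Perm Al,
      ∀ a, tp x true (e a :: s') = tp x false (a :: s) := by
    intro s s' h
    have h1 := fun θ => child_equiv hx false true s s' h θ
    let E := fun θ => (h1 θ).some
    let e : Equiv.Perm Al := ((Equiv.sigmaFiberEquiv (fun a => tp x false (a :: s))).symm.trans
      (Equiv.sigmaCongrRight E)).trans (Equiv.sigmaFiberEquiv (fun a => tp x true (a :: s')))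
    refine ⟨e, fun a => ?_⟩
    exact (E (tp x false (a :: s)) ⟨a, rfl⟩).2
  choose! e he using hE
  let F : List Al → List Al := fun s => List.rec [] (fun a s r => e s r a :: r) s
  let G : List Al → List Al := fun s => List.rec [] (fun b t r => (e r t).symm b :: r) s
  have hF : ∀ a s, F (a :: s) = e s (F s) a :: F s := fun a s => rfl
  have hG : ∀ b t, G (b :: t) = (e (G t) t).symm b :: G t := fun b t => rfl
  have hGF : ∀ s, G (F s) = s := by
    intro s
    induction s with
    | nil => rfl
    | cons a s ih => rw [hF, hG, ih, Equiv.symm_apply_apply]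
  have hFG : ∀ t, F (G t) = t := by
    intro t
    induction t with
    | nil => rfl
    | cons b t ih => rw [hG, hF, ih, Equiv.apply_symm_apply]
  have htp : ∀ s, tp x true (F s) = tp x false s := by
    intro s
    induction s with
    | nil =>
      show tp x true [] = tp x false []
      rw [tp_nil, tp_nil]
    | cons a s ih => rw [hF, he s (F s) ih.symm]
  refine ⟨⟨F, G, hGF, hFG⟩, fun s t => ?_⟩
  show RR x false s t ↔ RR x true (F s) (F t)
  have hFnil : ∀ s, F s = [] ↔ s = [] := by
    intro s
    constructor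
    · intro h
      have := congrArg G h
      rw [hGF] at this
      exact this
    · rintro rfl
      rfl
  unfold RR
  rw [hFnil, hFnil]
  apply or_congr Iff.rfl
  constructor
  · rintro ⟨a, rfl, hv⟩
    refine ⟨_, hF a s, ?_⟩
    by_contra hno
    exact (tp_none.mp ((htp (a :: s)).symm.trans (tp_not hno))) hv
  · rintro ⟨c, hc, hv⟩
    refine ⟨(e s (F s)).symm c, ?_, ?_⟩
    · have h1 := congrArg G hc
      rw [hGF, hG, hGF] at h1
      exact h1
    · by_contra hno
      exact (tp_none.mp ((htp t).trans (tp_not hno))) hv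

/-- the two relations are isomorphic if and only if the tree has an infinite branch -/
theorem iso_iff (x : List ℕ → Bool) :
    (∃ Φ : Equiv.Perm (List Al), ∀ s t, RR x false s t ↔ RR x true (Φ s) (Φ t)) ↔ x ∈ IF := by
  constructor
  · rintro ⟨Φ, hΦ⟩
    by_contra hno
    obtain ⟨u, hA, hu⟩ := desc_of_iso Φ hΦ
    exact hA (acc_of_not_IF hno u hu)
  · intro h
    exact iso_of_desc (desc_of_IF h)

theorem meas_nodes (u : List ℕ) :
    @MeasurableSet (List ℕ → Bool) (borel _) {x | u ∈ nodes x} := by
  let _ : MeasurableSpace (List ℕ → Bool) := borel _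
  have _ : BorelSpace (List ℕ → Bool) := ⟨rfl⟩
  have h1 : ∀ w : List ℕ, MeasurableSet {x : List ℕ → Bool | inT x w = true} := by
    intro w
    have h2 : ∀ w : List ℕ, MeasurableSet {x : List ℕ → Bool | x w = true} := by
      intro w
      have hc : Continuous fun x : List ℕ → Bool => x w := continuous_apply w
      exact ((isOpen_discrete ({true} : Set Bool)).preimage hc).measurableSet
    induction w with
    | nil => exact h2 []
    | cons a w ih =>
      have h3 : {x : List ℕ → Bool | inT x (a :: w) = true} =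
          {x | x (a :: w) = true} ∩ {x | inT x w = true} := by
        ext x
        show inT x (a :: w) = true ↔ x (a :: w) = true ∧ inT x w = true
        rw [inT, Bool.and_eq_true]
      rw [h3]
      exact (h2 _).inter ih
  exact h1 u.reverse

theorem meas_RR (b : Bool) (s t : List Al) :
    @MeasurableSet (List ℕ → Bool) (borel _) {x | RR x b s t} := by
  let _ : MeasurableSpace (List ℕ → Bool) := borel _
  have hV : ∀ e, MeasurableSet {x | Vd x b e} := by
    intro e
    rcases e with u | _ | _
    · exact meas_nodes u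
    · exact MeasurableSet.const False
    · exact MeasurableSet.const (b = true)
  have hvl : ∀ t : List Al, MeasurableSet {x | vl x b t} := by
    intro t
    induction t with
    | nil => exact MeasurableSet.const True
    | cons a t ih =>
      cases t with
      | nil => exact hV a.1
      | cons c t =>
        have h3 : {x | vl x b (a :: c :: t)} =
            {x | Vd x b a.1} ∩ ({_x | lt' a.1 c.1} ∩ {x | vl x b (c :: t)}) := rfl
        rw [h3]
        exact (hV _).inter ((MeasurableSet.const _).inter ih)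
  have h4 : {x | RR x b s t} = {_x | s = [] ∧ t = []} ∪ ({_x | ∃ a, t = a :: s} ∩ {x | vl x b t}) := by
    ext x
    show RR x b s t ↔ (s = [] ∧ t = []) ∨ ((∃ a, t = a :: s) ∧ vl x b t)
    unfold RR
    rw [exists_and_right]
  rw [h4]
  exact (MeasurableSet.const _).union ((MeasurableSet.const _).inter (hvl t))

end Pool.Agent.Q215.Grp
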