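import Mathlib
import Pool.Agent.Q215.GrpC
import Pool.Agent.Q215.GrpU

set_option autoImplicit false

/-! The integers many copies of a structure, and the triviality of the arrow map on the
automorphisms of one copy. -/

namespace Pool.Agent.Q215.Grp

open FirstOrder MeasureTheory

/-- the universe of one copy -/
abbrev W : Type := List Al

/-- the relations of the sum of the copies -/
def om (M : W → W → Prop) : (n : ℕ) → ℕ → (Fin n → ℤ × W) → Prop
  | 2, 0, v => (v 0).1 = (v 1).1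
  | 2, 1, v => (v 0).1 = (v 1).1 ∧ M (v 0).2 (v 1).2
  | _, _, _ => False

theorem act_om (ν : ℤ × W ≃ ℕ) {M N : W → W → Prop} (Ψ : Equiv.Perm (ℤ × W))
    (h1 : ∀ p q : ℤ × W, p.1 = q.1 ↔ (Ψ p).1 = (Ψ q).1)
    (h2 : ∀ p q : ℤ × W, p.1 = q.1 → (M p.2 q.2 ↔ N (Ψ p).2 (Ψ q).2)) :
    act (cj ν Ψ) (tr ν (om M)) = tr ν (om N) := by
  rw [act_cj]
  intro n k v
  match n, k, v with
  | 0, k, v => exact Iff.rfl
  | 1, k, v => exact Iff.rfl
  | 2, 0, v => exact h1 _ _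
  | 2, 1, v =>
    show (v 0).1 = (v 1).1 ∧ M (v 0).2 (v 1).2 ↔
      (Ψ (v 0)).1 = (Ψ (v 1)).1 ∧ N (Ψ (v 0)).2 (Ψ (v 1)).2
    rw [← h1]
    exact and_congr_right fun h => h2 _ _ h
  | 2, k + 2, v => exact Iff.rfl
  | n + 3, k, v => exact Iff.rfl

theorem iso_om (ν : ℤ × W ≃ ℕ) {M N : W → W → Prop} (h : Iso (tr ν (om M)) (tr ν (om N))) :
    ∃ g : Equiv.Perm W, ∀ s t, M s t ↔ N (g s) (g t) := by
  rw [iso_tr] at h
  obtain ⟨Ψ, hΨ⟩ := h
  have h1 : ∀ p q : ℤ × W, p.1 = q.1 ↔ (Ψ p).1 = (Ψ q).1 := fun p q => hΨ 2 0 ![p, q]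
  have h2 : ∀ p q : ℤ × W, (p.1 = q.1 ∧ M p.2 q.2) ↔ ((Ψ p).1 = (Ψ q).1 ∧ N (Ψ p).2 (Ψ q).2) :=
    fun p q => hΨ 2 1 ![p, q]
  obtain ⟨j, hj0⟩ : ∃ j, (Ψ (0, [])).1 = j := ⟨_, rfl⟩
  have hj : ∀ w, (Ψ (0, w)).1 = j := fun w => ((h1 (0, w) (0, [])).mp rfl).trans hj0
  have hj' : ∀ u, (Ψ.symm (j, u)).1 = 0 := by
    intro u
    have h3 := (h1 (Ψ.symm (j, u)) (0, [])).mpr (by rw [Equiv.apply_symm_apply, hj0])
    exact h3
  refine ⟨⟨fun w => (Ψ (0, w)).2, fun u => (Ψ.symm (j, u)).2, ?_, ?_⟩, ?_⟩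
  · intro w
    have h3 : (j, (Ψ (0, w)).2) = Ψ (0, w) := Prod.ext (hj w).symm rfl
    show (Ψ.symm (j, (Ψ (0, w)).2)).2 = w
    rw [h3, Equiv.symm_apply_apply]
  · intro u
    have h3 : ((0 : ℤ), (Ψ.symm (j, u)).2) = Ψ.symm (j, u) := Prod.ext (hj' u).symm rfl
    show (Ψ (0, (Ψ.symm (j, u)).2)).2 = u
    rw [h3, Equiv.apply_symm_apply]
  · intro s t
    have h3 := h2 (0, s) (0, t)
    constructor
    · intro h
      exact (h3.mp ⟨rfl, h⟩).2
    · intro h
      exact (h3.mpr ⟨(hj s).trans (hj t).symm, h⟩).2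

/-- a linearly ordered structure has no automorphism of order two -/
theorem lin_inv {N : Str U} (hN : N ∈ LinO) {p : Equiv.Perm ℕ} (hp : p * p = 1)
    (h : act p N = N) : p = 1 := by
  have hrel : ∀ a b, N.RelMap (sy 2 0) ![a, b] → N.RelMap (sy 2 0) ![p a, p b] := by
    intro a b hab
    have h1 : (act p N).RelMap (sy 2 0) ![p a, p b] = N.RelMap (sy 2 0) ![p a, p b] := by rw [h]
    rw [← h1]
    show N.RelMap (sy 2 0) (p.symm ∘ ![p a, p b])
    have h2 : p.symm ∘ ![p a, p b] = ![a, b] := by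
      funext i
      fin_cases i <;> simp
    rw [h2]
    exact hab
  by_contra hne
  obtain ⟨a, ha⟩ : ∃ a, p a ≠ a := by
    by_contra hc
    push Not at hc
    exact hne (Equiv.ext hc)
  have hpp : p (p a) = a := by
    rw [← Equiv.Perm.mul_apply, hp]
    rfl
  rcases hN.2.2 (p a) a ha with h1 | h1
  · have h2 := hrel _ _ h1
    rw [hpp] at h2
    exact hN.1 _ (hN.2.1 _ _ _ h1 h2)
  · have h2 := hrel _ _ h1
    rw [hpp] at h2
    exact hN.1 _ (hN.2.1 _ _ _ h1 h2)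

/-- the permutation of the copies -/
def lift (h : Equiv.Perm W) : Equiv.Perm (ℤ × W) := Equiv.prodCongrRight fun _ => h

theorem lift_mul (g h : Equiv.Perm W) : lift (g * h) = lift g * lift h := by
  apply Equiv.ext
  rintro ⟨i, w⟩
  rfl

theorem act_lift (ν : ℤ × W ≃ ℕ) {M N : W → W → Prop} {h : Equiv.Perm W}
    (hh : ∀ s t, M s t ↔ N (h s) (h t)) : act (cj ν (lift h)) (tr ν (om M)) = tr ν (om N) := by
  apply act_om
  · intro p q
    exact Iff.rfl
  · intro p q _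
    exact hh _ _

section

variable (F : GReduction (Set.univ : Set (Str U)) LinO)

theorem arr_inv (X : (Set.univ : Set (Str U))) {g : Equiv.Perm ℕ} (hg : act g X.1 = X.1)
    (hgg : g * g = 1) : F.arr (g, X) = 1 := by
  refine lin_inv (F.obj X).2 ?_ (F.range g X X hg)
  rw [← F.comp g g X X hg, hgg, F.one]

/-- the automorphisms of one copy, applied to all the copies, are mapped to the identity -/
theorem arr_lift (ν : ℤ × W ≃ ℕ) {M : W → W → Prop} (X : (Set.univ : Set (Str U)))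
    (hX : X.1 = tr ν (om M)) {a : Equiv.Perm W} (ha : ∀ s t, M s t ↔ M (a s) (a t)) :
    F.arr (cj ν (lift a), X) = 1 := by
  obtain ⟨s, hs⟩ : ∃ s : Equiv.Perm (ℤ × W), s = Equiv.prodCongr (Equiv.addRight 1) (Equiv.refl W) :=
    ⟨_, rfl⟩
  obtain ⟨r1, hr1⟩ : ∃ s : Equiv.Perm (ℤ × W), s = Equiv.prodCongr (Equiv.subLeft 1) (Equiv.refl W) :=
    ⟨_, rfl⟩
  obtain ⟨r2, hr2⟩ : ∃ s : Equiv.Perm (ℤ × W), s = Equiv.prodCongr (Equiv.neg ℤ) (Equiv.refl W) :=
    ⟨_, rfl⟩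
  obtain ⟨f, hf⟩ : ∃ f : Equiv.Perm (ℤ × W), f = Equiv.prodCongrRight fun i : ℤ => a ^ i := ⟨_, rfl⟩
  have e1 : s = r1 * r2 := by
    rw [hs, hr1, hr2]
    apply Equiv.ext
    rintro ⟨i, w⟩
    refine Prod.ext ?_ rfl
    show i + 1 = 1 - -i
    ring
  have e2 : r1 * r1 = 1 := by
    rw [hr1]
    apply Equiv.ext
    rintro ⟨i, w⟩
    refine Prod.ext ?_ rfl
    show (1 : ℤ) - (1 - i) = i
    ring
  have e3 : r2 * r2 = 1 := by
    rw [hr2]
    apply Equiv.ext
    rintro ⟨i, w⟩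
    refine Prod.ext ?_ rfl
    show - -i = i
    ring
  have e4 : lift a * (s * f) = f * s := by
    rw [hs, hf]
    apply Equiv.ext
    rintro ⟨i, w⟩
    refine Prod.ext rfl ?_
    show a ((a ^ i) w) = (a ^ (i + 1)) w
    rw [← Equiv.Perm.mul_apply, add_comm, zpow_add, zpow_one]
  let H : Subgroup (Equiv.Perm W) :=
    { carrier := {p | ∀ s t, M s t ↔ M (p s) (p t)}
      mul_mem' := by
        intro p q hp hq s t
        exact (hq s t).trans (hp _ _)
      one_mem' := fun s t => Iff.rfl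
      inv_mem' := by
        intro p hp s t
        have h1 := hp (p⁻¹ s) (p⁻¹ t)
        have e : ∀ z, p (p⁻¹ z) = z := fun z => p.apply_symm_apply z
        rw [e, e] at h1
        exact h1.symm }
  have hH : ∀ i : ℤ, ∀ s t, M s t ↔ M ((a ^ i) s) ((a ^ i) t) := fun i =>
    Subgroup.zpow_mem H (show a ∈ H from ha) i
  have as1 : act (cj ν r1) X.1 = X.1 := by
    rw [hX]
    apply act_om
    · intro p q
      rw [hr1]
      show p.1 = q.1 ↔ 1 - p.1 = 1 - q.1
      constructor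
      · intro h
        rw [h]
      · intro h
        linarith
    · intro p q _
      rw [hr1]
      exact Iff.rfl
  have as2 : act (cj ν r2) X.1 = X.1 := by
    rw [hX]
    apply act_om
    · intro p q
      rw [hr2]
      show p.1 = q.1 ↔ -p.1 = -q.1
      constructor
      · intro h
        rw [h]
      · intro h
        linarith
    · intro p q _
      rw [hr2]
      exact Iff.rfl
  have ass : act (cj ν s) X.1 = X.1 := by
    rw [e1, cj_mul, act_mul, as2, as1]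
  have asf : act (cj ν f) X.1 = X.1 := by
    rw [hX]
    apply act_om
    · intro p q
      rw [hf]
      exact Iff.rfl
    · rintro ⟨i, p⟩ ⟨j, q⟩ h
      have h' : i = j := h
      subst h'
      rw [hf]
      exact hH i p q
  have t1 : F.arr (cj ν r1, X) = 1 := arr_inv F X as1 (by rw [← cj_mul, e2, cj_one])
  have t2 : F.arr (cj ν r2, X) = 1 := arr_inv F X as2 (by rw [← cj_mul, e3, cj_one])
  have t3 : F.arr (cj ν s, X) = 1 := by
    rw [e1, cj_mul, F.comp _ _ X X as2, t1, t2, one_mul]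
  have asl : act (cj ν (lift a)) X.1 = X.1 := by
    rw [hX]
    exact act_lift ν ha
  have assf : act (cj ν (s * f)) X.1 = X.1 := by
    rw [cj_mul, act_mul, asf, ass]
  have t4 : F.arr (cj ν (lift a * (s * f)), X) = F.arr (cj ν (f * s), X) := by rw [e4]
  rw [cj_mul, F.comp _ _ X X assf, cj_mul, F.comp _ _ X X asf, cj_mul, F.comp _ _ X X ass, t3,
    one_mul, mul_one] at t4
  exact mul_eq_right.mp t4

/-- the arrow does not depend on the isomorphism -/
theorem arr_unique (ν : ℤ × W ≃ ℕ) {M N : W → W → Prop} (X : (Set.univ : Set (Str U)))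
    (hX : X.1 = tr ν (om M)) {g h : Equiv.Perm W} (hg : ∀ s t, M s t ↔ N (g s) (g t))
    (hh : ∀ s t, M s t ↔ N (h s) (h t)) :
    F.arr (cj ν (lift g), X) = F.arr (cj ν (lift h), X) := by
  have ha : ∀ s t, M s t ↔ M ((h⁻¹ * g) s) ((h⁻¹ * g) t) := by
    intro s t
    rw [hg s t, hh ((h⁻¹ * g) s) ((h⁻¹ * g) t)]
    simp
  have h1 : g = h * (h⁻¹ * g) := by group
  have h2 : act (cj ν (lift (h⁻¹ * g))) X.1 = X.1 := by
    rw [hX]
    exact act_lift ν ha
  rw [h1, lift_mul, cj_mul, F.comp _ _ X X h2, arr_lift F ν X hX ha, mul_one]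

end

end Pool.Agent.Q215.Grp
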