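import Mathlib
import Pool.Agent.Q215.GrpE

set_option autoImplicit false

/-! There is no Borel reduction of the groupoid of all structures to the groupoid of the linearly
ordered structures. -/

namespace Pool.Agent.Q215.Grp

open FirstOrder MeasureTheory Pool.Agent.H418R3.Gur

/-- the permutation coded by a pair of functions -/
noncomputable def toP (y : (ℕ → ℕ) × (ℕ → ℕ)) : Equiv.Perm ℕ := by
  classical
  exact if h : (∀ n, y.2 (y.1 n) = n) ∧ ∀ n, y.1 (y.2 n) = n then ⟨y.1, y.2, h.1, h.2⟩ else 1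

theorem toP_surj (p : Equiv.Perm ℕ) : toP (p, p.symm) = p := by
  unfold toP
  have h : (∀ n, p.symm (p n) = n) ∧ ∀ n, p (p.symm n) = n :=
    ⟨p.symm_apply_apply, p.apply_symm_apply⟩
  rw [dif_pos h]
  ext n
  rfl

theorem meas_coord (i j : ℕ) : MeasurableSet {f : ℕ → ℕ | f i = j} := by
  have hm : Measurable fun f : ℕ → ℕ => f i := measurable_pi_apply i
  exact hm (measurableSet_singleton j)

theorem meas_comp (n : ℕ) : MeasurableSet {y : (ℕ → ℕ) × (ℕ → ℕ) | y.2 (y.1 n) = n} := by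
  have h : {y : (ℕ → ℕ) × (ℕ → ℕ) | y.2 (y.1 n) = n} =
      ⋃ m : ℕ, (Prod.fst ⁻¹' {f : ℕ → ℕ | f n = m}) ∩ (Prod.snd ⁻¹' {f : ℕ → ℕ | f m = n}) := by
    ext y
    simp
  rw [h]
  exact MeasurableSet.iUnion fun m => (measurable_fst (meas_coord _ _)).inter
    (measurable_snd (meas_coord _ _))

theorem meas_comp' (n : ℕ) : MeasurableSet {y : (ℕ → ℕ) × (ℕ → ℕ) | y.1 (y.2 n) = n} :=
  measurable_swap (meas_comp n)

theorem meas_toP : Measurable toP := by
  apply meas_toPerm
  intro i j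
  have h : {y | toP y i = j} =
      (({y : (ℕ → ℕ) × (ℕ → ℕ) | (∀ n, y.2 (y.1 n) = n) ∧ ∀ n, y.1 (y.2 n) = n}) ∩
        (Prod.fst ⁻¹' {f : ℕ → ℕ | f i = j})) ∪
      (({y : (ℕ → ℕ) × (ℕ → ℕ) | (∀ n, y.2 (y.1 n) = n) ∧ ∀ n, y.1 (y.2 n) = n})ᶜ ∩
        {_y | i = j}) := by
    ext y
    by_cases hy : (∀ n, y.2 (y.1 n) = n) ∧ ∀ n, y.1 (y.2 n) = n
    · have h1 : toP y i = y.1 i := by
        unfold toP
        rw [dif_pos hy]
        rfl
      have h2 : y ∈ {y : (ℕ → ℕ) × (ℕ → ℕ) | (∀ n, y.2 (y.1 n) = n) ∧ ∀ n, y.1 (y.2 n) = n} := hy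
      constructor
      · intro h
        exact Or.inl ⟨h2, h1.symm.trans h⟩
      · rintro (h | h)
        · exact h1.trans h.2
        · exact absurd h2 h.1
    · have h1 : toP y i = i := by
        unfold toP
        rw [dif_neg hy]
        rfl
      have h2 : y ∉ {y : (ℕ → ℕ) × (ℕ → ℕ) | (∀ n, y.2 (y.1 n) = n) ∧ ∀ n, y.1 (y.2 n) = n} := hy
      constructor
      · intro h
        exact Or.inr ⟨h2, h1.symm.trans h⟩
      · rintro (h | h)
        · exact absurd h.1 h2
        · exact h1.trans h.2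
  have h3 : MeasurableSet {y : (ℕ → ℕ) × (ℕ → ℕ) |
      (∀ n, y.2 (y.1 n) = n) ∧ ∀ n, y.1 (y.2 n) = n} := by
    have h4 : {y : (ℕ → ℕ) × (ℕ → ℕ) | (∀ n, y.2 (y.1 n) = n) ∧ ∀ n, y.1 (y.2 n) = n} =
        (⋂ n, {y : (ℕ → ℕ) × (ℕ → ℕ) | y.2 (y.1 n) = n}) ∩
          ⋂ n, {y : (ℕ → ℕ) × (ℕ → ℕ) | y.1 (y.2 n) = n} := by
      ext y
      simp
    rw [h4]
    exact (MeasurableSet.iInter meas_comp).inter (MeasurableSet.iInter meas_comp')
  rw [h]
  exact (h3.inter (measurable_fst (meas_coord _ _))).union (h3.compl.inter (MeasurableSet.const _))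

/-- the permutation of the universe of a copy -/
def un (e : W ≃ ℕ) (p : Equiv.Perm ℕ) : Equiv.Perm W := e.trans (p.trans e.symm)

theorem un_surj (e : W ≃ ℕ) (h : Equiv.Perm W) : ∃ y, un e (toP y) = h := by
  let p : Equiv.Perm ℕ := e.symm.trans (h.trans e)
  refine ⟨(p, p.symm), ?_⟩
  rw [toP_surj]
  apply Equiv.ext
  intro w
  simp [un, p]

theorem meas_un (e : W ≃ ℕ) (s t : W) : MeasurableSet {y | un e (toP y) s = t} := by
  have h : {y | un e (toP y) s = t} = toP ⁻¹' {g | g (e s) = e t} := by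
    ext y
    show e.symm (toP y (e s)) = t ↔ toP y (e s) = e t
    rw [Equiv.symm_apply_eq]
  rw [h]
  exact meas_toP (meas_perm _ _)

theorem meas_cjlift (ν : ℤ × W ≃ ℕ) (e : W ≃ ℕ) :
    Measurable fun y => cj ν (lift (un e (toP y))) := by
  apply meas_toPerm
  intro i j
  have h : {y | cj ν (lift (un e (toP y))) i = j} =
      {_y | (ν.symm i).1 = (ν.symm j).1} ∩ {y | un e (toP y) (ν.symm i).2 = (ν.symm j).2} := by
    ext y
    show ν (lift (un e (toP y)) (ν.symm i)) = j ↔ _
    rw [← Equiv.eq_symm_apply, Prod.ext_iff]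
    exact Iff.rfl
  rw [h]
  exact (MeasurableSet.const _).inter (meas_un e _ _)

/-- the sets coding the relation -/
theorem meas_RR' (b : Bool) (s t : W) : MeasurableSet {x : List ℕ → Bool | RR x b s t} := by
  have h := meas_RR b s t
  rwa [← (inferInstance : BorelSpace (List ℕ → Bool)).measurable_eq] at h

theorem meas_om (ν : ℤ × W ≃ ℕ) (b : Bool) :
    Measurable fun x : List ℕ → Bool => tr ν (om (RR x b)) := by
  apply meas_to
  · intro n R v
    show MeasurableSet {x : List ℕ → Bool | om (RR x b) n R (ν.symm ∘ v)}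
    have h : ∀ (n k : ℕ) (u : Fin n → ℤ × W), MeasurableSet {x : List ℕ → Bool | om (RR x b) n k u} := by
      intro n k u
      match n, k, u with
      | 0, k, v => exact MeasurableSet.const _
      | 1, k, v => exact MeasurableSet.const _
      | 2, 0, v => exact MeasurableSet.const _
      | 2, 1, v => exact (MeasurableSet.const _).inter (meas_RR' b _ _)
      | 2, k + 2, v => exact MeasurableSet.const _
      | n + 3, k, v => exact MeasurableSet.const _
    exact h n R _
  · intro n f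
    exact f.elim

theorem meas_iff {X : Type} [MeasurableSpace X] {p q : X → Prop} (hp : MeasurableSet {x | p x})
    (hq : MeasurableSet {x | q x}) : MeasurableSet {x | p x ↔ q x} := by
  have h : {x | p x ↔ q x} = ({x | p x} ∩ {x | q x}) ∪ ({x | p x}ᶜ ∩ {x | q x}ᶜ) := by
    ext x
    show (p x ↔ q x) ↔ (p x ∧ q x) ∨ (¬ p x ∧ ¬ q x)
    tauto
  rw [h]
  exact (hp.inter hq).union (hp.compl.inter hq.compl)

/-- no Borel reduction -/
theorem no_reduction (F : GReduction (Set.univ : Set (Str U)) LinO) : False := by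
  have ν0 : Nonempty (ℤ × W ≃ ℕ) := nonempty_equiv_of_countable
  obtain ⟨ν⟩ := ν0
  have e0 : Nonempty (W ≃ ℕ) := nonempty_equiv_of_countable
  obtain ⟨e⟩ := e0
  -- the objects
  let X : Bool → (List ℕ → Bool) → (Set.univ : Set (Str U)) := fun b x =>
    ⟨tr ν (om (RR x b)), trivial⟩
  have hXm : ∀ b, Measurable (X b) := fun b => Measurable.subtype_mk (meas_om ν b)
  have harr : Measurable F.arr := measurable_fst.comp F.meas
  have hobj : Measurable F.obj := by
    have h1 : Measurable fun x : (Set.univ : Set (Str U)) => ((1 : Equiv.Perm ℕ), x) :=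
      measurable_prodMk_left
    exact (measurable_snd.comp F.meas).comp h1
  -- the analytic sets
  let Z : ℕ → ℕ → Set (((ℕ → ℕ) × (ℕ → ℕ)) × (List ℕ → Bool)) := fun n m =>
    {z | (∀ s t, RR z.2 false s t ↔ RR z.2 true (un e (toP z.1) s) (un e (toP z.1) t)) ∧
      F.arr (cj ν (lift (un e (toP z.1))), X false z.2) n = m}
  have hZ : ∀ n m, MeasurableSet (Z n m) := by
    intro n m
    have h1 : MeasurableSet {z : ((ℕ → ℕ) × (ℕ → ℕ)) × (List ℕ → Bool) |
        ∀ s t, RR z.2 false s t ↔ RR z.2 true (un e (toP z.1) s) (un e (toP z.1) t)} := by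
      have h2 : {z : ((ℕ → ℕ) × (ℕ → ℕ)) × (List ℕ → Bool) |
          ∀ s t, RR z.2 false s t ↔ RR z.2 true (un e (toP z.1) s) (un e (toP z.1) t)} =
          ⋂ s : W, ⋂ t : W, ⋃ s' : W, ⋃ t' : W,
            ((Prod.fst ⁻¹' {y | un e (toP y) s = s'}) ∩ (Prod.fst ⁻¹' {y | un e (toP y) t = t'})) ∩
              (Prod.snd ⁻¹' {x | RR x false s t ↔ RR x true s' t'}) := by
        ext z
        simp only [Set.mem_iInter, Set.mem_iUnion]
        constructor
        · intro h s t
          exact ⟨_, _, ⟨rfl, rfl⟩, h s t⟩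
        · intro h s t
          obtain ⟨s', t', ⟨h1, h2⟩, h3⟩ := h s t
          have h1' : un e (toP z.1) s = s' := h1
          have h2' : un e (toP z.1) t = t' := h2
          rw [h1', h2']
          exact h3
      rw [h2]
      refine MeasurableSet.iInter fun s => MeasurableSet.iInter fun t =>
        MeasurableSet.iUnion fun s' => MeasurableSet.iUnion fun t' => ?_
      exact ((measurable_fst (meas_un e _ _)).inter (measurable_fst (meas_un e _ _))).inter
        (measurable_snd (meas_iff (meas_RR' _ _ _) (meas_RR' _ _ _)))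
    have h3 : Measurable fun z : ((ℕ → ℕ) × (ℕ → ℕ)) × (List ℕ → Bool) =>
        F.arr (cj ν (lift (un e (toP z.1))), X false z.2) := by
      apply harr.comp
      exact ((meas_cjlift ν e).comp measurable_fst).prodMk ((hXm false).comp measurable_snd)
    exact h1.inter (h3 (meas_perm n m))
  let S : ℕ → ℕ → Set (List ℕ → Bool) := fun n m => Prod.snd '' Z n m
  have hS : ∀ n m, AnalyticSet (S n m) := fun n m => (hZ n m).analyticSet_image measurable_snd
  have hSmem : ∀ n m x, x ∈ S n m ↔ ∃ h : Equiv.Perm W,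
      (∀ s t, RR x false s t ↔ RR x true (h s) (h t)) ∧ F.arr (cj ν (lift h), X false x) n = m := by
    intro n m x
    constructor
    · rintro ⟨z, hz, rfl⟩
      exact ⟨_, hz⟩
    · rintro ⟨h, hh⟩
      obtain ⟨y, rfl⟩ := un_surj e h
      exact ⟨(y, x), hh, rfl⟩
  have huniq : ∀ n m m' x, x ∈ S n m → x ∈ S n m' → m = m' := by
    intro n m m' x h h'
    rw [hSmem] at h h'
    obtain ⟨g, hg, hg'⟩ := h
    obtain ⟨k, hk, hk'⟩ := h'
    rw [← hg', ← hk', arr_unique F ν (X false x) rfl hg hk]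
  -- separation
  have hsep : ∀ n m, ∃ B : Set (List ℕ → Bool), S n m ⊆ B ∧ (∀ m', m' ≠ m → Disjoint (S n m') B) ∧
      MeasurableSet B := by
    intro n m
    have h1 : AnalyticSet (⋃ m' : {m' : ℕ // m' ≠ m}, S n m'.1) := AnalyticSet.iUnion fun m' => hS n m'.1
    have h2 : Disjoint (S n m) (⋃ m' : {m' : ℕ // m' ≠ m}, S n m'.1) := by
      rw [Set.disjoint_left]
      intro x hx hx'
      obtain ⟨m', hm'⟩ := Set.mem_iUnion.mp hx'
      exact m'.2 (huniq n m'.1 m x hm' hx)
    obtain ⟨B, hB1, hB2, hB3⟩ := (hS n m).measurablySeparable h1 h2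
    refine ⟨B, hB1, ?_, hB3⟩
    intro m' hm'
    exact hB2.mono_left (fun x hx => Set.mem_iUnion.mpr ⟨⟨m', hm'⟩, hx⟩)
  choose B hB1 hB2 hB3 using hsep
  -- the Borel definition
  have key : IF = {x : List ℕ → Bool | (∀ n, ∃ m, x ∈ B n m) ∧
      (∀ n m m', m ≠ m' → ¬ (x ∈ B n m ∧ x ∈ B n m')) ∧
      (∀ n n' m, n ≠ n' → ¬ (x ∈ B n m ∧ x ∈ B n' m)) ∧ (∀ m, ∃ n, x ∈ B n m) ∧
      ∀ (n : ℕ) (k : ℕ) (v w : Fin n → ℕ), (∀ i, x ∈ B (v i) (w i)) →
        ((F.obj (X false x)).1.RelMap (sy n k) v ↔ (F.obj (X true x)).1.RelMap (sy n k) w)} := by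
    ext x
    constructor
    · intro hx
      obtain ⟨h, hh⟩ := (iso_iff x).mpr hx
      have hp : act (F.arr (cj ν (lift h), X false x)) (F.obj (X false x)).1 = (F.obj (X true x)).1 :=
        F.range _ _ _ (act_lift ν hh)
      have hBiff : ∀ n m, x ∈ B n m ↔ F.arr (cj ν (lift h), X false x) n = m := by
        intro n m
        constructor
        · intro h1
          by_contra h2
          exact Set.disjoint_left.mp (hB2 n m _ h2) ((hSmem _ _ _).mpr ⟨h, hh, rfl⟩) h1
        · rintro rfl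
          exact hB1 _ _ ((hSmem _ _ _).mpr ⟨h, hh, rfl⟩)
      generalize F.arr (cj ν (lift h), X false x) = p at hp hBiff
      refine ⟨?_, ?_, ?_, ?_, ?_⟩
      · intro n
        exact ⟨p n, (hBiff _ _).mpr rfl⟩
      · rintro n m m' hne ⟨h1, h2⟩
        rw [hBiff] at h1 h2
        exact hne (h1.symm.trans h2)
      · rintro n n' m hne ⟨h1, h2⟩
        rw [hBiff] at h1 h2
        exact hne (p.injective (h1.trans h2.symm))
      · intro m
        exact ⟨p.symm m, (hBiff _ _).mpr (by simp)⟩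
      · intro n k v w hvw
        have h1 : w = p ∘ v := by
          funext i
          exact ((hBiff _ _).mp (hvw i)).symm
        rw [h1, ← hp]
        show _ ↔ (F.obj (X false x)).1.RelMap (sy n k) (p.symm ∘ p ∘ v)
        rw [← Function.comp_assoc, Equiv.symm_comp_self, Function.id_comp]
    · rintro ⟨h1, h2, h3, h4, h5⟩
      choose p hp using h1
      choose q hq using h4
      have hpu : ∀ n m, x ∈ B n m → p n = m := by
        intro n m h
        by_contra hne
        exact h2 n _ _ hne ⟨hp n, h⟩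
      have hqu : ∀ n m, x ∈ B n m → q m = n := by
        intro n m h
        by_contra hne
        exact h3 _ _ m hne ⟨hq m, h⟩
      let P : Equiv.Perm ℕ := ⟨p, q, fun n => hqu _ _ (hp n), fun m => hpu _ _ (hq m)⟩
      have hiso : Iso (F.obj (X false x)).1 (F.obj (X true x)).1 := by
        refine ⟨P, ?_⟩
        apply str_ext
        · intro n k v
          show (F.obj (X false x)).1.RelMap (sy n k) (P.symm ∘ v) ↔ _
          exact h5 n k (P.symm ∘ v) v (fun i => hq (v i))
        · intro n f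
          exact f.elim
      obtain ⟨g, hg⟩ := iso_om ν (F.red (X false x) (X true x) hiso)
      exact (iso_iff x).mp ⟨g, hg⟩
  apply IF_not_borel
  rw [← (inferInstance : BorelSpace (List ℕ → Bool)).measurable_eq, key]
  have ho : ∀ b (n k : ℕ) (v : Fin n → ℕ),
      MeasurableSet {x : List ℕ → Bool | (F.obj (X b x)).1.RelMap (sy n k) v} := by
    intro b n k v
    have h1 : Measurable fun x : List ℕ → Bool => (F.obj (X b x)).1 :=
      measurable_subtype_coe.comp (hobj.comp (hXm b))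
    exact h1 (meas_rel (sy n k) v)
  have hk : {x : List ℕ → Bool | (∀ n, ∃ m, x ∈ B n m) ∧
      (∀ n m m', m ≠ m' → ¬ (x ∈ B n m ∧ x ∈ B n m')) ∧
      (∀ n n' m, n ≠ n' → ¬ (x ∈ B n m ∧ x ∈ B n' m)) ∧ (∀ m, ∃ n, x ∈ B n m) ∧
      ∀ (n : ℕ) (k : ℕ) (v w : Fin n → ℕ), (∀ i, x ∈ B (v i) (w i)) →
        ((F.obj (X false x)).1.RelMap (sy n k) v ↔ (F.obj (X true x)).1.RelMap (sy n k) w)} =
      (⋂ n : ℕ, ⋃ m : ℕ, B n m) ∩ ((⋂ n : ℕ, ⋂ m : ℕ, ⋂ m' : ℕ, {_x | m = m'} ∪ (B n m ∩ B n m')ᶜ) ∩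
        ((⋂ n : ℕ, ⋂ n' : ℕ, ⋂ m : ℕ, {_x | n = n'} ∪ (B n m ∩ B n' m)ᶜ) ∩ ((⋂ m : ℕ, ⋃ n : ℕ, B n m) ∩
          ⋂ n : ℕ, ⋂ k : ℕ, ⋂ v : Fin n → ℕ, ⋂ w : Fin n → ℕ, (⋂ i : Fin n, B (v i) (w i))ᶜ ∪
            {x | (F.obj (X false x)).1.RelMap (sy n k) v ↔
              (F.obj (X true x)).1.RelMap (sy n k) w}))) := by
    ext x
    simp only [Set.mem_inter_iff, Set.mem_iInter, Set.mem_iUnion, Set.mem_union, Set.mem_compl_iff]
    refine and_congr Iff.rfl (and_congr ?_ (and_congr ?_ (and_congr Iff.rfl ?_)))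
    · refine forall_congr' fun n => forall_congr' fun m => forall_congr' fun m' => ?_
      by_cases h : m = m'
      · simp [h]
      · simp [h]
    · refine forall_congr' fun n => forall_congr' fun m => forall_congr' fun m' => ?_
      by_cases h : n = m
      · simp [h]
      · simp [h]
    · refine forall_congr' fun n => forall_congr' fun k => forall_congr' fun v =>
        forall_congr' fun w => ?_
      exact imp_iff_not_or
  rw [hk]
  refine MeasurableSet.inter (MeasurableSet.iInter fun n => MeasurableSet.iUnion fun m => hB3 _ _)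
    (MeasurableSet.inter (MeasurableSet.iInter fun n => MeasurableSet.iInter fun m =>
      MeasurableSet.iInter fun m' => (MeasurableSet.const _).union ((hB3 _ _).inter (hB3 _ _)).compl)
    (MeasurableSet.inter (MeasurableSet.iInter fun n => MeasurableSet.iInter fun m =>
      MeasurableSet.iInter fun m' => (MeasurableSet.const _).union ((hB3 _ _).inter (hB3 _ _)).compl)
    (MeasurableSet.inter (MeasurableSet.iInter fun n => MeasurableSet.iUnion fun m => hB3 _ _)
      (MeasurableSet.iInter fun n => MeasurableSet.iInter fun k => MeasurableSet.iInter fun v =>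
        MeasurableSet.iInter fun w => (MeasurableSet.iInter fun i => hB3 _ _).compl.union
          (meas_iff (ho _ _ _ _) (ho _ _ _ _))))))

end Pool.Agent.Q215.Grp
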