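import Mathlib

set_option autoImplicit false

/-! The homeomorphism group of a compact metrizable space is a Polish group. -/

namespace Pool.Agent.Q215.HomeoGrp

open Topology Filter

/-- the group of the homeomorphisms of `X` -/
def Hm (X : Type) [TopologicalSpace X] : Type := X ≃ₜ X

variable {X : Type} [TopologicalSpace X]

instance : Group (Hm X) := inferInstanceAs (Group (X ≃ₜ X))

/-- the homeomorphism as a continuous map -/
def cm (f : Hm X) : C(X, X) := ⟨fun x => Homeomorph.toEquiv f x, Homeomorph.continuous f⟩

/-- the compact-open topology -/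
instance : TopologicalSpace (Hm X) := TopologicalSpace.induced cm inferInstance

theorem continuous_cm : Continuous (cm : Hm X → C(X, X)) := continuous_induced_dom

theorem cm_mul (f g : Hm X) : cm (f * g) = (cm f).comp (cm g) := rfl

theorem cm_one : cm (1 : Hm X) = ContinuousMap.id X := rfl

theorem cm_mul_inv (f : Hm X) : (cm f).comp (cm f⁻¹) = ContinuousMap.id X := by
  rw [← cm_mul, mul_inv_cancel, cm_one]

theorem cm_inv_mul (f : Hm X) : (cm f⁻¹).comp (cm f) = ContinuousMap.id X := by
  rw [← cm_mul, inv_mul_cancel, cm_one]

theorem cm_inj : Function.Injective (cm : Hm X → C(X, X)) := by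
  intro f g h
  apply Homeomorph.ext
  intro x
  exact congrArg (fun k : C(X, X) => k x) h

theorem continuous_cm_inv [CompactSpace X] [TopologicalSpace.MetrizableSpace X] :
    Continuous (fun f : Hm X => cm f⁻¹) := by
  let _ : MetricSpace X := TopologicalSpace.metrizableSpaceMetric X
  rw [continuous_iff_continuousAt]
  intro f
  rw [ContinuousAt, tendsto_iff_dist_tendsto_zero]
  have h1 : Continuous fun g : Hm X => dist (ContinuousMap.id X) ((cm f⁻¹).comp (cm g)) :=
    continuous_const.dist (continuous_const.compCM continuous_cm)
  have h2 := h1.tendsto f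
  rw [cm_inv_mul, dist_self] at h2
  refine squeeze_zero (fun g => dist_nonneg) (fun g => ?_) h2
  rw [ContinuousMap.dist_le dist_nonneg]
  intro x
  have h3 : cm g (cm g⁻¹ x) = x := by
    have := congrArg (fun k : C(X, X) => k x) (cm_mul_inv g)
    exact this
  calc dist (cm g⁻¹ x) (cm f⁻¹ x) = dist (ContinuousMap.id X (cm g⁻¹ x))
        (((cm f⁻¹).comp (cm g)) (cm g⁻¹ x)) := by
          show _ = dist (cm g⁻¹ x) (cm f⁻¹ (cm g (cm g⁻¹ x)))
          rw [h3]
    _ ≤ _ := ContinuousMap.dist_apply_le_dist _

instance [CompactSpace X] [TopologicalSpace.MetrizableSpace X] : IsTopologicalGroup (Hm X) where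
  continuous_mul := by
    rw [continuous_induced_rng]
    exact (continuous_cm.comp continuous_fst).compCM (continuous_cm.comp continuous_snd)
  continuous_inv := by
    rw [continuous_induced_rng]
    exact continuous_cm_inv

/-- the embedding in the square of the space of continuous maps -/
def emb (f : Hm X) : C(X, X) × C(X, X) := (cm f, cm f⁻¹)

theorem isClosedEmbedding_emb [CompactSpace X] [TopologicalSpace.MetrizableSpace X] :
    IsClosedEmbedding (emb : Hm X → C(X, X) × C(X, X)) := by
  have hc : Continuous (emb : Hm X → C(X, X) × C(X, X)) :=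
    continuous_cm.prodMk continuous_cm_inv
  have hind : IsInducing (emb : Hm X → C(X, X) × C(X, X)) := by
    have h1 : IsInducing (Prod.fst ∘ emb : Hm X → C(X, X)) := ⟨rfl⟩
    exact IsInducing.of_comp hc continuous_fst h1
  refine ⟨⟨hind, fun f g h => cm_inj (congrArg Prod.fst h)⟩, ?_⟩
  have e : Set.range (emb : Hm X → C(X, X) × C(X, X)) =
      {p | p.1.comp p.2 = ContinuousMap.id X} ∩ {p | p.2.comp p.1 = ContinuousMap.id X} := by
    ext p
    constructor
    · rintro ⟨f, rfl⟩
      exact ⟨cm_mul_inv f, cm_inv_mul f⟩
    · rintro ⟨h1, h2⟩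
      let f : X ≃ₜ X :=
        { toFun := p.1
          invFun := p.2
          left_inv := fun x => congrArg (fun k : C(X, X) => k x) h2
          right_inv := fun x => congrArg (fun k : C(X, X) => k x) h1
          continuous_toFun := p.1.continuous
          continuous_invFun := p.2.continuous }
      exact ⟨(f : Hm X), rfl⟩
  rw [e]
  refine IsClosed.inter ?_ ?_
  · exact isClosed_eq (continuous_fst.compCM continuous_snd) continuous_const
  · exact isClosed_eq (continuous_snd.compCM continuous_fst) continuous_const

instance [CompactSpace X] [TopologicalSpace.MetrizableSpace X] : PolishSpace (Hm X) := by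
  let _ : MetricSpace X := TopologicalSpace.metrizableSpaceMetric X
  exact isClosedEmbedding_emb.polishSpace

end Pool.Agent.Q215.HomeoGrp
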