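import Pool.Agent.Q215.HomeoGrp
import Pool.Agent.H44D.Stmts
import Pool.Agent.H44D.Final
import Pool.Agent.H44D.B
import Pool.Agent.H44D.A
import Pool.Agent.H722R5.H44D_C1
import Pool.Agent.H886R3.TaskH44DC2
import Pool.Agent.H44D.C3

set_option autoImplicit false

/-! The homeomorphism group of the Hilbert cube. -/

namespace Pool.Agent.Q215.HomeoGrp

open Topology Filter

/-- the Hilbert cube -/
abbrev HCube : Type := ℕ → Set.Icc (0 : ℝ) 1

/-- the power flow on the unit interval -/
noncomputable def pw (t : ℝ) (x : Set.Icc (0 : ℝ) 1) : Set.Icc (0 : ℝ) 1 :=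
  ⟨(x : ℝ) ^ Real.exp t, Real.rpow_nonneg x.2.1 _,
    Real.rpow_le_one x.2.1 x.2.2 (Real.exp_pos t).le⟩

theorem pw_add (s t : ℝ) (x : Set.Icc (0 : ℝ) 1) : pw (s + t) x = pw s (pw t x) := by
  apply Subtype.ext
  show (x : ℝ) ^ Real.exp (s + t) = ((x : ℝ) ^ Real.exp t) ^ Real.exp s
  rw [← Real.rpow_mul x.2.1, Real.exp_add, mul_comm]

theorem pw_zero (x : Set.Icc (0 : ℝ) 1) : pw 0 x = x := by
  apply Subtype.ext
  show (x : ℝ) ^ Real.exp 0 = x
  rw [Real.exp_zero, Real.rpow_one]

theorem continuous_pw : Continuous fun p : ℝ × Set.Icc (0 : ℝ) 1 => pw p.1 p.2 := by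
  refine Continuous.subtype_mk ?_ _
  rw [continuous_iff_continuousAt]
  rintro ⟨t, x⟩
  have h1 : ContinuousAt (fun p : ℝ × ℝ => p.1 ^ p.2) ((x : ℝ), Real.exp t) :=
    Real.continuousAt_rpow _ (Or.inr (Real.exp_pos t))
  have h2 : ContinuousAt (fun p : ℝ × Set.Icc (0 : ℝ) 1 => ((p.2 : ℝ), Real.exp p.1)) (t, x) :=
    ((continuous_subtype_val.comp continuous_snd).prodMk
      (Real.continuous_exp.comp continuous_fst)).continuousAt
  exact ContinuousAt.comp (f := fun p : ℝ × Set.Icc (0 : ℝ) 1 => ((p.2 : ℝ), Real.exp p.1)) h1 h2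

/-- the flow on the Hilbert cube -/
noncomputable def fl (t : ℝ) (x : HCube) : HCube := fun n => pw t (x n)

theorem continuous_fl : Continuous fun p : ℝ × HCube => fl p.1 p.2 := by
  refine continuous_pi fun n => ?_
  exact continuous_pw.comp (continuous_fst.prodMk ((continuous_apply n).comp continuous_snd))

theorem fl_add (s t : ℝ) (x : HCube) : fl (s + t) x = fl s (fl t x) :=
  funext fun n => pw_add s t (x n)

theorem fl_zero (x : HCube) : fl 0 x = x := funext fun n => pw_zero (x n)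

/-- the flow in the homeomorphism group -/
noncomputable def FL (t : ℝ) : Hm HCube :=
  ({ toFun := fl t
     invFun := fl (-t)
     left_inv := fun x => by rw [← fl_add, neg_add_cancel, fl_zero]
     right_inv := fun x => by rw [← fl_add, add_neg_cancel, fl_zero]
     continuous_toFun := continuous_fl.comp (continuous_const.prodMk continuous_id)
     continuous_invFun := continuous_fl.comp (continuous_const.prodMk continuous_id) } :
    HCube ≃ₜ HCube)

theorem FL_add (s t : ℝ) : FL (s + t) = FL s * FL t := by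
  apply cm_inj
  ext1 x
  exact fl_add s t x

theorem FL_zero : FL 0 = 1 := by
  apply cm_inj
  ext1 x
  exact fl_zero x

theorem continuous_FL : Continuous FL := by
  rw [continuous_induced_rng]
  let K : C(ℝ × HCube, HCube) := ⟨fun p => fl p.1 p.2, continuous_fl⟩
  exact K.curry.continuous

theorem FL_nsmul (n : ℕ) (t : ℝ) : FL (n * t) = FL t ^ n := by
  induction n with
  | zero => simp [FL_zero]
  | succ n ih =>
    rw [pow_succ, ← ih, ← FL_add]
    congr 1
    push_cast
    ring

/-- the base point -/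
noncomputable def bp : HCube := fun _ => ⟨1 / 4, by norm_num, by norm_num⟩


/-- the neighbourhood of the identity -/
def nb : Set (Hm HCube) := {f | (((cm f) bp 0 : Set.Icc (0 : ℝ) 1) : ℝ) < 1 / 2}

theorem isOpen_nb : IsOpen nb := by
  have h1 : Continuous fun f : Hm HCube => (((cm f) bp 0 : Set.Icc (0 : ℝ) 1) : ℝ) := by
    refine continuous_subtype_val.comp ((continuous_apply 0).comp ?_)
    exact (continuous_eval_const bp).comp continuous_cm
  exact isOpen_lt h1 continuous_const

theorem one_mem_nb : (1 : Hm HCube) ∈ nb := by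
  show (1 / 4 : ℝ) < 1 / 2
  norm_num

theorem not_na : ∀ H : Subgroup (Hm HCube), IsOpen (H : Set (Hm HCube)) →
    ¬ (H : Set (Hm HCube)) ⊆ nb := by
  intro H hH hsub
  -- the time
  obtain ⟨t, ht⟩ : ∃ t : ℝ, FL t ∉ nb := by
    refine ⟨Real.log (1 / 2), ?_⟩
    show ¬ ((1 / 4 : ℝ) ^ Real.exp (Real.log (1 / 2)) < 1 / 2)
    rw [Real.exp_log (by norm_num), not_lt]
    have h1 : (1 / 4 : ℝ) = (1 / 2) ^ (2 : ℝ) := by norm_num
    rw [h1, ← Real.rpow_mul (by norm_num)]
    norm_num
  have h1 : Tendsto (fun n : ℕ => FL (t / (n + 1))) atTop (𝓝 1) := by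
    rw [← FL_zero]
    refine (continuous_FL.tendsto 0).comp ?_
    have h2 : Tendsto (fun n : ℕ => t * (1 / ((n : ℝ) + 1))) atTop (𝓝 (t * 0)) :=
      tendsto_one_div_add_atTop_nhds_zero_nat.const_mul t
    rw [mul_zero] at h2
    refine h2.congr fun n => ?_
    rw [mul_one_div]
  obtain ⟨n, hn⟩ := (h1.eventually (hH.mem_nhds H.one_mem)).exists
  have hn' : FL (t / (n + 1)) ∈ H := hn
  have h3 : FL t ∈ H := by
    have h4 : FL t = FL (t / (n + 1)) ^ (n + 1) := by
      rw [← FL_nsmul]
      congr 1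
      push_cast
      field_simp
    rw [h4]
    exact H.pow_mem hn' _
  exact ht (hsub h3)

/-- the decomposition -/
theorem decomp : ∃ A B : Set (Hm HCube), A ∪ B = Set.univ ∧ IsMeagre A ∧
    ∃ C : Set (Hm HCube), @MeasurableSet _ (borel _) C ∧ B ⊆ C ∧
      ∃ μ : @MeasureTheory.Measure (Hm HCube) (borel _), @MeasureTheory.IsProbabilityMeasure _ (borel _) μ ∧
        ∀ g h : Hm HCube, μ ((fun x => g * x * h) '' C) = 0 := by
  let _ : MeasurableSpace (Hm HCube) := borel _
  have : BorelSpace (Hm HCube) := ⟨rfl⟩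
  exact H44D.assembly H44D.taskA H44D.taskB H44D.taskC1 Pool.Agent.H886R3.DC2.taskC2 H44D.taskC3
    (Hm HCube) ⟨nb, isOpen_nb.mem_nhds one_mem_nb, not_na⟩

end Pool.Agent.Q215.HomeoGrp
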