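import Mathlib
import Pool.Agent.H715R2.Uncountable

/-! # Isospectral products of linear forms: finiteness for integral forms -/

set_option autoImplicit false

open Filter Topology Matrix

namespace Q215.IS

open H715R2

variable {d : ℕ}

/-- the grid `{0, …, d}^d` -/
def gr (d : ℕ) (v : Fin d → Fin (d + 1)) : Fin d → ℤ := fun i => ((v i : ℕ) : ℤ)

lemma totalDegree_polyF (h : Matrix (Fin d) (Fin d) ℝ) : (polyF h).totalDegree ≤ d := by
  unfold polyF
  refine (MvPolynomial.totalDegree_finsetProd _ _).trans ?_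
  refine (Finset.sum_le_card_nsmul _ _ 1 fun i _ => ?_).trans (by simp)
  refine MvPolynomial.totalDegree_finsetSum_le fun j _ => ?_
  refine (MvPolynomial.totalDegree_mul _ _).trans ?_
  rw [MvPolynomial.totalDegree_C]
  rw [MvPolynomial.totalDegree_X]

/-- two multiples of forms which agree on the grid agree -/
lemma grid_det {h k : Matrix (Fin d) (Fin d) ℝ} {a b : ℝ}
    (hg : ∀ v : Fin d → Fin (d + 1), a * FF h (iR (gr d v)) = b * FF k (iR (gr d v)))
    (x : Fin d → ℝ) : a * FF h x = b * FF k x := by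
  classical
  set P : MvPolynomial (Fin d) ℝ := a • polyF h - b • polyF k with hP
  have hev : ∀ x : Fin d → ℝ, MvPolynomial.eval x P = a * FF h x - b * FF k x := by
    intro x
    rw [hP, map_sub, MvPolynomial.smul_eval, MvPolynomial.smul_eval, eval_polyF, eval_polyF]
    rfl
  have hdeg : P.totalDegree ≤ d := by
    refine (MvPolynomial.totalDegree_sub _ _).trans (max_le ?_ ?_)
    · exact (MvPolynomial.totalDegree_smul_le _ _).trans (totalDegree_polyF h)
    · exact (MvPolynomial.totalDegree_smul_le _ _).trans (totalDegree_polyF k)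
  have hzero : P = 0 := by
    refine MvPolynomial.eq_zero_of_eval_zero_at_prod_finset P
      (fun _ => (Finset.range (d + 1)).image (fun n : ℕ => (n : ℝ))) (fun i => ?_) ?_
    · rw [Finset.card_image_of_injective _ Nat.cast_injective, Finset.card_range]
      exact Nat.lt_succ_of_le ((MvPolynomial.degreeOf_le_totalDegree _ _).trans hdeg)
    · intro x hx
      simp only [Finset.mem_image, Finset.mem_range] at hx
      choose n hn hnx using hx
      have h1 : x = iR (gr d fun i => ⟨n i, hn i⟩) := by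
        funext i
        simp [iR, gr, hnx]
      rw [hev, h1, hg, sub_self]
  have := hev x
  rw [hzero, map_zero] at this
  linarith

/-- values at nonzero integer points, up to sign, with their limits -/
def WW (g : Matrix (Fin d) (Fin d) ℝ) : Set ℝ :=
  closure {t : ℝ | ∃ x : Fin d → ℤ, x ≠ 0 ∧ |FF g (iR x)| = t}

/-- the same determinant up to sign and the same closure of the set of values -/
def Iso (g h : Matrix (Fin d) (Fin d) ℝ) : Prop := |h.det| = |g.det| ∧ WW h = WW g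

/-- equivalent forms -/
def Eqv (g h : Matrix (Fin d) (Fin d) ℝ) : Prop :=
  ∃ γ : Matrix (Fin d) (Fin d) ℤ, IsUnit γ.det ∧ ∀ x : Fin d → ℤ,
    FF h (iR x) = FF g (iR (γ *ᵥ x))

/-- equivalent up to a scalar -/
def EqvS (g h : Matrix (Fin d) (Fin d) ℝ) : Prop :=
  ∃ (c : ℝ) (γ : Matrix (Fin d) (Fin d) ℤ), c ≠ 0 ∧ IsUnit γ.det ∧ ∀ x : Fin d → ℤ,
    FF h (iR x) = c * FF g (iR (γ *ᵥ x))

lemma mem_WW {g : Matrix (Fin d) (Fin d) ℝ} {x : Fin d → ℤ} (hx : x ≠ 0) :
    |FF g (iR x)| ∈ WW g := subset_closure ⟨x, hx, rfl⟩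

lemma WW_ge {g : Matrix (Fin d) (Fin d) ℝ} {ν : ℝ} (hnu : HasNu g ν) {t : ℝ} (ht : t ∈ WW g) :
    ν ≤ t := by
  have h1 : WW g ⊆ Set.Ici ν := by
    refine closure_minimal ?_ isClosed_Ici
    rintro _ ⟨x, hx, rfl⟩
    exact hnu x hx
  exact h1 ht

lemma hasNu_of_iso {g h : Matrix (Fin d) (Fin d) ℝ} {ν : ℝ} (hnu : HasNu g ν) (hi : Iso g h) :
    HasNu h ν := by
  intro m hm
  have := mem_WW (g := h) hm
  rw [hi.2] at this
  exact WW_ge hnu this

/-- the values of a form which is isospectral to an integral form -/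
lemma values_iso (hd : 0 < d) {g : Matrix (Fin d) (Fin d) ℝ} {c : ℝ} (hc : c ≠ 0)
    (hz : ∀ x : Fin d → ℤ, ∃ z : ℤ, FF g (iR x) = c * z) {h : Matrix (Fin d) (Fin d) ℝ}
    (hi : WW h = WW g) (x : Fin d → ℤ) : ∃ z : ℤ, FF h (iR x) = c * z := by
  have h1 : WW g ⊆ (fun t : ℝ => c * t) '' (Set.range (Int.cast : ℤ → ℝ)) := by
    refine closure_minimal ?_ ?_
    · rintro _ ⟨x, -, rfl⟩
      obtain ⟨z, hz⟩ := hz x
      rcases abs_choice (FF g (iR x)) with h | h
      · exact ⟨z, ⟨z, rfl⟩, by rw [h, hz]⟩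
      · exact ⟨-z, ⟨-z, by push_cast; rfl⟩, by rw [h, hz]; ring⟩
    · exact (Homeomorph.mulLeft₀ c hc).isClosedMap _ Int.isClosedEmbedding_coe_real.isClosed_range
  by_cases hx : x = 0
  · refine ⟨0, ?_⟩
    subst hx
    rw [FF]
    rw [Finset.prod_eq_zero (Finset.mem_univ ⟨0, hd⟩) (by simp [iR])]
    simp
  · have h2 := mem_WW (g := h) hx
    rw [hi] at h2
    obtain ⟨_, ⟨z, rfl⟩, hz⟩ := h1 h2
    simp only at hz
    rcases abs_choice (FF h (iR x)) with h | h
    · exact ⟨z, by rw [hz, h]⟩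
    · exact ⟨-z, by rw [h] at hz; push_cast; linarith⟩

/-- a form which is isospectral to an integral form is proportional to an integral form -/
theorem propInt_iso (hd : 3 ≤ d) {g : Matrix (Fin d) (Fin d) ℝ} (hg : g.det ≠ 0) {ν : ℝ}
    (hν : 0 < ν) (hnu : HasNu g ν) (hP : PropInt g) {h : Matrix (Fin d) (Fin d) ℝ}
    (hi : Iso g h) : PropInt h := by
  obtain ⟨c, hc, hz⟩ := values_of_propInt hP
  have hdet : h.det ≠ 0 := by
    intro h0
    have := hi.1
    rw [h0, abs_zero] at this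
    exact hg (abs_eq_zero.1 this.symm)
  have hval := values_iso (by omega) hc hz hi.2
  have hcount : (closure {t : ℝ | ∃ x : Fin d → ℤ, |FF h (iR x)| = t ∧
      t < (d.factorial : ℝ) * |h.det| + 1}).Countable := by
    have h1 : closure {t : ℝ | ∃ x : Fin d → ℤ, |FF h (iR x)| = t ∧
        t < (d.factorial : ℝ) * |h.det| + 1} ⊆
        (fun t : ℝ => c * t) '' (Set.range (Int.cast : ℤ → ℝ)) := by
      refine closure_minimal ?_ ?_
      · rintro _ ⟨x, rfl, -⟩
        obtain ⟨z, hz⟩ := hval x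
        rcases abs_choice (FF h (iR x)) with h | h
        · exact ⟨z, ⟨z, rfl⟩, by rw [h, hz]⟩
        · exact ⟨-z, ⟨-z, by push_cast; rfl⟩, by rw [h, hz]; ring⟩
      · exact (Homeomorph.mulLeft₀ c hc).isClosedMap _
          Int.isClosedEmbedding_coe_real.isClosed_range
    exact ((Set.countable_range _).image _).mono h1
  have hd1 : (1 : ℝ) ≤ (d : ℝ) ^ d := by
    refine one_le_pow₀ ?_
    exact_mod_cast (by omega : 1 ≤ d)
  have hT : (d.factorial : ℝ) * |h.det| < (d : ℝ) ^ d * ((d.factorial : ℝ) * |h.det| + 1) := by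
    have h2 : 0 ≤ (d.factorial : ℝ) * |h.det| := by positivity
    nlinarith
  rcases countable_abs_values hd hdet ((d.factorial : ℝ) * |h.det| + 1) (Or.inl hT) hcount with
    h1 | h1
  · exact h1
  · exfalso
    obtain ⟨x, hx, hx2⟩ := h1 ν hν
    exact absurd (hasNu_of_iso hnu hi x hx) (not_le.2 hx2)

/-- **Finiteness.** Only finitely many classes of forms are isospectral to an integral form. -/
theorem finite_iso (hd : 0 < d) {g : Matrix (Fin d) (Fin d) ℝ} (hg : g.det ≠ 0) {ν : ℝ}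
    (hν : 0 < ν) (hnu : HasNu g ν) (hP : PropInt g) :
    ∃ T : Finset (Matrix (Fin d) (Fin d) ℝ), ∀ h, Iso g h → ∃ k ∈ T, Eqv k h := by
  classical
  obtain ⟨c, hc, hz⟩ := values_of_propInt hP
  obtain ⟨R, hR⟩ := exists_bound hd |g.det| ν (abs_pos.2 hg) hν
  set B : ℝ := (d * (R * d)) ^ d with hB
  set N : ℕ := ⌈B / |c|⌉₊ with hN
  -- the value vectors of reduced isospectral forms
  let Q : Set (Matrix (Fin d) (Fin d) ℝ × Matrix (Fin d) (Fin d) ℤ) :=
    {p | Iso g p.1 ∧ IsUnit p.2.det ∧ ∀ i j, |(p.1 * zR p.2) i j| ≤ R}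
  have hval : ∀ p ∈ Q, ∀ v : Fin d → Fin (d + 1), ∃ z : ℤ,
      FF (p.1 * zR p.2) (iR (gr d v)) = c * z ∧ z ∈ Finset.Icc (-(N : ℤ)) N := by
    rintro ⟨h, γ⟩ ⟨hi, hγ, hb⟩ v
    obtain ⟨z, hz'⟩ := values_iso hd hc hz hi.2 (γ *ᵥ gr d v)
    refine ⟨z, by rw [FF_mul, zR_mulVec_iR, hz'], ?_⟩
    have h1 : |FF (h * zR γ) (iR (gr d v))| ≤ B := by
      rw [FF, Finset.abs_prod, hB]
      calc ∏ i, |∑ j, (h * zR γ) i j * iR (gr d v) j| ≤ ∏ i : Fin d, (d * (R * d) : ℝ) := by
            refine Finset.prod_le_prod (fun i _ => abs_nonneg _) fun i _ => ?_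
            refine (Finset.abs_sum_le_sum_abs _ _).trans ?_
            refine (Finset.sum_le_card_nsmul _ _ (R * d) fun j _ => ?_).trans (by simp)
            rw [abs_mul]
            refine mul_le_mul (hb i j) ?_ (abs_nonneg _) ((abs_nonneg _).trans (hb i j))
            simp only [iR, gr, Int.cast_natCast, Nat.abs_cast]
            have := (v j).2
            exact_mod_cast (by omega : ((v j : ℕ)) ≤ d)
        _ = (d * (R * d) : ℝ) ^ d := by simp
    rw [FF_mul, zR_mulVec_iR, hz', abs_mul] at h1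
    have h2 : |(z : ℝ)| ≤ B / |c| := by
      rw [le_div_iff₀ (abs_pos.2 hc), mul_comm]
      exact h1
    have h3 : |(z : ℝ)| ≤ (N : ℝ) := h2.trans (Nat.le_ceil _)
    have h4 : |z| ≤ (N : ℤ) := by exact_mod_cast h3
    rw [Finset.mem_Icc]
    exact abs_le.1 h4
  choose! z hz1 hz2 using hval
  let f : Q → ((Fin d → Fin (d + 1)) → Finset.Icc (-(N : ℤ)) N) :=
    fun p v => ⟨z p.1 v, hz2 p.1 p.2 v⟩
  -- a representative for each attained vector
  let T : Finset (Matrix (Fin d) (Fin d) ℝ) := (Set.range f).toFinset.attach.image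
    fun u => ((Set.mem_toFinset.1 u.2).choose : Q).1.1
  refine ⟨T, fun h hi => ?_⟩
  obtain ⟨γ, hγ, hb⟩ := hR h hi.1 (hasNu_of_iso hnu hi)
  have hp : (h, γ) ∈ Q := ⟨hi, hγ, hb⟩
  have hu : f ⟨(h, γ), hp⟩ ∈ (Set.range f).toFinset := Set.mem_toFinset.2 ⟨_, rfl⟩
  set q : Q := (Set.mem_toFinset.1 hu).choose with hq
  have hqf : f q = f ⟨(h, γ), hp⟩ := (Set.mem_toFinset.1 hu).choose_spec
  refine ⟨q.1.1, Finset.mem_image.2 ⟨⟨_, hu⟩, Finset.mem_attach _ _, rfl⟩, ?_⟩
  have hgrid : ∀ v : Fin d → Fin (d + 1), (1 : ℝ) * FF (h * zR γ) (iR (gr d v)) =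
      1 * FF (q.1.1 * zR q.1.2) (iR (gr d v)) := by
    intro v
    have h1 := congrArg Subtype.val (congrFun hqf v)
    simp only [f] at h1
    rw [hz1 (h, γ) hp v, hz1 q.1 q.2 v, h1]
  have hall := grid_det hgrid
  have hqγ : IsUnit q.1.2.det := q.2.2.1
  have hγi : IsUnit (γ⁻¹).det := by
    rw [Matrix.isUnit_nonsing_inv_det_iff]
    exact hγ
  refine ⟨q.1.2 * γ⁻¹, ?_, fun x => ?_⟩
  · rw [det_mul]
    exact hqγ.mul hγi
  · have h1 := hall (iR (γ⁻¹ *ᵥ x))
    rw [one_mul, one_mul, FF_mul, FF_mul, zR_mulVec_iR, zR_mulVec_iR, mulVec_mulVec,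
      Matrix.mul_nonsing_inv _ hγ, one_mulVec, mulVec_mulVec] at h1
    exact h1

end Q215.IS
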