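import Mathlib
import Pool.Agent.Q215.IS1
import Pool.Agent.H565R2.FO2.Myc

/-! # Isospectral products of linear forms: minimal sets -/

set_option autoImplicit false

open Filter Topology Matrix

namespace Q215.IS

open H715R2

variable {d : ℕ}

section minimal

variable {M : Set (Matrix (Fin d) (Fin d) ℝ)}

lemma baire_M (hMc : IsClosed M) : BaireSpace M := by
  have hlc : LocallyCompactSpace M := hMc.locallyCompactSpace
  exact BaireSpace.of_t2Space_locallyCompactSpace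

/-- the action of `a`, `γ` on an invariant set -/
noncomputable def act (hMinv : H715R2.Inv M) (a : Fin d → ℝ) (γ : Matrix (Fin d) (Fin d) ℤ)
    (ha0 : ∀ i, 0 < a i) (ha : ∏ i, a i = 1) (hγ : IsUnit γ.det) : M ≃ₜ M where
  toFun h := ⟨diagonal a * h.1 * zR γ, hMinv h.1 h.2 a γ ha0 ha hγ⟩
  invFun h := ⟨diagonal (fun i => (a i)⁻¹) * h.1 * zR γ⁻¹,
    hMinv h.1 h.2 _ γ⁻¹ (fun i => inv_pos.2 (ha0 i)) (by rw [Finset.prod_inv_distrib, ha, inv_one])
      (by rw [Matrix.isUnit_nonsing_inv_det_iff]; exact hγ)⟩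
  left_inv h := by
    apply Subtype.ext
    show diagonal (fun i => (a i)⁻¹) * (diagonal a * h.1 * zR γ) * zR γ⁻¹ = h.1
    have h1 : diagonal (fun i => (a i)⁻¹) * diagonal a = (1 : Matrix (Fin d) (Fin d) ℝ) := by
      rw [diagonal_mul_diagonal, ← diagonal_one]
      congr 1
      funext i
      exact inv_mul_cancel₀ (ha0 i).ne'
    calc _ = (diagonal (fun i => (a i)⁻¹) * diagonal a) * h.1 * (zR γ * zR γ⁻¹) := by
            simp only [Matrix.mul_assoc]
      _ = h.1 := by rw [h1, zR_inv hγ, Matrix.one_mul, Matrix.mul_one]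
  right_inv h := by
    apply Subtype.ext
    show diagonal a * (diagonal (fun i => (a i)⁻¹) * h.1 * zR γ⁻¹) * zR γ = h.1
    have h1 : diagonal a * diagonal (fun i => (a i)⁻¹) = (1 : Matrix (Fin d) (Fin d) ℝ) := by
      rw [diagonal_mul_diagonal, ← diagonal_one]
      congr 1
      funext i
      exact mul_inv_cancel₀ (ha0 i).ne'
    calc _ = (diagonal a * diagonal (fun i => (a i)⁻¹)) * h.1 * (zR γ⁻¹ * zR γ) := by
            simp only [Matrix.mul_assoc]
      _ = h.1 := by rw [h1, zR_inv' hγ, Matrix.one_mul, Matrix.mul_one]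
  continuous_toFun := by
    refine Continuous.subtype_mk ?_ _
    exact (continuous_const.matrix_mul continuous_subtype_val).matrix_mul continuous_const
  continuous_invFun := by
    refine Continuous.subtype_mk ?_ _
    exact (continuous_const.matrix_mul continuous_subtype_val).matrix_mul continuous_const

/-- every open set is reached from every point -/
lemma reach (hMc : IsClosed M) (hMinv : H715R2.Inv M)
    (hMmin : ∀ Y ⊆ M, IsClosed Y → Y.Nonempty → H715R2.Inv Y → Y = M)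
    (h : M) {O : Set M} (hO : IsOpen O) (hne : O.Nonempty) :
    ∃ (a : Fin d → ℝ) (γ : Matrix (Fin d) (Fin d) ℤ) (ha0 : ∀ i, 0 < a i) (ha : ∏ i, a i = 1)
      (hγ : IsUnit γ.det), act hMinv a γ ha0 ha hγ h ∈ O := by
  obtain ⟨U, hU, rfl⟩ := isOpen_induced_iff.1 hO
  obtain ⟨h₁, hh₁⟩ := hne
  have h1 : h₁.1 ∈ closure (Orb h.1) := by
    rw [closure_orb_eq hMc hMinv hMmin h.2]; exact h₁.2
  obtain ⟨_, hU2, a, γ, ha0, ha, hγ, rfl⟩ := mem_closure_iff.1 h1 U hU hh₁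
  exact ⟨a, γ, ha0, ha, hγ, hU2⟩

/-- classes up to scalars are meager in a minimal set of counterexamples -/
theorem meager_class (hd : 3 ≤ d) {g : Matrix (Fin d) (Fin d) ℝ} (hg : g.det ≠ 0) {ν : ℝ}
    (hν : 0 < ν) (hnu : HasNu g ν) (hint : ¬ PropInt g)
    (hMg : M ⊆ closure (Orb g)) (hMc : IsClosed M) (hMne : M.Nonempty) (hMinv : H715R2.Inv M)
    (hMmin : ∀ Y ⊆ M, IsClosed Y → Y.Nonempty → H715R2.Inv Y → Y = M)
    (k : Matrix (Fin d) (Fin d) ℝ) : IsMeagre {h : M | EqvS k h.1} := by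
  classical
  have hd0 : 0 < d := by omega
  have hB := baire_M hMc
  obtain ⟨g₁, hg₁⟩ := hMne
  set μ := nuInf g₁ with hμ
  have hμ0 : 0 < μ := hν.trans_le (le_nuInf hd0 (hasNu_closure hnu (hMg hg₁)))
  have hμM : ∀ g' ∈ M, nuInf g' = μ := by
    intro g' hg'
    apply le_antisymm
    · exact nuInf_le_of_mem_closure hd0 (by rw [closure_orb_eq hMc hMinv hMmin hg']; exact hg₁)
    · exact nuInf_le_of_mem_closure hd0 (by rw [closure_orb_eq hMc hMinv hMmin hg₁]; exact hg')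
  let Z : Matrix (Fin d) (Fin d) ℤ × Bool → Set M := fun p =>
    {h | ∀ x : Fin d → ℤ, FF h.1 (iR x) =
      ((if p.2 then 1 else -1) * (μ / nuInf k)) * FF k (iR (p.1 *ᵥ x))}
  have hsub : {h : M | EqvS k h.1} ⊆
      ⋃ p : {p : Matrix (Fin d) (Fin d) ℤ × Bool // IsUnit p.1.det}, Z p.1 := by
    rintro h ⟨c, γ, hc, hγ, heq⟩
    have h1 := nuInf_equiv hd0 hγ heq
    rw [hμM h.1 h.2] at h1
    have h2 : nuInf k ≠ 0 := by
      intro h0
      rw [h0, mul_zero] at h1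
      exact hμ0.ne' h1
    have h3 : |c| = μ / nuInf k := by
      rw [h1, mul_div_cancel_right₀ _ h2]
    rw [Set.mem_iUnion]
    rcases abs_choice c with hc | hc
    · refine ⟨⟨(γ, true), hγ⟩, fun x => ?_⟩
      simp only [if_true, one_mul]
      rw [← h3, hc, heq]
    · refine ⟨⟨(γ, false), hγ⟩, fun x => ?_⟩
      simp only [Bool.false_eq_true, if_false]
      rw [← h3, hc, heq]
      ring
  have hcM : Countable (Matrix (Fin d) (Fin d) ℤ) :=
    inferInstanceAs (Countable (Fin d → Fin d → ℤ))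
  have hcS : Countable {p : Matrix (Fin d) (Fin d) ℤ × Bool // IsUnit p.1.det} :=
    Subtype.countable
  suffices hsuf : IsMeagre (⋃ p : {p : Matrix (Fin d) (Fin d) ℤ × Bool // IsUnit p.1.det}, Z p.1) by
    exact IsMeagre.mono hsub hsuf
  refine isMeagre_iUnion fun p => ?_
  have hZc : IsClosed (Z p.1) := by
    have h1 : Z p.1 = ⋂ x : Fin d → ℤ, {h : M | FF h.1 (iR x) =
        ((if p.1.2 then 1 else -1) * (μ / nuInf k)) * FF k (iR (p.1.1 *ᵥ x))} := by
      ext h; simp [Z]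
    rw [h1]
    exact isClosed_iInter fun x =>
      isClosed_eq ((continuous_FF (iR x)).comp continuous_subtype_val) continuous_const
  refine IsNowhereDense.isMeagre (hZc.isNowhereDense_iff.2 ?_)
  by_contra hne
  have hne' : (interior (Z p.1)).Nonempty := Set.nonempty_iff_ne_empty.2 hne
  set C : Set ℝ := Set.range (fun x : Fin d → ℤ =>
    ((if p.1.2 then 1 else -1) * (μ / nuInf k)) * FF k (iR x)) with hC
  refine hint (core hd hg hν hnu hMg hMc ⟨g₁, hg₁⟩ hMinv hMmin C (Set.countable_range _) ?_)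
  intro h' hh' m
  obtain ⟨a, γ, ha0, ha, hγ, hmem⟩ := reach hMc hMinv hMmin ⟨h', hh'⟩ isOpen_interior hne'
  have h1 := interior_subset hmem
  have h2 := h1 (γ⁻¹ *ᵥ m)
  simp only [act] at h2
  change FF (diagonal a * h' * zR γ) _ = _ at h2
  rw [FF_orb ha, mulVec_mulVec, Matrix.mul_nonsing_inv _ hγ, one_mulVec] at h2
  exact ⟨_, h2.symm⟩

/-- invariance under the diagonal group and `GL_d(ℤ)` -/
lemma zero_one (hMc : IsClosed M) (hMinv : H715R2.Inv M)
    (hMmin : ∀ Y ⊆ M, IsClosed Y → Y.Nonempty → H715R2.Inv Y → Y = M)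
    {S : Set (Matrix (Fin d) (Fin d) ℝ)} (hS : @MeasurableSet _ (borel _) S) (hSinv : H715R2.Inv S) :
    IsMeagre {h : M | h.1 ∈ S} ∨ IsMeagre {h : M | h.1 ∉ S} := by
  have hB := baire_M hMc
  let _ : MeasurableSpace (Matrix (Fin d) (Fin d) ℝ) := borel _
  have _ : BorelSpace (Matrix (Fin d) (Fin d) ℝ) := ⟨rfl⟩
  let _ : MeasurableSpace M := borel M
  have _ : BorelSpace M := ⟨rfl⟩
  have hm : MeasurableSet {h : M | h.1 ∈ S} := (continuous_subtype_val.measurable) hS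
  have hm2 : MeasurableSet {h : M | h.1 ∉ S} := hm.compl
  obtain ⟨U, hU, hSU⟩ := hm.baireMeasurableSet.residualEq_isOpen
  obtain ⟨V, hV, hSV⟩ := hm2.baireMeasurableSet.residualEq_isOpen
  rcases U.eq_empty_or_nonempty with hUe | hUne
  · left
    subst hUe
    rw [IsMeagre]
    filter_upwards [hSU] with h hh hh2
    have h3 : (h.1 ∈ S) = (h ∈ (∅ : Set M)) := hh
    have h4 : h.1 ∈ S := hh2
    rw [h3] at h4
    exact h4
  rcases V.eq_empty_or_nonempty with hVe | hVne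
  · right
    subst hVe
    rw [IsMeagre]
    filter_upwards [hSV] with h hh hh2
    have h3 : (h.1 ∉ S) = (h ∈ (∅ : Set M)) := hh
    have h4 : h.1 ∉ S := hh2
    rw [h3] at h4
    exact h4
  exfalso
  obtain ⟨h₀, hh₀⟩ := hUne
  obtain ⟨a, γ, ha0, ha, hγ, hmem⟩ := reach hMc hMinv hMmin h₀ hV hVne
  set φ := act hMinv a γ ha0 ha hγ with hφ
  have hinv : ∀ h : M, (φ h).1 ∈ S ↔ h.1 ∈ S := by
    intro h
    constructor
    · intro hh
      have h1 := hSinv _ hh (fun i => (a i)⁻¹) γ⁻¹ (fun i => inv_pos.2 (ha0 i))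
        (by rw [Finset.prod_inv_distrib, ha, inv_one])
        (by rw [Matrix.isUnit_nonsing_inv_det_iff]; exact hγ)
      have h2 : (φ.symm (φ h)).1 ∈ S := h1
      rwa [φ.symm_apply_apply] at h2
    · intro hh
      exact hSinv _ hh a γ ha0 ha hγ
  have hWo : IsOpen (U ∩ φ ⁻¹' V) := hU.inter (hV.preimage φ.continuous)
  refine not_isMeagre_of_isOpen hWo ⟨h₀, hh₀, hmem⟩ ?_
  have h1 : ∀ᶠ h : M in residual M, (h.1 ∈ S) = (h ∈ U) := hSU
  have h2 : ∀ᶠ h : M in residual M, ((φ h).1 ∉ S) = (φ h ∈ V) :=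
    (tendsto_residual_of_isOpenMap φ.continuous φ.isOpenMap).eventually hSV
  rw [IsMeagre]
  filter_upwards [h1, h2] with h hh1 hh2 hh3
  have h4 : h.1 ∈ S := by rw [hh1]; exact hh3.1
  have h5 : (φ h).1 ∉ S := by rw [hh2]; exact hh3.2
  exact h5 ((hinv h).2 h4)

lemma compl_M (hMc : IsClosed M) : TopologicalSpace.IsCompletelyMetrizableSpace M := by
  have h1 : TopologicalSpace.IsCompletelyMetrizableSpace (Matrix (Fin d) (Fin d) ℝ) :=
    inferInstanceAs (TopologicalSpace.IsCompletelyMetrizableSpace (Fin d → Fin d → ℝ))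
  exact hMc.isCompletelyMetrizableSpace

/-- the pairs of forms which are not equivalent by a given matrix are dense -/
lemma dense_pairs (hd : 3 ≤ d) {g : Matrix (Fin d) (Fin d) ℝ} (hg : g.det ≠ 0) {ν : ℝ}
    (hν : 0 < ν) (hnu : HasNu g ν) (hint : ¬ PropInt g)
    (hMg : M ⊆ closure (Orb g)) (hMc : IsClosed M) (hMinv : H715R2.Inv M)
    (hMmin : ∀ Y ⊆ M, IsClosed Y → Y.Nonempty → H715R2.Inv Y → Y = M)
    (c : ℝ) (γ : Matrix (Fin d) (Fin d) ℤ) :
    Dense {p : M × M | ∃ x : Fin d → ℤ, FF p.2.1 (iR x) ≠ c * FF p.1.1 (iR (γ *ᵥ x))} := by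
  classical
  rw [dense_iff_inter_open]
  rintro O hO ⟨⟨h₁, h₂⟩, hh⟩
  obtain ⟨U, V, hU, hV, hh₁, hh₂, hUV⟩ := isOpen_prod_iff.1 hO h₁ h₂ hh
  by_contra hcon
  have hall : ∀ h ∈ V, ∀ x : Fin d → ℤ, FF h.1 (iR x) = c * FF h₁.1 (iR (γ *ᵥ x)) := by
    intro h hh x
    by_contra hne
    exact hcon ⟨(h₁, h), hUV ⟨hh₁, hh⟩, x, hne⟩
  set C : Set ℝ := Set.range (fun x : Fin d → ℤ => c * FF h₁.1 (iR x)) with hC
  refine hint (core hd hg hν hnu hMg hMc ⟨h₁.1, h₁.2⟩ hMinv hMmin C (Set.countable_range _) ?_)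
  intro h' hh' m
  obtain ⟨a, δ, ha0, ha, hδ, hmem⟩ := reach hMc hMinv hMmin ⟨h', hh'⟩ hV ⟨h₂, hh₂⟩
  have h2 := hall _ hmem (δ⁻¹ *ᵥ m)
  simp only [act] at h2
  change FF (diagonal a * h' * zR δ) _ = _ at h2
  rw [FF_orb ha, mulVec_mulVec, Matrix.mul_nonsing_inv _ hδ, one_mulVec] at h2
  exact ⟨_, h2.symm⟩

/-- **Generic ergodicity.** -/
theorem generic (hd : 3 ≤ d) {g : Matrix (Fin d) (Fin d) ℝ} (hg : g.det ≠ 0) {ν : ℝ}
    (hν : 0 < ν) (hnu : HasNu g ν) (hint : ¬ PropInt g)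
    (hMg : M ⊆ closure (Orb g)) (hMc : IsClosed M) (hMne : M.Nonempty) (hMinv : H715R2.Inv M)
    (hMmin : ∀ Y ⊆ M, IsClosed Y → Y.Nonempty → H715R2.Inv Y → Y = M)
    (S : ℕ → Set (Matrix (Fin d) (Fin d) ℝ)) (hS : ∀ n, @MeasurableSet _ (borel _) (S n))
    (hSinv : ∀ n, H715R2.Inv (S n)) :
    ∃ A : Set ℕ, ∀ k : ℕ → Matrix (Fin d) (Fin d) ℝ,
      ∃ φ : (ℕ → Bool) → Matrix (Fin d) (Fin d) ℝ, Continuous φ ∧
        (∀ b, φ b ∈ M ∧ (∀ n, φ b ∈ S n ↔ n ∈ A) ∧ ∀ n, ¬ EqvS (k n) (φ b)) ∧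
        ∀ b b', b ≠ b' → ¬ EqvS (φ b) (φ b') := by
  classical
  have hd0 : 0 < d := by omega
  have hB := baire_M hMc
  have hCM := compl_M hMc
  have : Nonempty M := hMne.to_subtype
  refine ⟨{n | IsMeagre {h : M | h.1 ∉ S n}}, fun k => ?_⟩
  have h1 : ∀ n, ∀ᶠ h : M in residual M, (h.1 ∈ S n ↔ IsMeagre {h : M | h.1 ∉ S n}) := by
    intro n
    by_cases hn : IsMeagre {h : M | h.1 ∉ S n}
    · have h2 := hn
      rw [IsMeagre] at h2
      filter_upwards [h2] with h hh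
      simp only [Set.mem_compl_iff, Set.mem_ofPred_eq, not_not] at hh
      exact ⟨fun _ => hn, fun _ => hh⟩
    · have h2 := (zero_one hMc hMinv hMmin (hS n) (hSinv n)).resolve_right hn
      rw [IsMeagre] at h2
      filter_upwards [h2] with h hh
      exact ⟨fun h3 => absurd h3 hh, fun h3 => absurd h3 hn⟩
  have h2 : ∀ n, ∀ᶠ h : M in residual M, ¬ EqvS (k n) h.1 := by
    intro n
    have := meager_class hd hg hν hnu hint hMg hMc hMne hMinv hMmin (k n)
    rw [IsMeagre] at this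
    exact this
  have h3 : ∀ᶠ h : M in residual M, (∀ n, (h.1 ∈ S n ↔ IsMeagre {h : M | h.1 ∉ S n})) ∧
      ∀ n, ¬ EqvS (k n) h.1 :=
    (eventually_countable_forall.2 h1).and (eventually_countable_forall.2 h2)
  obtain ⟨𝒮, hSo, hSd, hSc, hSsub⟩ := mem_residual_iff.1 h3
  -- the open dense sets of pairs
  obtain ⟨g₁, hg₁⟩ := hMne
  set μ := nuInf g₁ with hμ
  have hμ0 : 0 < μ := hν.trans_le (le_nuInf hd0 (hasNu_closure hnu (hMg hg₁)))
  have hμM : ∀ g' ∈ M, nuInf g' = μ := by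
    intro g' hg'
    apply le_antisymm
    · exact nuInf_le_of_mem_closure hd0 (by rw [closure_orb_eq hMc hMinv hMmin hg']; exact hg₁)
    · exact nuInf_le_of_mem_closure hd0 (by rw [closure_orb_eq hMc hMinv hMmin hg₁]; exact hg')
  let 𝒲 : Set (Set (M × M)) :=
    ((fun D : Set M => D ×ˢ (Set.univ : Set M)) '' 𝒮) ∪
    Set.range (fun p : Matrix (Fin d) (Fin d) ℤ × Bool =>
      {q : M × M | ∃ x : Fin d → ℤ, FF q.2.1 (iR x) ≠
        (if p.2 then 1 else -1) * FF q.1.1 (iR (p.1 *ᵥ x))})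
  have hcM : Countable (Matrix (Fin d) (Fin d) ℤ) :=
    inferInstanceAs (Countable (Fin d → Fin d → ℤ))
  have h𝒲c : 𝒲.Countable := (hSc.image _).union (Set.countable_range _)
  have h𝒲n : 𝒲.Nonempty := ⟨_, Or.inr ⟨(1, true), rfl⟩⟩
  obtain ⟨W, hW⟩ := h𝒲c.exists_eq_range h𝒲n
  have hopen : ∀ w ∈ 𝒲, IsOpen w := by
    rintro _ (⟨D, hD, rfl⟩ | ⟨p, rfl⟩)
    · exact (hSo D hD).prod isOpen_univ
    · have h5 : {q : M × M | ∃ x : Fin d → ℤ, FF q.2.1 (iR x) ≠
          (if p.2 then 1 else -1) * FF q.1.1 (iR (p.1 *ᵥ x))} =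
          ⋃ x : Fin d → ℤ, {q : M × M | FF q.2.1 (iR x) ≠
            (if p.2 then 1 else -1) * FF q.1.1 (iR (p.1 *ᵥ x))} := by
        ext q; simp
      show IsOpen {q : M × M | ∃ x : Fin d → ℤ, FF q.2.1 (iR x) ≠
          (if p.2 then 1 else -1) * FF q.1.1 (iR (p.1 *ᵥ x))}
      rw [h5]
      refine isOpen_iUnion fun x => isOpen_ne_fun ?_ ?_
      · exact (continuous_FF _).comp (continuous_subtype_val.comp continuous_snd)
      · exact continuous_const.mul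
          ((continuous_FF _).comp (continuous_subtype_val.comp continuous_fst))
  have hdense : ∀ w ∈ 𝒲, Dense w := by
    rintro _ (⟨D, hD, rfl⟩ | ⟨p, rfl⟩)
    · exact (hSd D hD).prod dense_univ
    · exact dense_pairs hd hg hν hnu hint hMg hMc hMinv hMmin _ _
  obtain ⟨φ, hφ, hφW⟩ := Pool.Agent.H565R2.FO2.mycielski' W
    (fun n => hopen _ (hW ▸ Set.mem_range_self n)) (fun n => hdense _ (hW ▸ Set.mem_range_self n))
  have hφ𝒲 : ∀ b b', b ≠ b' → ∀ w ∈ 𝒲, (φ b, φ b') ∈ w := by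
    intro b b' hbb w hw
    rw [hW] at hw
    obtain ⟨n, rfl⟩ := hw
    exact hφW b b' hbb n
  refine ⟨fun b => (φ b).1, continuous_subtype_val.comp hφ, fun b => ?_, fun b b' hbb => ?_⟩
  · have hb : ∃ b', b ≠ b' := by
      refine ⟨fun n => !b n, fun h => ?_⟩
      have := congrFun h 0
      simp at this
    obtain ⟨b', hbb⟩ := hb
    have hmem : φ b ∈ ⋂₀ 𝒮 := by
      intro D hD
      exact (hφ𝒲 b b' hbb _ (Or.inl ⟨D, hD, rfl⟩)).1
    obtain ⟨h5, h6⟩ := hSsub hmem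
    exact ⟨(φ b).2, h5, h6⟩
  · rintro ⟨c, γ, hc, hγ, heq⟩
    have h5 := nuInf_equiv hd0 hγ heq
    rw [hμM _ (φ b).2, hμM _ (φ b').2] at h5
    have h6 : |c| = 1 := by
      have : (1 : ℝ) * μ = |c| * μ := by rw [one_mul]; exact h5
      exact (mul_right_cancel₀ hμ0.ne' this).symm
    rcases abs_choice c with hc1 | hc1
    · obtain ⟨x, hx⟩ := hφ𝒲 b b' hbb _ (Or.inr ⟨(γ, true), rfl⟩)
      apply hx
      simp only [if_true]
      rw [heq, ← hc1, h6]
    · obtain ⟨x, hx⟩ := hφ𝒲 b b' hbb _ (Or.inr ⟨(γ, false), rfl⟩)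
      apply hx
      simp only [Bool.false_eq_true, if_false]
      rw [heq]
      congr 1
      linarith

/-- all members of a minimal set are isospectral -/
lemma iso_of_minimal {g : Matrix (Fin d) (Fin d) ℝ} 
    (hMg : M ⊆ closure (Orb g)) (hMc : IsClosed M) (hMinv : H715R2.Inv M)
    (hMmin : ∀ Y ⊆ M, IsClosed Y → Y.Nonempty → H715R2.Inv Y → Y = M)
    {h h' : Matrix (Fin d) (Fin d) ℝ} (hh : h ∈ M) (hh' : h' ∈ M) : Iso h h' := by
  have key : ∀ {h h' : Matrix (Fin d) (Fin d) ℝ}, h ∈ M → h' ∈ M → WW h' ⊆ WW h := by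
    intro h h' hh hh'
    refine closure_minimal ?_ isClosed_closure
    rintro _ ⟨x, hx, rfl⟩
    have h1 : h' ∈ closure (Orb h) := by rw [closure_orb_eq hMc hMinv hMmin hh]; exact hh'
    have h2 : Set.MapsTo (fun h : Matrix (Fin d) (Fin d) ℝ => |FF h (iR x)|) (Orb h)
        {t : ℝ | ∃ x : Fin d → ℤ, x ≠ 0 ∧ |FF h (iR x)| = t} := by
      rintro _ ⟨a, γ, _, ha, hγ, rfl⟩
      refine ⟨γ *ᵥ x, fun h0 => hx ?_, by
        show _ = |FF (diagonal a * h * zR γ) (iR x)|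
        rw [FF_orb ha]⟩
      have h3 : γ⁻¹ *ᵥ (γ *ᵥ x) = 0 := by rw [h0, mulVec_zero]
      rwa [mulVec_mulVec, Matrix.nonsing_inv_mul _ hγ, one_mulVec] at h3
    exact map_mem_closure (f := fun h : Matrix (Fin d) (Fin d) ℝ => |FF h (iR x)|)
      (continuous_FF (iR x)).abs h1 h2
  refine ⟨by rw [abs_det_closure (hMg hh'), abs_det_closure (hMg hh)], ?_⟩
  exact subset_antisymm (key hh hh') (key hh' hh)

lemma not_propInt_of_minimal (hd : 3 ≤ d) {g : Matrix (Fin d) (Fin d) ℝ} (hg : g.det ≠ 0) {ν : ℝ}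
    (hν : 0 < ν) (hnu : HasNu g ν) (hint : ¬ PropInt g)
    (hMg : M ⊆ closure (Orb g)) (hMc : IsClosed M) (hMne : M.Nonempty) (hMinv : H715R2.Inv M)
    (hMmin : ∀ Y ⊆ M, IsClosed Y → Y.Nonempty → H715R2.Inv Y → Y = M) :
    ∀ g' ∈ M, ¬ PropInt g' := by
  intro g' hg' hP
  refine hint (core hd hg hν hnu hMg hMc hMne hMinv hMmin _ (countable_VV hP) ?_)
  intro h hh m
  exact mem_VV_of_mem_closure (by rw [closure_orb_eq hMc hMinv hMmin hg']; exact hh) m

end minimal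

end Q215.IS
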