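import Mathlib
import Pool.Agent.Q215.IS2

/-! # Isospectral products of linear forms: separating families and the equivalences -/

set_option autoImplicit false

open Filter Topology Matrix

namespace Q215.IS

open H715R2

variable {d : ℕ}

lemma isUnit_inv {γ : Matrix (Fin d) (Fin d) ℤ} (hγ : IsUnit γ.det) : IsUnit (γ⁻¹).det := by
  rw [Matrix.isUnit_nonsing_inv_det_iff]
  exact hγ

/-- the forms equivalent to a multiple of the form with the values `v` on the grid -/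
def Sv (v : (Fin d → Fin (d + 1)) → ℤ) : Set (Matrix (Fin d) (Fin d) ℝ) :=
  {h | ∃ (c : ℝ) (γ : Matrix (Fin d) (Fin d) ℤ), c ≠ 0 ∧ IsUnit γ.det ∧
    ∀ u, FF h (iR (γ *ᵥ gr d u)) = c * v u}

lemma sv_eqvS {v : (Fin d → Fin (d + 1)) → ℤ} {g h : Matrix (Fin d) (Fin d) ℝ}
    (hgh : EqvS g h) (hg : g ∈ Sv v) : h ∈ Sv v := by
  obtain ⟨c₁, γ₁, hc₁, hγ₁, h₁⟩ := hgh
  obtain ⟨c, γ, hc, hγ, hv⟩ := hg
  refine ⟨c₁ * c, γ₁⁻¹ * γ, mul_ne_zero hc₁ hc, ?_, fun u => ?_⟩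
  · rw [det_mul]; exact (isUnit_inv hγ₁).mul hγ
  · rw [h₁, mulVec_mulVec, ← Matrix.mul_assoc, Matrix.mul_nonsing_inv _ hγ₁, Matrix.one_mul, hv]
    ring

lemma sv_sep {v : (Fin d → Fin (d + 1)) → ℤ} {g h : Matrix (Fin d) (Fin d) ℝ}
    (hg : g ∈ Sv v) (hh : h ∈ Sv v) : EqvS g h := by
  obtain ⟨c, γ, hc, hγ, hv⟩ := hg
  obtain ⟨c', γ', hc', hγ', hv'⟩ := hh
  have hgrid : ∀ u : Fin d → Fin (d + 1), c' * FF (g * zR γ) (iR (gr d u)) =
      c * FF (h * zR γ') (iR (gr d u)) := by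
    intro u
    rw [FF_mul, FF_mul, zR_mulVec_iR, zR_mulVec_iR, hv, hv']
    ring
  have hall := grid_det hgrid
  refine ⟨c' / c, γ * γ'⁻¹, div_ne_zero hc' hc, ?_, fun x => ?_⟩
  · rw [det_mul]; exact hγ.mul (isUnit_inv hγ')
  · have h1 := hall (iR (γ'⁻¹ *ᵥ x))
    rw [FF_mul, FF_mul, zR_mulVec_iR, zR_mulVec_iR, mulVec_mulVec, mulVec_mulVec,
      Matrix.mul_nonsing_inv _ hγ', one_mulVec] at h1
    rw [div_mul_eq_mul_div, eq_div_iff hc, h1, mul_comm]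

lemma sv_propInt {g : Matrix (Fin d) (Fin d) ℝ} (hg : PropInt g) : ∃ v, g ∈ Sv v := by
  obtain ⟨c, hc, hz⟩ := values_of_propInt hg
  choose z hz using hz
  refine ⟨fun u => z (gr d u), c, 1, hc, by simp, fun u => ?_⟩
  rw [one_mulVec, hz]

lemma inv_of_eqvS {S : Set (Matrix (Fin d) (Fin d) ℝ)} (hS : ∀ g ∈ S, ∀ h, EqvS g h → h ∈ S) :
    H715R2.Inv S := by
  intro h hh a γ ha0 ha hγ
  refine hS h hh _ ⟨1, γ, one_ne_zero, hγ, fun x => ?_⟩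
  rw [FF_orb ha, one_mul]

lemma sv_meas (v : (Fin d → Fin (d + 1)) → ℤ) : @MeasurableSet _ (borel _) (Sv v) := by
  classical
  let _ : MeasurableSpace (Matrix (Fin d) (Fin d) ℝ) := borel _
  have _ : BorelSpace (Matrix (Fin d) (Fin d) ℝ) := ⟨rfl⟩
  have hcM : Countable (Matrix (Fin d) (Fin d) ℤ) :=
    inferInstanceAs (Countable (Fin d → Fin d → ℤ))
  have h1 : Sv v = ⋃ γ : {γ : Matrix (Fin d) (Fin d) ℤ // IsUnit γ.det},
      {h : Matrix (Fin d) (Fin d) ℝ | ∃ c : ℝ, c ≠ 0 ∧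
        ∀ u, FF h (iR (γ.1 *ᵥ gr d u)) = c * v u} := by
    ext h
    simp only [Sv, Set.mem_iUnion, Set.mem_ofPred_eq, Subtype.exists]
    constructor
    · rintro ⟨c, γ, hc, hγ, hv⟩
      exact ⟨γ, hγ, c, hc, hv⟩
    · rintro ⟨γ, hγ, c, hc, hv⟩
      exact ⟨c, γ, hc, hγ, hv⟩
  rw [h1]
  refine MeasurableSet.iUnion fun γ => ?_
  by_cases hv : ∃ u₀, v u₀ ≠ 0
  · obtain ⟨u₀, hu₀⟩ := hv
    have hu₀' : (v u₀ : ℝ) ≠ 0 := by exact_mod_cast hu₀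
    have h2 : {h : Matrix (Fin d) (Fin d) ℝ | ∃ c : ℝ, c ≠ 0 ∧
        ∀ u, FF h (iR (γ.1 *ᵥ gr d u)) = c * v u} =
        {h | FF h (iR (γ.1 *ᵥ gr d u₀)) ≠ 0} ∩ ⋂ u, {h | FF h (iR (γ.1 *ᵥ gr d u)) * v u₀ =
          FF h (iR (γ.1 *ᵥ gr d u₀)) * v u} := by
      ext h
      simp only [Set.mem_inter_iff, Set.mem_iInter, Set.mem_ofPred_eq]
      constructor
      · rintro ⟨c, hc, hcv⟩
        refine ⟨by rw [hcv]; exact mul_ne_zero hc hu₀', fun u => ?_⟩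
        rw [hcv, hcv]; ring
      · rintro ⟨h0, hu⟩
        refine ⟨FF h (iR (γ.1 *ᵥ gr d u₀)) / v u₀, div_ne_zero h0 hu₀', fun u => ?_⟩
        rw [div_mul_eq_mul_div, eq_div_iff hu₀', hu]
    rw [h2]
    refine MeasurableSet.inter ?_ (MeasurableSet.iInter fun u => ?_)
    · exact (isOpen_ne_fun (continuous_FF _) continuous_const).measurableSet
    · exact (isClosed_eq ((continuous_FF _).mul continuous_const)
        ((continuous_FF _).mul continuous_const)).measurableSet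
  · push Not at hv
    have h2 : {h : Matrix (Fin d) (Fin d) ℝ | ∃ c : ℝ, c ≠ 0 ∧
        ∀ u, FF h (iR (γ.1 *ᵥ gr d u)) = c * v u} =
        ⋂ u, {h | FF h (iR (γ.1 *ᵥ gr d u)) = 0} := by
      ext h
      simp only [Set.mem_iInter, Set.mem_ofPred_eq]
      constructor
      · rintro ⟨c, hc, hcv⟩ u
        rw [hcv, hv]; simp
      · intro hu
        exact ⟨1, one_ne_zero, fun u => by rw [hu, hv]; simp⟩
    rw [h2]
    exact MeasurableSet.iInter fun u =>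
      (isClosed_eq (continuous_FF _) continuous_const).measurableSet

/-- the conjecture in dimension `d` -/
def Conj (d : ℕ) : Prop := ∀ g : Matrix (Fin d) (Fin d) ℝ, g.det ≠ 0 →
  (∃ ν, 0 < ν ∧ HasNu g ν) → PropInt g

theorem tfae (hd : 3 ≤ d) : List.TFAE [Conj d,
    ∀ g : Matrix (Fin d) (Fin d) ℝ, g.det ≠ 0 → (∃ ν, 0 < ν ∧ HasNu g ν) →
      ∃ T : Finset (Matrix (Fin d) (Fin d) ℝ), ∀ h, Iso g h → ∃ k ∈ T, Eqv k h,
    ∀ g : Matrix (Fin d) (Fin d) ℝ, g.det ≠ 0 → (∃ ν, 0 < ν ∧ HasNu g ν) →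
      ∃ k : ℕ → Matrix (Fin d) (Fin d) ℝ, ∀ h, Iso g h → ∃ n, EqvS (k n) h,
    ∃ S : ℕ → Set (Matrix (Fin d) (Fin d) ℝ), (∀ n, @MeasurableSet _ (borel _) (S n)) ∧
      (∀ n, ∀ g ∈ S n, ∀ h, EqvS g h → h ∈ S n) ∧
      ∀ g h : Matrix (Fin d) (Fin d) ℝ, g.det ≠ 0 → h.det ≠ 0 → (∃ ν, 0 < ν ∧ HasNu g ν) →
        (∃ ν, 0 < ν ∧ HasNu h ν) → (∀ n, g ∈ S n ↔ h ∈ S n) → EqvS g h] := by
  classical
  have hd0 : 0 < d := by omega
  tfae_have 1 → 2 := by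
    rintro h1 g hg ⟨ν, hν, hnu⟩
    exact finite_iso hd0 hg hν hnu (h1 g hg ⟨ν, hν, hnu⟩)
  tfae_have 2 → 3 := by
    intro h2 g hg hnu
    obtain ⟨T, hT⟩ := h2 g hg hnu
    refine ⟨fun n => T.toList.getD n 0, fun h hh => ?_⟩
    obtain ⟨k, hk, γ, hγ, heq⟩ := hT h hh
    obtain ⟨n, hn, hnk⟩ := List.getElem_of_mem (Finset.mem_toList.2 hk)
    refine ⟨n, 1, γ, one_ne_zero, hγ, fun x => ?_⟩
    show FF h (iR x) = 1 * FF (T.toList.getD n 0) (iR (γ *ᵥ x))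
    rw [List.getD_eq_getElem _ _ hn, hnk, one_mul, heq]
  tfae_have 3 → 1 := by
    rintro h3 g hg ⟨ν, hν, hnu⟩
    by_contra hint
    obtain ⟨M, hMg, hMc, hMne, hMinv, hMmin⟩ := exists_minimal hd0 hν hg hnu
    obtain ⟨h₀, hh₀⟩ := hMne
    have hdet : h₀.det ≠ 0 := by
      intro h0
      have := abs_det_closure (hMg hh₀)
      rw [h0, abs_zero] at this
      exact hg (abs_eq_zero.1 this.symm)
    obtain ⟨k, hk⟩ := h3 h₀ hdet ⟨ν, hν, hasNu_closure hnu (hMg hh₀)⟩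
    obtain ⟨A, hA⟩ := generic hd hg hν hnu hint hMg hMc ⟨h₀, hh₀⟩ hMinv hMmin (fun _ => ∅)
      (fun _ => @MeasurableSet.empty _ (borel _)) (fun _ h hh => absurd hh (Set.notMem_empty h))
    obtain ⟨φ, -, hφ, -⟩ := hA k
    obtain ⟨hh, -, hne⟩ := hφ (fun _ => false)
    obtain ⟨n, hn⟩ := hk _ (iso_of_minimal hMg hMc hMinv hMmin hh₀ hh)
    exact hne n hn
  tfae_have 1 → 4 := by
    intro h1
    obtain ⟨e, he⟩ := exists_surjective_nat ((Fin d → Fin (d + 1)) → ℤ)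
    refine ⟨fun n => Sv (e n), fun n => sv_meas _, fun n g hg h hgh => sv_eqvS hgh hg, ?_⟩
    intro g h hg hh hgν hhν hiff
    obtain ⟨v, hv⟩ := sv_propInt (h1 g hg hgν)
    obtain ⟨n, rfl⟩ := he v
    exact sv_sep hv ((hiff n).1 hv)
  tfae_have 4 → 1 := by
    rintro ⟨S, hS, hSinv, hsep⟩ g hg ⟨ν, hν, hnu⟩
    by_contra hint
    obtain ⟨M, hMg, hMc, hMne, hMinv, hMmin⟩ := exists_minimal hd0 hν hg hnu
    obtain ⟨A, hA⟩ := generic hd hg hν hnu hint hMg hMc hMne hMinv hMmin S hS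
      (fun n => inv_of_eqvS (hSinv n))
    have hdet : ∀ h ∈ M, h.det ≠ 0 := by
      intro h hh h0
      have := abs_det_closure (hMg hh)
      rw [h0, abs_zero] at this
      exact hg (abs_eq_zero.1 this.symm)
    obtain ⟨φ, -, hφ, hφ2⟩ := hA (fun _ => 0)
    obtain ⟨hh, hhA, -⟩ := hφ (fun _ => false)
    obtain ⟨hh', hhA', -⟩ := hφ (fun _ => true)
    exact hφ2 (fun _ => false) (fun _ => true) (fun h => by simpa using congrFun h 0)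
      (hsep _ _ (hdet _ hh) (hdet _ hh') ⟨ν, hν, hasNu_closure hnu (hMg hh)⟩
        ⟨ν, hν, hasNu_closure hnu (hMg hh')⟩ fun n => (hhA n).trans (hhA' n).symm)
  tfae_finish

end Q215.IS
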