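import Mathlib
import Pool.Agent.H137R2.PFR.Basic

set_option autoImplicit false

/-! Shannon entropy of random variables with finitely many values, on a probability space. -/

namespace Pool.Agent.Q215.Ker

open MeasureTheory H137.PFR
open scoped Classical

set_option linter.unusedSectionVars false

section

variable {Ω : Type} [MeasurableSpace Ω] (P : Measure Ω)

/-- a random variable whose level sets are measurable -/
def FV {S : Type} (X : Ω → S) : Prop := ∀ s, MeasurableSet (X ⁻¹' {s})

/-- the law -/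
noncomputable def law {S : Type} (X : Ω → S) (s : S) : ℝ := P.real (X ⁻¹' {s})

/-- the entropy -/
noncomputable def Hm {S : Type} [Fintype S] (X : Ω → S) : ℝ := ent (law P X)

end

section

variable {Ω : Type} [MeasurableSpace Ω] {P : Measure Ω}

theorem FV.preimage {S : Type} [Finite S] {X : Ω → S} (h : FV X) (A : Set S) :
    MeasurableSet (X ⁻¹' A) := by
  have h1 : X ⁻¹' A = ⋃ s ∈ A, X ⁻¹' {s} := by
    ext ω
    simp
  rw [h1]
  exact MeasurableSet.biUnion (Set.to_countable A) fun s _ => h s

theorem FV.comp {S T : Type} [Finite S] {X : Ω → S} (h : FV X) (f : S → T) :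
    FV fun ω => f (X ω) := by
  intro t
  exact h.preimage (f ⁻¹' {t})

theorem FV.prod {S T : Type} {X : Ω → S} {Y : Ω → T} (hX : FV X) (hY : FV Y) :
    FV fun ω => (X ω, Y ω) := by
  rintro ⟨s, t⟩
  have h1 : (fun ω => (X ω, Y ω)) ⁻¹' {(s, t)} = X ⁻¹' {s} ∩ Y ⁻¹' {t} := by
    ext ω
    simp
  rw [h1]
  exact (hX s).inter (hY t)

theorem FV.const {S : Type} (s : S) : FV fun _ : Ω => s := by
  intro t
  exact MeasurableSet.const (s = t)

variable [IsProbabilityMeasure P]

theorem law_nonneg {S : Type} (X : Ω → S) (s : S) : 0 ≤ law P X s := measureReal_nonneg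

theorem real_preimage {S : Type} [Fintype S] {X : Ω → S} (h : FV X) (A : Set S) :
    P.real (X ⁻¹' A) = ∑ s, if s ∈ A then law P X s else 0 := by
  have h1 : X ⁻¹' A = ⋃ s ∈ (Finset.univ.filter fun s => s ∈ A), X ⁻¹' {s} := by
    ext ω
    simp
  rw [h1, measureReal_biUnion_finset]
  · rw [Finset.sum_filter]
    rfl
  · intro s _ t _ hst
    rw [Function.onFun, Set.disjoint_left]
    rintro ω rfl h2
    exact hst h2
  · intro s _
    exact h s

theorem isLaw_law {S : Type} [Fintype S] {X : Ω → S} (h : FV X) : Law (law P X) := by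
  refine ⟨fun s => law_nonneg X s, ?_⟩
  have h1 := real_preimage (P := P) h Set.univ
  simp only [Set.preimage_univ, Set.mem_univ, if_true] at h1
  rw [← h1]
  simp

theorem law_comp {S T : Type} [Fintype S] {X : Ω → S} (h : FV X) (f : S → T) :
    law P (fun ω => f (X ω)) = push (law P X) f := by
  funext t
  have h1 := real_preimage (P := P) h (f ⁻¹' {t})
  exact h1

theorem Hm_comp {S T : Type} [Fintype S] [Fintype T] {X : Ω → S} (h : FV X) (f : S → T) :
    Hm P (fun ω => f (X ω)) = H (law P X) f := by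
  unfold Hm H
  rw [law_comp h]

theorem Hm_submod {S T U : Type} [Fintype S] [Fintype T] [Fintype U] {X : Ω → S} {Y : Ω → T}
    {Z : Ω → U} (hX : FV X) (hY : FV Y) (hZ : FV Z) :
    Hm P (fun ω => (X ω, Y ω, Z ω)) + Hm P Z ≤ Hm P (fun ω => (X ω, Z ω)) +
      Hm P (fun ω => (Y ω, Z ω)) := by
  have h := hX.prod (hY.prod hZ)
  have h1 := Hm_comp (P := P) h (fun p => p)
  have h2 := Hm_comp (P := P) h (fun p => p.2.2)
  have h3 := Hm_comp (P := P) h (fun p => (p.1, p.2.2))
  have h4 := Hm_comp (P := P) h (fun p => (p.2.1, p.2.2))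
  rw [h1, h2, h3, h4]
  exact H_submod (isLaw_law h) (fun p => p.1) (fun p => p.2.1) (fun p => p.2.2)

theorem Hm_nonneg {S : Type} [Fintype S] {X : Ω → S} (hX : FV X) : 0 ≤ Hm P X := by
  have h1 := Hm_comp (P := P) hX (fun p => p)
  rw [h1]
  exact H_nonneg (isLaw_law hX) _

theorem Hm_le {S T : Type} [Fintype S] [Fintype T] {X : Ω → S} (hX : FV X) (f : S → T) :
    Hm P (fun ω => f (X ω)) ≤ Hm P X := by
  rw [Hm_comp hX, Hm_comp (f := fun p => p) hX]
  exact H_comp_le (isLaw_law hX) (fun p => p) f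

theorem Hm_congr {S T : Type} [Fintype S] [Fintype T] {X : Ω → S} {Y : Ω → T} (hX : FV X)
    (hY : FV Y) (f : S → T) (g : T → S) (hf : ∀ ω, f (X ω) = Y ω) (hg : ∀ ω, g (Y ω) = X ω) :
    Hm P X = Hm P Y := by
  apply le_antisymm
  · have h := Hm_le (P := P) hY g
    simp only [hg] at h
    exact h
  · have h := Hm_le (P := P) hX f
    simp only [hf] at h
    exact h

/-- independence in terms of laws -/
theorem Hm_indep {S T : Type} [Fintype S] [Fintype T] {X : Ω → S} {Y : Ω → T} (hX : FV X)
    (hY : FV Y) (h : ∀ s t, law P (fun ω => (X ω, Y ω)) (s, t) = law P X s * law P Y t) :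
    Hm P (fun ω => (X ω, Y ω)) = Hm P X + Hm P Y := by
  have h1 : law P (fun ω => (X ω, Y ω)) = prod (law P X) (law P Y) := by
    funext ⟨s, t⟩
    exact h s t
  have h2 := H_prod (isLaw_law (P := P) hX) (isLaw_law (P := P) hY) (fun s => s) (fun t => t)
  rw [← Hm_comp hX, ← Hm_comp hY] at h2
  rw [← h2]
  show ent _ = ent _
  rw [h1]
  congr 1
  have h3 : (fun p : S × T => (p.1, p.2)) = fun p => p := rfl
  rw [h3]
  funext p
  unfold push
  rw [Finset.sum_eq_single p]
  · rw [if_pos rfl]
  · intro q _ hq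
    rw [if_neg hq]
  · intro h
    exact absurd (Finset.mem_univ p) h

theorem Hm_const {S : Type} [Fintype S] (s : S) : Hm P (fun _ : Ω => s) = 0 := by
  have h : law P (fun _ : Ω => s) = fun t => if t = s then 1 else 0 := by
    funext t
    unfold law
    by_cases hts : t = s
    · rw [if_pos hts, hts]
      simp
    · rw [if_neg hts]
      have : (fun _ : Ω => s) ⁻¹' {t} = ∅ := by
        ext ω
        simp [Ne.symm hts]
      rw [this]
      simp
  unfold Hm ent
  rw [h]
  apply Finset.sum_eq_zero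
  intro t _
  by_cases hts : t = s
  · simp [hts]
  · simp [hts]

/-- measure preserving maps preserve the entropy -/
theorem law_map {S : Type} {T : Ω → Ω} (hT : MeasurePreserving T P P) {X : Ω → S} (hX : FV X) :
    law P (fun ω => X (T ω)) = law P X := by
  funext s
  unfold law
  have h : (fun ω => X (T ω)) ⁻¹' {s} = T ⁻¹' (X ⁻¹' {s}) := rfl
  rw [h, measureReal_def, hT.measure_preimage (hX s).nullMeasurableSet, measureReal_def]

theorem Hm_map {S : Type} [Fintype S] {T : Ω → Ω} (hT : MeasurePreserving T P P) {X : Ω → S}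
    (hX : FV X) : Hm P (fun ω => X (T ω)) = Hm P X := by
  unfold Hm
  rw [law_map hT hX]

end

end Pool.Agent.Q215.Ker
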