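import Mathlib
import Pool.Agent.Q215.KerA

set_option autoImplicit false
set_option linter.unusedSectionVars false

/-! Local functions of independent seeds indexed by an ordered group: the information revealed by
one seed. -/

namespace Pool.Agent.Q215.Ker

open MeasureTheory H137.PFR
open scoped Classical

variable {G : Type} [Group G] {K : Type} [Fintype K] [MeasurableSpace K]
  [MeasurableSingletonClass K]

/-- the random variable depends only on the seeds in `T` -/
def Dep {S : Type} (V : (G → K) → S) (T : Finset G) : Prop :=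
  ∀ x y : G → K, (∀ t ∈ T, x t = y t) → V x = V y

/-- the seeds in `J` -/
def ZZ (J : Finset G) (x : G → K) : J → K := fun j => x j

/-- the shift -/
def sh (g : G) (x : G → K) : G → K := fun h => x (h * g)

theorem sh_sh (g k : G) (x : G → K) : sh g (sh k x) = sh (g * k) x := by
  funext h
  simp [sh, mul_assoc]

theorem measurable_sh (g : G) : Measurable (sh (K := K) g) :=
  measurable_pi_lambda _ fun h => measurable_pi_apply (h * g)

theorem FV_ZZ (J : Finset G) : FV (ZZ (K := K) J) := by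
  intro z
  have h : ZZ (K := K) J ⁻¹' {z} = ⋂ j : J, {x | x j = z j} := by
    ext x
    simp only [Set.mem_preimage, Set.mem_singleton_iff, Set.mem_iInter, Set.mem_ofPred_eq]
    constructor
    · intro h j
      exact congrFun h j
    · intro h
      funext j
      exact h j
  rw [h]
  refine MeasurableSet.iInter fun j => ?_
  have h1 : Measurable fun x : G → K => x j := measurable_pi_apply (j : G)
  exact h1 (measurableSet_singleton (z j))

theorem Dep.mono {S : Type} {V : (G → K) → S} {T T' : Finset G} (h : Dep V T) (hT : T ⊆ T') :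
    Dep V T' := fun x y hxy => h x y fun t ht => hxy t (hT ht)

/-- a variable which depends only on `T` is a function of the seeds in `T` -/
theorem Dep.factor {S : Type} [Nonempty K] {V : (G → K) → S} {T : Finset G} (h : Dep V T) :
    ∃ f : (T → K) → S, ∀ x, f (ZZ T x) = V x := by
  let k0 : K := Classical.arbitrary K
  refine ⟨fun z => V fun g => if hg : g ∈ T then z ⟨g, hg⟩ else k0, fun x => ?_⟩
  apply h
  intro t ht
  simp only [dif_pos ht]
  rfl

theorem Dep.FV {S : Type} [Nonempty K] {V : (G → K) → S} {T : Finset G} (h : Dep V T) : FV V := by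
  obtain ⟨f, hf⟩ := h.factor
  have h1 := (FV_ZZ (K := K) T).comp f
  simp only [hf] at h1
  exact h1

theorem Dep.prod {S S' : Type} {V : (G → K) → S} {V' : (G → K) → S'} {T : Finset G} (h : Dep V T)
    (h' : Dep V' T) : Dep (fun x => (V x, V' x)) T := fun x y hxy =>
  Prod.ext (h x y hxy) (h' x y hxy)

theorem Dep.comp {S S' : Type} {V : (G → K) → S} {T : Finset G} (h : Dep V T) (f : S → S') :
    Dep (fun x => f (V x)) T := fun x y hxy => congrArg f (h x y hxy)

theorem Dep_ZZ {J T : Finset G} (h : J ⊆ T) : Dep (ZZ (K := K) J) T := fun x y hxy => by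
  funext j
  exact hxy j (h j.2)

/-- shifted set -/
noncomputable def shT (T : Finset G) (g : G) : Finset G := T.image fun t => t * g

theorem mem_shT {T : Finset G} {g h : G} : h ∈ shT T g ↔ h * g⁻¹ ∈ T := by
  unfold shT
  rw [Finset.mem_image]
  constructor
  · rintro ⟨t, ht, rfl⟩
    simpa using ht
  · intro h1
    exact ⟨_, h1, by simp⟩

theorem Dep.shift {S : Type} {V : (G → K) → S} {T : Finset G} (h : Dep V T) (g : G) :
    Dep (fun x => V (sh g x)) (shT T g) := fun x y hxy => by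
  apply h
  intro t ht
  apply hxy
  rw [mem_shT]
  simpa using ht

section

variable (κ : Measure K) [IsProbabilityMeasure κ]

/-- the law of the seeds -/
noncomputable abbrev PP : Measure (G → K) := Measure.infinitePi fun _ : G => κ

theorem mp_sh (g : G) : MeasurePreserving (sh (K := K) g) (PP κ) (PP κ) := by
  refine ⟨measurable_sh g, ?_⟩
  exact Measure.map_infinitePi_infinitePi_of_inj (P := fun _ : G => κ)
    (f := fun h : G => h * g) (mul_left_injective g)

/-- independence of the seeds in disjoint sets -/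
theorem law_indep {S S' : Type} [Fintype S] [Fintype S'] [Nonempty K] {V : (G → K) → S}
    {V' : (G → K) → S'} {T T' : Finset G} (hV : Dep V T) (hV' : Dep V' T') (hd : Disjoint T T')
    (s : S) (s' : S') :
    law (PP κ) (fun x => (V x, V' x)) (s, s') = law (PP κ) V s * law (PP κ) V' s' := by
  have h1 : ProbabilityTheory.iIndepFun (fun (i : G) (ω : G → K) => ω i) (PP κ) :=
    ProbabilityTheory.iIndepFun_infinitePi (P := fun _ : G => κ) (X := fun _ ω => ω)
      (fun _ => measurable_id)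
  have h2 := h1.indepFun_finset T T' hd (fun i => measurable_pi_apply i)
  obtain ⟨f, hf⟩ := hV.factor
  obtain ⟨f', hf'⟩ := hV'.factor
  have h3 := h2.measure_inter_preimage_eq_mul (f ⁻¹' {s}) (f' ⁻¹' {s'})
    (Set.toFinite _).measurableSet (Set.toFinite _).measurableSet
  have e1 : (fun x => (V x, V' x)) ⁻¹' {(s, s')} =
      (fun (a : G → K) (i : T) => a i) ⁻¹' (f ⁻¹' {s}) ∩
        (fun (a : G → K) (i : T') => a i) ⁻¹' (f' ⁻¹' {s'}) := by
    ext x
    simp only [Set.mem_preimage, Set.mem_singleton_iff, Set.mem_inter_iff, Prod.mk.injEq]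
    rw [← hf x, ← hf' x]
    exact Iff.rfl
  have e2 : V ⁻¹' {s} = (fun (a : G → K) (i : T) => a i) ⁻¹' (f ⁻¹' {s}) := by
    ext x
    simp only [Set.mem_preimage, Set.mem_singleton_iff]
    rw [← hf x]
    exact Iff.rfl
  have e3 : V' ⁻¹' {s'} = (fun (a : G → K) (i : T') => a i) ⁻¹' (f' ⁻¹' {s'}) := by
    ext x
    simp only [Set.mem_preimage, Set.mem_singleton_iff]
    rw [← hf' x]
    exact Iff.rfl
  unfold law
  rw [e1, e2, e3, measureReal_def, h3, ENNReal.toReal_mul]
  rfl

theorem Hm_indep' {S S' : Type} [Fintype S] [Fintype S'] [Nonempty K] {V : (G → K) → S}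
    {V' : (G → K) → S'} {T T' : Finset G} (hV : Dep V T) (hV' : Dep V' T') (hd : Disjoint T T') :
    Hm (PP κ) (fun x => (V x, V' x)) = Hm (PP κ) V + Hm (PP κ) V' :=
  Hm_indep hV.FV hV'.FV (law_indep κ hV hV' hd)

/-- the conditional entropy given the seeds in `J` -/
noncomputable def Ph {S : Type} [Fintype S] (V : (G → K) → S) (J : Finset G) : ℝ :=
  Hm (PP κ) (fun x => (V x, ZZ J x)) - Hm (PP κ) (ZZ J)

variable [Nonempty K] {S : Type} [Fintype S]

/-- merging the seeds of two sets -/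
theorem Hm_union (V : (G → K) → S) {T : Finset G} (hV : Dep V T) (A B : Finset G) :
    Hm (PP κ) (fun x => (V x, ZZ (A ∪ B) x)) = Hm (PP κ) (fun x => (V x, ZZ A x, ZZ B x)) := by
  apply Hm_congr (hV.FV.prod (FV_ZZ _)) (hV.FV.prod ((FV_ZZ _).prod (FV_ZZ _)))
    (fun p : S × ((A ∪ B : Finset G) → K) =>
      (p.1, (fun a : A => p.2 ⟨a, Finset.mem_union_left _ a.2⟩),
        (fun b : B => p.2 ⟨b, Finset.mem_union_right _ b.2⟩)))
    (fun p : S × (A → K) × (B → K) => (p.1, fun c : (A ∪ B : Finset G) =>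
      if h : (c : G) ∈ A then p.2.1 ⟨c, h⟩ else
        if h' : (c : G) ∈ B then p.2.2 ⟨c, h'⟩ else Classical.arbitrary K))
  · intro x
    rfl
  · intro x
    refine Prod.ext rfl ?_
    funext c
    show (if h : (c : G) ∈ A then x c else if h' : (c : G) ∈ B then x c else _) = x c
    by_cases h : (c : G) ∈ A
    · rw [dif_pos h]
    · rw [dif_neg h]
      have h' : (c : G) ∈ B := (Finset.mem_union.mp c.2).resolve_left h
      rw [dif_pos h']

theorem Hm_unit_left (J : Finset G) :
    Hm (PP κ) (fun x => ((), ZZ (K := K) J x)) = Hm (PP κ) (ZZ (K := K) J) :=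
  Hm_congr ((FV.const ()).prod (FV_ZZ _)) (FV_ZZ _) (fun p => p.2) (fun z => ((), z))
    (fun _ => rfl) (fun _ => rfl)

theorem Hm_union' (A B : Finset G) :
    Hm (PP κ) (ZZ (K := K) (A ∪ B)) = Hm (PP κ) (fun x => (ZZ (K := K) A x, ZZ B x)) := by
  rw [← Hm_unit_left]
  have h := Hm_union κ (fun _ : G → K => ()) (T := ∅) (fun _ _ _ => rfl) A B
  rw [h]
  exact Hm_congr ((FV.const ()).prod ((FV_ZZ _).prod (FV_ZZ _))) ((FV_ZZ _).prod (FV_ZZ _))
    (fun p => p.2) (fun z => ((), z)) (fun _ => rfl) (fun _ => rfl)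

/-- irrelevant seeds do not matter -/
theorem Ph_inter {V : (G → K) → S} {T : Finset G} (hV : Dep V T) (J : Finset G) :
    Ph κ V J = Ph κ V (J ∩ T) := by
  unfold Ph
  have h1 : J = (J ∩ T) ∪ (J \ T) := by
    ext g
    simp only [Finset.mem_union, Finset.mem_inter, Finset.mem_sdiff]
    tauto
  have hd : Disjoint T (J \ T) := Finset.disjoint_sdiff
  have hd' : Disjoint (J ∩ T) (J \ T) := by
    rw [Finset.disjoint_left]
    intro g h1 h2
    exact (Finset.mem_sdiff.mp h2).2 (Finset.mem_inter.mp h1).2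
  have e1 : Hm (PP κ) (fun x => (V x, ZZ J x)) =
      Hm (PP κ) (fun x => (V x, ZZ (J ∩ T) x)) + Hm (PP κ) (ZZ (K := K) (J \ T)) := by
    conv_lhs => rw [h1]
    rw [Hm_union κ V hV]
    rw [← Hm_indep' κ (hV.prod (Dep_ZZ Finset.inter_subset_right)) (Dep_ZZ subset_rfl) hd]
    exact Hm_congr (hV.FV.prod ((FV_ZZ _).prod (FV_ZZ _))) ((hV.FV.prod (FV_ZZ _)).prod (FV_ZZ _))
      (fun p => ((p.1, p.2.1), p.2.2)) (fun p => (p.1.1, p.1.2, p.2)) (fun _ => rfl) (fun _ => rfl)
  have e2 : Hm (PP κ) (ZZ (K := K) J) =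
      Hm (PP κ) (ZZ (K := K) (J ∩ T)) + Hm (PP κ) (ZZ (K := K) (J \ T)) := by
    conv_lhs => rw [h1]
    rw [Hm_union' κ]
    exact Hm_indep' κ (Dep_ZZ subset_rfl) (Dep_ZZ subset_rfl) hd'
  rw [e1, e2]
  ring

/-- strong subadditivity in the form used below -/
theorem Ph_comparison {S' : Type} [Fintype S'] {V : (G → K) → S} {V' : (G → K) → S'} {T : Finset G}
    (hV : Dep V T) (hV' : Dep V' T) {J J' : Finset G} (hJ : J ⊆ J') :
    Ph κ V J - Ph κ V J' ≤ Ph κ (fun x => (V x, V' x)) J - Ph κ (fun x => (V x, V' x)) J' := by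
  have e1 : Hm (PP κ) (fun x => (V x, ZZ J' x)) =
      Hm (PP κ) (fun x => (ZZ J' x, V x, ZZ J x)) := by
    apply Hm_congr (hV.FV.prod (FV_ZZ _)) ((FV_ZZ _).prod (hV.FV.prod (FV_ZZ _)))
      (fun p : S × (J' → K) => (p.2, p.1, fun j : J => p.2 ⟨j, hJ j.2⟩)) (fun p => (p.2.1, p.1))
    · intro x
      rfl
    · intro x
      rfl
  have e2 : Hm (PP κ) (fun x => ((V x, V' x), ZZ J' x)) =
      Hm (PP κ) (fun x => (V' x, ZZ J' x, V x, ZZ J x)) := by
    apply Hm_congr ((hV.FV.prod hV'.FV).prod (FV_ZZ _))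
      (hV'.FV.prod ((FV_ZZ _).prod (hV.FV.prod (FV_ZZ _))))
      (fun p : (S × S') × (J' → K) => (p.1.2, p.2, p.1.1, fun j : J => p.2 ⟨j, hJ j.2⟩))
      (fun p => ((p.2.2.1, p.1), p.2.1))
    · intro x
      rfl
    · intro x
      rfl
  have e3 : Hm (PP κ) (fun x => ((V x, V' x), ZZ J x)) =
      Hm (PP κ) (fun x => (V' x, V x, ZZ J x)) := by
    apply Hm_congr ((hV.FV.prod hV'.FV).prod (FV_ZZ _))
      (hV'.FV.prod (hV.FV.prod (FV_ZZ _)))
      (fun p : (S × S') × (J → K) => (p.1.2, p.1.1, p.2))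
      (fun p => ((p.2.1, p.1), p.2.2))
    · intro x
      rfl
    · intro x
      rfl
  have h := Hm_submod (P := PP κ) hV'.FV (FV_ZZ J') (hV.FV.prod (FV_ZZ J))
  unfold Ph
  rw [e1, e2, e3]
  linarith

theorem Ph_anti {V : (G → K) → S} {T : Finset G} (hV : Dep V T) {J J' : Finset G} (hJ : J ⊆ J') :
    Ph κ V J' ≤ Ph κ V J := by
  have h := Ph_comparison κ (V := fun _ : G → K => ()) (V' := V) (T := T) (fun _ _ _ => rfl) hV hJ
  have e : ∀ J : Finset G, Ph κ (fun _ : G → K => ()) J = 0 := by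
    intro J
    unfold Ph
    rw [Hm_unit_left]
    ring
  have e2 : ∀ J : Finset G, Ph κ (fun x => ((), V x)) J = Ph κ V J := by
    intro J
    unfold Ph
    congr 1
    exact Hm_congr (((FV.const ()).prod hV.FV).prod (FV_ZZ _)) (hV.FV.prod (FV_ZZ _))
      (fun p => (p.1.2, p.2)) (fun p => (((), p.1), p.2)) (fun _ => rfl) (fun _ => rfl)
  rw [e, e, e2, e2] at h
  linarith

theorem Ph_full {V : (G → K) → S} {T : Finset G} (hV : Dep V T) : Ph κ V T = 0 := by
  unfold Ph
  obtain ⟨f, hf⟩ := hV.factor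
  have : Hm (PP κ) (fun x => (V x, ZZ T x)) = Hm (PP κ) (ZZ (K := K) T) := by
    apply Hm_congr (hV.FV.prod (FV_ZZ _)) (FV_ZZ _) (fun p => p.2) (fun z => (f z, z))
    · intro x
      rfl
    · intro x
      show (f (ZZ T x), ZZ T x) = _
      rw [hf]
  rw [this]
  ring

theorem Ph_empty {V : (G → K) → S} {T : Finset G} (hV : Dep V T) : Ph κ V ∅ = Hm (PP κ) V := by
  unfold Ph
  have h1 : ∀ z z' : ((∅ : Finset G) → K), z = z' := by
    intro z z'
    funext j
    exact absurd j.2 (Finset.notMem_empty _)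
  have e1 : Hm (PP κ) (fun x => (V x, ZZ ∅ x)) = Hm (PP κ) V := by
    apply Hm_congr (hV.FV.prod (FV_ZZ _)) hV.FV (fun p => p.1)
      (fun s => (s, fun j => absurd j.2 (Finset.notMem_empty _)))
    · intro x
      rfl
    · intro x
      exact Prod.ext rfl (h1 _ _)
  have e2 : Hm (PP κ) (ZZ (K := K) (∅ : Finset G)) = 0 := by
    have h2 : (ZZ (K := K) (∅ : Finset G)) = fun _ => fun j => absurd j.2 (Finset.notMem_empty _) := by
      funext x
      exact h1 _ _
    rw [h2]
    exact Hm_const _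
  rw [e1, e2, sub_zero]

theorem Ph_shift {V : (G → K) → S} {T : Finset G} (hV : Dep V T) (J : Finset G) (g : G) :
    Ph κ (fun x => V (sh g x)) (shT J g) = Ph κ V J := by
  unfold Ph
  have e : ∀ j : J, (j : G) * g ∈ shT J g := by
    intro j
    rw [mem_shT]
    simp
  have e' : ∀ j : shT J g, (j : G) * g⁻¹ ∈ J := by
    intro j
    exact mem_shT.mp j.2
  have e1 : Hm (PP κ) (fun x => (V (sh g x), ZZ (shT J g) x)) =
      Hm (PP κ) (fun x => (V (sh g x), ZZ J (sh g x))) := by
    apply Hm_congr ((hV.shift g).FV.prod (FV_ZZ _))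
      ((hV.shift g).FV.prod (((Dep_ZZ (K := K) (subset_refl J)).shift g).FV))
      (fun p : S × (shT J g → K) => (p.1, fun j : J => p.2 ⟨j * g, e j⟩))
      (fun p : S × (J → K) => (p.1, fun j : shT J g => p.2 ⟨j * g⁻¹, e' j⟩))
    · intro x
      rfl
    · intro x
      refine Prod.ext rfl ?_
      funext j
      show x (j * g⁻¹ * g) = x j
      rw [inv_mul_cancel_right]
  have e2 : Hm (PP κ) (ZZ (K := K) (shT J g)) = Hm (PP κ) (fun x => ZZ (K := K) J (sh g x)) := by
    apply Hm_congr (FV_ZZ _) (((Dep_ZZ (K := K) (subset_refl J)).shift g).FV)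
      (fun p : (shT J g → K) => (fun j : J => p ⟨j * g, e j⟩))
      (fun p : (J → K) => (fun j : shT J g => p ⟨j * g⁻¹, e' j⟩))
    · intro x
      rfl
    · intro x
      funext j
      show x (j * g⁻¹ * g) = x j
      rw [inv_mul_cancel_right]
  rw [e1, e2]
  congr 1
  · exact Hm_map (mp_sh κ g) (hV.FV.prod (FV_ZZ _))
  · exact Hm_map (mp_sh κ g) (FV_ZZ _)

end

end Pool.Agent.Q215.Ker
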