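import Mathlib
import Pool.Agent.Q215.KerB

set_option autoImplicit false
set_option linter.unusedSectionVars false

/-! The chain rule along an invariant order. -/

namespace Pool.Agent.Q215.Ker

open MeasureTheory H137.PFR
open scoped Classical

/-- strict total orders which are invariant under right multiplication -/
structure Ord {G : Type} [Group G] (lt : G → G → Prop) : Prop where
  irr : ∀ a, ¬ lt a a
  tr : ∀ a b c, lt a b → lt b c → lt a c
  tot : ∀ a b, a ≠ b → lt a b ∨ lt b a
  inv : ∀ a b c, lt a b → lt (a * c) (b * c)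

variable {G : Type} [Group G] {K : Type} [Fintype K] [MeasurableSpace K]
  [MeasurableSingletonClass K] (κ : Measure K) [IsProbabilityMeasure κ] [Nonempty K]
  {S : Type} [Fintype S] (lt : G → G → Prop)

/-- the smaller elements -/
noncomputable def lo (W : Finset G) (u : G) : Finset G := W.filter fun w => lt w u

/-- the smaller or equal elements -/
noncomputable def le (W : Finset G) (u : G) : Finset G := W.filter fun w => lt w u ∨ w = u

theorem mem_lo {W : Finset G} {u g : G} : g ∈ lo lt W u ↔ g ∈ W ∧ lt g u := by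
  unfold lo
  rw [Finset.mem_filter]

theorem mem_le {W : Finset G} {u g : G} : g ∈ le lt W u ↔ g ∈ W ∧ (lt g u ∨ g = u) := by
  unfold le
  rw [Finset.mem_filter]

theorem lo_subset_le (W : Finset G) (u : G) : lo lt W u ⊆ le lt W u := by
  intro g hg
  rw [mem_lo] at hg
  rw [mem_le]
  exact ⟨hg.1, Or.inl hg.2⟩

/-- the information revealed by the seed `u` when the smaller seeds in `W` are known -/
noncomputable def II (V : (G → K) → S) (W : Finset G) (u : G) : ℝ :=
  Ph κ V (lo lt W u) - Ph κ V (le lt W u)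

theorem II_indep {V : (G → K) → S} {T W : Finset G} (hV : Dep V T) (hW : T ⊆ W) (u : G) :
    II κ lt V W u = II κ lt V T u := by
  unfold II
  rw [Ph_inter κ hV (lo lt W u), Ph_inter κ hV (le lt W u)]
  have h1 : lo lt W u ∩ T = lo lt T u := by
    ext g
    simp only [Finset.mem_inter, mem_lo]
    constructor
    · rintro ⟨⟨_, h2⟩, h3⟩
      exact ⟨h3, h2⟩
    · rintro ⟨h2, h3⟩
      exact ⟨⟨hW h2, h3⟩, h2⟩
  have h2 : le lt W u ∩ T = le lt T u := by
    ext g
    simp only [Finset.mem_inter, mem_le]
    constructor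
    · rintro ⟨⟨_, h2⟩, h3⟩
      exact ⟨h3, h2⟩
    · rintro ⟨h2, h3⟩
      exact ⟨⟨hW h2, h3⟩, h2⟩
  rw [h1, h2]

theorem II_zero {V : (G → K) → S} {W : Finset G} {u : G} (hu : u ∉ W) : II κ lt V W u = 0 := by
  unfold II
  have h : lo lt W u = le lt W u := by
    ext g
    simp only [mem_lo, mem_le]
    constructor
    · rintro ⟨h1, h2⟩
      exact ⟨h1, Or.inl h2⟩
    · rintro ⟨h1, h2 | h2⟩
      · exact ⟨h1, h2⟩
      · exact absurd (h2 ▸ h1) hu
  rw [h, sub_self]

theorem II_nonneg {V : (G → K) → S} {T : Finset G} (hV : Dep V T) (W : Finset G) (u : G) :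
    0 ≤ II κ lt V W u := by
  unfold II
  have h := Ph_anti κ hV (lo_subset_le lt W u)
  linarith

theorem exists_max {lt : G → G → Prop} (h : Ord lt) : ∀ W : Finset G, W.Nonempty →
    ∃ a ∈ W, ∀ w ∈ W, w ≠ a → lt w a := by
  intro W
  induction W using Finset.induction_on with
  | empty => intro h; exact absurd h Finset.not_nonempty_empty
  | insert b s hb ih =>
    intro _
    rcases s.eq_empty_or_nonempty with rfl | hs
    · exact ⟨b, by simp, by simp⟩
    · obtain ⟨a, ha, ha'⟩ := ih hs
      have hne : a ≠ b := fun e => hb (e ▸ ha)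
      rcases h.tot a b hne with h1 | h1
      · refine ⟨b, Finset.mem_insert_self _ _, ?_⟩
        intro w hw hwb
        rcases Finset.mem_insert.mp hw with rfl | hw
        · exact absurd rfl hwb
        · by_cases hwa : w = a
          · rw [hwa]
            exact h1
          · exact h.tr _ _ _ (ha' w hw hwa) h1
      · refine ⟨a, Finset.mem_insert_of_mem ha, ?_⟩
        intro w hw hwa
        rcases Finset.mem_insert.mp hw with rfl | hw
        · exact h1
        · exact ha' w hw hwa

/-- telescoping -/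
theorem tele {lt : G → G → Prop} (h : Ord lt) (Φ : Finset G → ℝ) : ∀ (n : ℕ) (W : Finset G),
    W.card = n → ∑ u ∈ W, (Φ (lo lt W u) - Φ (le lt W u)) = Φ ∅ - Φ W := by
  intro n
  induction n with
  | zero =>
    intro W hW
    rw [Finset.card_eq_zero] at hW
    rw [hW]
    simp
  | succ n ih =>
    intro W hW
    have hne : W.Nonempty := by
      rw [← Finset.card_pos]
      omega
    obtain ⟨a, ha, ha'⟩ := exists_max h W hne
    have hcard : (W.erase a).card = n := by
      rw [Finset.card_erase_of_mem ha]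
      omega
    rw [← Finset.add_sum_erase W _ ha]
    have h1 : lo lt W a = W.erase a := by
      ext g
      rw [mem_lo, Finset.mem_erase]
      constructor
      · rintro ⟨h2, h3⟩
        refine ⟨?_, h2⟩
        rintro rfl
        exact h.irr _ h3
      · rintro ⟨h2, h3⟩
        exact ⟨h3, ha' g h3 h2⟩
    have h2 : le lt W a = W := by
      ext g
      rw [mem_le]
      constructor
      · exact fun h => h.1
      · intro hg
        refine ⟨hg, ?_⟩
        by_cases hga : g = a
        · exact Or.inr hga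
        · exact Or.inl (ha' g hg hga)
    have h3 : ∑ u ∈ W.erase a, (Φ (lo lt W u) - Φ (le lt W u)) =
        ∑ u ∈ W.erase a, (Φ (lo lt (W.erase a) u) - Φ (le lt (W.erase a) u)) := by
      apply Finset.sum_congr rfl
      intro u hu
      rw [Finset.mem_erase] at hu
      have hlt := ha' u hu.2 hu.1
      have h4 : lo lt W u = lo lt (W.erase a) u := by
        ext g
        rw [mem_lo, mem_lo, Finset.mem_erase]
        constructor
        · rintro ⟨h5, h6⟩
          refine ⟨⟨?_, h5⟩, h6⟩
          rintro rfl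
          exact h.irr _ (h.tr _ _ _ h6 hlt)
        · rintro ⟨⟨_, h5⟩, h6⟩
          exact ⟨h5, h6⟩
      have h5 : le lt W u = le lt (W.erase a) u := by
        ext g
        rw [mem_le, mem_le, Finset.mem_erase]
        constructor
        · rintro ⟨h5, h6⟩
          refine ⟨⟨?_, h5⟩, h6⟩
          rintro rfl
          rcases h6 with h6 | h6
          · exact h.irr _ (h.tr _ _ _ h6 hlt)
          · exact hu.1 h6.symm
        · rintro ⟨⟨_, h5⟩, h6⟩
          exact ⟨h5, h6⟩
      rw [h4, h5]
    rw [h3, ih _ hcard, h1, h2]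
    ring

theorem sum_II {lt : G → G → Prop} (h : Ord lt) {V : (G → K) → S} {T : Finset G} (hV : Dep V T) :
    ∑ u ∈ T, II κ lt V T u = Hm (PP κ) V := by
  have h1 : ∑ u ∈ T, II κ lt V T u = Ph κ V ∅ - Ph κ V T := tele h (fun J => Ph κ V J) _ T rfl
  rw [h1, Ph_full κ hV, Ph_empty κ hV, sub_zero]

theorem II_comparison {S' : Type} [Fintype S'] {V : (G → K) → S} {V' : (G → K) → S'}
    {T : Finset G} (hV : Dep V T) (hV' : Dep V' T) (W : Finset G) (u : G) :
    II κ lt V W u ≤ II κ lt (fun x => (V x, V' x)) W u :=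
  Ph_comparison κ hV hV' (lo_subset_le lt W u)

theorem II_comparison' {S' : Type} [Fintype S'] {V : (G → K) → S} {V' : (G → K) → S'}
    {T : Finset G} (hV : Dep V T) (hV' : Dep V' T) (W : Finset G) (u : G) :
    II κ lt V' W u ≤ II κ lt (fun x => (V x, V' x)) W u := by
  have h := II_comparison κ lt hV' hV W u
  have h1 : ∀ J, Ph κ (fun x => (V' x, V x)) J = Ph κ (fun x => (V x, V' x)) J := by
    intro J
    unfold Ph
    congr 1
    exact Hm_congr ((hV'.FV.prod hV.FV).prod (FV_ZZ _)) ((hV.FV.prod hV'.FV).prod (FV_ZZ _))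
      (fun p => ((p.1.2, p.1.1), p.2)) (fun p => ((p.1.2, p.1.1), p.2)) (fun _ => rfl)
      (fun _ => rfl)
  have h2 : II κ lt (fun x => (V' x, V x)) W u = II κ lt (fun x => (V x, V' x)) W u := by
    unfold II
    rw [h1, h1]
  rw [← h2]
  exact h

variable {lt}

theorem Ord.shift (ho : Ord lt) (a b c : G) : lt (a * c) (b * c) ↔ lt a b := by
  constructor
  · intro h
    have h1 := ho.inv _ _ c⁻¹ h
    simpa using h1
  · exact ho.inv a b c

theorem II_shift (ho : Ord lt) {V : (G → K) → S} {T : Finset G} (hV : Dep V T) (W : Finset G)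
    (u g : G) : II κ lt (fun x => V (sh g x)) (shT W g) (u * g) = II κ lt V W u := by
  unfold II
  have h1 : lo lt (shT W g) (u * g) = shT (lo lt W u) g := by
    ext h
    rw [mem_shT, mem_lo, mem_lo, mem_shT, ← ho.shift (h * g⁻¹) u g, inv_mul_cancel_right]
  have h2 : le lt (shT W g) (u * g) = shT (le lt W u) g := by
    ext h
    rw [mem_shT, mem_le, mem_le, mem_shT, ← ho.shift (h * g⁻¹) u g, inv_mul_cancel_right,
      mul_inv_eq_iff_eq_mul]
  rw [h1, h2, Ph_shift κ hV, Ph_shift κ hV]

variable (lt)

/-- the information which the seed at the identity reveals about the variable at `g` -/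
noncomputable def mm (κ : Measure K) (V : (G → K) → S) (T : Finset G) (g : G) : ℝ :=
  II κ lt (fun x => V (sh g x)) (shT T g) 1

theorem mm_zero {V : (G → K) → S} {T : Finset G} {g : G} (hg : g⁻¹ ∉ T) : mm lt κ V T g = 0 := by
  apply II_zero
  rw [mem_shT, one_mul]
  exact hg

theorem mm_nonneg {V : (G → K) → S} {T : Finset G} (hV : Dep V T) (g : G) : 0 ≤ mm lt κ V T g :=
  II_nonneg κ lt (hV.shift g) _ _

variable {lt}

/-- the sum over all places is the entropy -/
theorem sum_mm (ho : Ord lt) {V : (G → K) → S} {T : Finset G} (hV : Dep V T) {D : Finset G}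
    (hD : ∀ t ∈ T, t⁻¹ ∈ D) : ∑ g ∈ D, mm lt κ V T g = Hm (PP κ) V := by
  rw [← sum_II κ ho hV]
  have h1 : ∑ g ∈ D, mm lt κ V T g = ∑ g ∈ T.image (fun t => t⁻¹), mm lt κ V T g := by
    symm
    apply Finset.sum_subset
    · intro g hg
      obtain ⟨t, ht, rfl⟩ := Finset.mem_image.mp hg
      exact hD t ht
    · intro g _ hg
      apply mm_zero
      intro h
      exact hg (Finset.mem_image.mpr ⟨g⁻¹, h, by simp⟩)
  rw [h1, Finset.sum_image (fun a _ b _ h => inv_injective h)]
  apply Finset.sum_congr rfl
  intro u _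
  have h2 := II_shift κ ho hV T u u⁻¹
  rw [mul_inv_cancel] at h2
  exact h2

/-- an edge reveals at least as much as its two ends -/
theorem mm_edge {V : (G → K) → S} {T : Finset G} (hV : Dep V T) (a g : G) {T' : Finset G}
    (hT1 : T ⊆ T') (hT2 : shT T a ⊆ T') :
    max (mm lt κ V T g) (mm lt κ V T (a * g)) ≤ mm lt κ (fun x => (V x, V (sh a x))) T' g := by
  have d1 : Dep (fun x => V (sh g x)) (shT T' g) := (hV.mono hT1).shift g
  have d2 : Dep (fun x => V (sh a (sh g x))) (shT T' g) := ((hV.shift a).mono hT2).shift g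
  have e1 : mm lt κ V T g = II κ lt (fun x => V (sh g x)) (shT T' g) 1 := by
    unfold mm
    rw [II_indep κ lt (hV.shift g) (W := shT T' g)]
    intro h hh
    rw [mem_shT] at hh ⊢
    exact hT1 hh
  have e2 : mm lt κ V T (a * g) = II κ lt (fun x => V (sh a (sh g x))) (shT T' g) 1 := by
    unfold mm
    have e3 : (fun x : G → K => V (sh a (sh g x))) = fun x => V (sh (a * g) x) := by
      funext x
      rw [sh_sh]
    rw [e3, II_indep κ lt (hV.shift (a * g)) (W := shT T' g)]
    intro h hh
    rw [mem_shT] at hh ⊢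
    apply hT2
    rw [mem_shT]
    simpa [mul_assoc] using hh
  apply max_le
  · rw [e1]
    exact II_comparison κ lt d1 d2 _ _
  · rw [e2]
    exact II_comparison' κ lt d1 d2 _ _

end Pool.Agent.Q215.Ker
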