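import Mathlib
import Pool.Agent.Q215.KerC
import Pool.Agent.Q182.BOOrder

set_option autoImplicit false
set_option linter.unusedSectionVars false

/-! The edge-vertex entropy inequality for local functions of independent seeds on a free group. -/

namespace Pool.Agent.Q215.Ker

open MeasureTheory H137.PFR
open scoped Classical

/-- an invariant order on the free group (Magnus) -/
theorem exists_ord (ι : Type) : ∃ lt : FreeGroup ι → FreeGroup ι → Prop, Ord lt := by
  obtain ⟨pos, h0, htot, hadd⟩ := Q182.BO.exists_pos (FreeMonoid ι)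
  refine ⟨fun g h => Q182.BO.Pos pos (h * g⁻¹), ?_, ?_, ?_, ?_⟩
  · intro a h
    rw [mul_inv_cancel] at h
    exact Q182.BO.Pos.one h0 h
  · intro a b c h1 h2
    have h3 := Q182.BO.Pos.mul h0 hadd h2 h1
    have e : c * b⁻¹ * (b * a⁻¹) = c * a⁻¹ := by group
    rwa [e] at h3
  · intro a b hab
    have hne : b * a⁻¹ ≠ 1 := by
      intro h
      exact hab (mul_inv_eq_one.mp h).symm
    rcases Q182.BO.Pos.total htot hne with h | h
    · exact Or.inl h
    · right
      have e : (b * a⁻¹)⁻¹ = a * b⁻¹ := by group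
      rwa [e] at h
  · intro a b c h
    have e : b * c * (a * c)⁻¹ = b * a⁻¹ := by group
    show Q182.BO.Pos pos (b * c * (a * c)⁻¹)
    rwa [e]

variable {ι : Type}

/-- multiplying by a letter -/
theorem step (i : ι) (g : FreeGroup ι) :
    (FreeGroup.of i * g).toWord = (i, true) :: g.toWord ∨
      g.toWord = (i, false) :: (FreeGroup.of i * g).toWord := by
  have h1 : FreeGroup.of i * g = FreeGroup.mk ((i, true) :: g.toWord) := by
    conv_lhs => rw [← FreeGroup.mk_toWord (x := g)]
    rw [FreeGroup.of, FreeGroup.mul_mk]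
    rfl
  have h2 : (FreeGroup.of i * g).toWord = FreeGroup.reduce ((i, true) :: g.toWord) := by
    rw [h1, FreeGroup.toWord_mk]
  rw [h2, FreeGroup.reduce.cons, FreeGroup.reduce_toWord]
  cases hw : g.toWord with
  | nil => exact Or.inl rfl
  | cons hd tl =>
    by_cases hc : i = hd.1 ∧ true = !hd.2
    · right
      show _ = _ :: (if (i = hd.1 ∧ true = !hd.2) then tl else (i, true) :: hd :: tl)
      rw [if_pos hc]
      have : hd = (i, false) := by
        apply Prod.ext
        · exact hc.1.symm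
        · have := hc.2
          cases h : hd.2
          · rfl
          · rw [h] at this
            simp at this
      rw [this]
    · left
      show (if (i = hd.1 ∧ true = !hd.2) then tl else (i, true) :: hd :: tl) = _
      rw [if_neg hc]

/-- the end of an edge farther from the identity -/
noncomputable def far (p : ι × FreeGroup ι) : FreeGroup ι :=
  if (FreeGroup.of p.1 * p.2).toWord = (p.1, true) :: p.2.toWord then FreeGroup.of p.1 * p.2
  else p.2

theorem far_injective : Function.Injective (far (ι := ι)) := by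
  rintro ⟨i, g⟩ ⟨j, h⟩ hfar
  unfold far at hfar
  simp only at hfar
  by_cases hi : (FreeGroup.of i * g).toWord = (i, true) :: g.toWord
  · rw [if_pos hi] at hfar
    by_cases hj : (FreeGroup.of j * h).toWord = (j, true) :: h.toWord
    · rw [if_pos hj] at hfar
      rw [hfar, hj] at hi
      rw [List.cons.injEq, Prod.mk.injEq] at hi
      obtain ⟨⟨rfl, -⟩, h2⟩ := hi
      have := FreeGroup.toWord_injective h2
      rw [this]
    · rw [if_neg hj] at hfar
      have hj' := (step j h).resolve_left hj
      rw [hfar, hj', List.cons.injEq, Prod.mk.injEq] at hi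
      exact absurd hi.1.2 (by simp)
  · rw [if_neg hi] at hfar
    have hi' := (step i g).resolve_left hi
    by_cases hj : (FreeGroup.of j * h).toWord = (j, true) :: h.toWord
    · rw [if_pos hj] at hfar
      rw [hfar, hj, List.cons.injEq, Prod.mk.injEq] at hi'
      exact absurd hi'.1.2 (by simp)
    · rw [if_neg hj] at hfar
      have hj' := (step j h).resolve_left hj
      have e := hfar
      rw [hfar, hj', List.cons.injEq, Prod.mk.injEq] at hi'
      obtain ⟨⟨rfl, -⟩, -⟩ := hi'
      rw [e]

theorem min_le_far {m : FreeGroup ι → ℝ} (p : ι × FreeGroup ι) :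
    min (m p.2) (m (FreeGroup.of p.1 * p.2)) ≤ m (far p) := by
  unfold far
  split_ifs
  · exact min_le_right _ _
  · exact min_le_left _ _

variable [Fintype ι] {K : Type} [Fintype K] [MeasurableSpace K]
  [MeasurableSingletonClass K] (κ : Measure K) [IsProbabilityMeasure κ] [Nonempty K]
  {S : Type} [Fintype S]

/-- the edge-vertex inequality -/
theorem edge_vertex {V : (FreeGroup ι → K) → S} {T : Finset (FreeGroup ι)} (hV : Dep V T) :
    (2 * (Fintype.card ι : ℝ) - 1) * Hm (PP κ) V ≤
      ∑ i : ι, Hm (PP κ) (fun x => (V x, V (sh (FreeGroup.of i) x))) := by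
  obtain ⟨lt, ho⟩ := exists_ord ι
  let T' : ι → Finset (FreeGroup ι) := fun i => T ∪ shT T (FreeGroup.of i)
  let TT : Finset (FreeGroup ι) := T ∪ Finset.univ.biUnion T'
  let D : Finset (FreeGroup ι) := TT.image fun t => t⁻¹
  have hD1 : ∀ t ∈ T, t⁻¹ ∈ D := fun t ht =>
    Finset.mem_image.mpr ⟨t, Finset.mem_union_left _ ht, rfl⟩
  have hD2 : ∀ i, ∀ t ∈ T' i, t⁻¹ ∈ D := fun i t ht =>
    Finset.mem_image.mpr ⟨t, Finset.mem_union_right _
      (Finset.mem_biUnion.mpr ⟨i, Finset.mem_univ _, ht⟩), rfl⟩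
  have hm0 := mm_nonneg (κ := κ) lt hV
  have hz : ∀ g, g⁻¹ ∉ T → mm lt κ V T g = 0 := fun g hg => mm_zero κ lt hg
  have s1 : ∑ g ∈ D, mm lt κ V T g = Hm (PP κ) V := sum_mm κ ho hV hD1
  have s2 : ∀ i, ∑ g ∈ D, mm lt κ V T (FreeGroup.of i * g) = Hm (PP κ) V := by
    intro i
    rw [← Finset.sum_image (s := D) (g := fun g => FreeGroup.of i * g)
      (f := fun g => mm lt κ V T g) (fun a _ b _ h => mul_left_cancel h)]
    apply sum_mm κ ho hV
    intro t ht
    refine Finset.mem_image.mpr ⟨(FreeGroup.of i)⁻¹ * t⁻¹, ?_, by group⟩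
    have h1 := hD2 i (t * FreeGroup.of i) (Finset.mem_union_right _ (by
      rw [mem_shT]
      simpa using ht))
    have e : (t * FreeGroup.of i)⁻¹ = (FreeGroup.of i)⁻¹ * t⁻¹ := by group
    rwa [e] at h1
  have s3 : ∀ i, ∑ g ∈ D, mm lt κ (fun x => (V x, V (sh (FreeGroup.of i) x))) (T' i) g =
      Hm (PP κ) (fun x => (V x, V (sh (FreeGroup.of i) x))) := by
    intro i
    apply sum_mm κ ho
    · exact (hV.mono Finset.subset_union_left).prod
        ((hV.shift (FreeGroup.of i)).mono Finset.subset_union_right)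
    · exact hD2 i
  have s4 : ∀ i, ∑ g ∈ D, (mm lt κ V T g + mm lt κ V T (FreeGroup.of i * g) -
      min (mm lt κ V T g) (mm lt κ V T (FreeGroup.of i * g))) ≤
      Hm (PP κ) (fun x => (V x, V (sh (FreeGroup.of i) x))) := by
    intro i
    rw [← s3 i]
    apply Finset.sum_le_sum
    intro g _
    have h1 := mm_edge κ (lt := lt) hV (FreeGroup.of i) g (T' := T' i)
      Finset.subset_union_left Finset.subset_union_right
    have h2 := min_add_max (mm lt κ V T g) (mm lt κ V T (FreeGroup.of i * g))
    linarith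
  have s5 : ∑ i : ι, ∑ g ∈ D, min (mm lt κ V T g) (mm lt κ V T (FreeGroup.of i * g)) ≤
      Hm (PP κ) V := by
    rw [← Finset.sum_product' Finset.univ D
      (fun i g => min (mm lt κ V T g) (mm lt κ V T (FreeGroup.of i * g)))]
    calc ∑ p ∈ Finset.univ ×ˢ D, min (mm lt κ V T p.2) (mm lt κ V T (FreeGroup.of p.1 * p.2))
        ≤ ∑ p ∈ Finset.univ ×ˢ D, mm lt κ V T (far p) :=
          Finset.sum_le_sum fun p _ => min_le_far p
      _ = ∑ v ∈ (Finset.univ ×ˢ D).image far, mm lt κ V T v := by
          rw [Finset.sum_image (fun a _ b _ h => far_injective h)]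
      _ ≤ ∑ v ∈ (Finset.univ ×ˢ D).image far ∪ D, mm lt κ V T v :=
          Finset.sum_le_sum_of_subset_of_nonneg Finset.subset_union_left fun v _ _ => hm0 v
      _ = Hm (PP κ) V := sum_mm κ ho hV fun t ht => Finset.mem_union_right _ (hD1 t ht)
  have s6 : ∑ i : ι, ∑ g ∈ D, (mm lt κ V T g + mm lt κ V T (FreeGroup.of i * g) -
      min (mm lt κ V T g) (mm lt κ V T (FreeGroup.of i * g))) ≤
      ∑ i : ι, Hm (PP κ) (fun x => (V x, V (sh (FreeGroup.of i) x))) :=
    Finset.sum_le_sum fun i _ => s4 i
  have s7 : ∑ i : ι, ∑ g ∈ D, (mm lt κ V T g + mm lt κ V T (FreeGroup.of i * g) -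
      min (mm lt κ V T g) (mm lt κ V T (FreeGroup.of i * g))) =
      2 * (Fintype.card ι : ℝ) * Hm (PP κ) V -
      ∑ i : ι, ∑ g ∈ D, min (mm lt κ V T g) (mm lt κ V T (FreeGroup.of i * g)) := by
    simp only [Finset.sum_sub_distrib, Finset.sum_add_distrib, s1, s2, Finset.sum_const,
      Finset.card_univ, nsmul_eq_mul]
    ring
  rw [s7] at s6
  linarith

end Pool.Agent.Q215.Ker
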