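import Mathlib
import Pool.Agent.Q215.KerD

set_option autoImplicit false
set_option linter.unusedSectionVars false

/-! Out-stars: the entropy of the out-star is at least the sum of the entropies of the leaves. -/

namespace Pool.Agent.Q215.Ker

open MeasureTheory H137.PFR
open scoped Classical

section star

variable {ι : Type} [Fintype ι] {K : Type} [Fintype K] [MeasurableSpace K]
  [MeasurableSingletonClass K] (κ : Measure K) [IsProbabilityMeasure κ] [Nonempty K]
  {S : Type} [Fintype S]

/-- the out-star of a variable -/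
def star (f : (FreeGroup ι → K) → S) (x : FreeGroup ι → K) : S × (ι → S) :=
  (f x, fun i => f (sh (FreeGroup.of i) x))

theorem Dep_star {f : (FreeGroup ι → K) → S} {T : Finset (FreeGroup ι)} (hf : Dep f T) :
    Dep (star f) (T ∪ Finset.univ.biUnion fun i => shT T (FreeGroup.of i)) := by
  intro x y hxy
  refine Prod.ext ?_ ?_
  · exact hf x y fun t ht => hxy t (Finset.mem_union_left _ ht)
  · funext i
    exact (hf.shift (FreeGroup.of i)) x y fun t ht => hxy t (Finset.mem_union_right _
      (Finset.mem_biUnion.mpr ⟨i, Finset.mem_univ _, ht⟩))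

theorem star_ge {f : (FreeGroup ι → K) → S} {T : Finset (FreeGroup ι)} (hf : Dep f T) :
    (Fintype.card ι : ℝ) * Hm (PP κ) f ≤ Hm (PP κ) (star f) := by
  have hd := Dep_star hf
  have h1 := edge_vertex κ hd
  have h2 : ∀ i : ι, Hm (PP κ) (fun x => (star f x, star f (sh (FreeGroup.of i) x))) ≤
      2 * Hm (PP κ) (star f) - Hm (PP κ) f := by
    intro i
    have fY := hd.FV
    have fY' := (hd.shift (FreeGroup.of i)).FV
    have fZ := (hf.shift (FreeGroup.of i)).FV
    have h3 := Hm_submod (P := PP κ) fY fY' fZ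
    have e1 : Hm (PP κ) (fun x => (star f x, star f (sh (FreeGroup.of i) x),
        f (sh (FreeGroup.of i) x))) =
        Hm (PP κ) (fun x => (star f x, star f (sh (FreeGroup.of i) x))) :=
      Hm_congr (fY.prod (fY'.prod fZ)) (fY.prod fY') (fun p => (p.1, p.2.1))
        (fun p => (p.1, p.2, p.1.2 i)) (fun _ => rfl) (fun _ => rfl)
    have e2 : Hm (PP κ) (fun x => (star f x, f (sh (FreeGroup.of i) x))) = Hm (PP κ) (star f) :=
      Hm_congr (fY.prod fZ) fY (fun p => p.1) (fun p => (p, p.2 i)) (fun _ => rfl) (fun _ => rfl)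
    have e3 : Hm (PP κ) (fun x => (star f (sh (FreeGroup.of i) x), f (sh (FreeGroup.of i) x))) =
        Hm (PP κ) (star f) := by
      rw [← Hm_map (mp_sh κ (FreeGroup.of i)) fY]
      exact Hm_congr (fY'.prod fZ) fY' (fun p => p.1) (fun p => (p, p.1)) (fun _ => rfl)
        (fun _ => rfl)
    have e4 : Hm (PP κ) (fun x => f (sh (FreeGroup.of i) x)) = Hm (PP κ) f :=
      Hm_map (mp_sh κ (FreeGroup.of i)) hf.FV
    rw [e1, e2, e3, e4] at h3
    linarith
  have h3 : ∑ i : ι, Hm (PP κ) (fun x => (star f x, star f (sh (FreeGroup.of i) x))) ≤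
      ∑ _i : ι, (2 * Hm (PP κ) (star f) - Hm (PP κ) f) := Finset.sum_le_sum fun i _ => h2 i
  rw [Finset.sum_const, Finset.card_univ, nsmul_eq_mul] at h3
  nlinarith

end star

section gibbs

theorem gibbs_term {a b : ℝ} (ha : 0 ≤ a) (hb : 0 ≤ b) (hab : b = 0 → a = 0) :
    0 ≤ -Real.negMulLog a - a * Real.log b - a + b := by
  rcases ha.eq_or_lt with rfl | ha
  · simpa using hb
  · have hb' : 0 < b := by
      rcases hb.eq_or_lt with h | h
      · exact absurd (hab h.symm) ha.ne'
      · exact h
    have h := Real.log_le_sub_one_of_pos (div_pos hb' ha)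
    rw [Real.log_div hb'.ne' ha.ne'] at h
    have h2 := mul_le_mul_of_nonneg_left h ha.le
    have h3 : a * (b / a - 1) = b - a := by
      field_simp
    unfold Real.negMulLog
    nlinarith

theorem gibbs_eq {a b : ℝ} (ha : 0 ≤ a) (hb : 0 ≤ b) (hab : b = 0 → a = 0)
    (h : -Real.negMulLog a - a * Real.log b - a + b = 0) : a = b := by
  by_contra hne
  rcases ha.eq_or_lt with rfl | ha
  · apply hne
    simpa using h.symm
  · have hb' : 0 < b := by
      rcases hb.eq_or_lt with h | h
      · exact absurd (hab h.symm) ha.ne'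
      · exact h
    have hne' : b / a ≠ 1 := by
      intro h1
      rw [div_eq_one_iff_eq ha.ne'] at h1
      exact hne h1.symm
    have h1 := Real.log_lt_sub_one_of_pos (div_pos hb' ha) hne'
    rw [Real.log_div hb'.ne' ha.ne'] at h1
    have h2 := mul_lt_mul_of_pos_left h1 ha
    have h3 : a * (b / a - 1) = b - a := by
      field_simp
    unfold Real.negMulLog at h
    nlinarith

variable {ι : Type} [Fintype ι] {S : Type} [Fintype S]

theorem push_nonneg {Ω α : Type} [Fintype Ω] {w : Ω → ℝ} (hw : ∀ x, 0 ≤ w x) (X : Ω → α) (a : α) :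
    0 ≤ push w X a := by
  unfold push
  apply Finset.sum_nonneg
  intro ω _
  split_ifs
  · exact hw ω
  · exact le_rfl

theorem le_push {Ω α : Type} [Fintype Ω] {w : Ω → ℝ} (hw : ∀ x, 0 ≤ w x) (X : Ω → α) (ω : Ω) :
    w ω ≤ push w X (X ω) := by
  unfold push
  have h := Finset.single_le_sum (f := fun ω' => if X ω' = X ω then w ω' else 0)
    (s := Finset.univ) (fun ω' _ => by
      split_ifs
      · exact hw ω'
      · exact le_rfl) (Finset.mem_univ ω)
  simpa using h

/-- the expectation of a function of a random variable -/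
theorem sum_push {Ω α : Type} [Fintype Ω] [Fintype α] (w : Ω → ℝ) (X : Ω → α) (g : α → ℝ) :
    ∑ ω, w ω * g (X ω) = ∑ a, push w X a * g a := by
  unfold push
  simp only [Finset.sum_mul]
  rw [Finset.sum_comm]
  apply Finset.sum_congr rfl
  intro ω _
  rw [Finset.sum_eq_single (X ω)]
  · rw [if_pos rfl]
  · intro b _ hb
    rw [if_neg (Ne.symm hb), zero_mul]
  · intro h
    exact absurd (Finset.mem_univ _) h

/-- equality in the subadditivity of the entropy: independence -/
theorem indep_of_ent {ρ : (ι → S) → ℝ} (hρ : Law ρ) {q : S → ℝ} (hq : Law q)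
    (hm : ∀ i, push ρ (fun z => z i) = q) (hent : (Fintype.card ι : ℝ) * ent q ≤ ent ρ)
    (z : ι → S) : ρ z = ∏ i, q (z i) := by
  have hπ0 : ∀ z : ι → S, 0 ≤ ∏ i, q (z i) := fun z => Finset.prod_nonneg fun i _ => hq.1 _
  have hzero : ∀ z : ι → S, ∏ i, q (z i) = 0 → ρ z = 0 := by
    intro z hz
    obtain ⟨i, _, hi⟩ := Finset.prod_eq_zero_iff.mp hz
    have h1 := le_push hρ.1 (fun z : ι → S => z i) z
    rw [hm i] at h1
    exact le_antisymm (h1.trans hi.le) (hρ.1 z)
  have hlog : ∀ z : ι → S, ρ z * Real.log (∏ i, q (z i)) = ∑ i, ρ z * Real.log (q (z i)) := by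
    intro z
    by_cases hz : ∏ i, q (z i) = 0
    · rw [hzero z hz]
      simp
    · rw [Real.log_prod (fun i _ => fun h => hz (Finset.prod_eq_zero (Finset.mem_univ i) h)),
        Finset.mul_sum]
  have hsum : ∑ z : ι → S, ρ z * Real.log (∏ i, q (z i)) = -((Fintype.card ι : ℝ) * ent q) := by
    simp only [hlog]
    rw [Finset.sum_comm]
    have h1 : ∀ i : ι, ∑ z : ι → S, ρ z * Real.log (q (z i)) = - ent q := by
      intro i
      rw [sum_push ρ (fun z => z i) (fun s => Real.log (q s)), hm i]
      unfold ent Real.negMulLog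
      rw [← Finset.sum_neg_distrib]
      apply Finset.sum_congr rfl
      intro s _
      ring
    simp only [h1, Finset.sum_const, Finset.card_univ, nsmul_eq_mul]
    ring
  have hprod : ∑ z : ι → S, ∏ i, q (z i) = 1 := by
    have h1 : ∏ _i : ι, ∑ s : S, q s = ∑ z : ι → S, ∏ i, q (z i) := Finset.prod_univ_sum _ _
      |>.trans (by simp)
    rw [← h1, hq.2]
    simp
  have htot : ∑ z : ι → S, (-Real.negMulLog (ρ z) - ρ z * Real.log (∏ i, q (z i)) - ρ z +
      ∏ i, q (z i)) ≤ 0 := by
    rw [Finset.sum_add_distrib, Finset.sum_sub_distrib, Finset.sum_sub_distrib,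
      Finset.sum_neg_distrib, hsum, hprod, hρ.2]
    have : ent ρ = ∑ z, Real.negMulLog (ρ z) := rfl
    rw [← this]
    linarith
  have hall : ∀ z ∈ (Finset.univ : Finset (ι → S)), -Real.negMulLog (ρ z) -
      ρ z * Real.log (∏ i, q (z i)) - ρ z + ∏ i, q (z i) = 0 := by
    apply (Finset.sum_eq_zero_iff_of_nonneg fun z _ =>
      gibbs_term (hρ.1 z) (hπ0 z) (hzero z)).mp
    exact le_antisymm htot (Finset.sum_nonneg fun z _ =>
      gibbs_term (hρ.1 z) (hπ0 z) (hzero z))
  exact gibbs_eq (hρ.1 z) (hπ0 z) (hzero z) (hall z (Finset.mem_univ z))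

end gibbs

end Pool.Agent.Q215.Ker
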