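import Mathlib
import Pool.Agent.Q215.KerE

set_option autoImplicit false
set_option linter.unusedSectionVars false

/-! The contradiction in the limit. -/

namespace Pool.Agent.Q215.Ker

open MeasureTheory H137.PFR
open scoped Classical

variable {ι : Type} [Fintype ι]

/-- the kernel rule -/
noncomputable def NR (b : ι → Bool) : Bool := decide (∀ i, b i = false)

theorem NR_true {b : ι → Bool} : NR b = true ↔ ∀ i, b i = false := by
  unfold NR
  rw [decide_eq_true_iff]

theorem push_id {α : Type} [Fintype α] (w : α → ℝ) : push w (fun a => a) = w := by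
  funext a
  unfold push
  rw [Finset.sum_eq_single a]
  · rw [if_pos rfl]
  · intro b _ hb
    rw [if_neg hb]
  · intro h
    exact absurd (Finset.mem_univ a) h

/-- the numbers -/
theorem numbers {n : ℕ} (hn : 2 ≤ n) {p c : ℝ} (hp0 : 0 ≤ p) (hp1 : p ≤ 1) (h1 : p = (1 - p) ^ n)
    (hc : c = (p + p ^ 2) / 2) (h2 : c = (1 - 2 * p + c) ^ n) : False := by
  have hpne0 : p ≠ 0 := by
    rintro rfl
    simp at h1
  have hpne1 : p ≠ 1 := by
    rintro rfl
    rw [sub_self, zero_pow (by omega)] at h1
    exact one_ne_zero h1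
  have hp0' : 0 < p := lt_of_le_of_ne hp0 (Ne.symm hpne0)
  have hp1' : p < 1 := lt_of_le_of_ne hp1 hpne1
  have m1 : (1 - p) ∈ Set.Ici (0 : ℝ) := by
    show (0 : ℝ) ≤ 1 - p
    linarith
  have m2 : (1 - p) ^ 2 ∈ Set.Ici (0 : ℝ) := by
    show (0 : ℝ) ≤ (1 - p) ^ 2
    positivity
  have m3 : (1 - p) ≠ (1 - p) ^ 2 := by
    intro h
    have h3 : (1 - p) * p = 0 := by nlinarith
    rcases mul_eq_zero.mp h3 with h4 | h4
    · exact hpne1 (by linarith)
    · exact hpne0 h4
  have hs' : StrictConvexOn ℝ (Set.Ici (0 : ℝ)) fun x : ℝ => x ^ n := strictConvexOn_pow hn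
  have hs := hs'.2 m1 m2 m3 (show (0 : ℝ) < 1 / 2 by norm_num) (show (0 : ℝ) < 1 / 2 by norm_num)
    (by norm_num)
  simp only [smul_eq_mul] at hs
  have e1 : 1 / 2 * (1 - p) + 1 / 2 * (1 - p) ^ 2 = 1 - 2 * p + c := by
    rw [hc]
    ring
  have e2 : ((1 - p) ^ 2) ^ n = p ^ 2 := by
    rw [← pow_mul, mul_comm, pow_mul, ← h1]
  rw [e1, e2, ← h1, ← h2, hc] at hs
  linarith

theorem sum_ite_prod {S : Type} [Fintype S] (q : S → ℝ) (A : S → Prop) [DecidablePred A]
    [∀ z : ι → S, Decidable (∀ i, A (z i))] :
    (∑ z : ι → S, if ∀ i, A (z i) then ∏ i, q (z i) else 0) =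
      (∑ s, if A s then q s else 0) ^ Fintype.card ι := by
  have h1 : ∏ _i : ι, (∑ s : S, if A s then q s else 0) =
      ∑ z : ι → S, ∏ i, (if A (z i) then q (z i) else 0) := by
    rw [Finset.prod_univ_sum]
    simp
  rw [Finset.prod_const, Finset.card_univ] at h1
  rw [h1]
  apply Finset.sum_congr rfl
  intro z _
  by_cases h : ∀ i, A (z i)
  · rw [if_pos h]
    apply Finset.prod_congr rfl
    intro i _
    rw [if_pos (h i)]
  · rw [if_neg h]
    push Not at h
    obtain ⟨i, hi⟩ := h
    symm
    apply Finset.prod_eq_zero (Finset.mem_univ i)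
    rw [if_neg hi]

theorem limit_contra (hn : 2 ≤ Fintype.card ι) {ν : (Bool × Bool) × (ι → Bool × Bool) → ℝ} {p : ℝ}
    (hlaw : Law ν) (hmarg : ∀ i, push ν (fun y => y.2 i) = push ν (fun y => y.1))
    (hent : (Fintype.card ι : ℝ) * ent (push ν (fun y => y.1)) ≤ ent ν)
    (h1 : push ν (fun y => y.1.1) true = p) (h2 : push ν (fun y => y.1.2) true = p)
    (h3 : push ν (fun y => y.1) (true, true) = (p + p ^ 2) / 2)
    (he1 : ∀ y, ν y ≠ 0 → y.1.1 = NR (fun i => (y.2 i).1))
    (he2 : ∀ y, ν y ≠ 0 → y.1.2 = NR (fun i => (y.2 i).2)) : False := by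
  let NN : (ι → Bool × Bool) → Bool × Bool := fun z => (NR (fun i => (z i).1), NR (fun i => (z i).2))
  have hNN : ∀ y, ν y ≠ 0 → y.1 = NN y.2 := fun y hy => Prod.ext (he1 y hy) (he2 y hy)
  obtain ⟨q, hq⟩ : ∃ q, q = push ν (fun y => y.1) := ⟨_, rfl⟩
  obtain ⟨ρ, hρ⟩ : ∃ ρ, ρ = push ν (fun y => y.2) := ⟨_, rfl⟩
  have hρz : ∀ z, ρ z = ν (NN z, z) := by
    intro z
    rw [hρ]
    unfold push
    rw [Finset.sum_eq_single (NN z, z)]
    · rw [if_pos rfl]
    · rintro ⟨s, z'⟩ _ hne
      by_cases hz : z' = z
      · rw [if_pos hz]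
        by_contra hν
        have := hNN _ hν
        apply hne
        simp only at this
        rw [this, hz]
      · rw [if_neg hz]
    · intro h
      exact absurd (Finset.mem_univ _) h
  have hν : ν = push ρ (fun z => (NN z, z)) := by
    funext y
    obtain ⟨s, z⟩ := y
    unfold push
    rw [Finset.sum_eq_single z]
    · by_cases hs : NN z = s
      · have e : (fun z => (NN z, z)) z = (s, z) := Prod.ext hs rfl
        rw [if_pos e, hρz, hs]
      · rw [if_neg (by
          intro h
          exact hs (congrArg Prod.fst h))]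
        by_contra h
        exact hs (hNN _ h).symm
    · intro z' _ hz'
      rw [if_neg (by
        intro h
        exact hz' (congrArg Prod.snd h))]
    · intro h
      exact absurd (Finset.mem_univ _) h
  have lρ : Law ρ := by
    rw [hρ]
    exact law_push hlaw _
  have lq : Law q := by
    rw [hq]
    exact law_push hlaw _
  have hent2 : ent ν = ent ρ := by
    have h4 : H ρ (fun z => (NN z, z)) = H ρ (fun z => z) :=
      H_eq lρ (fun p : (Bool × Bool) × (ι → Bool × Bool) => p.2) (fun z => (NN z, z))
        (fun _ => rfl) (fun _ => rfl)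
    unfold H at h4
    rw [← hν, push_id] at h4
    exact h4
  have hm : ∀ i, push ρ (fun z => z i) = q := by
    intro i
    rw [hρ, push_push, hq, ← hmarg i]
  have hind := indep_of_ent lρ lq hm (by
    rw [← hent2, hq]
    exact hent)
  have hqN : q = push ρ NN := by
    rw [hq, hν, push_push]
  -- the equation for the pair
  have hq00 : q (true, true) = (q (false, false)) ^ Fintype.card ι := by
    have h4 : q (true, true) = ∑ z : ι → Bool × Bool,
        if ∀ i, z i = (false, false) then ∏ i, q (z i) else 0 := by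
      conv_lhs => rw [hqN]
      unfold push
      apply Finset.sum_congr rfl
      intro z _
      rw [hind z]
      congr 1
      rw [eq_iff_iff]
      show (NR (fun i => (z i).1), NR (fun i => (z i).2)) = (true, true) ↔ _
      rw [Prod.mk.injEq, NR_true, NR_true]
      constructor
      · rintro ⟨h5, h6⟩ i
        exact Prod.ext (h5 i) (h6 i)
      · intro h5
        exact ⟨fun i => by rw [h5 i], fun i => by rw [h5 i]⟩
    rw [h4, sum_ite_prod q (fun s => s = (false, false))]
    congr 1
    rw [Finset.sum_eq_single (false, false)]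
    · rw [if_pos rfl]
    · intro b _ hb
      rw [if_neg hb]
    · intro h
      exact absurd (Finset.mem_univ _) h
  have htot := lq.2
  have e1 : push ν (fun y => y.1.1) true = q (true, true) + q (true, false) := by
    have h4 : push ν (fun y => y.1.1) = push q (fun s => s.1) := by
      rw [hq, push_push]
    rw [h4]
    unfold push
    rw [Fintype.sum_prod_type]
    simp
  have e2 : push ν (fun y => y.1.2) true = q (true, true) + q (false, true) := by
    have h4 : push ν (fun y => y.1.2) = push q (fun s => s.2) := by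
      rw [hq, push_push]
    rw [h4]
    unfold push
    rw [Fintype.sum_prod_type]
    simp
  rw [Fintype.sum_prod_type] at htot
  simp only [Fintype.sum_bool] at htot
  rw [e1] at h1
  rw [e2] at h2
  rw [← hq] at h3
  have hp : p = (1 - p) ^ Fintype.card ι := by
    have h4 : p = ∑ z : ι → Bool × Bool,
        if ∀ i, (z i).1 = false then ∏ i, q (z i) else 0 := by
      have h5 : push ν (fun y => y.1.1) = push ρ (fun z => NR (fun i => (z i).1)) := by
        rw [hν, push_push]
      rw [← h1, ← e1, h5]
      unfold push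
      apply Finset.sum_congr rfl
      intro z _
      rw [hind z]
      congr 1
      rw [eq_iff_iff, NR_true]
    rw [sum_ite_prod q (fun s => s.1 = false)] at h4
    rw [h4]
    congr 1
    rw [← h4, Fintype.sum_prod_type]
    simp only [Fintype.sum_bool]
    simp
    linarith
  have h00 : q (false, false) = 1 - 2 * p + q (true, true) := by linarith
  rw [h00] at hq00
  have hp0 : 0 ≤ p := by
    rw [← h1]
    exact add_nonneg (lq.1 _) (lq.1 _)
  have hp1 : p ≤ 1 := by
    have h5 := lq.1 (false, true)
    have h6 := lq.1 (false, false)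
    linarith
  exact numbers hn hp0 hp1 hp h3 hq00

end Pool.Agent.Q215.Ker
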