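import Mathlib
import Pool.Agent.Q215.KerF

set_option autoImplicit false
set_option linter.unusedSectionVars false

/-! Correlated pairs of bits, and the main theorem for local functions. -/

namespace Pool.Agent.Q215.Ker

open MeasureTheory H137.PFR Filter Topology
open scoped Classical ENNReal

/-- the uniform measure on two points -/
noncomputable def unif : Measure Bool :=
  (2⁻¹ : ℝ≥0∞) • Measure.dirac true + (2⁻¹ : ℝ≥0∞) • Measure.dirac false

instance unif_prob : IsProbabilityMeasure unif := by
  constructor
  unfold unif
  simp [ENNReal.inv_two_add_inv_two]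

/-- the weights of correlated pairs -/
noncomputable def wt (t : ℝ) (k : Bool × Bool) : ℝ := if k.1 = k.2 then (1 + t) / 4 else (1 - t) / 4

theorem wt_nonneg (t : unitInterval) (k : Bool × Bool) : 0 ≤ wt t k := by
  unfold wt
  have h0 := t.2.1
  have h1 := t.2.2
  split_ifs
  · linarith
  · linarith

/-- the law of a correlated pair of bits -/
noncomputable def kt (t : unitInterval) : Measure (Bool × Bool) :=
  ∑ k : Bool × Bool, ENNReal.ofReal (wt t k) • Measure.dirac k

theorem kt_apply (t : unitInterval) (A : Set (Bool × Bool)) :
    kt t A = ∑ k : Bool × Bool, if k ∈ A then ENNReal.ofReal (wt t k) else 0 := by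
  unfold kt
  rw [Measure.finsetSum_apply]
  apply Finset.sum_congr rfl
  intro k _
  rw [Measure.smul_apply, Measure.dirac_apply, smul_eq_mul]
  by_cases h : k ∈ A
  · simp [h]
  · simp [h]

theorem kt_singleton (t : unitInterval) (k : Bool × Bool) : kt t {k} = ENNReal.ofReal (wt t k) := by
  rw [kt_apply, Finset.sum_eq_single k]
  · simp
  · intro b _ hb
    rw [if_neg (by simpa using hb)]
  · intro h
    exact absurd (Finset.mem_univ _) h

theorem wt_add (t : unitInterval) (a : Bool) :
    ENNReal.ofReal (wt t (a, true)) + ENNReal.ofReal (wt t (a, false)) = 2⁻¹ := by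
  rw [← ENNReal.ofReal_add (wt_nonneg _ _) (wt_nonneg _ _)]
  have : wt t (a, true) + wt t (a, false) = 2⁻¹ := by
    unfold wt
    cases a
    · simp
      ring
    · simp
      ring
  rw [this, ENNReal.ofReal_inv_of_pos (by norm_num)]
  simp

theorem wt_add' (t : unitInterval) (a : Bool) :
    ENNReal.ofReal (wt t (true, a)) + ENNReal.ofReal (wt t (false, a)) = 2⁻¹ := by
  rw [← ENNReal.ofReal_add (wt_nonneg _ _) (wt_nonneg _ _)]
  have : wt t (true, a) + wt t (false, a) = 2⁻¹ := by
    unfold wt
    cases a
    · simp
      ring
    · simp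
      ring
  rw [this, ENNReal.ofReal_inv_of_pos (by norm_num)]
  simp

theorem unif_singleton (a : Bool) : unif {a} = 2⁻¹ := by
  unfold unif
  cases a
  · simp
  · simp

theorem measure_ext_bool {μ ν : Measure Bool} (h : ∀ a, μ {a} = ν {a}) : μ = ν :=
  Measure.ext_of_singleton h

theorem kt_fst (t : unitInterval) : (kt t).map Prod.fst = unif := by
  apply measure_ext_bool
  intro a
  rw [unif_singleton, Measure.map_apply measurable_fst (measurableSet_singleton a), kt_apply,
    Fintype.sum_prod_type]
  simp only [Fintype.sum_bool]
  cases a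
  · simpa using wt_add t false
  · simpa using wt_add t true

theorem kt_snd (t : unitInterval) : (kt t).map Prod.snd = unif := by
  apply measure_ext_bool
  intro a
  rw [unif_singleton, Measure.map_apply measurable_snd (measurableSet_singleton a), kt_apply,
    Fintype.sum_prod_type]
  simp only [Fintype.sum_bool]
  cases a
  · simpa using wt_add' t false
  · simpa using wt_add' t true

instance kt_prob (t : unitInterval) : IsProbabilityMeasure (kt t) := by
  constructor
  have h : (kt t).map Prod.fst Set.univ = 1 := by
    rw [kt_fst]
    exact measure_univ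
  rwa [Measure.map_apply measurable_fst MeasurableSet.univ] at h

theorem kt_real (t : unitInterval) (k : Bool × Bool) : (kt t).real {k} = wt t k := by
  rw [measureReal_def, kt_singleton, ENNReal.toReal_ofReal (wt_nonneg _ _)]

section

variable {G : Type}

theorem mp_fst (t : unitInterval) : MeasurePreserving
    (fun (x : G → Bool × Bool) (h : G) => (x h).1) (PP (G := G) (kt t)) (PP (G := G) unif) := by
  refine ⟨by fun_prop, ?_⟩
  have h := Measure.infinitePi_map_pi (μ := fun _ : G => kt t) (Y := fun _ => Bool)
    (f := fun _ => Prod.fst) (fun _ => measurable_fst)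
  rw [kt_fst] at h
  exact h

theorem mp_snd (t : unitInterval) : MeasurePreserving
    (fun (x : G → Bool × Bool) (h : G) => (x h).2) (PP (G := G) (kt t)) (PP (G := G) unif) := by
  refine ⟨by fun_prop, ?_⟩
  have h := Measure.infinitePi_map_pi (μ := fun _ : G => kt t) (Y := fun _ => Bool)
    (f := fun _ => Prod.snd) (fun _ => measurable_snd)
  rw [kt_snd] at h
  exact h

/-- the law of finitely many seeds -/
theorem law_ZZ {K : Type} [Fintype K] [MeasurableSpace K] [MeasurableSingletonClass K]
    (κ : Measure K) [IsProbabilityMeasure κ] (T : Finset G) (z : T → K) :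
    law (PP (G := G) κ) (ZZ (K := K) T) z = ∏ j, κ.real {z j} := by
  have h := Measure.infinitePi_map_restrict (fun _ : G => κ) (I := T)
  have h1 : (PP (G := G) κ) (ZZ (K := K) T ⁻¹' {z}) = (Measure.pi fun _ : T => κ) {z} := by
    rw [← h, Measure.map_apply (Finset.measurable_restrict T) (measurableSet_singleton z)]
    rfl
  unfold law
  rw [measureReal_def, h1, Measure.pi_singleton, ENNReal.toReal_prod]
  rfl

end

end Pool.Agent.Q215.Ker
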