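import Mathlib
import Pool.Agent.Q215.KerG

set_option autoImplicit false
set_option linter.unusedSectionVars false

/-! No local function is close to a kernel. -/

namespace Pool.Agent.Q215.Ker

open MeasureTheory H137.PFR Filter Topology
open scoped Classical ENNReal

section pair

variable {G : Type} [Group G]

/-- the pair of values at correlated inputs -/
def pr (f : (G → Bool) → Bool) (x : G → Bool × Bool) : Bool × Bool :=
  (f fun h => (x h).1, f fun h => (x h).2)

theorem Dep_pr {f : (G → Bool) → Bool} {T : Finset G} (hf : Dep f T) : Dep (pr f) T := by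
  intro x y hxy
  refine Prod.ext ?_ ?_
  · exact hf _ _ fun t ht => by rw [hxy t ht]
  · exact hf _ _ fun t ht => by rw [hxy t ht]

/-- the probability that both values are `true`, as a polynomial -/
theorem exists_poly {f : (G → Bool) → Bool} {T : Finset G} (hf : Dep f T) :
    ∃ r : ℝ → ℝ, Continuous r ∧ r 0 = (law (PP unif) f true) ^ 2 ∧ r 1 = law (PP unif) f true ∧
      ∀ t : unitInterval, law (PP (kt t)) (pr f) (true, true) = r t := by
  obtain ⟨g, hg⟩ := hf.factor
  let c : (T → Bool) → ℝ := fun u => if g u = true then 1 else 0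
  let r : ℝ → ℝ := fun t => ∑ z : T → Bool × Bool, (∏ j, wt t (z j)) *
    (c (fun j => (z j).1) * c (fun j => (z j).2))
  have hp : law (PP unif) f true = ∑ u : T → Bool, (1 / 2 : ℝ) ^ T.card * c u := by
    have h1 : law (PP (G := G) unif) f = push (law (PP (G := G) unif) (ZZ (K := Bool) T)) g := by
      rw [← law_comp (FV_ZZ T) g]
      congr 1
      funext x
      exact (hg x).symm
    rw [h1]
    unfold push
    apply Finset.sum_congr rfl
    intro u _
    rw [law_ZZ]
    have h2 : ∀ j : T, unif.real {u j} = 1 / 2 := by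
      intro j
      rw [measureReal_def, unif_singleton]
      simp
    simp only [h2, Finset.prod_const, Finset.card_univ, Fintype.card_coe]
    by_cases h : g u = true
    · simp [c, h]
    · simp [c, h]
  have hcc : ∀ u, c u * c u = c u := by
    intro u
    simp only [c]
    split_ifs
    · norm_num
    · norm_num
  have hr : ∀ t, r t = ∑ u : T → Bool, ∑ v : T → Bool, (∏ j, wt t (u j, v j)) * (c u * c v) := by
    intro t
    rw [← Fintype.sum_prod_type']
    exact Fintype.sum_equiv (Equiv.arrowProdEquivProdArrow T (fun _ => Bool) (fun _ => Bool)) _ _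
      (fun z => rfl)
  refine ⟨r, ?_, ?_, ?_, ?_⟩
  · apply continuous_finsetSum
    intro z _
    apply Continuous.mul _ continuous_const
    apply continuous_finsetProd
    intro j _
    unfold wt
    split_ifs
    · fun_prop
    · fun_prop
  · rw [hr, hp, sq, Finset.sum_mul_sum]
    apply Finset.sum_congr rfl
    intro u _
    apply Finset.sum_congr rfl
    intro v _
    have h2 : ∀ j : T, wt 0 (u j, v j) = 1 / 4 := by
      intro j
      unfold wt
      split_ifs
      · norm_num
      · norm_num
    simp only [h2, Finset.prod_const, Finset.card_univ, Fintype.card_coe]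
    have h3 : (1 / 4 : ℝ) ^ T.card = (1 / 2) ^ T.card * (1 / 2) ^ T.card := by
      rw [← mul_pow]
      norm_num
    rw [h3]
    ring
  · rw [hr, hp]
    apply Finset.sum_congr rfl
    intro u _
    rw [Finset.sum_eq_single u]
    · have h2 : ∀ j : T, wt 1 (u j, u j) = 1 / 2 := by
        intro j
        unfold wt
        rw [if_pos rfl]
        norm_num
      simp only [h2, Finset.prod_const, Finset.card_univ, Fintype.card_coe]
      rw [hcc]
    · intro v _ hv
      have hex : ∃ j, u j ≠ v j := by
        by_contra hcon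
        push Not at hcon
        exact hv (funext fun j => (hcon j).symm)
      obtain ⟨j, hj⟩ := hex
      rw [Finset.prod_eq_zero (Finset.mem_univ j), zero_mul]
      unfold wt
      rw [if_neg hj]
      norm_num
    · intro h
      exact absurd (Finset.mem_univ u) h
  · intro t
    have h1 : law (PP (G := G) (kt t)) (pr f) = push (law (PP (G := G) (kt t))
        (ZZ (K := Bool × Bool) T)) (fun z => (g fun j => (z j).1, g fun j => (z j).2)) := by
      rw [← law_comp (FV_ZZ T)]
      congr 1
      funext x
      refine Prod.ext ?_ ?_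
      · exact (hg _).symm
      · exact (hg _).symm
    rw [h1]
    unfold push
    apply Finset.sum_congr rfl
    intro z _
    rw [law_ZZ]
    simp only [kt_real]
    by_cases h : g (fun j => (z j).1) = true
    · by_cases h' : g (fun j => (z j).2) = true
      · simp [c, h, h']
      · simp [c, h, h']
    · simp [c, h]

theorem law_pr_fst {f : (G → Bool) → Bool} {T : Finset G} (hf : Dep f T) (t : unitInterval) :
    law (PP (kt t)) (fun x => (pr f x).1) = law (PP unif) f := by
  funext s
  unfold law
  have h : (fun x => (pr f x).1) ⁻¹' {s} = (fun (x : G → Bool × Bool) (h : G) => (x h).1) ⁻¹'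
      (f ⁻¹' {s}) := rfl
  rw [h, measureReal_def, (mp_fst t).measure_preimage (hf.FV s).nullMeasurableSet,
    measureReal_def]

theorem law_pr_snd {f : (G → Bool) → Bool} {T : Finset G} (hf : Dep f T) (t : unitInterval) :
    law (PP (kt t)) (fun x => (pr f x).2) = law (PP unif) f := by
  funext s
  unfold law
  have h : (fun x => (pr f x).2) ⁻¹' {s} = (fun (x : G → Bool × Bool) (h : G) => (x h).2) ⁻¹'
      (f ⁻¹' {s}) := rfl
  rw [h, measureReal_def, (mp_snd t).measure_preimage (hf.FV s).nullMeasurableSet,
    measureReal_def]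

end pair

variable {ι : Type} [Fintype ι]

/-- the places where the kernel rule is violated -/
def bad (f : (FreeGroup ι → Bool) → Bool) : Set (FreeGroup ι → Bool) :=
  {x | f x ≠ NR (fun i : ι => f (sh (FreeGroup.of i) x))}

theorem meas_bad {f : (FreeGroup ι → Bool) → Bool} {T : Finset (FreeGroup ι)} (hf : Dep f T) :
    MeasurableSet (bad f) := by
  have h := (Dep_star hf).FV.preimage {y : Bool × (ι → Bool) | y.1 ≠ NR y.2}
  exact h

theorem cont_push {Ω α : Type} [Fintype Ω] (X : Ω → α) (a : α) :
    Continuous fun w : Ω → ℝ => push w X a := by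
  unfold push
  apply continuous_finsetSum
  intro ω _
  split_ifs
  · exact continuous_apply ω
  · exact continuous_const

theorem cont_ent {α : Type} [Fintype α] : Continuous fun w : α → ℝ => ent w := by
  unfold ent
  apply continuous_finsetSum
  intro a _
  exact Real.continuous_negMulLog.comp (continuous_apply a)

/-- no sequence of local functions violates the kernel rule with probability tending to zero -/
theorem no_local (hn : 2 ≤ Fintype.card ι) : ¬ ∀ k : ℕ, ∃ (f : (FreeGroup ι → Bool) → Bool)
    (T : Finset (FreeGroup ι)), Dep f T ∧ (PP unif).real (bad f) ≤ 1 / ((k : ℝ) + 1) := by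
  intro hall
  choose f T hf hbad using hall
  obtain ⟨p, hp⟩ : ∃ p : ℕ → ℝ, ∀ k, p k = law (PP unif) (f k) true := ⟨_, fun _ => rfl⟩
  have hp0 : ∀ k, 0 ≤ p k := by
    intro k
    rw [hp]
    exact law_nonneg _ _
  have hp1 : ∀ k, p k ≤ 1 := by
    intro k
    rw [hp]
    exact measureReal_le_one
  have hex : ∀ k, ∃ t : unitInterval, law (PP (kt t)) (pr (f k)) (true, true) =
      (p k + p k ^ 2) / 2 := by
    intro k
    obtain ⟨r, hr, h0, h1, ht⟩ := exists_poly (hf k)
    rw [← hp] at h0 h1
    have h2 := intermediate_value_Icc (zero_le_one (α := ℝ)) hr.continuousOn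
    have h3 : (p k + p k ^ 2) / 2 ∈ Set.Icc (r 0) (r 1) := by
      rw [h0, h1]
      have h4 : p k ^ 2 ≤ p k := by
        have := hp0 k
        have := hp1 k
        nlinarith
      constructor
      · linarith
      · linarith
    obtain ⟨t, ht1, ht2⟩ := h2 h3
    exact ⟨⟨t, ht1⟩, by rw [ht]; exact ht2⟩
  choose t ht using hex
  let Y0 : Type := (Bool × Bool) × (ι → Bool × Bool)
  let ν : ℕ → Y0 → ℝ := fun k => law (PP (kt (t k))) (star (pr (f k)))
  have hdep : ∀ k, Dep (pr (f k)) (T k) := fun k => Dep_pr (hf k)
  have hFV : ∀ k, FV (star (pr (f k))) := fun k => (Dep_star (hdep k)).FV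
  have hlaw : ∀ k, Law (ν k) := fun k => isLaw_law (hFV k)
  -- a convergent subsequence
  have hK : IsCompact (Set.pi Set.univ fun _ : Y0 => Set.Icc (0 : ℝ) 1) :=
    isCompact_univ_pi fun _ => isCompact_Icc
  obtain ⟨μ, -, φ, hφ, hlim⟩ := hK.tendsto_subseq (x := ν) (by
    intro k y _
    refine ⟨(hlaw k).1 y, ?_⟩
    rw [← (hlaw k).2]
    exact Finset.single_le_sum (f := fun y => ν k y) (fun y _ => (hlaw k).1 y) (Finset.mem_univ y))
  have lim : ∀ {g : (Y0 → ℝ) → ℝ}, Continuous g → Tendsto (fun k => g (ν (φ k))) atTop (𝓝 (g μ)) :=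
    fun hg => (hg.tendsto μ).comp hlim
  have lpt : ∀ y, Tendsto (fun k => ν (φ k) y) atTop (𝓝 (μ y)) := fun y => lim (continuous_apply y)
  have e1 : ∀ k, push (ν k) (fun y => y.1) = law (PP (kt (t k))) (pr (f k)) := by
    intro k
    exact (law_comp (hFV k) (fun y => y.1)).symm
  have e2 : ∀ k i, push (ν k) (fun y => y.2 i) = law (PP (kt (t k))) (pr (f k)) := by
    intro k i
    have h1 := law_comp (P := PP (kt (t k))) (hFV k) (fun y => y.2 i)
    rw [← h1]
    exact law_map (mp_sh (kt (t k)) (FreeGroup.of i)) (hdep k).FV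
  have e3 : ∀ k, push (ν k) (fun y => y.1.1) true = p k := by
    intro k
    have h1 := law_comp (P := PP (kt (t k))) (hFV k) (fun y => y.1.1)
    rw [← h1, hp]
    exact congrFun (law_pr_fst (hf k) (t k)) true
  have e4 : ∀ k, push (ν k) (fun y => y.1.2) true = p k := by
    intro k
    have h1 := law_comp (P := PP (kt (t k))) (hFV k) (fun y => y.1.2)
    rw [← h1, hp]
    exact congrFun (law_pr_snd (hf k) (t k)) true
  have hinv : Tendsto (fun k => 1 / (((φ k : ℕ) : ℝ) + 1)) atTop (𝓝 0) :=
    tendsto_one_div_add_atTop_nhds_zero_nat.comp hφ.tendsto_atTop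
  have hlawμ : Law μ := by
    refine ⟨fun y => ge_of_tendsto' (lpt y) fun k => (hlaw _).1 y, ?_⟩
    have h1 : Tendsto (fun k => ∑ y, ν (φ k) y) atTop (𝓝 (∑ y, μ y)) :=
      lim (g := fun w => ∑ y, w y) (by fun_prop)
    have h2 : (fun k => ∑ y, ν (φ k) y) = fun _ => (1 : ℝ) := by
      funext k
      exact (hlaw _).2
    rw [h2] at h1
    exact tendsto_nhds_unique h1 tendsto_const_nhds
  have hpμ : Tendsto (fun k => p (φ k)) atTop (𝓝 (push μ (fun y => y.1.1) true)) := by
    have h1 := lim (cont_push (fun y : Y0 => y.1.1) true)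
    simp only [e3] at h1
    exact h1
  refine limit_contra hn hlawμ (p := push μ (fun y => y.1.1) true) ?_ ?_ rfl ?_ ?_ ?_ ?_
  · intro i
    funext s
    have h1 := lim (cont_push (fun y : Y0 => y.2 i) s)
    have h2 := lim (cont_push (fun y : Y0 => y.1) s)
    simp only [e2] at h1
    simp only [e1] at h2
    exact tendsto_nhds_unique h1 h2
  · have h1 : Tendsto (fun k => (Fintype.card ι : ℝ) * ent (push (ν (φ k)) (fun y => y.1))) atTop
        (𝓝 ((Fintype.card ι : ℝ) * ent (push μ (fun y => y.1)))) := by
      apply lim (g := fun w : Y0 → ℝ => (Fintype.card ι : ℝ) * ent (push w (fun y => y.1)))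
      apply continuous_const.mul
      apply cont_ent.comp
      exact continuous_pi fun s => cont_push _ s
    have h2 := lim (cont_ent (α := Y0))
    refine le_of_tendsto_of_tendsto' h1 h2 fun k => ?_
    rw [e1]
    exact star_ge (kt (t (φ k))) (hdep (φ k))
  · have h1 := lim (cont_push (fun y : Y0 => y.1.2) true)
    simp only [e4] at h1
    exact tendsto_nhds_unique h1 hpμ
  · have h1 := lim (cont_push (fun y : Y0 => y.1) (true, true))
    simp only [e1, ht] at h1
    have h2 : Tendsto (fun k => (p (φ k) + p (φ k) ^ 2) / 2) atTop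
        (𝓝 ((push μ (fun y => y.1.1) true + push μ (fun y => y.1.1) true ^ 2) / 2)) :=
      (hpμ.add (hpμ.pow 2)).div_const 2
    exact tendsto_nhds_unique h1 h2
  · intro y hy
    by_contra hne
    apply hy
    apply le_antisymm _ (hlawμ.1 y)
    refine le_of_tendsto_of_tendsto' (lpt y) hinv fun k => ?_
    refine le_trans ?_ (hbad (φ k))
    rw [measureReal_def (PP unif), ← (mp_fst (t (φ k))).measure_preimage
      (meas_bad (hf (φ k))).nullMeasurableSet, ← measureReal_def]
    refine measureReal_mono ?_ (measure_ne_top _ _)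
    intro x hx
    have hx' : star (pr (f (φ k))) x = y := hx
    show f (φ k) (fun h => (x h).1) ≠ _
    rw [← hx'] at hne
    exact hne
  · intro y hy
    by_contra hne
    apply hy
    apply le_antisymm _ (hlawμ.1 y)
    refine le_of_tendsto_of_tendsto' (lpt y) hinv fun k => ?_
    refine le_trans ?_ (hbad (φ k))
    rw [measureReal_def (PP unif), ← (mp_snd (t (φ k))).measure_preimage
      (meas_bad (hf (φ k))).nullMeasurableSet, ← measureReal_def]
    refine measureReal_mono ?_ (measure_ne_top _ _)
    intro x hx
    have hx' : star (pr (f (φ k))) x = y := hx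
    show f (φ k) (fun h => (x h).2) ≠ _
    rw [← hx'] at hne
    exact hne

end Pool.Agent.Q215.Ker
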