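import Mathlib
import Pool.Agent.Q215.KerH

set_option autoImplicit false
set_option linter.unusedSectionVars false

/-! No measurable set is close to a kernel. -/

namespace Pool.Agent.Q215.Ker

open MeasureTheory H137.PFR Filter Topology
open scoped Classical ENNReal

/-- approximation of measurable sets by local functions -/
theorem exists_approx {G : Type} (P : Measure (G → Bool)) [IsProbabilityMeasure P]
    {A : Set (G → Bool)} (hA : MeasurableSet A) {η : ℝ} (hη : 0 < η) :
    ∃ (f : (G → Bool) → Bool) (T : Finset G), (∀ x y : G → Bool, (∀ t ∈ T, x t = y t) → f x = f y) ∧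
      MeasurableSet {x | f x = true} ∧ P.real {x | ¬ (x ∈ A ↔ f x = true)} ≤ η := by
  have halg : IsSetAlgebra (measurableCylinders fun _ : G => Bool) := by
    refine ⟨empty_mem_measurableCylinders _, ?_, ?_⟩
    · intro s hs
      exact compl_mem_measurableCylinders hs
    · intro s t hs ht
      have h := compl_mem_measurableCylinders (inter_mem_measurableCylinders
        (compl_mem_measurableCylinders hs) (compl_mem_measurableCylinders ht))
      rw [← Set.compl_union, compl_compl] at h
      exact h
  have hd := Measure.MeasureDense.of_generateFrom_isSetAlgebra_finite P halg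
    generateFrom_measurableCylinders.symm
  obtain ⟨C, hC, hlt⟩ := hd.approx A hA (measure_ne_top _ _) η hη
  obtain ⟨T, S, hS, rfl⟩ := (mem_measurableCylinders C).mp hC
  refine ⟨fun x => decide (x ∈ cylinder T S), T, ?_, ?_, ?_⟩
  · intro x y hxy
    have h : (x ∈ cylinder T S) ↔ (y ∈ cylinder T S) := by
      rw [mem_cylinder, mem_cylinder]
      have : T.restrict x = T.restrict y := by
        funext j
        exact hxy j j.2
      rw [this]
    exact decide_eq_decide.mpr h
  · have h : {x : G → Bool | decide (x ∈ cylinder T S) = true} = cylinder T S := by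
      ext x
      simp
    rw [h]
    exact MeasurableSet.of_mem_measurableCylinders hC
  · have h : {x : G → Bool | ¬ (x ∈ A ↔ decide (x ∈ cylinder T S) = true)} ⊆
        symmDiff A (cylinder T S) := by
      intro x hx
      have hx' : ¬ (x ∈ A ↔ decide (x ∈ cylinder T S) = true) := hx
      rw [decide_eq_true_iff] at hx'
      rw [Set.mem_symmDiff]
      tauto
    refine (measureReal_mono h (measure_ne_top _ _)).trans ?_
    rw [measureReal_def]
    exact ENNReal.toReal_le_of_le_ofReal hη.le hlt.le

variable {ι : Type} [Fintype ι]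

/-- the points at which a set violates the kernel rule -/
def badSet (A : Set (FreeGroup ι → Bool)) : Set (FreeGroup ι → Bool) :=
  {x | ¬ (x ∈ A ↔ ∀ i : ι, sh (FreeGroup.of i) x ∉ A)}

/-- there is a positive lower bound for the measure of the violations -/
theorem main (hn : 2 ≤ Fintype.card ι) : ∃ δ : ℝ, 0 < δ ∧ ∀ A : Set (FreeGroup ι → Bool),
    MeasurableSet A → δ ≤ (PP (G := FreeGroup ι) unif).real (badSet A) := by
  by_contra hcon
  push Not at hcon
  apply no_local hn
  intro k
  have hk : (0 : ℝ) < 1 / (2 * ((k : ℝ) + 1)) := by positivity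
  obtain ⟨A, hA, hbad⟩ := hcon _ hk
  have hη : (0 : ℝ) < 1 / (2 * ((k : ℝ) + 1)) / ((Fintype.card ι : ℝ) + 1) := by positivity
  obtain ⟨f, T, hf, hfm, hfA⟩ := exists_approx (PP (G := FreeGroup ι) unif) hA hη
  refine ⟨f, T, hf, ?_⟩
  obtain ⟨E, hE⟩ : ∃ E : Set (FreeGroup ι → Bool), E = {x | ¬ (x ∈ A ↔ f x = true)} := ⟨_, rfl⟩
  rw [← hE] at hfA
  have hEm : MeasurableSet E := by
    have h : E = (A ∩ {x | f x = true}ᶜ) ∪ (Aᶜ ∩ {x | f x = true}) := by
      rw [hE]
      ext x
      show ¬ (x ∈ A ↔ f x = true) ↔ (x ∈ A ∧ ¬ f x = true) ∨ (¬ x ∈ A ∧ f x = true)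
      tauto
    rw [h]
    exact (hA.inter hfm.compl).union (hA.compl.inter hfm)
  have hsub : bad f ⊆ badSet A ∪ (E ∪ ⋃ i ∈ (Finset.univ : Finset ι), sh (FreeGroup.of i) ⁻¹' E) := by
    intro x hx
    by_contra hno
    apply hx
    have h1 : x ∉ badSet A := fun h => hno (Or.inl h)
    have h2 : x ∉ E := fun h => hno (Or.inr (Or.inl h))
    have h3 : ∀ i, sh (FreeGroup.of i) x ∉ E := by
      intro i h
      apply hno
      right
      right
      exact Set.mem_biUnion (Finset.mem_univ i) h
    have h4 : x ∈ A ↔ ∀ i : ι, sh (FreeGroup.of i) x ∉ A := by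
      by_contra h
      exact h1 h
    rw [hE] at h2 h3
    have h5 : x ∈ A ↔ f x = true := by
      by_contra h
      exact h2 h
    have h6 : ∀ i : ι, sh (FreeGroup.of i) x ∈ A ↔ f (sh (FreeGroup.of i) x) = true := by
      intro i
      by_contra h
      exact h3 i h
    rw [Bool.eq_iff_iff, NR_true, ← h5, h4]
    constructor
    · intro h i
      have := h i
      rw [h6] at this
      simpa using this
    · intro h i
      rw [h6, h i]
      simp
  have hm : ∀ i, (PP (G := FreeGroup ι) unif).real (sh (FreeGroup.of i) ⁻¹' E) =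
      (PP (G := FreeGroup ι) unif).real E := by
    intro i
    rw [measureReal_def, (mp_sh unif (FreeGroup.of i)).measure_preimage hEm.nullMeasurableSet,
      measureReal_def]
  calc (PP (G := FreeGroup ι) unif).real (bad f)
      ≤ (PP (G := FreeGroup ι) unif).real (badSet A ∪
          (E ∪ ⋃ i ∈ (Finset.univ : Finset ι), sh (FreeGroup.of i) ⁻¹' E)) :=
        measureReal_mono hsub (measure_ne_top _ _)
    _ ≤ (PP (G := FreeGroup ι) unif).real (badSet A) +
          ((PP (G := FreeGroup ι) unif).real E + (PP (G := FreeGroup ι) unif).real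
            (⋃ i ∈ (Finset.univ : Finset ι), sh (FreeGroup.of i) ⁻¹' E)) :=
        (measureReal_union_le _ _).trans (add_le_add le_rfl (measureReal_union_le _ _))
    _ ≤ (PP (G := FreeGroup ι) unif).real (badSet A) +
          ((PP (G := FreeGroup ι) unif).real E + ∑ i : ι, (PP (G := FreeGroup ι) unif).real
            (sh (FreeGroup.of i) ⁻¹' E)) := by
        gcongr
        exact measureReal_biUnion_finset_le _ _
    _ ≤ 1 / (2 * ((k : ℝ) + 1)) + (1 / (2 * ((k : ℝ) + 1)) / ((Fintype.card ι : ℝ) + 1) +
          (Fintype.card ι : ℝ) * (1 / (2 * ((k : ℝ) + 1)) / ((Fintype.card ι : ℝ) + 1))) := by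
        simp only [hm, Finset.sum_const, Finset.card_univ, nsmul_eq_mul]
        gcongr
    _ = 1 / ((k : ℝ) + 1) := by
        field_simp
        ring

end Pool.Agent.Q215.Ker
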