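import Mathlib

/-!
Combinatorics of a closed maximal eventually different family of permutations: the choice of the
places where a permutation is caught.
-/

open Set

namespace Q215.MED

/-! ### Codes of initial segments -/

section Codes

variable {α : Type}

/-- the list of the first `n` values -/
def pf (y : ℕ → α) (n : ℕ) : List α := (List.range n).map y

lemma pf_length (y : ℕ → α) (n : ℕ) : (pf y n).length = n := by simp [pf]

lemma pf_zero (y : ℕ → α) : pf y 0 = [] := rfl

lemma pf_succ (y : ℕ → α) (n : ℕ) : pf y (n + 1) = pf y n ++ [y n] := by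
  simp [pf, List.range_succ]

lemma pf_eq {y z : ℕ → α} {n : ℕ} (h : ∀ i < n, y i = z i) : pf y n = pf z n := by
  unfold pf
  rw [List.map_inj_left]
  intro i hi
  exact h i (List.mem_range.1 hi)

lemma pf_inj {y z : ℕ → α} {n m : ℕ} (h : pf y n = pf z m) : n = m ∧ ∀ i < n, y i = z i := by
  have h1 : n = m := by
    have := congrArg List.length h
    rwa [pf_length, pf_length] at this
  subst h1
  refine ⟨rfl, fun i hi => ?_⟩
  unfold pf at h
  rw [List.map_inj_left] at h
  exact h i (List.mem_range.2 hi)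

lemma pf_prefix (y : ℕ → α) {l n : ℕ} (h : l ≤ n) : pf y l <+: pf y n := by
  induction n, h using Nat.le_induction with
  | base => exact List.prefix_rfl
  | succ n _ ih =>
    rw [pf_succ]
    exact ih.trans (List.prefix_append _ _)

lemma pf_prefix_iff {y z : ℕ → α} {l n : ℕ} :
    pf y l <+: pf z n ↔ l ≤ n ∧ ∀ i < l, y i = z i := by
  constructor
  · intro h
    have hl : l ≤ n := by
      have := h.length_le
      rwa [pf_length, pf_length] at this
    have h1 := pf_prefix z hl
    have h2 : pf y l <+: pf z l :=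
      List.prefix_of_prefix_length_le h h1 (by rw [pf_length, pf_length])
    have h3 : pf y l = pf z l := h2.eq_of_length (by rw [pf_length, pf_length])
    exact ⟨hl, (pf_inj h3).2⟩
  · rintro ⟨h1, h2⟩
    rw [pf_eq h2]
    exact pf_prefix z h1

variable [Encodable α]

/-- a code of the first `n` values -/
def cd (y : ℕ → α) (n : ℕ) : ℕ := Encodable.encode (pf y n)

lemma cd_inj {y z : ℕ → α} {n m : ℕ} (h : cd y n = cd z m) : n = m ∧ ∀ i < n, y i = z i :=
  pf_inj (Encodable.encode_injective h)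

lemma cd_eq {y z : ℕ → α} {n : ℕ} (h : ∀ i < n, y i = z i) : cd y n = cd z n :=
  congrArg Encodable.encode (pf_eq h)

end Codes

/-! ### The graph of a function as a binary sequence -/

/-- the characteristic function of the graph -/
def chi (g : ℕ → ℕ) : ℕ → Bool := fun p => decide (g p.unpair.1 = p.unpair.2)

lemma chi_pair (g : ℕ → ℕ) (a b : ℕ) : chi g (Nat.pair a b) = true ↔ g a = b := by
  simp [chi]

lemma chi_inj {g h : ℕ → ℕ} (e : chi g = chi h) : g = h := by
  funext a
  have h1 : chi g (Nat.pair a (g a)) = true := (chi_pair g a _).2 rfl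
  rw [e] at h1
  exact ((chi_pair h a _).1 h1).symm

/-! ### Definitions -/

/-- the possible catching points of `y` -/
def InB (y : ℕ → Bool) (n : ℕ) : Prop := ∃ l, n = 3 * cd y l

/-- the values at the possible catching points -/
def W (y : ℕ → Bool) (s : ℕ) : Prop := ∃ l, y (Nat.pair (3 * cd y l) s) = true

open Classical in
/-- the coding value -/
noncomputable def val (P : ℕ → Prop) (t : ℕ) : ℕ := if P (2 * t + 1) then 2 * t + 2 else 2 * t + 1

lemma val_cases (P : ℕ → Prop) (t : ℕ) : val P t = 2 * t + 1 ∨ val P t = 2 * t + 2 := by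
  unfold val
  split_ifs
  · exact Or.inr rfl
  · exact Or.inl rfl

lemma val_inj {P Q : ℕ → Prop} {t u : ℕ} (h : val P t = val Q u) : t = u := by
  rcases val_cases P t with h1 | h1 <;> rcases val_cases Q u with h2 | h2 <;> omega

/-- the catching points where the value is not the second one of a pair of values -/
def Bo (y : ℕ → Bool) (n : ℕ) : Prop :=
  InB y n ∧ ∀ t, y (Nat.pair n (2 * t + 2)) = true → ¬ W y (2 * t + 1)

/-- the value at `n` codes `σ` -/
def Cod (y : ℕ → Bool) (n : ℕ) (σ : List Bool) : Prop :=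
  σ.length = n ∧ (y (Nat.pair n (2 * Nat.pair n (Encodable.encode σ) + 1)) = true ∨
    y (Nat.pair n (2 * Nat.pair n (Encodable.encode σ) + 2)) = true)

/-- infinitely many values code extensions of `τ` -/
def Inf (y : ℕ → Bool) (τ : List Bool) : Prop :=
  ∀ N, ∃ n, N ≤ n ∧ Bo y n ∧ ∃ σ, Cod y n σ ∧ τ <+: σ

open Classical in
/-- the next bit of the leftmost branch -/
noncomputable def bit (y : ℕ → Bool) (τ : List Bool) : Bool :=
  if Inf y (τ ++ [false]) then false else true

/-- the initial segments of the leftmost branch -/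
noncomputable def pre (y : ℕ → Bool) : ℕ → List Bool
  | 0 => []
  | l + 1 => pre y l ++ [bit y (pre y l)]

/-- the leftmost branch -/
noncomputable def Y (y : ℕ → Bool) (l : ℕ) : Bool := bit y (pre y l)

lemma pre_eq (y : ℕ → Bool) (l : ℕ) : pre y l = pf (Y y) l := by
  induction l with
  | zero => rfl
  | succ l ih =>
    rw [pf_succ, ← ih]
    rfl

lemma pre_length (y : ℕ → Bool) (l : ℕ) : (pre y l).length = l := by
  rw [pre_eq, pf_length]

/-- the value at `n` codes an initial segment of the leftmost branch -/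
def Agree (y : ℕ → Bool) (n : ℕ) : Prop := Bo y n ∧ Cod y n (pre y n)

/-- the graph of a permutation -/
def Perm (y : ℕ → Bool) : Prop := ∃ g : ℕ → ℕ, Function.Bijective g ∧ y = chi g

/-- the value of `y` at `n` is the coding value of `z` -/
def Hit (z y : ℕ → Bool) (n : ℕ) : Prop :=
  y (Nat.pair n (val (W z) (Nat.pair n (cd z n)))) = true

/-- first approximation to the set of catching points -/
def H0 (y : ℕ → Bool) (n : ℕ) : Prop :=
  ((∀ N, ∃ m, N ≤ m ∧ Agree y m) ∧ Agree y n ∧ ¬ (Perm (Y y) ∧ Hit (Y y) y n)) ∨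
  (¬ (∀ N, ∃ m, N ≤ m ∧ Agree y m) ∧ Bo y n ∧ ¬ Agree y n ∧ ∀ σ, Cod y n σ →
    ∃ l, pre y l <+: σ ∧ ∀ m, m < n → Bo y m → ¬ Agree y m → ∀ τ, Cod y m τ → ¬ pre y l <+: τ)

/-- the set of catching points -/
def H (y : ℕ → Bool) (n : ℕ) : Prop := (∀ N, ∃ m, N ≤ m ∧ H0 y m) ∧ H0 y n

/-! ### Facts -/

lemma bo_of_H0 {y : ℕ → Bool} {n : ℕ} (h : H0 y n) : Bo y n := by
  rcases h with ⟨-, h, -⟩ | ⟨-, h, -⟩
  · exact h.1
  · exact h

lemma bo_of_H {y : ℕ → Bool} {n : ℕ} (h : H y n) : Bo y n := bo_of_H0 h.2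

lemma cod_unique {g : ℕ → ℕ} {n : ℕ} {σ τ : List Bool} (h1 : Cod (chi g) n σ)
    (h2 : Cod (chi g) n τ) : σ = τ := by
  obtain ⟨-, h1⟩ := h1
  obtain ⟨-, h2⟩ := h2
  rw [chi_pair, chi_pair] at h1 h2
  have key : Nat.pair n (Encodable.encode σ) = Nat.pair n (Encodable.encode τ) := by omega
  exact Encodable.encode_injective (Nat.pair_eq_pair.1 key).2

lemma cod_of_hit {y z : ℕ → Bool} {n : ℕ} (h : Hit z y n) : Cod y n (pf z n) := by
  refine ⟨pf_length z n, ?_⟩
  unfold Hit at h
  rcases val_cases (W z) (Nat.pair n (cd z n)) with h1 | h1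
  · rw [h1] at h; exact Or.inl h
  · rw [h1] at h; exact Or.inr h

lemma inB_inj (y : ℕ → Bool) : Function.Injective fun l => 3 * cd y l := by
  intro a b h
  have h' : 3 * cd y a = 3 * cd y b := h
  exact (cd_inj (show cd y a = cd y b by omega)).1

lemma inB_finite {y z : ℕ → Bool} (h : y ≠ z) : {n | InB y n ∧ InB z n}.Finite := by
  obtain ⟨d, hd⟩ := Function.ne_iff.1 h
  refine ((Set.finite_le_nat d).image (fun l => 3 * cd y l)).subset ?_
  rintro n ⟨⟨l, hl⟩, ⟨l', hl'⟩⟩
  refine ⟨l, ?_, hl.symm⟩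
  by_contra hc
  have hc' : d < l := not_le.1 hc
  exact hd ((cd_inj (show cd y l = cd z l' by omega)).2 d hc')

lemma bo_infinite {g : ℕ → ℕ} (hg : Function.Injective g) (N : ℕ) :
    ∃ n, N ≤ n ∧ Bo (chi g) n := by
  by_contra hc
  have hc : ∀ n, N ≤ n → ¬ Bo (chi g) n := fun n hn h => hc ⟨n, hn, h⟩
  have hfin : {n | Bo (chi g) n}.Finite := (Set.finite_lt_nat N).subset fun n hn => by
    by_contra h
    exact hc n (not_lt.1 h) hn
  have hinf : {n | InB (chi g) n}.Infinite := by
    have := Set.infinite_range_of_injective (inB_inj (chi g))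
    refine this.mono ?_
    rintro - ⟨l, rfl⟩
    exact ⟨l, rfl⟩
  have hinf2 : ({n | InB (chi g) n} \ {n | Bo (chi g) n}).Infinite := hinf.sdiff hfin
  have key : ∀ n ∈ {n | InB (chi g) n} \ {n | Bo (chi g) n}, ∃ m, Bo (chi g) m ∧
      g n = g m + 1 := by
    rintro n ⟨h1, h2⟩
    have h3 : ∃ t, chi g (Nat.pair n (2 * t + 2)) = true ∧ W (chi g) (2 * t + 1) := by
      by_contra h4
      exact h2 ⟨h1, fun t ht hW => h4 ⟨t, ht, hW⟩⟩
    obtain ⟨t, ht, l, hl⟩ := h3
    rw [chi_pair] at ht hl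
    refine ⟨3 * cd (chi g) l, ⟨⟨l, rfl⟩, fun u hu => ?_⟩, by omega⟩
    rw [chi_pair] at hu
    omega
  choose! f hf1 hf2 using key
  refine Set.infinite_of_injOn_mapsTo (f := f) ?_ (fun n hn => hf1 n hn) hinf2 hfin
  intro a ha b hb hab
  apply hg
  rw [hf2 a ha, hf2 b hb, hab]

/-- For every permutation `z`, only finitely many of the catching points are hit by the coding
values of `z`. -/
theorem finite_hit {g : ℕ → ℕ} {z : ℕ → Bool} (hz : Perm z) :
    {n | H (chi g) n ∧ Hit z (chi g) n}.Finite := by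
  set y := chi g with hy
  by_contra hinf
  have hinf : {n | H y n ∧ Hit z y n}.Infinite := hinf
  by_cases hA : ∀ N, ∃ m, N ≤ m ∧ Agree y m
  · have h1 : ∀ n, H y n → Agree y n ∧ ¬ (Perm (Y y) ∧ Hit (Y y) y n) := by
      intro n hn
      rcases hn.2 with ⟨-, h, h'⟩ | ⟨h, -⟩
      · exact ⟨h, h'⟩
      · exact absurd hA h
    have hYz : Y y = z := by
      funext i
      obtain ⟨n, ⟨hn, hn'⟩, hi⟩ := hinf.exists_gt i
      have h2 := (h1 n hn).1.2
      rw [pre_eq] at h2
      have h3 := cod_unique h2 (cod_of_hit hn')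
      exact (pf_inj h3).2 i hi
    obtain ⟨n, ⟨hn, hn'⟩, -⟩ := hinf.exists_gt 0
    refine (h1 n hn).2 ⟨?_, ?_⟩
    · rw [hYz]; exact hz
    · rw [hYz]; exact hn'
  · have h1 : ∀ n, H y n → Bo y n ∧ ¬ Agree y n ∧ ∀ σ, Cod y n σ →
      ∃ l, pre y l <+: σ ∧ ∀ m, m < n → Bo y m → ¬ Agree y m → ∀ τ, Cod y m τ →
        ¬ pre y l <+: τ := by
      intro n hn
      rcases hn.2 with ⟨h, -⟩ | ⟨-, h⟩
      · exact absurd h hA
      · exact h
    by_cases hYz : Y y = z
    · obtain ⟨n, ⟨hn, hn'⟩, -⟩ := hinf.exists_gt 0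
      refine (h1 n hn).2.1 ⟨(h1 n hn).1, ?_⟩
      rw [pre_eq, hYz]
      exact cod_of_hit hn'
    · obtain ⟨d, hd⟩ := Function.ne_iff.1 hYz
      obtain ⟨m, ⟨hm, hm'⟩, hdm⟩ := hinf.exists_gt d
      obtain ⟨n, ⟨hn, hn'⟩, hmn⟩ := hinf.exists_gt m
      obtain ⟨l, hl1, hl2⟩ := (h1 n hn).2.2 _ (cod_of_hit hn')
      rw [pre_eq, pf_prefix_iff] at hl1
      have hld : l ≤ d := by
        by_contra hc
        exact hd (hl1.2 d (not_le.1 hc))
      refine hl2 m hmn (h1 m hm).1 (h1 m hm).2.1 _ (cod_of_hit hm') ?_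
      rw [pre_eq, pf_prefix_iff]
      exact ⟨by omega, hl1.2⟩

/-- If there is no catching point then the leftmost branch is a permutation whose coding values
hit infinitely often. -/
theorem caught {g : ℕ → ℕ} (hg : Function.Injective g)
    (h0 : ¬ ∀ N, ∃ m, N ≤ m ∧ H0 (chi g) m) :
    Perm (Y (chi g)) ∧ ∀ N, ∃ n, N ≤ n ∧ InB (chi g) n ∧ Hit (Y (chi g)) (chi g) n := by
  have hBo := bo_infinite hg
  have hcu : ∀ {n : ℕ} {σ τ : List Bool}, Cod (chi g) n σ → Cod (chi g) n τ → σ = τ :=
    fun h1 h2 => cod_unique h1 h2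
  generalize hy : chi g = y at *
  have h0' : ∃ N0, ∀ m, N0 ≤ m → ¬ H0 y m := by
    by_contra hc
    exact h0 fun N => by
      by_contra hc'
      exact hc ⟨N, fun m hm h => hc' ⟨m, hm, h⟩⟩
  obtain ⟨N0, hN0⟩ := h0'
  by_cases hA : ∀ N, ∃ m, N ≤ m ∧ Agree y m
  · have key : ∀ m, N0 ≤ m → Agree y m → Perm (Y y) ∧ Hit (Y y) y m := by
      intro m hm hAm
      by_contra hc
      exact hN0 m hm (Or.inl ⟨hA, hAm, hc⟩)
    obtain ⟨m, hm, hAm⟩ := hA N0
    refine ⟨(key m hm hAm).1, fun N => ?_⟩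
    obtain ⟨n, hn, hAn⟩ := hA (max N N0)
    exact ⟨n, (le_max_left _ _).trans hn, hAn.1.1, (key n ((le_max_right _ _).trans hn) hAn).2⟩
  · exfalso
    have hA' : ∃ N2, ∀ m, N2 ≤ m → ¬ Agree y m := by
      by_contra hc
      exact hA fun N => by
        by_contra hc'
        exact hc ⟨N, fun m hm h => hc' ⟨m, hm, h⟩⟩
    obtain ⟨N2, hN2⟩ := hA'
    -- almost all points are coding
    have hcod : ∀ n, N0 ≤ n → Bo y n → ∃ σ, Cod y n σ := by
      intro n hn hb
      by_contra hc
      refine hN0 n hn (Or.inr ⟨hA, hb, fun h => hc ⟨_, h.2⟩, fun σ hσ => absurd ⟨σ, hσ⟩ hc⟩)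
    have hInf : ∀ l, Inf y (pre y l) := by
      intro l
      induction l with
      | zero =>
        intro N
        obtain ⟨n, hn, hb⟩ := hBo (max N N0)
        obtain ⟨σ, hσ⟩ := hcod n ((le_max_right _ _).trans hn) hb
        exact ⟨n, (le_max_left _ _).trans hn, hb, σ, hσ, List.nil_prefix⟩
      | succ l ih =>
        show Inf y (pre y l ++ [bit y (pre y l)])
        by_cases hb : Inf y (pre y l ++ [false])
        · have : bit y (pre y l) = false := by unfold bit; rw [if_pos hb]
          rw [this]; exact hb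
        · have h1 : bit y (pre y l) = true := by unfold bit; rw [if_neg hb]
          rw [h1]
          have h2 : ∃ N', ∀ n, N' ≤ n → Bo y n → ∀ σ, Cod y n σ →
              ¬ (pre y l ++ [false]) <+: σ := by
            by_contra hc
            exact hb fun N => by
              by_contra hc'
              exact hc ⟨N, fun m hm h σ hσ hp => hc' ⟨m, hm, h, σ, hσ, hp⟩⟩
          obtain ⟨N', hN'⟩ := h2
          intro N
          obtain ⟨n, hn, hbn, σ, hσ, τ, hτ⟩ := ih (max (max N N') (l + 1))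
          have hn1 : max N N' ≤ n := (le_max_left _ _).trans hn
          have hn2 : l + 1 ≤ n := (le_max_right _ _).trans hn
          refine ⟨n, (le_max_left _ _).trans hn1, hbn, σ, hσ, ?_⟩
          cases τ with
          | nil =>
            exfalso
            have := congrArg List.length hτ
            rw [List.append_nil, pre_length, hσ.1] at this
            omega
          | cons c τ =>
            cases c with
            | true => exact ⟨τ, by rw [← hτ]; simp⟩
            | false =>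
              exact absurd ⟨τ, by rw [← hτ]; simp⟩ (hN' n ((le_max_right _ _).trans hn1) hbn σ hσ)
    -- a record
    set L := max N0 N2 with hL
    obtain ⟨n1, hn1, hbn1, σ1, hσ1, hp1⟩ := hInf L L
    have hex : ∃ n, Bo y n ∧ ¬ Agree y n ∧ ∃ σ, Cod y n σ ∧ pre y L <+: σ :=
      ⟨n1, hbn1, hN2 n1 ((le_max_right _ _).trans hn1), σ1, hσ1, hp1⟩
    classical
    obtain ⟨hb, hna, σ, hσ, hp⟩ := Nat.find_spec hex
    set n := Nat.find hex with hn
    have hLn : L ≤ n := by
      have := hp.length_le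
      rw [pre_length, hσ.1] at this
      exact this
    refine hN0 n ((le_max_left _ _).trans hLn) (Or.inr ⟨hA, hb, hna, fun σ' hσ' => ?_⟩)
    rw [hcu hσ' hσ]
    refine ⟨L, hp, fun m hm hbm hnm τ hτ hpτ => ?_⟩
    exact Nat.find_min hex hm ⟨hbm, hnm, τ, hτ, hpτ⟩

/-- The coding values are never values of `g` at the catching points. -/
theorem val_avoid {g : ℕ → ℕ} {n t : ℕ} (hn : H (chi g) n) : val (W (chi g)) t ≠ g n := by
  intro h
  have hb := bo_of_H hn
  have hW : W (chi g) (g n) := by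
    obtain ⟨l, hl⟩ := hb.1
    exact ⟨l, by rw [← hl, chi_pair]⟩
  unfold val at h
  split_ifs at h with h1
  · exact hb.2 t (by rw [chi_pair]; exact h.symm) h1
  · rw [h] at h1
    exact h1 hW

end Q215.MED
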