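import Mathlib
import Pool.Agent.Q215.MEDComb

/-!
Measurability of the sets used in the construction of a closed maximal eventually different
family of permutations.
-/

open Set

namespace Q215.MED

section General

variable {X : Type} [MeasurableSpace X]

/-- measurable predicates -/
def M (P : X → Prop) : Prop := MeasurableSet {x | P x}

lemma M.const (p : Prop) : M (fun _ : X => p) := MeasurableSet.const p

lemma M.not {P : X → Prop} (h : M P) : M (fun x => ¬ P x) := MeasurableSet.compl h

lemma M.all {ι : Type} [Countable ι] {P : ι → X → Prop} (h : ∀ i, M (P i)) :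
    M (fun x => ∀ i, P i x) := by
  have : {x | ∀ i, P i x} = ⋂ i, {x | P i x} := by ext; simp
  unfold M
  rw [this]
  exact MeasurableSet.iInter h

lemma M.ex {ι : Type} [Countable ι] {P : ι → X → Prop} (h : ∀ i, M (P i)) :
    M (fun x => ∃ i, P i x) := by
  have : {x | ∃ i, P i x} = ⋃ i, {x | P i x} := by ext; simp
  unfold M
  rw [this]
  exact MeasurableSet.iUnion h

lemma M.and {P Q : X → Prop} (h : M P) (h' : M Q) : M (fun x => P x ∧ Q x) :=
  MeasurableSet.inter h h'

lemma M.or {P Q : X → Prop} (h : M P) (h' : M Q) : M (fun x => P x ∨ Q x) :=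
  MeasurableSet.union h h'

lemma M.imp {P Q : X → Prop} (h : M P) (h' : M Q) : M (fun x => P x → Q x) := by
  have := M.or (M.not h) h'
  unfold M at this ⊢
  convert this using 2
  funext x
  exact propext imp_iff_not_or

lemma M.congr {P Q : X → Prop} (h : M P) (e : ∀ x, Q x ↔ P x) : M Q := by
  have : P = Q := funext fun x => propext (e x).symm
  rwa [← this]

/-- countably valued measurable functions -/
def MF {D : Type} (F : X → D) : Prop := ∀ d, M (fun x => F x = d)

lemma M.subst {D : Type} [Countable D] {F : X → D} (hF : MF F) {R : D → X → Prop}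
    (hR : ∀ d, M (R d)) : M (fun x => R (F x) x) := by
  refine M.congr (M.ex fun d => M.and (hF d) (hR d)) fun x => ?_
  constructor
  · exact fun h => ⟨F x, rfl, h⟩
  · rintro ⟨d, h1, h2⟩
    rw [h1]; exact h2

lemma MF.comp {D E : Type} [Countable D] {F : X → D} (hF : MF F) (u : D → E) :
    MF (fun x => u (F x)) := fun e =>
  M.subst (R := fun d _ => u d = e) hF fun _ => M.const _

lemma M.comp {X' : Type} [MeasurableSpace X'] {P : X' → Prop} (h : M P) {f : X → X'}
    (hf : Measurable f) : M (fun x => P (f x)) := hf h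

lemma MF.comp' {X' D : Type} [MeasurableSpace X'] {F : X' → D} (h : MF F) {f : X → X'}
    (hf : Measurable f) : MF (fun x => F (f x)) := fun d => M.comp (h d) hf

end General

lemma mfBit (k : ℕ) : MF (fun y : ℕ → Bool => y k) := by
  intro d
  have h : Measurable (fun y : ℕ → Bool => y k) := measurable_pi_apply k
  exact h (MeasurableSet.of_discrete : MeasurableSet {b : Bool | b = d})

lemma mBit (k : ℕ) : M (fun y : ℕ → Bool => y k = true) := mfBit k true

lemma mfPf (n : ℕ) : MF (fun y : ℕ → Bool => pf y n) := by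
  induction n with
  | zero =>
    intro d
    exact M.congr (M.const ([] = d)) fun y => Iff.rfl
  | succ n ih =>
    intro d
    have h1 : M (fun y : ℕ → Bool => pf y n ++ [y n] = d) :=
      M.subst (R := fun τ y => τ ++ [y n] = d) ih fun τ =>
        M.subst (R := fun b _ => τ ++ [b] = d) (mfBit n) fun b => M.const _
    exact M.congr h1 fun y => by
      show pf y (n + 1) = d ↔ _
      rw [pf_succ]

lemma mfCd (n : ℕ) : MF (fun y : ℕ → Bool => cd y n) := (mfPf n).comp Encodable.encode

lemma mInB (n : ℕ) : M (fun y => InB y n) :=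
  M.ex fun l => M.subst (R := fun c _ => n = 3 * c) (mfCd l) fun _ => M.const _

lemma mW (s : ℕ) : M (fun y => W y s) :=
  M.ex fun l => M.subst (R := fun c y => y (Nat.pair (3 * c) s) = true) (mfCd l) fun _ => mBit _

lemma mBo (n : ℕ) : M (fun y => Bo y n) :=
  (mInB n).and (M.all fun _ => (mBit _).imp (mW _).not)

lemma mCod (n : ℕ) (σ : List Bool) : M (fun y => Cod y n σ) :=
  (M.const _).and ((mBit _).or (mBit _))

lemma mInf (τ : List Bool) : M (fun y => Inf y τ) :=
  M.all fun _ => M.ex fun n => (M.const _).and ((mBo n).and (M.ex fun σ =>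
    (mCod n σ).and (M.const _)))

lemma mfb (τ : List Bool) : MF (fun y => bit y τ) := by
  intro b
  cases b with
  | false =>
    refine M.congr (mInf (τ ++ [false])) fun y => ?_
    show bit y τ = false ↔ _
    unfold bit
    split_ifs with h <;> simp [h]
  | true =>
    refine M.congr (mInf (τ ++ [false])).not fun y => ?_
    show bit y τ = true ↔ _
    unfold bit
    split_ifs with h <;> simp [h]

lemma mfPre (l : ℕ) : MF (fun y => pre y l) := by
  induction l with
  | zero =>
    intro d
    exact M.congr (M.const ([] = d)) fun y => Iff.rfl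
  | succ l ih =>
    intro d
    exact M.subst (R := fun τ y => τ ++ [bit y τ] = d) ih fun τ =>
        M.subst (R := fun b _ => τ ++ [b] = d) (mfb τ) fun b => M.const _

lemma mfY (l : ℕ) : MF (fun y => Y y l) := fun d =>
  M.subst (R := fun τ y => bit y τ = d) (mfPre l) fun τ => mfb τ d

lemma measurable_Y : Measurable Y := by
  rw [measurable_pi_iff]
  intro l
  exact measurable_to_countable' fun b => mfY l b

lemma mAgree (n : ℕ) : M (fun y => Agree y n) :=
  (mBo n).and (M.subst (R := fun τ y => Cod y n τ) (mfPre n) fun τ => mCod n τ)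

lemma perm_iff (y : ℕ → Bool) : Perm y ↔
    (∀ a, ∃ b, y (Nat.pair a b) = true ∧ ∀ c, y (Nat.pair a c) = true → c = b) ∧
    (∀ b, ∃ a, y (Nat.pair a b) = true) ∧
    ∀ a c b, y (Nat.pair a b) = true → y (Nat.pair c b) = true → a = c := by
  constructor
  · rintro ⟨g, hg, rfl⟩
    simp only [chi_pair]
    refine ⟨fun a => ⟨g a, rfl, fun c hc => hc.symm⟩, fun b => hg.2 b, fun a c b h1 h2 =>
      hg.1 (h1.trans h2.symm)⟩
  · rintro ⟨h1, h2, h3⟩
    choose g hg1 hg2 using h1
    refine ⟨g, ⟨fun a c h => h3 a c (g a) (hg1 a) (by rw [h]; exact hg1 c), fun b => ?_⟩, ?_⟩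
    · obtain ⟨a, ha⟩ := h2 b
      exact ⟨a, (hg2 a b ha).symm⟩
    · funext p
      rw [← Nat.pair_unpair p]
      rcases hy : y (Nat.pair p.unpair.1 p.unpair.2) with _ | _
      · symm
        rw [← Bool.not_eq_true, chi_pair]
        intro hc
        rw [← hc, hg1] at hy
        exact Bool.noConfusion hy
      · symm
        rw [chi_pair]
        exact (hg2 _ _ hy).symm

lemma mPerm : M Perm :=
  M.congr ((M.all fun _ => M.ex fun _ => (mBit _).and (M.all fun _ => (mBit _).imp (M.const _))).and
    ((M.all fun _ => M.ex fun _ => mBit _).and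
      (M.all fun _ => M.all fun _ => M.all fun _ => (mBit _).imp ((mBit _).imp (M.const _)))))
    perm_iff

lemma mfVal (t : ℕ) : MF (fun z => val (W z) t) := by
  intro v
  refine M.congr (((mW (2 * t + 1)).and (M.const (2 * t + 2 = v))).or
    ((mW (2 * t + 1)).not.and (M.const (2 * t + 1 = v)))) fun z => ?_
  show val (W z) t = v ↔ _
  unfold val
  split_ifs with h <;> simp [h]

lemma mfVal' (n : ℕ) : MF (fun z : ℕ → Bool => val (W z) (Nat.pair n (cd z n))) := fun v =>
  M.subst (R := fun c z => val (W z) (Nat.pair n c) = v) (mfCd n) fun _ => mfVal _ v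

lemma mHit (n : ℕ) : M (fun y => Hit (Y y) y n) :=
  M.subst (R := fun v y => y (Nat.pair n v) = true) ((mfVal' n).comp' measurable_Y) fun _ => mBit _

lemma mH0 (n : ℕ) : M (fun y => H0 y n) := by
  have hA : M (fun y => ∀ N, ∃ m, N ≤ m ∧ Agree y m) :=
    M.all fun N => M.ex fun m => (M.const _).and (mAgree m)
  refine (hA.and ((mAgree n).and ((mPerm.comp measurable_Y).and (mHit n)).not)).or
    (hA.not.and ((mBo n).and ((mAgree n).not.and (M.all fun σ => (mCod n σ).imp
      (M.ex fun l => M.and ?_ ?_)))))
  · exact M.subst (R := fun τ _ => τ <+: σ) (mfPre l) fun _ => M.const _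
  · exact M.all fun m => (M.const _).imp ((mBo m).imp ((mAgree m).not.imp (M.all fun τ =>
      (mCod m τ).imp (M.not (M.subst (R := fun ρ _ => ρ <+: τ) (mfPre l) fun _ => M.const _)))))

lemma mH (n : ℕ) : M (fun y => H y n) :=
  (M.all fun _ => M.ex fun m => (M.const _).and (mH0 m)).and (mH0 n)

lemma measurable_chi : Measurable chi := by
  rw [measurable_pi_iff]
  intro p
  exact (measurable_of_countable fun v : ℕ => decide (v = p.unpair.2)).comp
    (measurable_pi_apply p.unpair.1)

lemma mCoord (k v : ℕ) : M (fun g : ℕ → ℕ => g k = v) := by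
  have h : Measurable (fun g : ℕ → ℕ => g k) := measurable_pi_apply k
  exact h (MeasurableSet.of_discrete : MeasurableSet {b : ℕ | b = v})

/-- the decisions used in the construction -/
def dec : ℕ → Set (ℕ → ℕ)
  | 0 => {g | Function.Bijective g}
  | k + 1 => match k % 3 with
    | 0 => {g | W (chi g) (k / 3)}
    | 1 => {g | H (chi g) (k / 3)}
    | _ => {g | ∃ n, H (chi g) n ∧ g n = k / 3}

lemma mem_dec_zero (g : ℕ → ℕ) : g ∈ dec 0 ↔ Function.Bijective g := Iff.rfl

lemma mem_dec_W (g : ℕ → ℕ) (s : ℕ) : g ∈ dec (3 * s + 1) ↔ W (chi g) s := by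
  have h1 : 3 * s % 3 = 0 := by omega
  have h2 : 3 * s / 3 = s := by omega
  unfold dec
  simp only [h1, h2]
  exact Iff.rfl

lemma mem_dec_H (g : ℕ → ℕ) (s : ℕ) : g ∈ dec (3 * s + 2) ↔ H (chi g) s := by
  have h1 : (3 * s + 1) % 3 = 1 := by omega
  have h2 : (3 * s + 1) / 3 = s := by omega
  unfold dec
  simp only [h1, h2]
  exact Iff.rfl

lemma mem_dec_V (g : ℕ → ℕ) (s : ℕ) : g ∈ dec (3 * s + 3) ↔ ∃ n, H (chi g) n ∧ g n = s := by
  have h1 : (3 * s + 2) % 3 = 2 := by omega
  have h2 : (3 * s + 2) / 3 = s := by omega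
  unfold dec
  simp only [h1, h2]
  exact Iff.rfl

lemma measurable_dec (k : ℕ) : MeasurableSet (dec k) := by
  cases k with
  | zero =>
    refine M.congr (P := fun g => Perm (chi g)) (mPerm.comp measurable_chi) fun g => ?_
    constructor
    · exact fun h => ⟨g, h, rfl⟩
    · rintro ⟨h, hh, e⟩
      rw [chi_inj e]; exact hh
  | succ k =>
    have h3 : k % 3 = 0 ∨ k % 3 = 1 ∨ k % 3 = 2 := by omega
    rcases h3 with h | h | h
    · unfold dec
      simp only [h]
      exact (mW _).comp measurable_chi
    · unfold dec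
      simp only [h]
      exact (mH _).comp measurable_chi
    · unfold dec
      simp only [h]
      exact M.ex fun n => ((mH n).comp measurable_chi).and (mCoord n _)

end Q215.MED
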