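import Mathlib

/-!
Borel sets of functions as sets that are decided by a unique witness from a closed set.
-/

open Set

namespace Q215.Resolve

/-- `A` is decided by the first value of the unique witness. -/
def Res (A : Set (ℕ → ℕ)) : Prop :=
  ∃ R : Set ((ℕ → ℕ) × (ℕ → ℕ)), IsClosed R ∧ (∀ g, ∃ w, (g, w) ∈ R) ∧
    (∀ g w w', (g, w) ∈ R → (g, w') ∈ R → w = w') ∧ ∀ g w, (g, w) ∈ R → (w 0 ≠ 0 ↔ g ∈ A)

lemma closed2 (P : ℕ → ℕ → Prop) (a b : ℕ) :
    IsClosed {p : (ℕ → ℕ) × (ℕ → ℕ) | P (p.2 a) (p.2 b)} :=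
  (isClosed_discrete {q : ℕ × ℕ | P q.1 q.2}).preimage
    (f := fun p : (ℕ → ℕ) × (ℕ → ℕ) => (p.2 a, p.2 b)) (by fun_prop)

lemma res_coord (k : ℕ) (S : Set ℕ) : Res {g | g k ∈ S} := by
  classical
  let F : (ℕ → ℕ) → (ℕ → ℕ) := fun g n => (fun v : ℕ => if n = 0 ∧ v ∈ S then 1 else 0) (g k)
  have hF : Continuous F := by
    refine continuous_pi fun n => ?_
    exact (continuous_of_discreteTopology (f := fun v : ℕ => if n = 0 ∧ v ∈ S then 1 else 0)).comp
      (continuous_apply k)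
  refine ⟨{p | p.2 = F p.1}, isClosed_eq continuous_snd (hF.comp continuous_fst),
    fun g => ⟨F g, rfl⟩, fun g w w' h h' => h.trans h'.symm, ?_⟩
  intro g w h
  have h' : w = F g := h
  rw [h']
  show (if 0 = 0 ∧ g k ∈ S then 1 else 0) ≠ 0 ↔ g k ∈ S
  simp

lemma res_compl {A : Set (ℕ → ℕ)} (h : Res A) : Res Aᶜ := by
  obtain ⟨R, hR, h1, h2, h3⟩ := h
  refine ⟨{p | (p.1, fun n => p.2 (n + 1)) ∈ R ∧ p.2 0 = if p.2 1 = 0 then 1 else 0}, ?_, ?_, ?_,
    ?_⟩
  · refine IsClosed.inter (hR.preimage (f := fun p : (ℕ → ℕ) × (ℕ → ℕ) =>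
      (p.1, fun n => p.2 (n + 1))) (by fun_prop)) ?_
    exact closed2 (fun a b => a = if b = 0 then 1 else 0) 0 1
  · intro g
    obtain ⟨w, hw⟩ := h1 g
    refine ⟨fun n => Nat.casesOn n (if w 0 = 0 then 1 else 0) w, hw, ?_⟩
    rfl
  · rintro g w w' ⟨a1, a2⟩ ⟨b1, b2⟩
    have h := h2 g _ _ a1 b1
    have h' : ∀ n, w (n + 1) = w' (n + 1) := fun n => congrFun h n
    funext n
    cases n with
    | zero =>
      have e := h' 0
      simp only at a2 b2
      rw [a2, b2]
      simp only [zero_add] at e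
      simp only [e]
    | succ n => exact h' n
  · rintro g w ⟨a1, a2⟩
    have h := h3 g _ a1
    simp only [zero_add] at h
    simp only at a2
    rw [a2, Set.mem_compl_iff, ← h]
    split_ifs with hc <;> simp [hc]

lemma res_iUnion {A : ℕ → Set (ℕ → ℕ)} (h : ∀ i, Res (A i)) : Res (⋃ i, A i) := by
  classical
  choose R hR h1 h2 h3 using h
  refine ⟨{p | (∀ i, (p.1, fun n => p.2 (Nat.pair i n + 1)) ∈ R i) ∧
    (∀ i, p.2 0 = 0 → p.2 (Nat.pair i 0 + 1) = 0) ∧
    (∀ i, p.2 0 = i + 1 → p.2 (Nat.pair i 0 + 1) ≠ 0) ∧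
    ∀ i j, p.2 0 = i + 1 → (j < i → p.2 (Nat.pair j 0 + 1) = 0)}, ?_, ?_, ?_, ?_⟩
  · refine IsClosed.inter ?_ (IsClosed.inter ?_ (IsClosed.inter ?_ ?_))
    · have : {p : (ℕ → ℕ) × (ℕ → ℕ) | ∀ i, (p.1, fun n => p.2 (Nat.pair i n + 1)) ∈ R i} =
          ⋂ i, (fun p : (ℕ → ℕ) × (ℕ → ℕ) => (p.1, fun n => p.2 (Nat.pair i n + 1))) ⁻¹' R i := by
        ext p; simp
      show IsClosed {p : (ℕ → ℕ) × (ℕ → ℕ) | ∀ i, (p.1, fun n => p.2 (Nat.pair i n + 1)) ∈ R i}
      rw [this]
      exact isClosed_iInter fun i => (hR i).preimage (by fun_prop)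
    · have : {p : (ℕ → ℕ) × (ℕ → ℕ) | ∀ i, p.2 0 = 0 → p.2 (Nat.pair i 0 + 1) = 0} =
          ⋂ i, {p | p.2 0 = 0 → p.2 (Nat.pair i 0 + 1) = 0} := by
        ext p; simp
      show IsClosed {p : (ℕ → ℕ) × (ℕ → ℕ) | ∀ i, p.2 0 = 0 → p.2 (Nat.pair i 0 + 1) = 0}
      rw [this]
      exact isClosed_iInter fun i => closed2 (fun a b => a = 0 → b = 0) 0 _
    · have : {p : (ℕ → ℕ) × (ℕ → ℕ) | ∀ i, p.2 0 = i + 1 → p.2 (Nat.pair i 0 + 1) ≠ 0} =
          ⋂ i, {p | p.2 0 = i + 1 → p.2 (Nat.pair i 0 + 1) ≠ 0} := by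
        ext p; simp
      show IsClosed {p : (ℕ → ℕ) × (ℕ → ℕ) | ∀ i, p.2 0 = i + 1 → p.2 (Nat.pair i 0 + 1) ≠ 0}
      rw [this]
      exact isClosed_iInter fun i => closed2 (fun a b => a = i + 1 → b ≠ 0) 0 _
    · have : {p : (ℕ → ℕ) × (ℕ → ℕ) | ∀ i j, p.2 0 = i + 1 →
          (j < i → p.2 (Nat.pair j 0 + 1) = 0)} =
          ⋂ i, ⋂ j, {p | p.2 0 = i + 1 → (j < i → p.2 (Nat.pair j 0 + 1) = 0)} := by
        ext p; simp
      show IsClosed {p : (ℕ → ℕ) × (ℕ → ℕ) | ∀ i j, p.2 0 = i + 1 →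
          (j < i → p.2 (Nat.pair j 0 + 1) = 0)}
      rw [this]
      exact isClosed_iInter fun i => isClosed_iInter fun j =>
        closed2 (fun a b => a = i + 1 → (j < i → b = 0)) 0 _
  · intro g
    choose w hw using fun i => h1 i g
    by_cases hex : ∃ i, w i 0 ≠ 0
    · let W : ℕ → ℕ := fun n => Nat.casesOn n (Nat.find hex + 1)
        (fun m => w m.unpair.1 m.unpair.2)
      have hW : ∀ i n, W (Nat.pair i n + 1) = w i n := by
        intro i n
        show w (Nat.pair i n).unpair.1 (Nat.pair i n).unpair.2 = w i n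
        rw [Nat.unpair_pair]
      have hW0 : W 0 = Nat.find hex + 1 := rfl
      refine ⟨W, fun i => ?_, fun i h => ?_, fun i h => ?_, fun i j h hj => ?_⟩
      · have : (fun n => W (Nat.pair i n + 1)) = w i := funext fun n => hW i n
        show (g, fun n => W (Nat.pair i n + 1)) ∈ R i
        rw [this]; exact hw i
      · exact absurd h (by show ¬ W 0 = 0; rw [hW0]; omega)
      · show W (Nat.pair i 0 + 1) ≠ 0
        have : Nat.find hex = i := by
          have h' : W 0 = i + 1 := h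
          rw [hW0] at h'; omega
        rw [hW, ← this]
        exact Nat.find_spec hex
      · show W (Nat.pair j 0 + 1) = 0
        have : Nat.find hex = i := by
          have h' : W 0 = i + 1 := h
          rw [hW0] at h'; omega
        rw [hW]
        by_contra hc
        exact Nat.find_min hex (by omega : j < Nat.find hex) hc
    · have hex' : ∀ i, w i 0 = 0 := fun i => by
        by_contra hc
        exact hex ⟨i, hc⟩
      let W : ℕ → ℕ := fun n => Nat.casesOn n 0 (fun m => w m.unpair.1 m.unpair.2)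
      have hW : ∀ i n, W (Nat.pair i n + 1) = w i n := by
        intro i n
        show w (Nat.pair i n).unpair.1 (Nat.pair i n).unpair.2 = w i n
        rw [Nat.unpair_pair]
      have hW0 : W 0 = 0 := rfl
      refine ⟨W, fun i => ?_, fun i h => ?_, fun i h => ?_, fun i j h hj => ?_⟩
      · have : (fun n => W (Nat.pair i n + 1)) = w i := funext fun n => hW i n
        show (g, fun n => W (Nat.pair i n + 1)) ∈ R i
        rw [this]; exact hw i
      · show W (Nat.pair i 0 + 1) = 0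
        rw [hW]; exact hex' i
      · exact absurd h (by show W 0 ≠ i + 1; rw [hW0]; omega)
      · exact absurd h (by show W 0 ≠ i + 1; rw [hW0]; omega)
  · rintro g w w' ⟨a1, a2, a3, a4⟩ ⟨b1, b2, b3, b4⟩
    simp only at a1 a2 a3 a4 b1 b2 b3 b4
    have h : ∀ i n, w (Nat.pair i n + 1) = w' (Nat.pair i n + 1) := fun i n =>
      congrFun (h2 i g _ _ (a1 i) (b1 i)) n
    have h' : ∀ m, w (m + 1) = w' (m + 1) := by
      intro m
      have := h m.unpair.1 m.unpair.2
      rwa [Nat.pair_unpair] at this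
    have h0 : w 0 = w' 0 := by
      rcases hw : w 0 with _ | i <;> rcases hw' : w' 0 with _ | j
      · rfl
      · exact absurd ((h j 0).symm.trans (a2 j hw)) (b3 j hw')
      · exact absurd ((h i 0).trans (b2 i hw')) (a3 i hw)
      · rcases lt_trichotomy i j with hij | hij | hij
        · exact absurd ((h i 0).trans (b4 j i hw' hij)) (a3 i hw)
        · rw [hij]
        · exact absurd ((h j 0).symm.trans (a4 i j hw hij)) (b3 j hw')
    funext n
    cases n with
    | zero => exact h0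
    | succ n => exact h' n
  · rintro g w ⟨a1, a2, a3, a4⟩
    simp only at a1 a2 a3 a4
    rw [mem_iUnion]
    constructor
    · intro h
      obtain ⟨i, hi⟩ := Nat.exists_eq_succ_of_ne_zero h
      exact ⟨i, (h3 i g _ (a1 i)).1 (a3 i hi)⟩
    · rintro ⟨i, hi⟩ hc
      exact (h3 i g _ (a1 i)).2 hi (a2 i hc)

/-- The sets decided by unique witnesses form a sigma-algebra. -/
@[instance_reducible]
def mR : MeasurableSpace (ℕ → ℕ) where
  MeasurableSet' := Res
  measurableSet_empty := by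
    have := res_coord 0 ∅
    simpa using this
  measurableSet_compl _ h := res_compl h
  measurableSet_iUnion _ h := res_iUnion h

theorem res_of_measurable {A : Set (ℕ → ℕ)} (hA : MeasurableSet A) : Res A := by
  have h : (MeasurableSpace.pi : MeasurableSpace (ℕ → ℕ)) ≤ mR := by
    refine iSup_le fun k => ?_
    rintro - ⟨S, -, rfl⟩
    exact res_coord k S
  exact h A hA

/-- the first component -/
def fst (x : ℕ → ℕ) : ℕ → ℕ := fun n => x (Nat.pair 0 n)

/-- Countably many Borel sets are decided simultaneously. -/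
theorem exists_closed {A : ℕ → Set (ℕ → ℕ)} (hA : ∀ k, MeasurableSet (A k)) :
    ∃ R : Set (ℕ → ℕ), IsClosed R ∧ (∀ g, ∃ x ∈ R, fst x = g) ∧
      (∀ x ∈ R, ∀ x' ∈ R, fst x = fst x' → x = x') ∧
      ∀ x ∈ R, ∀ k, (x (Nat.pair (k + 1) 0) ≠ 0 ↔ fst x ∈ A k) := by
  choose R hR h1 h2 h3 using fun k => res_of_measurable (hA k)
  refine ⟨{x | ∀ k, (fst x, fun n => x (Nat.pair (k + 1) n)) ∈ R k}, ?_, ?_, ?_, ?_⟩
  · have : {x : ℕ → ℕ | ∀ k, (fst x, fun n => x (Nat.pair (k + 1) n)) ∈ R k} =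
        ⋂ k, (fun x : ℕ → ℕ => (fst x, fun n => x (Nat.pair (k + 1) n))) ⁻¹' R k := by
      ext x; simp
    rw [this]
    refine isClosed_iInter fun k => (hR k).preimage ?_
    unfold fst
    fun_prop
  · intro g
    choose w hw using fun k => h1 k g
    let x : ℕ → ℕ := fun m => Nat.casesOn m.unpair.1 (g m.unpair.2) (fun k => w k m.unpair.2)
    have hx0 : fst x = g := by
      funext n
      simp [fst, x]
    have hxk : ∀ k, (fun n => x (Nat.pair (k + 1) n)) = w k := by
      intro k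
      funext n
      simp [x]
    refine ⟨x, fun k => ?_, hx0⟩
    rw [hx0, hxk]
    exact hw k
  · intro x hx x' hx' h
    have h0 : ∀ n, x (Nat.pair 0 n) = x' (Nat.pair 0 n) := fun n => congrFun h n
    have hk : ∀ k n, x (Nat.pair (k + 1) n) = x' (Nat.pair (k + 1) n) := by
      intro k n
      have a := hx k
      have b := hx' k
      rw [← h] at b
      exact congrFun (h2 k _ _ _ a b) n
    funext m
    rw [← Nat.pair_unpair m]
    rcases hm : m.unpair.1 with _ | k
    · exact h0 _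
    · exact hk _ _
  · intro x hx k
    exact h3 k _ _ (hx k)

end Q215.Resolve
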