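import Mathlib
import Pool.Agent.Q215.MEDComb
import Pool.Agent.Q215.MEDMeas
import Pool.Agent.Q215.Resolve

/-!
The recursion which builds the members of a closed maximal eventually different family of
permutations.
-/

open Set Filter Topology

namespace Q215.MED

open Q215.Resolve (fst)

/-- the candidate for a value below `n` -/
def sN (n : ℕ) : ℕ := ((n - 2) / 3).unpair.1

lemma sN_le (n : ℕ) : sN n ≤ n := by
  have h := Nat.unpair_left_le ((n - 2) / 3)
  unfold sN
  omega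

/-- the place where the value `s` is taken unless it has been taken before -/
def psi (y : ℕ → Bool) (s : ℕ) : ℕ := 3 * Nat.pair s (cd y s) + 2

lemma sN_psi (y : ℕ → Bool) (s : ℕ) : sN (psi y s) = s := by
  have h : (psi y s - 2) / 3 = Nat.pair s (cd y s) := by unfold psi; omega
  unfold sN
  rw [h, Nat.unpair_pair]

lemma lt_psi (y : ℕ → Bool) (s : ℕ) : s < psi y s := by
  have h := Nat.left_le_pair s (cd y s)
  unfold psi
  omega

lemma psi_mod (y : ℕ → Bool) (s : ℕ) : psi y s % 3 = 2 := by unfold psi; omega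

section Build

variable (Hp : ℕ → Prop) (g φ ψ : ℕ → ℕ) (V : ℕ → Prop)

open Classical in
/-- the recursion -/
noncomputable def build (n : ℕ) : ℕ :=
  if Hp n then g n
  else if n = ψ (sN n) ∧ ¬ V (sN n) ∧ ∀ i : Fin n, build i ≠ sN n then sN n
  else φ n
termination_by n
decreasing_by all_goals exact Fin.isLt _

variable {Hp g φ ψ V}

lemma build_H {n : ℕ} (h : Hp n) : build Hp g φ ψ V n = g n := by
  rw [build, if_pos h]

lemma build_psi {n : ℕ} (h : ¬ Hp n)
    (h' : n = ψ (sN n) ∧ ¬ V (sN n) ∧ ∀ i : Fin n, build Hp g φ ψ V i ≠ sN n) :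
    build Hp g φ ψ V n = sN n := by
  rw [build, if_neg h, if_pos h']

lemma build_phi {n : ℕ} (h : ¬ Hp n)
    (h' : ¬ (n = ψ (sN n) ∧ ¬ V (sN n) ∧ ∀ i : Fin n, build Hp g φ ψ V i ≠ sN n)) :
    build Hp g φ ψ V n = φ n := by
  rw [build, if_neg h, if_neg h']

lemma build_cases (n : ℕ) : (Hp n ∧ build Hp g φ ψ V n = g n) ∨
    (¬ Hp n ∧ n = ψ (build Hp g φ ψ V n) ∧ ¬ V (build Hp g φ ψ V n) ∧
      ∀ i < n, build Hp g φ ψ V i ≠ build Hp g φ ψ V n) ∨
    (¬ Hp n ∧ build Hp g φ ψ V n = φ n) := by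
  by_cases h : Hp n
  · exact Or.inl ⟨h, build_H h⟩
  · by_cases h' : n = ψ (sN n) ∧ ¬ V (sN n) ∧ ∀ i : Fin n, build Hp g φ ψ V i ≠ sN n
    · refine Or.inr (Or.inl ⟨h, ?_⟩)
      rw [build_psi h h']
      exact ⟨h'.1, h'.2.1, fun i hi => h'.2.2 ⟨i, hi⟩⟩
    · exact Or.inr (Or.inr ⟨h, build_phi h h'⟩)

theorem build_bijective (hg : Function.Injective g) (h1 : ∀ n, Hp n → V (g n))
    (h2 : ∀ s, V s → ∃ n, Hp n ∧ g n = s) (h3 : ∀ n, ¬ V (φ n)) (h4 : Function.Injective φ)
    (h5 : ∀ n, n < φ n) (h6 : ∀ s, s < ψ s) (h7 : ∀ s, sN (ψ s) = s) (h8 : ∀ s, ¬ Hp (ψ s)) :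
    Function.Bijective (build Hp g φ ψ V) := by
  set f := build Hp g φ ψ V with hf
  have key : ∀ n m, n < m → f n ≠ f m := by
    intro n m hnm e
    rcases build_cases (Hp := Hp) (g := g) (φ := φ) (ψ := ψ) (V := V) n with
        ⟨a, a'⟩ | ⟨a, a', a'', -⟩ | ⟨a, a'⟩ <;>
      rcases build_cases (Hp := Hp) (g := g) (φ := φ) (ψ := ψ) (V := V) m with
        ⟨b, b'⟩ | ⟨b, b', b'', c⟩ | ⟨b, b'⟩ <;>
      rw [← hf] at a' b'
    · exact absurd (hg (a'.symm.trans (e.trans b'))) (by omega)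
    · rw [← hf] at b''
      exact b'' (by rw [← e, a']; exact h1 n a)
    · exact h3 m (by rw [← b', ← e, a']; exact h1 n a)
    · rw [← hf] at a''
      exact a'' (by rw [e, b']; exact h1 m b)
    · exact c n hnm e
    · have u1 := h6 (f n)
      rw [← a'] at u1
      have u2 := h5 m
      rw [← b'] at u2
      omega
    · exact h3 n (by rw [← a', e, b']; exact h1 m b)
    · exact c n hnm e
    · exact absurd (h4 (a'.symm.trans (e.trans b'))) (by omega)
  constructor
  · intro n m e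
    by_contra hc
    rcases lt_or_gt_of_ne hc with h | h
    · exact key n m h e
    · exact key m n h e.symm
  · intro v
    by_cases hV : V v
    · obtain ⟨n, hn, hv⟩ := h2 v hV
      exact ⟨n, by rw [hf, build_H hn, hv]⟩
    · by_cases hex : ∀ i : Fin (ψ v), f i ≠ v
      · refine ⟨ψ v, ?_⟩
        rw [hf, build_psi (h8 v)]
        · exact h7 v
        · rw [h7]
          exact ⟨rfl, hV, hex⟩
      · push Not at hex
        obtain ⟨i, hi⟩ := hex
        exact ⟨i, hi⟩

lemma build_congr {Hp' V' : ℕ → Prop} {g' φ' ψ' : ℕ → ℕ} {n : ℕ} (e1 : Hp n ↔ Hp' n)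
    (e2 : g n = g' n) (e3 : ψ (sN n) = ψ' (sN n)) (e4 : V (sN n) ↔ V' (sN n)) (e5 : φ n = φ' n)
    (e6 : ∀ i < n, build Hp g φ ψ V i = build Hp' g' φ' ψ' V' i) :
    build Hp g φ ψ V n = build Hp' g' φ' ψ' V' n := by
  have hiff : (n = ψ (sN n) ∧ ¬ V (sN n) ∧ ∀ i : Fin n, build Hp g φ ψ V i ≠ sN n) ↔
      (n = ψ' (sN n) ∧ ¬ V' (sN n) ∧ ∀ i : Fin n, build Hp' g' φ' ψ' V' i ≠ sN n) := by
    rw [e3, e4]
    refine and_congr Iff.rfl (and_congr Iff.rfl (forall_congr' fun i => ?_))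
    rw [e6 i i.2]
  by_cases h : Hp n
  · rw [build_H h, build_H (e1.1 h), e2]
  · have h' : ¬ Hp' n := fun hc => h (e1.2 hc)
    by_cases hc : (n = ψ (sN n) ∧ ¬ V (sN n) ∧ ∀ i : Fin n, build Hp g φ ψ V i ≠ sN n)
    · rw [build_psi h hc, build_psi h' (hiff.1 hc)]
    · rw [build_phi h hc, build_phi h' (fun hc' => hc (hiff.2 hc')), e5]

end Build

/-- the information which is coded at `n` -/
def info (x : ℕ → ℕ) (n : ℕ) : ℕ := if n % 3 = 1 then cd x n else cd (chi (fst x)) n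

/-- the coding values of an index -/
noncomputable def phi (x : ℕ → ℕ) (n : ℕ) : ℕ :=
  val (fun s => x (Nat.pair (3 * s + 2) 0) ≠ 0) (Nat.pair n (info x n))

/-- the permutation with index `x` -/
noncomputable def Q (x : ℕ → ℕ) : ℕ → ℕ :=
  build (fun n => x (Nat.pair (3 * n + 3) 0) ≠ 0) (fst x) (phi x) (psi (chi (fst x)))
    (fun s => x (Nat.pair (3 * s + 4) 0) ≠ 0)

lemma val_congr {P P' : ℕ → Prop} {t : ℕ} (h : P (2 * t + 1) ↔ P' (2 * t + 1)) :
    val P t = val P' t := by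
  unfold val
  by_cases h1 : P (2 * t + 1)
  · rw [if_pos h1, if_pos (h.1 h1)]
  · rw [if_neg h1, if_neg fun h2 => h1 (h.2 h2)]

lemma ev_coord (x : ℕ → ℕ) (k : ℕ) : ∀ᶠ x' in 𝓝 x, x' k = x k := by
  have h : ContinuousAt (fun z : ℕ → ℕ => z k) x := (continuous_apply k).continuousAt
  exact h (isOpen_discrete {x k} |>.mem_nhds rfl)

lemma ev_all (x : ℕ → ℕ) (n : ℕ) {P : ℕ → (ℕ → ℕ) → Prop}
    (h : ∀ i < n, ∀ᶠ x' in 𝓝 x, P i x') : ∀ᶠ x' in 𝓝 x, ∀ i < n, P i x' := by
  have := (Filter.eventually_all_finite (Set.finite_lt_nat n) (l := 𝓝 x)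
    (p := fun i x' => P i x')).2 h
  exact this

lemma ev_Q (x : ℕ → ℕ) (n : ℕ) : ∀ᶠ x' in 𝓝 x, Q x' n = Q x n := by
  induction n using Nat.strong_induction_on with
  | _ n ih =>
    have E6 := ev_all x n ih
    have E3 : ∀ᶠ x' in 𝓝 x, ∀ i < n, fst x' i = fst x i := ev_all x n fun i _ => ev_coord x _
    have E5 : ∀ᶠ x' in 𝓝 x, ∀ i < n, x' i = x i := ev_all x n fun i _ => ev_coord x _
    filter_upwards [ev_coord x (Nat.pair (3 * n + 3) 0), ev_coord x (Nat.pair 0 n), E3,
      ev_coord x (Nat.pair (3 * sN n + 4) 0), E5, E6,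
      ev_coord x (Nat.pair (3 * (2 * Nat.pair n (info x n) + 1) + 2) 0)]
      with x' e1 e2 e3 e4 e5 e6 e7
    have hchi : ∀ i < n, chi (fst x') i = chi (fst x) i := by
      intro i hi
      have : i.unpair.1 < n := lt_of_le_of_lt (Nat.unpair_left_le i) hi
      unfold chi
      rw [e3 _ this]
    have hinfo : info x' n = info x n := by
      unfold info
      rw [cd_eq e5, cd_eq hchi]
    unfold Q
    apply build_congr
    · rw [e1]
    · exact e2
    · unfold psi
      rw [cd_eq (fun i hi => hchi i (lt_of_lt_of_le hi (sN_le n)))]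
    · rw [e4]
    · unfold phi
      rw [hinfo]
      apply val_congr
      show (x' _ ≠ 0) ↔ (x _ ≠ 0)
      rw [e7]
    · exact e6

lemma continuous_Q : Continuous Q := by
  refine continuous_pi fun n => continuous_iff_continuousAt.2 fun x => ?_
  have h : (fun x' => Q x n) =ᶠ[𝓝 x] fun x' => Q x' n := (ev_Q x n).mono fun x' h => h.symm
  exact Tendsto.congr' h tendsto_const_nhds

/-! ### Properties of the permutations -/

/-- the correct indices of permutations -/
structure Good (x : ℕ → ℕ) : Prop where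
  bij : Function.Bijective (fst x)
  hW : ∀ s, x (Nat.pair (3 * s + 2) 0) ≠ 0 ↔ W (chi (fst x)) s
  hH : ∀ n, x (Nat.pair (3 * n + 3) 0) ≠ 0 ↔ H (chi (fst x)) n
  hV : ∀ s, x (Nat.pair (3 * s + 4) 0) ≠ 0 ↔ ∃ n, H (chi (fst x)) n ∧ fst x n = s

lemma H_mod {y : ℕ → Bool} {n : ℕ} (h : H y n) : n % 3 = 0 := by
  obtain ⟨l, hl⟩ := (bo_of_H h).1
  omega

lemma phi_eq {x : ℕ → ℕ} (h : Good x) (n : ℕ) :
    phi x n = val (W (chi (fst x))) (Nat.pair n (info x n)) := by
  have : (fun s => x (Nat.pair (3 * s + 2) 0) ≠ 0) = W (chi (fst x)) :=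
    funext fun s => propext (h.hW s)
  unfold phi
  rw [this]

lemma lt_phi (x : ℕ → ℕ) (n : ℕ) : n < phi x n := by
  have h := Nat.left_le_pair n (info x n)
  unfold phi
  rcases val_cases (fun s => x (Nat.pair (3 * s + 2) 0) ≠ 0) (Nat.pair n (info x n)) with e | e <;>
    rw [e] <;> omega

theorem Q_bijective {x : ℕ → ℕ} (h : Good x) : Function.Bijective (Q x) := by
  apply build_bijective
  · exact h.bij.1
  · intro n hn
    exact (h.hV _).2 ⟨n, (h.hH n).1 hn, rfl⟩
  · intro s hs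
    obtain ⟨n, hn, e⟩ := (h.hV s).1 hs
    exact ⟨n, (h.hH n).2 hn, e⟩
  · intro n hn
    obtain ⟨m, hm, e⟩ := (h.hV _).1 hn
    rw [phi_eq h] at e
    exact val_avoid hm e.symm
  · intro a b e
    exact (Nat.pair_eq_pair.1 (val_inj e)).1
  · exact lt_phi x
  · exact lt_psi _
  · exact sN_psi _
  · intro s hs
    have h1 := H_mod ((h.hH _).1 hs)
    rw [psi_mod] at h1
    omega

lemma Q_cases {x : ℕ → ℕ} (h : Good x) (n : ℕ) : (H (chi (fst x)) n ∧ Q x n = fst x n) ∨
    (¬ H (chi (fst x)) n ∧ n = psi (chi (fst x)) (Q x n)) ∨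
    (¬ H (chi (fst x)) n ∧ Q x n = phi x n) := by
  rcases build_cases (Hp := fun n => x (Nat.pair (3 * n + 3) 0) ≠ 0) (g := fst x) (φ := phi x)
    (ψ := psi (chi (fst x))) (V := fun s => x (Nat.pair (3 * s + 4) 0) ≠ 0) n with
    ⟨a, b⟩ | ⟨a, b, -, -⟩ | ⟨a, b⟩
  · exact Or.inl ⟨(h.hH n).1 a, b⟩
  · exact Or.inr (Or.inl ⟨fun hc => a ((h.hH n).2 hc), b⟩)
  · exact Or.inr (Or.inr ⟨fun hc => a ((h.hH n).2 hc), b⟩)

lemma Q_phi {x : ℕ → ℕ} (h : Good x) {n : ℕ} (h1 : n % 3 ≠ 2) (h2 : ¬ H (chi (fst x)) n) :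
    Q x n = phi x n := by
  rcases Q_cases h n with ⟨a, -⟩ | ⟨-, a⟩ | ⟨-, a⟩
  · exact absurd a h2
  · have := psi_mod (chi (fst x)) (Q x n)
    rw [← a] at this
    exact absurd this h1
  · exact a

theorem finite_eq {x x' : ℕ → ℕ} (h : Good x) (h' : Good x') (hne : fst x ≠ fst x') :
    {n | Q x n = Q x' n}.Finite := by
  have hy : chi (fst x) ≠ chi (fst x') := fun e => hne (chi_inj e)
  have hx : x ≠ x' := fun e => hne (by rw [e])
  obtain ⟨d, hd⟩ := Function.ne_iff.1 hy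
  obtain ⟨d', hd'⟩ := Function.ne_iff.1 hx
  have p : Perm (chi (fst x)) := ⟨_, h.bij, rfl⟩
  have p' : Perm (chi (fst x')) := ⟨_, h'.bij, rfl⟩
  have F1 := inB_finite hy
  have F2 : {n | H (chi (fst x)) n ∧ Hit (chi (fst x')) (chi (fst x)) n}.Finite := finite_hit p'
  have F3 : {n | H (chi (fst x')) n ∧ Hit (chi (fst x)) (chi (fst x')) n}.Finite := finite_hit p
  have F4 := (Set.finite_le_nat d).image (psi (chi (fst x)))
  have F5 := Set.finite_le_nat (max d d')
  refine ((((F1.union F2).union F3).union F4).union F5).subset ?_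
  intro n hn
  have hn : Q x n = Q x' n := hn
  have hit : ∀ {z z' : ℕ → ℕ}, Good z → Good z' → H (chi (fst z)) n → fst z n = phi z' n →
      Hit (chi (fst z')) (chi (fst z)) n := by
    intro z z' hz hz' a e
    have hm := H_mod a
    unfold Hit
    rw [chi_pair, e, phi_eq hz']
    have : info z' n = cd (chi (fst z')) n := by
      unfold info
      rw [if_neg (by omega)]
    rw [this]
  rcases Q_cases h n with ⟨a, a'⟩ | ⟨a, a'⟩ | ⟨a, a'⟩ <;>
    rcases Q_cases h' n with ⟨b, b'⟩ | ⟨b, b'⟩ | ⟨b, b'⟩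
  · exact Or.inl (Or.inl (Or.inl (Or.inl ⟨(bo_of_H a).1, (bo_of_H b).1⟩)))
  · have h1 := H_mod a
    have h2 := psi_mod (chi (fst x')) (Q x' n)
    rw [← b'] at h2
    omega
  · exact Or.inl (Or.inl (Or.inl (Or.inr ⟨a, hit h h' a (by rw [← a', hn, b'])⟩)))
  · have h1 := H_mod b
    have h2 := psi_mod (chi (fst x)) (Q x n)
    rw [← a'] at h2
    omega
  · refine Or.inl (Or.inr ⟨Q x n, ?_, a'.symm⟩)
    by_contra hc
    have hc' : d < Q x n := not_le.1 hc
    have e : psi (chi (fst x)) (Q x n) = psi (chi (fst x')) (Q x n) := by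
      rw [← a']
      rw [hn, ← b']
    have e2 : cd (chi (fst x)) (Q x n) = cd (chi (fst x')) (Q x n) := by
      unfold psi at e
      have e3 : Nat.pair (Q x n) (cd (chi (fst x)) (Q x n)) =
        Nat.pair (Q x n) (cd (chi (fst x')) (Q x n)) := by omega
      exact (Nat.pair_eq_pair.1 e3).2
    exact hd ((cd_inj e2).2 d hc')
  · have h1 := lt_psi (chi (fst x)) (Q x n)
    rw [← a'] at h1
    have h2 := lt_phi x' n
    omega
  · exact Or.inl (Or.inl (Or.inr ⟨b, hit h' h b (by rw [← b', ← hn, a'])⟩))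
  · have h1 := lt_psi (chi (fst x')) (Q x' n)
    rw [← b'] at h1
    have h2 := lt_phi x n
    omega
  · refine Or.inr ?_
    show n ≤ max d d'
    by_contra hc
    have hc' : max d d' < n := not_le.1 hc
    have e : phi x n = phi x' n := by rw [← a', ← b', hn]
    have e1 : info x n = info x' n := by
      unfold phi at e
      exact (Nat.pair_eq_pair.1 (val_inj e)).2
    unfold info at e1
    split_ifs at e1 with hmod
    · exact hd' ((cd_inj e1).2 d' (lt_of_le_of_lt (le_max_right _ _) hc'))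
    · exact hd ((cd_inj e1).2 d (lt_of_le_of_lt (le_max_left _ _) hc'))

/-- There is a closed maximal eventually different family of permutations. -/
theorem exists_closed_family : ∃ F : Set (ℕ → ℕ), IsClosed F ∧
    (∀ f ∈ F, Function.Bijective f) ∧
    (∀ f ∈ F, ∀ g ∈ F, f ≠ g → {n | f n = g n}.Finite) ∧
    ∀ g : ℕ → ℕ, Function.Bijective g → ∃ f ∈ F, {n | f n = g n}.Infinite := by
  obtain ⟨R, hR, h1, h2, h3⟩ := Q215.Resolve.exists_closed measurable_dec
  have good : ∀ x ∈ R, x (Nat.pair 1 0) ≠ 0 → Good x := by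
    intro x hx h0
    refine ⟨(h3 x hx 0).1 h0, fun s => ?_, fun s => ?_, fun s => ?_⟩
    · rw [← mem_dec_W]; exact h3 x hx (3 * s + 1)
    · rw [← mem_dec_H]; exact h3 x hx (3 * s + 2)
    · rw [← mem_dec_V]; exact h3 x hx (3 * s + 3)
  have good' : ∀ g : ℕ → ℕ, Function.Bijective g → ∃ x ∈ R, x (Nat.pair 1 0) ≠ 0 ∧ fst x = g := by
    intro g hg
    obtain ⟨x, hx, e⟩ := h1 g
    exact ⟨x, hx, (h3 x hx 0).2 (by rw [mem_dec_zero, e]; exact hg), e⟩
  refine ⟨Q '' (R ∩ {x | x (Nat.pair 1 0) ≠ 0}), ?_, ?_, ?_, ?_⟩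
  · apply IsSeqClosed.isClosed
    intro u f hu hf
    choose x hx hxu using hu
    have hg : ∀ i, Good (x i) := fun i => good _ (hx i).1 (hx i).2
    have hfe : ∀ n, ∀ᶠ i in atTop, u i n = f n := by
      intro n
      have := (tendsto_pi_nhds.1 hf n).eventually_mem ((isOpen_discrete {f n}).mem_nhds rfl)
      exact this
    have step : ∀ k, ∃ c, ∀ᶠ i in atTop, x i k = c := by
      intro k
      set n := 3 * k + 4 with hn
      have hphi : ∀ i, u i n = phi (x i) n := by
        intro i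
        rw [← hxu i]
        refine Q_phi (hg i) (by omega) fun hc => ?_
        have := H_mod hc
        omega
      obtain ⟨i0, hi0⟩ := eventually_atTop.1 (hfe n)
      refine ⟨x i0 k, eventually_atTop.2 ⟨i0, fun i hi => ?_⟩⟩
      have e : phi (x i) n = phi (x i0) n := by
        rw [← hphi, ← hphi, hi0 i hi, hi0 i0 le_rfl]
      have e1 : info (x i) n = info (x i0) n := by
        unfold phi at e
        exact (Nat.pair_eq_pair.1 (val_inj e)).2
      unfold info at e1
      rw [if_pos (by omega), if_pos (by omega)] at e1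
      exact (cd_inj e1).2 k (by omega)
    choose c hc using step
    have hlim : Tendsto x atTop (𝓝 c) := by
      rw [tendsto_pi_nhds]
      intro k
      exact Tendsto.congr' ((hc k).mono fun i h => h.symm) tendsto_const_nhds
    have hclosed : IsClosed (R ∩ {x : ℕ → ℕ | x (Nat.pair 1 0) ≠ 0}) :=
      hR.inter ((isClosed_discrete {v : ℕ | v ≠ 0}).preimage
        (f := fun x : ℕ → ℕ => x (Nat.pair 1 0)) (by fun_prop))
    refine ⟨c, hclosed.mem_of_tendsto hlim (Eventually.of_forall hx), ?_⟩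
    have h5 : Tendsto (fun i => Q (x i)) atTop (𝓝 (Q c)) :=
      (continuous_Q.tendsto c).comp hlim
    have h6 : (fun i => Q (x i)) = u := funext hxu
    rw [h6] at h5
    exact tendsto_nhds_unique h5 hf
  · rintro - ⟨x, ⟨hx, hx0⟩, rfl⟩
    exact Q_bijective (good x hx hx0)
  · rintro - ⟨x, ⟨hx, hx0⟩, rfl⟩ - ⟨x', ⟨hx', hx0'⟩, rfl⟩ hne
    refine finite_eq (good x hx hx0) (good x' hx' hx0') fun e => hne ?_
    rw [h2 x hx x' hx' e]
  · intro g hg
    obtain ⟨x, hx, hx0, e⟩ := good' g hg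
    have gx := good x hx hx0
    by_cases hinf : ∀ N, ∃ m, N ≤ m ∧ H0 (chi g) m
    · refine ⟨Q x, ⟨x, ⟨hx, hx0⟩, rfl⟩, ?_⟩
      refine Set.infinite_of_forall_exists_gt fun N => ?_
      obtain ⟨m, hm, hm'⟩ := hinf (N + 1)
      refine ⟨m, ?_, by omega⟩
      have hH : H (chi (fst x)) m := by rw [e]; exact ⟨hinf, hm'⟩
      rcases Q_cases gx m with ⟨a, b⟩ | ⟨a, b⟩ | ⟨a, b⟩
      · show Q x m = g m
        rw [b, e]
      · exact absurd hH a
      · exact absurd hH a
    · obtain ⟨⟨g', hg', e'⟩, hY⟩ := caught hg.1 hinf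
      obtain ⟨x', hx', hx0', e''⟩ := good' g' hg'
      have gx' := good x' hx' hx0'
      have hch : chi (fst x') = Y (chi g) := by rw [e'', ← e']
      refine ⟨Q x', ⟨x', ⟨hx', hx0'⟩, rfl⟩, ?_⟩
      have hfin : {n | InB (chi g) n ∧ H (Y (chi g)) n}.Finite := by
        by_cases hYg : Y (chi g) = chi g
        · refine Set.finite_empty.subset ?_
          rintro n ⟨-, hn⟩
          rw [hYg] at hn
          exact absurd hn.1 hinf
        · refine (inB_finite hYg).subset ?_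
          rintro n ⟨h5, h6⟩
          exact ⟨(bo_of_H h6).1, h5⟩
      have hinf2 : {n | InB (chi g) n ∧ Hit (Y (chi g)) (chi g) n}.Infinite := by
        refine Set.infinite_of_forall_exists_gt fun N => ?_
        obtain ⟨m, hm, hm'⟩ := hY (N + 1)
        exact ⟨m, hm', by omega⟩
      refine (hinf2.sdiff hfin).mono ?_
      rintro n ⟨⟨h5, h6⟩, h7⟩
      have h8 : ¬ H (chi (fst x')) n := by
        rw [hch]
        exact fun hc => h7 ⟨h5, hc⟩
      have hmod : n % 3 = 0 := by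
        obtain ⟨l, hl⟩ := h5
        omega
      show Q x' n = g n
      rw [Q_phi gx' (by omega) h8, phi_eq gx', hch]
      have : info x' n = cd (Y (chi g)) n := by
        unfold info
        rw [if_neg (by omega), hch]
      rw [this]
      exact ((chi_pair _ _ _).1 h6).symm

end Q215.MED
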