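import Mathlib
import Pool.Agent.Helper669.Forcing

/-!
The Laver-like Namba forcing: conditions, amalgamation, pure decision.
-/

open Cardinal Set Ordinal

namespace Q215.Namba

/-- The well-ordered set `ω₂`. -/
abbrev Om2 : Type := (ω_ 2).ToType

/-- The immediate successors of the node `t` in `p`. -/
def succs (p : Set (List Om2)) (t : List Om2) : Set Om2 := {a | t ++ [a] ∈ p}

/-- `s` is a stem of `p`: every node of `p` is comparable with `s`, and every node of `p`
extending `s` has `ℵ₂` many immediate successors in `p`. -/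
structure IsStem (p : Set (List Om2)) (s : List Om2) : Prop where
  mem : s ∈ p
  comparable : ∀ t ∈ p, t <+: s ∨ s <+: t
  large : ∀ t ∈ p, s <+: t → #(succs p t) = ℵ_ 2

/-- The conditions: subtrees with a stem. -/
structure IsCond (p : Set (List Om2)) : Prop where
  tree : ∀ t ∈ p, ∀ u, u <+: t → u ∈ p
  stem : ∃ s, IsStem p s

/-- The Laver-like Namba forcing, ordered by inclusion. -/
def NmPrime : Type := {p : Set (List Om2) // IsCond p}

instance : Preorder NmPrime := Preorder.lift (fun p => p.1)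

/-! ### Small and large sets -/

lemma aleph_two : (ℵ_ 2 : Cardinal.{0}) = Order.succ (ℵ_ 1) := by
  rw [Cardinal.succ_aleph]; norm_num

lemma card_Om2 : #Om2 = ℵ_ 2 := by simp

lemma large_iff {A : Set Om2} : #A = ℵ_ 2 ↔ ¬ #A ≤ ℵ_ 1 := by
  constructor
  · intro h
    rw [h, aleph_two, not_le]
    exact Order.lt_succ _
  · intro h
    refine le_antisymm ((Cardinal.mk_set_le A).trans_eq card_Om2) ?_
    rw [aleph_two]
    exact Order.succ_le_of_lt (not_le.1 h)

lemma small_iUnion {ι : Type} (hι : #ι ≤ ℵ_ 1) {A : ι → Set Om2} (hA : ∀ i, #(A i) ≤ ℵ_ 1) :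
    #(⋃ i, A i : Set Om2) ≤ ℵ_ 1 := by
  calc #(⋃ i, A i : Set Om2) ≤ Cardinal.sum fun i => #(A i) := Cardinal.mk_iUnion_le_sum_mk
    _ ≤ Cardinal.sum fun _ : ι => ℵ_ 1 := Cardinal.sum_le_sum _ _ hA
    _ = #ι * ℵ_ 1 := by rw [Cardinal.sum_const]; simp
    _ ≤ ℵ_ 1 * ℵ_ 1 := by gcongr
    _ = ℵ_ 1 := Cardinal.mul_eq_self (Cardinal.aleph0_le_aleph 1)

lemma small_mono {A B : Set Om2} (h : A ⊆ B) (hB : #B ≤ ℵ_ 1) : #A ≤ ℵ_ 1 :=
  (Cardinal.mk_le_mk_of_subset h).trans hB

lemma small_union {A B : Set Om2} (hA : #A ≤ ℵ_ 1) (hB : #B ≤ ℵ_ 1) :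
    #(A ∪ B : Set Om2) ≤ ℵ_ 1 := by
  refine (Cardinal.mk_union_le A B).trans ?_
  calc #A + #B ≤ ℵ_ 1 + ℵ_ 1 := add_le_add hA hB
    _ = ℵ_ 1 := Cardinal.add_eq_self (Cardinal.aleph0_le_aleph 1)

lemma large_nonempty {A : Set Om2} (h : #A = ℵ_ 2) : A.Nonempty := by
  rw [nonempty_iff_ne_empty]
  rintro rfl
  rw [Cardinal.mk_eq_zero] at h
  exact absurd h.symm (Cardinal.aleph_pos 2).ne'

lemma not_large_subsingleton {A : Set Om2} (h : A.Subsingleton) : #A ≠ ℵ_ 2 := by
  rw [Ne, large_iff, not_not]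
  exact (Cardinal.mk_le_one_iff_set_subsingleton.2 h).trans
    (Cardinal.one_le_aleph0.trans (Cardinal.aleph0_le_aleph 1))

/-- removing a small set from a large set. -/
lemma large_sdiff {A B : Set Om2} (hA : #A = ℵ_ 2) (hB : #B ≤ ℵ_ 1) :
    #(A \ B : Set Om2) = ℵ_ 2 := by
  rw [large_iff] at hA ⊢
  intro h
  apply hA
  refine small_mono ?_ (small_union h hB)
  intro x hx
  by_cases hxB : x ∈ B
  · exact Or.inr hxB
  · exact Or.inl ⟨hx, hxB⟩

/-! ### Conditions -/

/-- conditions with a given stem. -/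
structure Cd (s : List Om2) (p : Set (List Om2)) : Prop where
  tree : ∀ t ∈ p, ∀ u, u <+: t → u ∈ p
  stem : IsStem p s

lemma Cd.isCond {s : List Om2} {p : Set (List Om2)} (h : Cd s p) : IsCond p := ⟨h.tree, s, h.stem⟩

/-- the nodes comparable with `t`. -/
def rs (p : Set (List Om2)) (t : List Om2) : Set (List Om2) := {u | u ∈ p ∧ (u <+: t ∨ t <+: u)}

lemma rs_sub (p : Set (List Om2)) (t : List Om2) : rs p t ⊆ p := fun _ h => h.1

lemma Cd.restr {s t : List Om2} {p : Set (List Om2)} (h : Cd s p) (ht : t ∈ p) (hst : s <+: t) :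
    Cd t (rs p t) := by
  refine ⟨?_, ⟨ht, Or.inl (List.prefix_refl t)⟩, fun u hu => hu.2, ?_⟩
  · rintro u ⟨hu, hc⟩ v hv
    refine ⟨h.tree u hu v hv, ?_⟩
    rcases hc with hc | hc
    · exact Or.inl (hv.trans hc)
    · exact List.prefix_or_prefix_of_prefix hv hc
  · rintro u ⟨hu, -⟩ htu
    have e : succs (rs p t) u = succs p u := by
      ext a
      constructor
      · exact fun h => h.1
      · exact fun h => ⟨h, Or.inr (htu.trans (List.prefix_append u [a]))⟩
    rw [e]
    exact h.stem.large u hu (hst.trans htu)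

lemma prefix_concat_cases {s t : List Om2} {i : Om2} (h1 : s <+: t) (h2 : t <+: s ++ [i]) :
    t = s ∨ t = s ++ [i] := by
  rcases List.prefix_concat_iff.1 h2 with h | h
  · exact Or.inr h
  · exact Or.inl (h.eq_of_length (le_antisymm h.length_le h1.length_le))

lemma concat_inj {s : List Om2} {i j : Om2} {t : List Om2} (h1 : s ++ [i] <+: t)
    (h2 : s ++ [j] <+: t) : i = j := by
  have h3 : s ++ [i] = s ++ [j] := by
    rcases List.prefix_or_prefix_of_prefix h1 h2 with h | h
    · exact h.eq_of_length (by simp)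
    · exact (h.eq_of_length (by simp)).symm
  simpa using h3

lemma Cd.amalgam {s : List Om2} {I : Set Om2} (hI : #I = ℵ_ 2) {q : Om2 → Set (List Om2)}
    (hq : ∀ i ∈ I, Cd (s ++ [i]) (q i)) : Cd s (⋃ i ∈ I, q i) := by
  obtain ⟨i0, hi0⟩ := large_nonempty hI
  refine ⟨?_, ?_, ?_, ?_⟩
  · intro t ht u hu
    obtain ⟨i, hi, ht⟩ := mem_iUnion₂.1 ht
    exact mem_iUnion₂.2 ⟨i, hi, (hq i hi).tree t ht u hu⟩
  · exact mem_iUnion₂.2 ⟨i0, hi0, (hq i0 hi0).tree _ (hq i0 hi0).stem.mem _
      (List.prefix_append s [i0])⟩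
  · intro t ht
    obtain ⟨i, hi, ht⟩ := mem_iUnion₂.1 ht
    rcases (hq i hi).stem.comparable t ht with h | h
    · exact List.prefix_or_prefix_of_prefix h (List.prefix_append s [i])
    · exact Or.inr ((List.prefix_append s [i]).trans h)
  · intro t ht hst
    obtain ⟨i, hi, hti⟩ := mem_iUnion₂.1 ht
    by_cases hts : t = s
    · subst hts
      rw [large_iff] at hI ⊢
      intro hsm
      apply hI
      refine small_mono (fun j hj => ?_) hsm
      exact mem_iUnion₂.2 ⟨j, hj, (hq j hj).stem.mem⟩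
    · have hsi : s ++ [i] <+: t := by
        rcases (hq i hi).stem.comparable t hti with h | h
        · rcases prefix_concat_cases hst h with h' | h'
          · exact absurd h' hts
          · rw [h']
        · exact h
      have hl := (hq i hi).stem.large t hti hsi
      rw [large_iff] at hl ⊢
      intro hsm
      exact hl (small_mono (show succs (q i) t ⊆ succs (⋃ i ∈ I, q i) t from
        fun j hj => mem_iUnion₂.2 ⟨i, hi, hj⟩) hsm)

/-- The stem of a stronger condition extends the stem. -/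
lemma stem_prefix {s u : List Om2} {q r : Set (List Om2)} (hq : Cd s q) (hr : Cd u r)
    (h : r ⊆ q) : s <+: u := by
  rcases hq.stem.comparable u (h hr.stem.mem) with h1 | h1
  · by_cases hus : u = s
    · rw [hus]
    · exfalso
      have hl := hr.stem.large u hr.stem.mem (List.prefix_refl u)
      apply not_large_subsingleton _ hl
      have key : ∀ a ∈ succs r u, u ++ [a] <+: s := by
        intro a ha
        rcases hq.stem.comparable _ (h ha) with h2 | h2
        · exact h2
        · rcases prefix_concat_cases h1 h2 with h3 | h3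
          · exact absurd h3.symm hus
          · rw [h3]
      intro a ha b hb
      exact concat_inj (key a ha) (key b hb)
  · exact h1

lemma exists_long {u : List Om2} {r : Set (List Om2)} (hr : Cd u r) (n : ℕ) :
    ∃ v ∈ r, u <+: v ∧ n ≤ v.length := by
  induction n with
  | zero => exact ⟨u, hr.stem.mem, List.prefix_refl u, Nat.zero_le _⟩
  | succ n ih =>
    obtain ⟨v, hv, huv, hn⟩ := ih
    obtain ⟨a, ha⟩ := large_nonempty (hr.stem.large v hv huv)
    exact ⟨v ++ [a], ha, huv.trans (List.prefix_append v [a]), by simp; omega⟩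

lemma sub_piece {s u : List Om2} {I : Set Om2} {q : Om2 → Set (List Om2)}
    (hq : ∀ i ∈ I, Cd (s ++ [i]) (q i)) {r : Set (List Om2)} (hr : Cd u r)
    (hrq : r ⊆ ⋃ i ∈ I, q i) {i0 : Om2} (hi0 : i0 ∈ I) (hu : s ++ [i0] <+: u) : r ⊆ q i0 := by
  intro t ht
  obtain ⟨j, hj, htj⟩ := mem_iUnion₂.1 (hrq ht)
  have hcase : t <+: s ++ [i0] ∨ s ++ [i0] <+: t := by
    rcases hr.stem.comparable t ht with h | h
    · exact List.prefix_or_prefix_of_prefix h hu
    · exact Or.inr (hu.trans h)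
  rcases hcase with h | h
  · exact (hq i0 hi0).tree _ (hq i0 hi0).stem.mem _ h
  · rcases (hq j hj).stem.comparable t htj with h' | h'
    · have h3 : s ++ [i0] <+: s ++ [j] := h.trans h'
      have : i0 = j := concat_inj h3 (List.prefix_refl _)
      subst this
      exact htj
    · have : i0 = j := concat_inj h h'
      subst this
      exact htj

/-! ### Regular open sets of conditions and pure decision -/

/-- downward closed, and closed under density below. -/
structure Reg (D : Set NmPrime) : Prop where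
  down : ∀ p ∈ D, ∀ q, q ≤ p → q ∈ D
  dense : ∀ p, (∀ q, q ≤ p → ∃ r, r ≤ q ∧ r ∈ D) → p ∈ D

/-- the condition as an element of the forcing. -/
def Cd.c {s : List Om2} {p : Set (List Om2)} (h : Cd s p) : NmPrime := ⟨p, h.isCond⟩

lemma exists_cd (p : NmPrime) : ∃ s, Cd s p.1 := by
  obtain ⟨s, hs⟩ := p.2.stem
  exact ⟨s, p.2.tree, hs⟩

lemma amalgam_mem {s : List Om2} {I : Set Om2} (hI : #I = ℵ_ 2) {q : Om2 → Set (List Om2)}
    (hq : ∀ i ∈ I, Cd (s ++ [i]) (q i)) {D : Set NmPrime} (hD : Reg D)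
    (hqD : ∀ i (hi : i ∈ I), (hq i hi).c ∈ D) : (Cd.amalgam hI hq).c ∈ D := by
  apply hD.dense
  intro r hr
  have hr' : r.1 ⊆ ⋃ i ∈ I, q i := hr
  obtain ⟨u, hu⟩ := exists_cd r
  have hsu := stem_prefix (Cd.amalgam hI hq) hu hr'
  obtain ⟨v, hv, huv, hlen⟩ := exists_long hu (s.length + 1)
  obtain ⟨i, hi, hvi⟩ := mem_iUnion₂.1 (hr' hv)
  have hsv : s ++ [i] <+: v := by
    rcases (hq i hi).stem.comparable v hvi with h | h
    · have := h.eq_of_length (le_antisymm h.length_le (by simpa using hlen))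
      rw [this]
    · exact h
  have hc := hu.restr hv huv
  refine ⟨hc.c, (rs_sub _ _ : rs r.1 v ⊆ r.1), ?_⟩
  apply hD.down _ (hqD i hi)
  show rs r.1 v ⊆ q i
  exact sub_piece hq hc ((rs_sub _ _).trans hr') hi hsv

/-- Pure decision between at most `ℵ₁` many alternatives. -/
lemma pure_decision {A : Type} (hA : #A ≤ ℵ_ 1) {D : A → Set NmPrime} (hD : ∀ a, Reg (D a))
    {s : List Om2} {q : Set (List Om2)} (hq : Cd s q)
    (hdense : ∀ r : NmPrime, r.1 ⊆ q → ∃ r', r' ≤ r ∧ ∃ a, r' ∈ D a) :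
    ∃ q', q' ⊆ q ∧ ∃ h : Cd s q', ∃ a, h.c ∈ D a := by
  classical
  let Dec : List Om2 → Set (List Om2) → Prop := fun t r =>
    ∃ r', r' ⊆ r ∧ ∃ h : Cd t r', ∃ a, h.c ∈ D a
  by_contra hcon
  have hs : ¬ Dec s q := hcon
  -- undecided nodes have few decided successors
  have key : ∀ t r, Cd t r → ¬ Dec t r → #({i | i ∈ succs r t ∧ Dec (t ++ [i]) (rs r (t ++ [i]))} :
      Set Om2) ≤ ℵ_ 1 := by
    intro t r htr hnd
    by_contra hbig
    apply hnd
    have hch : ∀ i, ∃ a : A, ∃ r' : Set (List Om2), (i ∈ succs r t ∧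
        Dec (t ++ [i]) (rs r (t ++ [i]))) → r' ⊆ rs r (t ++ [i]) ∧
          ∃ h : Cd (t ++ [i]) r', h.c ∈ D a := by
      intro i
      by_cases h : i ∈ succs r t ∧ Dec (t ++ [i]) (rs r (t ++ [i]))
      · obtain ⟨r', h1, h2, a, h3⟩ := h.2
        exact ⟨a, r', fun _ => ⟨h1, h2, h3⟩⟩
      · obtain ⟨r', hr', a, -⟩ := hdense hq.c subset_rfl
        exact ⟨a, ∅, fun h' => absurd h' h⟩
    choose a R hR using hch
    -- one value occurs for many successors
    obtain ⟨a0, ha0⟩ : ∃ a0, #({i | (i ∈ succs r t ∧ Dec (t ++ [i]) (rs r (t ++ [i]))) ∧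
        a i = a0} : Set Om2) = ℵ_ 2 := by
      by_contra hc
      push Not at hc
      apply hbig
      refine small_mono ?_ (small_iUnion hA (fun a0 => not_not.1 (mt large_iff.2 (hc a0))))
      intro i hi
      exact mem_iUnion.2 ⟨a i, hi, rfl⟩
    set I := {i | (i ∈ succs r t ∧ Dec (t ++ [i]) (rs r (t ++ [i]))) ∧ a i = a0} with hIdef
    have hq' : ∀ i ∈ I, Cd (t ++ [i]) (R i) := fun i hi => (hR i hi.1).2.choose
    have hqD : ∀ i (hi : i ∈ I), (hq' i hi).c ∈ D a0 := by
      intro i hi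
      have := (hR i hi.1).2.choose_spec
      rw [← hi.2]
      exact this
    refine ⟨⋃ i ∈ I, R i, ?_, Cd.amalgam ha0 hq', a0, amalgam_mem ha0 hq' (hD a0) hqD⟩
    exact iUnion₂_subset fun i hi => (hR i hi.1).1.trans (rs_sub _ _)
  -- the tree of the undecided nodes
  let U : Set (List Om2) := {t | t ∈ q ∧ s <+: t ∧ ¬ Dec t (rs q t)}
  have hrsq : rs q s = q := by
    ext t
    exact ⟨fun h => h.1, fun h => ⟨h, hq.stem.comparable t h⟩⟩
  have hsU : s ∈ U := ⟨hq.stem.mem, List.prefix_refl s, by rw [hrsq]; exact hs⟩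
  have hUl : ∀ t ∈ U, #({i | t ++ [i] ∈ U} : Set Om2) = ℵ_ 2 := by
    rintro t ⟨ht, hst, hnd⟩
    have h1 := key t (rs q t) (hq.restr ht hst) hnd
    have h2 := (hq.restr ht hst).stem.large t ⟨ht, Or.inl (List.prefix_refl t)⟩
      (List.prefix_refl t)
    have h3 := large_sdiff h2 h1
    rw [large_iff] at h3 ⊢
    intro hsm
    apply h3
    refine small_mono ?_ hsm
    rintro i ⟨hi1, hi2⟩
    have hti : t ++ [i] ∈ q := hi1.1
    have hrr : rs (rs q t) (t ++ [i]) = rs q (t ++ [i]) := by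
      ext v
      constructor
      · exact fun h => ⟨h.1.1, h.2⟩
      · rintro ⟨h1, h2⟩
        refine ⟨⟨h1, ?_⟩, h2⟩
        rcases h2 with h2 | h2
        · exact List.prefix_or_prefix_of_prefix h2 (List.prefix_append t [i])
        · exact Or.inr ((List.prefix_append t [i]).trans h2)
    refine ⟨hti, hst.trans (List.prefix_append t [i]), ?_⟩
    intro hdec
    apply hi2
    refine ⟨hi1, ?_⟩
    rw [hrr]
    exact hdec
  let q' : Set (List Om2) := {t | t ∈ q ∧ ∀ u, u <+: t → s <+: u → u ∈ U}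
  have hq' : Cd s q' := by
    refine ⟨?_, ⟨hq.stem.mem, ?_⟩, ?_, ?_⟩
    · rintro t ⟨ht, hU⟩ u hu
      exact ⟨hq.tree t ht u hu, fun v hv hsv => hU v (hv.trans hu) hsv⟩
    · intro u hu hsu
      have : u = s := hu.eq_of_length (le_antisymm hu.length_le hsu.length_le)
      rw [this]; exact hsU
    · exact fun t ht => hq.stem.comparable t ht.1
    · rintro t ⟨ht, hU⟩ hst
      have h1 := hUl t (hU t (List.prefix_refl t) hst)
      rw [large_iff] at h1 ⊢
      intro hsm
      apply h1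
      refine small_mono (fun i hi => ?_) hsm
      refine ⟨hi.1, fun u hu hsu => ?_⟩
      rcases List.prefix_concat_iff.1 hu with h | h
      · rw [h]; exact hi
      · exact hU u h hsu
  obtain ⟨r, hr, a, ha⟩ := hdense hq'.c (fun t ht => ht.1)
  have hr' : r.1 ⊆ q' := hr
  obtain ⟨u, hu⟩ := exists_cd r
  have hsu := stem_prefix hq' hu hr'
  have huq := hr' hu.stem.mem
  have huU : u ∈ U := huq.2 u (List.prefix_refl u) hsu
  apply huU.2.2
  refine ⟨r.1, ?_, hu, a, ha⟩
  intro t ht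
  exact ⟨(hr' ht).1, hu.stem.comparable t ht⟩

end Q215.Namba
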