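import Mathlib
import Pool.Agent.H827R3.NikA

set_option autoImplicit false

/-!
The Fubini product of the density ideal and the ideal of finite sets: its dual filter is Borel,
not `F_σδ`, and the algebra of the filter has the Nikodym property.
-/

namespace Pool.Agent.Q215.NikFil

open Set Filter

/-- `E` has asymptotic density zero -/
def DZ (E : Set ℕ) : Prop :=
  ∀ ε : ℝ, 0 < ε → ∃ N : ℕ, ∀ m : ℕ, N ≤ m → ((E ∩ Set.Iio m).ncard : ℝ) ≤ ε * m

/-- the column number of the code `a` -/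
def fs (a : ℕ) : ℕ := (Nat.unpair a).1

/-- the `n`-th column of `A` -/
def col (A : Set ℕ) (n : ℕ) : Set ℕ := {m | Nat.pair n m ∈ A}

/-- the index set of the infinite columns -/
def D (A : Set ℕ) : Set ℕ := {n | (col A n).Infinite}

/-- the ideal -/
def I (A : Set ℕ) : Prop := DZ (D A)

theorem fin_inter (E : Set ℕ) (m : ℕ) : (E ∩ Set.Iio m).Finite :=
  (Set.finite_Iio m).subset Set.inter_subset_right

theorem DZ.mono {E E' : Set ℕ} (h : E ⊆ E') (h' : DZ E') : DZ E := by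
  intro ε hε
  obtain ⟨N, hN⟩ := h' ε hε
  refine ⟨N, fun m hm => le_trans ?_ (hN m hm)⟩
  exact_mod_cast Set.ncard_le_ncard (Set.inter_subset_inter_left _ h) (fin_inter _ _)

theorem DZ.union {E E' : Set ℕ} (h : DZ E) (h' : DZ E') : DZ (E ∪ E') := by
  intro ε hε
  obtain ⟨N, hN⟩ := h (ε / 2) (by linarith)
  obtain ⟨N', hN'⟩ := h' (ε / 2) (by linarith)
  refine ⟨max N N', fun m hm => ?_⟩
  have h1 := hN m (le_trans (le_max_left _ _) hm)
  have h2 := hN' m (le_trans (le_max_right _ _) hm)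
  have h3 : ((E ∪ E') ∩ Set.Iio m).ncard ≤ (E ∩ Set.Iio m).ncard + (E' ∩ Set.Iio m).ncard := by
    rw [Set.union_inter_distrib_right]
    exact Set.ncard_union_le _ _
  have h4 : (((E ∪ E') ∩ Set.Iio m).ncard : ℝ) ≤
      (E ∩ Set.Iio m).ncard + (E' ∩ Set.Iio m).ncard := by exact_mod_cast h3
  linarith

theorem DZ.of_finite {E : Set ℕ} (h : E.Finite) : DZ E := by
  intro ε hε
  obtain ⟨N, hN⟩ := exists_nat_gt ((E.ncard : ℝ) / ε)
  refine ⟨N, fun m hm => ?_⟩
  have h1 : (E ∩ Set.Iio m).ncard ≤ E.ncard := Set.ncard_le_ncard Set.inter_subset_left h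
  have h2 : ((E ∩ Set.Iio m).ncard : ℝ) ≤ E.ncard := by exact_mod_cast h1
  rw [div_lt_iff₀ hε] at hN
  have h3 : (N : ℝ) ≤ m := by exact_mod_cast hm
  nlinarith

theorem not_DZ_univ : ¬ DZ Set.univ := by
  intro h
  obtain ⟨N, hN⟩ := h (1 / 2) (by norm_num)
  have h1 := hN (N + 1) (Nat.le_succ N)
  rw [Set.univ_inter] at h1
  have h2 : (Set.Iio (N + 1)).ncard = N + 1 := by
    rw [← Nat.card_coe_set_eq]
    simp
  rw [h2] at h1
  push_cast at h1
  have : (0 : ℝ) ≤ N := Nat.cast_nonneg N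
  linarith

theorem col_mono {A B : Set ℕ} (h : A ⊆ B) (n : ℕ) : col A n ⊆ col B n := fun _ hm => h hm

theorem D_mono {A B : Set ℕ} (h : A ⊆ B) : D A ⊆ D B :=
  fun n hn => Set.Infinite.mono (col_mono h n) hn

theorem D_union (A B : Set ℕ) : D (A ∪ B) ⊆ D A ∪ D B := by
  intro n hn
  have h1 : col (A ∪ B) n = col A n ∪ col B n := rfl
  have h2 : (col (A ∪ B) n).Infinite := hn
  rw [h1, Set.infinite_union] at h2
  exact h2

theorem I.mono {A B : Set ℕ} (h : A ⊆ B) (hB : I B) : I A := DZ.mono (D_mono h) hB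

theorem I.union {A B : Set ℕ} (hA : I A) (hB : I B) : I (A ∪ B) :=
  DZ.mono (D_union A B) (DZ.union hA hB)

theorem not_I_univ : ¬ I Set.univ := by
  intro h
  apply not_DZ_univ
  refine DZ.mono ?_ h
  intro n _
  show (col Set.univ n).Infinite
  have : col Set.univ n = Set.univ := rfl
  rw [this]
  exact Set.infinite_univ

theorem col_finite {A : Set ℕ} (h : A.Finite) (n : ℕ) : (col A n).Finite := by
  refine Set.Finite.of_finite_image (f := fun m => Nat.pair n m) (h.subset ?_) ?_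
  · rintro _ ⟨m, hm, rfl⟩
    exact hm
  · intro a _ b _ hab
    exact (Nat.pair_eq_pair.1 hab).2

theorem I.of_finite {A : Set ℕ} (h : A.Finite) : I A := by
  refine DZ.mono (E' := ∅) ?_ (DZ.of_finite Set.finite_empty)
  intro n hn
  exact hn (col_finite h n)

/-- finitely many columns -/
theorem I_cols (N : ℕ) : I {a | fs a < N} := by
  refine DZ.of_finite ((Set.finite_Iio N).subset ?_)
  intro n hn
  have h1 : (col {a | fs a < N} n).Infinite := hn
  obtain ⟨m, hm⟩ := h1.nonempty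
  have h2 : fs (Nat.pair n m) < N := hm
  rw [fs, Nat.unpair_pair] at h2
  exact h2

/-- the number of elements of a residue class below `m` -/
theorem class_count (q r m : ℕ) :
    ({n : ℕ | q ≤ n ∧ n % q = r} ∩ Set.Iio m).ncard * q ≤ 2 * m := by
  by_cases hm : m ≤ q
  · have : {n : ℕ | q ≤ n ∧ n % q = r} ∩ Set.Iio m = ∅ := by
      ext n
      simp only [Set.mem_inter_iff, Set.mem_ofPred_eq, Set.mem_Iio, Set.mem_empty_iff_false,
        iff_false, not_and]
      intro h1 h2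
      omega
    rw [this]
    simp
  · push Not at hm
    have h1 : ({n : ℕ | q ≤ n ∧ n % q = r} ∩ Set.Iio m).ncard ≤ m / q + 1 := by
      have h2 : (Set.Iio (m / q + 1)).ncard = m / q + 1 := by
        rw [← Nat.card_coe_set_eq]
        simp
      rw [← h2]
      refine Set.ncard_le_ncard_of_injOn (fun n => n / q) ?_ ?_ (Set.finite_Iio _)
      · rintro n ⟨_, h3⟩
        have h3' : n < m := h3
        show n / q < m / q + 1
        exact Nat.lt_succ_of_le (Nat.div_le_div_right h3'.le)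
      · rintro a ⟨⟨_, ha⟩, _⟩ b ⟨⟨_, hb⟩, _⟩ hab
        have hab' : a / q = b / q := hab
        rw [← Nat.div_add_mod a q, ← Nat.div_add_mod b q, ha, hb, hab']
    calc _ ≤ (m / q + 1) * q := Nat.mul_le_mul_right _ h1
      _ = m / q * q + q := by ring
      _ ≤ m + q := Nat.add_le_add_right (Nat.div_mul_le_self m q) _
      _ ≤ 2 * m := by omega

/-- thin unions of density zero sets -/
theorem DZ_iUnion (E : ℕ → Set ℕ) (r : ℕ → ℕ) (h0 : ∀ j, DZ (E j))
    (h1 : ∀ j, E j ⊆ {n : ℕ | 2 ^ j ≤ n ∧ n % 2 ^ j = r j}) : DZ (⋃ j, E j) := by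
  intro ε hε
  obtain ⟨J, hJ⟩ : ∃ J : ℕ, (4 : ℝ) * (1 / 2) ^ J < ε / 2 := by
    obtain ⟨J, hJ⟩ := exists_pow_lt_of_lt_one (show (0 : ℝ) < ε / 8 by linarith)
      (show (1 / 2 : ℝ) < 1 by norm_num)
    exact ⟨J, by linarith⟩
  -- the first `J` sets together
  have hfin : ∀ J : ℕ, DZ (⋃ j ∈ Finset.range J, E j) := by
    intro J
    induction J with
    | zero => simpa using DZ.of_finite Set.finite_empty
    | succ J ih =>
      rw [Finset.range_add_one]
      simp only [Finset.mem_insert, Set.iUnion_iUnion_eq_or_left]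
      exact (h0 J).union ih
  obtain ⟨N, hN⟩ := hfin J (ε / 2) (by linarith)
  refine ⟨N, fun m hm => ?_⟩
  have h2 := hN m hm
  -- tail
  have hcnt : ∀ j, ((E j ∩ Set.Iio m).ncard : ℝ) ≤ 2 * m * (1 / 2) ^ j := by
    intro j
    have h3 : (E j ∩ Set.Iio m).ncard ≤ ({n : ℕ | 2 ^ j ≤ n ∧ n % 2 ^ j = r j} ∩ Set.Iio m).ncard :=
      Set.ncard_le_ncard (Set.inter_subset_inter_left _ (h1 j)) (fin_inter _ _)
    have h4 := class_count (2 ^ j) (r j) m
    have h5 : (E j ∩ Set.Iio m).ncard * 2 ^ j ≤ 2 * m := le_trans (Nat.mul_le_mul_right _ h3) h4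
    have h6 : ((E j ∩ Set.Iio m).ncard : ℝ) * 2 ^ j ≤ 2 * m := by exact_mod_cast h5
    rw [one_div, inv_pow, ← div_eq_mul_inv, le_div_iff₀ (by positivity)]
    exact h6
  have htail : ∀ K : ℕ, (((⋃ j ∈ Finset.range K, E (J + j)) ∩ Set.Iio m).ncard : ℝ) ≤
      2 * m * (1 / 2) ^ J * (2 - 2 * (1 / 2) ^ K) := by
    intro K
    induction K with
    | zero => simp
    | succ K ih =>
      have e1 : ((⋃ j ∈ Finset.range (K + 1), E (J + j)) ∩ Set.Iio m) =
          (E (J + K) ∩ Set.Iio m) ∪ ((⋃ j ∈ Finset.range K, E (J + j)) ∩ Set.Iio m) := by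
        rw [Finset.range_add_one]
        simp only [Finset.mem_insert, Set.iUnion_iUnion_eq_or_left]
        rw [Set.union_inter_distrib_right]
      rw [e1]
      have e2 := Set.ncard_union_le (E (J + K) ∩ Set.Iio m)
        ((⋃ j ∈ Finset.range K, E (J + j)) ∩ Set.Iio m)
      have e3 : (((E (J + K) ∩ Set.Iio m) ∪
          ((⋃ j ∈ Finset.range K, E (J + j)) ∩ Set.Iio m)).ncard : ℝ) ≤
          (E (J + K) ∩ Set.Iio m).ncard +
          ((⋃ j ∈ Finset.range K, E (J + j)) ∩ Set.Iio m).ncard := by exact_mod_cast e2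
      have e4 := hcnt (J + K)
      have e5 : 2 * (m : ℝ) * (1 / 2) ^ (J + K) + 2 * m * (1 / 2) ^ J * (2 - 2 * (1 / 2) ^ K) =
          2 * m * (1 / 2) ^ J * (2 - 2 * (1 / 2) ^ (K + 1)) := by
        rw [pow_add, pow_succ]
        ring
      linarith
  have hcov : (⋃ j, E j) ∩ Set.Iio m ⊆ ((⋃ j ∈ Finset.range J, E j) ∩ Set.Iio m) ∪
      ((⋃ j ∈ Finset.range m, E (J + j)) ∩ Set.Iio m) := by
    rintro n ⟨hn, hnm⟩
    obtain ⟨j, hj⟩ := Set.mem_iUnion.1 hn
    by_cases hjJ : j < J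
    · left
      refine ⟨Set.mem_iUnion₂.2 ⟨j, Finset.mem_range.2 hjJ, hj⟩, hnm⟩
    · right
      push Not at hjJ
      refine ⟨Set.mem_iUnion₂.2 ⟨j - J, Finset.mem_range.2 ?_, ?_⟩, hnm⟩
      · have h7 : 2 ^ j ≤ n := (h1 j hj).1
        have h8 : j < 2 ^ j := Nat.lt_two_pow_self
        have h9 : n < m := hnm
        omega
      · rwa [Nat.add_sub_cancel' hjJ]
  have h10 : (((⋃ j, E j) ∩ Set.Iio m).ncard : ℝ) ≤ ((⋃ j ∈ Finset.range J, E j) ∩ Set.Iio m).ncard +
      ((⋃ j ∈ Finset.range m, E (J + j)) ∩ Set.Iio m).ncard := by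
    have := (Set.ncard_le_ncard hcov ((fin_inter _ _).union (fin_inter _ _))).trans
      (Set.ncard_union_le _ _)
    exact_mod_cast this
  have h11 := htail m
  have h12 : 2 * (m : ℝ) * (1 / 2) ^ J * (2 - 2 * (1 / 2) ^ m) ≤ 4 * (1 / 2) ^ J * m := by
    have h13 : (0 : ℝ) ≤ 2 * m * (1 / 2) ^ J := by positivity
    have h14 : (0 : ℝ) ≤ 2 * (1 / 2) ^ m := by positivity
    nlinarith
  have h15 : (4 : ℝ) * (1 / 2) ^ J * m ≤ ε / 2 * m :=
    mul_le_mul_of_nonneg_right hJ.le (Nat.cast_nonneg m)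
  linarith

/-- the thinning lemma for the ideal -/
theorem I_iUnion (B : ℕ → Set ℕ) (r : ℕ → ℕ) (h0 : ∀ j, I (B j))
    (h1 : ∀ j, ∀ a ∈ B j, 2 ^ j ≤ fs a ∧ fs a % 2 ^ j = r j) : I (⋃ j, B j) := by
  have h2 : D (⋃ j, B j) ⊆ ⋃ j, D (B j) := by
    intro n hn
    by_contra hc
    apply hn
    have h3 : col (⋃ j, B j) n ⊆ ⋃ j ∈ Finset.range (n + 1), col (B j) n := by
      intro m hm
      obtain ⟨j, hj⟩ := Set.mem_iUnion.1 (show Nat.pair n m ∈ ⋃ j, B j from hm)
      refine Set.mem_iUnion₂.2 ⟨j, ?_, hj⟩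
      have h4 := (h1 j _ hj).1
      rw [fs, Nat.unpair_pair] at h4
      have h5 : j < 2 ^ j := Nat.lt_two_pow_self
      have h6 : 2 ^ j ≤ n := h4
      exact Finset.mem_range.2 (by omega)
    refine Set.Finite.subset ?_ h3
    refine Set.Finite.biUnion (Finset.finite_toSet (Finset.range (n + 1))) ?_
    intro j _
    by_contra hj
    exact hc (Set.mem_iUnion.2 ⟨j, hj⟩)
  refine DZ.mono h2 (DZ_iUnion _ r h0 ?_)
  intro j n hn
  have h3 : (col (B j) n).Infinite := hn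
  obtain ⟨m, hm⟩ := h3.nonempty
  have h4 := h1 j _ hm
  rw [fs, Nat.unpair_pair] at h4
  exact h4

end Pool.Agent.Q215.NikFil
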