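import Pool.Agent.Q215.NikFilA

set_option autoImplicit false

/-! The Nikodym property. -/

namespace Pool.Agent.Q215.NikFil

open Set Filter

/-- The Boolean algebra of the sets which are in the filter or have their complement in it. -/
def alg (F : Filter ℕ) : Set (Set ℕ) := {A | A ∈ F ∨ Aᶜ ∈ F}

/-- The total variation of `μ` on the algebra `𝒜` is at most `C`: for every finite family of
pairwise disjoint members of `𝒜` the sum of the values `|μ(A)|` is at most `C`. -/
def VarLE (𝒜 : Set (Set ℕ)) (μ : Set ℕ → ℝ) (C : ℝ) : Prop :=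
  ∀ s : Finset (Set ℕ), (∀ A ∈ s, A ∈ 𝒜) → (∀ A ∈ s, ∀ B ∈ s, A ≠ B → Disjoint A B) →
    ∑ A ∈ s, |μ A| ≤ C

/-- `μ` is a measure on the algebra `𝒜`: a finitely additive real-valued function of bounded total
variation (only the values of `μ` on `𝒜` matter). -/
structure IsMeas (𝒜 : Set (Set ℕ)) (μ : Set ℕ → ℝ) : Prop where
  add : ∀ A ∈ 𝒜, ∀ B ∈ 𝒜, Disjoint A B → μ (A ∪ B) = μ A + μ B
  bdd : ∃ C : ℝ, VarLE 𝒜 μ C

/-- The Nikodym property: pointwise bounded sequences of measures are bounded in total variation. -/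
def Nikodym (𝒜 : Set (Set ℕ)) : Prop :=
  ∀ μ : ℕ → Set ℕ → ℝ, (∀ n, IsMeas 𝒜 (μ n)) → (∀ A ∈ 𝒜, ∃ C : ℝ, ∀ n, |μ n A| ≤ C) →
    ∃ C : ℝ, ∀ n, VarLE 𝒜 (μ n) C

/-- The filter dual to the ideal. -/
def Fl : Filter ℕ where
  sets := {A | I Aᶜ}
  univ_sets := by
    show I (Set.univ)ᶜ
    rw [Set.compl_univ]
    exact I.of_finite Set.finite_empty
  sets_of_superset := by
    intro A B hA hAB
    exact I.mono (Set.compl_subset_compl.2 hAB) hA
  inter_sets := by
    intro A B hA hB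
    show I (A ∩ B)ᶜ
    rw [Set.compl_inter]
    exact I.union hA hB

theorem mem_Fl {A : Set ℕ} : A ∈ Fl ↔ I Aᶜ := Iff.rfl

theorem mem_alg {A : Set ℕ} : A ∈ alg Fl ↔ I Aᶜ ∨ I A := by
  show (I Aᶜ ∨ I Aᶜᶜ) ↔ _
  rw [compl_compl]

theorem alg_union {A B : Set ℕ} (hA : A ∈ alg Fl) (hB : B ∈ alg Fl) : A ∪ B ∈ alg Fl := by
  rw [mem_alg] at hA hB ⊢
  rcases hA with hA | hA
  · exact Or.inl (I.mono (Set.compl_subset_compl.2 Set.subset_union_left) hA)
  · rcases hB with hB | hB
    · exact Or.inl (I.mono (Set.compl_subset_compl.2 Set.subset_union_right) hB)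
    · exact Or.inr (hA.union hB)

theorem alg_of_I {A : Set ℕ} (hA : I A) : A ∈ alg Fl := mem_alg.2 (Or.inr hA)

theorem univ_alg : (Set.univ : Set ℕ) ∈ alg Fl :=
  mem_alg.2 (Or.inl (by rw [Set.compl_univ]; exact I.of_finite Set.finite_empty))

theorem alg_compl {A : Set ℕ} (hA : A ∈ alg Fl) : Aᶜ ∈ alg Fl := by
  rw [mem_alg] at hA ⊢
  rw [compl_compl]
  exact hA.symm

theorem meas_abs {μ : Set ℕ → ℝ} {C : ℝ} (h : VarLE (alg Fl) μ C) {A : Set ℕ}
    (hA : A ∈ alg Fl) : |μ A| ≤ C := by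
  have := h {A} (by simpa using hA) (by
    intro B hB B' hB' hne
    rw [Finset.mem_singleton] at hB hB'
    exact absurd (hB.trans hB'.symm) hne)
  simpa using this

theorem meas_empty {μ : Set ℕ → ℝ} (h : IsMeas (alg Fl) μ) : μ ∅ = 0 := by
  have h0 : (∅ : Set ℕ) ∈ alg Fl := alg_of_I (I.of_finite Set.finite_empty)
  have := h.add ∅ h0 ∅ h0 (Set.disjoint_empty _)
  rw [Set.union_empty] at this
  linarith

/-- the value at a finite disjoint union -/
theorem meas_sum {μ : Set ℕ → ℝ} (h : IsMeas (alg Fl) μ) {ι : Type} (s : Finset ι) (f : ι → Set ℕ)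
    (h1 : ∀ i ∈ s, f i ∈ alg Fl) (h2 : ∀ i ∈ s, ∀ j ∈ s, i ≠ j → Disjoint (f i) (f j)) :
    (⋃ i ∈ s, f i) ∈ alg Fl ∧ μ (⋃ i ∈ s, f i) = ∑ i ∈ s, μ (f i) := by
  classical
  induction s using Finset.induction_on with
  | empty =>
    simp only [Finset.notMem_empty, Set.iUnion_of_empty, Set.iUnion_empty, Finset.sum_empty]
    exact ⟨alg_of_I (I.of_finite Set.finite_empty), meas_empty h⟩
  | insert a s ha ih =>
    have ih' := ih (fun i hi => h1 i (Finset.mem_insert_of_mem hi))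
      (fun i hi j hj => h2 i (Finset.mem_insert_of_mem hi) j (Finset.mem_insert_of_mem hj))
    simp only [Finset.mem_insert, Set.iUnion_iUnion_eq_or_left]
    have ha1 := h1 a (Finset.mem_insert_self a s)
    refine ⟨alg_union ha1 ih'.1, ?_⟩
    rw [h.add _ ha1 _ ih'.1, ih'.2, Finset.sum_insert ha]
    rw [Set.disjoint_left]
    intro x hx hx'
    obtain ⟨i, hi, hxi⟩ := Set.mem_iUnion₂.1 hx'
    have hne : a ≠ i := by
      rintro rfl
      exact ha hi
    exact Set.disjoint_left.1 (h2 a (Finset.mem_insert_self a s) i (Finset.mem_insert_of_mem hi) hne)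
      hx hxi

/-- a bound for the values gives a bound for the variation -/
theorem varLE_of_bound {μ : Set ℕ → ℝ} (h : IsMeas (alg Fl) μ) {K : ℝ}
    (hK : ∀ A ∈ alg Fl, |μ A| ≤ K) : VarLE (alg Fl) μ (2 * K) := by
  classical
  intro s hs hd
  rw [← Finset.sum_filter_add_sum_filter_not s (fun A => 0 ≤ μ A)]
  have h1 : ∑ A ∈ s with 0 ≤ μ A, |μ A| ≤ K := by
    have e := meas_sum h (s.filter (fun A => 0 ≤ μ A)) id
      (fun A hA => hs A (Finset.mem_filter.1 hA).1)
      (fun A hA B hB => hd A (Finset.mem_filter.1 hA).1 B (Finset.mem_filter.1 hB).1)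
    have e2 : ∑ A ∈ s with 0 ≤ μ A, |μ A| = ∑ A ∈ s with 0 ≤ μ A, μ (id A) :=
      Finset.sum_congr rfl fun A hA => abs_of_nonneg (Finset.mem_filter.1 hA).2
    rw [e2, ← e.2]
    exact (le_abs_self _).trans (hK _ e.1)
  have h2 : ∑ A ∈ s with ¬ 0 ≤ μ A, |μ A| ≤ K := by
    have e := meas_sum h (s.filter (fun A => ¬ 0 ≤ μ A)) id
      (fun A hA => hs A (Finset.mem_filter.1 hA).1)
      (fun A hA B hB => hd A (Finset.mem_filter.1 hA).1 B (Finset.mem_filter.1 hB).1)
    have e2 : ∑ A ∈ s with ¬ 0 ≤ μ A, |μ A| = - ∑ A ∈ s with ¬ 0 ≤ μ A, μ (id A) := by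
      rw [← Finset.sum_neg_distrib]
      exact Finset.sum_congr rfl fun A hA =>
        abs_of_nonpos (le_of_not_ge (Finset.mem_filter.1 hA).2)
    rw [e2, ← e.2]
    exact (neg_le_abs _).trans (hK _ e.1)
  linarith

/-- Nikodym's theorem below a member of the ideal -/
theorem below {μ : ℕ → Set ℕ → ℝ} (h : ∀ n, IsMeas (alg Fl) (μ n))
    (hp : ∀ A ∈ alg Fl, ∃ C : ℝ, ∀ n, |μ n A| ≤ C) {A : Set ℕ} (hA : I A) :
    ∃ C : ℝ, ∀ n, ∀ B ⊆ A, |μ n B| ≤ C := by
  obtain ⟨K, hK⟩ := H827R3.nik_set ℕ (fun n B => μ n (B ∩ A)) (by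
    intro n
    refine ⟨?_, ?_⟩
    · intro a b hab
      show μ n ((a ∪ b) ∩ A) = _
      rw [Set.union_inter_distrib_right]
      refine (h n).add _ (alg_of_I (I.mono Set.inter_subset_right hA)) _
        (alg_of_I (I.mono Set.inter_subset_right hA)) ?_
      exact Disjoint.mono Set.inter_subset_left Set.inter_subset_left hab
    · obtain ⟨C, hC⟩ := (h n).bdd
      exact ⟨C, fun a => meas_abs hC (alg_of_I (I.mono Set.inter_subset_right hA))⟩) (by
    intro B
    exact hp _ (alg_of_I (I.mono Set.inter_subset_right hA)))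
  refine ⟨K, fun n B hB => ?_⟩
  have := hK n B
  have e : B ∩ A = B := Set.inter_eq_left.2 hB
  simp only [e] at this
  exact this

theorem nik_Fl : Nikodym (alg Fl) := by
  intro μ h hp
  -- uniform bound on the ideal
  have key : ∃ K : ℝ, ∀ n, ∀ A, I A → |μ n A| ≤ K := by
    by_contra hcon
    push Not at hcon
    choose c hc using fun j : ℕ => below h hp (I_cols (2 ^ j))
    choose k A hA hkA using fun j : ℕ => hcon (c j + j * 2 ^ j)
    let X : ℕ → Set ℕ := fun j => {a | a ∈ A j ∧ 2 ^ j ≤ fs a}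
    have hXI : ∀ j, I (X j) := fun j => I.mono (fun a ha => ha.1) (hA j)
    have hX : ∀ j : ℕ, (j : ℝ) * 2 ^ j < |μ (k j) (X j)| := by
      intro j
      have h1 : A j = (A j ∩ {a | fs a < 2 ^ j}) ∪ X j := by
        ext a
        constructor
        · intro ha
          by_cases h2 : fs a < 2 ^ j
          · exact Or.inl ⟨ha, h2⟩
          · exact Or.inr ⟨ha, not_lt.1 h2⟩
        · rintro (ha | ha)
          · exact ha.1
          · exact ha.1
      have h2 := (h (k j)).add (A j ∩ {a | fs a < 2 ^ j})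
        (alg_of_I (I.mono Set.inter_subset_left (hA j))) (X j) (alg_of_I (hXI j)) (by
          rw [Set.disjoint_left]
          rintro a ⟨_, ha⟩ ⟨_, ha'⟩
          exact absurd ha (not_lt.2 ha'))
      rw [← h1] at h2
      have h3 := hc j (k j) (A j ∩ {a | fs a < 2 ^ j}) Set.inter_subset_right
      have h4 := hkA j
      have h5 := abs_add_le (μ (k j) (A j ∩ {a | fs a < 2 ^ j})) (μ (k j) (X j))
      rw [← h2] at h5
      linarith
    -- residue classes
    have hr : ∀ j : ℕ, ∃ r : ℕ, (j : ℝ) < |μ (k j) {a | a ∈ X j ∧ fs a % 2 ^ j = r}| ∨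
        j = 0 := by
      intro j
      by_contra hc'
      push Not at hc'
      have e := meas_sum (h (k j)) (Finset.range (2 ^ j))
        (fun r => {a | a ∈ X j ∧ fs a % 2 ^ j = r})
        (fun r _ => alg_of_I (I.mono (fun a ha => ha.1) (hXI j)))
        (fun r _ r' _ hrr => by
          rw [Set.disjoint_left]
          rintro a ⟨_, ha⟩ ⟨_, ha'⟩
          exact hrr (ha.symm.trans ha'))
      have e1 : (⋃ r ∈ Finset.range (2 ^ j), {a | a ∈ X j ∧ fs a % 2 ^ j = r}) = X j := by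
        ext a
        constructor
        · intro ha
          obtain ⟨r, _, hr⟩ := Set.mem_iUnion₂.1 ha
          exact hr.1
        · intro ha
          exact Set.mem_iUnion₂.2 ⟨fs a % 2 ^ j, Finset.mem_range.2 (Nat.mod_lt _ (by positivity)),
            ha, rfl⟩
      rw [e1] at e
      have e2 : |μ (k j) (X j)| ≤ ∑ r ∈ Finset.range (2 ^ j), (j : ℝ) := by
        rw [e.2]
        refine (Finset.abs_sum_le_sum_abs _ _).trans (Finset.sum_le_sum fun r _ => (hc' r).1)
      rw [Finset.sum_const, Finset.card_range, nsmul_eq_mul] at e2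
      push_cast at e2
      have e3 := hX j
      linarith
    choose r hr using hr
    let B : ℕ → Set ℕ := fun j => {a | a ∈ X j ∧ fs a % 2 ^ j = r j}
    have hB : I (⋃ j, B j) := by
      refine I_iUnion B r (fun j => I.mono (fun a ha => ha.1) (hXI j)) ?_
      rintro j a ⟨ha, ha'⟩
      exact ⟨ha.2, ha'⟩
    obtain ⟨C, hC⟩ := below h hp hB
    obtain ⟨j, hj⟩ := exists_nat_gt (max C 1)
    have h6 := hC (k j) (B j) (Set.subset_iUnion B j)
    rcases hr j with h7 | h7
    · have : C < j := lt_of_le_of_lt (le_max_left _ _) hj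
      have h8 : (j : ℝ) < |μ (k j) (B j)| := h7
      linarith
    · rw [h7] at hj
      have : (1 : ℝ) ≤ max C 1 := le_max_right _ _
      norm_num at hj
  obtain ⟨K, hK⟩ := key
  obtain ⟨c, hc⟩ := hp Set.univ univ_alg
  refine ⟨2 * (K + c), fun n => varLE_of_bound (h n) ?_⟩
  have hc0 : 0 ≤ c := (abs_nonneg _).trans (hc n)
  intro A hA
  rcases mem_alg.1 hA with h1 | h1
  · have h2 := (h n).add A hA Aᶜ (alg_compl hA) disjoint_compl_right
    rw [Set.union_compl_self] at h2
    have h3 := hK n _ h1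
    have h4 := hc n
    have h5 : μ n A = μ n Set.univ - μ n Aᶜ := by linarith
    rw [h5]
    have h6 := abs_sub (μ n Set.univ) (μ n Aᶜ)
    linarith
  · have := hK n A h1
    linarith

end Pool.Agent.Q215.NikFil
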