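import Pool.Agent.Q215.NikFilB

set_option autoImplicit false

/-! Complexity of the filter. -/

namespace Pool.Agent.Q215.NikFil

open Set Filter

/-- the family of the characteristic functions of the members of the filter -/
def code (F : Filter ℕ) : Set (ℕ → Bool) := {x | {n | x n = true} ∈ F}

/-- `X` is a countable intersection of countable unions of closed sets -/
def IsFsigmaDelta (X : Set (ℕ → Bool)) : Prop :=
  ∃ C : ℕ → ℕ → Set (ℕ → Bool), (∀ i j, IsClosed (C i j)) ∧ X = ⋂ i, ⋃ j, C i j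

theorem meas_col (n : ℕ) : MeasurableSet {x : ℕ → Bool | (col {a | x a = true}ᶜ n).Infinite} := by
  have e : {x : ℕ → Bool | (col {a | x a = true}ᶜ n).Infinite} =
      ⋂ N : ℕ, ⋃ m : ℕ, {x : ℕ → Bool | N < m ∧ ¬ x (Nat.pair n m) = true} := by
    ext x
    constructor
    · intro h
      refine Set.mem_iInter.2 fun N => ?_
      obtain ⟨m, hm, hNm⟩ := Set.Infinite.exists_gt h N
      exact Set.mem_iUnion.2 ⟨m, hNm, hm⟩
    · intro h
      refine Set.infinite_of_not_bddAbove ?_
      rintro ⟨N, hN⟩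
      obtain ⟨m, hm1, hm2⟩ := Set.mem_iUnion.1 (Set.mem_iInter.1 h N)
      have := hN (show m ∈ col {a | x a = true}ᶜ n from hm2)
      omega
  rw [e]
  refine MeasurableSet.iInter fun N => MeasurableSet.iUnion fun m => ?_
  by_cases hNm : N < m
  · have e2 : {x : ℕ → Bool | N < m ∧ ¬ x (Nat.pair n m) = true} =
        ((fun x : ℕ → Bool => x (Nat.pair n m)) ⁻¹' {true})ᶜ := by
      ext x
      simp [hNm]
    rw [e2]
    exact ((measurable_pi_apply _) (measurableSet_singleton _)).compl
  · have e2 : {x : ℕ → Bool | N < m ∧ ¬ x (Nat.pair n m) = true} = ∅ := by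
      ext x
      simp [hNm]
    rw [e2]
    exact MeasurableSet.empty

theorem ncard_eq (E : Set ℕ) (m : ℕ) [DecidablePred (· ∈ E)] :
    (E ∩ Set.Iio m).ncard = ∑ n ∈ Finset.range m, if n ∈ E then 1 else 0 := by
  rw [← Finset.card_filter, ← Set.ncard_coe_finset]
  congr 1
  ext n
  simp [and_comm]

theorem borel_code : MeasurableSet (code Fl) := by
  classical
  have hcount : ∀ m : ℕ, Measurable
      (fun x : ℕ → Bool => (((D {a | x a = true}ᶜ) ∩ Set.Iio m).ncard : ℝ)) := by
    intro m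
    have e : (fun x : ℕ → Bool => (((D {a | x a = true}ᶜ) ∩ Set.Iio m).ncard : ℝ)) =
        fun x => ∑ n ∈ Finset.range m, if n ∈ D {a | x a = true}ᶜ then (1 : ℝ) else 0 := by
      funext x
      rw [ncard_eq]
      push_cast
      rfl
    rw [e]
    refine Finset.measurable_sum _ fun n _ => ?_
    exact Measurable.ite (meas_col n) measurable_const measurable_const
  have e : code Fl = ⋂ i : ℕ, ⋃ N : ℕ, ⋂ m : ℕ, {x : ℕ → Bool | N ≤ m →
      (((D {a | x a = true}ᶜ) ∩ Set.Iio m).ncard : ℝ) ≤ 1 / ((i : ℝ) + 1) * m} := by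
    ext x
    constructor
    · intro h
      refine Set.mem_iInter.2 fun i => ?_
      obtain ⟨N, hN⟩ := (show DZ (D {a | x a = true}ᶜ) from h) (1 / ((i : ℝ) + 1)) (by positivity)
      exact Set.mem_iUnion.2 ⟨N, Set.mem_iInter.2 fun m hm => hN m hm⟩
    · intro h
      show DZ (D {a | x a = true}ᶜ)
      intro ε hε
      obtain ⟨i, hi⟩ := exists_nat_one_div_lt hε
      obtain ⟨N, hN⟩ := Set.mem_iUnion.1 (Set.mem_iInter.1 h i)
      refine ⟨N, fun m hm => ?_⟩
      refine le_trans (Set.mem_iInter.1 hN m hm) ?_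
      exact mul_le_mul_of_nonneg_right hi.le (Nat.cast_nonneg m)
  rw [e]
  refine MeasurableSet.iInter fun i => MeasurableSet.iUnion fun N => MeasurableSet.iInter fun m => ?_
  by_cases hm : N ≤ m
  · have e2 : {x : ℕ → Bool | N ≤ m →
        (((D {a | x a = true}ᶜ) ∩ Set.Iio m).ncard : ℝ) ≤ 1 / ((i : ℝ) + 1) * m} =
        {x : ℕ → Bool | (((D {a | x a = true}ᶜ) ∩ Set.Iio m).ncard : ℝ) ≤
          1 / ((i : ℝ) + 1) * m} := by
      ext x
      exact ⟨fun h => h hm, fun h _ => h⟩
    rw [e2]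
    exact measurableSet_le (hcount m) measurable_const
  · have e2 : {x : ℕ → Bool | N ≤ m →
        (((D {a | x a = true}ᶜ) ∩ Set.Iio m).ncard : ℝ) ≤ 1 / ((i : ℝ) + 1) * m} = Set.univ := by
      ext x
      exact ⟨fun _ => trivial, fun _ h => absurd h hm⟩
    rw [e2]
    exact MeasurableSet.univ

/-- the characteristic function of the complement -/
noncomputable def ch (A : Set ℕ) : ℕ → Bool := by
  classical
  exact fun n => decide (n ∉ A)

theorem ch_code (A : Set ℕ) : ch A ∈ code Fl ↔ I A := by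
  have e : {n | ch A n = true}ᶜ = A := by
    ext n
    simp [ch]
  show I {n | ch A n = true}ᶜ ↔ I A
  rw [e]

/-- closed sets: non-membership is witnessed by finitely many coordinates -/
theorem closed_wit {C : Set (ℕ → Bool)} (hC : IsClosed C) {A : Set ℕ} (hA : ch A ∉ C) :
    ∃ s : Finset ℕ, ∀ A' : Set ℕ, (∀ a ∈ s, a ∈ A' ↔ a ∈ A) → ch A' ∉ C := by
  have h1 : ch A ∈ Cᶜ := hA
  obtain ⟨s, u, hu, hsub⟩ := isOpen_pi_iff.1 hC.isOpen_compl (ch A) h1
  refine ⟨s, fun A' hA' => hsub ?_⟩
  intro a ha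
  have h2 : ch A' a = ch A a := by
    unfold ch
    simp only [decide_eq_decide]
    exact not_congr (hA' a ha)
  rw [h2]
  exact (hu a ha).2

/-- a condition: finitely many columns -/
structure Cond where
  l : ℕ
  S : Set ℕ
  h : ∀ a ∈ S, fs a < l

/-- extension of conditions -/
def Ext (p q : Cond) : Prop := p.l ≤ q.l ∧ ∀ a, fs a < p.l → (a ∈ q.S ↔ a ∈ p.S)

/-- a set obeys a condition -/
def Obey (A : Set ℕ) (p : Cond) : Prop := ∀ a, fs a < p.l → (a ∈ A ↔ a ∈ p.S)

theorem Ext.refl (p : Cond) : Ext p p := ⟨le_rfl, fun _ _ => Iff.rfl⟩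

theorem Ext.trans {p q r : Cond} (h : Ext p q) (h' : Ext q r) : Ext p r :=
  ⟨h.1.trans h'.1, fun a ha => (h'.2 a (lt_of_lt_of_le ha h.1)).trans (h.2 a ha)⟩

theorem Obey.of_ext {A : Set ℕ} {p q : Cond} (h : Obey A q) (h' : Ext p q) : Obey A p :=
  fun a ha => (h a (lt_of_lt_of_le ha h'.1)).trans (h'.2 a ha)

/-- limits -/
theorem exists_lim (p : ℕ → Cond) (hp : ∀ j, Ext (p j) (p (j + 1))) :
    ∃ A : Set ℕ, (∀ j, Obey A (p j)) ∧ ∀ a ∈ A, ∃ j, a ∈ (p j).S := by
  have hmono : ∀ i j, i ≤ j → Ext (p i) (p j) := by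
    intro i j hij
    induction j, hij using Nat.le_induction with
    | base => exact Ext.refl _
    | succ j _ ih => exact ih.trans (hp j)
  refine ⟨{a | ∃ j, a ∈ (p j).S}, ?_, fun a ha => ha⟩
  intro j a ha
  constructor
  · rintro ⟨i, hi⟩
    rcases le_total i j with h | h
    · exact ((hmono i j h).2 a ((p i).h a hi)).2 hi
    · exact ((hmono j i h).2 a ha).1 hi
  · intro h
    exact ⟨j, h⟩

/-- the stage lemma -/
theorem stage (C : ℕ → Set (ℕ → Bool)) (hC : ∀ j, IsClosed (C j))
    (hsub : code Fl ⊆ ⋃ j, C j) (p : Cond) :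
    ∃ q, Ext p q ∧ ∀ A, Obey A q → ch A ∈ ⋃ j, C j := by
  by_contra hcon
  push Not at hcon
  -- one step
  have step : ∀ (q : {q : Cond // Ext p q ∧ ∀ n, p.l ≤ n → (col q.S n).Finite}) (j : ℕ),
      ∃ r : {q : Cond // Ext p q ∧ ∀ n, p.l ≤ n → (col q.S n).Finite},
        Ext q.1 r.1 ∧ q.1.l < r.1.l ∧ ∀ A, Obey A r.1 → ch A ∉ C j := by
    rintro ⟨q, hpq, hq⟩ j
    obtain ⟨A, hA, hAC⟩ := hcon q hpq
    have hAj : ch A ∉ C j := fun h => hAC (Set.mem_iUnion.2 ⟨j, h⟩)
    obtain ⟨s, hs⟩ := closed_wit (hC j) hAj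
    let L : ℕ := q.l + 1 + s.sup fs
    let S' : Set ℕ := q.S ∪ (A ∩ (s : Set ℕ))
    have hS' : ∀ a ∈ S', fs a < L := by
      rintro a (ha | ha)
      · have := q.h a ha
        show fs a < q.l + 1 + s.sup fs
        omega
      · have : fs a ≤ s.sup fs := Finset.le_sup (f := fs) ha.2
        show fs a < q.l + 1 + s.sup fs
        omega
    have hext : Ext q ⟨L, S', hS'⟩ := by
      refine ⟨show q.l ≤ q.l + 1 + s.sup fs by omega, fun a ha => ?_⟩
      constructor
      · rintro (h | h)
        · exact h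
        · exact (hA a ha).1 h.1
      · exact fun h => Or.inl h
    refine ⟨⟨⟨L, S', hS'⟩, hpq.trans hext, ?_⟩, hext, show q.l < q.l + 1 + s.sup fs by omega, ?_⟩
    · intro n hn
      have e : col S' n = col q.S n ∪ col (A ∩ (s : Set ℕ)) n := rfl
      show (col S' n).Finite
      rw [e]
      exact (hq n hn).union (col_finite (s.finite_toSet.subset Set.inter_subset_right) n)
    · intro A' hA'
      apply hs
      intro a ha
      have haL : fs a < L := by
        have : fs a ≤ s.sup fs := Finset.le_sup (f := fs) ha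
        show fs a < q.l + 1 + s.sup fs
        omega
      rw [hA' a haL]
      constructor
      · rintro (h | h)
        · exact (hA a (q.h a h)).2 h
        · exact h.1
      · intro h
        exact Or.inr ⟨h, ha⟩
  choose nxt hn1 hn2 hn3 using step
  let q0 : {q : Cond // Ext p q ∧ ∀ n, p.l ≤ n → (col q.S n).Finite} :=
    ⟨p, Ext.refl p, by
      intro n hn
      have : col p.S n = ∅ := by
        ext m
        simp only [Set.mem_empty_iff_false, iff_false]
        intro hm
        have := p.h _ hm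
        rw [fs, Nat.unpair_pair] at this
        omega
      rw [this]
      exact Set.finite_empty⟩
  let q : ℕ → {q : Cond // Ext p q ∧ ∀ n, p.l ≤ n → (col q.S n).Finite} :=
    fun j => Nat.rec q0 (fun j r => nxt r j) j
  have hq : ∀ j, q (j + 1) = nxt (q j) j := fun j => rfl
  obtain ⟨A, hA1, _⟩ := exists_lim (fun j => (q j).1) (fun j => by
    show Ext (q j).1 (q (j + 1)).1
    rw [hq]
    exact hn1 _ _)
  have hl : ∀ j, j ≤ (q j).1.l := by
    intro j
    induction j with
    | zero => exact Nat.zero_le _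
    | succ j ih =>
      rw [hq]
      have := hn2 (q j) j
      omega
  have hAI : I A := by
    refine DZ.of_finite ((Set.finite_Iio p.l).subset ?_)
    intro n hn
    by_contra hc
    have hc' : p.l ≤ n := not_lt.1 hc
    apply hn
    have e : col A n = col (q (n + 1)).1.S n := by
      ext m
      refine hA1 (n + 1) (Nat.pair n m) ?_
      show fs (Nat.pair n m) < (q (n + 1)).1.l
      rw [fs, Nat.unpair_pair]
      have := hl (n + 1)
      show n < (q (n + 1)).1.l
      omega
    rw [e]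
    exact (q (n + 1)).2.2 n hc'
  obtain ⟨j, hj⟩ := Set.mem_iUnion.1 (hsub ((ch_code A).2 hAI))
  refine hn3 (q j) j A ?_ hj
  have := hA1 (j + 1)
  rwa [hq] at this

theorem not_Fsd : ¬ IsFsigmaDelta (code Fl) := by
  rintro ⟨C, hC, hX⟩
  have hst : ∀ (i : ℕ) (p : Cond), ∃ q, Ext p q ∧ ∀ A, Obey A q → ch A ∈ ⋃ j, C i j := by
    intro i p
    refine stage (C i) (hC i) ?_ p
    rw [hX]
    exact Set.iInter_subset _ i
  choose st h1 h2 using hst
  -- fill columns
  let fill : Cond → Cond := fun q =>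
    { l := 2 * q.l + 2
      S := q.S ∪ {a | q.l ≤ fs a ∧ fs a < 2 * q.l + 2}
      h := by
        rintro a (ha | ha)
        · have := q.h a ha
          omega
        · exact ha.2 }
  have hfill : ∀ q, Ext q (fill q) := by
    intro q
    refine ⟨show q.l ≤ 2 * q.l + 2 by omega, fun a ha => ?_⟩
    constructor
    · rintro (h | h)
      · exact h
      · exact absurd h.1 (not_le.2 ha)
    · exact fun h => Or.inl h
  let p0 : Cond := ⟨0, ∅, fun a ha => absurd ha (Set.notMem_empty a)⟩
  let p : ℕ → Cond := fun i => Nat.rec p0 (fun i r => fill (st i r)) i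
  have hp : ∀ i, p (i + 1) = fill (st i (p i)) := fun i => rfl
  obtain ⟨A, hA1, _⟩ := exists_lim p (fun i => by
    rw [hp]
    exact (h1 i (p i)).trans (hfill _))
  have hAF : ch A ∈ code Fl := by
    rw [hX]
    refine Set.mem_iInter.2 fun i => ?_
    refine h2 i (p i) A ?_
    have := hA1 (i + 1)
    rw [hp] at this
    exact this.of_ext (hfill _)
  have hDZ : DZ (D A) := (ch_code A).1 hAF
  obtain ⟨N, hN⟩ := hDZ (1 / 2) (by norm_num)
  have hl : ∀ i, i ≤ (p i).l := by
    intro i
    induction i with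
    | zero => exact Nat.zero_le _
    | succ i ih =>
      rw [hp]
      have h3 := (h1 i (p i)).1
      show i + 1 ≤ 2 * (st i (p i)).l + 2
      omega
  set L := (st N (p N)).l with hL
  have hNL : N ≤ L := (hl N).trans (h1 N (p N)).1
  have h3 := hN (2 * L + 2) (by omega)
  have h4 : Set.Ico L (2 * L + 2) ⊆ D A ∩ Set.Iio (2 * L + 2) := by
    intro n hn
    refine ⟨?_, hn.2⟩
    show (col A n).Infinite
    have : col A n = Set.univ := by
      ext m
      simp only [Set.mem_univ, iff_true]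
      have h5 : fs (Nat.pair n m) = n := by rw [fs, Nat.unpair_pair]
      refine (hA1 (N + 1) (Nat.pair n m) ?_).2 ?_
      · rw [hp, h5]
        exact hn.2
      · rw [hp]
        refine Or.inr ⟨?_, ?_⟩
        · show L ≤ fs (Nat.pair n m)
          rw [h5]
          exact hn.1
        · show fs (Nat.pair n m) < 2 * L + 2
          rw [h5]
          exact hn.2
    rw [this]
    exact Set.infinite_univ
  have h5 := Set.ncard_le_ncard h4 (fin_inter _ _)
  have h6 : (Set.Ico L (2 * L + 2)).ncard = L + 2 := by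
    rw [← Finset.coe_Ico, Set.ncard_coe_finset, Nat.card_Ico]
    omega
  rw [h6] at h5
  have h7 : ((L + 2 : ℕ) : ℝ) ≤ ((D A ∩ Set.Iio (2 * L + 2)).ncard : ℝ) := by exact_mod_cast h5
  push_cast at h7 h3
  linarith

end Pool.Agent.Q215.NikFil
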