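import Mathlib

set_option autoImplicit false

/-! Circle maps with steep powers: the deterministic part. -/

namespace Pool.Agent.Q215.Rot

open Filter Topology Function

/-- the degree one map which is the power `M` on the unit interval -/
noncomputable def S (M : ℕ) (x : ℝ) : ℝ := ⌊x⌋ + Int.fract x ^ M

theorem S_add_int (M : ℕ) (x : ℝ) (z : ℤ) : S M (x + z) = S M x + z := by
  unfold S
  rw [Int.floor_add_intCast, Int.fract_add_intCast]
  push_cast
  ring

theorem S_sub (M : ℕ) (hM : 1 ≤ M) {x y : ℝ} (h : x < y) :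
    S M x < S M y ∧ S M y - S M x ≤ M * (y - x) := by
  unfold S
  have hM' : (1 : ℝ) ≤ M := by exact_mod_cast hM
  have hx := Int.floor_add_fract x
  have hy := Int.floor_add_fract y
  have hx0 := Int.fract_nonneg x
  have hy0 := Int.fract_nonneg y
  have hx1 := Int.fract_lt_one x
  have hy1 := Int.fract_lt_one y
  rcases (Int.floor_mono h.le).eq_or_lt with he | hl
  · have hlt : Int.fract x < Int.fract y := by
      have : ((⌊x⌋ : ℤ) : ℝ) = ⌊y⌋ := by exact_mod_cast he
      linarith
    have h1 := pow_lt_pow_left₀ hlt hx0 (by omega : M ≠ 0)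
    have he' : ((⌊x⌋ : ℤ) : ℝ) = ⌊y⌋ := by exact_mod_cast he
    refine ⟨by linarith, ?_⟩
    have h2 := abs_pow_sub_pow_le (Int.fract y) (Int.fract x) M
    rw [abs_of_pos (by linarith), abs_of_pos (by linarith : 0 < Int.fract y - Int.fract x),
      abs_of_nonneg hx0, abs_of_nonneg hy0, max_eq_left hlt.le] at h2
    have h3 : Int.fract y ^ (M - 1) ≤ 1 := pow_le_one₀ hy0 hy1.le
    have h4 : (Int.fract y - Int.fract x) * M * Int.fract y ^ (M - 1) ≤
        (Int.fract y - Int.fract x) * M * 1 :=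
      mul_le_mul_of_nonneg_left h3 (mul_nonneg (by linarith) (by linarith))
    have h5 : y - x = Int.fract y - Int.fract x := by linarith
    rw [h5]
    nlinarith
  · have hl' : ((⌊x⌋ : ℤ) : ℝ) + 1 ≤ ⌊y⌋ := by exact_mod_cast hl
    have h1 : Int.fract x ^ M < 1 := pow_lt_one₀ hx0 hx1 (by omega)
    have h2 : 0 ≤ Int.fract y ^ M := pow_nonneg hy0 M
    refine ⟨by linarith, ?_⟩
    have h3 : Int.fract y ^ M ≤ Int.fract y := by
      calc Int.fract y ^ M ≤ Int.fract y ^ 1 := pow_le_pow_of_le_one hy0 hy1.le hM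
        _ = Int.fract y := pow_one _
    have h4 : 1 - Int.fract x ^ M ≤ M * (1 - Int.fract x) := by
      have := one_add_mul_le_pow (a := Int.fract x - 1) (by linarith) M
      have h6 : 1 + (Int.fract x - 1) = Int.fract x := by ring
      rw [h6] at this
      linarith
    have h7 : y - x = (⌊y⌋ - ⌊x⌋ - 1) + Int.fract y + (1 - Int.fract x) := by linarith
    rw [h7]
    nlinarith

/-- the perturbation -/
noncomputable def kf (N m M : ℕ) (s : ZMod m × ZMod m) (x : ℝ) : ℝ :=
  S M (N * (x + s.2.val / (N * m))) / N + s.1.val / (N * m)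

theorem kf_add_one (N m M : ℕ) (hN : 0 < N) (s : ZMod m × ZMod m) (x : ℝ) :
    kf N m M s (x + 1) = kf N m M s x + 1 := by
  have hN' : (0 : ℝ) < N := by exact_mod_cast hN
  unfold kf
  have h1 : (N : ℝ) * (x + 1 + s.2.val / (N * m)) = N * (x + s.2.val / (N * m)) + ((N : ℤ) : ℝ) := by
    push_cast
    ring
  rw [h1, S_add_int]
  push_cast
  field_simp
  ring

theorem kf_sub (N m M : ℕ) (hN : 0 < N) (hM : 1 ≤ M) (s : ZMod m × ZMod m) {x y : ℝ} (h : x < y) :
    kf N m M s x < kf N m M s y ∧ kf N m M s y - kf N m M s x ≤ M * (y - x) := by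
  have hN' : (0 : ℝ) < N := by exact_mod_cast hN
  have h1 : (N : ℝ) * (x + s.2.val / (N * m)) < N * (y + s.2.val / (N * m)) := by
    apply mul_lt_mul_of_pos_left _ hN'
    linarith
  obtain ⟨h2, h3⟩ := S_sub M hM h1
  unfold kf
  refine ⟨by
    have := (div_lt_div_iff_of_pos_right hN').mpr h2
    linarith, ?_⟩
  have h4 : (S M (N * (y + s.2.val / (N * m))) / N + s.1.val / (N * m)) -
      (S M (N * (x + s.2.val / (N * m))) / N + s.1.val / (N * m)) =
      (S M (N * (y + s.2.val / (N * m))) - S M (N * (x + s.2.val / (N * m)))) / N := by ring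
  rw [h4, div_le_iff₀ hN']
  calc _ ≤ _ := h3
    _ = _ := by ring

theorem kf_near (N m M : ℕ) (hN : 0 < N) (hm : 0 < m) (s : ZMod m × ZMod m) (x : ℝ) :
    |kf N m M s x - x| ≤ 3 / N := by
  have hN' : (0 : ℝ) < N := by exact_mod_cast hN
  have hm' : (0 : ℝ) < m := by exact_mod_cast hm
  have _ : NeZero m := ⟨hm.ne'⟩
  have hv : ∀ a : ZMod m, (0 : ℝ) ≤ a.val / (N * m) ∧ (a.val : ℝ) / (N * m) ≤ 1 / N := by
    intro a
    refine ⟨by positivity, ?_⟩
    rw [div_le_div_iff₀ (by positivity) hN', one_mul]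
    have : (a.val : ℝ) ≤ m := by exact_mod_cast (ZMod.val_lt a).le
    nlinarith
  obtain ⟨h1, h2⟩ := hv s.1
  obtain ⟨h3, h4⟩ := hv s.2
  unfold kf
  set u : ℝ := x + s.2.val / (N * m) with hu
  have h5 : |S M (N * u) / N - u| ≤ 1 / N := by
    have h6 : S M (N * u) / N - u = (S M (N * u) - N * u) / N := by field_simp
    rw [h6, abs_div, abs_of_pos hN']
    apply div_le_div_of_nonneg_right _ hN'.le
    unfold S
    have h7 := Int.floor_add_fract ((N : ℝ) * u)
    have h8 := Int.fract_nonneg ((N : ℝ) * u)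
    have h9 := (Int.fract_lt_one ((N : ℝ) * u)).le
    have h10 : (⌊(N : ℝ) * u⌋ : ℝ) + Int.fract (N * u) ^ M - N * u =
      Int.fract (N * u) ^ M - Int.fract (N * u) := by linarith
    rw [h10, abs_le]
    have h11 := pow_nonneg h8 M
    have h12 := pow_le_one₀ (n := M) h8 h9
    constructor <;> linarith
  have h13 : (3 : ℝ) / N = 1 / N + 1 / N + 1 / N := by ring
  rw [h13]
  rw [abs_le] at h5 ⊢
  constructor <;> linarith

/-- the key computation: away from the bad positions the composition maps an arc into an arc -/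
theorem arc_step (N m M : ℕ) (hN : 0 < N) (hm : 0 < m) (hM : (1 - 1 / (4 * m) : ℝ) ^ M ≤ 1 / m)
    (F T : CircleDeg1Lift) (hT : ∀ x, |T x - x| ≤ 1 / (4 * (N * m))) (i j : ZMod m)
    (hgood : ∀ t s : ℤ, (t : ZMod m) = i → (s : ZMod m) = -j →
      ¬ (N * m * F (t / (N * m)) - 1 / 2 ≤ s ∧ (s : ℝ) ≤ N * m * F ((t + 1) / (N * m)) + 1 / 2))
    (l : ℤ) : ∃ l' : ℤ, ∀ x : ℝ, (l * m + i.val) / (N * m) ≤ x → x ≤ (l * m + i.val + 1) / (N * m) →
      (l' * m + i.val) / (N * m) ≤ kf N m M (i, j) (T (F x)) ∧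
      kf N m M (i, j) (T (F x)) ≤ (l' * m + i.val + 1) / (N * m) := by
  have hN' : (0 : ℝ) < N := by exact_mod_cast hN
  have hm' : (0 : ℝ) < m := by exact_mod_cast hm
  have _ : NeZero m := ⟨hm.ne'⟩
  have hm1 : (1 : ℝ) ≤ m := by exact_mod_cast hm
  have hNm : (0 : ℝ) < N * m := mul_pos hN' hm'
  set A : ℝ := N * m * F ((l * m + i.val) / (N * m)) with hA
  set B : ℝ := N * m * F ((l * m + i.val + 1) / (N * m)) with hB
  have hAB : A ≤ B := by
    apply mul_le_mul_of_nonneg_left _ hNm.le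
    apply F.mono
    apply div_le_div_of_nonneg_right _ hNm.le
    linarith
  have hti : (((l * m + i.val : ℤ)) : ZMod m) = i := by
    push_cast
    simp
  have hcast : (((l * m + i.val : ℤ)) : ℝ) = l * m + i.val := by push_cast; ring
  have hg : ∀ s : ℤ, (s : ZMod m) = -j → ¬ (A - 1 / 2 ≤ s ∧ (s : ℝ) ≤ B + 1 / 2) := by
    intro s hs
    have := hgood (l * m + i.val) s hti hs
    rw [hcast] at this
    exact this
  refine ⟨⌊(A + j.val) / m⌋, ?_⟩
  set l' : ℤ := ⌊(A + j.val) / m⌋ with hl'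
  have h1 : (l' : ℝ) * m ≤ A + j.val := by
    have := Int.floor_le ((A + j.val) / m)
    rwa [le_div_iff₀ hm'] at this
  have h2 : A + j.val < (l' + 1) * m := by
    have := Int.lt_floor_add_one ((A + j.val) / m)
    rwa [div_lt_iff₀ hm'] at this
  have hs1 : (((l' * m - j.val : ℤ)) : ZMod m) = -j := by
    push_cast
    simp
  have hs2 : ((((l' + 1) * m - j.val : ℤ)) : ZMod m) = -j := by
    push_cast
    simp
  have h3 : ((l' : ℝ) * m - j.val) < A - 1 / 2 := by
    by_contra hc
    push Not at hc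
    apply hg _ hs1
    push_cast
    constructor <;> linarith
  have h4 : B + 1 / 2 < (((l' : ℝ) + 1) * m - j.val) := by
    by_contra hc
    push Not at hc
    apply hg _ hs2
    push_cast
    constructor <;> linarith
  intro x hx1 hx2
  have h5 : A ≤ N * m * F x := mul_le_mul_of_nonneg_left (F.mono hx1) hNm.le
  have h6 : N * m * F x ≤ B := mul_le_mul_of_nonneg_left (F.mono hx2) hNm.le
  have h7 : |N * m * T (F x) - N * m * F x| ≤ 1 / 4 := by
    rw [← mul_sub, abs_mul, abs_of_pos hNm]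
    calc N * m * |T (F x) - F x| ≤ N * m * (1 / (4 * (N * m))) :=
          mul_le_mul_of_nonneg_left (hT _) hNm.le
      _ = 1 / 4 := by field_simp
  rw [abs_le] at h7
  set u : ℝ := N * m * T (F x) with hu
  have h8 : (N : ℝ) * (T (F x) + j.val / (N * m)) = (u + j.val) / m := by
    rw [hu]
    field_simp
  have h9 : (l' : ℝ) ≤ (u + j.val) / m := by
    rw [le_div_iff₀ hm']
    linarith
  have h10 : (u + j.val) / m ≤ l' + (1 - 1 / (4 * m)) := by
    rw [div_le_iff₀ hm']
    have : (l' + (1 - 1 / (4 * m))) * (m : ℝ) = (l' + 1) * m - 1 / 4 := by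
      field_simp
      ring
    rw [this]
    linarith
  have h11 : (0 : ℝ) < 1 / (4 * m) := by positivity
  have hfl : ⌊(u + j.val) / m⌋ = l' := by
    rw [Int.floor_eq_iff]
    exact ⟨h9, by linarith⟩
  have hfr : Int.fract ((u + j.val) / m) = (u + j.val) / m - l' := by
    rw [← Int.self_sub_floor, hfl]
  have h12 : 0 ≤ Int.fract ((u + j.val) / m) ^ M := pow_nonneg (Int.fract_nonneg _) M
  have h13 : Int.fract ((u + j.val) / m) ^ M ≤ 1 / m := by
    refine le_trans (pow_le_pow_left₀ (Int.fract_nonneg _) ?_ M) hM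
    rw [hfr]
    linarith
  have h14 : kf N m M (i, j) (T (F x)) =
      (l' * m + i.val + m * Int.fract ((u + j.val) / m) ^ M) / (N * m) := by
    unfold kf
    simp only
    rw [h8]
    unfold S
    rw [hfl]
    field_simp
    ring
  have h15 : m * Int.fract ((u + j.val) / m) ^ M ≤ 1 := by
    calc m * Int.fract ((u + j.val) / m) ^ M ≤ m * (1 / m) := mul_le_mul_of_nonneg_left h13 hm'.le
      _ = 1 := by field_simp
  rw [h14]
  constructor
  · apply div_le_div_of_nonneg_right _ hNm.le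
    have := mul_nonneg hm'.le h12
    linarith
  · apply div_le_div_of_nonneg_right _ hNm.le
    linarith

/-- the perturbation as a circle lift -/
noncomputable def kl (N m M : ℕ) (hN : 0 < N) (hM : 1 ≤ M) (s : ZMod m × ZMod m) :
    CircleDeg1Lift where
  toFun := kf N m M s
  monotone' := by
    intro x y h
    rcases h.eq_or_lt with h | h
    · rw [h]
    · exact (kf_sub N m M hN hM s h).1.le
  map_add_one' := kf_add_one N m M hN s

theorem kl_apply (N m M : ℕ) (hN : 0 < N) (hM : 1 ≤ M) (s : ZMod m × ZMod m) (x : ℝ) :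
    kl N m M hN hM s x = kf N m M s x := rfl

theorem kl_lip (N m M : ℕ) (hN : 0 < N) (hM : 1 ≤ M) (s : ZMod m × ZMod m) (x y : ℝ) :
    |kl N m M hN hM s x - kl N m M hN hM s y| ≤ M * |x - y| := by
  rcases lt_trichotomy x y with h | h | h
  · obtain ⟨h1, h2⟩ := kf_sub N m M hN hM s h
    rw [kl_apply, kl_apply, abs_sub_comm, abs_sub_comm x, abs_of_pos (by linarith),
      abs_of_pos (by linarith)]
    exact h2
  · rw [h]
    simp
  · obtain ⟨h1, h2⟩ := kf_sub N m M hN hM s h
    rw [kl_apply, kl_apply, abs_of_pos (by linarith), abs_of_pos (by linarith)]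
    exact h2

theorem kl_cont (N m M : ℕ) (hN : 0 < N) (hM : 1 ≤ M) (s : ZMod m × ZMod m) :
    Continuous (kl N m M hN hM s) := by
  have : LipschitzWith (M : NNReal) (kl N m M hN hM s) := by
    apply LipschitzWith.of_dist_le_mul
    intro x y
    rw [Real.dist_eq, Real.dist_eq]
    exact kl_lip N m M hN hM s x y
  exact this.continuous

theorem kl_inj (N m M : ℕ) (hN : 0 < N) (hM : 1 ≤ M) (s : ZMod m × ZMod m) :
    Function.Injective (kl N m M hN hM s) := by
  intro x y hxy
  rcases lt_trichotomy x y with h | h | h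
  · have := (kf_sub N m M hN hM s h).1
    rw [kl_apply, kl_apply] at hxy
    linarith
  · exact h
  · have := (kf_sub N m M hN hM s h).1
    rw [kl_apply, kl_apply] at hxy
    linarith

/-- at a good position the composition has a periodic point -/
theorem periodic_of_good (N m M : ℕ) (hN : 0 < N) (hm : 0 < m) (hM1 : 1 ≤ M)
    (hM : (1 - 1 / (4 * m) : ℝ) ^ M ≤ 1 / m)
    (F T : CircleDeg1Lift) (hF : Continuous F) (hTc : Continuous T)
    (hT : ∀ x, |T x - x| ≤ 1 / (4 * (N * m))) (i j : ZMod m)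
    (hgood : ∀ t s : ℤ, (t : ZMod m) = i → (s : ZMod m) = -j →
      ¬ (N * m * F (t / (N * m)) - 1 / 2 ≤ s ∧ (s : ℝ) ≤ N * m * F ((t + 1) / (N * m)) + 1 / 2)) :
    ∃ q : ℕ, 0 < q ∧ ∃ p : ℤ, ∃ x : ℝ, (kl N m M hN hM1 (i, j) * T * F)^[q] x = x + p := by
  have hN' : (0 : ℝ) < N := by exact_mod_cast hN
  have hm' : (0 : ℝ) < m := by exact_mod_cast hm
  have hNm : (0 : ℝ) < N * m := mul_pos hN' hm'
  have _ : NeZero N := ⟨hN.ne'⟩
  choose σ hσ using arc_step N m M hN hm hM F T hT i j hgood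
  set χ : CircleDeg1Lift := kl N m M hN hM1 (i, j) * T * F with hχ
  have hχa : ∀ x, χ x = kf N m M (i, j) (T (F x)) := fun x => rfl
  have hχc : Continuous χ := (kl_cont N m M hN hM1 (i, j)).comp (hTc.comp hF)
  have key : ∀ q : ℕ, ∀ l : ℤ, ∀ x : ℝ, (l * m + i.val) / (N * m) ≤ x →
      x ≤ (l * m + i.val + 1) / (N * m) →
      ((σ^[q] l : ℤ) * m + i.val) / (N * m) ≤ χ^[q] x ∧
      χ^[q] x ≤ ((σ^[q] l : ℤ) * m + i.val + 1) / (N * m) := by
    intro q
    induction q with
    | zero => intro l x h1 h2; exact ⟨h1, h2⟩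
    | succ q ih =>
      intro l x h1 h2
      obtain ⟨h3, h4⟩ := hσ l x h1 h2
      rw [← hχa] at h3 h4
      exact ih (σ l) (χ x) h3 h4
  obtain ⟨a, b, hab, he⟩ : ∃ a b : ℕ, a < b ∧ ((σ^[a] 0 : ℤ) : ZMod N) = ((σ^[b] 0 : ℤ) : ZMod N) := by
    have hni : ¬ Function.Injective (fun r : ℕ => ((σ^[r] 0 : ℤ) : ZMod N)) := not_injective_infinite_finite _
    unfold Function.Injective at hni
    push Not at hni
    obtain ⟨a, b, h1, h2⟩ := hni
    rcases lt_or_gt_of_ne h2 with h | h
    · exact ⟨a, b, h, h1⟩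
    · exact ⟨b, a, h, h1.symm⟩
  rw [ZMod.intCast_eq_intCast_iff_dvd_sub] at he
  obtain ⟨c, hc⟩ := he
  set l : ℤ := σ^[a] 0 with hl
  have hl2 : σ^[b - a] l = l + N * c := by
    have : σ^[b] 0 = σ^[b - a] l := by
      rw [hl, ← Function.iterate_add_apply]
      congr 1
      omega
    rw [← this]
    omega
  have h1 : ContinuousOn (fun x => χ^[b - a] x - c)
      (Set.Icc ((l * m + i.val) / (N * m) : ℝ) ((l * m + i.val + 1) / (N * m))) :=
    ((hχc.iterate _).sub continuous_const).continuousOn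
  have h2 : ((l * m + i.val) / (N * m) : ℝ) ≤ (l * m + i.val + 1) / (N * m) := by
    apply div_le_div_of_nonneg_right _ hNm.le
    linarith
  have h3 : Set.MapsTo (fun x => χ^[b - a] x - c)
      (Set.Icc ((l * m + i.val) / (N * m) : ℝ) ((l * m + i.val + 1) / (N * m)))
      (Set.Icc ((l * m + i.val) / (N * m) : ℝ) ((l * m + i.val + 1) / (N * m))) := by
    intro x hx
    obtain ⟨h4, h5⟩ := key (b - a) l x hx.1 hx.2
    rw [hl2] at h4 h5
    push_cast at h4 h5
    have h6 : (((l : ℝ) + N * c) * m + i.val) / (N * m) = (l * m + i.val) / (N * m) + c := by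
      field_simp
      ring
    have h7 : (((l : ℝ) + N * c) * m + i.val + 1) / (N * m) = (l * m + i.val + 1) / (N * m) + c := by
      field_simp
      ring
    rw [h6] at h4
    rw [h7] at h5
    constructor
    · simp only
      linarith
    · simp only
      linarith
  obtain ⟨x, -, hx⟩ := exists_mem_Icc_isFixedPt_of_mapsTo h1 h2 h3
  refine ⟨b - a, by omega, c, x, ?_⟩
  have hx' : χ^[b - a] x - c = x := hx
  linarith

/-- there are few bad positions -/
theorem bad_card (N m : ℕ) (hN : 0 < N) (hm : 0 < m) (F : CircleDeg1Lift) :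
    ∃ bad : Finset (ZMod m × ZMod m), bad.card ≤ 3 * (N * m) ∧ ∀ i j, (i, j) ∉ bad →
      ∀ t s : ℤ, (t : ZMod m) = i → (s : ZMod m) = -j →
      ¬ (N * m * F (t / (N * m)) - 1 / 2 ≤ s ∧
        (s : ℝ) ≤ N * m * F ((t + 1) / (N * m)) + 1 / 2) := by
  have hN' : (0 : ℝ) < N := by exact_mod_cast hN
  have hm' : (0 : ℝ) < m := by exact_mod_cast hm
  have hNm : (0 : ℝ) < N * m := mul_pos hN' hm'
  let A : ℕ → ℝ := fun t => N * m * F (t / (N * m))
  let I : ℕ → Finset ℤ := fun t => Finset.Icc ⌈A t - 1 / 2⌉ ⌊A (t + 1) + 1 / 2⌋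
  have hAm : ∀ t, A t ≤ A (t + 1) := by
    intro t
    apply mul_le_mul_of_nonneg_left _ hNm.le
    apply F.mono
    apply div_le_div_of_nonneg_right _ hNm.le
    push_cast
    linarith
  have hI : ∀ t, ((I t).card : ℝ) ≤ A (t + 1) - A t + 2 := by
    intro t
    have h1 := Int.floor_le (A (t + 1) + 1 / 2)
    have h2 := Int.le_ceil (A t - 1 / 2)
    have h3 : ((I t).card : ℤ) = max (⌊A (t + 1) + 1 / 2⌋ + 1 - ⌈A t - 1 / 2⌉) 0 := by
      simp only [I, Int.card_Icc]
      exact Int.toNat_eq_max _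
    have h4 : ((I t).card : ℝ) = max ((⌊A (t + 1) + 1 / 2⌋ : ℝ) + 1 - ⌈A t - 1 / 2⌉) 0 := by
      have : (((I t).card : ℤ) : ℝ) = ((max (⌊A (t + 1) + 1 / 2⌋ + 1 - ⌈A t - 1 / 2⌉) 0 : ℤ) : ℝ) := by
        rw [h3]
      push_cast at this
      exact this
    rw [h4]
    apply max_le
    · linarith
    · linarith [hAm t]
  classical
  refine ⟨(Finset.range (N * m)).biUnion (fun t => (I t).image
    (fun s : ℤ => (((t : ℕ) : ZMod m), -(s : ZMod m)))), ?_, ?_⟩
  · have h1 : ((Finset.range (N * m)).biUnion (fun t => (I t).image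
        (fun s : ℤ => (((t : ℕ) : ZMod m), -(s : ZMod m))))).card ≤
        ∑ t ∈ Finset.range (N * m), (I t).card := by
      refine le_trans Finset.card_biUnion_le ?_
      exact Finset.sum_le_sum fun t _ => Finset.card_image_le
    refine le_trans h1 ?_
    have h2 : (∑ t ∈ Finset.range (N * m), ((I t).card : ℝ)) ≤ 3 * (N * m) := by
      calc (∑ t ∈ Finset.range (N * m), ((I t).card : ℝ))
          ≤ ∑ t ∈ Finset.range (N * m), (A (t + 1) - A t + 2) :=
            Finset.sum_le_sum fun t _ => hI t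
        _ = A (N * m) - A 0 + 2 * (N * m) := by
            rw [Finset.sum_add_distrib, Finset.sum_range_sub]
            simp
            ring
        _ = 3 * (N * m) := by
            have h3 : A (N * m) = A 0 + N * m := by
              simp only [A]
              push_cast
              rw [div_self hNm.ne', zero_div]
              have := F.map_add_one 0
              rw [zero_add] at this
              rw [this]
              ring
            rw [h3]
            ring
    exact_mod_cast h2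
  · intro i j hij t s hti hsj hc
    apply hij
    rw [Finset.mem_biUnion]
    have hNmz : (0 : ℤ) < ((N * m : ℕ) : ℤ) := by positivity
    have ht0 : 0 ≤ t % ((N * m : ℕ) : ℤ) := Int.emod_nonneg _ hNmz.ne'
    have ht1 : t % ((N * m : ℕ) : ℤ) < ((N * m : ℕ) : ℤ) := Int.emod_lt_of_pos _ hNmz
    have hdiv := Int.emod_add_mul_ediv t ((N * m : ℕ) : ℤ)
    set c : ℤ := t / ((N * m : ℕ) : ℤ) with hcd
    obtain ⟨t', ht'⟩ := Int.eq_ofNat_of_zero_le ht0
    rw [ht'] at hdiv ht1
    have ht'lt : t' < N * m := by exact_mod_cast ht1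
    have htr : (t : ℝ) = t' + N * m * c := by
      rw [← hdiv]
      push_cast
      ring
    have hF1 : F (t / (N * m)) = F (t' / (N * m)) + c := by
      rw [← F.map_add_int, htr]
      congr 1
      field_simp
    have hF2 : F ((t + 1) / (N * m)) = F ((t' + 1) / (N * m)) + c := by
      rw [← F.map_add_int, htr]
      congr 1
      field_simp
      ring
    refine ⟨t', Finset.mem_range.mpr ht'lt, ?_⟩
    rw [Finset.mem_image]
    refine ⟨s - ((N * m : ℕ) : ℤ) * c, ?_, ?_⟩
    · simp only [I, Finset.mem_Icc, A]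
      rw [Int.ceil_le, Int.le_floor]
      rw [hF1, hF2] at hc
      push_cast
      obtain ⟨h1, h2⟩ := hc
      rw [mul_add] at h1 h2
      constructor <;> linarith
    · have h1 : ((t' : ℕ) : ZMod m) = i := by
        rw [← hti, ← hdiv]
        push_cast
        simp
      have h2 : ((s - ((N * m : ℕ) : ℤ) * c : ℤ) : ZMod m) = -j := by
        push_cast
        rw [hsj]
        simp
      rw [h1, h2, neg_neg]

end Pool.Agent.Q215.Rot
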