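import Mathlib
import Pool.Agent.Q215.RotA

set_option autoImplicit false

/-! Circle maps with steep powers: the infinite products. -/

namespace Pool.Agent.Q215.Rot

open Filter Topology Function

/-- the bounds of the Lipschitz constants -/
def La : ℕ → ℕ
  | 0 => 1
  | n + 1 => La n * (4 * (3 * 2 ^ n * La n) ^ 4)

/-- the numbers of arcs -/
def Ns (n : ℕ) : ℕ := 3 * 2 ^ n * La n

/-- the numbers of positions -/
def ms (n : ℕ) : ℕ := Ns n ^ 2

/-- the exponents -/
def Ms (n : ℕ) : ℕ := 4 * ms n ^ 2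

theorem La_pos (n : ℕ) : 0 < La n := by
  induction n with
  | zero => exact one_pos
  | succ n ih =>
    show 0 < La n * (4 * (3 * 2 ^ n * La n) ^ 4)
    positivity

theorem La_succ (n : ℕ) : La (n + 1) = La n * Ms n := by
  show La n * (4 * (3 * 2 ^ n * La n) ^ 4) = _
  unfold Ms ms Ns
  ring

theorem Ns_pos (n : ℕ) : 0 < Ns n := by
  unfold Ns
  have := La_pos n
  positivity

theorem ms_pos (n : ℕ) : 0 < ms n := pow_pos (Ns_pos n) 2

theorem Ms_pos (n : ℕ) : 1 ≤ Ms n := by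
  unfold Ms
  have := ms_pos n
  have : 0 < ms n ^ 2 := pow_pos this 2
  omega

theorem exponent (n : ℕ) : (1 - 1 / (4 * (ms n : ℝ))) ^ Ms n ≤ 1 / (ms n : ℝ) := by
  have hm : (0 : ℝ) < ms n := by exact_mod_cast ms_pos n
  have hm1 : (1 : ℝ) ≤ ms n := by exact_mod_cast ms_pos n
  have h0 : (0 : ℝ) ≤ 1 - 1 / (4 * (ms n : ℝ)) := by
    rw [sub_nonneg, div_le_one (by positivity)]
    linarith
  have h1 : (1 - 1 / (4 * (ms n : ℝ))) ≤ Real.exp (-(1 / (4 * (ms n : ℝ)))) := by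
    have := Real.add_one_le_exp (-(1 / (4 * (ms n : ℝ))))
    linarith
  calc (1 - 1 / (4 * (ms n : ℝ))) ^ Ms n ≤ Real.exp (-(1 / (4 * (ms n : ℝ)))) ^ Ms n :=
        pow_le_pow_left₀ h0 h1 _
    _ = Real.exp (-(ms n : ℝ)) := by
        rw [← Real.exp_nat_mul]
        congr 1
        unfold Ms
        push_cast
        field_simp
    _ ≤ 1 / (ms n : ℝ) := by
        rw [Real.exp_neg, ← one_div]
        apply one_div_le_one_div_of_le hm
        have := Real.add_one_le_exp (ms n : ℝ)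
        linarith

/-- the space of the positions -/
abbrev Om : Type := (n : ℕ) → ZMod (ms n) × ZMod (ms n)

/-- the perturbation at stage `n` -/
noncomputable def kk (n : ℕ) (s : ZMod (ms n) × ZMod (ms n)) : CircleDeg1Lift :=
  kl (Ns n) (ms n) (Ms n) (Ns_pos n) (Ms_pos n) s

/-- the finite products -/
noncomputable def Qf (ω : Om) (a : ℕ) : ℕ → CircleDeg1Lift
  | 0 => 1
  | r + 1 => Qf ω a r * kk (a + r) (ω (a + r))

theorem Qf_lip (ω : Om) (a r : ℕ) (x y : ℝ) :
    |Qf ω a r x - Qf ω a r y| ≤ La (a + r) * |x - y| := by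
  induction r generalizing x y with
  | zero =>
    have : (1 : ℝ) ≤ La (a + 0) := by exact_mod_cast La_pos _
    have h := abs_nonneg (x - y)
    show |x - y| ≤ _
    nlinarith
  | succ r ih =>
    have h1 := ih (kk (a + r) (ω (a + r)) x) (kk (a + r) (ω (a + r)) y)
    have h2 := kl_lip (Ns (a + r)) (ms (a + r)) (Ms (a + r)) (Ns_pos _) (Ms_pos _) (ω (a + r)) x y
    have h3 : (0 : ℝ) ≤ La (a + r) := Nat.cast_nonneg _
    calc |Qf ω a (r + 1) x - Qf ω a (r + 1) y| ≤ _ := h1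
      _ ≤ La (a + r) * (Ms (a + r) * |x - y|) := mul_le_mul_of_nonneg_left h2 h3
      _ = La (a + (r + 1)) * |x - y| := by
          rw [← add_assoc, La_succ]
          push_cast
          ring

theorem three_div (n : ℕ) : (3 : ℝ) / Ns n = (1 / 2) ^ n / La n := by
  have h : (0 : ℝ) < La n := by exact_mod_cast La_pos n
  unfold Ns
  push_cast
  rw [one_div, inv_pow]
  field_simp

theorem kk_near (n : ℕ) (s : ZMod (ms n) × ZMod (ms n)) (x : ℝ) :
    |kk n s x - x| ≤ (1 / 2) ^ n / La n := by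
  rw [← three_div]
  exact kf_near (Ns n) (ms n) (Ms n) (Ns_pos n) (ms_pos n) s x

theorem Qf_step (ω : Om) (a r : ℕ) (x : ℝ) :
    |Qf ω a (r + 1) x - Qf ω a r x| ≤ (1 / 2) ^ (a + r) := by
  have h1 := Qf_lip ω a r (kk (a + r) (ω (a + r)) x) x
  have h2 := kk_near (a + r) (ω (a + r)) x
  have h : (0 : ℝ) < La (a + r) := by exact_mod_cast La_pos _
  calc |Qf ω a (r + 1) x - Qf ω a r x| ≤ _ := h1
    _ ≤ La (a + r) * ((1 / 2) ^ (a + r) / La (a + r)) := mul_le_mul_of_nonneg_left h2 h.le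
    _ = (1 / 2) ^ (a + r) := by field_simp

theorem La_mono (a r : ℕ) : La a ≤ La (a + r) := by
  induction r with
  | zero => exact le_refl _
  | succ r ih =>
    refine le_trans ih ?_
    rw [← add_assoc, La_succ]
    exact Nat.le_mul_of_pos_right _ (Ms_pos _)

theorem Qf_near (ω : Om) (a r : ℕ) (x : ℝ) :
    |Qf ω a r x - x| ≤ (2 * (1 / 2) ^ a - 2 * (1 / 2) ^ (a + r)) / La a := by
  induction r generalizing x with
  | zero =>
    have : Qf ω a 0 x = x := rfl
    rw [this]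
    simp
  | succ r ih =>
    have h1 := ih (kk (a + r) (ω (a + r)) x)
    have h2 := kk_near (a + r) (ω (a + r)) x
    have h : (0 : ℝ) < La a := by exact_mod_cast La_pos _
    have h3 : (La a : ℝ) ≤ La (a + r) := by exact_mod_cast La_mono a r
    have h4 : ((1 : ℝ) / 2) ^ (a + r) / La (a + r) ≤ (1 / 2) ^ (a + r) / La a :=
      div_le_div_of_nonneg_left (by positivity) h h3
    have h5 : Qf ω a (r + 1) x - x = (Qf ω a r (kk (a + r) (ω (a + r)) x) -
      kk (a + r) (ω (a + r)) x) + (kk (a + r) (ω (a + r)) x - x) := by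
      show Qf ω a r (kk (a + r) (ω (a + r)) x) - x = _
      ring
    rw [h5]
    refine le_trans (abs_add_le _ _) ?_
    have h6 : (2 * (1 / 2 : ℝ) ^ a - 2 * (1 / 2) ^ (a + (r + 1))) / La a =
      (2 * (1 / 2) ^ a - 2 * (1 / 2) ^ (a + r)) / La a + (1 / 2) ^ (a + r) / La a := by
      rw [← add_div]
      congr 1
      rw [← add_assoc, pow_succ]
      ring
    rw [h6]
    linarith

theorem Qf_near' (ω : Om) (a r : ℕ) (x : ℝ) :
    |Qf ω a r x - x| ≤ 2 * (1 / 2) ^ a / La a := by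
  refine le_trans (Qf_near ω a r x) ?_
  apply div_le_div_of_nonneg_right _ (Nat.cast_nonneg _)
  have : (0 : ℝ) ≤ (1 / 2) ^ (a + r) := by positivity
  linarith

theorem Qf_dist (ω : Om) (a r : ℕ) (x : ℝ) :
    dist (Qf ω a r x) (Qf ω a (r + 1) x) ≤ 1 * (1 / 2) ^ r := by
  rw [dist_comm, Real.dist_eq]
  refine le_trans (Qf_step ω a r x) ?_
  rw [pow_add, one_mul]
  have h1 : ((1 : ℝ) / 2) ^ a ≤ 1 := pow_le_one₀ (by norm_num) (by norm_num)
  have h2 : (0 : ℝ) ≤ (1 / 2) ^ r := by positivity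
  nlinarith

theorem exists_lim (ω : Om) (a : ℕ) (x : ℝ) : ∃ y, Tendsto (fun r => Qf ω a r x) atTop (𝓝 y) :=
  cauchySeq_tendsto_of_complete (cauchySeq_of_le_geometric (1 / 2) 1 (by norm_num) (Qf_dist ω a · x))

/-- the infinite products -/
noncomputable def Tl (ω : Om) (a : ℕ) (x : ℝ) : ℝ := (exists_lim ω a x).choose

theorem Tl_tendsto (ω : Om) (a : ℕ) (x : ℝ) :
    Tendsto (fun r => Qf ω a r x) atTop (𝓝 (Tl ω a x)) := (exists_lim ω a x).choose_spec

/-- the infinite products as circle lifts -/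
noncomputable def TT (ω : Om) (a : ℕ) : CircleDeg1Lift where
  toFun := Tl ω a
  monotone' := by
    intro x y h
    exact le_of_tendsto_of_tendsto' (Tl_tendsto ω a x) (Tl_tendsto ω a y)
      (fun r => (Qf ω a r).mono h)
  map_add_one' := by
    intro x
    refine tendsto_nhds_unique (Tl_tendsto ω a (x + 1)) ?_
    have h := (Tl_tendsto ω a x).add_const 1
    refine h.congr fun r => ?_
    exact ((Qf ω a r).map_add_one x).symm

theorem TT_tendsto (ω : Om) (a : ℕ) (x : ℝ) :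
    Tendsto (fun r => Qf ω a r x) atTop (𝓝 (TT ω a x)) := Tl_tendsto ω a x

theorem TT_dist (ω : Om) (a r : ℕ) (x : ℝ) : dist (Qf ω a r x) (TT ω a x) ≤ 2 * (1 / 2) ^ r := by
  have := dist_le_of_le_geometric_of_tendsto (1 / 2) 1 (by norm_num) (Qf_dist ω a · x)
    (TT_tendsto ω a x) r
  refine le_trans this ?_
  apply le_of_eq
  ring

theorem TT_near (ω : Om) (a : ℕ) (x : ℝ) : |TT ω a x - x| ≤ 2 * (1 / 2) ^ a / La a := by
  have h := ((TT_tendsto ω a x).sub_const x).abs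
  exact le_of_tendsto' h (fun r => Qf_near' ω a r x)

theorem kk_cont (n : ℕ) (s : ZMod (ms n) × ZMod (ms n)) : Continuous (kk n s) := kl_cont _ _ _ _ _ _

theorem joint_gen {A : ℕ → Type} [∀ n, TopologicalSpace (A n)] [∀ n, DiscreteTopology (A n)]
    (k : (n : ℕ) → A n → CircleDeg1Lift) (hk : ∀ n s, Continuous (k n s)) (b : ℕ) :
    Continuous (fun p : ((n : ℕ) → A n) × ℝ => k b (p.1 b) p.2) := by
  have h1 : Continuous (fun p : A b × ℝ => k b p.1 p.2) := by
    rw [continuous_prod_of_discrete_left]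
    exact fun s => hk b s
  have h0 : Continuous (fun p : ((n : ℕ) → A n) × ℝ => p.1 b) :=
    (continuous_apply b).comp continuous_fst
  exact h1.comp (h0.prodMk continuous_snd)

theorem Qf_joint (a r : ℕ) : Continuous (fun p : Om × ℝ => Qf p.1 a r p.2) := by
  induction r with
  | zero => exact continuous_snd
  | succ r ih =>
    have h2 : Continuous (fun p : Om × ℝ => kk (a + r) (p.1 (a + r)) p.2) :=
      joint_gen (A := fun n => ZMod (ms n) × ZMod (ms n)) kk kk_cont (a + r)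
    have h3 : Continuous (fun p : Om × ℝ => (p.1, kk (a + r) (p.1 (a + r)) p.2)) :=
      continuous_fst.prodMk h2
    exact ih.comp h3

theorem TT_joint (a : ℕ) : Continuous (fun p : Om × ℝ => TT p.1 a p.2) := by
  have h : TendstoUniformly (fun r (p : Om × ℝ) => Qf p.1 a r p.2) (fun p => TT p.1 a p.2) atTop := by
    rw [Metric.tendstoUniformly_iff]
    intro ε hε
    have h1 : Tendsto (fun r : ℕ => 2 * (1 / 2 : ℝ) ^ r) atTop (𝓝 (2 * 0)) :=
      (tendsto_pow_atTop_nhds_zero_of_lt_one (by norm_num) (by norm_num)).const_mul 2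
    rw [mul_zero] at h1
    filter_upwards [h1.eventually (gt_mem_nhds hε)] with r hr p
    rw [dist_comm]
    exact lt_of_le_of_lt (TT_dist p.1 a r p.2) hr
  exact h.continuous (Eventually.of_forall fun r => Qf_joint a r).frequently

theorem TT_cont (ω : Om) (a : ℕ) : Continuous (TT ω a) :=
  (TT_joint a).comp (continuous_const.prodMk continuous_id)

theorem Qf_split (ω : Om) (n r : ℕ) :
    Qf ω 0 (n + 1 + r) = Qf ω 0 n * kk n (ω n) * Qf ω (n + 1) r := by
  induction r with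
  | zero =>
    show Qf ω 0 n * kk (0 + n) (ω (0 + n)) = _
    rw [zero_add]
    exact (mul_one _).symm
  | succ r ih =>
    show Qf ω 0 (n + 1 + r) * kk (0 + (n + 1 + r)) (ω (0 + (n + 1 + r))) =
      Qf ω 0 n * kk n (ω n) * (Qf ω (n + 1) r * kk (n + 1 + r) (ω (n + 1 + r)))
    rw [ih, zero_add]
    exact mul_assoc _ _ _

theorem Qf_cont (ω : Om) (a r : ℕ) : Continuous (Qf ω a r) :=
  (Qf_joint a r).comp (continuous_const.prodMk continuous_id)

theorem TT_split (ω : Om) (n : ℕ) : TT ω 0 = Qf ω 0 n * kk n (ω n) * TT ω (n + 1) := by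
  ext x
  have h1 := (TT_tendsto ω 0 x).comp (tendsto_add_atTop_nat (n + 1))
  have h2 : Tendsto (fun r => (Qf ω 0 n * kk n (ω n)) (Qf ω (n + 1) r x)) atTop
      (𝓝 ((Qf ω 0 n * kk n (ω n)) (TT ω (n + 1) x))) := by
    have hc : Continuous (Qf ω 0 n * kk n (ω n) : CircleDeg1Lift) := (Qf_cont ω 0 n).comp (kk_cont n _)
    exact (hc.tendsto _).comp (TT_tendsto ω (n + 1) x)
  refine tendsto_nhds_unique h1 (h2.congr fun r => ?_)
  have h3 : Qf ω 0 (r + (n + 1)) x = (Qf ω 0 n * kk n (ω n)) (Qf ω (n + 1) r x) := by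
    rw [add_comm r (n + 1), Qf_split]
    rfl
  exact h3.symm

theorem kk_inj (n : ℕ) (s : ZMod (ms n) × ZMod (ms n)) : Function.Injective (kk n s) :=
  kl_inj _ _ _ _ _ _

theorem Qf_inj (ω : Om) (a r : ℕ) : Function.Injective (Qf ω a r) := by
  induction r with
  | zero => exact Function.injective_id
  | succ r ih => exact ih.comp (kk_inj _ _)

theorem TT_inj (ω : Om) : Function.Injective (TT ω 0) := by
  intro x y hxy
  by_contra hne
  have h1 : ∀ n, TT ω (n + 1) x = TT ω (n + 1) y := by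
    intro n
    rw [TT_split ω n] at hxy
    exact kk_inj _ _ (Qf_inj _ _ _ hxy)
  have h2 : ∀ n : ℕ, |x - y| ≤ 2 * (1 / 2) ^ n := by
    intro n
    have h3 := TT_near ω (n + 1) x
    have h4 := TT_near ω (n + 1) y
    rw [h1 n] at h3
    have h5 : 2 * (1 / 2 : ℝ) ^ (n + 1) / La (n + 1) ≤ (1 / 2) ^ n := by
      have h6 : (1 : ℝ) ≤ La (n + 1) := by exact_mod_cast La_pos _
      rw [div_le_iff₀ (by linarith), pow_succ]
      have : (0 : ℝ) ≤ (1 / 2) ^ n := by positivity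
      nlinarith
    rw [abs_le] at h3 h4 ⊢
    constructor <;> linarith
  have h7 : Tendsto (fun n : ℕ => 2 * (1 / 2 : ℝ) ^ n) atTop (𝓝 (2 * 0)) :=
    (tendsto_pow_atTop_nhds_zero_of_lt_one (by norm_num) (by norm_num)).const_mul 2
  rw [mul_zero] at h7
  have h8 : |x - y| ≤ 0 := ge_of_tendsto' h7 h2
  have h9 : 0 < |x - y| := abs_pos.mpr (sub_ne_zero.mpr hne)
  linarith

theorem Qf_congr {ω ω' : Om} {a r : ℕ} (h : ∀ i, a ≤ i → i < a + r → ω i = ω' i) :
    Qf ω a r = Qf ω' a r := by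
  induction r with
  | zero => rfl
  | succ r ih =>
    show Qf ω a r * kk (a + r) (ω (a + r)) = Qf ω' a r * kk (a + r) (ω' (a + r))
    rw [ih fun i h1 h2 => h i h1 (by omega), h (a + r) (by omega) (by omega)]

theorem TT_congr {ω ω' : Om} {a : ℕ} (h : ∀ i, a ≤ i → ω i = ω' i) : TT ω a = TT ω' a := by
  ext x
  refine tendsto_nhds_unique (TT_tendsto ω a x) ((TT_tendsto ω' a x).congr fun r => ?_)
  rw [Qf_congr fun i h1 _ => h i h1]

theorem TT_close (ω : Om) (n : ℕ) (x : ℝ) :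
    |TT ω (n + 1) x - x| ≤ 1 / (4 * (Ns n * ms n)) := by
  refine le_trans (TT_near ω (n + 1) x) ?_
  have h1 : (1 : ℝ) ≤ La n := by exact_mod_cast La_pos n
  have h2 : (1 : ℝ) ≤ Ns n := by exact_mod_cast Ns_pos n
  have h3 : (2 : ℝ) * (1 / 2) ^ (n + 1) ≤ 1 := by
    rw [pow_succ]
    have : ((1 : ℝ) / 2) ^ n ≤ 1 := pow_le_one₀ (by norm_num) (by norm_num)
    linarith
  rw [La_succ]
  apply div_le_div₀ zero_le_one h3 (by
    have : (0 : ℝ) < ms n := by exact_mod_cast ms_pos n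
    positivity)
  unfold Ms ms
  push_cast
  have h4 : (1 : ℝ) ≤ (Ns n : ℝ) ^ 2 := by nlinarith
  have h5 : 4 * ((Ns n : ℝ) * (Ns n : ℝ) ^ 2) ≤ 4 * (((Ns n : ℝ) ^ 2) ^ 2) := by nlinarith
  have h6 : 0 ≤ 4 * (((Ns n : ℝ) ^ 2) ^ 2) := by positivity
  nlinarith

/-- for every position away from few ones, the composition with the given maps on both sides has
a periodic point -/
theorem few (ω : Om) (n : ℕ) (F : CircleDeg1Lift) (hF : Continuous F) :
    ∃ bad : Finset (ZMod (ms n) × ZMod (ms n)), (bad.card : ℝ) ≤ (1 / 2) ^ n * (ms n) ^ 2 ∧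
      ∀ ω' : Om, (∀ i, i ≠ n → ω' i = ω i) → ω' n ∉ bad →
        ∃ q : ℕ, 0 < q ∧ ∃ p : ℤ, ∃ x : ℝ, (F * TT ω' 0)^[q] x = x + p := by
  obtain ⟨bad, hb1, hb2⟩ := bad_card (Ns n) (ms n) (Ns_pos n) (ms_pos n) (F * Qf ω 0 n)
  refine ⟨bad, ?_, ?_⟩
  · have h1 : (bad.card : ℝ) ≤ 3 * (Ns n * ms n) := by exact_mod_cast hb1
    refine le_trans h1 ?_
    have hN : (0 : ℝ) < Ns n := by exact_mod_cast Ns_pos n
    have h2 : (3 : ℝ) ≤ (1 / 2) ^ n * Ns n := by
      have h3 := three_div n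
      have h4 : (1 : ℝ) ≤ La n := by exact_mod_cast La_pos n
      have h5 : (3 : ℝ) / Ns n ≤ (1 / 2) ^ n := by
        rw [h3]
        exact div_le_self (by positivity) h4
      rwa [div_le_iff₀ hN] at h5
    unfold ms
    push_cast
    have h6 : (0 : ℝ) ≤ (Ns n : ℝ) ^ 3 := by positivity
    nlinarith
  · intro ω' hω' hbad
    have h1 : Qf ω' 0 n = Qf ω 0 n := Qf_congr fun i _ h2 => hω' i (by omega)
    have h3 := TT_split ω' n
    rcases hij : ω' n with ⟨i, j⟩
    rw [hij] at hbad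
    obtain ⟨q, hq, p, x, hx⟩ := periodic_of_good (Ns n) (ms n) (Ms n) (Ns_pos n) (ms_pos n)
      (Ms_pos n) (exponent n) (F * Qf ω 0 n) (TT ω' (n + 1)) (hF.comp (Qf_cont ω 0 n))
      (TT_cont ω' (n + 1)) (TT_close ω' n) i j (hb2 i j hbad)
    refine ⟨q, hq, p, (F * Qf ω 0 n) x, ?_⟩
    have hs : Function.Semiconj (F * Qf ω 0 n : CircleDeg1Lift)
        (kl (Ns n) (ms n) (Ms n) (Ns_pos n) (Ms_pos n) (i, j) * TT ω' (n + 1) * (F * Qf ω 0 n) :
          CircleDeg1Lift)
        (F * TT ω' 0 : CircleDeg1Lift) := by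
      intro y
      rw [h3, h1, hij]
      rfl
    rw [← (hs.iterate_right q).eq x, hx]
    exact (F * Qf ω 0 n).map_add_int x p

end Pool.Agent.Q215.Rot
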