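import Pool.Agent.Q215.RothSpace

set_option autoImplicit false

/-!
# The sum of the two spaces
-/

namespace Pool.Agent.Q215.Roth

open Set Topology Pool.Agent.Helper330.DPK.Coh

/-- The sum of the two spaces. -/
abbrev XX (S : Set W) : Type := Pt S ⊕ Pt Sᶜ

theorem basis_XX (S : Set W) :
    TopologicalSpace.IsTopologicalBasis {U : Set (XX S) | IsClopen U} := by
  refine TopologicalSpace.isTopologicalBasis_of_isOpen_of_nhds (fun U hU => hU.isOpen) ?_
  rintro (t | t) V ht' hV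
  · have hV' : IsOpen (Sum.inl ⁻¹' V : Set (Pt S)) := hV.preimage continuous_inl
    obtain ⟨B, hB, htB, hBV⟩ := exists_clopen hV' (t := t) ht'
    refine ⟨Sum.inl '' B, ⟨?_, ?_⟩, mem_image_of_mem _ htB, image_subset_iff.2 hBV⟩
    · exact Topology.IsClosedEmbedding.inl.isClosedMap _ hB.isClosed
    · exact isOpenMap_inl _ hB.isOpen
  · have hV' : IsOpen (Sum.inr ⁻¹' V : Set (Pt Sᶜ)) := hV.preimage continuous_inr
    obtain ⟨B, hB, htB, hBV⟩ := exists_clopen hV' (t := t) ht'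
    refine ⟨Sum.inr '' B, ⟨?_, ?_⟩, mem_image_of_mem _ htB, image_subset_iff.2 hBV⟩
    · exact Topology.IsClosedEmbedding.inr.isClosedMap _ hB.isClosed
    · exact isOpenMap_inr _ hB.isOpen

theorem roth_half {S : Set W} (hS : Stat S) {Y : Type} [TopologicalSpace Y] (i : Pt S → Y)
    (hi : Continuous i) (𝒰 : ℕ → Set (Set Y)) (hop : ∀ n, ∀ U ∈ 𝒰 n, IsOpen U)
    (hcov : ∀ n, ⋃₀ 𝒰 n = univ) :
    ∃ U : ℕ → Set Y, (∀ n, U n ∈ 𝒰 n) ∧ ∀ t, ∃ n, i t ∈ U n := by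
  obtain ⟨U, hU, hU'⟩ := roth hS (fun n => (fun V : Set Y => (i ⁻¹' V : Set (Pt S))) '' 𝒰 n)
    (by
      rintro n _ ⟨V, hV, rfl⟩
      exact (hop n V hV).preimage hi)
    (by
      intro n t
      have h1 : i t ∈ ⋃₀ 𝒰 n := by
        rw [hcov n]
        exact mem_univ _
      obtain ⟨V, hV, htV⟩ := mem_sUnion.1 h1
      exact ⟨_, ⟨V, hV, rfl⟩, htV⟩)
  choose V hV hV' using hU
  refine ⟨V, hV, fun t => ?_⟩
  obtain ⟨n, hn⟩ := hU' t
  refine ⟨n, ?_⟩
  have h1 : t ∈ (i ⁻¹' V n : Set (Pt S)) := by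
    have := hV' n
    simp only at this
    rw [this]
    exact hn
  exact h1

/-- The sum is Rothberger. -/
theorem roth_XX {S : Set W} (hS : Stat S) (hS' : Stat Sᶜ) (𝒰 : ℕ → Set (Set (XX S)))
    (hop : ∀ n, ∀ U ∈ 𝒰 n, IsOpen U) (hcov : ∀ n, ⋃₀ 𝒰 n = univ) :
    ∃ U : ℕ → Set (XX S), (∀ n, U n ∈ 𝒰 n) ∧ ⋃ n, U n = univ := by
  obtain ⟨U, hU, hU'⟩ := roth_half hS Sum.inl continuous_inl (fun n => 𝒰 (2 * n))
    (fun n => hop _) (fun n => hcov _)
  obtain ⟨V, hV, hV'⟩ := roth_half hS' Sum.inr continuous_inr (fun n => 𝒰 (2 * n + 1))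
    (fun n => hop _) (fun n => hcov _)
  refine ⟨fun n => if n % 2 = 0 then U (n / 2) else V (n / 2), fun n => ?_, ?_⟩
  · rcases Nat.even_or_odd' n with ⟨k, hk | hk⟩
    · have h1 : n % 2 = 0 := by omega
      have h2 : n / 2 = k := by omega
      show (if n % 2 = 0 then U (n / 2) else V (n / 2)) ∈ 𝒰 n
      rw [if_pos h1, h2, hk]
      exact hU k
    · have h1 : ¬ n % 2 = 0 := by omega
      have h2 : n / 2 = k := by omega
      show (if n % 2 = 0 then U (n / 2) else V (n / 2)) ∈ 𝒰 n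
      rw [if_neg h1, h2, hk]
      exact hV k
  · rw [Set.eq_univ_iff_forall]
    rintro (t | t)
    · obtain ⟨n, hn⟩ := hU' t
      refine mem_iUnion.2 ⟨2 * n, ?_⟩
      have h1 : 2 * n % 2 = 0 := by omega
      have h2 : 2 * n / 2 = n := by omega
      simp only [h1, if_true, h2]
      exact hn
    · obtain ⟨n, hn⟩ := hV' t
      refine mem_iUnion.2 ⟨2 * n + 1, ?_⟩
      have h1 : (2 * n + 1) % 2 = 1 := by omega
      have h2 : (2 * n + 1) / 2 = n := by omega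
      simp only [h1, h2]
      rw [if_neg (by norm_num)]
      exact hn

/-- The special cover. -/
def Cov (S : Set W) : Set (Set (XX S)) :=
  {U | IsOpen U ∧ {t : Nd | (Sum.inl t : XX S) ∈ U ∧ (Sum.inr t : XX S) ∈ U}.Countable}

theorem cov_finite (S : Set W) (F : Set (XX S)) (hF : F.Finite) : ∃ U ∈ Cov S, F ⊆ U := by
  obtain ⟨U, V, hU, hV, hFU, hFV, hc⟩ := exists_finite_boxes S (Sum.inl ⁻¹' F) (Sum.inr ⁻¹' F)
    (hF.preimage Sum.inl_injective.injOn) (hF.preimage Sum.inr_injective.injOn)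
  refine ⟨Sum.inl '' (U : Set (Pt S)) ∪ Sum.inr '' (V : Set (Pt Sᶜ)), ⟨?_, ?_⟩, ?_⟩
  · have hU' : IsOpen (X := Pt S) U := hU
    have hV' : IsOpen (X := Pt Sᶜ) V := hV
    exact (isOpenMap_inl _ hU').union (isOpenMap_inr _ hV')
  · refine hc.mono ?_
    rintro t ⟨h1, h2⟩
    constructor
    · rcases h1 with ⟨s, hs, h3⟩ | ⟨s, hs, h3⟩
      · have : s = t := Sum.inl_injective h3
        exact this ▸ hs
      · exact absurd h3 (by simp)
    · rcases h2 with ⟨s, hs, h3⟩ | ⟨s, hs, h3⟩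
      · exact absurd h3 (by simp)
      · have : s = t := Sum.inr_injective h3
        exact this ▸ hs
  · rintro (t | t) ht'
    · exact Or.inl ⟨t, hFU ht', rfl⟩
    · exact Or.inr ⟨t, hFV ht', rfl⟩

theorem univ_notMem_cov (S : Set W) : univ ∉ Cov S := by
  intro h
  refine not_countable_Nd (h.2.mono ?_)
  intro t _
  exact ⟨mem_univ _, mem_univ _⟩

theorem cov_sUnion (S : Set W) : ⋃₀ Cov S = univ := by
  rw [Set.eq_univ_iff_forall]
  intro x
  obtain ⟨U, hU, hxU⟩ := cov_finite S {x} (Set.finite_singleton x)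
  exact mem_sUnion.2 ⟨U, hU, hxU rfl⟩

theorem not_omega (S : Set W) (U : ℕ → Set (XX S)) (hU : ∀ n, U n ∈ Cov S) :
    ∃ F : Set (XX S), F.Finite ∧ ∀ n, ¬ F ⊆ U n := by
  by_contra hcon
  push Not at hcon
  refine not_countable_Nd ((Set.countable_iUnion fun n => (hU n).2).mono fun t _ => ?_)
  obtain ⟨n, hn⟩ := hcon ({Sum.inl t} ∪ {Sum.inr t})
    ((Set.finite_singleton _).union (Set.finite_singleton _))
  exact mem_iUnion.2 ⟨n, hn (Or.inl rfl), hn (Or.inr rfl)⟩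

end Pool.Agent.Q215.Roth
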