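import Pool.Agent.Q215.RothTree

set_option autoImplicit false

/-!
# A Rothberger space which is not `ω`-Rothberger

The Aronszajn tree carries, for every set `S` of countable limit ordinals, the topology in which
the nodes of height outside `S` are isolated, and a node `t` of height in `S` has the
neighbourhoods `{x | u < x, ¬ t < x}` with `u < t`. If `S` is stationary, then this space is
Rothberger. For `S` and the complement of `S` the product of the two spaces contains an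
uncountable closed discrete set.
-/

namespace Pool.Agent.Q215.Roth

open Cardinal Set Topology Pool.Agent.Helper330.DPK.Coh

/-- The open sets. -/
def IsOp (S : Set W) (V : Set Nd) : Prop :=
  ∀ t ∈ V, ht t ∈ S ∩ Lim → ∃ u, Lt u t ∧ ∀ x, Lt u x → ¬ Lt t x → x ∈ V

theorem exists_below {t : Nd} (h : ht t ∈ Lim) : ∃ u, Lt u t := by
  obtain ⟨β, hβ⟩ := h.1
  exact ⟨_, res_lt t hβ⟩

theorem IsOp.inter {S : Set W} {V V' : Set Nd} (h : IsOp S V) (h' : IsOp S V') :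
    IsOp S (V ∩ V') := by
  rintro t ⟨h1, h2⟩ ht'
  obtain ⟨u, hu, hu'⟩ := h t h1 ht'
  obtain ⟨v, hv, hv'⟩ := h' t h2 ht'
  rcases hu.tri hv with h3 | h3 | h3
  · exact ⟨v, hv, fun x hx hx' => ⟨hu' x (h3.trans hx) hx', hv' x hx hx'⟩⟩
  · subst h3
    exact ⟨u, hu, fun x hx hx' => ⟨hu' x hx hx', hv' x hx hx'⟩⟩
  · exact ⟨u, hu, fun x hx hx' => ⟨hu' x hx hx', hv' x (h3.trans hx) hx'⟩⟩

/-- The space. -/
def Pt (_ : Set W) : Type := Nd

instance (S : Set W) : TopologicalSpace (Pt S) where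
  IsOpen V := IsOp S (V : Set Nd)
  isOpen_univ := fun t _ h => by
    obtain ⟨u, hu⟩ := exists_below h.2
    exact ⟨u, hu, fun _ _ _ => mem_univ _⟩
  isOpen_inter := fun _ _ h h' => IsOp.inter h h'
  isOpen_sUnion := by
    intro 𝒱 h t ht' hS
    obtain ⟨V, hV, htV⟩ := mem_sUnion.1 ht'
    obtain ⟨u, hu, hu'⟩ := h V hV t htV hS
    exact ⟨u, hu, fun x hx hx' => mem_sUnion.2 ⟨V, hV, hu' x hx hx'⟩⟩

theorem isOpen_iff {S : Set W} {V : Set (Pt S)} : IsOpen V ↔ IsOp S (V : Set Nd) := Iff.rfl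

/-- The basic sets. -/
def Bs (u t : Nd) : Set Nd := {x | Lt u x ∧ ¬ Lt t x}

theorem mem_Bs_self {u t : Nd} (h : Lt u t) : t ∈ Bs u t := ⟨h, Lt.irrefl t⟩

/-- Separation. -/
theorem exists_sep {s t : Nd} (hne : s ≠ t) (hs : ht s ∈ Lim) :
    ∃ u, Lt u s ∧ (¬ Lt u t ∨ Lt s t) := by
  by_cases h : Lt s t
  · obtain ⟨u, hu⟩ := exists_below hs
    exact ⟨u, hu, Or.inr h⟩
  · rcases lt_or_ge (ht t) (ht s) with h1 | h1
    · obtain ⟨γ, hγ1, hγ2⟩ := hs.2 _ h1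
      exact ⟨_, res_lt s hγ1, Or.inl fun h2 => lt_asymm hγ2 h2.1⟩
    · have h2 : ∃ x < ht s, fn s x ≠ fn t x := by
        by_contra hcon
        push Not at hcon
        rcases h1.lt_or_eq with h3 | h3
        · exact h ⟨h3, hcon⟩
        · exact hne (Nd.eq_of h3 hcon)
      obtain ⟨x, hx, hx'⟩ := h2
      obtain ⟨γ, hγ1, hγ2⟩ := hs.2 _ hx
      refine ⟨_, res_lt s hγ1, Or.inl fun h3 => hx' ?_⟩
      have h4 := h3.2 x hγ2
      rw [fn_res s hγ1.le hγ2] at h4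
      exact h4

theorem isOp_Bs {S : Set W} {u t : Nd} : IsOp S (Bs u t) := by
  rintro s ⟨h1, h2⟩ hs
  by_cases hst : s = t
  · subst hst
    exact ⟨u, h1, fun x hx hx' => ⟨hx, hx'⟩⟩
  by_cases hlt : Lt s t
  · exact ⟨u, h1, fun x hx hx' => ⟨hx, fun h => hx' (hlt.trans h)⟩⟩
  obtain ⟨v, hv, hv'⟩ := exists_sep hst hs.2
  have hv' : ¬ Lt v t := hv'.resolve_right hlt
  have key : ∀ w, Lt w s → ¬ Lt w t → ∀ x, Lt w x → ¬ Lt t x := by
    intro w hw hw' x hx hx'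
    rcases hx.tri hx' with h | h | h
    · exact hw' h
    · exact h2 (h ▸ hw)
    · exact h2 (h.trans hw)
  rcases h1.tri hv with h | h | h
  · exact ⟨v, hv, fun x hx _ => ⟨h.trans hx, key v hv hv' x hx⟩⟩
  · exact ⟨v, hv, fun x hx _ => ⟨h ▸ hx, key v hv hv' x hx⟩⟩
  · exact ⟨u, h1, fun x hx _ => ⟨hx, key u h1 (fun h' => hv' (h.trans h')) x hx⟩⟩

theorem isOp_compl_Bs {S : Set W} {u t : Nd} : IsOp S (Bs u t)ᶜ := by
  intro s hs hS
  by_cases h1 : Lt t s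
  · exact ⟨t, h1, fun x hx _ h => h.2 hx⟩
  by_cases h2 : Lt u s
  · exact absurd ⟨h2, h1⟩ hs
  by_cases h3 : s = u
  · subst h3
    obtain ⟨v, hv⟩ := exists_below hS.2
    exact ⟨v, hv, fun x _ hx h => hx h.1⟩
  by_cases h4 : Lt s u
  · obtain ⟨v, hv⟩ := exists_below hS.2
    exact ⟨v, hv, fun x _ hx h => hx (h4.trans h.1)⟩
  obtain ⟨v, hv, hv'⟩ := exists_sep h3 hS.2
  have hv' : ¬ Lt v u := hv'.resolve_right h4
  refine ⟨v, hv, fun x hx _ h => ?_⟩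
  rcases hx.tri h.1 with h5 | h5 | h5
  · exact hv' h5
  · exact h2 (h5 ▸ hv)
  · exact h2 (h5.trans hv)

theorem isOp_singleton {S : Set W} {t : Nd} (h : ht t ∉ S ∩ Lim) : IsOp S {t} := by
  intro s hs hS
  have : s = t := hs
  subst this
  exact absurd hS h

theorem isOp_compl_singleton {S : Set W} (t : Nd) : IsOp S ({t} : Set Nd)ᶜ := by
  intro s hs hS
  have hne : s ≠ t := hs
  obtain ⟨u, hu, hu'⟩ := exists_sep hne hS.2
  refine ⟨u, hu, fun x hx hx' h => ?_⟩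
  have h1 : x = t := h
  subst h1
  rcases hu' with h2 | h2
  · exact h2 hx
  · exact hx' h2

/-- Every point has a base of clopen neighbourhoods. -/
theorem exists_clopen {S : Set W} {V : Set (Pt S)} (hV : IsOpen V) {t : Pt S} (ht' : t ∈ V) :
    ∃ B : Set (Pt S), IsClopen B ∧ t ∈ B ∧ B ⊆ V := by
  by_cases h : ht (t : Nd) ∈ S ∩ Lim
  · obtain ⟨u, hu, hu'⟩ := hV t ht' h
    refine ⟨Bs u t, ⟨⟨?_⟩, ?_⟩, mem_Bs_self hu, fun x hx => hu' x hx.1 hx.2⟩
    · exact isOp_compl_Bs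
    · exact isOp_Bs
  · refine ⟨{t}, ⟨⟨?_⟩, ?_⟩, rfl, fun x hx => ?_⟩
    · exact isOp_compl_singleton t
    · exact isOp_singleton h
    · have : x = t := hx
      rw [this]
      exact ht'

instance (S : Set W) : T2Space (Pt S) := by
  refine ⟨fun x y hxy => ?_⟩
  have h1 : IsOpen ({y} : Set (Pt S))ᶜ := isOp_compl_singleton y
  obtain ⟨B, hB, hxB, hBy⟩ := exists_clopen h1 (t := x) (fun h => hxy h)
  exact ⟨B, Bᶜ, hB.isOpen, hB.compl.isOpen, hxB, fun h => hBy h rfl, disjoint_compl_right⟩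

/-! ### The Rothberger property -/

theorem roth {S : Set W} (hS : Stat S) (𝒰 : ℕ → Set (Set Nd))
    (hop : ∀ n, ∀ U ∈ 𝒰 n, IsOp S U) (hcov : ∀ n t, ∃ U ∈ 𝒰 n, t ∈ U) :
    ∃ U : ℕ → Set Nd, (∀ n, U n ∈ 𝒰 n) ∧ ∀ t, ∃ n, t ∈ U n := by
  classical
  choose Uc hU1 hU2 using hcov
  have hw : ∀ n t, ∃ u, ht t ∈ S ∩ Lim →
      Lt u t ∧ ∀ x, Lt u x → ¬ Lt t x → x ∈ Uc n t := by
    intro n t
    by_cases h : ht t ∈ S ∩ Lim
    · obtain ⟨u, hu⟩ := hop n _ (hU1 n t) t (hU2 n t) h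
      exact ⟨u, fun _ => hu⟩
    · exact ⟨t, fun h' => absurd h' h⟩
  choose w hw using hw
  let A : ℕ → Nd → Set Nd := fun n u => {t | ht t ∈ S ∩ Lim ∧ w n t = u}
  have hg : ∀ n u, ∃ g : W, (∀ t ∈ A n u, ht t < g) ∨
      ∃ p ∈ A n u, ∃ q ∈ A n u, ht p < g ∧ ht q < g ∧ p ≠ q ∧ ¬ Lt p q ∧ ¬ Lt q p := by
    intro n u
    by_cases h : ∃ b, ∀ t ∈ A n u, ht t < b
    · obtain ⟨b, hb⟩ := h
      exact ⟨b, Or.inl hb⟩
    · push Not at h
      obtain ⟨p, hp, q, hq, hpq⟩ := exists_incomp h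
      obtain ⟨b, hb⟩ := exists_gt (max (ht p) (ht q))
      exact ⟨b, Or.inr ⟨p, hp, q, hq, (le_max_left _ _).trans_lt hb,
        (le_max_right _ _).trans_lt hb, hpq⟩⟩
  choose g hg using hg
  have hG : ∀ β : W, ∃ γ, ∀ n u, ht u ≤ β → g n u < γ := by
    intro β
    have hc : (⋃ n : ℕ, (g n) '' {u | ht u ≤ β}).Countable :=
      Set.countable_iUnion fun n => (countable_ht_le β).image _
    obtain ⟨γ, hγ⟩ := exists_ub hc
    exact ⟨γ, fun n u hu => hγ _ (mem_iUnion.2 ⟨n, u, hu, rfl⟩)⟩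
  choose G hG using hG
  obtain ⟨δ, hδS, hδL, hδG⟩ := hS G
  have hne : {t : Nd | ht t ≤ δ}.Nonempty := by
    obtain ⟨p, hp⟩ := exists_node δ
    exact ⟨p, hp.le⟩
  obtain ⟨d, hd⟩ := (countable_ht_le δ).exists_eq_range hne
  have hd' : ∀ k, ht (d k) ≤ δ := fun k => by
    have : d k ∈ {t : Nd | ht t ≤ δ} := hd ▸ mem_range_self k
    exact this
  -- the choice at stage `k`
  have hch : ∀ k, ∃ U ∈ 𝒰 k, d k ∈ U ∧ (ht (d k) = δ → ∀ t, Lt (d k) t → t ∈ U) := by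
    intro k
    by_cases h : ht (d k) = δ
    · have hkS : ht (d k) ∈ S ∩ Lim := by rw [h]; exact ⟨hδS, hδL⟩
      obtain ⟨hu, -⟩ := hw k (d k) hkS
      set u := w k (d k) with hudef
      have huδ : ht u < δ := by rw [← h]; exact hu.1
      have hgu : g k u < δ := (hG (ht u) k u le_rfl).trans (hδG _ huδ)
      have hmem : d k ∈ A k u := ⟨hkS, rfl⟩
      rcases hg k u with h1 | ⟨p, hp, q, hq, h2, h3, h4, h5, h6⟩
      · exact absurd ((h1 _ hmem).trans hgu) (by rw [h]; exact lt_irrefl _)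
      have hex : ∃ s ∈ A k u, ht s < δ ∧ ¬ Lt s (d k) := by
        by_cases h7 : Lt p (d k)
        · refine ⟨q, hq, h3.trans hgu, fun h8 => ?_⟩
          rcases h7.tri h8 with h9 | h9 | h9
          · exact h5 h9
          · exact h4 h9
          · exact h6 h9
        · exact ⟨p, hp, h2.trans hgu, h7⟩
      obtain ⟨s, hs, hsδ, hsd⟩ := hex
      have hs' := (hw k s hs.1).2
      rw [hs.2] at hs'
      refine ⟨Uc k s, hU1 k s, hs' _ hu hsd, fun _ t ht' => hs' t (hu.trans ht') fun h7 => hsd ?_⟩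
      exact h7.lt_of_ht ht' (by rw [h]; exact hsδ)
    · exact ⟨Uc k (d k), hU1 k _, hU2 k _, fun h' => absurd h' h⟩
  choose U hUm hUd hUt using hch
  refine ⟨U, hUm, fun t => ?_⟩
  rcases le_or_gt (ht t) δ with h | h
  · have : t ∈ range d := hd ▸ h
    obtain ⟨k, rfl⟩ := this
    exact ⟨k, hUd k⟩
  · have : res t δ h.le ∈ range d := by
      rw [← hd]
      exact (ht_res t h.le).le
    obtain ⟨k, hk⟩ := this
    refine ⟨k, hUt k (by rw [hk, ht_res]) t ?_⟩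
    rw [hk]
    exact res_lt t h

/-! ### The product -/

theorem exists_boxes (S : Set W) (x y : Nd) :
    ∃ U V : Set Nd, IsOp S U ∧ IsOp Sᶜ V ∧ x ∈ U ∧ y ∈ V ∧ (U ∩ V).Countable := by
  have huniv : ∀ S : Set W, IsOp S univ := fun S t _ h => by
    obtain ⟨u, hu⟩ := exists_below h.2
    exact ⟨u, hu, fun _ _ _ => mem_univ _⟩
  by_cases hx : ht x ∈ S ∩ Lim
  swap
  · exact ⟨{x}, univ, isOp_singleton hx, huniv _, rfl, mem_univ _,
      (Set.countable_singleton x).mono inter_subset_left⟩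
  by_cases hy : ht y ∈ Sᶜ ∩ Lim
  swap
  · exact ⟨univ, {y}, huniv _, isOp_singleton hy, mem_univ _, rfl,
      (Set.countable_singleton y).mono inter_subset_right⟩
  have hne : x ≠ y := by
    rintro rfl
    exact hy.1 hx.1
  have hemp : ∀ {A : Set Nd}, (∀ z ∈ A, False) → A.Countable := fun {A} h => by
    have : A = ∅ := Set.eq_empty_iff_forall_notMem.2 fun z hz => h z hz
    rw [this]
    exact Set.countable_empty
  by_cases h1 : Lt x y
  · obtain ⟨u, hu⟩ := exists_below hx.2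
    exact ⟨Bs u x, Bs x y, isOp_Bs, isOp_Bs, mem_Bs_self hu, mem_Bs_self h1,
      hemp fun z hz => hz.1.2 hz.2.1⟩
  by_cases h2 : Lt y x
  · obtain ⟨v, hv⟩ := exists_below hy.2
    exact ⟨Bs y x, Bs v y, isOp_Bs, isOp_Bs, mem_Bs_self h2, mem_Bs_self hv,
      hemp fun z hz => hz.2.2 hz.1.1⟩
  obtain ⟨u, hu, hu'⟩ := exists_sep hne hx.2
  obtain ⟨v, hv, hv'⟩ := exists_sep hne.symm hy.2
  have hu' := hu'.resolve_right h1
  have hv' := hv'.resolve_right h2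
  refine ⟨Bs u x, Bs v y, isOp_Bs, isOp_Bs, mem_Bs_self hu, mem_Bs_self hv,
    hemp fun z hz => ?_⟩
  rcases hz.1.1.tri hz.2.1 with h | h | h
  · exact hu' (h.trans hv)
  · exact hu' (h ▸ hv)
  · exact hv' (h.trans hu)

/-- Finite sets of points. -/
theorem exists_finite_boxes (S : Set W) (F F' : Set Nd) (hF : F.Finite) (hF' : F'.Finite) :
    ∃ U V : Set Nd, IsOp S U ∧ IsOp Sᶜ V ∧ F ⊆ U ∧ F' ⊆ V ∧ (U ∩ V).Countable := by
  choose U V hU hV hxU hyV hc using exists_boxes S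
  have hopU : ∀ x, IsOpen (X := Pt S) (⋂ y ∈ F', U x y) := fun x =>
    hF'.isOpen_biInter fun y _ => hU x y
  have hopV : ∀ y, IsOpen (X := Pt Sᶜ) (⋂ x ∈ F, V x y) := fun y =>
    hF.isOpen_biInter fun x _ => hV x y
  refine ⟨⋃ x ∈ F, ⋂ y ∈ F', U x y, ⋃ y ∈ F', ⋂ x ∈ F, V x y, ?_, ?_, ?_, ?_, ?_⟩
  · exact isOpen_biUnion (X := Pt S) fun x _ => hopU x
  · exact isOpen_biUnion (X := Pt Sᶜ) fun y _ => hopV y
  · intro x hx
    exact mem_iUnion₂.2 ⟨x, hx, mem_iInter₂.2 fun y _ => hxU x y⟩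
  · intro y hy
    exact mem_iUnion₂.2 ⟨y, hy, mem_iInter₂.2 fun x _ => hyV x y⟩
  · refine (hF.countable.biUnion fun x _ => hF'.countable.biUnion fun y _ => hc x y).mono ?_
    rintro z ⟨hz1, hz2⟩
    obtain ⟨x, hx, hzx⟩ := mem_iUnion₂.1 hz1
    obtain ⟨y, hy, hzy⟩ := mem_iUnion₂.1 hz2
    exact mem_iUnion₂.2 ⟨x, hx, mem_iUnion₂.2 ⟨y, hy, mem_iInter₂.1 hzx y hy,
      mem_iInter₂.1 hzy x hx⟩⟩

end Pool.Agent.Q215.Roth
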