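import Pool.Agent.Helper330.DPK.Coh
import Pool.Agent.H764R3.Stat

set_option autoImplicit false

/-!
# A coherent Aronszajn tree and two disjoint stationary sets

The nodes of the tree are the functions on countable ordinals which differ at finitely many
places only from the members of a coherent sequence of finite-to-one functions.
-/

namespace Pool.Agent.Q215.Roth

open Cardinal Set Pool.Agent.Helper330.DPK.Coh

theorem not_countable_W : ¬ (univ : Set W).Countable := by
  intro h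
  have h1 : Countable W := countable_univ_iff.1 h
  have h2 : ℵ₀ < #W := by
    rw [Cardinal.mk_toType, Cardinal.card_ord]
    exact Cardinal.aleph0_lt_aleph_one
  exact absurd (Cardinal.mk_le_aleph0 (α := W)) (not_le.2 h2)

/-- countable sets are bounded -/
theorem exists_ub {S : Set W} (hS : S.Countable) : ∃ b, ∀ s ∈ S, s < b := by
  by_contra hcon
  push Not at hcon
  apply not_countable_W
  refine (hS.biUnion fun s _ => countable_Iic s).mono fun b _ => ?_
  obtain ⟨s, hs, hbs⟩ := hcon b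
  exact mem_iUnion₂.2 ⟨s, hs, hbs⟩

/-! ### The tree -/

/-- The nodes. -/
def Nd : Type := {p : W × (W → ℕ) // (∀ x, p.1 ≤ x → p.2 x = 0) ∧
  {x | x < p.1 ∧ p.2 x ≠ cg p.1 x}.Finite}

/-- The height. -/
def ht (p : Nd) : W := p.1.1

/-- The function. -/
def fn (p : Nd) : W → ℕ := p.1.2

theorem fn_zero (p : Nd) {x : W} (h : ht p ≤ x) : fn p x = 0 := p.2.1 x h

theorem fn_fin (p : Nd) : {x | x < ht p ∧ fn p x ≠ cg (ht p) x}.Finite := p.2.2

/-- The strict extension relation. -/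
def Lt (p q : Nd) : Prop := ht p < ht q ∧ ∀ x < ht p, fn p x = fn q x

theorem Nd.eq_of {p q : Nd} (h : ht p = ht q) (h' : ∀ x < ht p, fn p x = fn q x) : p = q := by
  apply Subtype.ext
  refine Prod.ext h (funext fun x => ?_)
  by_cases hx : x < ht p
  · exact h' x hx
  · have h1 := fn_zero p (not_lt.1 hx)
    have h2 := fn_zero q (h ▸ not_lt.1 hx)
    exact h1.trans h2.symm

theorem Lt.trans {p q r : Nd} (h1 : Lt p q) (h2 : Lt q r) : Lt p r :=
  ⟨h1.1.trans h2.1, fun x hx => (h1.2 x hx).trans (h2.2 x (hx.trans h1.1))⟩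

theorem Lt.irrefl (p : Nd) : ¬ Lt p p := fun h => lt_irrefl _ h.1

theorem Lt.lt_of_ht {p q r : Nd} (h1 : Lt p r) (h2 : Lt q r) (h : ht p < ht q) : Lt p q :=
  ⟨h, fun x hx => (h1.2 x hx).trans (h2.2 x (hx.trans h)).symm⟩

theorem Lt.eq_of_ht {p q r : Nd} (h1 : Lt p r) (h2 : Lt q r) (h : ht p = ht q) : p = q :=
  Nd.eq_of h fun x hx => (h1.2 x hx).trans (h2.2 x (h ▸ hx)).symm

theorem Lt.tri {p q r : Nd} (h1 : Lt p r) (h2 : Lt q r) : Lt p q ∨ p = q ∨ Lt q p := by
  rcases lt_trichotomy (ht p) (ht q) with h | h | h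
  · exact Or.inl (h1.lt_of_ht h2 h)
  · exact Or.inr (Or.inl (h1.eq_of_ht h2 h))
  · exact Or.inr (Or.inr (h2.lt_of_ht h1 h))

open Classical in
/-- The restriction to a smaller ordinal. -/
noncomputable def res (p : Nd) (b : W) (hb : b ≤ ht p) : Nd :=
  ⟨(b, fun x => if x < b then fn p x else 0), by
    refine ⟨fun x hx => if_neg (not_lt.2 hx), ?_⟩
    refine ((fn_fin p).union (cg_coh b (ht p))).subset ?_
    rintro x ⟨hx, hne⟩
    have hx' : x < b := hx
    have h1 : (if x < b then fn p x else 0) ≠ cg b x := hne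
    rw [if_pos hx'] at h1
    by_cases h2 : fn p x = cg (ht p) x
    · right
      exact ⟨hx', hx'.trans_le hb, fun h3 => h1 (h2.trans h3.symm)⟩
    · left
      exact ⟨hx'.trans_le hb, h2⟩⟩

theorem ht_res (p : Nd) {b : W} (hb : b ≤ ht p) : ht (res p b hb) = b := rfl

theorem fn_res (p : Nd) {b : W} (hb : b ≤ ht p) {x : W} (hx : x < b) :
    fn (res p b hb) x = fn p x := if_pos hx

theorem res_lt (p : Nd) {b : W} (hb : b < ht p) : Lt (res p b hb.le) p :=
  ⟨hb, fun _ hx => fn_res p hb.le hx⟩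

theorem countable_ht_eq (a : W) : {p : Nd | ht p = a}.Countable := by
  classical
  let D : Nd → Finset (W × ℕ) := fun p => ((fn_fin p).toFinset.image fun x => (x, fn p x))
  let K : Set (Finset (W × ℕ)) := {k | (k : Set (W × ℕ)) ⊆ Iio a ×ˢ Set.univ}
  have hK : K.Countable := by
    have h1 : (Iio a ×ˢ (Set.univ : Set ℕ)).Countable := (countable_Iio a).prod countable_univ
    have h2 := Set.countable_ofPred_finite_subset h1
    refine (h2.preimage_of_injOn (f := fun k : Finset (W × ℕ) => (k : Set (W × ℕ)))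
      (Finset.coe_injective.injOn)).mono ?_
    intro k hk
    exact ⟨k.finite_toSet, hk⟩
  have hD : ∀ r : Nd, ∀ x, x < ht r → fn r x ≠ cg (ht r) x → (x, fn r x) ∈ D r := by
    intro r x hx hne
    exact Finset.mem_image.2 ⟨x, (fn_fin r).mem_toFinset.2 ⟨hx, hne⟩, rfl⟩
  have hD' : ∀ r : Nd, ∀ x m, (x, m) ∈ D r →
      x < ht r ∧ fn r x ≠ cg (ht r) x ∧ fn r x = m := by
    intro r x m h
    obtain ⟨y, hy, hyx⟩ := Finset.mem_image.1 h
    have h1 := (fn_fin r).mem_toFinset.1 hy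
    have h2 : y = x := congrArg Prod.fst hyx
    have h3 : fn r y = m := congrArg Prod.snd hyx
    subst h2
    exact ⟨h1.1, h1.2, h3⟩
  refine Set.MapsTo.countable_of_injOn (f := D) (t := K) ?_ ?_ hK
  · intro p hp
    rintro ⟨x, m⟩ hx
    have h1 := hD' p x m (Finset.mem_coe.1 hx)
    have hp' : ht p = a := hp
    rw [hp'] at h1
    exact ⟨h1.1, mem_univ _⟩
  · intro p hp q hq hpq
    have hp' : ht p = a := hp
    have hq' : ht q = a := hq
    refine Nd.eq_of (hp'.trans hq'.symm) fun x hx => ?_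
    have hxq : x < ht q := by rw [hq', ← hp']; exact hx
    by_cases h1 : fn p x = cg (ht p) x
    · by_cases h2 : fn q x = cg (ht q) x
      · rw [h1, h2, hp', hq']
      · have h3 := hD q x hxq h2
        have h4 : (x, fn q x) ∈ D p := by
          have : D p = D q := hpq
          rw [this]
          exact h3
        exact (hD' p x _ h4).2.2
    · have h3 := hD p x hx h1
      have h4 : (x, fn p x) ∈ D q := by
        have : D p = D q := hpq
        rw [← this]
        exact h3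
      exact (hD' q x _ h4).2.2.symm

theorem countable_ht_le (a : W) : {p : Nd | ht p ≤ a}.Countable := by
  refine ((countable_Iic a).biUnion fun b _ => countable_ht_eq b).mono ?_
  intro p hp
  exact mem_iUnion₂.2 ⟨ht p, hp, rfl⟩

/-- The node on the coherent sequence. -/
theorem exists_node (a : W) : ∃ p : Nd, ht p = a := by
  classical
  refine ⟨⟨(a, fun x => if x < a then cg a x else 0), fun x hx => if_neg (not_lt.2 hx), ?_⟩, rfl⟩
  refine Set.finite_empty.subset ?_
  rintro x ⟨hx, hne⟩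
  exact hne (if_pos hx)

theorem not_countable_Nd : ¬ (univ : Set Nd).Countable := by
  intro h
  refine not_countable_W ((h.image ht).mono fun a _ => ?_)
  obtain ⟨p, hp⟩ := exists_node a
  exact ⟨p, mem_univ _, hp⟩

/-- Unbounded sets of nodes contain two incomparable nodes. -/
theorem exists_incomp {A : Set Nd} (hA : ∀ b : W, ∃ p ∈ A, b ≤ ht p) :
    ∃ p ∈ A, ∃ q ∈ A, p ≠ q ∧ ¬ Lt p q ∧ ¬ Lt q p := by
  classical
  by_contra hcon
  push Not at hcon
  have hch : ∀ p ∈ A, ∀ q ∈ A, ∀ x, x < ht p → x < ht q → fn p x = fn q x := by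
    intro p hp q hq x hxp hxq
    by_cases h : p = q
    · rw [h]
    · by_cases h1 : Lt p q
      · exact h1.2 x hxp
      · exact ((hcon p hp q hq h h1).2 x hxq).symm
  have hA' : ∀ x : W, ∃ p ∈ A, x < ht p := by
    intro x
    obtain ⟨b, hb⟩ := exists_gt x
    obtain ⟨p, hp, hbp⟩ := hA b
    exact ⟨p, hp, hb.trans_le hbp⟩
  choose P hP1 hP2 using hA'
  let F : W → ℕ := fun x => fn (P x) x
  have hF : ∀ a x : W, x < a → F x = fn (P a) x := fun a x hx =>
    hch _ (hP1 x) _ (hP1 a) x (hP2 x) (hx.trans (hP2 a))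
  have hfin : ∀ (a : W) (m : ℕ), {x | x < a ∧ F x = m}.Finite := by
    intro a m
    refine ((fn_fin (P a)).union (cg_fin (ht (P a)) m)).subset ?_
    rintro x ⟨hx, hm⟩
    have h1 : fn (P a) x = m := (hF a x hx).symm.trans hm
    by_cases h2 : fn (P a) x = cg (ht (P a)) x
    · right
      exact ⟨hx.trans (hP2 a), by rw [← h2, h1]⟩
    · left
      exact ⟨hx.trans (hP2 a), h2⟩
  have hfib : ∃ m, ¬ {x | F x = m}.Countable := by
    by_contra h
    push Not at h
    refine not_countable_W ((Set.countable_iUnion h).mono fun x _ => ?_)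
    exact mem_iUnion.2 ⟨F x, rfl⟩
  obtain ⟨m, hm⟩ := hfib
  have hinf : {x | F x = m}.Infinite := fun h => hm h.countable
  obtain ⟨e⟩ : Nonempty (ℕ ↪ {x | F x = m}) := ⟨hinf.natEmbedding _⟩
  obtain ⟨b, hb⟩ := exists_ub (Set.countable_range fun n => (e n : W))
  have h1 : (Set.range fun n => (e n : W)) ⊆ {x | x < b ∧ F x = m} := by
    rintro _ ⟨n, rfl⟩
    exact ⟨hb _ ⟨n, rfl⟩, (e n).2⟩
  exact (Set.infinite_range_of_injective fun i j h => e.injective (Subtype.ext h))
    ((hfin b m).subset h1)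

/-! ### Stationary sets -/

/-- The limit points. -/
def Lim : Set W := {δ | (∃ β, β < δ) ∧ ∀ β < δ, ∃ γ < δ, β < γ}

/-- Stationary sets of limits. -/
def Stat (S : Set W) : Prop := ∀ G : W → W, ∃ δ ∈ S, δ ∈ Lim ∧ ∀ β < δ, G β < δ

theorem exists_split : ∃ S : Set W, Stat S ∧ Stat Sᶜ := by
  have key : ∀ κ : Cardinal.{0}, κ = Order.succ #ℕ → ∃ h : κ.ord.ToType → ℕ, ∀ (a : ℕ)
      (G : κ.ord.ToType → κ.ord.ToType), ∃ δ, h δ = a ∧
        (∃ η : ℕ → κ.ord.ToType, StrictMono η ∧ IsLUB (range η) δ) ∧ ∀ β < δ, G β < δ := by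
    rintro κ rfl
    obtain ⟨h, hh⟩ := Pool.Agent.H764R3.Stat.exists_partition (C := ℕ)
    refine ⟨h, fun a G => ?_⟩
    obtain ⟨δ, h1, h2, h3⟩ := hh a G
    exact ⟨δ, h1, h2, h3⟩
  obtain ⟨h, hh⟩ := key (Cardinal.aleph 1) (by
    rw [Cardinal.mk_nat, Cardinal.succ_aleph0])
  have hlim : ∀ δ : W, (∃ η : ℕ → W, StrictMono η ∧ IsLUB (range η) δ) → δ ∈ Lim := by
    rintro δ ⟨η, hη, hδ⟩
    have h1 : ∀ n, η n < δ := fun n => (hη (Nat.lt_succ_self n)).trans_le (hδ.1 ⟨n + 1, rfl⟩)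
    refine ⟨⟨η 0, h1 0⟩, fun β hβ => ?_⟩
    obtain ⟨_, ⟨n, rfl⟩, hn⟩ := (lt_isLUB_iff hδ).1 hβ
    exact ⟨η n, h1 n, hn⟩
  refine ⟨{δ | h δ = 0}, fun G => ?_, fun G => ?_⟩
  · obtain ⟨δ, h1, h2, h3⟩ := hh 0 G
    exact ⟨δ, h1, hlim δ h2, h3⟩
  · obtain ⟨δ, h1, h2, h3⟩ := hh 1 G
    refine ⟨δ, ?_, hlim δ h2, h3⟩
    intro h4
    have h5 : h δ = 0 := h4
    omega

end Pool.Agent.Q215.Roth
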