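import Mathlib

/-!
Combinatorial core of the disproof for arbitrary tree forcings: a family of closed subsets of
`ℕ → ℕ` and a Borel set neither of whose sides is small in any member of the family.
-/

namespace Q215.TreeMeas

/-- the position `n` has rank at least `k`. -/
def Big (k n : ℕ) : Prop := 2 ^ k ∣ n + 1

lemma Big.of_succ {k n : ℕ} (h : Big (k + 1) n) : Big k n :=
  dvd_trans (pow_dvd_pow 2 (Nat.le_succ k)) h

lemma exists_big (k N : ℕ) : ∃ n, N ≤ n ∧ Big k n := by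
  have h2 : 0 < 2 ^ k := by positivity
  have h3 : N + 1 ≤ 2 ^ k * (N + 1) := Nat.le_mul_of_pos_left _ h2
  refine ⟨2 ^ k * (N + 1) - 1, by omega, ⟨N + 1, by omega⟩⟩

lemma big_shift {k p : ℕ} (h : Big (k + 1) p) : Big k (p + 2 ^ k) := by
  unfold Big at *
  have h1 : 2 ^ k ∣ p + 1 := dvd_trans (pow_dvd_pow 2 (Nat.le_succ k)) h
  have : p + 2 ^ k + 1 = (p + 1) + 2 ^ k := by ring
  rw [this]
  exact dvd_add h1 dvd_rfl

lemma not_big_between {k p n : ℕ} (h : Big (k + 1) p) (h1 : p < n) (h2 : n ≤ p + 2 ^ k) :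
    ¬ Big (k + 1) n := by
  intro hn
  unfold Big at *
  have h3 : 2 ^ (k + 1) ∣ n - p := by
    have : n - p = (n + 1) - (p + 1) := by omega
    rw [this]
    exact Nat.dvd_sub hn h
  have h4 := Nat.le_of_dvd (by omega) h3
  have h5 : 0 < 2 ^ k := by positivity
  rw [pow_succ] at h4
  omega

/-- agreement of two points below `n`. -/
def Agree (x y : ℕ → ℕ) (n : ℕ) : Prop := ∀ i, i < n → x i = y i

lemma Agree.refl (x : ℕ → ℕ) (n : ℕ) : Agree x x n := fun _ _ => rfl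
lemma Agree.symm {x y : ℕ → ℕ} {n : ℕ} (h : Agree x y n) : Agree y x n := fun i hi => (h i hi).symm
lemma Agree.trans {x y z : ℕ → ℕ} {n : ℕ} (h : Agree x y n) (h' : Agree y z n) : Agree x z n :=
  fun i hi => (h i hi).trans (h' i hi)
lemma Agree.mono {x y : ℕ → ℕ} {n m : ℕ} (h : Agree x y n) (hm : m ≤ n) : Agree x y m :=
  fun i hi => h i (lt_of_lt_of_le hi hm)

/-- points tending to infinity along the positions of rank at least `k`. -/
def Hs (k : ℕ) : Set (ℕ → ℕ) := {x | ∀ v, ∃ N, ∀ n, N ≤ n → Big k n → v ≤ x n}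

/-- `H 0 = ∅`, `H (k+1) = Hs k`. -/
def H : ℕ → Set (ℕ → ℕ)
  | 0 => ∅
  | k + 1 => Hs k

lemma H_succ_subset (k : ℕ) : H k ⊆ H (k + 1) := by
  cases k with
  | zero => intro x hx; exact absurd hx (by simp [H])
  | succ k =>
    intro x hx v
    obtain ⟨N, hN⟩ := hx v
    exact ⟨N, fun n hn hb => hN n hn hb.of_succ⟩

lemma H_mono {i j : ℕ} (h : i ≤ j) : H i ⊆ H j := by
  induction h with
  | refl => exact subset_rfl
  | step _ ih => exact ih.trans (H_succ_subset _)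

/-- the layers. -/
def A (i : ℕ) : Set (ℕ → ℕ) := H (i + 1) \ H i

lemma A_inj {x : ℕ → ℕ} {i j : ℕ} (hi : x ∈ A i) (hj : x ∈ A j) : i = j := by
  by_contra hne
  rcases lt_or_gt_of_ne hne with h | h
  · exact hj.2 (H_mono (Nat.succ_le_of_lt h) hi.1)
  · exact hi.2 (H_mono (Nat.succ_le_of_lt h) hj.1)

/-- the conditions of level `k`. -/
structure IsK (k : ℕ) (X : Set (ℕ → ℕ)) (n0 v0 : ℕ) : Prop where
  ne : X.Nonempty
  closed : ∀ x, (∀ n, ∃ y ∈ X, Agree x y n) → x ∈ X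
  a : ∀ x ∈ X, ∀ n, n0 ≤ n → Big k n → ∀ u, v0 ≤ u → ∃ y ∈ X, Agree x y n ∧ y n = u
  b : (X ∩ H k).Countable
  c : ∀ i < k, ∀ x ∈ X, ∀ n, n0 ≤ n → ∀ v,
    ∃ y ∈ X, y ∈ A i ∧ Agree x y n ∧ ∀ m, n ≤ m → Big k m → v ≤ y m

/-- `y` is a point of `X` extending `x` below `m` whose values at positions of rank at least `k`
from `m` on are at least `v`. -/
def InE (X : Set (ℕ → ℕ)) (k : ℕ) (x : ℕ → ℕ) (m v : ℕ) (y : ℕ → ℕ) : Prop :=
  y ∈ X ∧ Agree x y m ∧ ∀ i, m ≤ i → Big k i → v ≤ y i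

/-- A state of the fusion. -/
structure St (X : Set (ℕ → ℕ)) (n0 v0 : ℕ) where
  x : ℕ → ℕ
  m : ℕ
  v : ℕ
  hx : x ∈ X
  hm : n0 ≤ m
  hv : v0 ≤ v

/-- the fusion lemma. -/
lemma diag {k : ℕ} {X : Set (ℕ → ℕ)} {n0 v0 : ℕ} (hX : IsK k X n0 v0) (M : ℕ → Set (ℕ → ℕ))
    (hM : ∀ j, ∀ x ∈ X, ∀ m, n0 ≤ m → ∀ v, v0 ≤ v → ∃ x' ∈ X, ∃ m' v', m ≤ m' ∧ v ≤ v' ∧
      Agree x x' m ∧ (∀ i, m ≤ i → i < m' → Big k i → v ≤ x' i) ∧
      ∀ y, InE X k x' m' v' y → y ∉ M j)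
    (x : ℕ → ℕ) (hx : x ∈ X) (m : ℕ) (hm : n0 ≤ m) (v : ℕ) (hv : v0 ≤ v) :
    ∃ y, InE X k x m v y ∧ y ∈ Hs k ∧ ∀ j, y ∉ M j := by
  classical
  -- one step of the fusion
  have step : ∀ (j : ℕ) (s : St X n0 v0), ∃ s' : St X n0 v0, s.m < s'.m ∧ s.v < s'.v ∧
      Agree s.x s'.x s.m ∧ (∀ i, s.m ≤ i → i < s'.m → Big k i → s.v ≤ s'.x i) ∧
      (∀ y, InE X k s'.x s'.m s'.v y → y ∉ M j) := by
    intro j s
    obtain ⟨x', hx', m', v', hmm, hvv, hag, hval, hout⟩ := hM j s.x s.hx s.m s.hm s.v s.hv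
    -- extend by one more position
    obtain ⟨x'', hx'', hag', hlast⟩ : ∃ x'' ∈ X, Agree x' x'' m' ∧ (Big k m' → v' ≤ x'' m') := by
      by_cases hb : Big k m'
      · obtain ⟨y, hy, h1, h2⟩ := hX.a x' hx' m' (s.hm.trans hmm) hb v' (s.hv.trans hvv)
        exact ⟨y, hy, h1, fun _ => h2.ge⟩
      · exact ⟨x', hx', Agree.refl _ _, fun h => absurd h hb⟩
    refine ⟨⟨x'', m' + 1, v' + 1, hx'', by have := s.hm; omega, by have := s.hv; omega⟩,
      Nat.lt_succ_of_le hmm, Nat.lt_succ_of_le hvv, ?_, ?_, ?_⟩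
    · exact hag.trans (hag'.mono hmm)
    · intro i hi1 hi2 hb
      rcases Nat.lt_succ_iff_lt_or_eq.1 hi2 with h | h
      · show s.v ≤ x'' i
        rw [← hag' i h]
        exact hval i hi1 h hb
      · subst h
        exact hvv.trans (hlast hb)
    · intro y hy
      apply hout y
      refine ⟨hy.1, ?_, ?_⟩
      · intro i hi
        rw [hag' i hi]
        exact hy.2.1 i (Nat.lt_succ_of_lt hi)
      · intro i hi hb
        rcases Nat.eq_or_lt_of_le hi with h | h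
        · subst h
          have := hy.2.1 m' (Nat.lt_succ_self _)
          simp only at this
          rw [← this]
          exact hlast hb
        · have := hy.2.2 i h hb
          simp only at this
          omega
  choose nx h1 h2 h3 h4 h5 using step
  let S : ℕ → St X n0 v0 := fun j => Nat.rec ⟨x, m, v, hx, hm, hv⟩ (fun j s => nx j s) j
  have S0 : S 0 = ⟨x, m, v, hx, hm, hv⟩ := rfl
  have Ss : ∀ j, S (j + 1) = nx j (S j) := fun j => rfl
  have mlt : ∀ j, (S j).m < (S (j + 1)).m := fun j => h1 j (S j)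
  have vlt : ∀ j, (S j).v < (S (j + 1)).v := fun j => h2 j (S j)
  have mmono : StrictMono (fun j => (S j).m) := strictMono_nat_of_lt_succ mlt
  have vmono : StrictMono (fun j => (S j).v) := strictMono_nat_of_lt_succ vlt
  have agS : ∀ j l, j ≤ l → Agree (S j).x (S l).x (S j).m := by
    intro j l hjl
    induction hjl with
    | refl => exact Agree.refl _ _
    | step hle ih =>
      rename_i l'
      refine ih.trans ?_
      have := h3 l' (S l')
      exact this.mono (mmono.monotone hle)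
  have mge : ∀ j, j ≤ (S j).m := mmono.id_le
  -- the limit
  let y : ℕ → ℕ := fun i => (S (i + 1)).x i
  have yag : ∀ j, Agree (S j).x y (S j).m := by
    intro j i hi
    show (S j).x i = (S (i + 1)).x i
    rcases le_total j (i + 1) with h | h
    · exact agS j (i + 1) h i hi
    · exact (agS (i + 1) j h i (lt_of_lt_of_le (Nat.lt_succ_self i) (mge _))).symm
  have yX : y ∈ X := hX.closed y fun n => ⟨(S n).x, (S n).hx, ((yag n).mono (mge n)).symm⟩
  have yval : ∀ j i, (S j).m ≤ i → Big k i → (S j).v ≤ y i := by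
    intro j i hi hb
    -- find the stage
    obtain ⟨l, hl1, hl2⟩ : ∃ l, i < (S l).m ∧ ∀ l' < l, (S l').m ≤ i := by
      have hex : ∃ l, i < (S l).m := ⟨i + 1, lt_of_lt_of_le (Nat.lt_succ_self i) (mge _)⟩
      exact ⟨Nat.find hex, Nat.find_spec hex, fun l' hl' => not_lt.1 (Nat.find_min hex hl')⟩
    have hjl : j < l := by
      by_contra hcon
      exact absurd (lt_of_lt_of_le hl1 (mmono.monotone (not_lt.1 hcon))) (not_lt.2 hi)
    obtain ⟨l', rfl⟩ : ∃ l', l = l' + 1 := ⟨l - 1, by omega⟩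
    have e1 : (S l').v ≤ (S (l' + 1)).x i := h4 l' (S l') i (hl2 l' (Nat.lt_succ_self _)) hl1 hb
    rw [← yag (l' + 1) i hl1]
    exact (vmono.monotone (Nat.le_of_lt_succ hjl)).trans e1
  refine ⟨y, ⟨yX, ?_, ?_⟩, ?_, ?_⟩
  · exact yag 0
  · exact fun i hi hb => yval 0 i hi hb
  · intro w
    refine ⟨(S w).m, fun n hn hb => ?_⟩
    exact (vmono.id_le w).trans (yval w n hn hb)
  · intro j
    exact h5 j (S j) y ⟨yX, yag (j + 1), fun i hi hb => yval (j + 1) i hi hb⟩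

lemma ext {k : ℕ} {X : Set (ℕ → ℕ)} {n0 v0 : ℕ} (hX : IsK k X n0 v0)
    (x : ℕ → ℕ) (hx : x ∈ X) (m : ℕ) (hm : n0 ≤ m) (v : ℕ) (hv : v0 ≤ v) :
    ∃ y, InE X k x m v y := by
  obtain ⟨y, hy, -, -⟩ := diag hX (fun _ => ∅) (fun j x hx m hm v hv =>
    ⟨x, hx, m, v, le_rfl, le_rfl, Agree.refl _ _, fun i h1 h2 => absurd h1 (not_le.2 h2),
      fun y _ => Set.notMem_empty y⟩) x hx m hm v hv
  exact ⟨y, hy⟩

/-- the diagonalization hypothesis for a singleton. -/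
lemma avoid_point {k : ℕ} {X : Set (ℕ → ℕ)} {n0 v0 : ℕ} (hX : IsK k X n0 v0) (h : ℕ → ℕ)
    (x : ℕ → ℕ) (hx : x ∈ X) (m : ℕ) (hm : n0 ≤ m) (v : ℕ) (hv : v0 ≤ v) :
    ∃ x' ∈ X, ∃ m' v', m ≤ m' ∧ v ≤ v' ∧
      Agree x x' m ∧ (∀ i, m ≤ i → i < m' → Big k i → v ≤ x' i) ∧
      ∀ y, InE X k x' m' v' y → y ∉ ({h} : Set (ℕ → ℕ)) := by
  obtain ⟨y, hy⟩ := ext hX x hx m hm v hv
  obtain ⟨i, hi, hb⟩ := exists_big k m
  obtain ⟨y', hy', hag, hval⟩ := hX.a y hy.1 i (hm.trans hi) hb (v + h i + 1) (by omega)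
  refine ⟨y', hy', i + 1, v, by omega, le_rfl, ?_, ?_, ?_⟩
  · exact hy.2.1.trans (hag.mono hi)
  · intro j hj1 hj2 hbj
    rcases Nat.lt_succ_iff_lt_or_eq.1 hj2 with h' | h'
    · rw [← hag j h']
      exact hy.2.2 j hj1 hbj
    · subst h'
      rw [hval]; omega
  · intro z hz hzh
    have e1 := hz.2.1 i (Nat.lt_succ_self i)
    rw [Set.mem_singleton_iff] at hzh
    rw [hzh, hval] at e1
    omega

lemma uncountable {k : ℕ} {X : Set (ℕ → ℕ)} {n0 v0 : ℕ} (hX : IsK k X n0 v0) :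
    ¬ (X ∩ H (k + 1)).Countable := by
  intro hc
  obtain ⟨f, hf⟩ := Set.countable_iff_exists_subset_range.1 hc
  obtain ⟨x, hx⟩ := hX.ne
  obtain ⟨y, hy, hyH, hyM⟩ := diag hX (fun j => {f j})
    (fun j x hx m hm v hv => avoid_point hX (f j) x hx m hm v hv) x hx n0 le_rfl v0 le_rfl
  obtain ⟨j, hj⟩ := hf ⟨hy.1, hyH⟩
  exact hyM j hj.symm

/-- The capture property of `N` in `X` at the node `x0` below `n1`, with threshold `v`. -/
def Cap (k : ℕ) (X N : Set (ℕ → ℕ)) (x0 : ℕ → ℕ) (n1 v : ℕ) : Prop :=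
  ∀ x ∈ X, ∀ m, n1 ≤ m → Agree x0 x n1 → (∀ j, n1 ≤ j → j < m → Big k j → v ≤ x j) →
    ∀ w, ∃ y ∈ X, y ∈ A k ∧ y ∈ N ∧ Agree x y m ∧ ∀ j, m ≤ j → Big k j → w ≤ y j

lemma capture {k : ℕ} {X : Set (ℕ → ℕ)} {n0 v0 : ℕ} (hX : IsK k X n0 v0)
    (N : ℕ → Set (ℕ → ℕ)) (hN : X ∩ A k ⊆ ⋃ j, N j) :
    ∃ j, ∃ x0 ∈ X, ∃ n1 v, n0 ≤ n1 ∧ v0 ≤ v ∧ Cap k X (N j) x0 n1 v := by
  classical
  by_contra hcon
  push Not at hcon
  obtain ⟨f, hf⟩ := Set.countable_iff_exists_subset_range.1 hX.b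
  let e := Equiv.natSumNatEquivNat
  let M : ℕ → Set (ℕ → ℕ) := fun j => Sum.elim (fun a => N a ∩ A k) (fun b => {f b}) (e.symm j)
  have hM : ∀ j, ∀ x ∈ X, ∀ m, n0 ≤ m → ∀ v, v0 ≤ v → ∃ x' ∈ X, ∃ m' v', m ≤ m' ∧ v ≤ v' ∧
      Agree x x' m ∧ (∀ i, m ≤ i → i < m' → Big k i → v ≤ x' i) ∧
      ∀ y, InE X k x' m' v' y → y ∉ M j := by
    intro j x hx m hm v hv
    rcases hj : e.symm j with a | b
    · have h1 := hcon a x hx m v hm hv
      unfold Cap at h1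
      push Not at h1
      obtain ⟨x', hx', m', hm', hag, hval, w, hw⟩ := h1
      refine ⟨x', hx', m', max v w, hm', le_max_left _ _, hag, hval, ?_⟩
      intro y hy hyM
      simp only [M, hj, Sum.elim_inl] at hyM
      obtain ⟨i, hi, hb, hlt⟩ := hw y hy.1 hyM.2 hyM.1 hy.2.1
      have := hy.2.2 i hi hb
      have h3 := le_max_right v w
      omega
    · have := avoid_point hX (f b) x hx m hm v hv
      simpa only [M, hj, Sum.elim_inr] using this
  obtain ⟨x, hx⟩ := hX.ne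
  obtain ⟨y, hy, hyH, hyM⟩ := diag hX M hM x hx n0 le_rfl v0 le_rfl
  have hnot : y ∉ H k := by
    intro hyk
    obtain ⟨b, hb⟩ := hf ⟨hy.1, hyk⟩
    apply hyM (e (Sum.inr b))
    simp only [M, Equiv.symm_apply_apply, Sum.elim_inr]
    exact hb.symm
  have hA : y ∈ A k := ⟨hyH, hnot⟩
  obtain ⟨a, ha⟩ := Set.mem_iUnion.1 (hN ⟨hy.1, hA⟩)
  apply hyM (e (Sum.inl a))
  simp only [M, Equiv.symm_apply_apply, Sum.elim_inl]
  exact ⟨ha, hA⟩


/-- the restriction of `x` to `n`, as a list in reverse order. -/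
def rl (x : ℕ → ℕ) : ℕ → List ℕ
  | 0 => []
  | n + 1 => x n :: rl x n

lemma rl_length (x : ℕ → ℕ) (n : ℕ) : (rl x n).length = n := by
  induction n with
  | zero => rfl
  | succ n ih => simp [rl, ih]

lemma rl_eq_iff {x y : ℕ → ℕ} {n : ℕ} : rl x n = rl y n ↔ Agree x y n := by
  induction n with
  | zero => simp [rl, Agree]
  | succ n ih =>
    simp only [rl, List.cons.injEq, ih, Agree]
    constructor
    · rintro ⟨h1, h2⟩ i hi
      rcases Nat.lt_succ_iff_lt_or_eq.1 hi with h | h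
      · exact h2 i h
      · rw [h]; exact h1
    · intro h
      exact ⟨h n (Nat.lt_succ_self n), fun i hi => h i (Nat.lt_succ_of_lt hi)⟩

/-- the default points. -/
def D (d0 : ℕ → ℕ) (ch : List ℕ → ℕ → (ℕ → ℕ)) : List ℕ → (ℕ → ℕ)
  | [] => d0
  | u :: t => if u = D d0 ch t t.length then D d0 ch t else ch t u

lemma exists_div {k : ℕ} {X : Set (ℕ → ℕ)} {n0 v0 : ℕ} (hX : IsK k X n0 v0)
    {N : Set (ℕ → ℕ)} {x0 : ℕ → ℕ} {n1 v : ℕ} (hn1 : n0 ≤ n1) (hv : v0 ≤ v)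
    (hcap : Cap k X N x0 n1 v) (x : ℕ → ℕ) (hx : InE X k x0 n1 v x) (n : ℕ) (hn : n1 ≤ n)
    (hb : Big (k + 1) n) (u : ℕ) (hu : v ≤ u) :
    ∃ y, InE X k x0 n1 v y ∧ Agree x y n ∧ y n = u ∧ y (n + 2 ^ k) = v ∧
      (∀ m, n + 2 ^ k < m → Big k m → u / (k + 1) ≤ y m) ∧ y ∈ A (u % (k + 1)) ∧
      (u % (k + 1) = k → y ∈ N) := by
  have hk2 : 0 < 2 ^ k := by positivity
  obtain ⟨y, hyX, hag, hyn⟩ := hX.a x hx.1 n (hn1.trans hn) hb.of_succ u (hv.trans hu)
  obtain ⟨y1, hy1X, hag1, hval1⟩ := ext hX y hyX (n + 1) (by omega) v hv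
  obtain ⟨y2, hy2X, hag2, hval2⟩ := hX.a y1 hy1X (n + 2 ^ k) (by omega) (big_shift hb) v hv
  -- values of y2
  have v2 : ∀ j, n1 ≤ j → j < n + 2 ^ k + 1 → Big k j → v ≤ y2 j := by
    intro j hj1 hj2 hbj
    rcases Nat.lt_succ_iff_lt_or_eq.1 hj2 with h | h
    · rw [← hag2 j h]
      rcases lt_trichotomy j n with h' | h' | h'
      · rw [← hag1 j (by omega), ← hag j h']
        exact hx.2.2 j hj1 hbj
      · subst h'
        rw [← hag1 j (by omega), hyn]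
        exact hu
      · exact hval1 j h' hbj
    · rw [h, hval2]
  have ag2 : Agree x y2 n := fun i hi => by
    rw [hag i hi, hag1 i (by omega), hag2 i (by omega)]
  have e2 : y2 n = u := by
    rw [← hag2 n (by omega), ← hag1 n (by omega), hyn]
  have agx0 : Agree x0 y2 n1 := hx.2.1.trans (ag2.mono hn)
  -- choose the final point
  obtain ⟨y3, hy3X, hA3, hN3, hag3, hval3⟩ : ∃ y3 ∈ X, y3 ∈ A (u % (k + 1)) ∧
      (u % (k + 1) = k → y3 ∈ N) ∧ Agree y2 y3 (n + 2 ^ k + 1) ∧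
      ∀ m, n + 2 ^ k + 1 ≤ m → Big k m → max v (u / (k + 1)) ≤ y3 m := by
    have hlt : u % (k + 1) < k + 1 := Nat.mod_lt _ (Nat.succ_pos k)
    rcases Nat.lt_succ_iff_lt_or_eq.1 hlt with h | h
    · obtain ⟨y3, h1, h2, h3, h4⟩ := hX.c _ h y2 hy2X (n + 2 ^ k + 1) (by omega)
        (max v (u / (k + 1)))
      exact ⟨y3, h1, h2, fun h' => absurd h' (ne_of_lt h), h3, h4⟩
    · obtain ⟨y3, h1, h2, h3, h4, h5⟩ := hcap y2 hy2X (n + 2 ^ k + 1) (by omega) agx0 v2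
        (max v (u / (k + 1)))
      exact ⟨y3, h1, by rw [h]; exact h2, fun _ => h3, h4, h5⟩
  refine ⟨y3, ⟨hy3X, agx0.trans (hag3.mono (by omega)), ?_⟩, ag2.trans (hag3.mono (by omega)),
    ?_, ?_, ?_, hA3, hN3⟩
  · intro i hi hbi
    rcases Nat.lt_or_ge i (n + 2 ^ k + 1) with h | h
    · rw [← hag3 i h]
      exact v2 i hi h hbi
    · exact (le_max_left _ _).trans (hval3 i h hbi)
  · rw [← hag3 n (by omega), e2]
  · rw [← hag3 _ (by omega), hval2]
  · intro m hm hbm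
    exact (le_max_right _ _).trans (hval3 m hm hbm)

lemma step {k : ℕ} {X : Set (ℕ → ℕ)} {n0 v0 : ℕ} (hX : IsK k X n0 v0)
    {N : Set (ℕ → ℕ)} {x0 : ℕ → ℕ} (hx0 : x0 ∈ X) {n1 v : ℕ} (hn1 : n0 ≤ n1) (hv : v0 ≤ v)
    (hcap : Cap k X N x0 n1 v) :
    ∃ X', X' ⊆ X ∧ IsK (k + 1) X' n1 v ∧ X' ∩ A k ⊆ N := by
  classical
  have hk2 : 0 < 2 ^ k := by positivity
  -- the initial default
  obtain ⟨d0, hd0X, hd0A, hd0N, hd0ag, hd0v⟩ := hcap x0 hx0 n1 le_rfl (Agree.refl _ _)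
    (fun j h1 h2 => absurd h1 (not_le.2 h2)) v
  let Good : List ℕ → ℕ → (ℕ → ℕ) → Prop := fun t u y =>
    InE X k x0 n1 v y ∧ rl y (t.length + 1) = u :: t ∧ y (t.length + 2 ^ k) = v ∧
      (∀ m, t.length + 2 ^ k < m → Big k m → u / (k + 1) ≤ y m) ∧ y ∈ A (u % (k + 1)) ∧
      (u % (k + 1) = k → y ∈ N)
  let ch : List ℕ → ℕ → (ℕ → ℕ) := fun t u => if h : ∃ y, Good t u y then h.choose else x0
  have hch : ∀ t u, (∃ y, Good t u y) → Good t u (ch t u) := by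
    intro t u h
    simp only [ch, dif_pos h]
    exact h.choose_spec
  let DD : List ℕ → (ℕ → ℕ) := D d0 ch
  have D0 : DD [] = d0 := rfl
  have Ds : ∀ (x : ℕ → ℕ) (n : ℕ), DD (rl x (n + 1)) =
      if x n = DD (rl x n) n then DD (rl x n) else ch (rl x n) (x n) := by
    intro x n
    show (if x n = DD (rl x n) (rl x n).length then DD (rl x n) else ch (rl x n) (x n)) = _
    rw [rl_length]
  -- the local condition
  let C : (ℕ → ℕ) → ℕ → Prop := fun x n =>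
    x n = DD (rl x n) n ∨ (n1 ≤ n ∧ Big (k + 1) n ∧ v ≤ x n)
  have Ccong : ∀ x y n m, Agree x y n → m < n → C x m → C y m := by
    intro x y n m hag hm hC
    simp only [C] at hC ⊢
    have e : rl y m = rl x m := rl_eq_iff.2 (hag.symm.mono hm.le)
    rw [e, ← hag m hm]
    exact hC
  -- the invariants
  have good_of : ∀ x n, InE X k x0 n1 v (DD (rl x n)) → Agree (DD (rl x n)) x n →
      n1 ≤ n → Big (k + 1) n → v ≤ x n → Good (rl x n) (x n) (ch (rl x n) (x n)) := by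
    intro x n hE hag hn hb hvx
    apply hch
    obtain ⟨y, h1, h2, h3, h4, h5, h6, h7⟩ := exists_div hX hn1 hv hcap _ hE n hn hb (x n) hvx
    refine ⟨y, h1, ?_, ?_, ?_, h6, h7⟩
    · rw [rl_length]
      show y n :: rl y n = x n :: rl x n
      rw [h3, rl_eq_iff.2 (h2.symm.trans hag)]
    · rw [rl_length]; exact h4
    · rw [rl_length]; exact h5
  have inv : ∀ x n, (∀ i, i < n → C x i) → InE X k x0 n1 v (DD (rl x n)) ∧
      Agree (DD (rl x n)) x n ∧ ∃ i, DD (rl x n) ∈ A i ∧ (i = k → DD (rl x n) ∈ N) := by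
    intro x n
    induction n with
    | zero =>
      intro _
      refine ⟨⟨hd0X, hd0ag, hd0v⟩, fun i hi => absurd hi (Nat.not_lt_zero i), k, hd0A,
        fun _ => hd0N⟩
    | succ n ih =>
      intro hC
      obtain ⟨h1, h2, h3⟩ := ih (fun i hi => hC i (Nat.lt_succ_of_lt hi))
      rw [Ds]
      by_cases he : x n = DD (rl x n) n
      · rw [if_pos he]
        refine ⟨h1, ?_, h3⟩
        intro i hi
        rcases Nat.lt_succ_iff_lt_or_eq.1 hi with h | h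
        · exact h2 i h
        · rw [h]; exact he.symm
      · rw [if_neg he]
        rcases hC n (Nat.lt_succ_self n) with h | ⟨g1, g2, g3⟩
        · exact absurd h he
        · obtain ⟨q1, q2, q3, q4, q5, q6⟩ := good_of x n h1 h2 g1 g2 g3
          refine ⟨q1, ?_, _, q5, q6⟩
          rw [rl_length] at q2
          exact rl_eq_iff.1 q2
  -- the new set
  let X' : Set (ℕ → ℕ) := {x | ∀ n, C x n}
  have Dstab : ∀ x n, DD (rl x n) = x → ∀ m, n ≤ m → DD (rl x m) = x := by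
    intro x n h m hm
    induction hm with
    | refl => exact h
    | step hle ih =>
      rename_i m'
      show DD (rl x (m' + 1)) = x
      rw [Ds, if_pos (by rw [ih]), ih]
  have DX : ∀ x n, (∀ i, i < n → C x i) → DD (rl x n) ∈ X' := by
    intro x n hC m
    obtain ⟨h1, h2, h3⟩ := inv x n hC
    rcases Nat.lt_or_ge m n with h | h
    · exact Ccong x _ n m h2.symm h (hC m h)
    · left
      have e : rl (DD (rl x n)) n = rl x n := rl_eq_iff.2 h2
      have e2 : DD (rl (DD (rl x n)) n) = DD (rl x n) := by rw [e]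
      rw [Dstab _ n e2 m h]
  have X'X : X' ⊆ X := by
    intro x hx
    refine hX.closed x fun n => ⟨DD (rl x n), ?_, ?_⟩
    · exact (inv x n (fun i _ => hx i)).1.1
    · exact (inv x n (fun i _ => hx i)).2.1.symm
  -- points of the new set in H (k+1) are default points
  have hdef : ∀ x ∈ X', x ∈ H (k + 1) → ∃ n, x = DD (rl x n) := by
    intro x hx hH
    by_contra hcon
    push Not at hcon
    have hinf : ∀ n, ∃ m, n ≤ m ∧ x m ≠ DD (rl x m) m := by
      intro n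
      by_contra hc
      push Not at hc
      apply hcon n
      have e : ∀ m, n ≤ m → DD (rl x m) = DD (rl x n) := by
        intro m hm
        induction hm with
        | refl => rfl
        | step hle ih =>
          rename_i m'
          show DD (rl x (m' + 1)) = _
          rw [Ds, if_pos (hc m' hle), ih]
      funext i
      rcases Nat.lt_or_ge i n with h | h
      · exact ((inv x n (fun i _ => hx i)).2.1 i h).symm
      · rw [hc i h, e i h]
    obtain ⟨B, hB⟩ := hH (v + 1)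
    obtain ⟨m, hm, hne⟩ := hinf B
    rcases hx m with h | ⟨g1, g2, g3⟩
    · exact hne h
    obtain ⟨h1, h2, h3⟩ := inv x m (fun i _ => hx i)
    obtain ⟨q1, q2, q3, q4, q5, q6⟩ := good_of x m h1 h2 g1 g2 g3
    have e1 : DD (rl x (m + 1)) = ch (rl x m) (x m) := by rw [Ds, if_neg hne]
    have e2 : ∀ j, m + 1 ≤ j → j ≤ m + 2 ^ k → DD (rl x j) = ch (rl x m) (x m) := by
      intro j hj
      induction hj with
      | refl => intro _; exact e1
      | step hle ih =>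
        rename_i j'
        intro hj2
        show DD (rl x (j' + 1)) = _
        have hnb : ¬ Big (k + 1) j' := not_big_between g2 hle (by omega)
        have hj3 : x j' = DD (rl x j') j' := by
          rcases hx j' with h | h
          · exact h
          · exact absurd h.2.1 hnb
        rw [Ds, if_pos hj3]
        exact ih (by omega)
    have e3 : x (m + 2 ^ k) = v := by
      have hnb : ¬ Big (k + 1) (m + 2 ^ k) := not_big_between g2 (by omega) le_rfl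
      have hj3 : x (m + 2 ^ k) = DD (rl x (m + 2 ^ k)) (m + 2 ^ k) := by
        rcases hx (m + 2 ^ k) with h | h
        · exact h
        · exact absurd h.2.1 hnb
      rw [hj3, e2 (m + 2 ^ k) (by omega) le_rfl]
      rw [rl_length] at q3
      exact q3
    have := hB (m + 2 ^ k) (by omega) (big_shift g2)
    omega
  refine ⟨X', X'X, ⟨?_, ?_, ?_, ?_, ?_⟩, ?_⟩
  · exact ⟨_, DX x0 0 (fun i hi => absurd hi (Nat.not_lt_zero i))⟩
  · intro x hx n
    obtain ⟨y, hy, hag⟩ := hx (n + 1)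
    exact Ccong y x (n + 1) n hag.symm (Nat.lt_succ_self n) (hy n)
  · intro x hx n hn hb u hu
    let z : ℕ → ℕ := Function.update x n u
    have hag : Agree x z n := fun i hi => by simp [z, Function.update_of_ne (ne_of_lt hi)]
    have hzn : z n = u := by simp [z]
    have hC : ∀ i, i < n + 1 → C z i := by
      intro i hi
      rcases Nat.lt_succ_iff_lt_or_eq.1 hi with h | h
      · exact Ccong x z n i hag h (hx i)
      · rw [h]; right; exact ⟨hn, hb, by rw [hzn]; exact hu⟩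
    refine ⟨DD (rl z (n + 1)), DX z (n + 1) hC, ?_, ?_⟩
    · exact hag.trans ((inv z (n + 1) hC).2.1.symm.mono (Nat.le_succ n))
    · rw [(inv z (n + 1) hC).2.1 n (Nat.lt_succ_self n), hzn]
  · refine (Set.countable_range DD).mono ?_
    rintro x ⟨hx, hH⟩
    obtain ⟨n, hn⟩ := hdef x hx hH
    exact ⟨rl x n, hn.symm⟩
  · intro i hi x hx n hn w
    have hex : ∃ p, n ≤ p ∧ Big (k + 1) p := exists_big (k + 1) n
    obtain ⟨p, ⟨hp1, hp2⟩, hpmin⟩ : ∃ p, (n ≤ p ∧ Big (k + 1) p) ∧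
        ∀ q < p, ¬ (n ≤ q ∧ Big (k + 1) q) :=
      ⟨Nat.find hex, Nat.find_spec hex, fun q hq => Nat.find_min hex hq⟩
    let d := DD (rl x n)
    have hdX : d ∈ X' := DX x n (fun i _ => hx i)
    have hdag : Agree x d n := (inv x n (fun i _ => hx i)).2.1.symm
    have hdp : DD (rl d p) = d := by
      have e : rl d n = rl x n := rl_eq_iff.2 hdag.symm
      have e2 : DD (rl d n) = d := by rw [e]
      exact Dstab d n e2 p hp1
    let u := (k + 1) * (w + v + d p + 1) + i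
    have hu1 : w + v + d p + 1 ≤ u := by
      have : w + v + d p + 1 ≤ (k + 1) * (w + v + d p + 1) :=
        Nat.le_mul_of_pos_left _ (Nat.succ_pos k)
      simp only [u]; omega
    have hu2 : u % (k + 1) = i := by
      simp only [u]
      rw [Nat.mul_add_mod, Nat.mod_eq_of_lt hi]
    have hu3 : u / (k + 1) = w + v + d p + 1 := by
      simp only [u]
      rw [Nat.mul_add_div (Nat.succ_pos k), Nat.div_eq_of_lt hi, Nat.add_zero]
    let z : ℕ → ℕ := Function.update d p u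
    have hag : Agree d z p := fun i hi => by simp [z, Function.update_of_ne (ne_of_lt hi)]
    have hzn : z p = u := by simp [z]
    have hC : ∀ i, i < p + 1 → C z i := by
      intro i hi
      rcases Nat.lt_succ_iff_lt_or_eq.1 hi with h | h
      · exact Ccong d z p i hag h (hdX i)
      · rw [h]; right; exact ⟨hn.trans hp1, hp2, by rw [hzn]; omega⟩
    have erl : rl z p = rl d p := rl_eq_iff.2 hag.symm
    obtain ⟨h1, h2, h3⟩ := inv z p (fun i hi => hC i (Nat.lt_succ_of_lt hi))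
    have hG := good_of z p h1 h2 (hn.trans hp1) hp2 (by rw [hzn]; omega)
    have eD : DD (rl z (p + 1)) = ch (rl z p) (z p) := by
      rw [Ds, if_neg]
      rw [erl, hdp, hzn]
      omega
    rw [← eD] at hG
    obtain ⟨q1, q2, q3, q4, q5, q6⟩ := hG
    refine ⟨DD (rl z (p + 1)), DX z (p + 1) hC, ?_, ?_, ?_⟩
    · rw [hzn, hu2] at q5
      exact q5
    · exact hdag.trans ((hag.mono hp1).trans
        ((inv z (p + 1) hC).2.1.symm.mono (by omega)))
    · intro m hm hbm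
      rcases lt_trichotomy m p with h | h | h
      · exact absurd ⟨hm, hbm⟩ (hpmin m h)
      · rw [h, (inv z (p + 1) hC).2.1 p (Nat.lt_succ_self p), hzn]
        omega
      · rcases Nat.lt_or_ge (p + 2 ^ k) m with h' | h'
        · have := q4 m (by rw [rl_length]; exact h') hbm.of_succ
          rw [hzn, hu3] at this
          omega
        · exact absurd hbm (not_big_between hp2 h h')
  · rintro x ⟨hx, hA⟩
    obtain ⟨n, hn⟩ := hdef x hx hA.1
    obtain ⟨-, -, i, hi1, hi2⟩ := inv x n (fun i _ => hx i)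
    rw [← hn] at hi1 hi2
    exact hi2 (A_inj hi1 hA)


/-- the family of all conditions. -/
def Fam : Set (Set (ℕ → ℕ)) := {X | ∃ k n0 v0, IsK k X n0 v0}

lemma univ_mem : (Set.univ : Set (ℕ → ℕ)) ∈ Fam := by
  refine ⟨0, 0, 0, ⟨⟨fun _ => 0, Set.mem_univ _⟩, fun _ _ => Set.mem_univ _, ?_, ?_, ?_⟩⟩
  · intro x _ n _ _ u _
    exact ⟨Function.update x n u, Set.mem_univ _,
      fun i hi => by simp [Function.update_of_ne (ne_of_lt hi)], by simp⟩
  · simp [H]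
  · intro i hi
    exact absurd hi (Nat.not_lt_zero i)

lemma restrict {k : ℕ} {X : Set (ℕ → ℕ)} {n0 v0 : ℕ} (hX : IsK k X n0 v0) (U : Set (ℕ → ℕ))
    (n : ℕ) (hU : ∀ x y, Agree x y n → x ∈ U → y ∈ U) (hne : (X ∩ U).Nonempty) :
    IsK k (X ∩ U) (max n0 n) v0 := by
  refine ⟨hne, ?_, ?_, ?_, ?_⟩
  · intro x hx
    refine ⟨hX.closed x fun m => ?_, ?_⟩
    · obtain ⟨y, hy, hag⟩ := hx m
      exact ⟨y, hy.1, hag⟩
    · obtain ⟨y, hy, hag⟩ := hx n
      exact hU y x hag.symm hy.2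
  · intro x hx m hm hb u hu
    obtain ⟨y, hy, hag, hv⟩ := hX.a x hx.1 m ((le_max_left _ _).trans hm) hb u hu
    exact ⟨y, ⟨hy, hU x y (hag.mono ((le_max_right _ _).trans hm)) hx.2⟩, hag, hv⟩
  · refine hX.b.mono ?_
    rintro x ⟨⟨h1, -⟩, h2⟩
    exact ⟨h1, h2⟩
  · intro i hi x hx m hm w
    obtain ⟨y, hy, hA, hag, hv⟩ := hX.c i hi x hx.1 m ((le_max_left _ _).trans hm) w
    exact ⟨y, ⟨hy, hU x y (hag.mono ((le_max_right _ _).trans hm)) hx.2⟩, hA, hag, hv⟩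

lemma restrict_mem {X : Set (ℕ → ℕ)} (hX : X ∈ Fam) (U : Set (ℕ → ℕ))
    (n : ℕ) (hU : ∀ x y, Agree x y n → x ∈ U → y ∈ U) (hne : (X ∩ U).Nonempty) :
    X ∩ U ∈ Fam := by
  obtain ⟨k, n0, v0, h⟩ := hX
  exact ⟨k, _, _, restrict h U n hU hne⟩

lemma two_points {X : Set (ℕ → ℕ)} (hX : X ∈ Fam) : ∃ x ∈ X, ∃ y ∈ X, x ≠ y := by
  obtain ⟨k, n0, v0, h⟩ := hX
  by_contra hcon
  push Not at hcon
  apply uncountable h
  exact (Set.Subsingleton.countable (fun x hx y hy => hcon x hx y hy)).mono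
    Set.inter_subset_left

lemma closed_mem {X : Set (ℕ → ℕ)} (hX : X ∈ Fam) (x : ℕ → ℕ)
    (h : ∀ n, ∃ y ∈ X, Agree x y n) : x ∈ X := by
  obtain ⟨k, n0, v0, hk⟩ := hX
  exact hk.closed x h

/-- smallness with respect to the family. -/
def Nwd (N : Set (ℕ → ℕ)) : Prop := ∀ X ∈ Fam, ∃ Y ∈ Fam, Y ⊆ X ∧ Y ∩ N = ∅

lemma layer {k : ℕ} {X : Set (ℕ → ℕ)} {n0 v0 : ℕ} (hX : IsK k X n0 v0)
    (N : ℕ → Set (ℕ → ℕ)) (hN : ∀ j, Nwd (N j)) : ¬ X ∩ A k ⊆ ⋃ j, N j := by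
  intro hcov
  obtain ⟨j, x0, hx0, n1, v, hn1, hv, hcap⟩ := capture hX N hcov
  obtain ⟨X', hX'X, hX', hA⟩ := step hX hx0 hn1 hv hcap
  obtain ⟨Y, ⟨l, m0, w0, hY⟩, hYX, hYN⟩ := hN j X' ⟨k + 1, n1, v, hX'⟩
  have hlk : k + 1 ≤ l := by
    by_contra hcon
    have hle : l + 1 ≤ k + 1 := by omega
    apply uncountable hY
    refine hX'.b.mono ?_
    rintro x ⟨hx1, hx2⟩
    exact ⟨hYX hx1, H_mono hle hx2⟩
  obtain ⟨x, hx⟩ := hY.ne
  obtain ⟨y, hyY, hyA, -, -⟩ := hY.c k hlk x hx m0 le_rfl 0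
  have : y ∈ Y ∩ N j := ⟨hyY, hA ⟨hYX hyY, hyA⟩⟩
  rw [hYN] at this
  exact this

lemma raise {k : ℕ} {X : Set (ℕ → ℕ)} {n0 v0 : ℕ} (hX : IsK k X n0 v0) :
    ∃ X' n1 v1, X' ⊆ X ∧ IsK (k + 1) X' n1 v1 := by
  obtain ⟨j, x0, hx0, n1, v, hn1, hv, hcap⟩ := capture hX (fun _ => Set.univ)
    (fun x _ => Set.mem_iUnion.2 ⟨0, trivial⟩)
  obtain ⟨X', hX'X, hX', -⟩ := step hX hx0 hn1 hv hcap
  exact ⟨X', n1, v, hX'X, hX'⟩

/-- the union of the even layers. -/
def Ev : Set (ℕ → ℕ) := ⋃ k, A (2 * k)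

lemma not_small (X : Set (ℕ → ℕ)) (hX : X ∈ Fam) (N : ℕ → Set (ℕ → ℕ))
    (hN : ∀ j, Nwd (N j)) : ¬ X ∩ Ev ⊆ ⋃ j, N j := by
  intro hcov
  obtain ⟨k, n0, v0, hk⟩ := hX
  rcases Nat.even_or_odd' k with ⟨c, hc | hc⟩
  · subst hc
    exact layer hk N hN (fun x hx => hcov ⟨hx.1, Set.mem_iUnion.2 ⟨c, hx.2⟩⟩)
  · subst hc
    obtain ⟨X', n1, v1, hsub, hk'⟩ := raise hk
    exact layer hk' N hN (fun x hx => hcov ⟨hsub hx.1, Set.mem_iUnion.2 ⟨c + 1, hx.2⟩⟩)

lemma not_in_Ev {x : ℕ → ℕ} {k : ℕ} (hx : x ∈ A (2 * k + 1)) : x ∉ Ev := by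
  intro h
  obtain ⟨j, hj⟩ := Set.mem_iUnion.1 h
  have := A_inj hx hj
  omega

lemma not_cosmall (X : Set (ℕ → ℕ)) (hX : X ∈ Fam) (N : ℕ → Set (ℕ → ℕ))
    (hN : ∀ j, Nwd (N j)) : ¬ X \ Ev ⊆ ⋃ j, N j := by
  intro hcov
  obtain ⟨k, n0, v0, hk⟩ := hX
  rcases Nat.even_or_odd' k with ⟨c, hc | hc⟩
  · subst hc
    obtain ⟨X', n1, v1, hsub, hk'⟩ := raise hk
    exact layer hk' N hN (fun x hx => hcov ⟨hsub hx.1, not_in_Ev hx.2⟩)
  · subst hc
    exact layer hk N hN (fun x hx => hcov ⟨hx.1, not_in_Ev hx.2⟩)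

lemma meas_H (k : ℕ) : MeasurableSet (H k) := by
  cases k with
  | zero => exact MeasurableSet.empty
  | succ k =>
    have : H (k + 1) = ⋂ v : ℕ, ⋃ N : ℕ, ⋂ n : ℕ,
        {x : ℕ → ℕ | N ≤ n → Big k n → v ≤ x n} := by
      ext x
      simp only [Set.mem_iInter, Set.mem_iUnion, Set.mem_ofPred_eq]
      rfl
    rw [this]
    refine MeasurableSet.iInter fun v => MeasurableSet.iUnion fun N =>
      MeasurableSet.iInter fun n => ?_
    have e : {x : ℕ → ℕ | N ≤ n → Big k n → v ≤ x n} =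
        (fun x : ℕ → ℕ => x n) ⁻¹' {a | N ≤ n → Big k n → v ≤ a} := rfl
    rw [e]
    exact measurable_pi_apply n (MeasurableSet.of_discrete)

lemma meas_Ev : MeasurableSet Ev :=
  MeasurableSet.iUnion fun _ => (meas_H _).diff (meas_H _)

end Q215.TreeMeas
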