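import Mathlib
import Pool.Agent.Q215.CantorIndep

/-!
Trees on the natural numbers coded by points of the Cantor group, their ranks, and the
complexity of the comparison of ranks.
-/

open Set Ordinal

namespace Q215.TR

open Q215.CI

/-- membership of a node (a list in reverse order) in the tree coded by `x`. -/
def InT (x : C) : List ℕ → Prop
  | [] => True
  | n :: s => x (Encodable.encode (n :: s)) = 1 ∧ InT x s

/-- `t` is a child of `s` in the tree coded by `x`. -/
def Ch (x : C) (t s : List ℕ) : Prop := (∃ n, t = n :: s) ∧ InT x t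

/-- well-founded trees. -/
def WFT (x : C) : Prop := WellFounded (Ch x)

open Classical in
/-- the rank of a node. -/
noncomputable def rkn (x : C) (s : List ℕ) : Ordinal.{0} :=
  if h : WFT x then (h.apply s).rank else 0

/-- the rank of a tree. -/
noncomputable def rk (x : C) : Ordinal.{0} := rkn x []

lemma rkn_lt {x : C} (hx : WFT x) {t s : List ℕ} (h : Ch x t s) : rkn x t < rkn x s := by
  unfold rkn
  rw [dif_pos hx, dif_pos hx]
  exact Acc.rank_lt_of_rel (hx.apply s) h

lemma rkn_le {x : C} (hx : WFT x) {s : List ℕ} {o : Ordinal.{0}}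
    (h : ∀ t, Ch x t s → rkn x t < o) : rkn x s ≤ o := by
  unfold rkn at h ⊢
  rw [dif_pos hx]
  simp only [dif_pos hx] at h
  rw [Acc.rank_eq]
  exact Ordinal.iSup_le fun t => Order.succ_le_of_lt (h t.1 t.2)

/-- witnesses for ill-foundedness. -/
def Ill (x : C) (f : ℕ → ℕ) : Prop :=
  ∀ k, Ch x (Denumerable.ofNat (List ℕ) (f (k + 1))) (Denumerable.ofNat (List ℕ) (f k))

lemma not_wft_iff {x : C} : ¬ WFT x ↔ ∃ f, Ill x f := by
  constructor
  · intro h
    have h' : ¬ WellFounded (Ch x) := h
    rw [wellFounded_iff_isEmpty_descending_chain] at h'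
    rw [not_isEmpty_iff] at h'
    obtain ⟨f, hf⟩ := h'
    refine ⟨fun k => Encodable.encode (f k), fun k => ?_⟩
    rw [Denumerable.ofNat_encode, Denumerable.ofNat_encode]
    exact hf k
  · rintro ⟨f, hf⟩ h
    have h' : WellFounded (Ch x) := h
    rw [wellFounded_iff_isEmpty_descending_chain] at h'
    exact h'.false ⟨fun k => Denumerable.ofNat (List ℕ) (f k), hf⟩

/-- witnesses for comparison of ranks. -/
def Sim (x y : C) (g : ℕ → ℕ) : Prop :=
  Denumerable.ofNat (List ℕ) (g (Encodable.encode ([] : List ℕ))) = [] ∧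
    ∀ (s : List ℕ) (n : ℕ), InT x (n :: s) →
      Ch y (Denumerable.ofNat (List ℕ) (g (Encodable.encode (n :: s))))
        (Denumerable.ofNat (List ℕ) (g (Encodable.encode s)))

lemma rk_le_of_sim {x y : C} (hx : WFT x) (hy : WFT y) {g : ℕ → ℕ} (h : Sim x y g) :
    rk x ≤ rk y := by
  have key : ∀ s, rkn x s ≤ rkn y (Denumerable.ofNat (List ℕ) (g (Encodable.encode s))) := by
    intro s
    induction s using hx.induction with
    | h s ih =>
      refine rkn_le hx fun t ht => ?_
      refine (ih t ht).trans_lt ?_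
      obtain ⟨⟨n, rfl⟩, hT⟩ := ht
      exact rkn_lt hy (h.2 s n hT)
  have := key []
  rwa [h.1] at this

lemma exists_sim {x y : C} (hx : WFT x) (hy : WFT y) (h : rk x ≤ rk y) : ∃ g, Sim x y g := by
  classical
  -- the simulation by recursion
  let G : List ℕ → List ℕ := fun s => List.rec [] (fun n s' r =>
    if h : ∃ t, Ch y t r ∧ rkn x (n :: s') ≤ rkn y t then h.choose else r) s
  have G0 : G [] = [] := rfl
  have Gs : ∀ n s, G (n :: s) = if h : ∃ t, Ch y t (G s) ∧ rkn x (n :: s) ≤ rkn y t then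
      h.choose else G s := fun n s => rfl
  have ex : ∀ n s, InT x (n :: s) → rkn x s ≤ rkn y (G s) →
      ∃ t, Ch y t (G s) ∧ rkn x (n :: s) ≤ rkn y t := by
    intro n s hT hle
    by_contra hcon
    push Not at hcon
    have h1 : rkn y (G s) ≤ rkn x (n :: s) := rkn_le hy hcon
    have h2 : rkn x (n :: s) < rkn x s := rkn_lt hx ⟨⟨n, rfl⟩, hT⟩
    exact absurd (h2.trans_le (hle.trans h1)) (lt_irrefl _)
  have inv : ∀ s, InT x s → rkn x s ≤ rkn y (G s) := by
    intro s
    induction s with
    | nil => intro _; exact h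
    | cons n s ih =>
      intro hT
      have hex := ex n s hT (ih hT.2)
      rw [Gs, dif_pos hex]
      exact hex.choose_spec.2
  refine ⟨fun m => Encodable.encode (G (Denumerable.ofNat (List ℕ) m)), ?_, ?_⟩
  · simp only [Denumerable.ofNat_encode]
    exact G0
  · intro s n hT
    simp only [Denumerable.ofNat_encode]
    have hex := ex n s hT (inv s hT.2)
    rw [Gs, dif_pos hex]
    exact hex.choose_spec.1

/-- witnesses for the failure of having different ranks. -/
def Wit (x y : C) (w : (ℕ → ℕ) × (ℕ → ℕ)) : Prop :=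
  Ill x w.1 ∨ Ill y w.1 ∨ (Sim x y w.1 ∧ Sim y x w.2)

/-- both trees are well-founded, with different ranks. -/
def Gr (x y : C) : Prop := WFT x ∧ WFT y ∧ rk x ≠ rk y

lemma Gr.symm {x y : C} (h : Gr x y) : Gr y x := ⟨h.2.1, h.1, h.2.2.symm⟩

lemma not_Gr_iff {x y : C} : ¬ Gr x y ↔ ∃ w, Wit x y w := by
  constructor
  · intro h
    by_cases hx : WFT x
    · by_cases hy : WFT y
      · have he : rk x = rk y := by
          by_contra hne
          exact h ⟨hx, hy, hne⟩
        obtain ⟨g1, h1⟩ := exists_sim hx hy he.le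
        obtain ⟨g2, h2⟩ := exists_sim hy hx he.ge
        exact ⟨(g1, g2), Or.inr (Or.inr ⟨h1, h2⟩)⟩
      · obtain ⟨f, hf⟩ := not_wft_iff.1 hy
        exact ⟨(f, f), Or.inr (Or.inl hf)⟩
    · obtain ⟨f, hf⟩ := not_wft_iff.1 hx
      exact ⟨(f, f), Or.inl hf⟩
  · rintro ⟨w, hw | hw | ⟨h1, h2⟩⟩ ⟨hx, hy, hne⟩
    · exact not_wft_iff.2 ⟨_, hw⟩ hx
    · exact not_wft_iff.2 ⟨_, hw⟩ hy
    · exact hne (le_antisymm (rk_le_of_sim hx hy h1) (rk_le_of_sim hy hx h2))

/-! ### Measurability -/

section Meas

variable {Y : Type} [TopologicalSpace Y] [MeasurableSpace Y] [BorelSpace Y]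

lemma clopen_coord {X : Y → C} (hX : Continuous X) (n : ℕ) (b : ZMod 2) :
    MeasurableSet {p | X p n = b} :=
  (isClosed_eq ((continuous_apply n).comp hX) continuous_const).measurableSet

lemma meas_nat {W : Y → ℕ → ℕ} (hW : Continuous W) (n a : ℕ) :
    MeasurableSet {p | W p n = a} :=
  (isClosed_eq ((continuous_apply n).comp hW) continuous_const).measurableSet

lemma meas_InT {X : Y → C} (hX : Continuous X) (t : List ℕ) :
    MeasurableSet {p | InT (X p) t} := by
  induction t with
  | nil => exact MeasurableSet.univ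
  | cons n s ih => exact (clopen_coord hX _ 1).inter ih

lemma meas_Ch {X : Y → C} (hX : Continuous X) (t s : List ℕ) :
    MeasurableSet {p | Ch (X p) t s} := (MeasurableSet.const _).inter (meas_InT hX t)

lemma meas_Ch' {X : Y → C} (hX : Continuous X) {W : Y → ℕ → ℕ} (hW : Continuous W)
    (i j : ℕ) : MeasurableSet {p | Ch (X p) (Denumerable.ofNat (List ℕ) (W p i))
      (Denumerable.ofNat (List ℕ) (W p j))} := by
  have e : {p | Ch (X p) (Denumerable.ofNat (List ℕ) (W p i))
      (Denumerable.ofNat (List ℕ) (W p j))} = ⋃ a, ⋃ b, ({p | W p i = a} ∩ {p | W p j = b}) ∩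
        {p | Ch (X p) (Denumerable.ofNat (List ℕ) a) (Denumerable.ofNat (List ℕ) b)} := by
    ext p
    simp only [mem_iUnion]
    constructor
    · intro h
      exact ⟨W p i, W p j, ⟨rfl, rfl⟩, h⟩
    · rintro ⟨a, b, ⟨h1, h2⟩, h3⟩
      have h1' : W p i = a := h1
      have h2' : W p j = b := h2
      show Ch (X p) (Denumerable.ofNat (List ℕ) (W p i)) (Denumerable.ofNat (List ℕ) (W p j))
      rw [h1', h2']
      exact h3
  rw [e]
  exact MeasurableSet.iUnion fun a => MeasurableSet.iUnion fun b =>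
    ((meas_nat hW i a).inter (meas_nat hW j b)).inter (meas_Ch hX _ _)

lemma meas_Ill {X : Y → C} (hX : Continuous X) {W : Y → ℕ → ℕ} (hW : Continuous W) :
    MeasurableSet {p | Ill (X p) (W p)} := by
  have e : {p | Ill (X p) (W p)} = ⋂ k, {p | Ch (X p)
      (Denumerable.ofNat (List ℕ) (W p (k + 1))) (Denumerable.ofNat (List ℕ) (W p k))} := by
    ext p
    simp only [mem_iInter]
    rfl
  rw [e]
  exact MeasurableSet.iInter fun k => meas_Ch' hX hW _ _

lemma meas_Sim {X Z : Y → C} (hX : Continuous X) (hZ : Continuous Z) {W : Y → ℕ → ℕ}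
    (hW : Continuous W) : MeasurableSet {p | Sim (X p) (Z p) (W p)} := by
  have e : {p | Sim (X p) (Z p) (W p)} =
      {p | Denumerable.ofNat (List ℕ) (W p (Encodable.encode ([] : List ℕ))) = []} ∩
      ⋂ s : List ℕ, ⋂ n : ℕ, ({p | InT (X p) (n :: s)}ᶜ ∪
        {p | Ch (Z p) (Denumerable.ofNat (List ℕ) (W p (Encodable.encode (n :: s))))
          (Denumerable.ofNat (List ℕ) (W p (Encodable.encode s)))}) := by
    ext p
    simp only [mem_inter_iff, mem_iInter, mem_union, mem_compl_iff]
    constructor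
    · rintro ⟨h1, h2⟩
      refine ⟨h1, fun s n => ?_⟩
      by_cases hT : InT (X p) (n :: s)
      · exact Or.inr (h2 s n hT)
      · exact Or.inl hT
    · rintro ⟨h1, h2⟩
      refine ⟨h1, fun s n hT => ?_⟩
      rcases h2 s n with h | h
      · exact absurd hT h
      · exact h
  rw [e]
  refine MeasurableSet.inter ?_ (MeasurableSet.iInter fun s => MeasurableSet.iInter fun n =>
    (meas_InT hX _).compl.union (meas_Ch' hZ hW _ _))
  have e2 : {p | Denumerable.ofNat (List ℕ) (W p (Encodable.encode ([] : List ℕ))) = []} =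
      ⋃ a, {p | W p (Encodable.encode ([] : List ℕ)) = a} ∩
        {_p | Denumerable.ofNat (List ℕ) a = []} := by
    ext p
    simp only [mem_iUnion]
    constructor
    · intro h
      exact ⟨_, rfl, h⟩
    · rintro ⟨a, h1, h2⟩
      have h1' : W p (Encodable.encode ([] : List ℕ)) = a := h1
      show Denumerable.ofNat (List ℕ) (W p (Encodable.encode ([] : List ℕ))) = []
      rw [h1']
      exact h2
  rw [e2]
  exact MeasurableSet.iUnion fun a => (meas_nat hW _ a).inter (MeasurableSet.const _)

lemma meas_Wit {X Z : Y → C} (hX : Continuous X) (hZ : Continuous Z)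
    {W : Y → (ℕ → ℕ) × (ℕ → ℕ)} (hW : Continuous W) :
    MeasurableSet {p | Wit (X p) (Z p) (W p)} :=
  (meas_Ill hX (continuous_fst.comp hW)).union ((meas_Ill hZ (continuous_fst.comp hW)).union
    ((meas_Sim hX hZ (continuous_fst.comp hW)).inter (meas_Sim hZ hX (continuous_snd.comp hW))))

end Meas

/-! ### Compact sets of well-founded trees -/

lemma InT_cons {x : C} {n : ℕ} {s : List ℕ} (h : InT x (n :: s)) : InT x s := h.2

lemma isClosed_InT (t : List ℕ) : IsClosed {x : C | InT x t} := by
  induction t with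
  | nil => exact isClosed_univ
  | cons n s ih => exact (isClosed_eq (continuous_apply _) continuous_const).inter ih

lemma rank_lt_omega_one {r : List ℕ → List ℕ → Prop} (hr : WellFounded r) (s : List ℕ) :
    (hr.apply s).rank < ω_ 1 := by
  induction s using hr.induction with
  | h s ih =>
    rw [Acc.rank_eq]
    refine Ordinal.iSup_lt_omega_one fun t => ?_
    have h1 := ih t.1 t.2
    exact (Cardinal.isSuccLimit_omega 1).succ_lt h1

lemma countable_Iio {lam : Ordinal.{0}} (h : lam < ω_ 1) : (Set.Iio lam).Countable := by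
  rw [← Cardinal.le_aleph0_iff_set_countable, Cardinal.mk_Iio_ordinal]
  simp only [Cardinal.lift_le_aleph0]
  rw [← Cardinal.ord_aleph, Cardinal.lt_ord, Cardinal.lt_aleph_one_iff] at h
  exact h

/-- the ranks of the trees in a closed set of well-founded trees are bounded. -/
lemma countable_ranks {Q : Set C} (hQ : IsClosed Q) (hWF : ∀ x ∈ Q, WFT x) :
    (rk '' Q).Countable := by
  let r : List ℕ → List ℕ → Prop := fun t s => ∃ x ∈ Q, Ch x t s
  have hr : WellFounded r := by
    rw [wellFounded_iff_isEmpty_descending_chain]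
    refine ⟨?_⟩
    rintro ⟨f, hf⟩
    let F : ℕ → Set C := fun k => {x | x ∈ Q ∧ InT x (f (k + 1))}
    have hcons : ∀ k, ∃ n, f (k + 1) = n :: f k := fun k => by
      obtain ⟨x, -, ⟨n, hn⟩, -⟩ := hf k
      exact ⟨n, hn⟩
    have hanti : ∀ k, F (k + 1) ⊆ F k := by
      rintro k x ⟨h1, h2⟩
      obtain ⟨n, hn⟩ := hcons (k + 1)
      rw [hn] at h2
      exact ⟨h1, h2.2⟩
    have hne : ∀ k, (F k).Nonempty := fun k => by
      obtain ⟨x, hx, -, hT⟩ := hf k
      exact ⟨x, hx, hT⟩
    obtain ⟨x, hx⟩ := IsCompact.nonempty_iInter_of_sequence_nonempty_isCompact_isClosed F hanti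
      hne (hQ.inter (isClosed_InT _)).isCompact (fun k => hQ.inter (isClosed_InT _))
    rw [mem_iInter] at hx
    refine not_wft_iff.2 ⟨fun k => Encodable.encode (f k), fun k => ?_⟩ (hWF x (hx 0).1)
    rw [Denumerable.ofNat_encode, Denumerable.ofNat_encode]
    exact ⟨hcons k, (hx k).2⟩
  have hle : ∀ x ∈ Q, ∀ s, rkn x s ≤ (hr.apply s).rank := by
    intro x hx s
    induction s using hr.induction with
    | h s ih =>
      refine rkn_le (hWF x hx) fun t ht => ?_
      exact (ih t ⟨x, hx, ht⟩).trans_lt (Acc.rank_lt_of_rel (hr.apply s) ⟨x, hx, ht⟩)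
  refine (countable_Iio ((Cardinal.isSuccLimit_omega 1).succ_lt
    (rank_lt_omega_one hr []))).mono ?_
  rintro - ⟨x, hx, rfl⟩
  exact Order.lt_succ_of_le (hle x hx [])

/-! ### Trees of large rank -/

lemma exists_larger (f : ℕ → C) (hf : ∀ n, WFT (f n)) : ∃ y, WFT y ∧ ∀ n, rk (f n) < rk y := by
  classical
  let y : C := fun m =>
    let t := Denumerable.ofNat (List ℕ) m
    if t.dropLast = [] then 1 else f (t.getLastD 0) (Encodable.encode t.dropLast)
  have hy1 : ∀ (n : ℕ) (s : List ℕ), s ≠ [] → y (Encodable.encode (s ++ [n])) = f n (Encodable.encode s) := by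
    intro n s hs
    simp only [y, Denumerable.ofNat_encode]
    rw [List.dropLast_concat, if_neg hs]
    simp
  have hy0 : ∀ n : ℕ, y (Encodable.encode [n]) = 1 := by
    intro n
    simp only [y, Denumerable.ofNat_encode]
    simp
  have hT : ∀ n s, InT y (s ++ [n]) ↔ InT (f n) s := by
    intro n s
    induction s with
    | nil =>
      constructor
      · intro _; trivial
      · intro _; exact ⟨hy0 n, trivial⟩
    | cons a s ih =>
      show (y (Encodable.encode (a :: (s ++ [n]))) = 1 ∧ InT y (s ++ [n])) ↔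
        (f n (Encodable.encode (a :: s)) = 1 ∧ InT (f n) s)
      rw [ih]
      have := hy1 n (a :: s) (by simp)
      rw [List.cons_append] at this
      rw [this]
  have hCh : ∀ n t s, Ch (f n) t s ↔ Ch y (t ++ [n]) (s ++ [n]) := by
    intro n t s
    unfold Ch
    rw [hT]
    refine and_congr_left fun _ => ?_
    constructor
    · rintro ⟨a, rfl⟩
      exact ⟨a, rfl⟩
    · rintro ⟨a, ha⟩
      refine ⟨a, ?_⟩
      have : t ++ [n] = (a :: s) ++ [n] := ha
      exact List.append_cancel_right this
  have hWF : WFT y := by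
    by_contra hcon
    obtain ⟨g, hg⟩ := not_wft_iff.1 hcon
    -- the last entry is constant from the first step on
    obtain ⟨n, s, hs⟩ : ∃ n s, Denumerable.ofNat (List ℕ) (g 1) = s ++ [n] := by
      obtain ⟨⟨a, ha⟩, -⟩ := hg 0
      have hne : Denumerable.ofNat (List ℕ) (g 1) ≠ [] := by
        intro h0
        rw [zero_add, h0] at ha
        exact absurd ha (by simp)
      exact ⟨_, _, (List.dropLast_append_getLast hne).symm⟩
    have hall : ∀ k, ∃ s, Denumerable.ofNat (List ℕ) (g (k + 1)) = s ++ [n] := by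
      intro k
      induction k with
      | zero => exact ⟨s, hs⟩
      | succ k ih =>
        obtain ⟨s', hs'⟩ := ih
        obtain ⟨⟨a, ha⟩, -⟩ := hg (k + 1)
        exact ⟨a :: s', by rw [ha, hs']; rfl⟩
    choose S hS using hall
    refine not_wft_iff.2 ⟨fun k => Encodable.encode (S k), fun k => ?_⟩ (hf n)
    rw [Denumerable.ofNat_encode, Denumerable.ofNat_encode, hCh, ← hS, ← hS]
    exact hg (k + 1)
  refine ⟨y, hWF, fun n => ?_⟩
  have hle : ∀ s, rkn (f n) s ≤ rkn y (s ++ [n]) := by
    intro s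
    induction s using (hf n).induction with
    | h s ih =>
      refine rkn_le (hf n) fun t ht => ?_
      exact (ih t ht).trans_lt (rkn_lt hWF ((hCh n t s).1 ht))
  refine (hle []).trans_lt ?_
  refine rkn_lt hWF ⟨⟨n, rfl⟩, ?_⟩
  exact (hT n []).2 trivial

end Q215.TR
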