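import Pool.Agent.TH87.RVC.Main

set_option autoImplicit false
set_option linter.unusedSectionVars false

/-!
Counting pairs of nonadjacent vertices by the number of vertices which distinguish them.
-/

namespace Pool.Agent.Q215.Tw

open Finset Classical
open Pool.Agent.H234RC (Hypo NonIso)

variable {V : Type} [Fintype V]

/-- the vertices of `S` which distinguish `u` and `v` -/
noncomputable def df (K : SimpleGraph V) (S : Finset V) (u v : V) : Finset V :=
  S.filter (fun z => z ≠ u ∧ z ≠ v ∧ ¬ (K.Adj u z ↔ K.Adj v z))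

/-- pairs of nonadjacent vertices of `S` distinguished by exactly `j` vertices of `S` -/
noncomputable def NPs (K : SimpleGraph V) (S : Finset V) (j : ℕ) : Finset (V × V) :=
  (S ×ˢ S).filter (fun p => p.1 ≠ p.2 ∧ ¬ K.Adj p.1 p.2 ∧ (df K S p.1 p.2).card = j)

theorem df_erase (K : SimpleGraph V) (y u v : V) :
    df K (univ.erase y) u v = (df K univ u v).erase y := by
  ext z
  simp only [df, mem_filter, mem_erase, mem_univ, and_true, true_and]

theorem df_card_le (K : SimpleGraph V) (u v : V) (huv : u ≠ v) :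
    (df K univ u v).card + 2 ≤ Fintype.card V := by
  have h1 : Disjoint (df K univ u v) {u, v} := by
    rw [disjoint_left]
    intro z hz hz2
    simp only [df, mem_filter, mem_univ, true_and] at hz
    rw [mem_insert, mem_singleton] at hz2
    rcases hz2 with h | h
    · exact hz.1 h
    · exact hz.2.1 h
  have h2 := card_le_univ (df K univ u v ∪ {u, v})
  rw [card_union_of_disjoint h1, card_pair huv] at h2
  exact h2

theorem count_y (K : SimpleGraph V) (u v : V) (huv : u ≠ v) (j : ℕ) :
    (univ.filter (fun y => u ≠ y ∧ v ≠ y ∧ ((df K univ u v).erase y).card = j)).card =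
      (if (df K univ u v).card = j then Fintype.card V - 2 - j else 0) +
        (if (df K univ u v).card = j + 1 then j + 1 else 0) := by
  set D := df K univ u v with hD
  have hDu : u ∉ D := by simp [hD, df]
  have hDv : v ∉ D := by simp [hD, df]
  have hle := df_card_le K u v huv
  rw [← hD] at hle
  have hsplit : (univ.filter (fun y => u ≠ y ∧ v ≠ y ∧ (D.erase y).card = j)) =
      ((univ \ (D ∪ {u, v})).filter (fun _ => D.card = j)) ∪
        (D.filter (fun _ => D.card = j + 1)) := by
    ext y
    simp only [mem_filter, mem_univ, true_and, mem_union, mem_sdiff, mem_insert, mem_singleton,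
      not_or]
    by_cases hy : y ∈ D
    · have h1 : (D.erase y).card + 1 = D.card := card_erase_add_one hy
      have h2 : u ≠ y := fun h => hDu (h ▸ hy)
      have h3 : v ≠ y := fun h => hDv (h ▸ hy)
      simp only [hy, not_true, false_and, false_or, true_and, h2, h3, ne_eq, not_false_eq_true]
      omega
    · rw [erase_eq_of_notMem hy]
      simp only [hy, not_false_eq_true, true_and, false_and, or_false]
      constructor
      · rintro ⟨h1, h2, h3⟩
        exact ⟨⟨fun h => h1 h.symm, fun h => h2 h.symm⟩, h3⟩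
      · rintro ⟨⟨h1, h2⟩, h3⟩
        exact ⟨fun h => h1 h.symm, fun h => h2 h.symm, h3⟩
  have hdisj : Disjoint ((univ \ (D ∪ {u, v})).filter (fun _ => D.card = j))
      (D.filter (fun _ => D.card = j + 1)) := by
    rw [disjoint_left]
    intro z hz hz2
    simp only [mem_filter, mem_sdiff, mem_union, not_or] at hz hz2
    exact hz.1.2.1 hz2.1
  rw [hsplit, card_union_of_disjoint hdisj]
  congr 1
  · by_cases h : D.card = j
    · rw [if_pos h, filter_true_of_mem (fun _ _ => h), card_univ_sdiff, card_union_of_disjoint,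
        card_pair huv]
      · omega
      · rw [disjoint_left]
        intro z hz hz2
        rw [mem_insert, mem_singleton] at hz2
        rcases hz2 with h | h
        · exact hDu (h ▸ hz)
        · exact hDv (h ▸ hz)
    · rw [if_neg h, filter_false_of_mem (fun _ _ => h), card_empty]
  · by_cases h : D.card = j + 1
    · rw [if_pos h, filter_true_of_mem (fun _ _ => h), h]
    · rw [if_neg h, filter_false_of_mem (fun _ _ => h), card_empty]

theorem kelly_np (K : SimpleGraph V) (j : ℕ) :
    ∑ y, (NPs K (univ.erase y) j).card =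
      (Fintype.card V - 2 - j) * (NPs K univ j).card + (j + 1) * (NPs K univ (j + 1)).card := by
  have h1 : ∀ y, (NPs K (univ.erase y) j).card =
      ∑ p : V × V, if (p.1 ≠ y ∧ p.2 ≠ y ∧ p.1 ≠ p.2 ∧ ¬ K.Adj p.1 p.2 ∧
        ((df K univ p.1 p.2).erase y).card = j) then 1 else 0 := by
    intro y
    rw [← card_filter]
    congr 1
    ext p
    simp only [NPs, mem_filter, mem_product, mem_erase, mem_univ, and_true, true_and, df_erase]
    tauto
  simp_rw [h1]
  rw [sum_comm]
  have h2 : ∀ p : V × V, (∑ y, if (p.1 ≠ y ∧ p.2 ≠ y ∧ p.1 ≠ p.2 ∧ ¬ K.Adj p.1 p.2 ∧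
        ((df K univ p.1 p.2).erase y).card = j) then 1 else 0) =
      (if (p ∈ NPs K univ j) then (Fintype.card V - 2 - j) else 0) +
      (if (p ∈ NPs K univ (j + 1)) then (j + 1) else 0) := by
    intro p
    by_cases hp : p.1 ≠ p.2 ∧ ¬ K.Adj p.1 p.2
    · rw [← card_filter]
      have h3 : (univ.filter (fun y => p.1 ≠ y ∧ p.2 ≠ y ∧ p.1 ≠ p.2 ∧ ¬ K.Adj p.1 p.2 ∧
        ((df K univ p.1 p.2).erase y).card = j)) =
        (univ.filter (fun y => p.1 ≠ y ∧ p.2 ≠ y ∧ ((df K univ p.1 p.2).erase y).card = j)) := by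
        ext y
        simp only [mem_filter, mem_univ, true_and]
        tauto
      rw [h3, count_y K p.1 p.2 hp.1 j]
      simp only [NPs, mem_filter, mem_product, mem_univ, true_and, hp.1, hp.2,
        not_false_eq_true, ne_eq]
    · have h3 : ∀ i, p ∉ NPs K univ i := by
        intro i hi
        simp only [NPs, mem_filter] at hi
        exact hp ⟨hi.2.1, hi.2.2.1⟩
      rw [if_neg (h3 _), if_neg (h3 _)]
      apply sum_eq_zero
      intro y _
      rw [if_neg]
      rintro ⟨_, _, h4, h5, _⟩
      exact hp ⟨h4, h5⟩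
  simp_rw [h2]
  rw [sum_add_distrib, ← sum_filter, ← sum_filter, sum_const, sum_const, smul_eq_mul,
    smul_eq_mul]
  simp only [filter_univ_mem]
  ring

theorem np_card {G H : SimpleGraph V} {π : V → Equiv.Perm V} (hH : Hypo G H π) (y : V) (j : ℕ) :
    (NPs G (univ.erase y) j).card = (NPs H (univ.erase y) j).card := by
  have hne : ∀ x, π y x ≠ y ↔ x ≠ y := by
    intro x
    constructor
    · intro h h'
      apply h
      rw [h', hH.fix]
    · intro h h'
      apply h
      apply (π y).injective
      rw [h', hH.fix]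
  have hdf : ∀ u v, u ≠ y → v ≠ y → (df H (univ.erase y) (π y u) (π y v)).card =
      (df G (univ.erase y) u v).card := by
    intro u v hu hv
    have : df H (univ.erase y) (π y u) (π y v) =
        (df G (univ.erase y) u v).map (π y).toEmbedding := by
      ext z
      rw [mem_map]
      constructor
      · intro hz
        refine ⟨(π y).symm z, ?_, by simp⟩
        simp only [df, mem_filter, mem_erase, mem_univ, and_true] at hz ⊢
        obtain ⟨h1, h2, h3, h4⟩ := hz
        have hzz : π y ((π y).symm z) = z := by simp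
        have h1' : (π y).symm z ≠ y := by
          rw [← hne]; rw [hzz]; exact h1
        refine ⟨h1', ?_, ?_, ?_⟩
        · intro h; apply h2; rw [← h, hzz]
        · intro h; apply h3; rw [← h, hzz]
        · rw [← hH.adj y _ _ hu h1', ← hH.adj y _ _ hv h1', hzz]
          exact h4
      · rintro ⟨x, hx, rfl⟩
        simp only [df, mem_filter, mem_erase, mem_univ, and_true] at hx ⊢
        obtain ⟨h1, h2, h3, h4⟩ := hx
        refine ⟨(hne x).mpr h1, ?_, ?_, ?_⟩
        · intro h; exact h2 ((π y).injective h)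
        · intro h; exact h3 ((π y).injective h)
        · show ¬ (H.Adj (π y u) (π y x) ↔ H.Adj (π y v) (π y x))
          rw [hH.adj y _ _ hu h1, hH.adj y _ _ hv h1]
          exact h4
    rw [this, card_map]
  apply card_bij (fun p _ => (π y p.1, π y p.2))
  · intro p hp
    simp only [NPs, mem_filter, mem_product, mem_erase, mem_univ, and_true] at hp ⊢
    obtain ⟨⟨h1, h2⟩, h3, h4, h5⟩ := hp
    refine ⟨⟨(hne _).mpr h1, (hne _).mpr h2⟩, fun h => h3 ((π y).injective h), ?_, ?_⟩
    · rw [hH.adj y _ _ h1 h2]; exact h4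
    · rw [hdf _ _ h1 h2]; exact h5
  · intro p _ q _ hpq
    rw [Prod.mk.injEq] at hpq
    exact Prod.ext ((π y).injective hpq.1) ((π y).injective hpq.2)
  · intro q hq
    refine ⟨((π y).symm q.1, (π y).symm q.2), ?_, by simp⟩
    simp only [NPs, mem_filter, mem_product, mem_erase, mem_univ, and_true] at hq ⊢
    obtain ⟨⟨h1, h2⟩, h3, h4, h5⟩ := hq
    have e1 : π y ((π y).symm q.1) = q.1 := by simp
    have e2 : π y ((π y).symm q.2) = q.2 := by simp
    have h1' : (π y).symm q.1 ≠ y := by rw [← hne, e1]; exact h1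
    have h2' : (π y).symm q.2 ≠ y := by rw [← hne, e2]; exact h2
    refine ⟨⟨h1', h2'⟩, fun h => h3 ((π y).symm.injective h), ?_, ?_⟩
    · rw [← hH.adj y _ _ h1' h2', e1, e2]; exact h4
    · rw [← hdf _ _ h1' h2', e1, e2]; exact h5

theorem np_sum (K : SimpleGraph V) (N : ℕ) :
    ∑ j ∈ range N, (NPs K univ j).card ≤ Fintype.card V * Fintype.card V - Fintype.card V := by
  have h1 : (univ : Finset V).offDiag.card = Fintype.card V * Fintype.card V - Fintype.card V := by
    rw [offDiag_card, card_univ]
  rw [← h1, ← card_biUnion]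
  · apply card_le_card
    intro p hp
    rw [mem_biUnion] at hp
    obtain ⟨j, _, hj⟩ := hp
    simp only [NPs, mem_filter] at hj
    rw [mem_offDiag]
    exact ⟨mem_univ _, mem_univ _, hj.2.1⟩
  · intro i _ j _ hij
    show Disjoint (NPs K univ i) (NPs K univ j)
    rw [disjoint_left]
    intro p hp hp2
    simp only [NPs, mem_filter] at hp hp2
    exact hij (hp.2.2.2.symm.trans hp2.2.2.2)

theorem pow_gt (n : ℕ) (hn : 10 ≤ n) : 2 * (n * n - n) < 2 ^ (n - 2) := by
  induction n, hn using Nat.le_induction with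
  | base => norm_num
  | succ n hn ih =>
    have e1 : n + 1 - 2 = (n - 2) + 1 := by omega
    rw [e1, pow_succ]
    have e2 : (n + 1) * (n + 1) - (n + 1) = n * n + n := by
      have : (n + 1) * (n + 1) = n * n + n + (n + 1) := by ring
      omega
    rw [e2]
    obtain ⟨m, hm⟩ : ∃ m, n = m + 10 := ⟨n - 10, by omega⟩
    have e3 : n * n - n = (m + 10) * (m + 9) := by
      have : n * n = (m + 10) * (m + 9) + n := by rw [hm]; ring
      omega
    rw [e3] at ih
    have e4 : n * n + n = (m + 10) * (m + 11) := by rw [hm]; ring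
    rw [e4]
    nlinarith

theorem np_zero {G H : SimpleGraph V} {π : V → Equiv.Perm V} (hH : Hypo G H π)
    (hn : 10 ≤ Fintype.card V) : (NPs G univ 0).card = (NPs H univ 0).card := by
  set n := Fintype.card V with hnn
  set D : ℕ → ℤ := fun j => ((NPs G univ j).card : ℤ) - (NPs H univ j).card with hD
  have hrec : ∀ j, j ≤ n - 2 → ((j : ℤ) + 1) * D (j + 1) = - (((n - 2 - j : ℕ) : ℤ) * D j) := by
    intro j hj
    have h1 := kelly_np G j
    have h2 := kelly_np H j
    have h3 : ∑ y, (NPs G (univ.erase y) j).card = ∑ y, (NPs H (univ.erase y) j).card :=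
      sum_congr rfl (fun y _ => np_card hH y j)
    rw [h1, h2] at h3
    have h4 := congrArg (fun k : ℕ => (k : ℤ)) h3
    simp only [Nat.cast_add, Nat.cast_mul] at h4
    simp only [hD]
    push_cast at h4 ⊢
    linarith
  have hsol : ∀ j, j ≤ n - 2 → D j = (-1) ^ j * ((n - 2).choose j : ℤ) * D 0 := by
    intro j
    induction j with
    | zero => intro _; simp
    | succ j ih =>
      intro hj
      have h1 := hrec j (by omega)
      rw [ih (by omega)] at h1
      have h2 := Nat.choose_succ_right_eq (n - 2) j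
      have h3 := congrArg (fun k : ℕ => (k : ℤ)) h2
      simp only [Nat.cast_mul] at h3
      have h4 : ((j : ℤ) + 1) ≠ 0 := by positivity
      apply mul_left_cancel₀ h4
      rw [h1, pow_succ]
      push_cast at h3 ⊢
      linear_combination (-1 : ℤ) ^ j * D 0 * h3
  by_contra hne
  have hD0 : D 0 ≠ 0 := by
    intro h
    apply hne
    simp only [hD] at h
    omega
  have h1 : ∑ j ∈ range (n - 2 + 1), |D j| ≤ 2 * ((n * n - n : ℕ) : ℤ) := by
    have h2 : ∑ j ∈ range (n - 2 + 1), |D j| ≤ ∑ j ∈ range (n - 2 + 1),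
        (((NPs G univ j).card : ℤ) + (NPs H univ j).card) := by
      apply sum_le_sum
      intro j _
      rw [abs_le]
      simp only [hD]
      constructor <;> omega
    rw [sum_add_distrib] at h2
    have h3 : ∑ j ∈ range (n - 2 + 1), ((NPs G univ j).card : ℤ) ≤ ((n * n - n : ℕ) : ℤ) := by
      exact_mod_cast np_sum G (n - 2 + 1)
    have h4 : ∑ j ∈ range (n - 2 + 1), ((NPs H univ j).card : ℤ) ≤ ((n * n - n : ℕ) : ℤ) := by
      exact_mod_cast np_sum H (n - 2 + 1)
    linarith
  have h5 : ∑ j ∈ range (n - 2 + 1), |D j| = (2 : ℤ) ^ (n - 2) * |D 0| := by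
    have h6 : ∀ j ∈ range (n - 2 + 1), |D j| = ((n - 2).choose j : ℤ) * |D 0| := by
      intro j hj
      rw [mem_range] at hj
      rw [hsol j (by omega), abs_mul, abs_mul, abs_pow]
      simp
    rw [sum_congr rfl h6, ← sum_mul]
    congr 1
    exact_mod_cast Nat.sum_range_choose (n - 2)
  have h7 : (1 : ℤ) ≤ |D 0| := Int.one_le_abs hD0
  have h8 : (2 : ℤ) * ((n * n - n : ℕ) : ℤ) < 2 ^ (n - 2) := by exact_mod_cast pow_gt n hn
  have h9 : (2 : ℤ) ^ (n - 2) ≤ 2 ^ (n - 2) * |D 0| := by
    have : (0 : ℤ) < 2 ^ (n - 2) := by positivity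
    nlinarith
  linarith

end Pool.Agent.Q215.Tw
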