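import Pool.Agent.Q215.TwA

set_option autoImplicit false
set_option linter.unusedSectionVars false
set_option linter.dupNamespace false

/-!
The number of the vertices with the same neighbours as `v` is reconstructible at `v`; the gap
criterion.
-/

namespace Pool.Agent.Q215.Tw

open Finset Classical
open Pool.Agent.H234RC (Hypo NonIso)
open Pool.Agent.TH87.RVC (dS dS_erase dS_card dS_eq)

variable {V : Type} [Fintype V]

/-- the same neighbours -/
def Tw (K : SimpleGraph V) (u v : V) : Prop := ∀ z, K.Adj u z ↔ K.Adj v z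

theorem Tw.rfl' (K : SimpleGraph V) (u : V) : Tw K u u := fun _ => Iff.rfl

theorem Tw.symm {K : SimpleGraph V} {u v : V} (h : Tw K u v) : Tw K v u := fun z => (h z).symm

theorem Tw.trans {K : SimpleGraph V} {u v w : V} (h : Tw K u v) (h' : Tw K v w) : Tw K u w :=
  fun z => (h z).trans (h' z)

theorem Tw.not_adj {K : SimpleGraph V} {u v : V} (h : Tw K u v) : ¬ K.Adj u v := by
  intro h1
  exact (K.irrefl ((h v).mp h1))

/-- the number of the vertices with the same neighbours as `v` -/
noncomputable def sz (K : SimpleGraph V) (v : V) : ℕ := (univ.filter (fun u => Tw K v u)).card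

theorem sz_pos (K : SimpleGraph V) (v : V) : 1 ≤ sz K v :=
  Nat.succ_le_of_lt (card_pos.mpr ⟨v, by simp [Tw.rfl']⟩)

theorem sz_congr {K : SimpleGraph V} {u v : V} (h : Tw K u v) : sz K u = sz K v := by
  unfold sz
  congr 1
  ext z
  simp only [mem_filter, mem_univ, true_and]
  exact ⟨fun h' => h.symm.trans h', fun h' => h.trans h'⟩

theorem exists_twin {K : SimpleGraph V} {v : V} (h : 2 ≤ sz K v) : ∃ u, u ≠ v ∧ Tw K v u := by
  obtain ⟨u, hu, hne⟩ := exists_mem_ne (show 1 < (univ.filter (fun u => Tw K v u)).card from h) v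
  exact ⟨u, hne, (mem_filter.mp hu).2⟩

/-- twin pairs which avoid `y` -/
noncomputable def TP (K : SimpleGraph V) (y : V) : Finset (V × V) :=
  univ.filter (fun p => p.1 ≠ y ∧ p.2 ≠ y ∧ p.1 ≠ p.2 ∧ Tw K p.1 p.2)

theorem mem_np_univ (K : SimpleGraph V) (p : V × V) :
    p ∈ NPs K univ 0 ↔ p.1 ≠ p.2 ∧ Tw K p.1 p.2 := by
  simp only [NPs, mem_filter, mem_product, mem_univ, true_and, card_eq_zero, df,
    filter_eq_empty_iff]
  constructor
  · rintro ⟨h1, h2, h3⟩
    refine ⟨h1, fun z => ?_⟩
    by_cases hz1 : z = p.1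
    · subst hz1
      constructor
      · intro h; exact absurd h (K.irrefl)
      · intro h; exact absurd h.symm h2
    · by_cases hz2 : z = p.2
      · subst hz2
        constructor
        · intro h; exact absurd h h2
        · intro h; exact absurd h (K.irrefl)
      · by_contra h4
        exact h3 (x := z) trivial ⟨hz1, hz2, h4⟩
  · rintro ⟨h1, h2⟩
    exact ⟨h1, h2.not_adj, fun z _ h => h.2.2 (h2 z)⟩

theorem np_univ_card (K : SimpleGraph V) (y : V) :
    (NPs K univ 0).card = (TP K y).card + 2 * (sz K y - 1) := by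
  set A := ((univ.filter (fun u => Tw K y u)).erase y) with hA
  have hAc : A.card = sz K y - 1 := by
    rw [hA, card_erase_of_mem (by simp [Tw.rfl'])]
    rfl
  have hsplit : NPs K univ 0 = TP K y ∪ (({y} : Finset V) ×ˢ A ∪ A ×ˢ ({y} : Finset V)) := by
    ext p
    rw [mem_np_univ]
    simp only [TP, hA, mem_union, mem_filter, mem_univ, true_and, mem_product, mem_singleton,
      mem_erase]
    by_cases h1 : p.1 = y
    · by_cases h2 : p.2 = y
      · simp [h1, h2]
      · simp only [h1, h2, ne_eq, not_true, false_and, not_false_eq_true, true_and, false_or,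
          and_false, or_false]
        exact ⟨fun h => h.2, fun h => ⟨fun h' => h2 h'.symm, h⟩⟩
    · by_cases h2 : p.2 = y
      · simp only [h1, h2, ne_eq, not_true, false_and, not_false_eq_true, true_and, false_or,
          and_false, and_true]
        exact ⟨fun h => h.symm, fun h => h.symm⟩
      · simp only [h1, h2, ne_eq, not_false_eq_true, true_and, false_and, and_false, or_false]
  have hd1 : Disjoint (({y} : Finset V) ×ˢ A) (A ×ˢ ({y} : Finset V)) := by
    rw [disjoint_left]
    intro p hp hp2
    simp only [hA, mem_product, mem_singleton, mem_erase] at hp hp2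
    exact hp2.1.1 hp.1
  have hd2 : Disjoint (TP K y) (({y} : Finset V) ×ˢ A ∪ A ×ˢ ({y} : Finset V)) := by
    rw [disjoint_left]
    intro p hp hp2
    simp only [TP, mem_filter] at hp
    simp only [mem_union, mem_product, mem_singleton] at hp2
    rcases hp2 with h | h
    · exact hp.2.1 h.1
    · exact hp.2.2.1 h.2
  rw [hsplit, card_union_of_disjoint hd2, card_union_of_disjoint hd1, card_product, card_product,
    card_singleton, hAc]
  ring

/-- a vertex with a twin distinguishes no pair of nonadjacent vertices alone -/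
theorem no_new {K : SimpleGraph V} {y y' u v : V} (hy : Tw K y y') (hne : y' ≠ y)
    (hu : u ≠ y) (hv : v ≠ y) (h : ∀ z, z ≠ y → (K.Adj u z ↔ K.Adj v z)) : Tw K u v := by
  intro z
  by_cases hz : z = y
  · subst hz
    rw [K.adj_comm u, K.adj_comm v, hy u, hy v, K.adj_comm y' u, K.adj_comm y' v]
    exact h y' hne
  · exact h z hz

theorem tp_sub (K : SimpleGraph V) (y : V) : TP K y ⊆ NPs K (univ.erase y) 0 := by
  intro p hp
  simp only [TP, mem_filter, mem_univ, true_and] at hp
  simp only [NPs, mem_filter, mem_product, mem_erase, mem_univ, and_true, card_eq_zero, df,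
    filter_eq_empty_iff]
  exact ⟨⟨hp.1, hp.2.1⟩, hp.2.2.1, hp.2.2.2.not_adj, fun z _ h => h.2.2 (hp.2.2.2 z)⟩

theorem tp_eq (K : SimpleGraph V) (y : V) (hy : 2 ≤ sz K y) :
    TP K y = NPs K (univ.erase y) 0 := by
  apply Subset.antisymm (tp_sub K y)
  obtain ⟨y', hne, hy'⟩ := exists_twin hy
  intro p hp
  simp only [NPs, mem_filter, mem_product, mem_erase, mem_univ, and_true, card_eq_zero, df,
    filter_eq_empty_iff] at hp
  simp only [TP, mem_filter, mem_univ, true_and]
  obtain ⟨⟨h1, h2⟩, h3, h4, h5⟩ := hp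
  refine ⟨h1, h2, h3, no_new hy' hne h1 h2 ?_⟩
  intro z hz
  by_cases hz1 : z = p.1
  · subst hz1
    constructor
    · intro h; exact absurd h (K.irrefl)
    · intro h; exact absurd h.symm h4
  · by_cases hz2 : z = p.2
    · subst hz2
      constructor
      · intro h; exact absurd h h4
      · intro h; exact absurd h (K.irrefl)
    · by_contra h6
      exact h5 hz ⟨hz1, hz2, h6⟩

theorem sz_eq {G H : SimpleGraph V} {π : V → Equiv.Perm V} (hH : Hypo G H π)
    (hn : 10 ≤ Fintype.card V) (y : V) : sz G y = sz H y := by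
  have h0 := np_zero hH hn
  have hy := np_card hH y 0
  have g1 := np_univ_card G y
  have g2 := np_univ_card H y
  have g3 := card_le_card (tp_sub G y)
  have g4 := card_le_card (tp_sub H y)
  have g5 : 2 ≤ sz G y → (TP G y).card = (NPs G (univ.erase y) 0).card := fun h => by
    rw [tp_eq G y h]
  have g6 : 2 ≤ sz H y → (TP H y).card = (NPs H (univ.erase y) 0).card := fun h => by
    rw [tp_eq H y h]
  have g7 := sz_pos G y
  have g8 := sz_pos H y
  by_cases a : 2 ≤ sz G y
  · by_cases b : 2 ≤ sz H y
    · have := g5 a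
      have := g6 b
      omega
    · have := g5 a
      omega
  · by_cases b : 2 ≤ sz H y
    · have := g6 b
      omega
    · omega

theorem perm_ne {G H : SimpleGraph V} {π : V → Equiv.Perm V} (hH : Hypo G H π) (y x : V) :
    π y x ≠ y ↔ x ≠ y := by
  constructor
  · intro h h'
    apply h
    rw [h', hH.fix]
  · intro h h'
    apply h
    apply (π y).injective
    rw [h', hH.fix]

theorem symm_ne {G H : SimpleGraph V} {π : V → Equiv.Perm V} (hH : Hypo G H π) (y x : V)
    (hx : x ≠ y) : (π y).symm x ≠ y := by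
  rw [← perm_ne hH y, Equiv.apply_symm_apply]
  exact hx

/-- the card isomorphism at a vertex with a twin preserves the twin relation -/
theorem tw_iff {G H : SimpleGraph V} {π : V → Equiv.Perm V} (hH : Hypo G H π)
    (hn : 10 ≤ Fintype.card V) (y : V) (hy : 2 ≤ sz G y) (u v : V) (hu : u ≠ y) (hv : v ≠ y) :
    Tw H (π y u) (π y v) ↔ Tw G u v := by
  obtain ⟨y1, hne1, hy1⟩ := exists_twin hy
  have hy' : 2 ≤ sz H y := by rwa [← sz_eq hH hn y]
  obtain ⟨y2, hne2, hy2⟩ := exists_twin hy'
  constructor
  · intro h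
    apply no_new hy1 hne1 hu hv
    intro z hz
    rw [← hH.adj y u z hu hz, ← hH.adj y v z hv hz]
    exact h _
  · intro h
    apply no_new hy2 hne2 ((perm_ne hH y u).mpr hu) ((perm_ne hH y v).mpr hv)
    intro z hz
    have hz' := symm_ne hH y z hz
    have e : π y ((π y).symm z) = z := by simp
    rw [← e, hH.adj y _ _ hu hz', hH.adj y _ _ hv hz']
    exact h _

/-- sizes of the classes in the cards -/
theorem class_card {G H : SimpleGraph V} {π : V → Equiv.Perm V} (hH : Hypo G H π)
    (hn : 10 ≤ Fintype.card V) (y : V) (hy : 2 ≤ sz G y) (u : V) (hu : u ≠ y) :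
    sz G u + (if Tw H y (π y u) then 1 else 0) = sz H (π y u) + (if Tw G y u then 1 else 0) := by
  have h1 : ∀ (K : SimpleGraph V) (w : V),
      sz K w = ((univ.erase y).filter (fun x => Tw K w x)).card + (if Tw K y w then 1 else 0) := by
    intro K w
    unfold sz
    have : univ.filter (fun x => Tw K w x) = ((univ.erase y).filter (fun x => Tw K w x)) ∪
        (({y} : Finset V).filter (fun _ => Tw K y w)) := by
      ext x
      simp only [mem_filter, mem_univ, true_and, mem_union, mem_erase, and_true, mem_singleton]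
      by_cases hx : x = y
      · subst hx
        simp only [ne_eq, not_true, false_and, false_or, true_and]
        exact ⟨fun h => h.symm, fun h => h.symm⟩
      · simp [hx]
    rw [this, card_union_of_disjoint]
    · congr 1
      rw [filter_singleton]
      split_ifs <;> simp
    · rw [disjoint_left]
      intro x hx hx2
      simp only [mem_filter, mem_erase, mem_singleton] at hx hx2
      exact hx.1.1 hx2.1
  have h2 : ((univ.erase y).filter (fun x => Tw G u x)).card =
      ((univ.erase y).filter (fun x => Tw H (π y u) x)).card := by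
    rw [← card_map (π y).toEmbedding]
    congr 1
    ext x
    simp only [mem_map, mem_filter, mem_erase, mem_univ, and_true]
    constructor
    · rintro ⟨z, ⟨hz1, hz2⟩, rfl⟩
      exact ⟨(perm_ne hH y z).mpr hz1, (tw_iff hH hn y hy u z hu hz1).mpr hz2⟩
    · rintro ⟨hx1, hx2⟩
      refine ⟨(π y).symm x, ⟨symm_ne hH y x hx1, ?_⟩, by simp⟩
      rw [← tw_iff hH hn y hy u _ hu (symm_ne hH y x hx1), Equiv.apply_symm_apply]
      exact hx2
  rw [h1 G u, h1 H (π y u), h2]
  ring

theorem iso_of_twin {G H : SimpleGraph V} {π : V → Equiv.Perm V} (hH : Hypo G H π) (v v' : V)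
    (hne : v' ≠ v) (hG : Tw G v v') (hHt : Tw H v (π v v')) : ¬ NonIso G H := by
  intro hN
  apply hN
  refine ⟨π v, ?_⟩
  have key : ∀ y, y ≠ v → (H.Adj (π v v) (π v y) ↔ G.Adj v y) := by
    intro y hy
    rw [hH.fix, hHt, hH.adj v v' y hne hy]
    exact (hG y).symm
  intro x y
  by_cases hx : x = v
  · by_cases hy : y = v
    · subst hx; subst hy
      simp
    · subst hx
      exact key y hy
  · by_cases hy : y = v
    · subst hy
      rw [H.adj_comm, G.adj_comm]
      exact key x hx
    · exact hH.adj v x y hx hy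

/-- the gap criterion -/
theorem gap {G H : SimpleGraph V} {π : V → Equiv.Perm V} (hH : Hypo G H π)
    (hn : 10 ≤ Fintype.card V) (hN : NonIso G H) (v : V) (hv : 2 ≤ sz G v) :
    ∃ u, sz G u + 1 = sz G v ∧ (dS G univ u = dS G univ v ∨ dS G univ u = dS G univ v + 1) := by
  obtain ⟨v', hne, hv'⟩ := exists_twin hv
  have hnt : ¬ Tw H v (π v v') := fun h => iso_of_twin hH v v' hne hv' h hN
  have h1 := class_card hH hn v hv v' hne
  rw [if_neg hnt, if_pos hv', ← sz_eq hH hn, ← sz_congr hv'] at h1
  refine ⟨π v v', by omega, ?_⟩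
  have hdeg : ∀ x, dS G univ x = dS H univ x := fun x =>
    dS_eq hH univ (fun _ _ _ _ => mem_univ _) (by rw [card_univ]; omega) x (mem_univ x)
  have h2 := dS_erase H (π v v') v
  have h3 := dS_card hH v' v hne
  have h4 := dS_erase G v' v
  have h5 : dS G univ v' = dS G univ v := by
    unfold dS
    congr 1
    ext z
    simp only [mem_filter, mem_univ, true_and]
    exact (hv' z).symm
  have h6 : ¬ G.Adj v' v := hv'.symm.not_adj
  rw [if_neg h6] at h4
  rw [hdeg (π v v')]
  have h7 : (if H.Adj (π v v') v then 1 else 0) ≤ 1 := by split_ifs <;> omega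
  omega

end Pool.Agent.Q215.Tw
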