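import Pool.Agent.Q215.TwB

set_option autoImplicit false
set_option linter.unusedSectionVars false

/-!
The multisets of the repeated neighbourhoods: the quotient criterion.
-/

namespace Pool.Agent.Q215.Tw

open Finset Classical
open Pool.Agent.H234RC (Hypo NonIso)
open Pool.Agent.TH87.RVC (FF FF_inv del kelly_sum supp_bound hh)

variable {V X : Type} [Fintype V] [Fintype X]

/-- `ρ` is a presentation of `K` by the relation `R` on the classes -/
structure Pres (K : SimpleGraph V) (R : X → X → Prop) (ρ : V → X) : Prop where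
  surj : Function.Surjective ρ
  adj : ∀ u v, R (ρ u) (ρ v) ↔ K.Adj u v
  tw : ∀ u v, ρ u = ρ v ↔ Tw K u v

/-- the automorphisms of a relation -/
def AutR (R : X → X → Prop) : Subgroup (Equiv.Perm X) where
  carrier := {γ | ∀ a b, R (γ a) (γ b) ↔ R a b}
  mul_mem' := by
    intro γ δ h1 h2 a b
    rw [Equiv.Perm.mul_apply, Equiv.Perm.mul_apply, h1, h2]
  one_mem' := by
    intro a b
    rfl
  inv_mem' := by
    intro γ h a b
    have := h (γ.symm a) (γ.symm b)
    rw [Equiv.apply_symm_apply, Equiv.apply_symm_apply] at this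
    exact this.symm

/-- one less than the size of the class -/
noncomputable def wt (ρ : V → X) (x : X) : ℕ := (univ.filter (fun u => ρ u = x)).card - 1

theorem fib_card {K : SimpleGraph V} {R : X → X → Prop} {ρ : V → X} (h : Pres K R ρ) (v : V) :
    (univ.filter (fun u => ρ u = ρ v)).card = sz K v := by
  unfold sz
  congr 1
  ext u
  simp only [mem_filter, mem_univ, true_and]
  rw [h.tw]
  exact ⟨fun h => h.symm, fun h => h.symm⟩

theorem wt_eq {K : SimpleGraph V} {R : X → X → Prop} {ρ : V → X} (h : Pres K R ρ) (v : V) :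
    wt ρ (ρ v) = sz K v - 1 := by
  unfold wt
  rw [fib_card h]

theorem fib_pos {ρ : V → X} (h : Function.Surjective ρ) (x : X) :
    (univ.filter (fun u => ρ u = x)).card = wt ρ x + 1 := by
  unfold wt
  obtain ⟨u, hu⟩ := h x
  have : 0 < (univ.filter (fun u => ρ u = x)).card := card_pos.mpr ⟨u, by simp [hu]⟩
  omega

theorem wt_sum {ρ : V → X} (h : Function.Surjective ρ) :
    ∑ x, wt ρ x + Fintype.card X = Fintype.card V := by
  have h1 : Fintype.card V = ∑ x, (univ.filter (fun u => ρ u = x)).card := by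
    rw [← card_univ, card_eq_sum_card_fiberwise (f := ρ) (t := univ) (fun _ _ => by simp)]
  rw [h1, sum_congr rfl (fun x _ => fib_pos h x), sum_add_distrib]
  simp

/-- a weighted sum over the vertices -/
theorem wsum {K : SimpleGraph V} {R : X → X → Prop} {ρ : V → X} (h : Pres K R ρ) (f : X → ℝ) :
    ∑ y : V, (((sz K y : ℝ) - 1) / (sz K y : ℝ)) * f (ρ y) = ∑ x, (wt ρ x : ℝ) * f x := by
  rw [← Finset.sum_fiberwise univ ρ]
  apply sum_congr rfl
  intro x _
  have h1 : ∀ y ∈ univ.filter (fun y => ρ y = x),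
      (((sz K y : ℝ) - 1) / (sz K y : ℝ)) * f (ρ y) =
        ((wt ρ x : ℝ) / ((wt ρ x : ℝ) + 1)) * f x := by
    intro y hy
    rw [mem_filter] at hy
    have h2 := fib_card h y
    rw [hy.2, fib_pos h.surj] at h2
    rw [← h2, hy.2]
    push_cast
    ring
  rw [sum_congr rfl h1, sum_const, fib_pos h.surj, nsmul_eq_mul]
  have h3 : ((wt ρ x : ℝ) + 1) ≠ 0 := by positivity
  push_cast
  field_simp

theorem supp_sum {K : SimpleGraph V} {R : X → X → Prop} {ρ : V → X} (h : Pres K R ρ) :
    ((univ.filter (fun x => wt ρ x ≠ 0)).card : ℝ) =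
      ∑ y : V, if 2 ≤ sz K y then 1 / (sz K y : ℝ) else 0 := by
  rw [← Finset.sum_fiberwise univ ρ, card_filter]
  push_cast
  apply sum_congr rfl
  intro x _
  have h1 : ∀ y ∈ univ.filter (fun y => ρ y = x),
      (if 2 ≤ sz K y then 1 / (sz K y : ℝ) else 0) =
        if wt ρ x ≠ 0 then 1 / ((wt ρ x : ℝ) + 1) else 0 := by
    intro y hy
    rw [mem_filter] at hy
    have h2 := fib_card h y
    rw [hy.2, fib_pos h.surj] at h2
    rw [← h2]
    by_cases h3 : wt ρ x = 0
    · rw [if_neg (by omega), if_neg (by simpa using h3)]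
    · rw [if_pos (by omega), if_pos h3]
      push_cast
      rfl
  rw [sum_congr rfl h1, sum_const, fib_pos h.surj, nsmul_eq_mul]
  have h3 : ((wt ρ x : ℝ) + 1) ≠ 0 := by positivity
  by_cases h4 : wt ρ x = 0
  · rw [if_neg (by simpa using h4), if_neg (by simpa using h4)]
    simp
  · rw [if_pos h4, if_pos h4]
    push_cast
    field_simp

/-- equivalent weights give isomorphic graphs -/
theorem iso_of_equiv {G H : SimpleGraph V} {R : X → X → Prop} {ρ τ : V → X} (h : Pres G R ρ)
    (h' : Pres H R τ) (γ : AutR R) (hγ : ∀ x, wt τ ((γ : Equiv.Perm X) x) = wt ρ x) :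
    ¬ NonIso G H := by
  intro hN
  apply hN
  have hcard : ∀ c : X, Fintype.card {u : V // (γ : Equiv.Perm X) (ρ u) = c} =
      Fintype.card {u : V // τ u = c} := by
    intro c
    rw [Fintype.card_subtype, Fintype.card_subtype]
    have e1 : (univ.filter (fun u : V => (γ : Equiv.Perm X) (ρ u) = c)) =
        univ.filter (fun u => ρ u = (γ : Equiv.Perm X).symm c) := by
      ext u
      simp only [mem_filter, mem_univ, true_and]
      exact (Equiv.eq_symm_apply _).symm
    rw [e1, fib_pos h.surj, fib_pos h'.surj, ← hγ, Equiv.apply_symm_apply]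
  let σ : V ≃ V := Equiv.ofFiberEquiv (f := fun u => (γ : Equiv.Perm X) (ρ u)) (g := τ)
    (fun c => Fintype.equivOfCardEq (hcard c))
  have hσ : ∀ u, τ (σ u) = (γ : Equiv.Perm X) (ρ u) := fun u =>
    Equiv.ofFiberEquiv_map _ u
  refine ⟨σ, fun x y => ?_⟩
  rw [← h'.adj, ← h.adj, hσ, hσ]
  exact γ.2 _ _

/-- the graph `H` is presented by the same relation -/
theorem exists_pres {G H : SimpleGraph V} {π : V → Equiv.Perm V} (hH : Hypo G H π)
    (hn : 10 ≤ Fintype.card V) {R : X → X → Prop} {ρ : V → X} (h : Pres G R ρ)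
    (y : V) (hy : 2 ≤ sz G y) : ∃ τ : V → X, Pres H R τ ∧ ∀ u, u ≠ y → τ (π y u) = ρ u := by
  obtain ⟨y1, hne1, hy1⟩ := exists_twin hy
  have hy' : 2 ≤ sz H y := by rwa [← sz_eq hH hn y]
  obtain ⟨y2, hne2, hy2⟩ := exists_twin hy'
  -- a twin in `H` of `z` different from `y`
  let g : V → V := fun z => if z = y then y2 else z
  have hg1 : ∀ z, g z ≠ y := by
    intro z
    show (if z = y then y2 else z) ≠ y
    split_ifs with hz
    · exact hne2
    · exact hz
  have hg2 : ∀ z, Tw H z (g z) := by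
    intro z
    show Tw H z (if z = y then y2 else z)
    split_ifs with hz
    · rw [hz]; exact hy2
    · exact Tw.rfl' H z
  let k : V → V := fun z => (π y).symm (g z)
  have hk1 : ∀ z, k z ≠ y := fun z => symm_ne hH y _ (hg1 z)
  have hk2 : ∀ z, π y (k z) = g z := fun z => Equiv.apply_symm_apply _ _
  refine ⟨fun z => ρ (k z), ⟨?_, ?_, ?_⟩, ?_⟩
  · intro x
    obtain ⟨u, hu⟩ := h.surj x
    obtain ⟨u', hu', hne⟩ : ∃ u', ρ u' = x ∧ u' ≠ y := by
      by_cases h1 : u = y
      · refine ⟨y1, ?_, hne1⟩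
        rw [← hu, h1]
        exact (h.tw _ _).mpr hy1.symm
      · exact ⟨u, hu, h1⟩
    refine ⟨π y u', ?_⟩
    have h1 : g (π y u') = π y u' := by
      show (if π y u' = y then y2 else π y u') = π y u'
      rw [if_neg ((perm_ne hH y u').mpr hne)]
    show ρ ((π y).symm (g (π y u'))) = x
    rw [h1, Equiv.symm_apply_apply]
    exact hu'
  · intro u v
    rw [h.adj, ← hH.adj y _ _ (hk1 u) (hk1 v), hk2, hk2, ← hg2 u, H.adj_comm, ← hg2 v,
      H.adj_comm]
  · intro u v
    rw [h.tw, ← tw_iff hH hn y hy _ _ (hk1 u) (hk1 v), hk2, hk2]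
    exact ⟨fun h1 => (hg2 u).trans (h1.trans (hg2 v).symm),
      fun h1 => (hg2 u).symm.trans (h1.trans (hg2 v))⟩
  · intro u hu
    have h1 : g (π y u) = π y u := by
      show (if π y u = y then y2 else π y u) = π y u
      rw [if_neg ((perm_ne hH y u).mpr hu)]
    show ρ ((π y).symm (g (π y u))) = ρ u
    rw [h1, Equiv.symm_apply_apply]

/-- the card isomorphism at `y` induces an automorphism of the relation -/
theorem exists_aut {G H : SimpleGraph V} {π : V → Equiv.Perm V} (hH : Hypo G H π)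
    (hn : 10 ≤ Fintype.card V) {R : X → X → Prop} {ρ τ : V → X} (h : Pres G R ρ)
    (h' : Pres H R τ) (y : V) (hy : 2 ≤ sz G y) :
    ∃ γ : AutR R, ∀ u, u ≠ y → τ (π y u) = (γ : Equiv.Perm X) (ρ u) := by
  obtain ⟨y1, hne1, hy1⟩ := exists_twin hy
  have hrep : ∀ x, ∃ u, ρ u = x ∧ u ≠ y := by
    intro x
    obtain ⟨u, hu⟩ := h.surj x
    by_cases h1 : u = y
    · refine ⟨y1, ?_, hne1⟩
      rw [← hu, h1]
      exact (h.tw _ _).mpr hy1.symm
    · exact ⟨u, hu, h1⟩
  choose r hr1 hr2 using hrep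
  let f : X → X := fun x => τ (π y (r x))
  have hf : ∀ u, u ≠ y → f (ρ u) = τ (π y u) := by
    intro u hu
    show τ (π y (r (ρ u))) = _
    rw [h'.tw, tw_iff hH hn y hy _ _ (hr2 _) hu, ← h.tw, hr1]
  have hinj : Function.Injective f := by
    intro a b hab
    have h1 : τ (π y (r a)) = τ (π y (r b)) := hab
    rw [h'.tw, tw_iff hH hn y hy _ _ (hr2 _) (hr2 _), ← h.tw, hr1, hr1] at h1
    exact h1
  have hbij : Function.Bijective f := Finite.injective_iff_bijective.mp hinj
  refine ⟨⟨Equiv.ofBijective f hbij, ?_⟩, ?_⟩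
  · intro a b
    show R (τ (π y (r a))) (τ (π y (r b))) ↔ R a b
    rw [h'.adj, hH.adj y _ _ (hr2 _) (hr2 _), ← h.adj, hr1, hr1]
  · intro u hu
    exact (hf u hu).symm

theorem del_wt {G H : SimpleGraph V} {π : V → Equiv.Perm V} (hH : Hypo G H π)
    (hn : 10 ≤ Fintype.card V) {R : X → X → Prop} {ρ τ : V → X} (h : Pres G R ρ)
    (h' : Pres H R τ) (y : V) (hy : 2 ≤ sz G y) :
    ∃ γ : AutR R, ∀ x, del (wt τ) (τ y) ((γ : Equiv.Perm X) x) = del (wt ρ) (ρ y) x := by
  obtain ⟨γ, hγ⟩ := exists_aut hH hn h h' y hy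
  refine ⟨γ, fun x => ?_⟩
  obtain ⟨y1, hne1, hy1⟩ := exists_twin hy
  obtain ⟨u, hux, huy⟩ : ∃ u, ρ u = x ∧ u ≠ y := by
    obtain ⟨u, hu⟩ := h.surj x
    by_cases h1 : u = y
    · refine ⟨y1, ?_, hne1⟩
      rw [← hu, h1]
      exact (h.tw _ _).mpr hy1.symm
    · exact ⟨u, hu, h1⟩
  have h1 := class_card hH hn y hy u huy
  rw [← hux, ← hγ u huy]
  unfold del
  rw [wt_eq h, wt_eq h']
  have e1 : (τ (π y u) = τ y) ↔ Tw H y (π y u) := by
    rw [h'.tw]; exact ⟨fun h => h.symm, fun h => h.symm⟩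
  have e2 : (ρ u = ρ y) ↔ Tw G y u := by
    rw [h.tw]; exact ⟨fun h => h.symm, fun h => h.symm⟩
  simp only [e1, e2]
  have g1 := sz_pos G u
  have g2 := sz_pos H (π y u)
  by_cases a : Tw H y (π y u)
  · by_cases b : Tw G y u
    · simp only [a, b, if_true] at h1 ⊢
      omega
    · simp only [a, b, if_true, if_false] at h1 ⊢
      omega
  · by_cases b : Tw G y u
    · simp only [a, b, if_true, if_false] at h1 ⊢
      omega
    · simp only [a, b, if_false] at h1 ⊢
      omega

theorem ff_eq {G H : SimpleGraph V} {π : V → Equiv.Perm V} (hH : Hypo G H π)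
    (hn : 10 ≤ Fintype.card V) {R : X → X → Prop} {ρ τ : V → X} (h : Pres G R ρ)
    (h' : Pres H R τ) (c : X → ℕ) (hc : ∑ x, c x < Fintype.card V - Fintype.card X) :
    FF (AutR R).subtype c (wt ρ) = FF (AutR R).subtype c (wt τ) := by
  have h1 := kelly_sum (AutR R).subtype c (wt ρ)
  have h2 := kelly_sum (AutR R).subtype c (wt τ)
  rw [← wsum h (fun x => FF (AutR R).subtype c (del (wt ρ) x))] at h1
  rw [← wsum h' (fun x => FF (AutR R).subtype c (del (wt τ) x))] at h2
  have h3 : ∀ y : V, (((sz G y : ℝ) - 1) / (sz G y : ℝ)) *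
        FF (AutR R).subtype c (del (wt ρ) (ρ y)) =
      (((sz H y : ℝ) - 1) / (sz H y : ℝ)) * FF (AutR R).subtype c (del (wt τ) (τ y)) := by
    intro y
    rw [← sz_eq hH hn y]
    by_cases hy : 2 ≤ sz G y
    · congr 1
      obtain ⟨γ, hγ⟩ := del_wt hH hn h h' y hy
      rw [← FF_inv (AutR R).subtype c (del (wt τ) (τ y)) γ]
      congr 1
      funext x
      exact (hγ x).symm
    · have : sz G y = 1 := by have := sz_pos G y; omega
      rw [this]
      simp
  simp_rw [h3] at h1
  rw [h1] at h2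
  have e1 : (∑ x, (wt ρ x : ℝ)) = (Fintype.card V : ℝ) - Fintype.card X := by
    have := wt_sum h.surj
    have h4 := congrArg (fun k : ℕ => (k : ℝ)) this
    push_cast at h4
    linarith
  have e2 : (∑ x, (wt τ x : ℝ)) = (Fintype.card V : ℝ) - Fintype.card X := by
    have := wt_sum h'.surj
    have h4 := congrArg (fun k : ℕ => (k : ℝ)) this
    push_cast at h4
    linarith
  rw [e1, e2] at h2
  have hne : ((Fintype.card V : ℝ) - Fintype.card X - ∑ z, (c z : ℝ)) ≠ 0 := by
    have h4 : ∑ x, c x + Fintype.card X < Fintype.card V := by omega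
    have h5 : ((∑ x, c x + Fintype.card X : ℕ) : ℝ) < Fintype.card V := by exact_mod_cast h4
    push_cast at h5
    intro h6
    linarith
  exact mul_left_cancel₀ hne h2

/-- the quotient criterion -/
theorem quot_bound {G H : SimpleGraph V} {π : V → Equiv.Perm V} (hH : Hypo G H π)
    (hn : 10 ≤ Fintype.card V) (hN : NonIso G H) {R : X → X → Prop} {ρ : V → X}
    (h : Pres G R ρ) :
    (3 / 2 : ℝ) ^ (univ.filter (fun x => wt ρ x ≠ 0)).card ≤ 2 * Fintype.card (AutR R) := by
  by_cases hy : ∃ y, 2 ≤ sz G y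
  · obtain ⟨y, hy⟩ := hy
    obtain ⟨τ, h', -⟩ := exists_pres hH hn h y hy
    have hw := wt_sum h.surj
    have hw' := wt_sum h'.surj
    have hk := ff_eq hH hn h h'
    have hne : ¬ ∃ γ : AutR R, ∀ x, wt τ ((AutR R).subtype γ x) = wt ρ x := by
      rintro ⟨γ, hγ⟩
      exact iso_of_equiv h h' γ hγ hN
    have hsupp : (univ.filter (fun x => wt τ x ≠ 0)).card =
        (univ.filter (fun x => wt ρ x ≠ 0)).card := by
      have e1 := supp_sum h
      have e2 := supp_sum h'
      have e3 : ∀ y, (if 2 ≤ sz G y then 1 / (sz G y : ℝ) else 0) =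
          (if 2 ≤ sz H y then 1 / (sz H y : ℝ) else 0) := fun y => by rw [sz_eq hH hn y]
      rw [sum_congr rfl (fun y _ => e3 y), ← e2] at e1
      exact_mod_cast e1.symm
    by_cases hP : ∏ x, hh (wt τ x) ≤ ∏ x, hh (wt ρ x)
    · exact supp_bound (AutR R).subtype (wt ρ) (wt τ) (Fintype.card V - Fintype.card X)
        (by omega) (by omega) hk hne hP
    · rw [← hsupp]
      refine supp_bound (AutR R).subtype (wt τ) (wt ρ) (Fintype.card V - Fintype.card X)
        (by omega) (by omega) (fun c hc => (hk c hc).symm) ?_ (not_le.mp hP).le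
      rintro ⟨γ, hγ⟩
      apply hne
      refine ⟨γ⁻¹, fun x => ?_⟩
      have h1 := hγ (((AutR R).subtype γ).symm x)
      rw [Equiv.apply_symm_apply] at h1
      exact h1.symm
  · have : (univ.filter (fun x => wt ρ x ≠ 0)) = ∅ := by
      rw [filter_eq_empty_iff]
      intro x _
      push Not at hy
      obtain ⟨v, rfl⟩ := h.surj x
      rw [wt_eq h]
      have := hy v
      simp
      omega
    rw [this, card_empty, pow_zero]
    have : (1 : ℝ) ≤ Fintype.card (AutR R) := by
      exact_mod_cast Nat.succ_le_of_lt Fintype.card_pos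
    linarith

end Pool.Agent.Q215.Tw
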