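import Pool.Agent.Q215.TwC

set_option autoImplicit false
set_option linter.unusedSectionVars false

/-!
Counting classes of twins; the criteria.
-/

namespace Pool.Agent.Q215.Tw

open Finset Classical
open Pool.Agent.H234RC (Hypo NonIso Reconstructible exists_hypo)
open Pool.Agent.TH87.RVC (dS compl_hypo)

/-- sums of values without a gap -/
theorem gap_sum {X : Type} (w : X → ℕ) (m : ℕ) : ∀ Y : Finset X, Y.card = m →
    (∀ x ∈ Y, 1 ≤ w x) → (∀ x ∈ Y, 2 ≤ w x → ∃ y ∈ Y, w y + 1 = w x) →
    (∀ x ∈ Y, w x ≤ m) ∧ 2 * ∑ x ∈ Y, w x ≤ m * (m + 1) := by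
  induction m with
  | zero =>
    intro Y hY _ _
    rw [card_eq_zero] at hY
    subst hY
    simp
  | succ m ih =>
    intro Y hY h1 h2
    have hne : Y.Nonempty := card_pos.mp (by omega)
    obtain ⟨x0, hx0, hmax⟩ := exists_max_image Y w hne
    have hc : (Y.erase x0).card = m := by rw [card_erase_of_mem hx0]; omega
    obtain ⟨i1, i2⟩ := ih (Y.erase x0) hc (fun x hx => h1 x (mem_erase.mp hx).2) (by
      intro x hx hx2
      obtain ⟨y, hy, hyx⟩ := h2 x (mem_erase.mp hx).2 hx2
      refine ⟨y, mem_erase.mpr ⟨?_, hy⟩, hyx⟩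
      rintro rfl
      have := hmax x (mem_erase.mp hx).2
      omega)
    have hx0m : w x0 ≤ m + 1 := by
      by_cases h3 : 2 ≤ w x0
      · obtain ⟨y, hy, hyx⟩ := h2 x0 hx0 h3
        have h4 : y ∈ Y.erase x0 := mem_erase.mpr ⟨by rintro rfl; omega, hy⟩
        have := i1 y h4
        omega
      · omega
    refine ⟨fun x hx => (hmax x hx).trans hx0m, ?_⟩
    rw [← add_sum_erase Y w hx0]
    nlinarith

variable {V X : Type} [Fintype V] [Fintype X]

/-- few repeated neighbourhoods -/
theorem few_bound {G H : SimpleGraph V} {π : V → Equiv.Perm V} (hH : Hypo G H π)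
    (hn : 10 ≤ Fintype.card V) (hN : NonIso G H) {R : X → X → Prop} {ρ : V → X}
    (h : Pres G R ρ) :
    2 * (Fintype.card V - Fintype.card X) ≤
      (univ.filter (fun x => wt ρ x ≠ 0)).card * ((univ.filter (fun x => wt ρ x ≠ 0)).card + 1) := by
  have h1 := gap_sum (wt ρ) _ (univ.filter (fun x => wt ρ x ≠ 0)) rfl
    (fun x hx => Nat.one_le_iff_ne_zero.mpr (mem_filter.mp hx).2) (by
      intro x hx hx2
      obtain ⟨v, rfl⟩ := h.surj x
      rw [wt_eq h] at hx2
      obtain ⟨u, hu, -⟩ := gap hH hn hN v (by omega)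
      refine ⟨ρ u, ?_, ?_⟩
      · rw [mem_filter, wt_eq h]
        exact ⟨mem_univ _, by omega⟩
      · rw [wt_eq h, wt_eq h]
        omega)
  have h2 : ∑ x ∈ univ.filter (fun x => wt ρ x ≠ 0), wt ρ x = ∑ x, wt ρ x :=
    sum_filter_ne_zero univ
  have h3 := wt_sum h.surj
  have h4 : Fintype.card V - Fintype.card X = ∑ x, wt ρ x := by omega
  rw [h4, ← h2]
  exact h1.2

/-- the standard presentation -/
def rho (G : SimpleGraph V) (v : V) : Set.range G.neighborSet := ⟨G.neighborSet v, v, rfl⟩

/-- the adjacency of neighbourhoods -/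
def relR (G : SimpleGraph V) (S T : Set.range G.neighborSet) : Prop :=
  ∃ u v, G.neighborSet u = S.1 ∧ G.neighborSet v = T.1 ∧ G.Adj u v

theorem nb_eq (G : SimpleGraph V) (u v : V) : G.neighborSet u = G.neighborSet v ↔ Tw G u v := by
  rw [Set.ext_iff]
  rfl

theorem pres (G : SimpleGraph V) : Pres G (relR G) (rho G) := by
  refine ⟨?_, ?_, ?_⟩
  · rintro ⟨S, v, rfl⟩
    exact ⟨v, rfl⟩
  · intro u v
    constructor
    · rintro ⟨u', v', h1, h2, h3⟩
      have h1' : Tw G u' u := (nb_eq G _ _).mp h1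
      have h2' : Tw G v' v := (nb_eq G _ _).mp h2
      rw [← h1', G.adj_comm, ← h2', G.adj_comm]
      exact h3
    · intro h
      exact ⟨u, v, rfl, rfl, h⟩
  · intro u v
    rw [← nb_eq]
    exact Subtype.ext_iff

theorem main_gap (G : SimpleGraph V) (hn : 10 ≤ Fintype.card V)
    (h : ∃ v, 2 ≤ sz G v ∧ ∀ u, sz G u + 1 = sz G v →
      dS G univ u ≠ dS G univ v ∧ dS G univ u ≠ dS G univ v + 1) :
    Reconstructible G ∧ Reconstructible Gᶜ := by
  obtain ⟨v, hv, hu⟩ := h
  constructor
  · by_contra hcon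
    obtain ⟨H, π, hH, hN⟩ := exists_hypo G hcon
    obtain ⟨u, h1, h2⟩ := gap hH hn hN v hv
    obtain ⟨h3, h4⟩ := hu u h1
    rcases h2 with h2 | h2
    · exact h3 h2
    · exact h4 h2
  · by_contra hcon
    obtain ⟨H, π, hH, hN⟩ := exists_hypo Gᶜ hcon
    obtain ⟨hH', hN'⟩ := compl_hypo hH hN
    obtain ⟨u, h1, h2⟩ := gap hH' hn hN' v hv
    obtain ⟨h3, h4⟩ := hu u h1
    rcases h2 with h2 | h2
    · exact h3 h2
    · exact h4 h2

theorem main_top (G : SimpleGraph V) (hn : 10 ≤ Fintype.card V) (e : ℕ)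
    (h1 : ∃ v, dS G univ v = e) (h2 : ∀ v, dS G univ v = e → 2 ≤ sz G v)
    (h3 : ∀ v, dS G univ v ≠ e + 1) :
    Reconstructible G ∧ Reconstructible Gᶜ := by
  obtain ⟨v0, hv0⟩ := h1
  obtain ⟨v, hv, hmin⟩ := exists_min_image (univ.filter (fun v => dS G univ v = e)) (sz G)
    ⟨v0, by simp [hv0]⟩
  have hve : dS G univ v = e := (mem_filter.mp hv).2
  refine main_gap G hn ⟨v, h2 v hve, fun u hu => ?_⟩
  rw [hve]
  refine ⟨fun h4 => ?_, h3 u⟩
  have := hmin u (by simp [h4])
  omega

theorem supp_ncard (w : X → ℕ) :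
    {x | w x ≠ 0}.ncard = (univ.filter (fun x => w x ≠ 0)).card := by
  rw [← Set.ncard_coe_finset]
  congr 1
  ext u
  simp

theorem main_quot (G : SimpleGraph V) (hn : 10 ≤ Fintype.card V) {R : X → X → Prop} {ρ : V → X}
    (h : Pres G R ρ) (hk : 2 * (Nat.card (AutR R) : ℝ) < (3 / 2 : ℝ) ^ {x | wt ρ x ≠ 0}.ncard) :
    Reconstructible G ∧ Reconstructible Gᶜ := by
  rw [supp_ncard, Nat.card_eq_fintype_card] at hk
  constructor
  · by_contra hcon
    obtain ⟨H, π, hH, hN⟩ := exists_hypo G hcon
    have := quot_bound hH hn hN h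
    linarith
  · by_contra hcon
    obtain ⟨H, π, hH, hN⟩ := exists_hypo Gᶜ hcon
    obtain ⟨hH', hN'⟩ := compl_hypo hH hN
    have := quot_bound hH' hn hN' h
    linarith

theorem main_few (G : SimpleGraph V) (hn : 10 ≤ Fintype.card V) {R : X → X → Prop} {ρ : V → X}
    (h : Pres G R ρ) (hk : {x | wt ρ x ≠ 0}.ncard * ({x | wt ρ x ≠ 0}.ncard + 1) +
      2 * Nat.card X < 2 * Fintype.card V) :
    Reconstructible G ∧ Reconstructible Gᶜ := by
  rw [supp_ncard, Nat.card_eq_fintype_card] at hk
  constructor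
  · by_contra hcon
    obtain ⟨H, π, hH, hN⟩ := exists_hypo G hcon
    have := few_bound hH hn hN h
    omega
  · by_contra hcon
    obtain ⟨H, π, hH, hN⟩ := exists_hypo Gᶜ hcon
    obtain ⟨hH', hN'⟩ := compl_hypo hH hN
    have := few_bound hH' hn hN' h
    omega

/-- twins are false or true twins -/
theorem twin_cases (G : SimpleGraph V) (u v : V)
    (h : ∀ z, z ≠ u → z ≠ v → (G.Adj u z ↔ G.Adj v z)) : Tw G u v ∨ Tw Gᶜ u v := by
  by_cases huv : G.Adj u v
  · right
    intro z
    rw [SimpleGraph.compl_adj, SimpleGraph.compl_adj]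
    by_cases h1 : z = u
    · subst h1
      constructor
      · intro h'; exact absurd rfl h'.1
      · intro h'; exact absurd huv.symm h'.2
    · by_cases h2 : z = v
      · subst h2
        constructor
        · intro h'; exact absurd huv h'.2
        · intro h'; exact absurd rfl h'.1
      · rw [h z h1 h2]
        constructor
        · intro h'; exact ⟨fun e => h2 e.symm, h'.2⟩
        · intro h'; exact ⟨fun e => h1 e.symm, h'.2⟩
  · left
    intro z
    by_cases h1 : z = u
    · subst h1
      constructor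
      · intro h'; exact absurd h' (G.irrefl)
      · intro h'; exact absurd h'.symm huv
    · by_cases h2 : z = v
      · subst h2
        constructor
        · intro h'; exact absurd h' huv
        · intro h'; exact absurd h' (G.irrefl)
      · exact h z h1 h2

/-- a vertex has no false twin and true twin simultaneously -/
theorem not_both (G : SimpleGraph V) (a b c : V) (hab : a ≠ b) (hbc : b ≠ c) (h1 : Tw G a b)
    (h2 : Tw Gᶜ b c) : False := by
  by_cases hac : a = c
  · subst hac
    have h3 : G.Adj a b := by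
      by_contra h3
      have : Gᶜ.Adj b a := by
        rw [SimpleGraph.compl_adj]
        exact ⟨hab.symm, fun h => h3 h.symm⟩
      exact h2.not_adj this
    exact h1.not_adj h3
  · -- `b` and `c` are adjacent
    have h3 : G.Adj b c := by
      by_contra h3
      exact h2.not_adj ((SimpleGraph.compl_adj _ _ _).mpr ⟨hbc, h3⟩)
    have h4 : ¬ G.Adj a b := h1.not_adj
    have h5 : G.Adj a c := (h1 c).mpr h3
    have h6 : Gᶜ.Adj b a := (SimpleGraph.compl_adj _ _ _).mpr ⟨hab.symm, fun h => h4 h.symm⟩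
    have h7 : Gᶜ.Adj c a := (h2 a).mp h6
    exact ((SimpleGraph.compl_adj _ _ _).mp h7).2 h5.symm

theorem main_div (G : SimpleGraph V) (hn : 10 ≤ Fintype.card V) (k : ℕ) (f : V → Fin k)
    (hf : ∀ u v, f u = f v → ∀ z, z ≠ u → z ≠ v → (G.Adj u z ↔ G.Adj v z))
    (hk : k * (k + 3) < 2 * Fintype.card V) :
    Reconstructible G ∧ Reconstructible Gᶜ := by
  set ρ1 := rho G with hρ1
  set ρ2 := rho Gᶜ with hρ2
  have p1 : Pres G (relR G) ρ1 := pres G
  have p2 : Pres Gᶜ (relR Gᶜ) ρ2 := pres Gᶜ
  by_contra hcon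
  set Y1 := univ.filter (fun x => wt ρ1 x ≠ 0) with hY1
  set Y2 := univ.filter (fun x => wt ρ2 x ≠ 0) with hY2
  have b1 : 2 * (Fintype.card V - Fintype.card (Set.range G.neighborSet)) ≤
      Y1.card * (Y1.card + 1) := by
    by_contra h
    apply hcon
    apply main_few G hn p1
    rw [supp_ncard, ← hY1, Nat.card_eq_fintype_card]
    omega
  have b2 : 2 * (Fintype.card V - Fintype.card (Set.range Gᶜ.neighborSet)) ≤
      Y2.card * (Y2.card + 1) := by
    by_contra h
    have h3 : Reconstructible Gᶜ ∧ Reconstructible Gᶜᶜ := by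
      apply main_few Gᶜ hn p2
      rw [supp_ncard, ← hY2, Nat.card_eq_fintype_card]
      omega
    rw [compl_compl] at h3
    exact hcon ⟨h3.2, h3.1⟩
  -- representatives
  let r1 := Function.surjInv p1.surj
  let r2 := Function.surjInv p2.surj
  have hr1 : ∀ x, ρ1 (r1 x) = x := Function.surjInv_eq p1.surj
  have hr2 : ∀ x, ρ2 (r2 x) = x := Function.surjInv_eq p2.surj
  -- the classes with at least two elements
  have c1 : ∀ x ∈ Y1, ∃ y, y ≠ r1 x ∧ Tw G (r1 x) y := by
    intro x hx
    have h1 := (mem_filter.mp hx).2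
    rw [← hr1 x, wt_eq p1] at h1
    exact exists_twin (by omega)
  have c2 : ∀ x ∈ Y2, ∃ y, y ≠ r2 x ∧ Tw Gᶜ (r2 x) y := by
    intro x hx
    have h1 := (mem_filter.mp hx).2
    rw [← hr2 x, wt_eq p2] at h1
    exact exists_twin (by omega)
  have b3 : Y1.card + Y2.card ≤ k := by
    have i1 : (Y1.image (fun x => f (r1 x))).card = Y1.card := by
      apply card_image_of_injOn
      intro x hx x' hx' hxx
      obtain ⟨y, hy1, hy2⟩ := c1 x hx
      rw [← hr1 x, ← hr1 x', p1.tw]
      rcases twin_cases G _ _ (hf _ _ hxx) with h | h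
      · exact h
      · by_cases he : r1 x = r1 x'
        · rw [he]; exact Tw.rfl' G _
        · exact (not_both G y (r1 x) (r1 x') hy1 he hy2.symm h).elim
    have i2 : (Y2.image (fun x => f (r2 x))).card = Y2.card := by
      apply card_image_of_injOn
      intro x hx x' hx' hxx
      obtain ⟨y, hy1, hy2⟩ := c2 x hx
      rw [← hr2 x, ← hr2 x', p2.tw]
      rcases twin_cases G _ _ (hf _ _ hxx) with h | h
      · by_cases he : r2 x = r2 x'
        · rw [he]; exact Tw.rfl' _ _
        · exact (not_both G (r2 x') (r2 x) y (fun h => he h.symm) hy1.symm h.symm hy2).elim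
      · exact h
    have i3 : Disjoint (Y1.image (fun x => f (r1 x))) (Y2.image (fun x => f (r2 x))) := by
      rw [disjoint_left]
      intro i hi hi2
      obtain ⟨x, hx, hxi⟩ := mem_image.mp hi
      obtain ⟨x', hx', hxi'⟩ := mem_image.mp hi2
      obtain ⟨y, hy1, hy2⟩ := c1 x hx
      obtain ⟨y', hy1', hy2'⟩ := c2 x' hx'
      rcases twin_cases G _ _ (hf _ _ (hxi.trans hxi'.symm)) with h | h
      · -- `r2 x'` has the false twins of `r1 x`
        by_cases he : r1 x = r2 x'
        · rw [he] at hy1 hy2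
          exact not_both G y (r2 x') y' hy1 hy1'.symm hy2.symm hy2'
        · exact not_both G (r1 x) (r2 x') y' he hy1'.symm h hy2'
      · by_cases he : r1 x = r2 x'
        · rw [he] at hy1 hy2
          exact not_both G y (r2 x') y' hy1 hy1'.symm hy2.symm hy2'
        · exact not_both G y (r1 x) (r2 x') hy1 he hy2.symm h
    rw [← i1, ← i2, ← card_union_of_disjoint i3]
    exact (card_le_univ _).trans (by rw [Fintype.card_fin])
  -- the vertices which are not representatives
  have b4 : Fintype.card V ≤ k + (Fintype.card V - Fintype.card (Set.range G.neighborSet)) +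
      (Fintype.card V - Fintype.card (Set.range Gᶜ.neighborSet)) := by
    set A1 := (univ : Finset (Set.range G.neighborSet)).image r1 with hA1
    set A2 := (univ : Finset (Set.range Gᶜ.neighborSet)).image r2 with hA2
    have j1 : A1.card = Fintype.card (Set.range G.neighborSet) := by
      rw [hA1, card_image_of_injective _ (Function.injective_surjInv p1.surj), card_univ]
    have j2 : A2.card = Fintype.card (Set.range Gᶜ.neighborSet) := by
      rw [hA2, card_image_of_injective _ (Function.injective_surjInv p2.surj), card_univ]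
    have j3 : (A1 ∩ A2).card ≤ k := by
      rw [← Fintype.card_fin k, ← card_univ]
      apply card_le_card_of_injOn f (fun _ _ => by simp)
      intro u hu v hv huv
      rw [mem_coe, mem_inter] at hu hv
      obtain ⟨x1, _, hx1⟩ := mem_image.mp hu.1
      obtain ⟨x2, _, hx2⟩ := mem_image.mp hu.2
      obtain ⟨y1, _, hy1⟩ := mem_image.mp hv.1
      obtain ⟨y2, _, hy2⟩ := mem_image.mp hv.2
      rcases twin_cases G _ _ (hf _ _ huv) with h | h
      · have := (p1.tw u v).mpr h
        rw [← hx1, ← hy1, hr1, hr1] at this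
        rw [← hx1, ← hy1, this]
      · have := (p2.tw u v).mpr h
        rw [← hx2, ← hy2, hr2, hr2] at this
        rw [← hx2, ← hy2, this]
    have j4 := card_union_add_card_inter A1 A2
    have j5 := card_le_univ (A1 ∪ A2)
    have j6 := card_le_univ A1
    have j7 := card_le_univ A2
    omega
  have b5 : Y1.card * (Y1.card + 1) + Y2.card * (Y2.card + 1) ≤ k * (k + 1) := by
    nlinarith
  have b6 : k * (k + 3) = k * (k + 1) + 2 * k := by ring
  omega

end Pool.Agent.Q215.Tw
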