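import Pool.Agent.H38R3.Mad

set_option autoImplicit false

/-!
# Analytic maximal almost disjoint families for the density zero ideal are countable

The Ramsey property of analytic sets is applied to the infinite subsets of `ℕ`, read as sequences
of pairs.
-/

namespace Pool.Agent.Q215.ZMad

open Filter Topology Pool.Agent.H38R3.Ell Pool.Agent.H38R3.Mad

/-- The density zero ideal. -/
def Z0 : Set (Set ℕ) :=
  {A | Tendsto (fun n : ℕ => ((A ∩ Set.Iio n).ncard : ℝ) / n) atTop (𝓝 0)}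

/-! ### Complete Ramseyness -/

theorem cr_N {g : (ℕ → ℕ) → (ℕ → Bool)} (hg : Continuous g) {D : (ℕ → Bool) → ℕ → ℕ → Prop}
    (hD : ∀ a b, IsClosed {y | D y a b}) :
    CR {z | ∃ x, ∀ᶠ i in atTop, D (g x) (en z (2 * i)) (en z (2 * i + 1))} := by
  classical
  have h1 : ∀ i₀ : ℕ, CR {z | ∃ x, ∀ i ≥ i₀, D (g x) (en z (2 * i)) (en z (2 * i + 1))} := by
    intro i₀
    let C : List ℕ → Set (Set ℕ) := fun p =>
      {z | ∃ x : ℕ → ℕ, (∀ i v, p[i]? = some v → x i = v) ∧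
        ∀ i, i₀ ≤ i → i < p.length → D (g x) (en z (2 * i)) (en z (2 * i + 1))}
    have hC : ∀ p, EO (C p)ᶜ := by
      intro p z hz hzi
      obtain ⟨u, hu1, hu2, hu3, -⟩ := exists_init hzi (en z (2 * p.length) + 1) 0
      refine ⟨u, hu1, fun w hw hwC => hz ?_⟩
      obtain ⟨x, hx1, hx2⟩ := hwC
      refine ⟨x, hx1, fun i hi hi' => ?_⟩
      have hcon : ∀ n < en z (2 * p.length) + 1, (n ∈ z ↔ n ∈ w) := by
        intro n hn
        constructor
        · intro h
          exact hw.2.1 n (hu2 n h hn)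
        · intro h
          rcases hw.2.2 n h with h' | h'
          · exact hu3 n h'
          · exact h'.1
      have hen : ∀ j ≤ 2 * p.length, en w j = en z j := fun j hj =>
        en_congr hzi hcon (Nat.lt_succ_of_le ((en_strictMono hzi).monotone hj)) rfl
      have h3 := hx2 i hi hi'
      rw [hen _ (by omega), hen _ (by omega)] at h3
      exact h3
    have heq : {z | ∃ x, ∀ i ≥ i₀, D (g x) (en z (2 * i)) (en z (2 * i + 1))} = Sou C := by
      ext z
      constructor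
      · rintro ⟨x, hx⟩
        refine ⟨x, fun k => ⟨x, fun i v hv => ((pre_getElem x k i v).1 hv).2,
          fun i hi _ => hx i hi⟩⟩
      · rintro ⟨f, hf⟩
        choose x' h2 h3 using hf
        have h2' : ∀ k i, i < k → x' k i = f i := fun k i hi =>
          h2 k i (f i) ((pre_getElem f k i (f i)).2 ⟨hi, rfl⟩)
        have hlim : Tendsto x' atTop (𝓝 f) := by
          rw [tendsto_pi_nhds]
          intro i
          refine tendsto_const_nhds.congr' ?_
          filter_upwards [eventually_gt_atTop i] with k hk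
          exact (h2' k i hk).symm
        have hlim2 : Tendsto (fun k => g (x' k)) atTop (𝓝 (g f)) := (hg.tendsto f).comp hlim
        refine ⟨f, fun i hi => ?_⟩
        refine (hD (en z (2 * i)) (en z (2 * i + 1))).mem_of_tendsto hlim2 ?_
        filter_upwards [eventually_gt_atTop i] with k hk
        exact h3 k i hi (by rw [length_pre]; exact hk)
    rw [heq]
    exact cr_sou C hC
  have h2 : {z | ∃ x, ∀ᶠ i in atTop, D (g x) (en z (2 * i)) (en z (2 * i + 1))} =
      ⋃ i₀ : ℕ, {z | ∃ x, ∀ i ≥ i₀, D (g x) (en z (2 * i)) (en z (2 * i + 1))} := by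
    ext z
    simp only [Set.mem_iUnion, Set.mem_ofPred_eq, eventually_atTop]
    constructor
    · rintro ⟨x, a, h⟩
      exact ⟨a, x, h⟩
    · rintro ⟨a, x, h⟩
      exact ⟨x, a, h⟩
  rw [h2]
  exact CR.iUnion h1

theorem N_tl {g : (ℕ → ℕ) → (ℕ → Bool)} {D : (ℕ → Bool) → ℕ → ℕ → Prop} {z : Set ℕ}
    (hz : z.Infinite) (j : ℕ) :
    tl z j ∈ {z | ∃ x, ∀ᶠ i in atTop, D (g x) (en z (2 * i)) (en z (2 * i + 1))} ↔
      z ∈ {z | ∃ x, ∀ᶠ i in atTop, D (g x) (en z (2 * i)) (en z (2 * i + 1))} := by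
  simp only [Set.mem_ofPred_eq, en_tl hz, eventually_atTop]
  constructor
  · rintro ⟨x, a, h⟩
    refine ⟨x, a + j, fun b hb => ?_⟩
    have h1 := h (b - j) (by omega)
    have h2 : 2 * j + 2 * (b - j) = 2 * b := by omega
    have h3 : 2 * j + (2 * (b - j) + 1) = 2 * b + 1 := by omega
    rw [h2, h3] at h1
    exact h1
  · rintro ⟨x, a, h⟩
    refine ⟨x, a, fun b hb => ?_⟩
    have h1 := h (j + b) (by omega)
    have h2 : 2 * j + 2 * b = 2 * (j + b) := by omega
    have h3 : 2 * j + (2 * b + 1) = 2 * (j + b) + 1 := by omega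
    rw [h2, h3]
    exact h1

/-! ### Sequences of pairs -/

/-- Coding a sequence of pairs. -/
theorem code (a b : ℕ → ℕ) (h1 : ∀ i, a i < b i) (h2 : ∀ i, b i < a (i + 1)) :
    ∃ w : Set ℕ, w.Infinite ∧ (∀ i, en w (2 * i) = a i) ∧ (∀ i, en w (2 * i + 1) = b i) ∧
      ∀ m ∈ w, ∃ i, m = a i ∨ m = b i := by
  set h : ℕ → ℕ := fun i => if i % 2 = 0 then a (i / 2) else b (i / 2) with hh
  have he : ∀ k, h (2 * k) = a k := by
    intro k
    have h1 : 2 * k % 2 = 0 := by omega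
    have h2 : 2 * k / 2 = k := by omega
    simp only [hh, h1, h2, if_true]
  have ho : ∀ k, h (2 * k + 1) = b k := by
    intro k
    have h1 : (2 * k + 1) % 2 = 1 := by omega
    have h2 : (2 * k + 1) / 2 = k := by omega
    simp [hh, h1, h2]
  have hm : StrictMono h := by
    refine strictMono_nat_of_lt_succ fun i => ?_
    rcases Nat.even_or_odd' i with ⟨k, hk | hk⟩
    · rw [hk, he, ho]
      exact h1 k
    · rw [hk, ho, show 2 * k + 1 + 1 = 2 * (k + 1) by ring, he]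
      exact h2 k
  refine ⟨Set.range h, Set.infinite_range_of_injective hm.injective, ?_, ?_, ?_⟩
  · intro i
    rw [en_range hm, he]
  · intro i
    rw [en_range hm, ho]
  · rintro _ ⟨i, rfl⟩
    rcases Nat.even_or_odd' i with ⟨k, hk | hk⟩
    · exact ⟨k, Or.inl (by rw [hk, he])⟩
    · exact ⟨k, Or.inr (by rw [hk, ho])⟩

/-- Dependent choice of pairs. -/
theorem build (N : ℕ → ℕ → ℕ) (P : ℕ → ℕ → ℕ → Prop)
    (hP : ∀ i n, ∃ a b, n < a ∧ a < b ∧ P i a b) :
    ∃ a b : ℕ → ℕ, (∀ i, a i < b i) ∧ (∀ i, b i < a (i + 1)) ∧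
      (∀ i, N (a i) (b i) < a (i + 1)) ∧ ∀ i, P i (a i) (b i) := by
  choose A B h1 h2 h3 using hP
  let s : ℕ → ℕ × ℕ := fun k => Nat.rec (A 0 0, B 0 0)
    (fun k p => (A (k + 1) (max p.2 (N p.1 p.2)), B (k + 1) (max p.2 (N p.1 p.2)))) k
  have hs : ∀ k, s (k + 1) = (A (k + 1) (max (s k).2 (N (s k).1 (s k).2)),
      B (k + 1) (max (s k).2 (N (s k).1 (s k).2))) := fun k => rfl
  have hs' : ∀ k, ∃ n, s k = (A k n, B k n) := by
    intro k
    cases k with
    | zero => exact ⟨0, rfl⟩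
    | succ k => exact ⟨_, hs k⟩
  refine ⟨fun k => (s k).1, fun k => (s k).2, ?_, ?_, ?_, ?_⟩
  · intro k
    obtain ⟨n, hn⟩ := hs' k
    simp only [hn]
    exact h2 k n
  · intro k
    simp only [hs]
    exact lt_of_le_of_lt (le_max_left _ _) (h1 _ _)
  · intro k
    simp only [hs]
    exact lt_of_le_of_lt (le_max_right _ _) (h1 _ _)
  · intro k
    obtain ⟨n, hn⟩ := hs' k
    simp only [hn]
    exact h3 k n

/-! ### Dyadic densities -/

/-- The density on the dyadic block `[2 ^ k, 2 ^ (k + 1))`. -/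
noncomputable def mu (k : ℕ) (A : Set ℕ) : ℝ :=
  (∑ m ∈ Finset.Ico (2 ^ k) (2 ^ (k + 1)), A.indicator (fun _ => (1 : ℝ)) m) / 2 ^ k

theorem ind_nonneg (A : Set ℕ) (m : ℕ) : 0 ≤ A.indicator (fun _ => (1 : ℝ)) m :=
  Set.indicator_nonneg (fun _ _ => zero_le_one) m

theorem ind_le_one (A : Set ℕ) (m : ℕ) : A.indicator (fun _ => (1 : ℝ)) m ≤ 1 := by
  classical
  rw [Set.indicator_apply]
  split_ifs <;> norm_num

theorem mu_nonneg (k : ℕ) (A : Set ℕ) : 0 ≤ mu k A :=
  div_nonneg (Finset.sum_nonneg fun _ _ => ind_nonneg _ _) (by positivity)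

theorem mu_mono {k : ℕ} {A B : Set ℕ}
    (h : ∀ m ∈ Finset.Ico (2 ^ k) (2 ^ (k + 1)), m ∈ A → m ∈ B) : mu k A ≤ mu k B := by
  classical
  unfold mu
  refine div_le_div_of_nonneg_right (Finset.sum_le_sum fun m hm => ?_) (by positivity)
  rw [Set.indicator_apply, Set.indicator_apply]
  by_cases h1 : m ∈ A
  · rw [if_pos h1, if_pos (h m hm h1)]
  · rw [if_neg h1]
    split_ifs <;> norm_num

theorem mu_congr {k : ℕ} {A B : Set ℕ}
    (h : ∀ m ∈ Finset.Ico (2 ^ k) (2 ^ (k + 1)), (m ∈ A ↔ m ∈ B)) : mu k A = mu k B :=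
  le_antisymm (mu_mono fun m hm => (h m hm).1) (mu_mono fun m hm => (h m hm).2)

theorem ncard_eq (A : Set ℕ) (n : ℕ) :
    ((A ∩ Set.Iio n).ncard : ℝ) = ∑ m ∈ Finset.range n, A.indicator (fun _ => (1 : ℝ)) m := by
  classical
  have h1 : A ∩ Set.Iio n = ((Finset.range n).filter (· ∈ A) : Finset ℕ) := by
    ext m
    simp only [Set.mem_inter_iff, Set.mem_Iio, Finset.coe_filter, Finset.mem_range,
      Set.mem_ofPred_eq]
    exact and_comm
  rw [h1, Set.ncard_coe_finset, Finset.card_filter]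
  push_cast
  refine Finset.sum_congr rfl fun m _ => ?_
  rw [Set.indicator_apply]

theorem mem_Z0_iff (A : Set ℕ) : A ∈ Z0 ↔ Tendsto (fun k => mu k A) atTop (𝓝 0) := by
  set c : ℕ → ℝ := fun n => ∑ m ∈ Finset.range n, A.indicator (fun _ => (1 : ℝ)) m with hc
  have hc0 : ∀ n, 0 ≤ c n := fun n => Finset.sum_nonneg fun _ _ => ind_nonneg _ _
  have hcm : Monotone c := by
    intro n m hnm
    exact Finset.sum_le_sum_of_subset_of_nonneg (Finset.range_mono hnm)
      fun _ _ _ => ind_nonneg _ _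
  have hcn : ∀ n, c n ≤ n := by
    intro n
    calc c n ≤ ∑ m ∈ Finset.range n, (1 : ℝ) := Finset.sum_le_sum fun m _ => ind_le_one _ _
      _ = n := by simp
  have hmu : ∀ k, c (2 ^ (k + 1)) = c (2 ^ k) + 2 ^ k * mu k A := by
    intro k
    have h1 : ∑ m ∈ Finset.Ico (2 ^ k) (2 ^ (k + 1)), A.indicator (fun _ => (1 : ℝ)) m =
        c (2 ^ (k + 1)) - c (2 ^ k) :=
      Finset.sum_Ico_eq_sub _ (Nat.pow_le_pow_right (by norm_num) (Nat.le_succ k))
    unfold mu
    rw [h1]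
    have h2 : (2 : ℝ) ^ k ≠ 0 := by positivity
    field_simp
    ring
  have hZ : A ∈ Z0 ↔ Tendsto (fun n : ℕ => c n / n) atTop (𝓝 0) := by
    unfold Z0
    simp only [Set.mem_ofPred_eq, ncard_eq]
    rfl
  rw [hZ]
  constructor
  · intro h
    have h1 : Tendsto (fun k : ℕ => 2 ^ (k + 1)) atTop (atTop : Filter ℕ) :=
      (tendsto_pow_atTop_atTop_of_one_lt (by norm_num : (1 : ℕ) < 2)).comp (tendsto_add_atTop_nat 1)
    have h2 := (h.comp h1).const_mul 2
    rw [mul_zero] at h2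
    refine squeeze_zero (fun k => mu_nonneg k A) (fun k => ?_) h2
    have h3 : mu k A = (c (2 ^ (k + 1)) - c (2 ^ k)) / 2 ^ k := by
      rw [hmu k]
      field_simp
      ring
    rw [h3]
    simp only [Function.comp]
    push_cast
    rw [div_le_iff₀ (by positivity)]
    have h4 : 2 * (c (2 ^ (k + 1)) / 2 ^ (k + 1)) * (2 : ℝ) ^ k = c (2 ^ (k + 1)) := by
      rw [pow_succ (2 : ℝ)]
      field_simp
    rw [h4]
    linarith [hc0 (2 ^ k)]
  · intro h
    rw [Metric.tendsto_atTop] at h ⊢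
    intro ε hε
    obtain ⟨K, hK⟩ := h (ε / 4) (by positivity)
    have hK' : ∀ k ≥ K, mu k A ≤ ε / 4 := by
      intro k hk
      have := hK k hk
      rw [Real.dist_eq, sub_zero, abs_of_nonneg (mu_nonneg k A)] at this
      exact this.le
    have hind : ∀ m, K ≤ m → c (2 ^ m) ≤ 2 ^ K + ε / 4 * 2 ^ m := by
      intro m hm
      induction m, hm using Nat.le_induction with
      | base =>
        have := hcn (2 ^ K)
        push_cast at this
        have h2 : 0 ≤ ε / 4 * 2 ^ K := by positivity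
        linarith
      | succ m hm ih =>
        rw [hmu m]
        have h2 := mul_le_mul_of_nonneg_left (hK' m hm) (by positivity : (0 : ℝ) ≤ 2 ^ m)
        rw [pow_succ (2 : ℝ) m]
        nlinarith
    obtain ⟨M, hM⟩ := exists_nat_gt (4 * 2 ^ K / ε)
    refine ⟨max M (2 ^ K), fun n hn => ?_⟩
    have hn1 : M ≤ n := le_trans (le_max_left _ _) hn
    have hn2 : 2 ^ K ≤ n := le_trans (le_max_right _ _) hn
    have hn0 : n ≠ 0 := by
      have : 0 < 2 ^ K := by positivity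
      omega
    have hnp : (0 : ℝ) < n := by exact_mod_cast Nat.pos_of_ne_zero hn0
    rw [Real.dist_eq, sub_zero, abs_of_nonneg (div_nonneg (hc0 n) hnp.le)]
    rw [div_lt_iff₀ hnp]
    set m := Nat.log 2 n with hm
    have hm1 : 2 ^ m ≤ n := Nat.pow_log_le_self 2 hn0
    have hm2 : n < 2 ^ (m + 1) := Nat.lt_pow_succ_log_self (by norm_num) n
    have hKm : K ≤ m := by
      by_contra hlt
      push Not at hlt
      have : 2 ^ (m + 1) ≤ 2 ^ K := Nat.pow_le_pow_right (by norm_num) hlt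
      omega
    have h3 := hind (m + 1) (by omega)
    have h4 : c n ≤ c (2 ^ (m + 1)) := hcm hm2.le
    have h5 : (2 : ℝ) ^ m ≤ n := by exact_mod_cast hm1
    have h6 : (M : ℝ) ≤ n := by exact_mod_cast hn1
    have h7 : 4 * 2 ^ K < ε * n := by
      rw [div_lt_iff₀ hε] at hM
      nlinarith
    rw [pow_succ (2 : ℝ) m] at h3
    nlinarith

theorem Z0_anti {A B : Set ℕ} (h : A ⊆ B) (hB : B ∈ Z0) : A ∈ Z0 := by
  rw [mem_Z0_iff] at *
  exact squeeze_zero (fun k => mu_nonneg k A) (fun k => mu_mono fun m _ hm => h hm) hB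

/-- A positive set has infinitely many large dyadic densities. -/
theorem exists_freq {A : Set ℕ} (hA : A ∉ Z0) :
    ∃ m : ℕ, ∀ N, ∃ k ≥ N, 1 / ((m : ℝ) + 1) < mu k A := by
  rw [mem_Z0_iff] at hA
  by_contra hcon
  push Not at hcon
  refine hA ?_
  rw [Metric.tendsto_atTop]
  intro ε hε
  obtain ⟨m, hm⟩ := exists_nat_one_div_lt hε
  obtain ⟨N, hN⟩ := hcon m
  refine ⟨N, fun k hk => ?_⟩
  rw [Real.dist_eq, sub_zero, abs_of_nonneg (mu_nonneg k A)]
  exact lt_of_le_of_lt (hN k hk) hm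

theorem not_mem_Z0 {A : Set ℕ} {c : ℝ} (hc : 0 < c) (h : ∀ N, ∃ k ≥ N, c ≤ mu k A) :
    A ∉ Z0 := by
  rw [mem_Z0_iff, Metric.tendsto_atTop]
  intro h1
  obtain ⟨N, hN⟩ := h1 c hc
  obtain ⟨k, hk, hk'⟩ := h N
  have := hN k hk
  rw [Real.dist_eq, sub_zero, abs_of_nonneg (mu_nonneg k A)] at this
  linarith

/-- Bonferroni. -/
theorem sum_mu_le (k : ℕ) (G : Finset (Set ℕ)) :
    ∑ A ∈ G, mu k A ≤ 1 + ∑ A ∈ G, ∑ B ∈ G.erase A, mu k (A ∩ B) := by
  classical
  have hpt : ∀ m : ℕ, ∑ A ∈ G, A.indicator (fun _ => (1 : ℝ)) m ≤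
      1 + ∑ A ∈ G, ∑ B ∈ G.erase A, (A ∩ B).indicator (fun _ => (1 : ℝ)) m := by
    intro m
    have h1 : ∀ A B : Set ℕ, (A ∩ B).indicator (fun _ => (1 : ℝ)) m =
        A.indicator (fun _ => (1 : ℝ)) m * B.indicator (fun _ => (1 : ℝ)) m := by
      intro A B
      simp only [Set.indicator_apply, Set.mem_inter_iff]
      by_cases h : m ∈ A <;> by_cases h' : m ∈ B <;> simp [h, h']
    have h2 : ∑ A ∈ G, ∑ B ∈ G.erase A, (A ∩ B).indicator (fun _ => (1 : ℝ)) m =
        (∑ A ∈ G, A.indicator (fun _ => (1 : ℝ)) m) ^ 2 -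
          ∑ A ∈ G, A.indicator (fun _ => (1 : ℝ)) m := by
      have h3 : ∀ A ∈ G, ∑ B ∈ G.erase A, (A ∩ B).indicator (fun _ => (1 : ℝ)) m =
          A.indicator (fun _ => (1 : ℝ)) m * (∑ B ∈ G, B.indicator (fun _ => (1 : ℝ)) m) -
            A.indicator (fun _ => (1 : ℝ)) m := by
        intro A hA
        rw [Finset.mul_sum, ← Finset.add_sum_erase _ _ hA]
        have h4 : A.indicator (fun _ => (1 : ℝ)) m * A.indicator (fun _ => (1 : ℝ)) m =
            A.indicator (fun _ => (1 : ℝ)) m := by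
          rw [← h1, Set.inter_self]
        rw [h4, add_sub_cancel_left]
        exact Finset.sum_congr rfl fun B _ => h1 A B
      rw [Finset.sum_congr rfl h3, Finset.sum_sub_distrib, ← Finset.sum_mul]
      ring
    rw [h2]
    nlinarith [sq_nonneg (∑ A ∈ G, A.indicator (fun _ => (1 : ℝ)) m - 1)]
  have hpos : (0 : ℝ) < 2 ^ k := by positivity
  have h1 : ∑ A ∈ G, mu k A = (∑ m ∈ Finset.Ico (2 ^ k) (2 ^ (k + 1)),
      ∑ A ∈ G, A.indicator (fun _ => (1 : ℝ)) m) / 2 ^ k := by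
    unfold mu
    rw [← Finset.sum_div, Finset.sum_comm]
  have h2 : ∑ A ∈ G, ∑ B ∈ G.erase A, mu k (A ∩ B) =
      (∑ m ∈ Finset.Ico (2 ^ k) (2 ^ (k + 1)),
        ∑ A ∈ G, ∑ B ∈ G.erase A, (A ∩ B).indicator (fun _ => (1 : ℝ)) m) / 2 ^ k := by
    unfold mu
    rw [Finset.sum_comm, Finset.sum_div]
    refine Finset.sum_congr rfl fun A _ => ?_
    rw [← Finset.sum_div, Finset.sum_comm]
  rw [h1, h2, div_le_iff₀ hpos, add_mul, one_mul, div_mul_cancel₀ _ hpos.ne']
  calc ∑ m ∈ Finset.Ico (2 ^ k) (2 ^ (k + 1)), ∑ A ∈ G, A.indicator (fun _ => (1 : ℝ)) m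
      ≤ ∑ m ∈ Finset.Ico (2 ^ k) (2 ^ (k + 1)), (1 + ∑ A ∈ G, ∑ B ∈ G.erase A,
          (A ∩ B).indicator (fun _ => (1 : ℝ)) m) := Finset.sum_le_sum fun m _ => hpt m
    _ = 2 ^ k + ∑ m ∈ Finset.Ico (2 ^ k) (2 ^ (k + 1)), ∑ A ∈ G, ∑ B ∈ G.erase A,
          (A ∩ B).indicator (fun _ => (1 : ℝ)) m := by
        rw [Finset.sum_add_distrib, Finset.sum_const, Nat.card_Ico]
        congr 1
        have : 2 ^ (k + 1) - 2 ^ k = 2 ^ k := by
          rw [pow_succ]; omega
        rw [this]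
        simp

/-- A family with pairwise intersections in the ideal, all of whose members have density at least
`δ` on the same blocks infinitely often, is small. -/
theorem card_le {G : Finset (Set ℕ)} {δ : ℝ}
    (had : ∀ A ∈ G, ∀ B ∈ G, A ≠ B → A ∩ B ∈ Z0)
    (h : ∀ N, ∃ k ≥ N, ∀ A ∈ G, δ ≤ mu k A) : G.card * δ ≤ 1 := by
  classical
  by_contra hcon
  push Not at hcon
  have h1 : Tendsto (fun k => ∑ A ∈ G, ∑ B ∈ G.erase A, mu k (A ∩ B)) atTop (𝓝 0) := by
    have : (0 : ℝ) = ∑ A ∈ G, ∑ B ∈ G.erase A, (0 : ℝ) := by simp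
    rw [this]
    refine tendsto_finsetSum _ fun A hA => tendsto_finsetSum _ fun B hB => ?_
    rw [Finset.mem_erase] at hB
    exact (mem_Z0_iff _).1 (had A hA B hB.2 (Ne.symm hB.1))
  have h2 := (tendsto_order.1 h1).2 (G.card * δ - 1) (by linarith)
  rw [eventually_atTop] at h2
  obtain ⟨N, hN⟩ := h2
  obtain ⟨k, hk, hk'⟩ := h N
  have h3 := hN k hk
  have h4 := sum_mu_le k G
  have h5 : G.card * δ ≤ ∑ A ∈ G, mu k A := by
    have := Finset.card_nsmul_le_sum G (fun A => mu k A) δ hk'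
    simpa using this
  linarith


/-! ### The main argument -/

theorem continuous_mu (k : ℕ) (B : Set ℕ) :
    Continuous fun y : ℕ → Bool => mu k ({m | y m = true} ∩ B) := by
  classical
  unfold mu
  refine Continuous.div_const (continuous_finsetSum _ fun m _ => ?_) _
  have h : (fun y : ℕ → Bool => ({m | y m = true} ∩ B).indicator (fun _ => (1 : ℝ)) m) =
      (fun b : Bool => if b = true ∧ m ∈ B then (1 : ℝ) else 0) ∘ fun y : ℕ → Bool => y m := by
    funext y
    simp only [Set.indicator_apply, Set.mem_inter_iff, Set.mem_ofPred_eq, Function.comp]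
  rw [h]
  exact continuous_of_discreteTopology.comp (continuous_apply m)

/-- **The main lemma**: an analytic almost disjoint family with infinitely many members of large
upper density is not maximal. -/
theorem main {g : (ℕ → ℕ) → (ℕ → Bool)} (hg : Continuous g)
    (had : ∀ x y, g x ≠ g y → {m | g x m = true} ∩ {m | g y m = true} ∈ Z0)
    {A : ℕ → Set ℕ} (hA : Function.Injective A) (hAg : ∀ l, ∃ x, A l = {m | g x m = true})
    {c : ℝ} (hc : 0 < c) (hAc : ∀ l N, ∃ k ≥ N, c < mu k (A l)) :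
    ∃ X, X ∉ Z0 ∧ ∀ x, X ∩ {m | g x m = true} ∈ Z0 := by
  classical
  by_contra hmax
  push Not at hmax
  -- the blocks
  choose n hn1 hn2 using hAc
  have had' : ∀ l x, A l ≠ {m | g x m = true} → {m | g x m = true} ∩ A l ∈ Z0 := by
    intro l x hne
    obtain ⟨y, hy⟩ := hAg l
    rw [hy] at hne ⊢
    exact had x y fun h => hne (by rw [h])
  let D : ℝ → (ℕ → Bool) → ℕ → ℕ → Prop := fun δ y a b => δ ≤ mu (n a b) ({m | y m = true} ∩ A a)
  have hD : ∀ δ a b, IsClosed {y | D δ y a b} := fun δ a b =>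
    isClosed_le continuous_const (continuous_mu (n a b) (A a))
  let S : ℕ → Set (Set ℕ) := fun m => {z | ∃ x, ∀ᶠ i in atTop,
    D (1 / ((m : ℝ) + 1)) (g x) (en z (2 * i)) (en z (2 * i + 1))}
  -- every infinite set has a subset in one of these sets
  have claim1 : ∀ z : Set ℕ, z.Infinite → ∃ m, ∃ w ⊆ z, w.Infinite ∧ w ∈ S m := by
    intro z hz
    obtain ⟨a, b, hab, hba, hN, hP⟩ := build n (fun _ a b => a ∈ z ∧ b ∈ z) (by
      intro _ N
      obtain ⟨a, ha, ha'⟩ := hz.exists_gt N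
      obtain ⟨b, hb, hb'⟩ := hz.exists_gt a
      exact ⟨a, b, ha', hb', ha, hb⟩)
    have ham : StrictMono a := strictMono_nat_of_lt_succ fun i => (hab i).trans (hba i)
    have hbm : StrictMono b := strictMono_nat_of_lt_succ fun i => (hba i).trans (hab (i + 1))
    set κ : ℕ → ℕ := fun i => n (a i) (b i) with hκ
    have hκm : StrictMono κ := strictMono_nat_of_lt_succ fun i => by
      have h1 := hN i
      have h2 := hab (i + 1)
      have h3 := hn1 (a (i + 1)) (b (i + 1))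
      simp only [hκ]
      omega
    set X : Set ℕ := {m | ∃ i, m ∈ A (a i) ∧ m ∈ Finset.Ico (2 ^ κ i) (2 ^ (κ i + 1))} with hX
    have hblock : ∀ k k' m, m ∈ Finset.Ico (2 ^ k) (2 ^ (k + 1)) →
        m ∈ Finset.Ico (2 ^ k') (2 ^ (k' + 1)) → k = k' := by
      intro k k' m h1 h2
      rw [Finset.mem_Ico] at h1 h2
      have h3 : k < k' + 1 := (Nat.pow_lt_pow_iff_right (by norm_num : 1 < 2)).1
        (lt_of_le_of_lt h1.1 h2.2)
      have h4 : k' < k + 1 := (Nat.pow_lt_pow_iff_right (by norm_num : 1 < 2)).1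
        (lt_of_le_of_lt h2.1 h1.2)
      omega
    have hXi : ∀ i, ∀ m ∈ Finset.Ico (2 ^ κ i) (2 ^ (κ i + 1)), (m ∈ X ↔ m ∈ A (a i)) := by
      intro i m hm
      constructor
      · rintro ⟨j, hj1, hj2⟩
        have := hκm.injective (hblock _ _ m hj2 hm)
        rwa [this] at hj1
      · intro h
        exact ⟨i, h, hm⟩
    have hXpos : X ∉ Z0 := by
      refine not_mem_Z0 hc fun N => ⟨κ N, hκm.id_le N, ?_⟩
      rw [mu_congr (hXi N)]
      exact (hn2 (a N) (b N)).le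
    obtain ⟨x, hx⟩ := hmax X hXpos
    obtain ⟨m, hm⟩ := exists_freq hx
    set J : Set ℕ := {i | D (1 / ((m : ℝ) + 1)) (g x) (a i) (b i)} with hJ
    have hJi : J.Infinite := by
      rw [Set.infinite_iff_exists_gt]
      intro N
      obtain ⟨k, hk, hk'⟩ := hm (κ (N + 1))
      have hpos : 0 < mu k (X ∩ {m | g x m = true}) :=
        lt_trans (by positivity) hk'
      have hex : ∃ p ∈ Finset.Ico (2 ^ k) (2 ^ (k + 1)), p ∈ X ∩ {m | g x m = true} := by
        by_contra hcon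
        push Not at hcon
        have h0 : mu k (X ∩ {m | g x m = true}) ≤ mu k (∅ : Set ℕ) :=
          mu_mono fun p hp hp' => absurd hp' (hcon p hp)
        have h00 : mu k (∅ : Set ℕ) = 0 := by simp [mu]
        rw [h00] at h0
        linarith
      obtain ⟨p, hp, ⟨i, hi1, hi2⟩, hp2⟩ := hex
      have hik : k = κ i := hblock _ _ p hp hi2
      refine ⟨i, ?_, ?_⟩
      · show (1 / ((m : ℝ) + 1)) ≤ mu (n (a i) (b i)) ({m | g x m = true} ∩ A (a i))
        have h5 : mu (κ i) ({m | g x m = true} ∩ A (a i)) =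
            mu (κ i) (X ∩ {m | g x m = true}) := by
          refine mu_congr fun q hq => ?_
          rw [Set.mem_inter_iff, Set.mem_inter_iff, hXi i q hq]
          exact and_comm
        have h6 : n (a i) (b i) = κ i := rfl
        rw [h6, h5, ← hik]
        exact hk'.le
      · have h7 : κ (N + 1) ≤ κ i := by rw [← hik]; exact hk
        have h8 := hκm.le_iff_le.1 h7
        omega
    obtain ⟨w, hw1, hw2, hw3, hw4⟩ := code (fun i => a (en J i)) (fun i => b (en J i))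
      (fun i => hab _) (fun i => lt_of_lt_of_le (hba _)
        (ham.monotone (Nat.succ_le_of_lt (en_strictMono hJi (Nat.lt_succ_self i)))))
    refine ⟨m, w, ?_, hw1, x, Eventually.of_forall fun i => ?_⟩
    · intro q hq
      obtain ⟨i, hi | hi⟩ := hw4 q hq
      · rw [hi]; exact (hP _).1
      · rw [hi]; exact (hP _).2
    · rw [hw2, hw3]
      exact en_mem hJi i
  -- a homogeneous set
  obtain ⟨Y, -, hYi, hhom⟩ := exists_hom (S := S) (fun m => cr_N hg (hD _))
    (fun m z j hz => N_tl hz j) Set.infinite_univ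
  obtain ⟨m, w₀, hw₀, hw₀i, hw₀S⟩ := claim1 Y hYi
  have hYS : ∀ z ⊆ Y, z.Infinite → z ∈ S m := by
    rcases hhom m with h | h
    · exact h
    · exact absurd hw₀S (h w₀ hw₀ hw₀i)
  set δ : ℝ := 1 / ((m : ℝ) + 1) with hδ
  have hδ0 : 0 < δ := by positivity
  -- the witnesses
  let E : Set ℕ → Set (Set ℕ) := fun z => {B | (∃ x, B = {m | g x m = true}) ∧
    ∀ᶠ i in atTop, δ ≤ mu (n (en z (2 * i)) (en z (2 * i + 1))) (B ∩ A (en z (2 * i)))}
  have hEcard : ∀ z : Set ℕ, z.Infinite → ∀ G : Finset (Set ℕ), (∀ B ∈ G, B ∈ E z) →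
      G.card * δ ≤ 1 := by
    intro z hz G hG
    refine card_le (G := G) ?_ ?_
    · intro B hB B' hB' hne
      obtain ⟨x, hx⟩ := (hG B hB).1
      obtain ⟨x', hx'⟩ := (hG B' hB').1
      rw [hx, hx'] at hne ⊢
      exact had x x' fun h => hne (by rw [h])
    · intro N
      have h1 : ∀ᶠ i in atTop, ∀ B ∈ G,
          δ ≤ mu (n (en z (2 * i)) (en z (2 * i + 1))) (B ∩ A (en z (2 * i))) := by
        rw [Filter.eventually_all_finset]
        exact fun B hB => (hG B hB).2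
      obtain ⟨i, hi, hi'⟩ := (h1.and (eventually_ge_atTop N)).exists
      refine ⟨n (en z (2 * i)) (en z (2 * i + 1)), ?_, fun B hB => ?_⟩
      · have h2 := hn1 (en z (2 * i)) (en z (2 * i + 1))
        have h3 := (en_strictMono hz).id_le (2 * i + 1)
        simp only [id_eq] at h3
        omega
      · exact (hi B hB).trans (mu_mono fun _ _ h => h.1)
  obtain ⟨K, hK⟩ := exists_nat_gt (1 / δ)
  have hEK : ∀ z : Set ℕ, z.Infinite → ∀ G : Finset (Set ℕ), (∀ B ∈ G, B ∈ E z) →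
      G.card < K := by
    intro z hz G hG
    have h1 := hEcard z hz G hG
    rw [div_lt_iff₀ hδ0] at hK
    have h2 : (G.card : ℝ) < K := by
      by_contra h3
      push Not at h3
      have := mul_le_mul_of_nonneg_right h3 hδ0.le
      linarith
    exact_mod_cast h2
  have hEfin : ∀ z : Set ℕ, z.Infinite → (E z).Finite := by
    intro z hz
    by_contra hinf
    obtain ⟨G, hG1, hG2⟩ := Set.Infinite.exists_subset_card_eq hinf K
    have := hEK z hz G (fun B hB => hG1 hB)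
    omega
  have hEncard : ∀ z : Set ℕ, z.Infinite → (E z).ncard < K := by
    intro z hz
    rw [Set.ncard_eq_toFinset_card _ (hEfin z hz)]
    exact hEK z hz _ fun B hB => (Set.Finite.mem_toFinset _).1 hB
  -- a set with the largest number of witnesses
  obtain ⟨z₀, ⟨hz₀Y, hz₀i⟩, hz₀max⟩ : ∃ z₀ : Set ℕ, (z₀ ⊆ Y ∧ z₀.Infinite) ∧
      ∀ z ⊆ Y, z.Infinite → (E z).ncard ≤ (E z₀).ncard := by
    have h1 : ((fun z => (E z).ncard) '' {z | z ⊆ Y ∧ z.Infinite}).Finite := by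
      refine (Set.finite_Iio K).subset ?_
      rintro _ ⟨z, hz, rfl⟩
      exact hEncard z hz.2
    obtain ⟨v, ⟨z₀, hz₀, rfl⟩, hv⟩ := Set.exists_max_image _ id h1 ⟨_, ⟨Y, ⟨le_rfl, hYi⟩, rfl⟩⟩
    exact ⟨z₀, hz₀, fun z hz hzi => hv _ ⟨z, ⟨hz, hzi⟩, rfl⟩⟩
  have hfin₀ := hEfin z₀ hz₀i
  -- pairs avoiding the witnesses
  have havoid : ∀ N, ∃ a b, N < a ∧ a < b ∧ a ∈ Y ∧ b ∈ Y ∧
      ∀ B ∈ E z₀, mu (n a b) (B ∩ A a) < δ := by
    intro N
    have h1 : (Y \ (A ⁻¹' (E z₀))).Infinite :=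
      hYi.sdiff (hfin₀.preimage hA.injOn)
    obtain ⟨a, ha, haN⟩ := h1.exists_gt N
    have h2 : ∀ᶠ k in atTop, ∀ B ∈ E z₀, mu k (B ∩ A a) < δ := by
      rw [hfin₀.eventually_all]
      intro B hB
      obtain ⟨x, hx⟩ := hB.1
      have hne : A a ≠ {m | g x m = true} := by
        rw [← hx]
        intro h
        exact ha.2 (by rw [Set.mem_preimage, h]; exact hB)
      have h3 := had' a x hne
      rw [← hx, mem_Z0_iff] at h3
      exact (tendsto_order.1 h3).2 δ hδ0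
    rw [eventually_atTop] at h2
    obtain ⟨M, hM⟩ := h2
    obtain ⟨b, hb, hb'⟩ := hYi.exists_gt (max a M)
    refine ⟨a, b, haN, lt_of_le_of_lt (le_max_left _ _) hb', ha.1, hb, hM _ ?_⟩
    have h4 := hn1 a b
    have h5 := lt_of_le_of_lt (le_max_right a M) hb'
    omega
  -- interleaving
  obtain ⟨a, b, hab, hba, -, hP⟩ := build (fun _ _ => 0) (fun i a b => (a ∈ Y ∧ b ∈ Y) ∧
      (i % 2 = 0 → ∀ B ∈ E z₀, mu (n a b) (B ∩ A a) < δ) ∧
      (i % 2 = 1 → ∃ k, a = en z₀ (2 * k) ∧ b = en z₀ (2 * k + 1))) (by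
    intro i N
    rcases Nat.mod_two_eq_zero_or_one i with hi | hi
    · obtain ⟨a, b, h1, h2, h3, h4, h5⟩ := havoid N
      exact ⟨a, b, h1, h2, ⟨h3, h4⟩, fun _ => h5, fun h => by omega⟩
    · refine ⟨en z₀ (2 * (N + 1)), en z₀ (2 * (N + 1) + 1), ?_, en_strictMono hz₀i (by omega),
        ⟨hz₀Y (en_mem hz₀i _), hz₀Y (en_mem hz₀i _)⟩, fun h => by omega, fun _ => ⟨N + 1, rfl, rfl⟩⟩
      have h3 := (en_strictMono hz₀i).id_le (2 * (N + 1))
      simp only [id_eq] at h3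
      omega)
  have ham : StrictMono a := strictMono_nat_of_lt_succ fun i => (hab i).trans (hba i)
  obtain ⟨w, hw1, hw2, hw3, hw4⟩ := code a b hab hba
  have hwY : w ⊆ Y := by
    intro q hq
    obtain ⟨i, hi | hi⟩ := hw4 q hq
    · rw [hi]; exact (hP _).1.1
    · rw [hi]; exact (hP _).1.2
  obtain ⟨x, hx⟩ := hYS w hwY hw1
  simp only [hw2, hw3] at hx
  rw [eventually_atTop] at hx
  obtain ⟨i₀, hi₀⟩ := hx
  set B : Set ℕ := {m | g x m = true} with hB
  have hB' : ∀ i ≥ i₀, δ ≤ mu (n (a i) (b i)) (B ∩ A (a i)) := hi₀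
  -- the odd pairs
  obtain ⟨z₁, hz₁1, hz₁2, hz₁3, hz₁4⟩ := code (fun i => a (2 * i + 1)) (fun i => b (2 * i + 1))
    (fun i => hab _) (fun i => lt_of_lt_of_le (hba _) (ham.monotone (by omega)))
  have hz₁Y : z₁ ⊆ Y := by
    intro q hq
    obtain ⟨i, hi | hi⟩ := hz₁4 q hq
    · rw [hi]; exact (hP _).1.1
    · rw [hi]; exact (hP _).1.2
  have hsub : E z₀ ⊆ E z₁ := by
    intro C hC
    refine ⟨hC.1, ?_⟩
    obtain ⟨j₀, hj₀⟩ := eventually_atTop.1 hC.2
    have hk : ∀ i, ∃ k, i ≤ k ∧ a (2 * i + 1) = en z₀ (2 * k) ∧ b (2 * i + 1) = en z₀ (2 * k + 1) := by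
      have h0 : ∀ i, ∃ k, a (2 * i + 1) = en z₀ (2 * k) ∧ b (2 * i + 1) = en z₀ (2 * k + 1) :=
        fun i => (hP (2 * i + 1)).2.2 (by omega)
      choose k hk1 hk2 using h0
      have hkm : StrictMono k := by
        intro i j hij
        have h1 : a (2 * i + 1) < a (2 * j + 1) := ham (by omega)
        rw [hk1, hk1] at h1
        have := (en_strictMono hz₀i).lt_iff_lt.1 h1
        omega
      exact fun i => ⟨k i, hkm.id_le i, hk1 i, hk2 i⟩
    rw [eventually_atTop]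
    refine ⟨j₀, fun i hi => ?_⟩
    obtain ⟨k, hk1, hk2, hk3⟩ := hk i
    rw [hz₁2, hz₁3, hk2, hk3]
    exact hj₀ k (hi.trans hk1)
  have heq : E z₀ = E z₁ :=
    Set.eq_of_subset_of_ncard_le hsub (hz₀max z₁ hz₁Y hz₁1) (hEfin z₁ hz₁1)
  have hBE : B ∈ E z₀ := by
    rw [heq]
    refine ⟨⟨x, rfl⟩, eventually_atTop.2 ⟨i₀, fun i hi => ?_⟩⟩
    rw [hz₁2, hz₁3]
    exact hB' _ (by omega)
  have h1 := (hP (2 * i₀)).2.1 (by omega) B hBE
  have h2 := hB' (2 * i₀) (by omega)
  linarith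

/-- **Analytic maximal `Z_0`-almost disjoint families are countable.** -/
theorem countable {F : Set (Set ℕ)}
    (hF : MeasureTheory.AnalyticSet {χ : ℕ → Bool | {n | χ n = true} ∈ F})
    (hpos : ∀ A ∈ F, A ∉ Z0) (had : ∀ A ∈ F, ∀ B ∈ F, A ≠ B → A ∩ B ∈ Z0)
    (hmax : ∀ X, X ∉ Z0 → ∃ A ∈ F, X ∩ A ∉ Z0) : F.Countable := by
  classical
  by_contra hunc
  have hset : ∀ A : Set ℕ, {n | decide (n ∈ A) = true} = A := by
    intro A
    ext n
    simp
  rw [MeasureTheory.AnalyticSet] at hF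
  rcases hF with hF | ⟨g, hg, hgr⟩
  · refine hunc ?_
    have : F = ∅ := by
      rw [Set.eq_empty_iff_forall_notMem]
      intro A hA
      have h1 : (fun n => decide (n ∈ A)) ∈ {χ : ℕ → Bool | {n | χ n = true} ∈ F} := by
        show {n | decide (n ∈ A) = true} ∈ F
        rw [hset]
        exact hA
      rw [hF] at h1
      exact h1
    rw [this]
    exact Set.countable_empty
  have hgF : ∀ x, {m | g x m = true} ∈ F := by
    intro x
    have : g x ∈ {χ : ℕ → Bool | {n | χ n = true} ∈ F} := hgr ▸ ⟨x, rfl⟩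
    exact this
  have hFg : ∀ A ∈ F, ∃ x, A = {m | g x m = true} := by
    intro A hA
    have h1 : (fun n => decide (n ∈ A)) ∈ {χ : ℕ → Bool | {n | χ n = true} ∈ F} := by
      show {n | decide (n ∈ A) = true} ∈ F
      rw [hset]
      exact hA
    rw [← hgr] at h1
    obtain ⟨x, hx⟩ := h1
    exact ⟨x, by rw [hx, hset]⟩
  -- pigeonhole
  have hcov : F ⊆ ⋃ m : ℕ, {A ∈ F | ∀ N, ∃ k ≥ N, 1 / ((m : ℝ) + 1) < mu k A} := by
    intro A hA
    obtain ⟨m, hm⟩ := exists_freq (hpos A hA)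
    exact Set.mem_iUnion.2 ⟨m, hA, hm⟩
  obtain ⟨m, hm⟩ : ∃ m : ℕ, {A ∈ F | ∀ N, ∃ k ≥ N, 1 / ((m : ℝ) + 1) < mu k A}.Infinite := by
    by_contra hcon
    push Not at hcon
    refine hunc ((Set.countable_iUnion fun m => ?_).mono hcov)
    exact (hcon m).countable
  set f := Set.Infinite.natEmbedding _ hm with hf
  obtain ⟨X, hX1, hX2⟩ := main hg (fun x y hxy => had _ (hgF x) _ (hgF y) fun h => hxy (by
      funext n
      have h1 : (n ∈ {m | g x m = true}) ↔ n ∈ {m | g y m = true} := by rw [h]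
      simp only [Set.mem_ofPred_eq] at h1
      exact Bool.eq_iff_iff.2 h1))
    (A := fun l => (f l : Set ℕ)) (fun i j hij => f.injective (Subtype.ext hij))
    (fun l => hFg _ (f l).2.1) (c := 1 / ((m : ℝ) + 1)) (by positivity) (fun l => (f l).2.2)
  obtain ⟨A, hA, hA'⟩ := hmax X hX1
  obtain ⟨x, hx⟩ := hFg A hA
  exact hA' (hx ▸ hX2 x)

end Pool.Agent.Q215.ZMad
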